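import Pool.Graph.R_pool_sql_team_seeded_b0a926ef.R321.FC6

/-! Complex frequency polynomials: majorants, evaluation, the Euler operator. -/

open Finset Complex

namespace Pool.Agent.H478.CW

open Pool.Agent.R321.FA

/-- complex frequency polynomials -/
abbrev AC := AddMonoidAlgebra ℂ G

/-- `f` is dominated by the real polynomial `b` -/
def Le (f : AC) (b : Al) : Prop := ∀ e, ‖f.coeff e‖ ≤ b.coeff e

lemma Le.nonneg {f : AC} {b : Al} (h : Le f b) (e : G) : 0 ≤ b.coeff e :=
  (norm_nonneg _).trans (h e)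

lemma Le.add {f g : AC} {b c : Al} (hf : Le f b) (hg : Le g c) : Le (f + g) (b + c) := by
  intro e
  rw [AddMonoidAlgebra.coeff_add, AddMonoidAlgebra.coeff_add, Finsupp.add_apply, Finsupp.add_apply]
  exact (norm_add_le _ _).trans (add_le_add (hf e) (hg e))

lemma Le.neg {f : AC} {b : Al} (hf : Le f b) : Le (-f) b := by
  intro e
  rw [AddMonoidAlgebra.coeff_neg, Finsupp.neg_apply, norm_neg]
  exact hf e

lemma Le.single {a : G} {x : ℂ} {y : ℝ} (h : ‖x‖ ≤ y) :
    Le (AddMonoidAlgebra.single a x) (AddMonoidAlgebra.single a y) := by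
  classical
  intro e
  rw [AddMonoidAlgebra.coeff_single, AddMonoidAlgebra.coeff_single, Finsupp.single_apply,
    Finsupp.single_apply]
  split_ifs
  · exact h
  · rw [norm_zero]

lemma Le.zero : Le 0 0 := by
  intro e
  simp

lemma Le.sum {ι : Type*} (s : Finset ι) {f : ι → AC} {b : ι → Al} (h : ∀ i ∈ s, Le (f i) (b i)) :
    Le (∑ i ∈ s, f i) (∑ i ∈ s, b i) := by
  classical
  induction s using Finset.induction_on with
  | empty => rw [Finset.sum_empty, Finset.sum_empty]; exact Le.zero
  | insert i s hi ih =>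
    rw [Finset.sum_insert hi, Finset.sum_insert hi]
    exact (h i (Finset.mem_insert_self i s)).add
      (ih fun j hj => h j (Finset.mem_insert_of_mem hj))

lemma Le.mul {f g : AC} {b c : Al} (hf : Le f b) (hg : Le g c) : Le (f * g) (b * c) := by
  classical
  intro e
  rw [AddMonoidAlgebra.coeff_mul, AddMonoidAlgebra.coeff_mul]
  have hsf : f.coeff.support ⊆ b.coeff.support := by
    intro a ha
    rw [Finsupp.mem_support_iff] at ha ⊢
    intro h0
    have := hf a
    rw [h0] at this
    exact ha (norm_le_zero_iff.1 this)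
  have hsg : g.coeff.support ⊆ c.coeff.support := by
    intro a ha
    rw [Finsupp.mem_support_iff] at ha ⊢
    intro h0
    have := hg a
    rw [h0] at this
    exact ha (norm_le_zero_iff.1 this)
  unfold Finsupp.sum
  calc ‖∑ a ∈ f.coeff.support, ∑ b ∈ g.coeff.support,
        if a + b = e then f.coeff a * g.coeff b else 0‖ ≤
      ∑ a ∈ f.coeff.support, ∑ b ∈ g.coeff.support,
        ‖if a + b = e then f.coeff a * g.coeff b else 0‖ := by
        refine (norm_sum_le _ _).trans ?_
        exact Finset.sum_le_sum fun a _ => norm_sum_le _ _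
    _ ≤ ∑ a' ∈ f.coeff.support, ∑ b' ∈ g.coeff.support,
        (if a' + b' = e then b.coeff a' * c.coeff b' else 0) := by
        refine Finset.sum_le_sum fun a _ => Finset.sum_le_sum fun b _ => ?_
        split_ifs
        · rw [norm_mul]
          exact mul_le_mul (hf a) (hg b) (norm_nonneg _) (hf.nonneg a)
        · simp
    _ ≤ ∑ a' ∈ b.coeff.support, ∑ b' ∈ c.coeff.support,
        (if a' + b' = e then b.coeff a' * c.coeff b' else 0) := by
        have hnn : ∀ a' b', 0 ≤ (if a' + b' = e then b.coeff a' * c.coeff b' else 0) := by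
          intro a' b'
          split_ifs
          · exact mul_nonneg (hf.nonneg _) (hg.nonneg _)
          · exact le_rfl
        refine (Finset.sum_le_sum fun a _ => Finset.sum_le_sum_of_subset_of_nonneg hsg
          (fun b _ _ => hnn a b)).trans ?_
        exact Finset.sum_le_sum_of_subset_of_nonneg hsf
          (fun a _ _ => Finset.sum_nonneg fun b _ => hnn a b)
    _ = _ := rfl

lemma Le.one : Le 1 1 := by
  rw [AddMonoidAlgebra.one_def, AddMonoidAlgebra.one_def]
  exact Le.single (by simp)

lemma Le.pow {f : AC} {b : Al} (hf : Le f b) (k : ℕ) : Le (f ^ k) (b ^ k) := by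
  induction k with
  | zero => rw [pow_zero, pow_zero]; exact Le.one
  | succ k ih => rw [pow_succ, pow_succ]; exact ih.mul hf

/-! ### evaluation -/

/-- evaluation at `t` -/
noncomputable def evC (t : ℝ) : AC →ₐ[ℂ] ℂ := AddMonoidAlgebra.lift ℂ ℂ G (ch t)

lemma evC_single (t : ℝ) (e : G) (c : ℂ) :
    evC t (AddMonoidAlgebra.single e c) = c * cexp (((t * fr e : ℝ) : ℂ) * I) := by
  unfold evC
  rw [AddMonoidAlgebra.lift_single, smul_eq_mul]
  rfl

/-- real part of the coefficients -/
noncomputable def reA (f : AC) : Al :=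
  ∑ e ∈ f.coeff.support, AddMonoidAlgebra.single e (f.coeff e).re
/-- imaginary part of the coefficients -/
noncomputable def imA (f : AC) : Al :=
  ∑ e ∈ f.coeff.support, AddMonoidAlgebra.single e (f.coeff e).im

lemma sumA_coeff (f : AC) (h : ℂ → ℝ) (h0 : h 0 = 0) (e : G) :
    (∑ e ∈ f.coeff.support, (AddMonoidAlgebra.single e (h (f.coeff e)) : Al)).coeff e =
      h (f.coeff e) := by
  classical
  rw [AddMonoidAlgebra.coeff_sum, Finsupp.finsetSum_apply]
  simp only [AddMonoidAlgebra.coeff_single, Finsupp.single_apply]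
  rw [Finset.sum_ite_eq' f.coeff.support e (fun x => h (f.coeff x))]
  split_ifs with h'
  · rfl
  · rw [Finsupp.notMem_support_iff.1 h', h0]

lemma reA_coeff (f : AC) (e : G) : (reA f).coeff e = (f.coeff e).re :=
  sumA_coeff f Complex.re rfl e
lemma imA_coeff (f : AC) (e : G) : (imA f).coeff e = (f.coeff e).im :=
  sumA_coeff f Complex.im rfl e

lemma evC_eq (t : ℝ) (f : AC) :
    evC t f = ∑ e ∈ f.coeff.support, f.coeff e * cexp (((t * fr e : ℝ) : ℂ) * I) := by
  have h : f = ∑ e ∈ f.coeff.support, AddMonoidAlgebra.single e (f.coeff e) := by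
    classical
    apply AddMonoidAlgebra.coeff_injective
    ext e
    rw [AddMonoidAlgebra.coeff_sum, Finsupp.finsetSum_apply]
    simp only [AddMonoidAlgebra.coeff_single, Finsupp.single_apply]
    rw [Finset.sum_ite_eq' f.coeff.support e (fun x => f.coeff x)]
    split_ifs with h'
    · rfl
    · exact Finsupp.notMem_support_iff.1 h'
  conv_lhs => rw [h]
  rw [map_sum]
  exact Finset.sum_congr rfl fun e _ => evC_single t e _

lemma evC_reim (t : ℝ) (f : AC) : evC t f = ev t (reA f) + ev t (imA f) * I := by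
  unfold reA imA
  rw [map_sum, map_sum, evC_eq, Finset.sum_mul, ← Finset.sum_add_distrib]
  refine Finset.sum_congr rfl fun e _ => ?_
  rw [ev_single, ev_single]
  conv_lhs => rw [← Complex.re_add_im (f.coeff e)]
  ring

lemma dom_part {U : Finset ℕ} {v : ℕ → ℝ} {k : ℕ} {C : ℝ} {f : AC} {b : Al} (h : Le f b)
    (hb : Dom U v k C b.coeff) (a : G → ℝ) (ha : ∀ e, |a e| ≤ ‖f.coeff e‖) : Dom U v k C a := by
  intro e
  obtain ⟨h1, h2⟩ := hb e
  refine ⟨(ha e).trans ((h e).trans ((le_abs_self _).trans h1)), fun h0 => h2 fun hb0 => h0 ?_⟩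
  have h3 := (ha e).trans (h e)
  rw [hb0] at h3
  exact abs_nonpos_iff.1 h3

lemma reA_dom {U : Finset ℕ} {v : ℕ → ℝ} {k : ℕ} {C : ℝ} {f : AC} {b : Al} (h : Le f b)
    (hb : Dom U v k C b.coeff) : Dom U v k C (reA f).coeff :=
  dom_part h hb _ fun e => by rw [reA_coeff]; exact Complex.abs_re_le_norm _

lemma imA_dom {U : Finset ℕ} {v : ℕ → ℝ} {k : ℕ} {C : ℝ} {f : AC} {b : Al} (h : Le f b)
    (hb : Dom U v k C b.coeff) : Dom U v k C (imA f).coeff :=
  dom_part h hb _ fun e => by rw [imA_coeff]; exact Complex.abs_im_le_norm _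

lemma ht_part {H : ℝ} {f : AC} {b a : Al} (h : Le f b) (hb : Ht b H)
    (ha : ∀ e, |a.coeff e| ≤ ‖f.coeff e‖) : Ht a H := by
  intro e he
  apply hb e
  intro hb0
  have h3 := (ha e).trans (h e)
  rw [hb0] at h3
  exact he (abs_nonpos_iff.1 h3)

/-! ### the Euler operator -/

/-- the Euler operator of the prime `p` -/
noncomputable def DC (p : ℕ) (f : AC) : AC :=
  ∑ e ∈ f.coeff.support, AddMonoidAlgebra.single e ((e p : ℂ) * f.coeff e)

lemma DC_coeff (p : ℕ) (f : AC) (e : G) : (DC p f).coeff e = (e p : ℂ) * f.coeff e := by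
  classical
  unfold DC
  rw [AddMonoidAlgebra.coeff_sum, Finsupp.finsetSum_apply]
  simp only [AddMonoidAlgebra.coeff_single, Finsupp.single_apply]
  rw [Finset.sum_ite_eq' f.coeff.support e (fun x => (x p : ℂ) * f.coeff x)]
  split_ifs with h
  · rfl
  · rw [Finsupp.notMem_support_iff.1 h, mul_zero]

lemma DC_add (p : ℕ) (f g : AC) : DC p (f + g) = DC p f + DC p g := by
  apply AddMonoidAlgebra.coeff_injective
  ext e
  rw [DC_coeff, AddMonoidAlgebra.coeff_add, AddMonoidAlgebra.coeff_add, Finsupp.add_apply,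
    Finsupp.add_apply, DC_coeff, DC_coeff]
  ring

lemma DC_neg (p : ℕ) (f : AC) : DC p (-f) = - DC p f := by
  apply AddMonoidAlgebra.coeff_injective
  ext e
  rw [DC_coeff, AddMonoidAlgebra.coeff_neg, AddMonoidAlgebra.coeff_neg, Finsupp.neg_apply,
    Finsupp.neg_apply, DC_coeff]
  ring

lemma DC_single (p : ℕ) (a : G) (x : ℂ) :
    DC p (AddMonoidAlgebra.single a x) = AddMonoidAlgebra.single a ((a p : ℂ) * x) := by
  classical
  apply AddMonoidAlgebra.coeff_injective
  ext e
  rw [DC_coeff, AddMonoidAlgebra.coeff_single, AddMonoidAlgebra.coeff_single, Finsupp.single_apply,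
    Finsupp.single_apply]
  split_ifs with h
  · rw [h]
  · rw [mul_zero]

lemma DC_zero (p : ℕ) : DC p 0 = 0 := by
  apply AddMonoidAlgebra.coeff_injective
  ext e
  rw [DC_coeff]
  simp

/-- product rule -/
lemma DC_mul (p : ℕ) (f g : AC) : DC p (f * g) = DC p f * g + f * DC p g := by
  induction f using AddMonoidAlgebra.induction_linear with
  | zero => rw [zero_mul, DC_zero, zero_mul, zero_mul, add_zero]
  | add f1 f2 h1 h2 =>
    rw [add_mul, DC_add, DC_add, h1, h2]
    ring
  | single a x =>
    induction g using AddMonoidAlgebra.induction_linear with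
    | zero => rw [mul_zero, DC_zero, mul_zero, mul_zero, add_zero]
    | add g1 g2 h1 h2 =>
      rw [mul_add, DC_add, DC_add, h1, h2]
      ring
    | single b y =>
      rw [AddMonoidAlgebra.single_mul_single, DC_single, DC_single, DC_single,
        AddMonoidAlgebra.single_mul_single, AddMonoidAlgebra.single_mul_single,
        ← AddMonoidAlgebra.single_add]
      congr 1
      rw [Finsupp.add_apply]
      push_cast
      ring

/-- product rule for powers -/
lemma DC_pow (p : ℕ) (f : AC) (k : ℕ) : DC p (f ^ (k + 1)) = ((k + 1 : ℕ) : AC) * (DC p f * f ^ k) := by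
  induction k with
  | zero => simp
  | succ k ih =>
    rw [pow_succ, DC_mul, ih]
    push_cast
    ring

end Pool.Agent.H478.CW
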