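import Pool.Agent.H478.CW9

/-! The limiting normal vector, the limit of the covariances. -/

open Finset Complex MeasureTheory Filter Topology ProbabilityTheory
open scoped RealInnerProductSpace BoundedContinuousFunction

namespace Pool.Agent.H478.CW

open Pool.Agent.R321.FA
open SP (ZZ mu RHs)
open H370.A2 (RR evp evp_zero)

/-- Euclidean space -/
abbrev EE (m : ℕ) := EuclideanSpace ℝ (Fin m)

/-- independent standard normal variables -/
noncomputable def gpi (m : ℕ) : Measure (Fin (m + 1) → ℝ) := Measure.pi fun _ => gaussianReal 0 1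

instance (m : ℕ) : IsProbabilityMeasure (gpi m) := by unfold gpi; infer_instance

/-- the differences -/
noncomputable def gdf (m : ℕ) (z : Fin (m + 1) → ℝ) : EE m :=
  WithLp.toLp 2 fun j => (z j.succ - z 0) / Real.sqrt 2

lemma gdf_cont (m : ℕ) : Continuous (gdf m) := by
  unfold gdf
  apply (PiLp.continuous_toLp 2 _).comp
  fun_prop

/-- the limit law -/
noncomputable def glaw (m : ℕ) : ProbabilityMeasure (EE m) :=
  ⟨(gpi m).map (gdf m), Measure.isProbabilityMeasure_map (gdf_cont m).aemeasurable⟩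

/-- the limiting variance -/
noncomputable def sgm {m : ℕ} (u : EE m) : ℝ := ((∑ j, u j ^ 2) + (∑ j, u j) ^ 2) / 2

lemma glaw_int {m : ℕ} (f : EE m → ℝ) (hf : Continuous f) :
    ∫ x, f x ∂(glaw m : Measure (EE m)) = ∫ z, f (gdf m z) ∂(gpi m) := by
  show ∫ x, f x ∂((gpi m).map (gdf m)) = _
  rw [integral_map (gdf_cont m).aemeasurable hf.aestronglyMeasurable]

lemma inner_eq {m : ℕ} (x u : EE m) : ⟪x, u⟫ = ∑ j, x j * u j := by
  rw [PiLp.inner_apply]
  refine Finset.sum_congr rfl fun j _ => ?_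
  simp [mul_comm]

lemma glaw_char {m : ℕ} (u : EE m) :
    charFun (glaw m : Measure (EE m)) u = cexp (-(sgm u : ℂ) / 2) := by
  set c : EE (m + 1) := WithLp.toLp 2 (Fin.cons (-(∑ j, u j) / Real.sqrt 2)
    (fun j => u j / Real.sqrt 2) : Fin (m + 1) → ℝ) with hc
  have h1 := charFun_pi (μ := fun _ : Fin (m + 1) => gaussianReal 0 1) c
  have h2 : charFun (glaw m : Measure (EE m)) u =
      charFun ((Measure.pi fun _ : Fin (m + 1) => gaussianReal 0 1).map (WithLp.toLp 2)) c := by
    rw [charFun_apply, charFun_apply]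
    show ∫ x, cexp ((⟪x, u⟫ : ℝ) * I) ∂((gpi m).map (gdf m)) = _
    rw [integral_map (gdf_cont m).aemeasurable (by
      apply Continuous.aestronglyMeasurable; fun_prop),
      integral_map (by fun_prop) (by
      apply Continuous.aestronglyMeasurable; fun_prop)]
    refine integral_congr_ae (Eventually.of_forall fun z => ?_)
    show cexp ((⟪gdf m z, u⟫ : ℝ) * I) = cexp ((⟪(WithLp.toLp 2 z : EE (m + 1)), c⟫ : ℝ) * I)
    congr 3
    rw [inner_eq, inner_eq, Fin.sum_univ_succ]
    simp only [hc, gdf, Fin.cons_zero, Fin.cons_succ]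
    have e : ∀ j : Fin m, (z j.succ - z 0) / Real.sqrt 2 * u j =
        z j.succ * (u j / Real.sqrt 2) - z 0 / Real.sqrt 2 * u j := fun j => by ring
    simp only [e]
    rw [Finset.sum_sub_distrib, ← Finset.mul_sum]
    ring
  rw [h2, h1]
  simp only [charFun_gaussianReal]
  rw [← Complex.exp_sum]
  congr 1
  rw [Fin.sum_univ_succ]
  simp only [hc, Fin.cons_zero, Fin.cons_succ]
  have hs : (Real.sqrt 2) ^ 2 = 2 := Real.sq_sqrt (by norm_num)
  have e1 : ∀ y : ℝ, ((y : ℂ) * ((0 : ℝ) : ℂ) * I - ((1 : NNReal) : ℂ) * (y : ℂ) ^ 2 / 2) =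
      ((-(y ^ 2) / 2 : ℝ) : ℂ) := by
    intro y
    push_cast
    simp
    ring
  simp only [e1]
  rw [← Complex.ofReal_sum, ← Complex.ofReal_add]
  have e2 : -(sgm u : ℂ) / 2 = ((-(sgm u) / 2 : ℝ) : ℂ) := by push_cast; ring
  rw [e2]
  congr 1
  unfold sgm
  have e3 : ∀ j, -((u j / Real.sqrt 2) ^ 2) / 2 = -(1 / 4) * u j ^ 2 := by
    intro j
    rw [div_pow, hs]; ring
  simp only [e3]
  rw [← Finset.mul_sum, div_pow, hs]
  ring

/-! ### the limit of the covariances -/

/-- sequences of window lengths -/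
structure GS {m : ℕ} (x : ℕ → Fin m → ℝ) : Prop where
  inf : ∀ j, Tendsto (fun r => x r j) atTop atTop
  log : ∀ j, Tendsto (fun r : ℕ => Real.log (x r j) / Real.log r) atTop (𝓝 1)
  inf2 : ∀ i j, i ≠ j → Tendsto (fun r => |x r i - x r j|) atTop atTop
  log2 : ∀ i j, i ≠ j →
    Tendsto (fun r : ℕ => Real.log |x r i - x r j| / Real.log r) atTop (𝓝 1)

/-- the normalisation -/
noncomputable def rho (r : ℕ) : ℝ := Real.pi / Real.sqrt (Real.log r)

lemma log_nat_atTop : Tendsto (fun r : ℕ => Real.log r) atTop atTop :=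
  Real.tendsto_log_atTop.comp tendsto_natCast_atTop_atTop

lemma Wf_lim {δ : ℝ} (hδ : 0 < δ) (hδ1 : δ ≤ 1) {y : ℕ → ℝ} (h1 : Tendsto y atTop atTop)
    (h2 : Tendsto (fun r : ℕ => Real.log (y r) / Real.log r) atTop (𝓝 1)) :
    Tendsto (fun r : ℕ => Wf δ (y r) / Real.log r) atTop (𝓝 1) := by
  have h3 : Tendsto (fun r : ℕ => (Wf δ (y r) - Real.log (y r)) / Real.log r) atTop (𝓝 0) := by
    have h4 : Tendsto (fun r : ℕ => (29 - Real.log δ) / Real.log r) atTop (𝓝 0) :=
      log_nat_atTop.const_div_atTop _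
    refine squeeze_zero_norm' ?_ h4
    filter_upwards [h1.eventually_ge_atTop (1 / δ), log_nat_atTop.eventually_gt_atTop 0] with r a b
    rw [Real.norm_eq_abs, abs_div, abs_of_pos b]
    have := Wf_log hδ hδ1 a
    gcongr
  have h5 := h3.add h2
  rw [zero_add] at h5
  refine h5.congr fun r => ?_
  rw [← add_div]; ring_nf

/-- **the limit of the variances** -/
theorem KA_lim {m : ℕ} {x : ℕ → Fin m → ℝ} (hx : GS x) {δ : ℝ} (hδ : 0 < δ) (hδ1 : δ ≤ 1)
    (u : EE m) : Tendsto (fun r : ℕ => KA (fun j => psb δ (x r j)) (fun j => x r j / 2)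
      (fun j => rho r * u j)) atTop (𝓝 (sgm u)) := by
  have hpi := Real.pi_pos
  have h1 : ∀ i j : Fin m, Tendsto (fun r : ℕ => (Wf δ (x r i) + Wf δ (x r j) -
      Wf δ (x r i - x r j)) / Real.log r / 2) atTop (𝓝 ((1 + if i = j then 1 else 0) / 2)) := by
    intro i j
    have a1 := Wf_lim hδ hδ1 (hx.inf i) (hx.log i)
    have a2 := Wf_lim hδ hδ1 (hx.inf j) (hx.log j)
    have a3 : Tendsto (fun r : ℕ => Wf δ (x r i - x r j) / Real.log r) atTop
        (𝓝 (if i = j then 0 else 1)) := by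
      by_cases h : i = j
      · rw [if_pos h, h]
        simp only [sub_self, Wf_zero, zero_div]
        exact tendsto_const_nhds
      · rw [if_neg h]
        refine (Wf_lim hδ hδ1 (hx.inf2 i j h) (hx.log2 i j h)).congr fun r => ?_
        rcases abs_choice (x r i - x r j) with e | e
        · rw [e]
        · rw [e, Wf_neg]
    have a4 := ((a1.add a2).sub a3).div_const 2
    have e : (1 + 1 - (if i = j then (0 : ℝ) else 1)) / 2 = (1 + if i = j then 1 else 0) / 2 := by
      split_ifs <;> norm_num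
    rw [e] at a4
    refine a4.congr fun r => ?_
    ring
  have h2 : Tendsto (fun r : ℕ => ∑ i, ∑ j, u i * u j * ((Wf δ (x r i) + Wf δ (x r j) -
      Wf δ (x r i - x r j)) / Real.log r / 2)) atTop
      (𝓝 (∑ i, ∑ j, u i * u j * ((1 + if i = j then 1 else 0) / 2))) :=
    tendsto_finsetSum _ fun i _ => tendsto_finsetSum _ fun j _ => (h1 i j).const_mul _
  have e1 : ∑ i, ∑ j, u i * u j * ((1 + if i = j then (1 : ℝ) else 0) / 2) = sgm u := by
    unfold sgm
    have : ∀ i j : Fin m, u i * u j * ((1 + if i = j then (1 : ℝ) else 0) / 2) =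
        u i * u j / 2 + (if i = j then u i * u j / 2 else 0) := by
      intro i j; split_ifs <;> ring
    simp only [this, Finset.sum_add_distrib, Finset.sum_ite_eq, Finset.mem_univ, if_true]
    rw [sq (∑ j, u j), Finset.sum_mul_sum, add_div, Finset.sum_div, Finset.sum_div, add_comm]
    congr 1
    · refine Finset.sum_congr rfl fun i _ => ?_
      ring
    · refine Finset.sum_congr rfl fun i _ => ?_
      rw [Finset.sum_div]
  rw [e1] at h2
  refine h2.congr' ?_
  filter_upwards [log_nat_atTop.eventually_gt_atTop 0] with r hr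
  unfold KA
  refine Finset.sum_congr rfl fun i _ => Finset.sum_congr rfl fun j _ => ?_
  rw [cov_eq]
  unfold rho
  have hs : Real.sqrt (Real.log r) ^ 2 = Real.log r := Real.sq_sqrt hr.le
  have hs0 : 0 < Real.sqrt (Real.log r) := Real.sqrt_pos.2 hr
  have e2 : Real.pi / Real.sqrt (Real.log r) * u i * (Real.pi / Real.sqrt (Real.log r) * u j) =
      Real.pi ^ 2 / Real.sqrt (Real.log r) ^ 2 * (u i * u j) := by
    field_simp
  rw [e2, hs]
  field_simp

end Pool.Agent.H478.CW
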