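import Pool.Agent.H478.CW10

/-! The law of the smoothed counts in almost all windows. -/

open Finset Complex MeasureTheory Filter Topology ProbabilityTheory
open scoped RealInnerProductSpace BoundedContinuousFunction

namespace Pool.Agent.H478.CW

open Pool.Agent.R321.FA
open SP (ZZ mu RHs)
open H370.A2 (RR evp evp_zero)

/-! ### the law of a path -/

section path

variable {E : Type*} [NormedAddCommGroup E] [InnerProductSpace ℝ E] [FiniteDimensional ℝ E]
  [MeasurableSpace E] [BorelSpace E]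

/-- the law of a path at a uniform time in `(0, Λ]` -/
noncomputable def wlaw (Λ : ℝ) (Y : ℝ → E) : Measure E :=
  (ENNReal.ofReal (1 / Λ) • (volume.restrict (Set.Ioc 0 Λ))).map Y

omit [InnerProductSpace ℝ E] [FiniteDimensional ℝ E] in
lemma wlaw_prob {Λ : ℝ} (hΛ : 0 < Λ) {Y : ℝ → E} (hY : Continuous Y) :
    IsProbabilityMeasure (wlaw Λ Y) := by
  unfold wlaw
  have : IsProbabilityMeasure (ENNReal.ofReal (1 / Λ) •
      (volume.restrict (Set.Ioc 0 Λ) : Measure ℝ)) := by
    constructor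
    rw [Measure.smul_apply, Measure.restrict_apply_univ, Real.volume_Ioc, sub_zero, smul_eq_mul,
      ← ENNReal.ofReal_mul (by positivity)]
    rw [one_div, inv_mul_cancel₀ hΛ.ne', ENNReal.ofReal_one]
  exact Measure.isProbabilityMeasure_map hY.aemeasurable

omit [InnerProductSpace ℝ E] [FiniteDimensional ℝ E] in
lemma wlaw_int {Λ : ℝ} (hΛ : 0 < Λ) {Y : ℝ → E} (hY : Continuous Y) {f : E → ℝ}
    (hf : Continuous f) [SecondCountableTopology E] :
    Integrable f (wlaw Λ Y) ∧ ∫ x, f x ∂(wlaw Λ Y) = 1 / Λ * ∫ s in (0 : ℝ)..Λ, f (Y s) := by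
  unfold wlaw
  constructor
  · rw [integrable_map_measure hf.aestronglyMeasurable hY.aemeasurable]
    apply Integrable.smul_measure _ ENNReal.ofReal_ne_top
    exact ((hf.comp hY).integrableOn_Icc (a := 0) (b := Λ)).mono_set Set.Ioc_subset_Icc_self
  · rw [integral_map hY.aemeasurable hf.aestronglyMeasurable, integral_smul_measure,
      intervalIntegral.integral_of_le hΛ.le, ENNReal.toReal_ofReal (by positivity), smul_eq_mul]

end path

/-- the normalised smooth counts -/
noncomputable def Ys {m : ℕ} (δ : ℝ) (x : Fin m → ℝ) (ρ T t : ℝ) : EE m :=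
  WithLp.toLp 2 fun j => ρ * (XX (psb δ (x j)) δ T (t + 2 * Real.pi * (x j / 2) / Real.log T) - x j)

lemma Ys_cont {m : ℕ} {δ : ℝ} (hδ : 0 < δ) {x : Fin m → ℝ} (hx : ∀ j, 0 < x j) (ρ : ℝ) {T : ℝ}
    (hT : 1 ≤ T) : Continuous (Ys δ x ρ T) := by
  unfold Ys
  apply (PiLp.continuous_toLp 2 _).comp
  apply continuous_pi
  intro j
  exact continuous_const.mul (((XX_cont (psb_cont hδ (hx j).le) δ hT).comp (by fun_prop)).sub
    continuous_const)

lemma Ys_inner {m : ℕ} {δ : ℝ} (x : Fin m → ℝ) (ρ T t : ℝ) (u : EE m) :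
    ⟪Ys δ x ρ T t, u⟫ = AU (fun j => psb δ (x j)) δ (fun j => x j / 2) (fun j => ρ * u j) T t := by
  rw [inner_eq]
  unfold Ys AU
  rw [← Finset.sum_sub_distrib]
  refine Finset.sum_congr rfl fun j _ => ?_
  show ρ * (XX (psb δ (x j)) δ T (t + 2 * Real.pi * (x j / 2) / Real.log T) - x j) * u j =
    ρ * u j * XX (psb δ (x j)) δ T (t + 2 * Real.pi * (x j / 2) / Real.log T) -
      ρ * u j * psb δ (x j) 0
  rw [psb_zero_val]
  ring

/-- **the law of the smoothed counts** in almost all windows -/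
theorem smooth_law (hRH : RHs) {m : ℕ} {x : ℕ → Fin m → ℝ} (hx : GS x) (g : EE m →ᵇ ℝ)
    (hg : ∀ z, |g z| ≤ 1) {ε : ℝ} (hε : 0 < ε) : ∃ δ : ℝ, 0 < δ ∧ δ ≤ 1 ∧
    ∀ᶠ r : ℕ in atTop, (∀ j, 0 < x r j) ∧ ∀ᶠ Λ : ℝ in atTop, ∀ᶠ T : ℝ in atTop,
    ∫ t in (T + 8 * Real.log T)..(2 * T - 8 * Real.log T),
      |1 / Λ * (∫ s in (0 : ℝ)..Λ, g (Ys δ (x r) (rho r) T (t + 2 * Real.pi * s / Real.log T))) -
        ∫ z, g z ∂(glaw m : Measure (EE m))| ≤ ε * T := by
  classical
  obtain ⟨K, F, η, hη, hmom⟩ := mom_law (glaw m) sgm glaw_char g (half_pos hε)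
  set δ : ℝ := 1 / ((K : ℝ) + 2) with hδdef
  have hK0 : (0 : ℝ) ≤ K := Nat.cast_nonneg K
  have hδ : 0 < δ := by positivity
  have hδ1 : δ ≤ 1 := by rw [hδdef, div_le_one (by positivity)]; linarith
  refine ⟨δ, hδ, hδ1, ?_⟩
  have e1 : ∀ᶠ r : ℕ in atTop, ∀ j, 0 < x r j :=
    eventually_all.2 fun j => (hx.inf j).eventually_gt_atTop 0
  have e2 : ∀ᶠ r : ℕ in atTop, ∀ u ∈ F, ∀ k ∈ Finset.range (K + 1),
      |gm 0 (KA (fun j => psb δ (x r j)) (fun j => x r j / 2) (fun j => rho r * u j)) k -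
        gm 0 (sgm u) k| ≤ η / 2 := by
    rw [Finset.eventually_all]
    intro u _
    rw [Finset.eventually_all]
    intro k _
    have h1 := ((gm_cont k).tendsto (sgm u)).comp (KA_lim hx hδ hδ1 u)
    have h2 := Metric.tendsto_nhds.1 h1 (η / 2) (by positivity)
    filter_upwards [h2] with r hr
    rw [Real.dist_eq] at hr
    exact hr.le
  filter_upwards [e1, e2] with r hr1 hr2
  refine ⟨hr1, ?_⟩
  set N : ℝ := (F.card : ℝ) * (K + 1) + 1 with hN
  have hN0 : 0 < N := by positivity
  set η1 : ℝ := ε * η / (8 * N) with hη1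
  have hη10 : 0 < η1 := by positivity
  have hTT : TT (fun j => psb δ (x r j)) δ := psb_TT hδ hδ1 hr1
  have e3 : ∀ᶠ Λ : ℝ in atTop, ∀ u ∈ F, ∀ k ∈ Finset.range (K + 1), ∀ᶠ T : ℝ in atTop,
      T + 8 * Real.log T ≤ 2 * T - 8 * Real.log T ∧
      ∫ t in (T + 8 * Real.log T)..(2 * T - 8 * Real.log T),
      |1 / Λ * (∫ s in (0 : ℝ)..Λ, AU (fun j => psb δ (x r j)) δ (fun j => x r j / 2)
        (fun j => rho r * u j) T (t + 2 * Real.pi * s / Real.log T) ^ k) -
        gm 0 (KA (fun j => psb δ (x r j)) (fun j => x r j / 2) (fun j => rho r * u j)) k| ≤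
        η1 * T := by
    rw [Finset.eventually_all]
    intro u _
    rw [Finset.eventually_all]
    intro k hk
    have hkK : k ≤ K := Nat.lt_succ_iff.1 (Finset.mem_range.1 hk)
    obtain ⟨Λ0, _, h⟩ := quench hRH hTT hδ (fun j => x r j / 2) (fun j => rho r * u j) k (by
      rw [hδdef, mul_one_div, div_lt_one (by positivity)]
      have : (k : ℝ) ≤ K := by exact_mod_cast hkK
      linarith) η1 hη10
    filter_upwards [eventually_ge_atTop Λ0] with Λ hΛ
    obtain ⟨T0, _, h2⟩ := h Λ hΛ
    filter_upwards [eventually_ge_atTop T0] with T hT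
    exact h2 T hT
  filter_upwards [e3, eventually_ge_atTop 1] with Λ hΛ hΛ1
  have hΛ0 : 0 < Λ := by linarith
  have e4 : ∀ᶠ T : ℝ in atTop, ∀ u ∈ F, ∀ k ∈ Finset.range (K + 1),
      T + 8 * Real.log T ≤ 2 * T - 8 * Real.log T ∧
      ∫ t in (T + 8 * Real.log T)..(2 * T - 8 * Real.log T),
      |1 / Λ * (∫ s in (0 : ℝ)..Λ, AU (fun j => psb δ (x r j)) δ (fun j => x r j / 2)
        (fun j => rho r * u j) T (t + 2 * Real.pi * s / Real.log T) ^ k) -
        gm 0 (KA (fun j => psb δ (x r j)) (fun j => x r j / 2) (fun j => rho r * u j)) k| ≤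
        η1 * T := by
    rw [Finset.eventually_all]
    intro u hu
    rw [Finset.eventually_all]
    intro k hk
    exact hΛ u hu k hk
  have e5 : ∀ᶠ T : ℝ in atTop, T + 8 * Real.log T ≤ 2 * T - 8 * Real.log T := by
    have h := Real.isLittleO_log_id_atTop.def (by norm_num : (0 : ℝ) < 1 / 16)
    filter_upwards [h, eventually_ge_atTop 1] with T h1 h2
    rw [Real.norm_eq_abs, Real.norm_eq_abs, id, abs_of_nonneg (by linarith : (0 : ℝ) ≤ T),
      abs_of_nonneg (Real.log_nonneg h2)] at h1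
    linarith
  filter_upwards [e4, e5, eventually_ge_atTop 10] with T hT hV hT10
  have hT1 : 1 ≤ T := by linarith
  have hL1 := log_one_le hT10
  set L := Real.log T with hL
  set V1 := T + 8 * L with hV1
  set V2 := 2 * T - 8 * L with hV2
  set D : EE m → ℕ → ℝ → ℝ := fun u k t => |1 / Λ * (∫ s in (0 : ℝ)..Λ,
    AU (fun j => psb δ (x r j)) δ (fun j => x r j / 2)
        (fun j => rho r * u j) T (t + 2 * Real.pi * s / L) ^ k) -
        gm 0 (KA (fun j => psb δ (x r j)) (fun j => x r j / 2) (fun j => rho r * u j)) k| with hD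
  have hD0 : ∀ u k t, 0 ≤ D u k t := fun u k t => abs_nonneg _
  have hDc : ∀ u k, Continuous (D u k) := by
    intro u k
    simp only [hD]
    refine ((continuous_const.mul ?_).sub continuous_const).abs
    apply intervalIntegral.continuous_parametric_intervalIntegral_of_continuous'
    exact ((AU_cont hTT _ _ hT1).pow k).comp (by fun_prop :
      Continuous fun q : ℝ × ℝ => q.1 + 2 * Real.pi * q.2 / L)
  have hYc : Continuous (Ys δ (x r) (rho r) T) := Ys_cont hδ hr1 _ hT1
  have hpt : ∀ t, |1 / Λ * (∫ s in (0 : ℝ)..Λ, g (Ys δ (x r) (rho r) T (t + 2 * Real.pi * s / L))) -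
      ∫ z, g z ∂(glaw m : Measure (EE m))| ≤
      ε / 2 + ∑ u ∈ F, ∑ k ∈ Finset.range (K + 1), 4 / η * D u k t := by
    intro t
    have hpc : Continuous fun s => Ys δ (x r) (rho r) T (t + 2 * Real.pi * s / L) :=
      hYc.comp (by fun_prop)
    set μ : ProbabilityMeasure (EE m) := ⟨wlaw Λ (fun s => Ys δ (x r) (rho r) T
      (t + 2 * Real.pi * s / L)), wlaw_prob hΛ0 hpc⟩ with hμ
    have hgi := wlaw_int hΛ0 hpc (f := g) g.continuous
    have hS0 : 0 ≤ ∑ u ∈ F, ∑ k ∈ Finset.range (K + 1), 4 / η * D u k t :=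
      Finset.sum_nonneg fun u _ => Finset.sum_nonneg fun k _ =>
        mul_nonneg (by positivity) (hD0 u k t)
    by_cases hall : ∀ u ∈ F, ∀ k ∈ Finset.range (K + 1), D u k t ≤ η / 2
    · have h1 := hmom μ (fun u hu k hk => by
        have hk' : k ∈ Finset.range (K + 1) := Finset.mem_range.2 (Nat.lt_succ_of_le hk)
        have h2 := wlaw_int hΛ0 hpc (f := fun z => ⟪z, u⟫ ^ k) (by fun_prop)
        refine ⟨h2.1, ?_⟩
        have h3 := hall u hu k hk'
        have h4 := hr2 u hu k hk'
        show |∫ z, ⟪z, u⟫ ^ k ∂(wlaw Λ _) - _| ≤ η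
        rw [h2.2]
        simp only [Ys_inner]
        simp only [hD] at h3
        have h5 := abs_sub_le (1 / Λ * (∫ s in (0 : ℝ)..Λ,
          AU (fun j => psb δ (x r j)) δ (fun j => x r j / 2)
          (fun j => rho r * u j) T (t + 2 * Real.pi * s / L) ^ k))
          (gm 0 (KA (fun j => psb δ (x r j)) (fun j => x r j / 2) (fun j => rho r * u j)) k)
          (gm 0 (sgm u) k)
        linarith)
      have h6 : ∫ z, g z ∂(μ : Measure (EE m)) = 1 / Λ * ∫ s in (0 : ℝ)..Λ,
          g (Ys δ (x r) (rho r) T (t + 2 * Real.pi * s / L)) := hgi.2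
      rw [h6] at h1
      linarith
    · push Not at hall
      obtain ⟨u, hu, k, hk, huk⟩ := hall
      have h1 : 4 / η * D u k t ≤ ∑ u ∈ F, ∑ k ∈ Finset.range (K + 1), 4 / η * D u k t := by
        refine le_trans ?_ (Finset.single_le_sum (f := fun u => ∑ k ∈ Finset.range (K + 1),
          4 / η * D u k t) (fun u _ => Finset.sum_nonneg fun k _ =>
          mul_nonneg (by positivity) (hD0 u k t)) hu)
        exact Finset.single_le_sum (f := fun k => 4 / η * D u k t) (fun k _ =>
          mul_nonneg (by positivity) (hD0 u k t)) hk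
      have h2 : 2 ≤ 4 / η * D u k t := by
        calc (2 : ℝ) = 4 / η * (η / 2) := by field_simp; norm_num
          _ ≤ _ := by gcongr
      have h3 : |1 / Λ * (∫ s in (0 : ℝ)..Λ,
          g (Ys δ (x r) (rho r) T (t + 2 * Real.pi * s / L)))| ≤ 1 := by
        rw [abs_mul, abs_of_pos (by positivity : 0 < 1 / Λ)]
        have h4 := intervalIntegral.norm_integral_le_of_norm_le_const (a := (0 : ℝ)) (b := Λ)
          (C := 1) (f := fun s => g (Ys δ (x r) (rho r) T (t + 2 * Real.pi * s / L)))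
          (fun s _ => by rw [Real.norm_eq_abs]; exact hg _)
        rw [Real.norm_eq_abs, sub_zero, abs_of_pos hΛ0, one_mul] at h4
        calc 1 / Λ * |∫ s in (0 : ℝ)..Λ, g (Ys δ (x r) (rho r) T (t + 2 * Real.pi * s / L))| ≤
            1 / Λ * Λ := by gcongr
          _ = 1 := by field_simp
      have h5 : |∫ z, g z ∂(glaw m : Measure (EE m))| ≤ 1 := by
        have := norm_integral_le_of_norm_le_const (μ := (glaw m : Measure (EE m))) (C := 1)
          (f := fun z => g z) (Eventually.of_forall fun z => by rw [Real.norm_eq_abs]; exact hg z)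
        simpa using this
      have h6 := abs_sub (1 / Λ * (∫ s in (0 : ℝ)..Λ,
          g (Ys δ (x r) (rho r) T (t + 2 * Real.pi * s / L)))) (∫ z, g z ∂(glaw m : Measure (EE m)))
      linarith
  have hsumc : Continuous fun t => ∑ u ∈ F, ∑ k ∈ Finset.range (K + 1), 4 / η * D u k t :=
    continuous_finsetSum _ fun u _ => continuous_finsetSum _ fun k _ =>
      continuous_const.mul (hDc u k)
  have hint : ∫ t in V1..V2, ∑ u ∈ F, ∑ k ∈ Finset.range (K + 1), 4 / η * D u k t =
      ∑ u ∈ F, ∑ k ∈ Finset.range (K + 1), 4 / η * ∫ t in V1..V2, D u k t := by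
    have c1 : ∀ u k, Continuous fun t => 4 / η * D u k t := fun u k =>
      continuous_const.mul (hDc u k)
    have c2 : ∀ u, Continuous fun t => ∑ k ∈ Finset.range (K + 1), 4 / η * D u k t := fun u =>
      continuous_finsetSum _ fun k _ => c1 u k
    rw [intervalIntegral.integral_finsetSum fun u _ => (c2 u).intervalIntegrable _ _]
    refine Finset.sum_congr rfl fun u _ => ?_
    rw [intervalIntegral.integral_finsetSum fun k _ => (c1 u k).intervalIntegrable _ _]
    refine Finset.sum_congr rfl fun k _ => ?_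
    rw [intervalIntegral.integral_const_mul]
  calc ∫ t in V1..V2, |1 / Λ * (∫ s in (0 : ℝ)..Λ,
        g (Ys δ (x r) (rho r) T (t + 2 * Real.pi * s / L))) - ∫ z, g z ∂(glaw m : Measure (EE m))| ≤
      ∫ t in V1..V2, (ε / 2 + ∑ u ∈ F, ∑ k ∈ Finset.range (K + 1), 4 / η * D u k t) := by
        apply intervalIntegral.integral_mono_on hV
        · apply Continuous.intervalIntegrable
          refine ((continuous_const.mul ?_).sub continuous_const).abs
          apply intervalIntegral.continuous_parametric_intervalIntegral_of_continuous'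
          exact (g.continuous.comp hYc).comp (by fun_prop :
            Continuous fun q : ℝ × ℝ => q.1 + 2 * Real.pi * q.2 / L)
        · exact (continuous_const.add hsumc).intervalIntegrable _ _
        · exact fun t _ => hpt t
    _ = (V2 - V1) * (ε / 2) + ∑ u ∈ F, ∑ k ∈ Finset.range (K + 1), 4 / η * ∫ t in V1..V2, D u k t := by
        rw [intervalIntegral.integral_add (by simp) (hsumc.intervalIntegrable _ _), hint,
          intervalIntegral.integral_const, smul_eq_mul]
    _ ≤ T * (ε / 2) + ∑ u ∈ F, ∑ k ∈ Finset.range (K + 1), 4 / η * (η1 * T) := by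
        have h1 : V2 - V1 ≤ T := by rw [hV1, hV2]; linarith
        have h2 : ∀ u ∈ F, ∀ k ∈ Finset.range (K + 1), ∫ t in V1..V2, D u k t ≤ η1 * T :=
          fun u hu k hk => (hT u hu k hk).2
        have h3 : ∑ u ∈ F, ∑ k ∈ Finset.range (K + 1), 4 / η * ∫ t in V1..V2, D u k t ≤
            ∑ u ∈ F, ∑ k ∈ Finset.range (K + 1), 4 / η * (η1 * T) :=
          Finset.sum_le_sum fun u hu => Finset.sum_le_sum fun k hk => by
            have := h2 u hu k hk
            gcongr
        have h4 : (V2 - V1) * (ε / 2) ≤ T * (ε / 2) := by gcongr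
        linarith
    _ ≤ ε * T := by
        rw [Finset.sum_const, Finset.sum_const, Finset.card_range, nsmul_eq_mul, nsmul_eq_mul, hη1]
        have h5 : (F.card : ℝ) * (((K + 1 : ℕ) : ℝ) * (4 / η * (ε * η / (8 * N) * T))) =
            ((F.card : ℝ) * (K + 1) / N) * (ε / 2 * T) := by
          push_cast
          field_simp
          ring
        rw [h5]
        have h6 : (F.card : ℝ) * (K + 1) / N ≤ 1 := by
          rw [div_le_one hN0, hN]; linarith
        have h7 : 0 ≤ ε / 2 * T := by positivity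
        nlinarith

end Pool.Agent.H478.CW
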