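import Pool.Agent.H478.CW11

/-! From the Lebesgue average to the average over the zeros: the deterministic inequality. -/

open Finset Complex MeasureTheory Filter Topology ProbabilityTheory
open scoped RealInnerProductSpace BoundedContinuousFunction

namespace Pool.Agent.H478.CW

open Pool.Agent.R321.FA
open SP (ZZ mu RHs)
open H370.A2 (RR evp evp_zero)
open Pool.Agent.TH800.LD (ZZf)

/-- indicator of `(t, t + w]` -/
noncomputable def JI (t w γ : ℝ) : ℝ := if t < γ ∧ γ ≤ t + w then 1 else 0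

lemma JI_nonneg (t w γ : ℝ) : 0 ≤ JI t w γ := by unfold JI; split_ifs <;> norm_num

lemma JI_le (t w γ : ℝ) : JI t w γ ≤ 1 := by unfold JI; split_ifs <;> norm_num

lemma nc_JI {T : ℝ} (hT : 1 ≤ T) (t x : ℝ) : nc T t x = ∑ s ∈ (ZZf hT).toFinset,
    (mu s : ℝ) * JI t (2 * Real.pi * x / Real.log T) s.im := nc_eq hT t x

lemma JI_set {L : ℝ} (hL : 0 < L) (K t0 γ : ℝ) :
    (fun v => JI (t0 + 2 * Real.pi * v / L) (2 * Real.pi * K / L) γ) =
      Set.indicator (Set.Ico ((γ - t0) * L / (2 * Real.pi) - K) ((γ - t0) * L / (2 * Real.pi)))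
        (fun _ => (1 : ℝ)) := by
  have hpi := Real.pi_pos
  funext v
  unfold JI Set.indicator
  have h1 : (v ∈ Set.Ico ((γ - t0) * L / (2 * Real.pi) - K) ((γ - t0) * L / (2 * Real.pi))) ↔
      (t0 + 2 * Real.pi * v / L < γ ∧ γ ≤ t0 + 2 * Real.pi * v / L + 2 * Real.pi * K / L) := by
    rw [Set.mem_Ico, lt_div_iff₀ (by positivity), sub_le_iff_le_add, div_le_iff₀ (by positivity)]
    have e1 : t0 + 2 * Real.pi * v / L < γ ↔ v * (2 * Real.pi) < (γ - t0) * L := by
      rw [← lt_sub_iff_add_lt', div_lt_iff₀ hL, mul_comm v]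
    have e2 : γ ≤ t0 + 2 * Real.pi * v / L + 2 * Real.pi * K / L ↔
        (γ - t0) * L ≤ (v + K) * (2 * Real.pi) := by
      have : t0 + 2 * Real.pi * v / L + 2 * Real.pi * K / L = t0 + (v + K) * (2 * Real.pi) / L := by
        ring
      rw [this, ← sub_le_iff_le_add', le_div_iff₀ hL]
    rw [e1, e2]
    tauto
  by_cases h : t0 + 2 * Real.pi * v / L < γ ∧ γ ≤ t0 + 2 * Real.pi * v / L + 2 * Real.pi * K / L
  · rw [if_pos h, if_pos (h1.2 h)]
  · rw [if_neg h, if_neg (fun hh => h (h1.1 hh))]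

lemma JI_intble {L : ℝ} (hL : 0 < L) (K t0 γ a b : ℝ) :
    IntervalIntegrable (fun v => JI (t0 + 2 * Real.pi * v / L) (2 * Real.pi * K / L) γ) volume a b := by
  rw [JI_set hL]
  refine ⟨?_, ?_⟩ <;>
  exact (integrableOn_const (by simp) (by simp)).indicator measurableSet_Ico

/-- the integral of the indicator -/
lemma JI_int {L : ℝ} (hL : 0 < L) {K Λ t0 γ : ℝ} (hK : 0 ≤ K)
    (h : JI t0 (2 * Real.pi * Λ / L) γ ≠ 0) :
    ∫ v in (-K)..Λ, JI (t0 + 2 * Real.pi * v / L) (2 * Real.pi * K / L) γ = K := by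
  have hpi := Real.pi_pos
  have h1 : t0 < γ ∧ γ ≤ t0 + 2 * Real.pi * Λ / L := by
    by_contra hh
    apply h
    unfold JI
    rw [if_neg hh]
  set u := (γ - t0) * L / (2 * Real.pi) with hu
  have hu0 : 0 < u := by
    have : 0 < γ - t0 := by linarith [h1.1]
    positivity
  have hu1 : u ≤ Λ := by
    rw [hu, div_le_iff₀ (by positivity)]
    have : γ - t0 ≤ 2 * Real.pi * Λ / L := by linarith [h1.2]
    calc (γ - t0) * L ≤ 2 * Real.pi * Λ / L * L := by gcongr
      _ = _ := by field_simp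
  have hK1 : -K ≤ Λ := by linarith
  rw [intervalIntegral.integral_of_le hK1, JI_set hL, ← hu,
    setIntegral_indicator measurableSet_Ico]
  have e : Set.Ioc (-K) Λ ∩ Set.Ico (u - K) u = Set.Ico (u - K) u := by
    apply Set.inter_eq_right.2
    intro v hv
    exact ⟨by linarith [hv.1], by linarith [hv.2]⟩
  rw [e]
  simp
  linarith

/-- the weighted count in a window -/
noncomputable def AW (T Λ : ℝ) (G : ℂ → ℝ) (t0 : ℝ) : ℝ := ∑ᶠ s ∈ ZZ T,
  (mu s : ℝ) * JI t0 (2 * Real.pi * Λ / Real.log T) s.im * G s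

lemma AW_eq {T : ℝ} (hT : 1 ≤ T) (Λ : ℝ) (G : ℂ → ℝ) (t0 : ℝ) : AW T Λ G t0 =
    ∑ s ∈ (ZZf hT).toFinset, (mu s : ℝ) * JI t0 (2 * Real.pi * Λ / Real.log T) s.im * G s :=
  finsum_mem_eq_finite_toFinset_sum _ (ZZf hT)

/-- **averaging over short windows** -/
theorem short_avg {T : ℝ} (hT : 10 ≤ T) {K Λ t0 : ℝ} (hK : 1 ≤ K) (hKL : 2 * Real.pi * K ≤ Real.log T)
    (hΛ : K ≤ Λ) {G : ℂ → ℝ} (hG : ∀ s, |G s| ≤ 1) {P B M : ℝ → ℝ} (hP : Continuous P)
    (hP1 : ∀ t, |P t| ≤ 1) (hB : Continuous B) (hM : Continuous M)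
    (hM1 : ∀ t, Mp T t ≤ M t)
    (hGP : ∀ t, ∀ s ∈ ZZ T, t < s.im → s.im ≤ t + 2 * Real.pi * K / Real.log T →
      |G s - P t| ≤ B t) (hB0 : ∀ t, 0 ≤ B t) {D : ℝ → ℝ} (hD : Continuous D)
    (hD1 : ∀ t, |nc T t K - K| ≤ D t) :
    |AW T Λ G t0 - ∫ v in (0 : ℝ)..Λ, P (t0 + 2 * Real.pi * v / Real.log T)| ≤
      cK K * (∫ v in (-K)..0, M (t0 + 2 * Real.pi * v / Real.log T)) +
      cK K * (∫ v in (Λ - K)..Λ, M (t0 + 2 * Real.pi * v / Real.log T)) + K +
      ∫ v in (0 : ℝ)..Λ, (cK K * (M (t0 + 2 * Real.pi * v / Real.log T) *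
        B (t0 + 2 * Real.pi * v / Real.log T)) + 1 / K * D (t0 + 2 * Real.pi * v / Real.log T)) := by
  classical
  have hT1 : 1 ≤ T := by linarith
  have hL1 := log_one_le hT
  set L := Real.log T with hL
  have hL0 : 0 < L := by linarith
  have hK0 : 0 < K := by linarith
  have hck := cK_pos hK0.le
  have hM0 : ∀ t, 0 ≤ M t := fun t => (Mp_nonneg hT1 t).trans (hM1 t)
  set S := (ZZf hT1).toFinset with hS
  have hSm : ∀ s ∈ S, s ∈ ZZ T := fun s hs => by rw [hS, Set.Finite.mem_toFinset] at hs; exact hs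
  set τ : ℝ → ℝ := fun v => t0 + 2 * Real.pi * v / L with hτ
  have hτc : Continuous τ := by simp only [hτ]; fun_prop
  set h : ℝ → ℝ := fun v => ∑ s ∈ S, (mu s : ℝ) * JI t0 (2 * Real.pi * Λ / L) s.im * G s *
    JI (τ v) (2 * Real.pi * K / L) s.im with hh
  have hhi : ∀ a b, IntervalIntegrable h volume a b := by
    intro a b
    have h2 : IntervalIntegrable (∑ s ∈ S, fun v => (mu s : ℝ) * JI t0 (2 * Real.pi * Λ / L) s.im *
        G s * JI (τ v) (2 * Real.pi * K / L) s.im) volume a b :=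
      IntervalIntegrable.sum S fun s _ => (JI_intble hL0 K t0 s.im a b).const_mul _
    refine IntervalIntegrable.congr (fun v _ => ?_) h2
    simp only [hh, Finset.sum_apply]
  have hA : K * AW T Λ G t0 = ∫ v in (-K)..Λ, h v := by
    rw [AW_eq hT1, ← hS, ← hL, Finset.mul_sum]
    simp only [hh]
    rw [intervalIntegral.integral_finsetSum fun s _ => (JI_intble hL0 K t0 s.im _ _).const_mul _]
    refine Finset.sum_congr rfl fun s _ => ?_
    rw [intervalIntegral.integral_const_mul]
    by_cases h0 : JI t0 (2 * Real.pi * Λ / L) s.im = 0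
    · rw [h0]; simp
    · rw [JI_int hL0 hK0.le h0]
      ring
  have hncle : ∀ v, |h v| ≤ nc T (τ v) K := by
    intro v
    rw [nc_JI hT1, ← hL, ← hS]
    simp only [hh]
    refine (Finset.abs_sum_le_sum_abs _ _).trans (Finset.sum_le_sum fun s _ => ?_)
    rw [abs_mul, abs_mul, abs_mul, Nat.abs_cast, abs_of_nonneg (JI_nonneg _ _ _),
      abs_of_nonneg (JI_nonneg _ _ _)]
    have a1 := JI_le t0 (2 * Real.pi * Λ / L) s.im
    have a2 := hG s
    have a3 := JI_nonneg (τ v) (2 * Real.pi * K / L) s.im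
    have a4 := JI_nonneg t0 (2 * Real.pi * Λ / L) s.im
    calc (mu s : ℝ) * JI t0 (2 * Real.pi * Λ / L) s.im * |G s| * JI (τ v) (2 * Real.pi * K / L) s.im ≤
        (mu s : ℝ) * 1 * 1 * JI (τ v) (2 * Real.pi * K / L) s.im := by gcongr
      _ = _ := by ring
  have hnM : ∀ v, nc T (τ v) K ≤ cK K * M (τ v) := fun v =>
    (nc_le hT hK0.le (by rw [← hL]; exact hKL) (τ v)).trans
      (mul_le_mul_of_nonneg_left (hM1 _) hck.le)
  have hMc : Continuous fun v => M (τ v) := hM.comp hτc
  have hside : ∀ a b, a ≤ b → |∫ v in a..b, h v| ≤ cK K * ∫ v in a..b, M (τ v) := by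
    intro a b hab
    rw [← Real.norm_eq_abs, ← intervalIntegral.integral_const_mul]
    apply intervalIntegral.norm_integral_le_of_norm_le hab
    · exact Eventually.of_forall fun v _ => by
        rw [Real.norm_eq_abs]; exact (hncle v).trans (hnM v)
    · exact (continuous_const.mul hMc).intervalIntegrable _ _
  have hPc : Continuous fun v => P (τ v) := hP.comp hτc
  -- the middle part
  set E : ℝ → ℝ := fun v => cK K * (M (τ v) * B (τ v)) + 1 / K * D (τ v) with hE
  have hEc : Continuous E := by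
    simp only [hE]
    exact (continuous_const.mul (hMc.mul (hB.comp hτc))).add (continuous_const.mul (hD.comp hτc))
  have hE0 : ∀ v, 0 ≤ E v := by
    intro v
    have a1 : 0 ≤ D (τ v) := (abs_nonneg _).trans (hD1 _)
    have a2 := hB0 (τ v)
    have a3 := hM0 (τ v)
    simp only [hE]
    positivity
  have hmidpt : ∀ v ∈ Set.Ioc 0 (Λ - K), |1 / K * h v - P (τ v)| ≤ E v := by
    intro v hv
    have e1 : h v = ∑ s ∈ S, (mu s : ℝ) * JI (τ v) (2 * Real.pi * K / L) s.im * G s := by
      simp only [hh]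
      refine Finset.sum_congr rfl fun s _ => ?_
      by_cases h0 : JI (τ v) (2 * Real.pi * K / L) s.im = 0
      · rw [h0]; simp
      · have h1 : τ v < s.im ∧ s.im ≤ τ v + 2 * Real.pi * K / L := by
          by_contra hc
          apply h0
          unfold JI
          rw [if_neg hc]
        have h2 : JI t0 (2 * Real.pi * Λ / L) s.im = 1 := by
          unfold JI
          rw [if_pos]
          have hpi := Real.pi_pos
          constructor
          · have : 0 ≤ 2 * Real.pi * v / L := by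
              have := hv.1.le
              positivity
            have h3 := h1.1
            simp only [hτ] at h3
            linarith
          · have h3 := h1.2
            simp only [hτ] at h3
            have h4 : 2 * Real.pi * v / L + 2 * Real.pi * K / L ≤ 2 * Real.pi * Λ / L := by
              rw [← add_div]
              apply div_le_div_of_nonneg_right _ hL0.le
              nlinarith [hv.2]
            linarith
        rw [h2]
        ring
    have e2 : 1 / K * h v - P (τ v) = 1 / K * (∑ s ∈ S, (mu s : ℝ) *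
        JI (τ v) (2 * Real.pi * K / L) s.im * (G s - P (τ v))) +
        1 / K * ((nc T (τ v) K - K) * P (τ v)) := by
      rw [e1, nc_JI hT1, ← hL, ← hS]
      simp only [mul_sub, Finset.sum_sub_distrib]
      rw [← Finset.sum_mul]
      field_simp
      ring
    rw [e2]
    refine (abs_add_le _ _).trans (add_le_add ?_ ?_)
    · rw [abs_mul, abs_of_pos (by positivity : 0 < 1 / K)]
      have h1 : |∑ s ∈ S, (mu s : ℝ) * JI (τ v) (2 * Real.pi * K / L) s.im * (G s - P (τ v))| ≤
          nc T (τ v) K * B (τ v) := by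
        rw [nc_JI hT1, ← hL, ← hS, Finset.sum_mul]
        refine (Finset.abs_sum_le_sum_abs _ _).trans (Finset.sum_le_sum fun s hs => ?_)
        rw [abs_mul, abs_mul, Nat.abs_cast, abs_of_nonneg (JI_nonneg _ _ _)]
        by_cases h0 : JI (τ v) (2 * Real.pi * K / L) s.im = 0
        · rw [h0]; simp
        · have h1 : τ v < s.im ∧ s.im ≤ τ v + 2 * Real.pi * K / L := by
            by_contra hc
            apply h0
            unfold JI
            rw [if_neg hc]
          have h2 := hGP (τ v) s (hSm s hs) h1.1 h1.2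
          have h3 := JI_nonneg (τ v) (2 * Real.pi * K / L) s.im
          gcongr
      have h2 : nc T (τ v) K * B (τ v) ≤ cK K * M (τ v) * B (τ v) :=
        mul_le_mul_of_nonneg_right (hnM v) (hB0 _)
      have h3 : 1 / K ≤ 1 := by rw [div_le_one hK0]; exact hK
      have h4 : 0 ≤ cK K * M (τ v) * B (τ v) := by
        have := hM0 (τ v)
        have := hB0 (τ v)
        positivity
      calc 1 / K * |∑ s ∈ S, (mu s : ℝ) * JI (τ v) (2 * Real.pi * K / L) s.im * (G s - P (τ v))| ≤
          1 * (cK K * M (τ v) * B (τ v)) := by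
            apply mul_le_mul h3 (h1.trans h2) (abs_nonneg _) (by norm_num)
        _ = _ := by ring
    · rw [abs_mul, abs_of_pos (by positivity : 0 < 1 / K), abs_mul]
      have h1 := hD1 (τ v)
      have h2 := hP1 (τ v)
      have h3 := abs_nonneg (nc T (τ v) K - K)
      have h4 : 0 ≤ D (τ v) := h3.trans h1
      calc 1 / K * (|nc T (τ v) K - K| * |P (τ v)|) ≤ 1 / K * (D (τ v) * 1) := by gcongr
        _ = _ := by ring
  have hsplit : AW T Λ G t0 - ∫ v in (0 : ℝ)..Λ, P (τ v) =
      1 / K * (∫ v in (-K)..0, h v) + 1 / K * (∫ v in (Λ - K)..Λ, h v) -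
      (∫ v in (Λ - K)..Λ, P (τ v)) + ∫ v in (0 : ℝ)..(Λ - K), (1 / K * h v - P (τ v)) := by
    have a1 : AW T Λ G t0 = 1 / K * ∫ v in (-K)..Λ, h v := by
      rw [← hA]; field_simp
    rw [a1, ← intervalIntegral.integral_add_adjacent_intervals (hhi (-K) 0) (hhi 0 Λ),
      ← intervalIntegral.integral_add_adjacent_intervals (hhi 0 (Λ - K)) (hhi (Λ - K) Λ),
      ← intervalIntegral.integral_add_adjacent_intervals (hPc.intervalIntegrable 0 (Λ - K))
      (hPc.intervalIntegrable (Λ - K) Λ), intervalIntegral.integral_sub ((hhi _ _).const_mul _)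
      (hPc.intervalIntegrable _ _), intervalIntegral.integral_const_mul]
    ring
  have hk1 : 1 / K ≤ 1 := by rw [div_le_one hK0]; exact hK
  have hMi : ∀ a b, a ≤ b → 0 ≤ ∫ v in a..b, M (τ v) := fun a b hab =>
    intervalIntegral.integral_nonneg hab fun v _ => hM0 _
  have p1 : |1 / K * (∫ v in (-K)..0, h v)| ≤ cK K * ∫ v in (-K)..0, M (τ v) := by
    rw [abs_mul, abs_of_pos (by positivity : 0 < 1 / K)]
    have := hside (-K) 0 (by linarith)
    nlinarith [abs_nonneg (∫ v in (-K)..0, h v)]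
  have p2 : |1 / K * (∫ v in (Λ - K)..Λ, h v)| ≤ cK K * ∫ v in (Λ - K)..Λ, M (τ v) := by
    rw [abs_mul, abs_of_pos (by positivity : 0 < 1 / K)]
    have := hside (Λ - K) Λ (by linarith)
    nlinarith [abs_nonneg (∫ v in (Λ - K)..Λ, h v)]
  have p3 : |∫ v in (Λ - K)..Λ, P (τ v)| ≤ K := by
    have h1 := intervalIntegral.norm_integral_le_of_norm_le_const (a := Λ - K) (b := Λ)
      (C := 1) (f := fun v => P (τ v)) (fun v _ => by rw [Real.norm_eq_abs]; exact hP1 _)
    rw [Real.norm_eq_abs] at h1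
    have : |Λ - (Λ - K)| = K := by rw [abs_of_nonneg (by linarith)]; ring
    rw [this] at h1
    linarith
  have p4 : |∫ v in (0 : ℝ)..(Λ - K), (1 / K * h v - P (τ v))| ≤ ∫ v in (0 : ℝ)..Λ, E v := by
    have h1 : |∫ v in (0 : ℝ)..(Λ - K), (1 / K * h v - P (τ v))| ≤ ∫ v in (0 : ℝ)..(Λ - K), E v := by
      rw [← Real.norm_eq_abs]
      apply intervalIntegral.norm_integral_le_of_norm_le (by linarith)
      · exact Eventually.of_forall fun v hv => by
          rw [Real.norm_eq_abs]; exact hmidpt v hv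
      · exact hEc.intervalIntegrable _ _
    have h2 : ∫ v in (0 : ℝ)..(Λ - K), E v ≤ ∫ v in (0 : ℝ)..Λ, E v := by
      apply intervalIntegral.integral_mono_interval le_rfl (by linarith) (by linarith)
      · exact Eventually.of_forall fun v => hE0 v
      · exact hEc.intervalIntegrable _ _
    exact h1.trans h2
  rw [hsplit]
  have q1 := abs_add_le (1 / K * (∫ v in (-K)..0, h v) + 1 / K * (∫ v in (Λ - K)..Λ, h v) -
      (∫ v in (Λ - K)..Λ, P (τ v))) (∫ v in (0 : ℝ)..(Λ - K), (1 / K * h v - P (τ v)))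
  have q2 := abs_sub (1 / K * (∫ v in (-K)..0, h v) + 1 / K * (∫ v in (Λ - K)..Λ, h v))
      (∫ v in (Λ - K)..Λ, P (τ v))
  have q3 := abs_add_le (1 / K * (∫ v in (-K)..0, h v)) (1 / K * (∫ v in (Λ - K)..Λ, h v))
  simp only [hE] at p4
  linarith

end Pool.Agent.H478.CW
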