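import Pool.Agent.H478.CW12

/-! The law of the counts at the zeros in almost all windows. -/

open Finset Complex MeasureTheory Filter Topology ProbabilityTheory
open scoped RealInnerProductSpace BoundedContinuousFunction

namespace Pool.Agent.H478.CW

open Pool.Agent.R321.FA
open SP (ZZ mu RHs)
open H370.A2 (RR evp evp_zero)
open Pool.Agent.TH800.LD (ZZf)

/-- second moments of the shifted majorant, uniformly in the shift -/
lemma Mp_shift (hRH : RHs) : ∃ C T0 : ℝ, 1 ≤ C ∧ 10 ≤ T0 ∧ ∀ T : ℝ, T0 ≤ T → ∀ c : ℝ, |c| ≤ 2 →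
    T + 8 * Real.log T ≤ 2 * T - 8 * Real.log T →
    ∫ t in (T + 8 * Real.log T)..(2 * T - 8 * Real.log T), (1 + Mp T (t + c)) ^ 2 ≤ C * T := by
  obtain ⟨C, T0, hC, hT0, h⟩ := Mp_mom hRH 2
  refine ⟨C + 1, T0, by linarith, hT0, fun T hT c hc hV => ?_⟩
  have hT10 := hT0.trans hT
  have hL1 := log_one_le hT10
  obtain ⟨c1, c2⟩ := abs_le.1 hc
  rw [intervalIntegral.integral_comp_add_right (fun t => (1 + Mp T t) ^ 2)]
  have := h T hT (T + 8 * Real.log T + c) (2 * T - 8 * Real.log T + c) (by linarith) (by linarith)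
    (by linarith)
  nlinarith

/-- Fubini for window averages -/
lemma fub {f : ℝ → ℝ} (hf : Continuous f) {V1 V2 L a b Q : ℝ} (hab : a ≤ b)
    (h : ∀ v ∈ Set.Icc a b, ∫ t in V1..V2, f (t + 2 * Real.pi * v / L) ≤ Q) :
    ∫ t in V1..V2, ∫ v in a..b, f (t + 2 * Real.pi * v / L) ≤ Q * (b - a) := by
  have h1 := swap_le (H := fun t v => f (t + 2 * Real.pi * v / L)) (ω := fun _ => 1)
    (hf.comp (by fun_prop : Continuous fun q : ℝ × ℝ => q.1 + 2 * Real.pi * q.2 / L))
    continuous_const (fun _ => by norm_num) hab h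
  simp only [one_mul] at h1
  simpa using h1

lemma fub_cont {f : ℝ → ℝ} (hf : Continuous f) (L a b : ℝ) :
    Continuous fun t => ∫ v in a..b, f (t + 2 * Real.pi * v / L) := by
  apply intervalIntegral.continuous_parametric_intervalIntegral_of_continuous'
  exact hf.comp (by fun_prop : Continuous fun q : ℝ × ℝ => q.1 + 2 * Real.pi * q.2 / L)

/-- the short majorant -/
noncomputable def M3 (K T t : ℝ) : ℝ := 1 + Mp T t + Mp T (t + Real.pi * K / Real.log T) +
  Mp T (t + 2 * Real.pi * K / Real.log T)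

/-- the long majorant -/
noncomputable def MX {m : ℕ} (K : ℝ) (x : Fin m → ℝ) (T t : ℝ) : ℝ := M3 K T t +
  ∑ j, (Mp T (t + Real.pi * x j / Real.log T) + Mp T (t + 2 * Real.pi * x j / Real.log T))

lemma M3_cont (K : ℝ) {T : ℝ} (hT : 1 ≤ T) : Continuous (M3 K T) := by
  have h := Mp_cont hT
  unfold M3
  exact ((continuous_const.add h).add (h.comp (by fun_prop))).add (h.comp (by fun_prop))

lemma MX_cont {m : ℕ} (K : ℝ) (x : Fin m → ℝ) {T : ℝ} (hT : 1 ≤ T) : Continuous (MX K x T) := by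
  have h := Mp_cont hT
  unfold MX
  exact (M3_cont K hT).add (continuous_finsetSum _ fun j _ =>
    (h.comp (by fun_prop)).add (h.comp (by fun_prop)))

lemma M3_ge (K : ℝ) {T : ℝ} (hT : 1 ≤ T) (t : ℝ) : 1 ≤ M3 K T t := by
  unfold M3
  have := Mp_nonneg hT t
  have := Mp_nonneg hT (t + Real.pi * K / Real.log T)
  have := Mp_nonneg hT (t + 2 * Real.pi * K / Real.log T)
  linarith

lemma MX_ge {m : ℕ} (K : ℝ) (x : Fin m → ℝ) {T : ℝ} (hT : 1 ≤ T) (t : ℝ) :
    M3 K T t ≤ MX K x T t := by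
  unfold MX
  have : 0 ≤ ∑ j, (Mp T (t + Real.pi * x j / Real.log T) +
      Mp T (t + 2 * Real.pi * x j / Real.log T)) := Finset.sum_nonneg fun j _ =>
    add_nonneg (Mp_nonneg hT _) (Mp_nonneg hT _)
  linarith

lemma MX_sq {m : ℕ} (K : ℝ) (x : Fin m → ℝ) {T : ℝ} (hT : 1 ≤ T) (t : ℝ) :
    MX K x T t ^ 2 ≤ (8 * ((1 + Mp T t) ^ 2 + (1 + Mp T (t + Real.pi * K / Real.log T)) ^ 2 +
      (1 + Mp T (t + 2 * Real.pi * K / Real.log T)) ^ 2)) +
      4 * m * ∑ j, ((1 + Mp T (t + Real.pi * x j / Real.log T)) ^ 2 +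
        (1 + Mp T (t + 2 * Real.pi * x j / Real.log T)) ^ 2) := by
  unfold MX M3
  have a0 := Mp_nonneg hT t
  have a1 := Mp_nonneg hT (t + Real.pi * K / Real.log T)
  have a2 := Mp_nonneg hT (t + 2 * Real.pi * K / Real.log T)
  set b0 := Mp T t
  set b1 := Mp T (t + Real.pi * K / Real.log T)
  set b2 := Mp T (t + 2 * Real.pi * K / Real.log T)
  set S := ∑ j, (Mp T (t + Real.pi * x j / Real.log T) +
      Mp T (t + 2 * Real.pi * x j / Real.log T)) with hS
  have h1 : S ^ 2 ≤ m * ∑ j, (Mp T (t + Real.pi * x j / Real.log T) +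
      Mp T (t + 2 * Real.pi * x j / Real.log T)) ^ 2 := by
    have := sq_sum_le_card_mul_sum_sq (s := (Finset.univ : Finset (Fin m)))
      (f := fun j => (Mp T (t + Real.pi * x j / Real.log T) +
      Mp T (t + 2 * Real.pi * x j / Real.log T)))
    rw [Finset.card_univ, Fintype.card_fin] at this
    exact this
  have h2 : ∑ j, (Mp T (t + Real.pi * x j / Real.log T) +
      Mp T (t + 2 * Real.pi * x j / Real.log T)) ^ 2 ≤
      2 * ∑ j, ((1 + Mp T (t + Real.pi * x j / Real.log T)) ^ 2 +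
        (1 + Mp T (t + 2 * Real.pi * x j / Real.log T)) ^ 2) := by
    rw [Finset.mul_sum]
    refine Finset.sum_le_sum fun j _ => ?_
    have p := Mp_nonneg hT (t + Real.pi * x j / Real.log T)
    have q := Mp_nonneg hT (t + 2 * Real.pi * x j / Real.log T)
    nlinarith [sq_nonneg (Mp T (t + Real.pi * x j / Real.log T) -
      Mp T (t + 2 * Real.pi * x j / Real.log T))]
  have h3 : (1 + b0 + b1 + b2) ^ 2 ≤ 4 * ((1 + b0) ^ 2 + (1 + b1) ^ 2 + (1 + b2) ^ 2) := by
    nlinarith [sq_nonneg (b0 - b1), sq_nonneg (b1 - b2), sq_nonneg (b0 - b2), sq_nonneg (b0 - 1),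
      sq_nonneg (b1 - 1), sq_nonneg (b2 - 1)]
  have h4 : (1 + b0 + b1 + b2 + S) ^ 2 ≤ 2 * (1 + b0 + b1 + b2) ^ 2 + 2 * S ^ 2 := by
    nlinarith [sq_nonneg (1 + b0 + b1 + b2 - S)]
  have h5 : S ^ 2 ≤ m * (2 * ∑ j, ((1 + Mp T (t + Real.pi * x j / Real.log T)) ^ 2 +
        (1 + Mp T (t + 2 * Real.pi * x j / Real.log T)) ^ 2)) :=
    h1.trans (mul_le_mul_of_nonneg_left h2 (Nat.cast_nonneg m))
  linarith

/-- second moments of the majorants; the constant depends on the number of windows only -/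
lemma MX_mom (hRH : RHs) (m : ℕ) : ∃ C : ℝ, 1 ≤ C ∧ ∀ (K : ℝ) (x : Fin m → ℝ),
    ∀ᶠ T : ℝ in atTop, ∀ c : ℝ, |c| ≤ 1 →
    ∫ t in (T + 8 * Real.log T)..(2 * T - 8 * Real.log T), MX K x T (t + c) ^ 2 ≤ C * T := by
  obtain ⟨C, T0, hC, hT0, h⟩ := Mp_shift hRH
  refine ⟨(24 + 8 * m * m) * C, by nlinarith [sq_nonneg (m : ℝ), mul_self_nonneg (m : ℝ)],
    fun K x => ?_⟩
  obtain ⟨T1, hT1, h1⟩ := small_shifts x
  obtain ⟨T2, hT2, h2⟩ := small_shift K
  have e5 : ∀ᶠ T : ℝ in atTop, T + 8 * Real.log T ≤ 2 * T - 8 * Real.log T := by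
    have h := Real.isLittleO_log_id_atTop.def (by norm_num : (0 : ℝ) < 1 / 16)
    filter_upwards [h, eventually_ge_atTop 1] with T h1 h2
    rw [Real.norm_eq_abs, Real.norm_eq_abs, id, abs_of_nonneg (by linarith : (0 : ℝ) ≤ T),
      abs_of_nonneg (Real.log_nonneg h2)] at h1
    linarith
  filter_upwards [e5, eventually_ge_atTop T0, eventually_ge_atTop T1, eventually_ge_atTop T2] with
    T hV g0 g1 g2 c hc
  have hT10 := hT0.trans g0
  have hTo : 1 ≤ T := by linarith
  have hL1 := log_one_le hT10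
  have hL0 : 0 < Real.log T := by linarith
  have hpi := Real.pi_pos
  have sx := h1 T g1
  have sK := h2 T g2
  set L := Real.log T with hL
  set V1 := T + 8 * L
  set V2 := 2 * T - 8 * L
  have half : ∀ y : ℝ, |2 * Real.pi * y / L| ≤ 1 → |Real.pi * y / L| ≤ 1 := by
    intro y hy
    have e : Real.pi * y / L = (2 * Real.pi * y / L) / 2 := by ring
    rw [e, abs_div, abs_of_pos (by norm_num : (0 : ℝ) < 2)]
    have := abs_nonneg (2 * Real.pi * y / L)
    linarith
  have hb : ∀ d : ℝ, |d| ≤ 1 → ∫ t in V1..V2, (1 + Mp T (t + c + d)) ^ 2 ≤ C * T := by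
    intro d hd
    have h3 := h T g0 (c + d) ((abs_add_le _ _).trans (by linarith)) hV
    refine le_trans (le_of_eq ?_) h3
    apply intervalIntegral.integral_congr
    intro t _
    show (1 + Mp T (t + c + d)) ^ 2 = (1 + Mp T (t + (c + d))) ^ 2
    rw [add_assoc]
  have hb0 : ∫ t in V1..V2, (1 + Mp T (t + c)) ^ 2 ≤ C * T := by
    have := hb 0 (by norm_num)
    simpa using this
  have cc : ∀ d : ℝ, Continuous fun t => (1 + Mp T (t + c + d)) ^ 2 := fun d =>
    (continuous_const.add ((Mp_cont hTo).comp (by fun_prop))).pow 2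
  have cc0 : Continuous fun t => (1 + Mp T (t + c)) ^ 2 :=
    (continuous_const.add ((Mp_cont hTo).comp (by fun_prop))).pow 2
  have c01 : Continuous fun t => (1 + Mp T (t + c)) ^ 2 + (1 + Mp T (t + c + Real.pi * K / L)) ^ 2 :=
    cc0.add (cc _)
  have cA : Continuous fun t => 8 * ((1 + Mp T (t + c)) ^ 2 +
      (1 + Mp T (t + c + Real.pi * K / L)) ^ 2 + (1 + Mp T (t + c + 2 * Real.pi * K / L)) ^ 2) :=
    continuous_const.mul ((cc0.add (cc _)).add (cc _))
  have cBj : ∀ j, Continuous fun t => ((1 + Mp T (t + c + Real.pi * x j / L)) ^ 2 +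
        (1 + Mp T (t + c + 2 * Real.pi * x j / L)) ^ 2) := fun j => (cc _).add (cc _)
  have cB : Continuous fun t => 4 * (m : ℝ) * ∑ j, ((1 + Mp T (t + c + Real.pi * x j / L)) ^ 2 +
        (1 + Mp T (t + c + 2 * Real.pi * x j / L)) ^ 2) :=
    continuous_const.mul (continuous_finsetSum _ fun j _ => cBj j)
  calc ∫ t in V1..V2, MX K x T (t + c) ^ 2 ≤ ∫ t in V1..V2, (8 * ((1 + Mp T (t + c)) ^ 2 +
        (1 + Mp T (t + c + Real.pi * K / L)) ^ 2 + (1 + Mp T (t + c + 2 * Real.pi * K / L)) ^ 2) +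
        4 * m * ∑ j, ((1 + Mp T (t + c + Real.pi * x j / L)) ^ 2 +
        (1 + Mp T (t + c + 2 * Real.pi * x j / L)) ^ 2)) := by
        apply intervalIntegral.integral_mono_on hV
        · exact (((MX_cont K x hTo).comp (by fun_prop)).pow 2).intervalIntegrable _ _
        · exact (cA.add cB).intervalIntegrable _ _
        · intro t _
          exact MX_sq K x hTo (t + c)
    _ = 8 * ((∫ t in V1..V2, (1 + Mp T (t + c)) ^ 2) +
        (∫ t in V1..V2, (1 + Mp T (t + c + Real.pi * K / L)) ^ 2) +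
        ∫ t in V1..V2, (1 + Mp T (t + c + 2 * Real.pi * K / L)) ^ 2) +
        4 * m * ∑ j, ((∫ t in V1..V2, (1 + Mp T (t + c + Real.pi * x j / L)) ^ 2) +
        ∫ t in V1..V2, (1 + Mp T (t + c + 2 * Real.pi * x j / L)) ^ 2) := by
        rw [intervalIntegral.integral_add (cA.intervalIntegrable _ _) (cB.intervalIntegrable _ _),
          intervalIntegral.integral_const_mul, intervalIntegral.integral_const_mul,
          intervalIntegral.integral_add (c01.intervalIntegrable _ _)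
            ((cc _).intervalIntegrable _ _), intervalIntegral.integral_add
            (cc0.intervalIntegrable _ _) ((cc _).intervalIntegrable _ _),
          intervalIntegral.integral_finsetSum fun j _ => (cBj j).intervalIntegrable _ _]
        congr 2
        refine Finset.sum_congr rfl fun j _ => ?_
        rw [intervalIntegral.integral_add ((cc _).intervalIntegrable _ _)
            ((cc _).intervalIntegrable _ _)]
    _ ≤ 8 * (C * T + C * T + C * T) + 4 * m * ∑ _j : Fin m, (C * T + C * T) := by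
        have b1 := hb _ (half K sK)
        have b2 := hb _ sK
        have b3 : ∑ j, ((∫ t in V1..V2, (1 + Mp T (t + c + Real.pi * x j / L)) ^ 2) +
          ∫ t in V1..V2, (1 + Mp T (t + c + 2 * Real.pi * x j / L)) ^ 2) ≤
          ∑ _j : Fin m, (C * T + C * T) :=
          Finset.sum_le_sum fun j _ => add_le_add (hb _ (half _ (sx j))) (hb _ (sx j))
        gcongr
    _ = _ := by
        rw [Finset.sum_const, Finset.card_univ, Fintype.card_fin, nsmul_eq_mul]
        ring

/-- the normalised counts at a zero -/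
noncomputable def Yz {m : ℕ} (κ : ℝ) (x : Fin m → ℝ) (ρ T : ℝ) (s : ℂ) : EE m :=
  WithLp.toLp 2 fun j => ρ * (nc T s.im (x j) + κ * mu s - x j)

/-- the multiplicity is at most the number of zeros in a window -/
lemma mu_le_nc {T : ℝ} (hT : 1 ≤ T) {s : ℂ} (hs : s ∈ ZZ T) {t K : ℝ} (h1 : t < s.im)
    (h2 : s.im ≤ t + 2 * Real.pi * K / Real.log T) : (mu s : ℝ) ≤ nc T t K := by
  rw [nc_JI hT]
  have h3 : JI t (2 * Real.pi * K / Real.log T) s.im = 1 := by
    unfold JI; rw [if_pos ⟨h1, h2⟩]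
  have h4 := Finset.single_le_sum (f := fun s : ℂ => (mu s : ℝ) *
    JI t (2 * Real.pi * K / Real.log T) s.im) (fun i _ => mul_nonneg (Nat.cast_nonneg _)
    (JI_nonneg _ _ _)) ((Set.Finite.mem_toFinset (ZZf hT)).2 hs)
  simp only [h3, mul_one] at h4
  exact h4

/-- Lipschitz functions -/
def LipE {m : ℕ} (Lg : ℝ) (g : EE m → ℝ) : Prop := ∀ z w : EE m, |g z - g w| ≤ Lg * ∑ j, |z j - w j|

/-- counts at a zero and smooth counts near it -/
lemma Yz_Ys {m : ℕ} {T : ℝ} (hT : 10 ≤ T) {K : ℝ} (hK : 0 ≤ K) (hKL : 2 * Real.pi * K ≤ Real.log T)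
    {x : Fin m → ℝ} {δ C1 ρ : ℝ} (hC1 : 0 ≤ C1) (hρ : 0 ≤ ρ)
    (hX : ∀ j t, |nc T t (x j) - XX (psb δ (x j)) δ T (t + Real.pi * x j / Real.log T)| ≤
      C1 * (1 + Mp T t + Mp T (t + Real.pi * x j / Real.log T) +
        Mp T (t + 2 * Real.pi * x j / Real.log T)))
    {g : EE m → ℝ} {Lg : ℝ} (hLg : 0 ≤ Lg) (hg : LipE Lg g) {κ : ℝ} (hκ : 0 ≤ κ) (hκ1 : κ ≤ 1)
    (t : ℝ) (s : ℂ) (hs : s ∈ ZZ T) (h1 : t < s.im)
    (h2 : s.im ≤ t + 2 * Real.pi * K / Real.log T) :
    |g (Yz κ x ρ T s) - g (Ys δ x ρ T t)| ≤ Lg * ρ * m * (2 * cK K + C1) * MX K x T t := by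
  have hT1 : 1 ≤ T := by linarith
  have hck := cK_pos hK
  refine (hg _ _).trans ?_
  set γ := s.im
  have hmu := mu_le_nc hT1 hs h1 h2
  have hmu0 : (0 : ℝ) ≤ mu s := Nat.cast_nonneg _
  have hj : ∀ j, |Yz κ x ρ T s j - Ys δ x ρ T t j| ≤ ρ * ((2 * cK K + C1) * MX K x T t) := by
    intro j
    show |ρ * (nc T γ (x j) + κ * mu s - x j) -
      ρ * (XX (psb δ (x j)) δ T (t + 2 * Real.pi * (x j / 2) / Real.log T) - x j)| ≤ _
    have e : ρ * (nc T γ (x j) + κ * mu s - x j) -
      ρ * (XX (psb δ (x j)) δ T (t + 2 * Real.pi * (x j / 2) / Real.log T) - x j) =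
      ρ * (((nc T γ (x j) - nc T t (x j)) +
        (nc T t (x j) - XX (psb δ (x j)) δ T (t + Real.pi * x j / Real.log T))) + κ * mu s) := by
      have : t + 2 * Real.pi * (x j / 2) / Real.log T = t + Real.pi * x j / Real.log T := by ring
      rw [this]; ring
    rw [e, abs_mul, abs_of_nonneg hρ]
    apply mul_le_mul_of_nonneg_left _ hρ
    refine (abs_add_le _ _).trans ?_
    have a0 := abs_add_le (nc T γ (x j) - nc T t (x j))
        (nc T t (x j) - XX (psb δ (x j)) δ T (t + Real.pi * x j / Real.log T))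
    have a00 : |κ * (mu s : ℝ)| ≤ cK K * MX K x T t := by
      rw [abs_of_nonneg (mul_nonneg hκ hmu0)]
      have b1 : κ * (mu s : ℝ) ≤ 1 * nc T t K := by gcongr
      have b2 := nc_le hT hK hKL t
      have b3 : Mp T t ≤ MX K x T t := by
        refine le_trans ?_ (MX_ge K x hT1 t)
        unfold M3
        have := Mp_nonneg hT1 (t + Real.pi * K / Real.log T)
        have := Mp_nonneg hT1 (t + 2 * Real.pi * K / Real.log T)
        linarith
      have b4 : cK K * Mp T t ≤ cK K * MX K x T t := by gcongr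
      linarith
    have a1 := nc_shift hT (K := K) (x := x j) t γ h1.le h2
    have a2 := nc_le hT hK hKL t
    have a3 := nc_le hT hK hKL (t + 2 * Real.pi * x j / Real.log T)
    have a4 := hX j t
    have b0 := Mp_nonneg hT1 t
    have b1 := Mp_nonneg hT1 (t + Real.pi * x j / Real.log T)
    have b2 := Mp_nonneg hT1 (t + 2 * Real.pi * x j / Real.log T)
    have a5 : 1 + Mp T t + Mp T (t + Real.pi * x j / Real.log T) +
        Mp T (t + 2 * Real.pi * x j / Real.log T) ≤ MX K x T t := by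
      unfold MX M3
      have := Finset.single_le_sum (f := fun j => Mp T (t + Real.pi * x j / Real.log T) +
        Mp T (t + 2 * Real.pi * x j / Real.log T)) (fun j _ => add_nonneg (Mp_nonneg hT1 _)
        (Mp_nonneg hT1 _)) (Finset.mem_univ j)
      have c1 := Mp_nonneg hT1 (t + Real.pi * K / Real.log T)
      have c2 := Mp_nonneg hT1 (t + 2 * Real.pi * K / Real.log T)
      linarith
    have a6 : nc T t K + nc T (t + 2 * Real.pi * x j / Real.log T) K ≤ cK K * MX K x T t := by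
      calc _ ≤ cK K * Mp T t + cK K * Mp T (t + 2 * Real.pi * x j / Real.log T) := add_le_add a2 a3
        _ ≤ cK K * (1 + Mp T t + Mp T (t + Real.pi * x j / Real.log T) +
            Mp T (t + 2 * Real.pi * x j / Real.log T)) := by nlinarith
        _ ≤ _ := by gcongr
    have a7 : C1 * (1 + Mp T t + Mp T (t + Real.pi * x j / Real.log T) +
        Mp T (t + 2 * Real.pi * x j / Real.log T)) ≤ C1 * MX K x T t := by gcongr
    linarith
  calc Lg * ∑ j, |Yz κ x ρ T s j - Ys δ x ρ T t j| ≤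
      Lg * ∑ _j : Fin m, ρ * ((2 * cK K + C1) * MX K x T t) := by
        apply mul_le_mul_of_nonneg_left _ hLg
        exact Finset.sum_le_sum fun j _ => hj j
    _ = _ := by
        rw [Finset.sum_const, Finset.card_univ, Fintype.card_fin, nsmul_eq_mul]
        ring

/-- the variance of the smooth count with `δ = 1/4` -/
lemma var_K {K : ℝ} (hK : 4 ≤ K) : gm 0 (KA (fun _ : Fin 1 => psb (1 / 4) K) (fun _ => K / 2)
    (fun _ => 1)) 2 ≤ K + 32 := by
  have hpi := Real.pi_gt_three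
  have e : gm 0 (KA (fun _ : Fin 1 => psb (1 / 4) K) (fun _ => K / 2) (fun _ => 1)) 2 =
      Wf (1 / 4) K / Real.pi ^ 2 := by
    have h0 := gm_rec (KA (fun _ : Fin 1 => psb (1 / 4) K) (fun _ => K / 2) (fun _ => 1)) 0
    have h00 : gm 0 (KA (fun _ : Fin 1 => psb (1 / 4) K) (fun _ => K / 2) (fun _ => 1)) 0 = 1 := rfl
    rw [zero_add, h00, Nat.cast_zero, zero_add, one_mul, mul_one] at h0
    rw [h0]
    unfold KA
    have := cov_eq (1 / 4) K K
    rw [show K - K = 0 by ring, Wf_zero] at this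
    simp only [Finset.univ_unique, Finset.sum_singleton, one_mul]
    rw [this]
    field_simp
    ring
  rw [e]
  have h1 := Wf_log (δ := 1 / 4) (x := K) (by norm_num) (by norm_num) (by norm_num; linarith)
  have h2 : Real.log K ≤ K - 1 := Real.log_le_sub_one_of_pos (by linarith)
  have h3 : -Real.log (1 / 4) ≤ 3 := by
    rw [one_div, Real.log_inv, neg_neg]
    have : Real.log 4 ≤ 4 - 1 := Real.log_le_sub_one_of_pos (by norm_num)
    linarith
  have h4 : Wf (1 / 4) K ≤ K + 31 := by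
    have := (abs_le.1 h1).2
    linarith
  rw [div_le_iff₀ (by positivity)]
  have h5 : 1 ≤ Real.pi ^ 2 := by nlinarith
  nlinarith

end Pool.Agent.H478.CW
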