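import Pool.Agent.H478.CW13

/-! The law of the counts at the zeros in almost all windows: the theorem. -/

open Finset Complex MeasureTheory Filter Topology ProbabilityTheory
open scoped RealInnerProductSpace BoundedContinuousFunction

namespace Pool.Agent.H478.CW

open Pool.Agent.R321.FA
open SP (ZZ mu RHs)
open H370.A2 (RR evp evp_zero)
open Pool.Agent.TH800.LD (ZZf)

lemma V_ev : ∀ᶠ T : ℝ in atTop, T + 8 * Real.log T ≤ 2 * T - 8 * Real.log T := by
  have h := Real.isLittleO_log_id_atTop.def (by norm_num : (0 : ℝ) < 1 / 16)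
  filter_upwards [h, eventually_ge_atTop 1] with T h1 h2
  rw [Real.norm_eq_abs, Real.norm_eq_abs, id, abs_of_nonneg (by linarith : (0 : ℝ) ≤ T),
    abs_of_nonneg (Real.log_nonneg h2)] at h1
  linarith

/-- **from Lebesgue averages to averages over the zeros**, in the mean -/
theorem short_mean (hRH : RHs) (m : ℕ) : ∃ C : ℝ, 1 ≤ C ∧ ∀ K : ℝ, 4 ≤ K → ∀ (x : Fin m → ℝ),
    ∀ b : ℝ, 0 ≤ b → ∀ᶠ Λ : ℝ in atTop, ∀ᶠ T : ℝ in atTop, ∀ (G : ℂ → ℝ) (P : ℝ → ℝ),
    (∀ s, |G s| ≤ 1) → Continuous P → (∀ t, |P t| ≤ 1) →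
    (∀ t, ∀ s ∈ ZZ T, t < s.im → s.im ≤ t + 2 * Real.pi * K / Real.log T →
      |G s - P t| ≤ b * MX K x T t) →
    ∃ E : ℝ → ℝ, Continuous E ∧ (∀ t, 0 ≤ E t) ∧
      ∫ t in (T + 8 * Real.log T)..(2 * T - 8 * Real.log T), E t ≤
        (C / Real.sqrt K + C * cK K * b + C * cK K * K / Λ) * T ∧
      ∀ t, |1 / Λ * AW T Λ G t - 1 / Λ * ∫ v in (0 : ℝ)..Λ, P (t + 2 * Real.pi * v / Real.log T)| ≤
        E t := by
  obtain ⟨CM, hCM1, hCM⟩ := MX_mom hRH m
  obtain ⟨C1, hC11, hnX⟩ := nc_XX
  refine ⟨17 + 16 * C1 * CM + 3 * CM, by nlinarith, fun K hK x b hb => ?_⟩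
  have hK0 : 0 < K := by linarith
  have hpi := Real.pi_pos
  have hTTK : TT (fun _ : Fin 1 => psb (1 / 4) K) (1 / 4) :=
    psb_TT (by norm_num) (by norm_num) fun _ => hK0
  obtain ⟨Λ0, _, hq⟩ := quench hRH hTTK (by norm_num) (fun _ => K / 2) (fun _ => 1) 2
    (by norm_num) 1 one_pos
  obtain ⟨T1, hT1, hn⟩ := hnX (1 / 4) (by norm_num) (by norm_num) K hK0
  filter_upwards [eventually_ge_atTop Λ0, eventually_ge_atTop K] with Λ hΛ hKΛ
  obtain ⟨T2, hT2, hq2⟩ := hq Λ hΛ
  have hΛ0 : 0 < Λ := by linarith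
  filter_upwards [hCM K x, V_ev, eventually_ge_atTop T1, eventually_ge_atTop T2,
    Real.tendsto_log_atTop.eventually_ge_atTop (2 * Real.pi * K),
    Real.tendsto_log_atTop.eventually_ge_atTop (2 * Real.pi * Λ)] with T hM hV g1 g2 hKL hΛL
    G P hG hP hP1 hGP
  have hT10 : 10 ≤ T := hT1.trans g1
  have hTo : 1 ≤ T := by linarith
  have hTp : 0 < T := by linarith
  have hL1 := log_one_le hT10
  have hnT := hn T g1
  obtain ⟨-, hqT⟩ := hq2 T g2
  set L := Real.log T with hL
  have hL0 : 0 < L := by linarith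
  have hck := cK_pos hK0.le
  have hck1 := cK_one hK0.le
  set V1 := T + 8 * L with hV1
  set V2 := 2 * T - 8 * L with hV2
  have hVT : V2 - V1 ≤ T := by rw [hV1, hV2]; linarith
  set M := MX K x T with hMdef
  have hMc : Continuous M := MX_cont K x hTo
  have hM1 : ∀ t, 1 ≤ M t := fun t => (M3_ge K hTo t).trans (MX_ge K x hTo t)
  -- the smooth count
  set z : ℝ → ℝ := fun t => AU (fun _ : Fin 1 => psb (1 / 4) K) (1 / 4) (fun _ => K / 2)
    (fun _ => 1) T t with hz
  have hzc : Continuous z := AU_cont hTTK _ _ hTo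
  have hzeq : ∀ t, z t = XX (psb (1 / 4) K) (1 / 4) T (t + Real.pi * K / L) - K := by
    intro t
    simp only [hz]
    unfold AU
    simp only [Finset.univ_unique, Finset.sum_singleton, one_mul]
    rw [psb_zero_val]
    have : t + 2 * Real.pi * (K / 2) / Real.log T = t + Real.pi * K / L := by rw [← hL]; ring
    rw [this]
  set D : ℝ → ℝ := fun t => 16 * C1 * M3 K T t + |z t| with hD
  have hDc : Continuous D := (continuous_const.mul (M3_cont K hTo)).add hzc.abs
  have hD1 : ∀ t, |nc T t K - K| ≤ D t := by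
    intro t
    have h1 := hnT t
    have h2 : nc T t K - K = (nc T t K - XX (psb (1 / 4) K) (1 / 4) T (t + Real.pi * K / L)) +
        z t := by rw [hzeq]; ring
    rw [h2]
    refine (abs_add_le _ _).trans ?_
    simp only [hD]
    have h3 : C1 / (1 / 4) ^ 2 * (1 + Mp T t + Mp T (t + Real.pi * K / L) +
        Mp T (t + 2 * Real.pi * K / L)) = 16 * C1 * M3 K T t := by
      unfold M3
      rw [← hL]
      ring
    rw [h3] at h1
    linarith
  have hshort := fun t0 => short_avg hT10 (K := K) (Λ := Λ) (t0 := t0) (by linarith)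
    (by rw [← hL]; exact hKL) hKΛ hG hP hP1 (B := fun t => b * M t) (M := M)
    (continuous_const.mul hMc) hMc (fun t => by
      have h1 : Mp T t ≤ M3 K T t := by
        unfold M3
        have := Mp_nonneg hTo (t + Real.pi * K / Real.log T)
        have := Mp_nonneg hTo (t + 2 * Real.pi * K / Real.log T)
        linarith
      exact h1.trans (MX_ge K x hTo t)) hGP (fun t => mul_nonneg hb (by linarith [hM1 t])) hDc hD1
  simp only [← hL] at hshort
  -- the pointwise bound for the last integrand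
  set F : ℝ → ℝ := fun t => cK K * b * M t ^ 2 + 16 * C1 / K * M t +
    (z t ^ 2 / (2 * (K * Real.sqrt K)) + 1 / (2 * Real.sqrt K)) with hF
  have hFc : Continuous F := by
    simp only [hF]
    exact ((continuous_const.mul (hMc.pow 2)).add (continuous_const.mul hMc)).add
      (((hzc.pow 2).div_const _).add continuous_const)
  have hsK : 0 < Real.sqrt K := Real.sqrt_pos.2 hK0
  have hF1 : ∀ t, cK K * (M t * (b * M t)) + 1 / K * D t ≤ F t := by
    intro t
    simp only [hF, hD]
    have h1 : 1 / K * |z t| ≤ z t ^ 2 / (2 * (K * Real.sqrt K)) + 1 / (2 * Real.sqrt K) := by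
      have h2 : 0 ≤ (|z t| - Real.sqrt K) ^ 2 := sq_nonneg _
      have h3 : Real.sqrt K ^ 2 = K := Real.sq_sqrt hK0.le
      have h4 : z t ^ 2 / (2 * (K * Real.sqrt K)) + 1 / (2 * Real.sqrt K) =
          (|z t| ^ 2 + Real.sqrt K ^ 2) / (2 * (K * Real.sqrt K)) := by
        rw [sq_abs, h3]; field_simp
      rw [h4, le_div_iff₀ (by positivity)]
      have h5 : 1 / K * |z t| * (2 * (K * Real.sqrt K)) = 2 * |z t| * Real.sqrt K := by field_simp
      rw [h5]
      nlinarith
    have h6 : 1 / K * (16 * C1 * M3 K T t) ≤ 16 * C1 / K * M t := by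
      have := MX_ge K x hTo t
      calc 1 / K * (16 * C1 * M3 K T t) = 16 * C1 / K * M3 K T t := by ring
        _ ≤ _ := by gcongr
    have h7 : cK K * (M t * (b * M t)) = cK K * b * M t ^ 2 := by ring
    rw [h7, mul_add]
    linarith
  have hF0 : ∀ t, 0 ≤ F t := by
    intro t
    have := hM1 t
    simp only [hF]
    positivity
  -- the error function
  refine ⟨fun t => 1 / Λ * (cK K * (∫ v in (-K)..0, M (t + 2 * Real.pi * v / L)) +
    cK K * (∫ v in (Λ - K)..Λ, M (t + 2 * Real.pi * v / L)) + K +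
    ∫ v in (0 : ℝ)..Λ, F (t + 2 * Real.pi * v / L)), ?_, ?_, ?_, ?_⟩
  · exact continuous_const.mul ((((continuous_const.mul (fub_cont hMc L _ _)).add
      (continuous_const.mul (fub_cont hMc L _ _))).add continuous_const).add (fub_cont hFc L _ _))
  · intro t
    have i1 : 0 ≤ ∫ v in (-K)..0, M (t + 2 * Real.pi * v / L) :=
      intervalIntegral.integral_nonneg (by linarith) fun v _ => by linarith [hM1 (t + 2 * Real.pi * v / L)]
    have i2 : 0 ≤ ∫ v in (Λ - K)..Λ, M (t + 2 * Real.pi * v / L) :=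
      intervalIntegral.integral_nonneg (by linarith) fun v _ => by linarith [hM1 (t + 2 * Real.pi * v / L)]
    have i3 : 0 ≤ ∫ v in (0 : ℝ)..Λ, F (t + 2 * Real.pi * v / L) :=
      intervalIntegral.integral_nonneg hΛ0.le fun v _ => hF0 _
    have : 0 ≤ 1 / Λ := by positivity
    positivity
  · -- the integral
    have cM : ∀ a b', Continuous fun t => ∫ v in a..b', M (t + 2 * Real.pi * v / L) :=
      fun a b' => fub_cont hMc L a b'
    have cF : Continuous fun t => ∫ v in (0 : ℝ)..Λ, F (t + 2 * Real.pi * v / L) := fub_cont hFc L _ _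
    have hsh : ∀ v : ℝ, -Λ ≤ v → v ≤ Λ → |2 * Real.pi * v / L| ≤ 1 := by
      intro v h1 h2
      rw [abs_div, abs_of_pos hL0, div_le_one hL0, abs_mul, abs_of_pos (by positivity : 0 < 2 * Real.pi)]
      have : |v| ≤ Λ := abs_le.2 ⟨h1, h2⟩
      calc 2 * Real.pi * |v| ≤ 2 * Real.pi * Λ := by gcongr
        _ ≤ L := hΛL
    have hM2int : ∀ v : ℝ, -Λ ≤ v → v ≤ Λ → ∫ t in V1..V2, M (t + 2 * Real.pi * v / L) ^ 2 ≤ CM * T :=
      fun v h1 h2 => hM _ (hsh v h1 h2)
    have hM1int : ∀ v : ℝ, -Λ ≤ v → v ≤ Λ → ∫ t in V1..V2, M (t + 2 * Real.pi * v / L) ≤ CM * T := by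
      intro v h1 h2
      refine le_trans ?_ (hM2int v h1 h2)
      apply intervalIntegral.integral_mono_on hV
      · exact (hMc.comp (by fun_prop)).intervalIntegrable _ _
      · exact ((hMc.comp (by fun_prop)).pow 2).intervalIntegrable _ _
      · intro t _
        have := hM1 (t + 2 * Real.pi * v / L)
        nlinarith
    have I1 : ∫ t in V1..V2, ∫ v in (-K)..0, M (t + 2 * Real.pi * v / L) ≤ CM * T * K := by
      have := fub hMc (V1 := V1) (V2 := V2) (L := L) (a := -K) (b := 0) (Q := CM * T)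
        (by linarith) fun v hv => hM1int v (by linarith [hv.1]) (by linarith [hv.2])
      linarith
    have I2 : ∫ t in V1..V2, ∫ v in (Λ - K)..Λ, M (t + 2 * Real.pi * v / L) ≤ CM * T * K := by
      have := fub hMc (V1 := V1) (V2 := V2) (L := L) (a := Λ - K) (b := Λ) (Q := CM * T)
        (by linarith) fun v hv => hM1int v (by linarith [hv.1]) hv.2
      linarith
    have I3 : ∫ t in V1..V2, ∫ v in (0 : ℝ)..Λ, M (t + 2 * Real.pi * v / L) ^ 2 ≤ CM * T * Λ := by
      have := fub (hMc.pow 2) (V1 := V1) (V2 := V2) (L := L) (a := 0) (b := Λ) (Q := CM * T)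
        hΛ0.le fun v hv => hM2int v (by linarith [hv.1]) hv.2
      simpa using this
    have I4 : ∫ t in V1..V2, ∫ v in (0 : ℝ)..Λ, M (t + 2 * Real.pi * v / L) ≤ CM * T * Λ := by
      have := fub hMc (V1 := V1) (V2 := V2) (L := L) (a := 0) (b := Λ) (Q := CM * T)
        hΛ0.le fun v hv => hM1int v (by linarith [hv.1]) hv.2
      simpa using this
    have cz : Continuous fun t => ∫ v in (0 : ℝ)..Λ, z (t + 2 * Real.pi * v / L) ^ 2 :=
      fub_cont (hzc.pow 2) L _ _
    have I5 : ∫ t in V1..V2, ∫ v in (0 : ℝ)..Λ, z (t + 2 * Real.pi * v / L) ^ 2 ≤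
        (K + 33) * T * Λ := by
      set κ := gm 0 (KA (fun _ : Fin 1 => psb (1 / 4) K) (fun _ => K / 2) (fun _ => 1)) 2 with hκ
      have hκ1 : κ ≤ K + 32 := var_K hK
      have cabs : Continuous fun t => Λ * |1 / Λ * (∫ v in (0 : ℝ)..Λ,
        z (t + 2 * Real.pi * v / L) ^ 2) - κ| :=
        continuous_const.mul ((continuous_const.mul cz).sub continuous_const).abs
      have h1 : ∫ t in V1..V2, ∫ v in (0 : ℝ)..Λ, z (t + 2 * Real.pi * v / L) ^ 2 ≤
          ∫ t in V1..V2, (Λ * |1 / Λ * (∫ v in (0 : ℝ)..Λ, z (t + 2 * Real.pi * v / L) ^ 2) - κ| +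
            Λ * κ) := by
        apply intervalIntegral.integral_mono_on hV (cz.intervalIntegrable _ _)
        · exact (cabs.add continuous_const).intervalIntegrable _ _
        · intro t _
          have h2 := le_abs_self (1 / Λ * (∫ v in (0 : ℝ)..Λ, z (t + 2 * Real.pi * v / L) ^ 2) - κ)
          have h3 : ∫ v in (0 : ℝ)..Λ, z (t + 2 * Real.pi * v / L) ^ 2 =
              Λ * (1 / Λ * (∫ v in (0 : ℝ)..Λ, z (t + 2 * Real.pi * v / L) ^ 2) - κ) + Λ * κ := by
            field_simp; ring
          calc _ = _ := h3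
            _ ≤ _ := by gcongr
      refine h1.trans ?_
      rw [intervalIntegral.integral_add (cabs.intervalIntegrable _ _) (by simp),
        intervalIntegral.integral_const_mul, intervalIntegral.integral_const, smul_eq_mul]
      have h4 : ∫ t in V1..V2, |1 / Λ * (∫ v in (0 : ℝ)..Λ, z (t + 2 * Real.pi * v / L) ^ 2) - κ| ≤
          1 * T := hqT
      have h5 : (V2 - V1) * (Λ * κ) ≤ T * (Λ * (K + 32)) := by
        have h6 : (V2 - V1) * (Λ * κ) ≤ (V2 - V1) * (Λ * (K + 32)) := by
          apply mul_le_mul_of_nonneg_left _ (by linarith)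
          gcongr
        refine h6.trans ?_
        apply mul_le_mul_of_nonneg_right hVT
        positivity
      calc Λ * _ + (V2 - V1) * (Λ * κ) ≤ Λ * (1 * T) + T * (Λ * (K + 32)) := by gcongr
        _ = _ := by ring
    have hIF : ∫ t in V1..V2, ∫ v in (0 : ℝ)..Λ, F (t + 2 * Real.pi * v / L) ≤
        (cK K * b * CM + 16 * C1 / K * CM + ((K + 33) / (2 * (K * Real.sqrt K)) +
          1 / (2 * Real.sqrt K))) * T * Λ := by
      have cM2 : Continuous fun t => ∫ v in (0 : ℝ)..Λ, M (t + 2 * Real.pi * v / L) ^ 2 :=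
        fub_cont (hMc.pow 2) L _ _
      have e1 : ∀ t, ∫ v in (0 : ℝ)..Λ, F (t + 2 * Real.pi * v / L) =
          cK K * b * (∫ v in (0 : ℝ)..Λ, M (t + 2 * Real.pi * v / L) ^ 2) +
          16 * C1 / K * (∫ v in (0 : ℝ)..Λ, M (t + 2 * Real.pi * v / L)) +
          ((∫ v in (0 : ℝ)..Λ, z (t + 2 * Real.pi * v / L) ^ 2) / (2 * (K * Real.sqrt K)) +
            Λ * (1 / (2 * Real.sqrt K))) := by
        intro t
        have cτ : Continuous fun v : ℝ => t + 2 * Real.pi * v / L := by fun_prop
        have d1 : Continuous fun v : ℝ => cK K * b * M (t + 2 * Real.pi * v / L) ^ 2 :=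
          continuous_const.mul ((hMc.comp cτ).pow 2)
        have d2 : Continuous fun v : ℝ => 16 * C1 / K * M (t + 2 * Real.pi * v / L) :=
          continuous_const.mul (hMc.comp cτ)
        have d12 : Continuous fun v : ℝ => cK K * b * M (t + 2 * Real.pi * v / L) ^ 2 +
          16 * C1 / K * M (t + 2 * Real.pi * v / L) := d1.add d2
        have d3 : Continuous fun v : ℝ => z (t + 2 * Real.pi * v / L) ^ 2 / (2 * (K * Real.sqrt K)) :=
          ((hzc.comp cτ).pow 2).div_const _
        have d34 : Continuous fun v : ℝ => z (t + 2 * Real.pi * v / L) ^ 2 /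
          (2 * (K * Real.sqrt K)) + 1 / (2 * Real.sqrt K) := d3.add continuous_const
        simp only [hF]
        rw [intervalIntegral.integral_add (d12.intervalIntegrable _ _) (d34.intervalIntegrable _ _),
          intervalIntegral.integral_add (d1.intervalIntegrable _ _) (d2.intervalIntegrable _ _),
          intervalIntegral.integral_add (d3.intervalIntegrable _ _) (by simp),
          intervalIntegral.integral_const_mul, intervalIntegral.integral_const_mul,
          intervalIntegral.integral_div, intervalIntegral.integral_const, smul_eq_mul, sub_zero]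
      simp only [e1]
      have f1 : Continuous fun t => cK K * b * (∫ v in (0 : ℝ)..Λ, M (t + 2 * Real.pi * v / L) ^ 2) :=
        continuous_const.mul cM2
      have f2 : Continuous fun t => 16 * C1 / K * (∫ v in (0 : ℝ)..Λ, M (t + 2 * Real.pi * v / L)) :=
        continuous_const.mul (cM _ _)
      have f12 : Continuous fun t => cK K * b * (∫ v in (0 : ℝ)..Λ, M (t + 2 * Real.pi * v / L) ^ 2) +
        16 * C1 / K * (∫ v in (0 : ℝ)..Λ, M (t + 2 * Real.pi * v / L)) := f1.add f2
      have f3 : Continuous fun t => (∫ v in (0 : ℝ)..Λ, z (t + 2 * Real.pi * v / L) ^ 2) /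
        (2 * (K * Real.sqrt K)) := cz.div_const _
      have f34 : Continuous fun t => (∫ v in (0 : ℝ)..Λ, z (t + 2 * Real.pi * v / L) ^ 2) /
        (2 * (K * Real.sqrt K)) + Λ * (1 / (2 * Real.sqrt K)) := f3.add continuous_const
      rw [intervalIntegral.integral_add (f12.intervalIntegrable _ _) (f34.intervalIntegrable _ _),
          intervalIntegral.integral_add (f1.intervalIntegrable _ _) (f2.intervalIntegrable _ _),
          intervalIntegral.integral_add (f3.intervalIntegrable _ _) (by simp),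
          intervalIntegral.integral_const_mul, intervalIntegral.integral_const_mul,
          intervalIntegral.integral_div, intervalIntegral.integral_const, smul_eq_mul]
      have j1 : cK K * b * (∫ t in V1..V2, ∫ v in (0 : ℝ)..Λ, M (t + 2 * Real.pi * v / L) ^ 2) ≤
          cK K * b * (CM * T * Λ) := by gcongr
      have j2 : 16 * C1 / K * (∫ t in V1..V2, ∫ v in (0 : ℝ)..Λ, M (t + 2 * Real.pi * v / L)) ≤
          16 * C1 / K * (CM * T * Λ) := by gcongr
      have j3 : (∫ t in V1..V2, ∫ v in (0 : ℝ)..Λ, z (t + 2 * Real.pi * v / L) ^ 2) /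
          (2 * (K * Real.sqrt K)) ≤ ((K + 33) * T * Λ) / (2 * (K * Real.sqrt K)) := by gcongr
      have j4 : (V2 - V1) * (Λ * (1 / (2 * Real.sqrt K))) ≤ T * (Λ * (1 / (2 * Real.sqrt K))) := by
        gcongr
      calc _ ≤ cK K * b * (CM * T * Λ) + 16 * C1 / K * (CM * T * Λ) +
          (((K + 33) * T * Λ) / (2 * (K * Real.sqrt K)) + T * (Λ * (1 / (2 * Real.sqrt K)))) := by
            linarith
        _ = _ := by ring
    have g1' : Continuous fun t => cK K * (∫ v in (-K)..0, M (t + 2 * Real.pi * v / L)) :=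
      continuous_const.mul (cM _ _)
    have g2' : Continuous fun t => cK K * (∫ v in (Λ - K)..Λ, M (t + 2 * Real.pi * v / L)) :=
      continuous_const.mul (cM _ _)
    have g12 : Continuous fun t => cK K * (∫ v in (-K)..0, M (t + 2 * Real.pi * v / L)) +
      cK K * (∫ v in (Λ - K)..Λ, M (t + 2 * Real.pi * v / L)) := g1'.add g2'
    have g123 : Continuous fun t => cK K * (∫ v in (-K)..0, M (t + 2 * Real.pi * v / L)) +
      cK K * (∫ v in (Λ - K)..Λ, M (t + 2 * Real.pi * v / L)) + K := g12.add continuous_const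
    rw [intervalIntegral.integral_const_mul, intervalIntegral.integral_add
      (g123.intervalIntegrable _ _) (cF.intervalIntegrable _ _), intervalIntegral.integral_add
      (g12.intervalIntegrable _ _) (by simp), intervalIntegral.integral_add
      (g1'.intervalIntegrable _ _) (g2'.intervalIntegrable _ _),
      intervalIntegral.integral_const_mul, intervalIntegral.integral_const_mul,
      intervalIntegral.integral_const, smul_eq_mul]
    have k1 : 33 ≤ 33 * K := by linarith
    have hsK1 : 1 ≤ Real.sqrt K := by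
      rw [Real.one_le_sqrt]; linarith
    have k2 : 16 * C1 / K ≤ 16 * C1 / Real.sqrt K := by
      have h3 : Real.sqrt K ≤ K := by
        have : Real.sqrt K * 1 ≤ Real.sqrt K * Real.sqrt K := by gcongr
        rw [Real.mul_self_sqrt hK0.le, mul_one] at this
        exact this
      gcongr
    have k3 : (K + 33) / (2 * (K * Real.sqrt K)) ≤ (33 / 2) / Real.sqrt K := by
      rw [div_le_div_iff₀ (by positivity) hsK]
      nlinarith
    have k4 : cK K * (∫ t in V1..V2, ∫ v in (-K)..0, M (t + 2 * Real.pi * v / L)) ≤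
        cK K * (CM * T * K) := by gcongr
    have k5 : cK K * (∫ t in V1..V2, ∫ v in (Λ - K)..Λ, M (t + 2 * Real.pi * v / L)) ≤
        cK K * (CM * T * K) := by gcongr
    have k6 : (V2 - V1) * K ≤ T * K := by gcongr
    have k7 : cK K * b * CM + 16 * C1 / K * CM + ((K + 33) / (2 * (K * Real.sqrt K)) +
          1 / (2 * Real.sqrt K)) ≤ cK K * b * CM + (16 * C1 * CM + 17) / Real.sqrt K := by
      have : 16 * C1 / K * CM ≤ 16 * C1 / Real.sqrt K * CM := by gcongr
      have e : (16 * C1 * CM + 17) / Real.sqrt K = 16 * C1 / Real.sqrt K * CM +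
          ((33 / 2) / Real.sqrt K + 1 / (2 * Real.sqrt K)) := by
        field_simp; ring
      linarith
    calc 1 / Λ * (cK K * (∫ t in V1..V2, ∫ v in (-K)..0, M (t + 2 * Real.pi * v / L)) +
          cK K * (∫ t in V1..V2, ∫ v in (Λ - K)..Λ, M (t + 2 * Real.pi * v / L)) + (V2 - V1) * K +
          ∫ t in V1..V2, ∫ v in (0 : ℝ)..Λ, F (t + 2 * Real.pi * v / L)) ≤
        1 / Λ * (cK K * (CM * T * K) + cK K * (CM * T * K) + T * K +
          (cK K * b * CM + (16 * C1 * CM + 17) / Real.sqrt K) * T * Λ) := by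
          have : (cK K * b * CM + 16 * C1 / K * CM + ((K + 33) / (2 * (K * Real.sqrt K)) +
            1 / (2 * Real.sqrt K))) * T * Λ ≤
            (cK K * b * CM + (16 * C1 * CM + 17) / Real.sqrt K) * T * Λ := by gcongr
          gcongr
          exact hIF.trans this
      _ = (2 * cK K * CM * K + K) / Λ * T +
          (cK K * b * CM + (16 * C1 * CM + 17) / Real.sqrt K) * T := by
          field_simp
          ring
      _ ≤ _ := by
          have h1 : (2 * cK K * CM * K + K) / Λ ≤ (17 + 16 * C1 * CM + 3 * CM) * cK K * K / Λ := by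
            gcongr
            have p1 : 1 ≤ CM * cK K := by nlinarith
            have p2 : 0 ≤ C1 * CM * cK K := by positivity
            have p3 : K * 1 ≤ K * (CM * cK K) := by gcongr
            have p4 : 0 ≤ K * (C1 * CM * cK K) := by positivity
            have p5 : 0 ≤ K * cK K := by positivity
            nlinarith
          have h2 : cK K * b * CM ≤ (17 + 16 * C1 * CM + 3 * CM) * cK K * b := by
            have p1 : 0 ≤ cK K * b := by positivity
            have p2 : 0 ≤ C1 * CM * (cK K * b) := by positivity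
            have p3 : 0 ≤ CM * (cK K * b) := by positivity
            nlinarith
          have h3 : (16 * C1 * CM + 17) / Real.sqrt K ≤ (17 + 16 * C1 * CM + 3 * CM) / Real.sqrt K := by
            apply div_le_div_of_nonneg_right _ hsK.le
            linarith
          have h4 : (2 * cK K * CM * K + K) / Λ * T ≤
            (17 + 16 * C1 * CM + 3 * CM) * cK K * K / Λ * T := by gcongr
          have h5 : (cK K * b * CM + (16 * C1 * CM + 17) / Real.sqrt K) * T ≤
            ((17 + 16 * C1 * CM + 3 * CM) * cK K * b + (17 + 16 * C1 * CM + 3 * CM) / Real.sqrt K) * T := by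
            gcongr
          calc _ ≤ (17 + 16 * C1 * CM + 3 * CM) * cK K * K / Λ * T +
              ((17 + 16 * C1 * CM + 3 * CM) * cK K * b +
                (17 + 16 * C1 * CM + 3 * CM) / Real.sqrt K) * T := add_le_add h4 h5
            _ = _ := by ring
  · intro t
    rw [← mul_sub, abs_mul, abs_of_pos (by positivity : 0 < 1 / Λ)]
    apply mul_le_mul_of_nonneg_left _ (by positivity)
    refine (hshort t).trans ?_
    have h1 : ∫ v in (0 : ℝ)..Λ, (cK K * (M (t + 2 * Real.pi * v / L) *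
        (b * M (t + 2 * Real.pi * v / L))) + 1 / K * D (t + 2 * Real.pi * v / L)) ≤
        ∫ v in (0 : ℝ)..Λ, F (t + 2 * Real.pi * v / L) := by
      have cτ : Continuous fun v : ℝ => t + 2 * Real.pi * v / L := by fun_prop
      have hMτ := hMc.comp cτ
      apply intervalIntegral.integral_mono_on hΛ0.le
      · exact ((continuous_const.mul (hMτ.mul (continuous_const.mul hMτ))).add
          (continuous_const.mul (hDc.comp cτ))).intervalIntegrable _ _
      · exact (hFc.comp cτ).intervalIntegrable _ _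
      · intro v _
        exact hF1 _
    linarith

/-- **the law of the counts at the zeros** in almost all windows -/
theorem zero_law (hRH : RHs) {m : ℕ} {x : ℕ → Fin m → ℝ} (hx : GS x) (g : EE m →ᵇ ℝ)
    (hg : ∀ z, |g z| ≤ 1) {Lg : ℝ} (hLg : 0 ≤ Lg) (hgL : LipE Lg g) {κ : ℝ} (hκ : 0 ≤ κ)
    (hκ1 : κ ≤ 1) {ε : ℝ} (hε : 0 < ε) :
    ∀ᶠ r : ℕ in atTop, ∀ᶠ Λ : ℝ in atTop, ∀ᶠ T : ℝ in atTop,
    ∃ E : ℝ → ℝ, Continuous E ∧ (∀ t, 0 ≤ E t) ∧
      ∫ t in (T + 8 * Real.log T)..(2 * T - 8 * Real.log T), E t ≤ ε * T ∧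
      ∀ t, |1 / Λ * AW T Λ (fun s => g (Yz κ (x r) (rho r) T s)) t -
        ∫ z, g z ∂(glaw m : Measure (EE m))| ≤ E t := by
  obtain ⟨C, hC1, hsm⟩ := short_mean hRH m
  obtain ⟨C1, hC11, hnX⟩ := nc_XX
  obtain ⟨δ, hδ, hδ1, hlaw⟩ := smooth_law hRH hx g hg (ε := ε / 4) (by positivity)
  -- choice of `K`
  obtain ⟨K, hK4, hK⟩ : ∃ K : ℝ, 4 ≤ K ∧ C / Real.sqrt K ≤ ε / 4 := by
    have h1 : Tendsto (fun K : ℝ => C / Real.sqrt K) atTop (𝓝 0) :=
      Real.tendsto_sqrt_atTop.const_div_atTop C
    obtain ⟨K, h2, h3⟩ := ((h1.eventually (gt_mem_nhds (by positivity : (0 : ℝ) < ε / 4))).and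
      (eventually_ge_atTop 4)).exists
    exact ⟨K, h3, h2.le⟩
  have hK0 : 0 < K := by linarith
  have hck := cK_pos hK0.le
  set b : ℕ → ℝ := fun r => Lg * rho r * m * (2 * cK K + C1 / δ ^ 2) with hb
  have hrho : Tendsto rho atTop (𝓝 0) := by
    unfold rho
    exact (Real.tendsto_sqrt_atTop.comp log_nat_atTop).const_div_atTop _
  have hrho0 : ∀ r, 0 ≤ rho r := fun r => div_nonneg Real.pi_pos.le (Real.sqrt_nonneg _)
  have hb0 : ∀ r, 0 ≤ b r := fun r => by
    have := hrho0 r
    simp only [hb]; positivity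
  have hblim : Tendsto (fun r => C * cK K * b r) atTop (𝓝 0) := by
    have h1 : Tendsto (fun r => C * cK K * (Lg * rho r * m * (2 * cK K + C1 / δ ^ 2))) atTop
        (𝓝 (C * cK K * (Lg * 0 * m * (2 * cK K + C1 / δ ^ 2)))) :=
      (((hrho.const_mul Lg).mul_const _).mul_const _).const_mul _
    simpa using h1
  filter_upwards [hlaw, hblim.eventually (gt_mem_nhds (by positivity : (0 : ℝ) < ε / 4))] with
    r ⟨hr0, hr1⟩ hr2
  have hΛlim : Tendsto (fun Λ : ℝ => C * cK K * K / Λ) atTop (𝓝 0) :=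
    tendsto_id.const_div_atTop _
  filter_upwards [hr1, hsm K hK4 (x r) (b r) (hb0 r), eventually_gt_atTop 0,
    hΛlim.eventually (gt_mem_nhds (by positivity : (0 : ℝ) < ε / 4))] with Λ h1 h2 hΛ0 h3
  choose T1 hT1 hn using fun j => hnX δ hδ hδ1 (x r j) (hr0 j)
  have hT1' : ∀ᶠ T : ℝ in atTop, ∀ j, T1 j ≤ T := eventually_all.2 fun j => eventually_ge_atTop _
  filter_upwards [h1, h2, V_ev, hT1', eventually_ge_atTop 10,
    Real.tendsto_log_atTop.eventually_ge_atTop (2 * Real.pi * K)] with T g1 g2 hV g3 hT10 hKL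
  have hTo : 1 ≤ T := by linarith
  have hYc : Continuous (Ys δ (x r) (rho r) T) := Ys_cont hδ hr0 _ hTo
  obtain ⟨E, hEc, hE0, hEi, hEb⟩ := g2 (fun s => g (Yz κ (x r) (rho r) T s))
    (fun t => g (Ys δ (x r) (rho r) T t)) (fun s => hg _) (g.continuous.comp hYc) (fun t => hg _)
    (fun t s hs hs1 hs2 => by
      have := Yz_Ys hT10 (K := K) hK0.le hKL (x := x r) (δ := δ) (C1 := C1 / δ ^ 2) (ρ := rho r)
        (by positivity) (hrho0 r) (fun j t => hn j T (g3 j) t) (g := g) hLg hgL hκ hκ1 t s hs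
        hs1 hs2
      simp only [hb]
      exact this)
  refine ⟨fun t => E t + |1 / Λ * (∫ s in (0 : ℝ)..Λ,
    g (Ys δ (x r) (rho r) T (t + 2 * Real.pi * s / Real.log T))) -
        ∫ z, g z ∂(glaw m : Measure (EE m))|, ?_, ?_, ?_, ?_⟩
  · exact hEc.add ((continuous_const.mul (fub_cont (g.continuous.comp hYc) _ _ _)).sub
      continuous_const).abs
  · exact fun t => add_nonneg (hE0 t) (abs_nonneg _)
  · have hc2 : Continuous fun t => |1 / Λ * (∫ s in (0 : ℝ)..Λ,
        g (Ys δ (x r) (rho r) T (t + 2 * Real.pi * s / Real.log T))) -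
        ∫ z, g z ∂(glaw m : Measure (EE m))| :=
      ((continuous_const.mul (fub_cont (g.continuous.comp hYc) _ _ _)).sub continuous_const).abs
    rw [intervalIntegral.integral_add (hEc.intervalIntegrable _ _) (hc2.intervalIntegrable _ _)]
    have hTp : 0 < T := by linarith
    have h4 : (C / Real.sqrt K + C * cK K * b r + C * cK K * K / Λ) * T ≤
        (ε / 4 + ε / 4 + ε / 4) * T := by gcongr
    linarith
  · intro t
    have h5 := hEb t
    have h6 := abs_sub_le (1 / Λ * AW T Λ (fun s => g (Yz κ (x r) (rho r) T s)) t)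
      (1 / Λ * ∫ v in (0 : ℝ)..Λ, g (Ys δ (x r) (rho r) T (t + 2 * Real.pi * v / Real.log T)))
      (∫ z, g z ∂(glaw m : Measure (EE m)))
    linarith

end Pool.Agent.H478.CW
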