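import Pool.Agent.H478.CW14
import Pool.Graph.R_seed8.W200.HW
import Pool.Graph.R_seed8.R321.FA17

/-! Sums over zeros and sums over indices; sums of consecutive gaps. -/

open Finset Complex MeasureTheory Filter Topology

namespace Pool.Agent.H478.CW

open SP (ZZ mu RHs)
open SG (ord NZ zmult ZS)
open W200.HW (Ix mem_Ix)
open Pool.Agent.TH800.LD (ZZf)
open TH800.MS (dlt)

/-- the zero with ordinate `γ` -/
noncomputable def zo (γ : ℝ) : ℂ := 1 / 2 + I * γ

lemma zo_im (γ : ℝ) : (zo γ).im = γ := by unfold zo; simp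

lemma zo_eq (RH : RiemannHypothesis) {s : ℂ} (h0 : riemannZeta s = 0) (h : 0 < s.im) :
    zo s.im = s := by
  apply Complex.ext
  · rw [W200.HW.re_half RH h0 h]
    simp [zo]
  · exact zo_im _

/-- the indices of the ordinates in `(T, 2T]` -/
noncomputable def Ib (T : ℝ) : Finset ℕ := Finset.Ioc (NZ T) (NZ (2 * T))

lemma mem_Ib {T : ℝ} {n : ℕ} : n ∈ Ib T ↔ 1 ≤ n ∧ T < ord n ∧ ord n ≤ 2 * T := by
  unfold Ib
  rw [Finset.mem_Ioc]
  constructor
  · rintro ⟨h1, h2⟩
    have hn : 1 ≤ n := by omega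
    refine ⟨hn, ?_, (SG.ord_le_iff hn _).2 h2⟩
    by_contra hc
    have := (SG.ord_le_iff hn T).1 (not_lt.1 hc)
    omega
  · rintro ⟨h1, h2, h3⟩
    refine ⟨?_, (SG.ord_le_iff h1 _).1 h3⟩
    by_contra hc
    have := (SG.ord_le_iff h1 T).2 (not_lt.1 hc)
    linarith

/-- sums over zeros as sums over indices -/
lemma block_sum (RH : RiemannHypothesis) {T : ℝ} (hT : 1 ≤ T) (f : ℂ → ℝ) :
    ∑ s ∈ (ZZf hT).toFinset, (mu s : ℝ) * f s = ∑ n ∈ Ib T, f (zo (ord n)) := by
  classical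
  have hfin := ZZf hT
  have hmaps : ∀ n ∈ Ib T, zo (ord n) ∈ hfin.toFinset := by
    intro n hn
    obtain ⟨h1, h2, h3⟩ := mem_Ib.1 hn
    have hb : n ∈ Ix (2 * T) := mem_Ix.2 ⟨h1, h3⟩
    obtain ⟨g0, g1, g2, g3, g4⟩ := W200.HW.zero_at RH hb
    rw [Set.Finite.mem_toFinset]
    have e : (1 / 2 + I * ord n : ℂ).im = ord n := by simp
    exact ⟨g1, g2, by rw [zo_im]; exact h2, by rw [zo_im]; exact h3, g0⟩
  rw [← Finset.sum_fiberwise_of_maps_to hmaps (fun n => f (zo (ord n)))]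
  refine Finset.sum_congr rfl fun s hs => ?_
  rw [Set.Finite.mem_toFinset] at hs
  obtain ⟨h1, h2, h3, h4, h0⟩ := hs
  have hpos : 0 < s.im := by linarith
  have hsb : s ∈ ZS (2 * T) := ⟨h0, h1, h2, hpos, h4⟩
  have hcard := W200.HW.ord_fib RH hsb
  have hset : (Ib T).filter (fun n => zo (ord n) = s) =
      (Ix (2 * T)).filter (fun n => ord n = s.im) := by
    ext n
    rw [Finset.mem_filter, Finset.mem_filter, mem_Ib, mem_Ix]
    constructor
    · rintro ⟨⟨k1, k2, k3⟩, k4⟩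
      refine ⟨⟨k1, k3⟩, ?_⟩
      rw [← k4, zo_im]
    · rintro ⟨⟨k1, k2⟩, k3⟩
      refine ⟨⟨k1, by rw [k3]; exact h3, k2⟩, ?_⟩
      rw [k3]
      exact zo_eq RH h0 hpos
  have hc : ∑ n ∈ (Ib T).filter (fun n => zo (ord n) = s), f (zo (ord n)) =
      ∑ n ∈ (Ib T).filter (fun n => zo (ord n) = s), f s := by
    refine Finset.sum_congr rfl fun n hn => ?_
    rw [Finset.mem_filter] at hn
    rw [hn.2]
  rw [hc, Finset.sum_const, hset, hcard, nsmul_eq_mul]
  rfl

/-- the weighted count over the indices -/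
lemma AW_idx (RH : RiemannHypothesis) {T : ℝ} (hT : 1 ≤ T) (Λ : ℝ) (G : ℂ → ℝ) (t : ℝ) :
    AW T Λ G t = ∑ n ∈ Ib T, JI t (2 * Real.pi * Λ / Real.log T) (ord n) * G (zo (ord n)) := by
  rw [AW_eq hT]
  have h := block_sum RH hT (fun s => JI t (2 * Real.pi * Λ / Real.log T) s.im * G s)
  simp only [zo_im] at h
  rw [← h]
  refine Finset.sum_congr rfl fun s _ => ?_
  ring

/-- counts as differences of the counting function -/
lemma nc_NZ (RH : RiemannHypothesis) {T : ℝ} (hT : 1 ≤ T) {t x : ℝ} (h1 : T ≤ t)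
    (h2 : t + 2 * Real.pi * x / Real.log T ≤ 2 * T) (hx : 0 ≤ 2 * Real.pi * x / Real.log T) :
    nc T t x + NZ t = NZ (t + 2 * Real.pi * x / Real.log T) := by
  classical
  rw [nc_JI hT]
  have h := block_sum RH hT (fun s => JI t (2 * Real.pi * x / Real.log T) s.im)
  rw [h]
  simp only [zo_im]
  set w := 2 * Real.pi * x / Real.log T with hw
  have e1 : ∑ n ∈ Ib T, JI t w (ord n) = ((Finset.Ioc (NZ t) (NZ (t + w))).card : ℝ) := by
    unfold JI
    rw [Finset.sum_ite, Finset.sum_const_zero, add_zero, Finset.sum_const, nsmul_eq_mul, mul_one]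
    congr 2
    ext n
    rw [Finset.mem_filter, mem_Ib, Finset.mem_Ioc]
    constructor
    · rintro ⟨⟨k1, k2, k3⟩, k4, k5⟩
      refine ⟨?_, (SG.ord_le_iff k1 _).1 k5⟩
      by_contra hc
      have := (SG.ord_le_iff k1 t).2 (not_lt.1 hc)
      linarith
    · rintro ⟨k1, k2⟩
      have hn : 1 ≤ n := by omega
      have k3 := (SG.ord_le_iff hn _).2 k2
      have k4 : t < ord n := by
        by_contra hc
        have := (SG.ord_le_iff hn t).1 (not_lt.1 hc)
        omega
      exact ⟨⟨hn, by linarith, by linarith⟩, k4, k3⟩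
  rw [e1, Nat.card_Ioc, Nat.cast_sub (SG.NZ_mono (by linarith))]
  ring

/-- many zeros in the window: the sum of the gaps is small -/
lemma ord_of_nc (RH : RiemannHypothesis) {T : ℝ} (hT : 1 ≤ T) {x : ℝ} {n k : ℕ} (hn : n ∈ Ib T)
    (h2 : ord n + 2 * Real.pi * x / Real.log T ≤ 2 * T) (hx : 0 ≤ 2 * Real.pi * x / Real.log T)
    (hk : (k : ℝ) ≤ nc T (ord n) x) : ord (n + k) ≤ ord n + 2 * Real.pi * x / Real.log T := by
  obtain ⟨h3, h4, h5⟩ := mem_Ib.1 hn
  have h6 := nc_NZ RH hT h4.le h2 hx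
  have h7 := SG.le_NZ_ord h3
  rw [SG.ord_le_iff (by omega)]
  have h8 : (n : ℝ) ≤ NZ (ord n) := by exact_mod_cast h7
  have h9 : ((n + k : ℕ) : ℝ) ≤ NZ (ord n + 2 * Real.pi * x / Real.log T) := by
    rw [← h6]; push_cast; linarith
  exact_mod_cast h9

/-- the later indices with the same ordinate -/
lemma NZ_ord_le (RH : RiemannHypothesis) {n : ℕ} (hn : 1 ≤ n) :
    NZ (ord n) ≤ n + mu (zo (ord n)) := by
  classical
  have hb : n ∈ Ix (ord n) := mem_Ix.2 ⟨hn, le_rfl⟩
  have hz := W200.HW.zero_at RH hb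
  have hcard := W200.HW.ord_fib RH hz
  have e : (1 / 2 + I * ord n : ℂ).im = ord n := by simp
  rw [e] at hcard
  have hsub : Finset.Icc n (NZ (ord n)) ⊆ (Ix (ord n)).filter (fun m => ord m = ord n) := by
    intro m hm
    rw [Finset.mem_Icc] at hm
    have hm1 : 1 ≤ m := hn.trans hm.1
    have hle := (SG.ord_le_iff hm1 _).2 hm.2
    rw [Finset.mem_filter, mem_Ix]
    exact ⟨⟨hm1, hle⟩, le_antisymm hle (SG.ord_mono hn hm.1)⟩
  have h := Finset.card_le_card hsub
  rw [hcard, Nat.card_Icc] at h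
  have h2 : zmult (1 / 2 + I * ord n : ℂ) = mu (zo (ord n)) := rfl
  rw [h2] at h
  omega

/-- small sum of gaps: many zeros in the window -/
lemma nc_of_ord (RH : RiemannHypothesis) {T : ℝ} (hT : 1 ≤ T) {x : ℝ} {n k : ℕ} (hn : n ∈ Ib T)
    (h2 : ord n + 2 * Real.pi * x / Real.log T ≤ 2 * T) (hx : 0 ≤ 2 * Real.pi * x / Real.log T)
    (hk : ord (n + k) ≤ ord n + 2 * Real.pi * x / Real.log T) :
    (k : ℝ) ≤ nc T (ord n) x + mu (zo (ord n)) := by
  obtain ⟨h3, h4, h5⟩ := mem_Ib.1 hn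
  have h6 := nc_NZ RH hT h4.le h2 hx
  have h7 := NZ_ord_le RH h3
  rw [SG.ord_le_iff (by omega)] at hk
  have h8 : (NZ (ord n) : ℝ) ≤ n + mu (zo (ord n)) := by exact_mod_cast h7
  have h9 : ((n + k : ℕ) : ℝ) ≤ NZ (ord n + 2 * Real.pi * x / Real.log T) := by exact_mod_cast hk
  rw [← h6] at h9
  push_cast at h9
  linarith

/-- the sum of `k` consecutive gaps -/
lemma dlt_sum (n k : ℕ) : ∑ i ∈ Finset.range k, dlt (n + i) =
    (ord (n + k) * Real.log (ord (n + k)) - ord n * Real.log (ord n)) / (2 * Real.pi) := by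
  induction k with
  | zero => simp
  | succ k ih =>
    rw [Finset.sum_range_succ, ih]
    unfold dlt
    rw [← add_assoc]
    ring

lemma xlogx_low {a b : ℝ} (ha : 0 < a) (hab : a ≤ b) :
    (b - a) * (Real.log a + 1) ≤ b * Real.log b - a * Real.log a := by
  have hb : 0 < b := by linarith
  have h1 : 1 - a / b ≤ Real.log b - Real.log a := by
    have := Real.log_le_sub_one_of_pos (div_pos ha hb)
    rw [Real.log_div ha.ne' hb.ne'] at this
    linarith
  have h2 : b * (1 - a / b) = b - a := by field_simp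
  have h3 : b - a ≤ b * (Real.log b - Real.log a) := by
    rw [← h2]; exact mul_le_mul_of_nonneg_left h1 hb.le
  nlinarith

lemma xlogx_up {a b : ℝ} (ha : 0 < a) (hab : a ≤ b) :
    b * Real.log b - a * Real.log a ≤ (b - a) * (Real.log b + 1) := by
  have hb : 0 < b := by linarith
  have h1 : Real.log b - Real.log a ≤ b / a - 1 := by
    have := Real.log_le_sub_one_of_pos (div_pos hb ha)
    rw [Real.log_div hb.ne' ha.ne'] at this
    linarith
  have h2 : a * (b / a - 1) = b - a := by field_simp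
  have h3 : a * (Real.log b - Real.log a) ≤ b - a := by
    rw [← h2]; exact mul_le_mul_of_nonneg_left h1 ha.le
  nlinarith

/-- small normalised sum of gaps: the ordinate is near -/
lemma ord_of_S {T : ℝ} (hT : 10 ≤ T) {n k : ℕ} (hn : n ∈ Ib T) {x : ℝ}
    (h : ∑ i ∈ Finset.range k, dlt (n + i) ≤ x) :
    ord (n + k) ≤ ord n + 2 * Real.pi * x / Real.log T := by
  obtain ⟨h3, h4, h5⟩ := mem_Ib.1 hn
  have hL1 := log_one_le hT
  have hpi := Real.pi_pos
  have hL0 : 0 < Real.log T := by linarith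
  have hmono := SG.ord_mono h3 (Nat.le_add_right n k)
  have hpos : 0 < ord n := SG.ord_pos h3
  rw [dlt_sum, div_le_iff₀ (by positivity)] at h
  have h6 := xlogx_low hpos hmono
  have h7 : Real.log T ≤ Real.log (ord n) := Real.log_le_log (by linarith) h4.le
  have h8 : (ord (n + k) - ord n) * Real.log T ≤ x * (2 * Real.pi) := by
    have h9 : (ord (n + k) - ord n) * Real.log T ≤ (ord (n + k) - ord n) * (Real.log (ord n) + 1) :=
      mul_le_mul_of_nonneg_left (by linarith) (by linarith)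
    linarith
  rw [← sub_le_iff_le_add', le_div_iff₀ hL0]
  linarith

/-- near ordinate: small normalised sum of gaps -/
lemma S_of_ord {T : ℝ} (hT : 10 ≤ T) {n k : ℕ} (hn : n ∈ Ib T) {x : ℝ} (hx0 : 0 ≤ x)
    (hx : 6 * x ≤ Real.log T) (hxT : 2 * Real.pi * x / Real.log T ≤ 2 * T)
    (h : ord (n + k) ≤ ord n + 2 * Real.pi * x / Real.log T) :
    ∑ i ∈ Finset.range k, dlt (n + i) ≤ x + 1 := by
  obtain ⟨h3, h4, h5⟩ := mem_Ib.1 hn
  have hL1 := log_one_le hT
  have hpi := Real.pi_pos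
  have hL0 : 0 < Real.log T := by linarith
  have hmono := SG.ord_mono h3 (Nat.le_add_right n k)
  have hpos : 0 < ord n := SG.ord_pos h3
  rw [dlt_sum, div_le_iff₀ (by positivity)]
  have h6 := xlogx_up hpos hmono
  have h7 : ord (n + k) ≤ 4 * T := by linarith
  have h8 : Real.log (ord (n + k)) ≤ Real.log T + 2 := by
    have a1 : Real.log (ord (n + k)) ≤ Real.log (4 * T) :=
      Real.log_le_log (by linarith) h7
    rw [Real.log_mul (by norm_num) (by linarith)] at a1
    have a2 : Real.log 4 ≤ 2 := by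
      have : Real.log 4 = 2 * Real.log 2 := by
        rw [show (4 : ℝ) = 2 ^ 2 by norm_num, Real.log_pow]; norm_num
      rw [this]
      have := Real.log_two_lt_d9
      linarith
    linarith
  have h9 : 0 ≤ ord (n + k) - ord n := by linarith
  have h10 : (ord (n + k) - ord n) * (Real.log (ord (n + k)) + 1) ≤
      (2 * Real.pi * x / Real.log T) * (Real.log T + 3) := by
    apply mul_le_mul (by linarith) (by linarith) _ (by positivity)
    have : 0 ≤ Real.log (ord (n + k)) := Real.log_nonneg (by linarith)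
    linarith
  have h11 : (2 * Real.pi * x / Real.log T) * (Real.log T + 3) =
      2 * Real.pi * x + 2 * Real.pi * (3 * x / Real.log T) := by
    field_simp
  have h12 : 3 * x / Real.log T ≤ 1 := by
    rw [div_le_one hL0]; linarith
  have h13 : 2 * Real.pi * (3 * x / Real.log T) ≤ 2 * Real.pi * 1 := by gcongr
  nlinarith

end Pool.Agent.H478.CW
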