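import Pool.Agent.H478.CW15

/-! Test functions for orthants, the limiting distribution function. -/

open Finset Complex MeasureTheory Filter Topology ProbabilityTheory
open scoped RealInnerProductSpace BoundedContinuousFunction

namespace Pool.Agent.H478.CW

/-- clamp to `[0,1]` -/
noncomputable def clp (z : ℝ) : ℝ := max 0 (min 1 z)

lemma clp_nonneg (z : ℝ) : 0 ≤ clp z := le_max_left _ _

lemma clp_le (z : ℝ) : clp z ≤ 1 := max_le (by norm_num) (min_le_left _ _)

lemma clp_lip (x y : ℝ) : |clp x - clp y| ≤ |x - y| := by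
  unfold clp
  have h1 := abs_max_sub_max_le_max 0 (min 1 x) 0 (min 1 y)
  have h2 := abs_min_sub_min_le_max 1 x 1 y
  simp only [sub_self, abs_zero] at h1 h2
  refine h1.trans (max_le (abs_nonneg _) (h2.trans (max_le (abs_nonneg _) le_rfl)))

lemma clp_one {z : ℝ} (h : 1 ≤ z) : clp z = 1 := by
  unfold clp; rw [min_eq_left h]; norm_num

lemma clp_zero {z : ℝ} (h : z ≤ 0) : clp z = 0 := by
  unfold clp; rw [min_eq_right (by linarith), max_eq_left h]

lemma clp_cont : Continuous clp := by unfold clp; fun_prop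

/-- products of numbers in `[0,1]` -/
lemma prod01 {ι : Type*} (s : Finset ι) (a b : ι → ℝ) (ha : ∀ i, 0 ≤ a i) (ha1 : ∀ i, a i ≤ 1)
    (hb : ∀ i, 0 ≤ b i) (hb1 : ∀ i, b i ≤ 1) :
    |∏ i ∈ s, a i - ∏ i ∈ s, b i| ≤ ∑ i ∈ s, |a i - b i| := by
  classical
  induction s using Finset.induction_on with
  | empty => simp
  | insert i s hi ih =>
    rw [Finset.prod_insert hi, Finset.prod_insert hi, Finset.sum_insert hi]
    have e : a i * ∏ i ∈ s, a i - b i * ∏ i ∈ s, b i =
        (a i - b i) * ∏ i ∈ s, a i + b i * (∏ i ∈ s, a i - ∏ i ∈ s, b i) := by ring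
    rw [e]
    refine (abs_add_le _ _).trans ?_
    rw [abs_mul, abs_mul, abs_of_nonneg (hb i), abs_of_nonneg (Finset.prod_nonneg fun i _ => ha i)]
    have h1 : ∏ i ∈ s, a i ≤ 1 := Finset.prod_le_one (fun i _ => ha i) (fun i _ => ha1 i)
    have h2 := abs_nonneg (a i - b i)
    have h3 := abs_nonneg (∏ i ∈ s, a i - ∏ i ∈ s, b i)
    have h4 : |a i - b i| * ∏ i ∈ s, a i ≤ |a i - b i| * 1 := by gcongr
    have h5 : b i * |∏ i ∈ s, a i - ∏ i ∈ s, b i| ≤ 1 * |∏ i ∈ s, a i - ∏ i ∈ s, b i| := by
      have := hb1 i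
      gcongr
    linarith

/-- the smoothed orthant -/
noncomputable def gq {m : ℕ} (η : ℝ) (y : Fin m → ℝ) (z : EE m) : ℝ :=
  ∏ j, clp ((z j + y j + η) / η)

lemma gq_nonneg {m : ℕ} (η : ℝ) (y : Fin m → ℝ) (z : EE m) : 0 ≤ gq η y z :=
  Finset.prod_nonneg fun _ _ => clp_nonneg _

lemma gq_le {m : ℕ} (η : ℝ) (y : Fin m → ℝ) (z : EE m) : gq η y z ≤ 1 :=
  Finset.prod_le_one (fun _ _ => clp_nonneg _) fun _ _ => clp_le _

lemma gq_abs {m : ℕ} (η : ℝ) (y : Fin m → ℝ) (z : EE m) : |gq η y z| ≤ 1 := by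
  rw [abs_of_nonneg (gq_nonneg _ _ _)]; exact gq_le _ _ _

lemma gq_cont {m : ℕ} (η : ℝ) (y : Fin m → ℝ) : Continuous (gq (m := m) η y) := by
  unfold gq
  refine continuous_finsetProd _ fun j _ => clp_cont.comp ?_
  fun_prop

lemma gq_lip {m : ℕ} {η : ℝ} (hη : 0 < η) (y : Fin m → ℝ) : LipE (1 / η) (gq η y) := by
  intro z w
  unfold gq
  refine (prod01 _ _ _ (fun _ => clp_nonneg _) (fun _ => clp_le _) (fun _ => clp_nonneg _)
    (fun _ => clp_le _)).trans ?_
  rw [Finset.mul_sum]
  refine Finset.sum_le_sum fun j _ => (clp_lip _ _).trans (le_of_eq ?_)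
  rw [← sub_div, abs_div, abs_of_pos hη]
  have : z j + y j + η - (w j + y j + η) = z j - w j := by ring
  rw [this]; ring

lemma gq_one {m : ℕ} {η : ℝ} (hη : 0 < η) {y : Fin m → ℝ} {z : EE m} (h : ∀ j, -y j ≤ z j) :
    gq η y z = 1 := by
  unfold gq
  refine Finset.prod_eq_one fun j _ => clp_one ?_
  rw [le_div_iff₀ hη]
  linarith [h j]

lemma gq_pos {m : ℕ} {η : ℝ} (hη : 0 < η) {y : Fin m → ℝ} {z : EE m} (h : gq η y z ≠ 0) (j : Fin m) :
    -y j - η < z j := by
  by_contra hc
  apply h
  unfold gq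
  refine Finset.prod_eq_zero (Finset.mem_univ j) (clp_zero ?_)
  apply div_nonpos_of_nonpos_of_nonneg _ hη.le
  linarith [not_lt.1 hc]

/-- the bounded continuous function -/
noncomputable def gqb {m : ℕ} (η : ℝ) (y : Fin m → ℝ) : EE m →ᵇ ℝ :=
  BoundedContinuousFunction.ofNormedAddCommGroup (gq η y) (gq_cont η y) 1 fun z => by
    rw [Real.norm_eq_abs]; exact gq_abs η y z

lemma gqb_apply {m : ℕ} (η : ℝ) (y : Fin m → ℝ) (z : EE m) : gqb η y z = gq η y z := rfl

/-- the orthant -/
def Orth {m : ℕ} (y : Fin m → ℝ) : Set (EE m) := {z | ∀ j, -y j ≤ z j}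

lemma Orth_closed {m : ℕ} (y : Fin m → ℝ) : IsClosed (Orth y) := by
  have : Orth y = ⋂ j, {z : EE m | -y j ≤ z j} := by ext; simp [Orth]
  rw [this]
  exact isClosed_iInter fun j => isClosed_le continuous_const (by fun_prop)

lemma Orth_meas {m : ℕ} (y : Fin m → ℝ) : MeasurableSet (Orth y) := (Orth_closed y).measurableSet

/-- the limiting distribution function -/
noncomputable def FF {m : ℕ} (y : Fin m → ℝ) : ℝ := (glaw m : Measure (EE m)).real (Orth y)

lemma gq_int_lower {m : ℕ} {η : ℝ} (hη : 0 < η) (y : Fin m → ℝ) :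
    FF y ≤ ∫ z, gq η y z ∂(glaw m : Measure (EE m)) := by
  unfold FF
  have h1 : (glaw m : Measure (EE m)).real (Orth y) =
      ∫ z, (Orth y).indicator (fun _ => (1 : ℝ)) z ∂(glaw m : Measure (EE m)) := by
    rw [integral_indicator (Orth_meas y)]
    simp
  rw [h1]
  apply integral_mono
  · exact (integrable_const _).indicator (Orth_meas y)
  · exact Integrable.of_bound (gq_cont η y).aestronglyMeasurable (C := 1)
      (Eventually.of_forall fun z => by rw [Real.norm_eq_abs]; exact gq_abs η y z)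
  · intro z
    show (Orth y).indicator (fun _ => (1 : ℝ)) z ≤ gq η y z
    by_cases h : z ∈ Orth y
    · rw [Set.indicator_of_mem h, gq_one hη h]
    · rw [Set.indicator_of_notMem h]; exact gq_nonneg _ _ _

lemma gq_int_upper {m : ℕ} {η : ℝ} (hη : 0 < η) (y : Fin m → ℝ) :
    ∫ z, gq η y z ∂(glaw m : Measure (EE m)) ≤ FF (fun j => y j + η) := by
  unfold FF
  have h1 : (glaw m : Measure (EE m)).real (Orth (fun j => y j + η)) =
      ∫ z, (Orth (fun j => y j + η)).indicator (fun _ => (1 : ℝ)) z ∂(glaw m : Measure (EE m)) := by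
    rw [integral_indicator (Orth_meas _)]
    simp
  rw [h1]
  apply integral_mono
  · exact Integrable.of_bound (gq_cont η y).aestronglyMeasurable (C := 1)
      (Eventually.of_forall fun z => by rw [Real.norm_eq_abs]; exact gq_abs η y z)
  · exact (integrable_const _).indicator (Orth_meas _)
  · intro z
    show gq η y z ≤ (Orth (fun j => y j + η)).indicator (fun _ => (1 : ℝ)) z
    by_cases h : gq η y z = 0
    · rw [h]; exact Set.indicator_nonneg (fun _ _ => by norm_num) _
    · have h2 : z ∈ Orth (fun j => y j + η) := fun j => by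
        have := gq_pos hη h j
        simp only
        linarith
      rw [Set.indicator_of_mem h2]; exact gq_le _ _ _

/-- the one-dimensional marginals -/
lemma marg {m : ℕ} (j : Fin m) : (glaw m : Measure (EE m)).map (fun z => z j) = gaussianReal 0 1 := by
  have hc : Continuous fun z : EE m => z j := by fun_prop
  have : IsProbabilityMeasure ((glaw m : Measure (EE m)).map (fun z => z j)) :=
    Measure.isProbabilityMeasure_map hc.aemeasurable
  apply Measure.ext_of_charFun
  funext t
  rw [charFun_gaussianReal, charFun_apply_real, integral_map hc.aemeasurable (by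
    apply Continuous.aestronglyMeasurable; fun_prop)]
  have h1 := glaw_char (m := m) (EuclideanSpace.single j t)
  rw [charFun_apply] at h1
  have h2 : ∫ x : EE m, cexp (t * (x j : ℝ) * I) ∂(glaw m : Measure (EE m)) =
      ∫ x : EE m, cexp ((⟪x, (EuclideanSpace.single j t : EE m)⟫ : ℝ) * I)
        ∂(glaw m : Measure (EE m)) := by
    refine integral_congr_ae (Eventually.of_forall fun x => ?_)
    show cexp (t * (x j : ℝ) * I) = cexp ((⟪x, (EuclideanSpace.single j t : EE m)⟫ : ℝ) * I)
    rw [inner_eq]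
    congr 2
    have : ∑ i, x i * (EuclideanSpace.single j t : EE m) i = x j * t := by
      rw [Finset.sum_eq_single j]
      · simp
      · intro i _ hi
        simp [hi]
      · intro h; exact absurd (Finset.mem_univ j) h
    rw [this]
    push_cast
    ring
  rw [h2, h1]
  congr 1
  have h3 : sgm (EuclideanSpace.single j t : EE m) = t ^ 2 := by
    unfold sgm
    have a1 : ∑ i, (EuclideanSpace.single j t : EE m) i ^ 2 = t ^ 2 := by
      rw [Finset.sum_eq_single j]
      · simp
      · intro i _ hi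
        simp [hi]
      · intro h; exact absurd (Finset.mem_univ j) h
    have a2 : ∑ i, (EuclideanSpace.single j t : EE m) i = t := by
      rw [Finset.sum_eq_single j]
      · simp
      · intro i _ hi
        simp [hi]
      · intro h; exact absurd (Finset.mem_univ j) h
    rw [a1, a2]; ring
  rw [h3]
  push_cast
  simp
  ring

/-- the normal density is at most one -/
lemma gauss_Icc (a b : ℝ) : (gaussianReal 0 1) (Set.Icc a b) ≤ ENNReal.ofReal (b - a) := by
  rw [gaussianReal_apply 0 (by norm_num : (1 : NNReal) ≠ 0)]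
  have h1 : ∀ x, gaussianPDF 0 1 x ≤ 1 := by
    intro x
    unfold gaussianPDF gaussianPDFReal
    rw [← ENNReal.ofReal_one]
    apply ENNReal.ofReal_le_ofReal
    have h2 : Real.exp (-(x - 0) ^ 2 / (2 * ((1 : NNReal) : ℝ))) ≤ 1 := by
      apply Real.exp_le_one_iff.2
      have : 0 ≤ (x - 0) ^ 2 := sq_nonneg _
      simp only [NNReal.coe_one, mul_one]
      linarith
    have h3 : (Real.sqrt (2 * Real.pi * ((1 : NNReal) : ℝ)))⁻¹ ≤ 1 := by
      apply inv_le_one_of_one_le₀
      rw [Real.one_le_sqrt]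
      have := Real.pi_gt_three
      simp only [NNReal.coe_one, mul_one]
      linarith
    have h4 := (Real.exp_pos (-(x - 0) ^ 2 / (2 * ((1 : NNReal) : ℝ)))).le
    have h5 : 0 ≤ (Real.sqrt (2 * Real.pi * ((1 : NNReal) : ℝ)))⁻¹ := by positivity
    exact mul_le_one₀ h3 h4 h2
  calc ∫⁻ x in Set.Icc a b, gaussianPDF 0 1 x ≤ ∫⁻ _ in Set.Icc a b, 1 :=
        lintegral_mono fun x => h1 x
    _ = ENNReal.ofReal (b - a) := by rw [setLIntegral_one, Real.volume_Icc]

/-- continuity of the distribution function -/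
lemma FF_shift {m : ℕ} (y : Fin m → ℝ) {c : ℝ} (hc : 0 ≤ c) :
    FF (fun j => y j + c) ≤ FF y + m * c := by
  unfold FF
  have hsub : Orth (fun j => y j + c) ⊆ Orth y ∪ ⋃ j ∈ (Finset.univ : Finset (Fin m)),
      {z : EE m | z j ∈ Set.Icc (-y j - c) (-y j)} := by
    intro z hz
    by_cases h : z ∈ Orth y
    · exact Or.inl h
    · right
      simp only [Orth, Set.mem_ofPred_eq, not_forall, not_le] at h
      obtain ⟨j, hj⟩ := h
      simp only [Set.mem_iUnion]
      refine ⟨j, Finset.mem_univ j, ?_, hj.le⟩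
      have := hz j
      simp only at this
      linarith
  have hone : ∀ j : Fin m, (glaw m : Measure (EE m)).real
      {z : EE m | z j ∈ Set.Icc (-y j - c) (-y j)} ≤ c := by
    intro j
    have h1 : (glaw m : Measure (EE m)) {z : EE m | z j ∈ Set.Icc (-y j - c) (-y j)} =
        (gaussianReal 0 1) (Set.Icc (-y j - c) (-y j)) := by
      rw [← marg j, Measure.map_apply (by fun_prop) measurableSet_Icc]
      rfl
    rw [Measure.real, h1]
    have h2 := gauss_Icc (-y j - c) (-y j)
    have h3 : -y j - (-y j - c) = c := by ring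
    rw [h3] at h2
    exact ENNReal.toReal_le_of_le_ofReal hc h2
  calc (glaw m : Measure (EE m)).real (Orth (fun j => y j + c)) ≤
      (glaw m : Measure (EE m)).real (Orth y ∪ ⋃ j ∈ (Finset.univ : Finset (Fin m)),
      {z : EE m | z j ∈ Set.Icc (-y j - c) (-y j)}) := measureReal_mono hsub
    _ ≤ (glaw m : Measure (EE m)).real (Orth y) + (glaw m : Measure (EE m)).real
      (⋃ j ∈ (Finset.univ : Finset (Fin m)), {z : EE m | z j ∈ Set.Icc (-y j - c) (-y j)}) :=
        measureReal_union_le _ _
    _ ≤ (glaw m : Measure (EE m)).real (Orth y) + ∑ j : Fin m, (glaw m : Measure (EE m)).real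
      {z : EE m | z j ∈ Set.Icc (-y j - c) (-y j)} := by
        gcongr
        exact measureReal_biUnion_finset_le _ _
    _ ≤ (glaw m : Measure (EE m)).real (Orth y) + ∑ _j : Fin m, c := by
        gcongr with j _
        exact hone j
    _ = _ := by rw [Finset.sum_const, Finset.card_univ, Fintype.card_fin, nsmul_eq_mul]

/-- symmetry of the limit law -/
lemma glaw_neg (m : ℕ) : (glaw m : Measure (EE m)).map (fun z => -z) = (glaw m : Measure (EE m)) := by
  have hc : Continuous fun z : EE m => -z := continuous_neg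
  have : IsProbabilityMeasure ((glaw m : Measure (EE m)).map (fun z => -z)) :=
    Measure.isProbabilityMeasure_map hc.aemeasurable
  apply Measure.ext_of_charFun
  funext u
  rw [charFun_apply, integral_map hc.aemeasurable (by
    apply Continuous.aestronglyMeasurable; fun_prop), glaw_char]
  have h1 := glaw_char (m := m) (-u)
  rw [charFun_apply] at h1
  have h2 : sgm (-u) = sgm u := by
    unfold sgm
    simp
  rw [h2] at h1
  rw [← h1]
  refine integral_congr_ae (Eventually.of_forall fun x => ?_)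
  show cexp ((⟪-x, u⟫ : ℝ) * I) = cexp ((⟪x, -u⟫ : ℝ) * I)
  rw [inner_neg_left, inner_neg_right]

/-- the distribution function in terms of independent normal variables -/
theorem FF_eq {m : ℕ} (y : Fin m → ℝ) : FF y =
    (Measure.pi fun _ : Fin (m + 1) => gaussianReal 0 1).real
      {z | ∀ j : Fin m, z j.succ - z 0 ≤ Real.sqrt 2 * y j} := by
  unfold FF Measure.real
  congr 1
  rw [← glaw_neg, Measure.map_apply (by fun_prop) (Orth_meas y)]
  show ((gpi m).map (gdf m)) _ = _
  have hmeas : MeasurableSet ((fun z : EE m => -z) ⁻¹' Orth y) :=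
    (by fun_prop : Measurable fun z : EE m => -z) (Orth_meas y)
  rw [Measure.map_apply (gdf_cont m).measurable hmeas]
  show (gpi m) _ = (gpi m) _
  congr 1
  ext z
  simp only [Set.mem_preimage, Orth, Set.mem_ofPred_eq]
  refine forall_congr' fun j => ?_
  show -y j ≤ -((z j.succ - z 0) / Real.sqrt 2) ↔ _
  have h2 : 0 < Real.sqrt 2 := by positivity
  rw [neg_le_neg_iff, div_le_iff₀ h2, mul_comm]

end Pool.Agent.H478.CW
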