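import Pool.Agent.H478.CW16

/-! The central limit theorem for sums of consecutive gaps in almost all windows. -/

open Finset Complex MeasureTheory Filter Topology ProbabilityTheory
open scoped RealInnerProductSpace BoundedContinuousFunction

namespace Pool.Agent.H478.CW

open Pool.Agent.R321.FA
open SP (ZZ mu RHs)
open SG (ord NZ zmult ZS)
open Pool.Agent.TH800.LD (ZZf)
open TH800.MS (dlt)

/-! ### the sequences of window lengths -/

lemma log_ratio {w : ℕ → ℝ} {a : ℝ} (ha : a ≠ 0)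
    (h : Tendsto (fun r : ℕ => w r / r) atTop (𝓝 a)) :
    Tendsto (fun r => |w r|) atTop atTop ∧
    Tendsto (fun r : ℕ => Real.log |w r| / Real.log r) atTop (𝓝 1) := by
  have hr : Tendsto (fun r : ℕ => (r : ℝ)) atTop atTop := tendsto_natCast_atTop_atTop
  have h1 : Tendsto (fun r : ℕ => |w r| / r) atTop (𝓝 |a|) := by
    refine h.abs.congr fun r => ?_
    rw [abs_div, Nat.abs_cast]
  have ha' : 0 < |a| := abs_pos.2 ha
  have h2 : Tendsto (fun r : ℕ => |w r| / r * r) atTop atTop := h1.pos_mul_atTop ha' hr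
  have h3 : ∀ᶠ r : ℕ in atTop, |w r| / r * r = |w r| := by
    filter_upwards [eventually_gt_atTop 0] with r hr0
    have : (r : ℝ) ≠ 0 := by positivity
    field_simp
  refine ⟨h2.congr' h3, ?_⟩
  have h4 : Tendsto (fun r : ℕ => Real.log (|w r| / r)) atTop (𝓝 (Real.log |a|)) :=
    (Real.continuousAt_log ha'.ne').tendsto.comp h1
  have h5 : Tendsto (fun r : ℕ => Real.log (|w r| / r) / Real.log r) atTop (𝓝 0) :=
    h4.div_atTop log_nat_atTop
  have h6 := h5.add (tendsto_const_nhds (x := (1 : ℝ)))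
  rw [zero_add] at h6
  refine h6.congr' ?_
  filter_upwards [eventually_gt_atTop 1, (h2.congr' h3).eventually_gt_atTop 0] with r hr0 hw
  have hr1 : (1 : ℝ) < r := by exact_mod_cast hr0
  have hlog : 0 < Real.log r := Real.log_pos hr1
  rw [Real.log_div hw.ne' (by positivity)]
  field_simp
  ring

/-- the window lengths -/
noncomputable def xw {m : ℕ} (y : Fin m → ℝ) (c : ℝ) (r : ℕ) (j : Fin m) : ℝ :=
  ((j : ℕ) + 1 : ℝ) * r + y j * (Real.sqrt (Real.log r) / Real.pi) - c

lemma sqrt_log_ratio : Tendsto (fun r : ℕ => Real.sqrt (Real.log r) / r) atTop (𝓝 0) := by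
  have h1 : Tendsto (fun r : ℕ => Real.log r / r) atTop (𝓝 0) := by
    have h := Real.isLittleO_log_id_atTop.tendsto_div_nhds_zero
    exact h.comp tendsto_natCast_atTop_atTop
  refine squeeze_zero' (Eventually.of_forall fun r => by positivity) ?_ h1
  filter_upwards [log_nat_atTop.eventually_ge_atTop 1] with r hr
  have : Real.sqrt (Real.log r) ≤ Real.log r := by
    rw [Real.sqrt_le_left (by linarith)]
    nlinarith
  gcongr

lemma xw_ratio {a b c : ℝ} : Tendsto (fun r : ℕ => (a * r + b * (Real.sqrt (Real.log r) / Real.pi) -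
    c) / r) atTop (𝓝 a) := by
  have hr : Tendsto (fun r : ℕ => (r : ℝ)) atTop atTop := tendsto_natCast_atTop_atTop
  have h1 : Tendsto (fun r : ℕ => a + b / Real.pi * (Real.sqrt (Real.log r) / r) - c / r) atTop
      (𝓝 (a + b / Real.pi * 0 - 0)) :=
    (tendsto_const_nhds.add (sqrt_log_ratio.const_mul _)).sub (hr.const_div_atTop c)
  rw [mul_zero, add_zero, sub_zero] at h1
  refine h1.congr' ?_
  filter_upwards [eventually_gt_atTop 0] with r hr0
  have : (r : ℝ) ≠ 0 := by positivity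
  have := Real.pi_pos
  field_simp

lemma xw_GS {m : ℕ} (y : Fin m → ℝ) (c : ℝ) : GS (xw y c) := by
  have h1 : ∀ j : Fin m, Tendsto (fun r : ℕ => xw y c r j / r) atTop (𝓝 ((j : ℕ) + 1 : ℝ)) :=
    fun j => xw_ratio
  have h2 : ∀ i j : Fin m, Tendsto (fun r : ℕ => (xw y c r i - xw y c r j) / r) atTop
      (𝓝 (((i : ℕ) : ℝ) - ((j : ℕ) : ℝ))) := by
    intro i j
    have h := (xw_ratio (a := ((i : ℕ) : ℝ) - ((j : ℕ) : ℝ)) (b := y i - y j) (c := 0))
    refine h.congr fun r => ?_
    unfold xw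
    ring
  have hinf : ∀ j, Tendsto (fun r => xw y c r j) atTop atTop := by
    intro j
    have h3 : Tendsto (fun r : ℕ => xw y c r j / r * r) atTop atTop :=
      (h1 j).pos_mul_atTop (by positivity) tendsto_natCast_atTop_atTop
    refine h3.congr' ?_
    filter_upwards [eventually_gt_atTop 0] with r hr0
    have : (r : ℝ) ≠ 0 := by positivity
    field_simp
  refine ⟨hinf, fun j => ?_, fun i j hij => ?_, fun i j hij => ?_⟩
  · have h3 := (log_ratio (by positivity : ((j : ℕ) + 1 : ℝ) ≠ 0) (h1 j)).2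
    refine h3.congr' ?_
    filter_upwards [(hinf j).eventually_gt_atTop 0] with r hr
    rw [abs_of_pos hr]
  · refine (log_ratio ?_ (h2 i j)).1
    rw [sub_ne_zero]
    exact fun h => hij (Fin.ext (by exact_mod_cast h))
  · refine (log_ratio ?_ (h2 i j)).2
    rw [sub_ne_zero]
    exact fun h => hij (Fin.ext (by exact_mod_cast h))

/-! ### the events -/

/-- the event for the index `n` -/
def Ev {m : ℕ} (y : Fin m → ℝ) (r n : ℕ) : Prop := ∀ j : Fin m,
  ∑ i ∈ Finset.range (((j : ℕ) + 1) * r), dlt (n + i) ≤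
    ((j : ℕ) + 1 : ℝ) * r + y j * (Real.sqrt (Real.log r) / Real.pi)

lemma rho_inv {r : ℕ} (hr : 0 < Real.log r) : rho r * (Real.sqrt (Real.log r) / Real.pi) = 1 := by
  unfold rho
  have := Real.pi_pos
  have : 0 < Real.sqrt (Real.log r) := Real.sqrt_pos.2 hr
  field_simp

/-- **sandwich** -/
theorem sandwich (RH : RiemannHypothesis) {m : ℕ} (y : Fin m → ℝ) {r : ℕ} (hr : 0 < Real.log r)
    {η : ℝ} (hη : 0 < η) (hρ : rho r ≤ η) (hx1 : ∀ j, 0 < xw y 1 r j) :
    ∀ᶠ T : ℝ in atTop, ∀ n ∈ Ib T, ord n ≤ 2 * T - 1 → ∀ ind : ℝ,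
    ((Ev y r n → ind = 1) ∧ (¬ Ev y r n → ind = 0)) →
    gq η (fun j => y j - 2 * η) (Yz 0 (xw y 1 r) (rho r) T (zo (ord n))) ≤ ind ∧
    ind ≤ gq η y (Yz 1 (xw y 0 r) (rho r) T (zo (ord n))) := by
  have hpi := Real.pi_pos
  have hρ0 : 0 < rho r := div_pos hpi (Real.sqrt_pos.2 hr)
  have e1 : ∀ᶠ T : ℝ in atTop, ∀ j : Fin m, 7 * (xw y 0 r j + 1) ≤ Real.log T :=
    eventually_all.2 fun j => Real.tendsto_log_atTop.eventually_ge_atTop _
  filter_upwards [e1, eventually_ge_atTop 10] with T hT1 hT10 n hn hn2 ind hind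
  have hTo : 1 ≤ T := by linarith
  have hL1 := log_one_le hT10
  set L := Real.log T with hL
  have hL0 : 0 < L := by linarith
  have hx01 : ∀ j, xw y 0 r j = xw y 1 r j + 1 := fun j => by unfold xw; ring
  have hx0 : ∀ j, 0 < xw y 0 r j := fun j => by rw [hx01]; linarith [hx1 j]
  have hs0 : ∀ j, 2 * Real.pi * xw y 0 r j / L ≤ 1 := by
    intro j
    rw [div_le_one hL0]
    have := hT1 j
    have := hx0 j
    have hpi4 : Real.pi < 3.15 := Real.pi_lt_d2
    nlinarith
  have hs1 : ∀ j, 2 * Real.pi * xw y 1 r j / L ≤ 1 := by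
    intro j
    refine le_trans ?_ (hs0 j)
    have := hx01 j
    apply div_le_div_of_nonneg_right _ hL0.le
    nlinarith
  have hn0 : ∀ j, 0 ≤ 2 * Real.pi * xw y 0 r j / L := fun j => by
    have := hx0 j
    positivity
  have hn1 : ∀ j, 0 ≤ 2 * Real.pi * xw y 1 r j / L := fun j => by
    have := hx1 j
    positivity
  have hinv := rho_inv hr
  have hk : ∀ j : Fin m, (((((j : ℕ) + 1) * r : ℕ)) : ℝ) = ((j : ℕ) + 1 : ℝ) * r := fun j => by
    push_cast; ring
  by_cases hE : Ev y r n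
  · rw [hind.1 hE]
    refine ⟨gq_le _ _ _, le_of_eq (gq_one hη fun j => ?_).symm⟩
    have h1 := ord_of_S hT10 hn (hE j)
    have hxw : xw y 0 r j = ((j : ℕ) + 1 : ℝ) * r + y j * (Real.sqrt (Real.log r) / Real.pi) := by
      unfold xw; ring
    rw [← hxw] at h1
    have h2 := nc_of_ord RH hTo hn (by rw [← hL]; linarith [hs0 j]) (by rw [← hL]; exact hn0 j) h1
    rw [hk j] at h2
    show -y j ≤ rho r * (nc T (zo (ord n)).im (xw y 0 r j) + 1 * mu (zo (ord n)) - xw y 0 r j)
    rw [zo_im, one_mul]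
    have h3 : -y j = rho r * (((j : ℕ) + 1 : ℝ) * r - xw y 0 r j) := by
      rw [hxw]
      have : rho r * (((j : ℕ) + 1 : ℝ) * r - (((j : ℕ) + 1 : ℝ) * r +
        y j * (Real.sqrt (Real.log r) / Real.pi))) =
        -(y j * (rho r * (Real.sqrt (Real.log r) / Real.pi))) := by ring
      rw [this, hinv, mul_one]
    rw [h3]
    apply mul_le_mul_of_nonneg_left _ hρ0.le
    linarith
  · rw [hind.2 hE]
    refine ⟨le_of_eq ?_, gq_nonneg _ _ _⟩
    by_contra hne
    apply hE
    intro j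
    have h1 := gq_pos hη hne j
    have h2 : -(y j - 2 * η) - η < rho r * (nc T (zo (ord n)).im (xw y 1 r j) +
      0 * mu (zo (ord n)) - xw y 1 r j) := h1
    rw [zo_im, zero_mul, add_zero] at h2
    have h3 : (((((j : ℕ) + 1) * r : ℕ)) : ℝ) ≤ nc T (ord n) (xw y 1 r j) := by
      rw [hk j]
      by_contra hc
      push Not at hc
      have h4 : rho r * (nc T (ord n) (xw y 1 r j) - xw y 1 r j) ≤
          rho r * (((j : ℕ) + 1 : ℝ) * r - xw y 1 r j) := by
        apply mul_le_mul_of_nonneg_left _ hρ0.le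
        linarith
      have h5 : rho r * (((j : ℕ) + 1 : ℝ) * r - xw y 1 r j) = -y j + rho r := by
        unfold xw
        have : rho r * (((j : ℕ) + 1 : ℝ) * r - (((j : ℕ) + 1 : ℝ) * r +
          y j * (Real.sqrt (Real.log r) / Real.pi) - 1)) =
          -(y j * (rho r * (Real.sqrt (Real.log r) / Real.pi))) + rho r := by ring
        rw [this, hinv, mul_one]
      linarith
    have h6 := ord_of_nc RH hTo hn (by rw [← hL]; linarith [hs1 j]) (by rw [← hL]; exact hn1 j) h3
    have h7 := S_of_ord hT10 hn (hx1 j).le (by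
      rw [← hL]
      have := hT1 j
      have := hx01 j
      have := hx1 j
      linarith) (by rw [← hL]; linarith [hs1 j]) h6
    rw [← hx01 j] at h7
    unfold xw at h7
    linarith

end Pool.Agent.H478.CW
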