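import Pool.Agent.H478.CW17
import Pool.Graph.R_seed8.W249.TCF.Idx

/-! The central limit theorem for sums of consecutive gaps: windows and blocks. -/

open Finset Complex MeasureTheory Filter Topology ProbabilityTheory
open scoped RealInnerProductSpace BoundedContinuousFunction

namespace Pool.Agent.H478.CW

open Pool.Agent.R321.FA
open SP (ZZ mu RHs)
open SG (ord NZ zmult ZS)
open Pool.Agent.TH800.LD (ZZf)
open TH800.MS (dlt)

lemma rhs_of (RH : RiemannHypothesis) : RHs := by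
  intro s h0 h1 hz
  apply RH s hz
  · rintro ⟨n, hn⟩
    rw [hn] at h0
    have : (-2 * ((n : ℂ) + 1)).re = -2 * ((n : ℝ) + 1) := by simp
    rw [this] at h0
    have : (0 : ℝ) ≤ n := Nat.cast_nonneg n
    linarith
  · rintro rfl
    simp at h1

open Classical in
/-- indicator of a property of the index -/
noncomputable def idc (Q : ℕ → Prop) (n : ℕ) : ℝ := if Q n then 1 else 0

/-- window counts -/
lemma win_count {T : ℝ} (t w : ℝ) (h1 : T ≤ t) (h2 : t + w ≤ 2 * T) (Q : ℕ → Prop) :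
    (({n : ℕ | 1 ≤ n ∧ t < ord n ∧ ord n ≤ t + w ∧ Q n}.ncard : ℕ) : ℝ) =
      ∑ n ∈ Ib T, JI t w (ord n) * idc Q n := by
  classical
  have e : {n : ℕ | 1 ≤ n ∧ t < ord n ∧ ord n ≤ t + w ∧ Q n} =
      (((Ib T).filter (fun n => (t < ord n ∧ ord n ≤ t + w) ∧ Q n) : Finset ℕ) : Set ℕ) := by
    ext n
    rw [Finset.coe_filter]
    simp only [Set.mem_ofPred_eq, mem_Ib]
    constructor
    · rintro ⟨a, b, c, d⟩
      exact ⟨⟨a, by linarith, by linarith⟩, ⟨b, c⟩, d⟩
    · rintro ⟨⟨a, _, _⟩, ⟨b, c⟩, d⟩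
      exact ⟨a, b, c, d⟩
  rw [e, Set.ncard_coe_finset, Finset.card_filter]
  push_cast
  refine Finset.sum_congr rfl fun n _ => ?_
  unfold JI idc
  by_cases p1 : t < ord n ∧ ord n ≤ t + w
  · by_cases p2 : Q n
    · rw [if_pos p1, if_pos p2, if_pos ⟨p1, p2⟩]; norm_num
    · rw [if_pos p1, if_neg p2, if_neg (fun h => p2 h.2)]; norm_num
  · rw [if_neg p1, if_neg (fun h => p1 h.1)]; norm_num

/-- **the central limit theorem in almost all windows** -/
theorem win_law (RH : RiemannHypothesis) {m : ℕ} (y : Fin m → ℝ) {ε : ℝ} (hε : 0 < ε) :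
    ∀ᶠ r : ℕ in atTop, ∀ᶠ Λ : ℝ in atTop, ∀ᶠ T : ℝ in atTop,
    volume {t : ℝ | T ≤ t ∧ t ≤ 2 * T ∧ ε * Λ <
      |(({n : ℕ | 1 ≤ n ∧ t < ord n ∧ ord n ≤ t + 2 * Real.pi * Λ / Real.log T ∧
        Ev y r n}.ncard : ℕ) : ℝ) - FF y * Λ|} ≤ ENNReal.ofReal (ε * T) := by
  have hRH := rhs_of RH
  have hpi := Real.pi_pos
  set η : ℝ := ε / (8 * ((m : ℝ) + 1)) with hη
  have hη0 : 0 < η := by positivity
  have hmη : 2 * (m * η) ≤ ε / 4 := by
    rw [hη]
    have h1 : 2 * ((m : ℝ) * (ε / (8 * ((m : ℝ) + 1)))) = ε / 4 * (m / ((m : ℝ) + 1)) := by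
      field_simp; ring
    rw [h1]
    have h2 : (m : ℝ) / ((m : ℝ) + 1) ≤ 1 := by
      rw [div_le_one (by positivity)]; linarith
    nlinarith
  have hup := zero_law hRH (xw_GS y 0) (gqb η y) (fun z => gq_abs _ _ _)
    (by positivity : 0 ≤ 1 / η) (gq_lip hη0 y) (κ := 1) (by norm_num) le_rfl
    (ε := ε ^ 2 / 16) (by positivity)
  have hlo := zero_law hRH (xw_GS y 1) (gqb η (fun j => y j - 2 * η)) (fun z => gq_abs _ _ _)
    (by positivity : 0 ≤ 1 / η) (gq_lip hη0 _) (κ := 0) le_rfl (by norm_num)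
    (ε := ε ^ 2 / 16) (by positivity)
  have hrho : Tendsto rho atTop (𝓝 0) := by
    unfold rho
    exact (Real.tendsto_sqrt_atTop.comp log_nat_atTop).const_div_atTop _
  have hx1 : ∀ᶠ r : ℕ in atTop, ∀ j, 0 < xw y 1 r j :=
    eventually_all.2 fun j => ((xw_GS y 1).inf j).eventually_gt_atTop 0
  filter_upwards [hup, hlo, hx1, log_nat_atTop.eventually_gt_atTop 0,
    hrho.eventually (ge_mem_nhds hη0)] with r u1 l1 hxr hr hρη
  have hsand := sandwich RH y hr hη0 hρη hxr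
  filter_upwards [u1, l1, eventually_gt_atTop 0] with Λ u2 l2 hΛ0
  have hedge : ∀ᶠ T : ℝ in atTop, 16 * Real.log T ≤ ε / 2 * T := by
    have h := Real.isLittleO_log_id_atTop.def (by positivity : (0 : ℝ) < ε / 32)
    filter_upwards [h, eventually_ge_atTop 1] with T h1 h2
    rw [Real.norm_eq_abs, Real.norm_eq_abs, id, abs_of_nonneg (by linarith : (0 : ℝ) ≤ T),
      abs_of_nonneg (Real.log_nonneg h2)] at h1
    linarith
  filter_upwards [u2, l2, hsand, V_ev, hedge, eventually_ge_atTop 10,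
    Real.tendsto_log_atTop.eventually_ge_atTop (2 * Real.pi * Λ)] with T u3 l3 hs hV hed hT10 hΛL
  obtain ⟨E1, E1c, E10, E1i, E1b⟩ := u3
  obtain ⟨E2, E2c, E20, E2i, E2b⟩ := l3
  have hTo : 1 ≤ T := by linarith
  have hTp : 0 < T := by linarith
  have hL1 := log_one_le hT10
  set L := Real.log T with hL
  have hL0 : 0 < L := by linarith
  set V1 := T + 8 * L with hV1
  set V2 := 2 * T - 8 * L with hV2
  set w := 2 * Real.pi * Λ / L with hw
  have hw0 : 0 < w := by positivity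
  have hw1 : w ≤ 1 := by rw [hw, div_le_one hL0]; exact hΛL
  have hpt : ∀ t, V1 ≤ t → t ≤ V2 →
      |(({n : ℕ | 1 ≤ n ∧ t < ord n ∧ ord n ≤ t + w ∧ Ev y r n}.ncard : ℕ) : ℝ) - FF y * Λ| ≤
        Λ * (ε / 4 + (E1 t + E2 t)) := by
    intro t ht1 ht2
    rw [win_count (T := T) t w (by linarith) (by linarith) (Ev y r)]
    have hsn : ∀ n ∈ Ib T, JI t w (ord n) ≠ 0 →
        gq η (fun j => y j - 2 * η) (Yz 0 (xw y 1 r) (rho r) T (zo (ord n))) ≤ idc (Ev y r) n ∧
        idc (Ev y r) n ≤ gq η y (Yz 1 (xw y 0 r) (rho r) T (zo (ord n))) := by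
      intro n hn hJ
      apply hs n hn
      · have h1 : t < ord n ∧ ord n ≤ t + w := by
          by_contra hh
          apply hJ
          unfold JI
          rw [if_neg hh]
        linarith [h1.2]
      · unfold idc
        exact ⟨fun h => by rw [if_pos h], fun h => by rw [if_neg h]⟩
    have hA := AW_idx RH hTo Λ (fun s => gq η y (Yz 1 (xw y 0 r) (rho r) T s)) t
    have hB := AW_idx RH hTo Λ
      (fun s => gq η (fun j => y j - 2 * η) (Yz 0 (xw y 1 r) (rho r) T s)) t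
    rw [← hL, ← hw] at hA hB
    have hup1 : ∑ n ∈ Ib T, JI t w (ord n) * idc (Ev y r) n ≤
        AW T Λ (fun s => gq η y (Yz 1 (xw y 0 r) (rho r) T s)) t := by
      rw [hA]
      refine Finset.sum_le_sum fun n hn => ?_
      by_cases hJ : JI t w (ord n) = 0
      · rw [hJ]; simp
      · exact mul_le_mul_of_nonneg_left (hsn n hn hJ).2 (JI_nonneg _ _ _)
    have hlo1 : AW T Λ (fun s => gq η (fun j => y j - 2 * η) (Yz 0 (xw y 1 r) (rho r) T s)) t ≤
        ∑ n ∈ Ib T, JI t w (ord n) * idc (Ev y r) n := by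
      rw [hB]
      refine Finset.sum_le_sum fun n hn => ?_
      by_cases hJ : JI t w (ord n) = 0
      · rw [hJ]; simp
      · exact mul_le_mul_of_nonneg_left (hsn n hn hJ).1 (JI_nonneg _ _ _)
    have b1 := (abs_le.1 (E1b t)).2
    have b2 := (abs_le.1 (E2b t)).1
    have c1 : ∫ z, gqb η y z ∂(glaw m : Measure (EE m)) ≤ FF y + m * η :=
      (gq_int_upper hη0 y).trans (FF_shift y hη0.le)
    have c2 : FF y - m * (2 * η) ≤
        ∫ z, gqb η (fun j => y j - 2 * η) z ∂(glaw m : Measure (EE m)) := by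
      have h1 := gq_int_lower hη0 (fun j => y j - 2 * η)
      have h2 := FF_shift (fun j => y j - 2 * η) (c := 2 * η) (by positivity)
      have h3 : (fun j => (fun j => y j - 2 * η) j + 2 * η) = y := by
        funext j; simp only; ring
      rw [h3] at h2
      have h4 : ∫ z, gqb η (fun j => y j - 2 * η) z ∂(glaw m : Measure (EE m)) =
        ∫ z, gq η (fun j => y j - 2 * η) z ∂(glaw m : Measure (EE m)) := rfl
      rw [h4]
      linarith
    have hmm : 0 ≤ (m : ℝ) * η := by positivity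
    set A1 := AW T Λ (fun s => gq η y (Yz 1 (xw y 0 r) (rho r) T s)) t with hA1
    set A2 := AW T Λ (fun s => gq η (fun j => y j - 2 * η) (Yz 0 (xw y 1 r) (rho r) T s)) t with hA2
    have b1' : 1 / Λ * A1 - ∫ z, gqb η y z ∂(glaw m : Measure (EE m)) ≤ E1 t := b1
    have b2' : -(E2 t) ≤ 1 / Λ * A2 -
        ∫ z, gqb η (fun j => y j - 2 * η) z ∂(glaw m : Measure (EE m)) := b2
    have d1 : A1 ≤ Λ * (FF y + m * η + E1 t) := by
      have : 1 / Λ * A1 ≤ FF y + m * η + E1 t := by linarith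
      calc A1 = Λ * (1 / Λ * A1) := by field_simp
        _ ≤ _ := by gcongr
    have d2 : Λ * (FF y - m * (2 * η) - E2 t) ≤ A2 := by
      have : FF y - m * (2 * η) - E2 t ≤ 1 / Λ * A2 := by linarith
      calc Λ * (FF y - m * (2 * η) - E2 t) ≤ Λ * (1 / Λ * A2) := by gcongr
        _ = A2 := by field_simp
    have p1 := E10 t
    have p2 := E20 t
    rw [abs_le]
    constructor
    · have : Λ * (FF y - m * (2 * η) - E2 t) ≥ FF y * Λ - Λ * (ε / 4 + (E1 t + E2 t)) := by
        have h5 : Λ * (m * (2 * η) + E2 t) ≤ Λ * (ε / 4 + (E1 t + E2 t)) := by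
          apply mul_le_mul_of_nonneg_left _ hΛ0.le
          linarith
        linarith
      linarith
    · have : Λ * (FF y + m * η + E1 t) ≤ FF y * Λ + Λ * (ε / 4 + (E1 t + E2 t)) := by
        have h5 : Λ * (m * η + E1 t) ≤ Λ * (ε / 4 + (E1 t + E2 t)) := by
          apply mul_le_mul_of_nonneg_left _ hΛ0.le
          linarith
        linarith
      linarith
  have hEc : Continuous fun t => E1 t + E2 t := E1c.add E2c
  have hcheb := cheb hEc (fun t => add_nonneg (E10 t) (E20 t)) hV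
    (by positivity : (0 : ℝ) < 3 * ε / 4) (Q := ε ^ 2 / 8 * T) (by
      rw [intervalIntegral.integral_add (E1c.intervalIntegrable _ _) (E2c.intervalIntegrable _ _)]
      linarith)
  have hsub : {t : ℝ | T ≤ t ∧ t ≤ 2 * T ∧ ε * Λ <
      |(({n : ℕ | 1 ≤ n ∧ t < ord n ∧ ord n ≤ t + w ∧ Ev y r n}.ncard : ℕ) : ℝ) - FF y * Λ|} ⊆
      (Set.Icc T V1 ∪ Set.Icc V2 (2 * T)) ∪ {t | V1 ≤ t ∧ t ≤ V2 ∧ 3 * ε / 4 < E1 t + E2 t} := by
    rintro t ⟨h1, h2, h3⟩
    by_cases a1 : t ≤ V1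
    · exact Or.inl (Or.inl ⟨h1, a1⟩)
    · by_cases a2 : V2 ≤ t
      · exact Or.inl (Or.inr ⟨a2, h2⟩)
      · right
        push Not at a1 a2
        refine ⟨a1.le, a2.le, ?_⟩
        have h4 := hpt t a1.le a2.le
        have h5 : ε * Λ < Λ * (ε / 4 + (E1 t + E2 t)) := lt_of_lt_of_le h3 h4
        have h6 : ε < ε / 4 + (E1 t + E2 t) := by
          rw [mul_comm] at h5
          exact lt_of_mul_lt_mul_left h5 hΛ0.le
        linarith
  calc volume _ ≤ volume ((Set.Icc T V1 ∪ Set.Icc V2 (2 * T)) ∪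
        {t | V1 ≤ t ∧ t ≤ V2 ∧ 3 * ε / 4 < E1 t + E2 t}) := measure_mono hsub
    _ ≤ (volume (Set.Icc T V1) + volume (Set.Icc V2 (2 * T))) +
        volume {t | V1 ≤ t ∧ t ≤ V2 ∧ 3 * ε / 4 < E1 t + E2 t} :=
        (measure_union_le _ _).trans (by gcongr; exact measure_union_le _ _)
    _ ≤ (ENNReal.ofReal (8 * L) + ENNReal.ofReal (8 * L)) +
        ENNReal.ofReal (ε ^ 2 / 8 * T / (3 * ε / 4)) := by
        rw [Real.volume_Icc, Real.volume_Icc]
        gcongr
        · rw [hV1]; linarith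
        · rw [hV2]; linarith
    _ = ENNReal.ofReal (16 * L + ε / 6 * T) := by
        rw [← ENNReal.ofReal_add (by positivity) (by positivity),
          ← ENNReal.ofReal_add (by positivity) (by positivity)]
        congr 1
        field_simp
        ring
    _ ≤ ENNReal.ofReal (ε * T) := by
        apply ENNReal.ofReal_le_ofReal
        nlinarith [mul_pos hε hTp]

end Pool.Agent.H478.CW
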