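import Pool.Agent.H478.CW18

/-! The central limit theorem for sums of consecutive gaps: all indices. -/

open Finset Complex MeasureTheory Filter Topology ProbabilityTheory
open scoped RealInnerProductSpace BoundedContinuousFunction

namespace Pool.Agent.H478.CW

open Pool.Agent.R321.FA
open SP (ZZ mu RHs)
open SG (ord NZ zmult ZS)
open Pool.Agent.TH800.LD (ZZf)
open TH800.MS (dlt)

/-! ### integrating the window counts -/

lemma JI_set' (w γ : ℝ) : (fun t => JI t w γ) = Set.indicator (Set.Ico (γ - w) γ) (fun _ => (1 : ℝ)) := by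
  funext t
  unfold JI Set.indicator
  have h1 : t ∈ Set.Ico (γ - w) γ ↔ (t < γ ∧ γ ≤ t + w) := by
    rw [Set.mem_Ico]
    constructor
    · rintro ⟨a, b⟩; exact ⟨b, by linarith⟩
    · rintro ⟨a, b⟩; exact ⟨by linarith, a⟩
  by_cases h : t < γ ∧ γ ≤ t + w
  · rw [if_pos h, if_pos (h1.2 h)]
  · rw [if_neg h, if_neg (fun hh => h (h1.1 hh))]

lemma JI_intble' (w γ a b : ℝ) : IntervalIntegrable (fun t => JI t w γ) volume a b := by
  rw [JI_set']
  refine ⟨?_, ?_⟩ <;>
  exact (integrableOn_const (by simp) (by simp)).indicator measurableSet_Ico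

lemma JI_int_le {w γ V1 V2 : ℝ} (hw : 0 ≤ w) (hV : V1 ≤ V2) : ∫ t in V1..V2, JI t w γ ≤ w := by
  rw [intervalIntegral.integral_of_le hV, JI_set', setIntegral_indicator measurableSet_Ico,
    setIntegral_const, smul_eq_mul, mul_one]
  have h1 : volume.real (Set.Ioc V1 V2 ∩ Set.Ico (γ - w) γ) ≤ volume.real (Set.Ico (γ - w) γ) :=
    measureReal_mono Set.inter_subset_right (by simp)
  refine h1.trans (le_of_eq ?_)
  rw [Measure.real, Real.volume_Ico, ENNReal.toReal_ofReal (by linarith)]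
  ring

lemma JI_int_eq {w γ V1 V2 : ℝ} (hw : 0 ≤ w) (h1 : V1 + w < γ) (h2 : γ ≤ V2) :
    ∫ t in V1..V2, JI t w γ = w := by
  rw [intervalIntegral.integral_of_le (by linarith), JI_set', setIntegral_indicator measurableSet_Ico,
    setIntegral_const, smul_eq_mul, mul_one]
  have e : Set.Ioc V1 V2 ∩ Set.Ico (γ - w) γ = Set.Ico (γ - w) γ := by
    apply Set.inter_eq_right.2
    intro t ht
    exact ⟨by linarith [ht.1], by linarith [ht.2]⟩
  rw [e, Measure.real, Real.volume_Ico, ENNReal.toReal_ofReal (by linarith)]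
  ring

/-- counts in ranges -/
lemma range_count (RH : RiemannHypothesis) : ∃ C : ℝ, 0 < C ∧ ∀ T : ℝ, 10 ≤ T → ∀ (k : ℕ) (t : ℝ),
    ∑ n ∈ Ib T, JI t k (ord n) ≤ k * (C * Real.log T) := by
  classical
  obtain ⟨C, hC, h⟩ := SP.gauss_zeros
  refine ⟨2 * C, by positivity, fun T hT k => ?_⟩
  have hT1 : 1 ≤ T := by linarith
  have hunit : ∀ t, ∑ n ∈ Ib T, JI t 1 (ord n) ≤ 2 * (C * Real.log T) := by
    intro t
    have h1 := N_le hT (fun t => h T hT t) (t := t) (w := 1) le_rfl
    have h2 := block_sum RH hT1 (fun s => JI t 1 s.im)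
    simp only [zo_im] at h2
    rw [← h2]
    refine le_trans (le_of_eq ?_) h1
    rw [Finset.sum_filter]
    refine Finset.sum_congr rfl fun s _ => ?_
    unfold JI JF
    split_ifs <;> simp
  induction k with
  | zero =>
    intro t
    have : ∀ n ∈ Ib T, JI t ((0 : ℕ) : ℝ) (ord n) = 0 := by
      intro n _
      unfold JI
      rw [if_neg]
      rintro ⟨a, b⟩
      simp at b
      linarith
    rw [Finset.sum_congr rfl this]
    simp
  | succ k ih =>
    intro t
    have h1 : ∀ n ∈ Ib T, JI t ((k + 1 : ℕ) : ℝ) (ord n) ≤ JI t k (ord n) + JI (t + k) 1 (ord n) := by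
      intro n _
      by_cases a1 : t < ord n ∧ ord n ≤ t + ((k + 1 : ℕ) : ℝ)
      · by_cases a2 : ord n ≤ t + k
        · have e1 : JI t k (ord n) = 1 := by unfold JI; rw [if_pos ⟨a1.1, a2⟩]
          rw [e1]
          linarith [JI_le t ((k + 1 : ℕ) : ℝ) (ord n), JI_nonneg (t + k) 1 (ord n)]
        · have e1 : JI (t + k) 1 (ord n) = 1 := by
            unfold JI
            rw [if_pos ⟨not_le.1 a2, by have := a1.2; push_cast at this; linarith⟩]
          rw [e1]
          linarith [JI_le t ((k + 1 : ℕ) : ℝ) (ord n), JI_nonneg t k (ord n)]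
      · have e1 : JI t ((k + 1 : ℕ) : ℝ) (ord n) = 0 := by unfold JI; rw [if_neg a1]
        rw [e1]
        exact add_nonneg (JI_nonneg _ _ _) (JI_nonneg _ _ _)
    refine (Finset.sum_le_sum h1).trans ?_
    rw [Finset.sum_add_distrib]
    have h2 := ih t
    have h3 := hunit (t + k)
    push_cast
    linarith

/-- the indices near the ends of the block -/
noncomputable def edg (T : ℝ) (n : ℕ) : ℝ :=
  idc (fun n => ord n ≤ T + 8 * Real.log T + 1 ∨ 2 * T - 8 * Real.log T - 1 < ord n) n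

lemma idc_nonneg (Q : ℕ → Prop) (n : ℕ) : 0 ≤ idc Q n := by unfold idc; split_ifs <;> norm_num

lemma idc_le (Q : ℕ → Prop) (n : ℕ) : idc Q n ≤ 1 := by unfold idc; split_ifs <;> norm_num

lemma edg_small (RH : RiemannHypothesis) {ε : ℝ} (hε : 0 < ε) : ∀ᶠ T : ℝ in atTop,
    ∑ n ∈ Ib T, edg T n ≤ ε * (T * Real.log T) := by
  obtain ⟨C, hC, h⟩ := range_count RH
  have hsm : ∀ᶠ T : ℝ in atTop, 2 * (8 * Real.log T + 3) * C ≤ ε * T := by
    have h := Real.isLittleO_log_id_atTop.def (by positivity : (0 : ℝ) < ε / (32 * C))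
    filter_upwards [h, eventually_ge_atTop 1, eventually_ge_atTop (12 * C / ε)] with T h1 h2 h3
    rw [Real.norm_eq_abs, Real.norm_eq_abs, id, abs_of_nonneg (by linarith : (0 : ℝ) ≤ T),
      abs_of_nonneg (Real.log_nonneg h2)] at h1
    have h4 : 16 * C * Real.log T ≤ ε / 2 * T := by
      calc 16 * C * Real.log T ≤ 16 * C * (ε / (32 * C) * T) := by gcongr
        _ = _ := by field_simp; ring
    have h5 : 6 * C ≤ ε / 2 * T := by
      rw [div_le_iff₀ hε] at h3
      linarith
    linarith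
  filter_upwards [hsm, eventually_ge_atTop 10] with T h1 hT
  have hL1 := log_one_le hT
  set L := Real.log T with hL
  set k := ⌈8 * L + 1⌉₊ with hk
  have hk1 : 8 * L + 1 ≤ k := Nat.le_ceil _
  have hk2 : (k : ℝ) ≤ 8 * L + 2 := by
    have := Nat.ceil_lt_add_one (by linarith : 0 ≤ 8 * L + 1)
    rw [← hk] at this
    linarith
  have h2 : ∀ n ∈ Ib T, edg T n ≤ JI T k (ord n) + JI (2 * T - 8 * L - 1) k (ord n) := by
    intro n hn
    obtain ⟨g1, g2, g3⟩ := mem_Ib.1 hn
    unfold edg idc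
    split_ifs with hh
    · rcases hh with hh | hh
      · have e1 : JI T k (ord n) = 1 := by
          unfold JI; rw [if_pos ⟨g2, by rw [← hL] at hh; linarith⟩]
        rw [e1]
        linarith [JI_nonneg (2 * T - 8 * L - 1) k (ord n)]
      · have e1 : JI (2 * T - 8 * L - 1) k (ord n) = 1 := by
          unfold JI; rw [if_pos ⟨hh, by linarith⟩]
        rw [e1]
        linarith [JI_nonneg T k (ord n)]
    · exact add_nonneg (JI_nonneg _ _ _) (JI_nonneg _ _ _)
  refine (Finset.sum_le_sum h2).trans ?_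
  rw [Finset.sum_add_distrib]
  have h3 := h T hT k T
  have h4 := h T hT k (2 * T - 8 * L - 1)
  rw [← hL] at h3 h4
  have h5 : (k : ℝ) * (C * L) ≤ (8 * L + 3) * (C * L) := by
    apply mul_le_mul_of_nonneg_right (by linarith) (by positivity)
  calc _ ≤ (8 * L + 3) * (C * L) + (8 * L + 3) * (C * L) := by linarith
    _ = (2 * (8 * L + 3) * C) * L := by ring
    _ ≤ (ε * T) * L := by gcongr
    _ = _ := by ring

/-- sums over the block from window averages -/
lemma block_of_win (RH : RiemannHypothesis) {T : ℝ} (hT : 10 ≤ T) {Λ : ℝ} (hΛ : 0 < Λ)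
    (hΛL : 2 * Real.pi * Λ ≤ Real.log T)
    (hV : T + 8 * Real.log T ≤ 2 * T - 8 * Real.log T) {G : ℂ → ℝ} (hG0 : ∀ s, 0 ≤ G s)
    (hG1 : ∀ s, G s ≤ 1) {E : ℝ → ℝ} (hEc : Continuous E) {Q g : ℝ}
    (hE : ∫ t in (T + 8 * Real.log T)..(2 * T - 8 * Real.log T), E t ≤ Q)
    (hb : ∀ t, |1 / Λ * AW T Λ G t - g| ≤ E t) :
    |∑ n ∈ Ib T, G (zo (ord n)) - Real.log T / (2 * Real.pi) * (g * (T - 16 * Real.log T))| ≤
      Real.log T / (2 * Real.pi) * Q + ∑ n ∈ Ib T, edg T n := by
  have hpi := Real.pi_pos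
  have hTo : 1 ≤ T := by linarith
  have hL1 := log_one_le hT
  set L := Real.log T with hL
  have hL0 : 0 < L := by linarith
  set V1 := T + 8 * L with hV1
  set V2 := 2 * T - 8 * L with hV2
  set w := 2 * Real.pi * Λ / L with hw
  have hw0 : 0 < w := by positivity
  have hw1 : w ≤ 1 := by rw [hw, div_le_one hL0]; exact hΛL
  have hAW : ∀ t, AW T Λ G t = ∑ n ∈ Ib T, JI t w (ord n) * G (zo (ord n)) := fun t => by
    rw [AW_idx RH hTo, ← hL]
  have hterm : ∀ n, IntervalIntegrable (fun t => JI t w (ord n) * G (zo (ord n))) volume V1 V2 :=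
    fun n => (JI_intble' w (ord n) V1 V2).mul_const _
  have hint : ∫ t in V1..V2, AW T Λ G t = ∑ n ∈ Ib T, (∫ t in V1..V2, JI t w (ord n)) *
      G (zo (ord n)) := by
    simp only [hAW]
    rw [intervalIntegral.integral_finsetSum fun n _ => hterm n]
    refine Finset.sum_congr rfl fun n _ => ?_
    rw [intervalIntegral.integral_mul_const]
  have hAWi : IntervalIntegrable (fun t => AW T Λ G t) volume V1 V2 := by
    have h2 : IntervalIntegrable (∑ n ∈ Ib T, fun t => JI t w (ord n) * G (zo (ord n)))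
        volume V1 V2 := IntervalIntegrable.sum _ fun n _ => hterm n
    refine IntervalIntegrable.congr (fun t _ => ?_) h2
    rw [hAW, Finset.sum_apply]
  set S := ∑ n ∈ Ib T, G (zo (ord n)) with hS
  set X := ∫ t in V1..V2, AW T Λ G t with hX
  have hup : X ≤ w * S := by
    rw [hint, hS, Finset.mul_sum]
    refine Finset.sum_le_sum fun n _ => ?_
    exact mul_le_mul_of_nonneg_right (JI_int_le hw0.le hV) (hG0 _)
  have hlo : w * S - w * ∑ n ∈ Ib T, edg T n ≤ X := by
    rw [hint, hS, Finset.mul_sum, Finset.mul_sum, ← Finset.sum_sub_distrib]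
    refine Finset.sum_le_sum fun n hn => ?_
    have h0 := hG0 (zo (ord n))
    have h1 := hG1 (zo (ord n))
    by_cases hh : ord n ≤ T + 8 * Real.log T + 1 ∨ 2 * T - 8 * Real.log T - 1 < ord n
    · have e1 : edg T n = 1 := by unfold edg idc; rw [if_pos hh]
      rw [e1]
      have h2 : 0 ≤ ∫ t in V1..V2, JI t w (ord n) :=
        intervalIntegral.integral_nonneg hV fun t _ => JI_nonneg _ _ _
      have h3 : 0 ≤ (∫ t in V1..V2, JI t w (ord n)) * G (zo (ord n)) := mul_nonneg h2 h0
      nlinarith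
    · have e1 : edg T n = 0 := by unfold edg idc; rw [if_neg hh]
      rw [e1]
      push Not at hh
      rw [← hL] at hh
      rw [JI_int_eq hw0.le (by rw [hV1]; linarith) (by rw [hV2]; linarith)]
      linarith
  have hmid : |X - Λ * (g * (T - 16 * L))| ≤ Λ * Q := by
    have h1 : X - Λ * (g * (T - 16 * L)) = Λ * ∫ t in V1..V2, (1 / Λ * AW T Λ G t - g) := by
      rw [intervalIntegral.integral_sub (hAWi.const_mul _) (by simp),
        intervalIntegral.integral_const_mul, intervalIntegral.integral_const, smul_eq_mul, ← hX]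
      have h2 : V2 - V1 = T - 16 * L := by rw [hV1, hV2]; ring
      rw [h2]
      field_simp
    rw [h1, abs_mul, abs_of_pos hΛ]
    apply mul_le_mul_of_nonneg_left _ hΛ.le
    refine le_trans ?_ hE
    rw [← Real.norm_eq_abs]
    apply intervalIntegral.norm_integral_le_of_norm_le hV
    · exact Eventually.of_forall fun t _ => by rw [Real.norm_eq_abs]; exact hb t
    · exact hEc.intervalIntegrable _ _
  have hedg0 : 0 ≤ ∑ n ∈ Ib T, edg T n := Finset.sum_nonneg fun n _ => idc_nonneg _ _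
  set Ed := ∑ n ∈ Ib T, edg T n with hEd
  -- divide by w
  have hΛw : Λ / w = L / (2 * Real.pi) := by rw [hw]; field_simp
  have h3 : |S - X / w| ≤ Ed := by
    rw [abs_le]
    constructor
    · have : X / w ≤ S := by rw [div_le_iff₀ hw0]; linarith
      linarith
    · have : S - Ed ≤ X / w := by rw [le_div_iff₀ hw0]; nlinarith
      linarith
  have h4 : |X / w - L / (2 * Real.pi) * (g * (T - 16 * L))| ≤ L / (2 * Real.pi) * Q := by
    rw [← hΛw]
    have e : X / w - Λ / w * (g * (T - 16 * L)) = (X - Λ * (g * (T - 16 * L))) / w := by ring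
    rw [e, abs_div, abs_of_pos hw0, div_le_iff₀ hw0]
    refine hmid.trans (le_of_eq ?_)
    field_simp
  have h5 := abs_sub_le S (X / w) (L / (2 * Real.pi) * (g * (T - 16 * L)))
  linarith

/-- **blocks** -/
theorem block_law (RH : RiemannHypothesis) {m : ℕ} (y : Fin m → ℝ) {ε : ℝ} (hε : 0 < ε) :
    ∀ᶠ r : ℕ in atTop, ∀ᶠ T : ℝ in atTop,
    |∑ n ∈ Ib T, idc (Ev y r) n - FF y * (Ib T).card| ≤ ε * (T * Real.log T) := by
  have hRH := rhs_of RH
  have hpi := Real.pi_pos
  set η : ℝ := ε / (8 * ((m : ℝ) + 1)) with hη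
  have hη0 : 0 < η := by positivity
  have hmη : 2 * (m * η) ≤ ε / 4 := by
    rw [hη]
    have h1 : 2 * ((m : ℝ) * (ε / (8 * ((m : ℝ) + 1)))) = ε / 4 * (m / ((m : ℝ) + 1)) := by
      field_simp; ring
    rw [h1]
    have h2 : (m : ℝ) / ((m : ℝ) + 1) ≤ 1 := by
      rw [div_le_one (by positivity)]; linarith
    nlinarith
  have hup := zero_law hRH (xw_GS y 0) (gqb η y) (fun z => gq_abs _ _ _)
    (by positivity : 0 ≤ 1 / η) (gq_lip hη0 y) (κ := 1) (by norm_num) le_rfl
    (ε := ε / 16) (by positivity)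
  have hlo := zero_law hRH (xw_GS y 1) (gqb η (fun j => y j - 2 * η)) (fun z => gq_abs _ _ _)
    (by positivity : 0 ≤ 1 / η) (gq_lip hη0 _) (κ := 0) le_rfl (by norm_num)
    (ε := ε / 16) (by positivity)
  have hon := zero_law hRH (xw_GS y 0) (BoundedContinuousFunction.const (EE m) (1 : ℝ))
    (fun z => by simp) (Lg := 0) le_rfl (fun z w => by simp) (κ := 0) le_rfl (by norm_num)
    (ε := ε / 16) (by positivity)
  have hrho : Tendsto rho atTop (𝓝 0) := by
    unfold rho
    exact (Real.tendsto_sqrt_atTop.comp log_nat_atTop).const_div_atTop _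
  have hx1 : ∀ᶠ r : ℕ in atTop, ∀ j, 0 < xw y 1 r j :=
    eventually_all.2 fun j => ((xw_GS y 1).inf j).eventually_gt_atTop 0
  filter_upwards [hup, hlo, hon, hx1, log_nat_atTop.eventually_gt_atTop 0,
    hrho.eventually (ge_mem_nhds hη0)] with r u1 l1 o1 hxr hr hρη
  have hsand := sandwich RH y hr hη0 hρη hxr
  obtain ⟨Λ, ⟨⟨u2, l2⟩, o2⟩, hΛ0⟩ := (((u1.and l1).and o1).and (eventually_gt_atTop 0)).exists
  filter_upwards [u2, l2, o2, hsand, V_ev, edg_small RH (by positivity : 0 < ε / 16),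
    eventually_ge_atTop 10, Real.tendsto_log_atTop.eventually_ge_atTop (2 * Real.pi * Λ)] with
    T u3 l3 o3 hs hV hed hT10 hΛL
  obtain ⟨E1, E1c, E10, E1i, E1b⟩ := u3
  obtain ⟨E2, E2c, E20, E2i, E2b⟩ := l3
  obtain ⟨E3, E3c, E30, E3i, E3b⟩ := o3
  have hTo : 1 ≤ T := by linarith
  have hTp : 0 < T := by linarith
  have hL1 := log_one_le hT10
  have B1 := block_of_win RH hT10 hΛ0 hΛL hV (G := fun s => gqb η y (Yz 1 (xw y 0 r) (rho r) T s))
    (fun s => gq_nonneg _ _ _) (fun s => gq_le _ _ _) E1c E1i E1b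
  have B2 := block_of_win RH hT10 hΛ0 hΛL hV
    (G := fun s => gqb η (fun j => y j - 2 * η) (Yz 0 (xw y 1 r) (rho r) T s))
    (fun s => gq_nonneg _ _ _) (fun s => gq_le _ _ _) E2c E2i E2b
  have B3 := block_of_win RH hT10 hΛ0 hΛL hV (G := fun _ => (1 : ℝ))
    (fun s => by norm_num) (fun s => le_rfl) (g := 1) E3c E3i (by
      intro t
      have := E3b t
      simpa using this)
  set L := Real.log T with hL
  have hL0 : 0 < L := by linarith
  set Ed := ∑ n ∈ Ib T, edg T n with hEd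
  rw [Finset.sum_const, nsmul_eq_mul, mul_one, one_mul] at B3
  have c1 : ∫ z, gqb η y z ∂(glaw m : Measure (EE m)) ≤ FF y + m * η :=
    (gq_int_upper hη0 y).trans (FF_shift y hη0.le)
  have c2 : FF y - m * (2 * η) ≤
      ∫ z, gqb η (fun j => y j - 2 * η) z ∂(glaw m : Measure (EE m)) := by
    have h1 := gq_int_lower hη0 (fun j => y j - 2 * η)
    have h2 := FF_shift (fun j => y j - 2 * η) (c := 2 * η) (by positivity)
    have h3 : (fun j => (fun j => y j - 2 * η) j + 2 * η) = y := by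
      funext j; simp only; ring
    rw [h3] at h2
    have h4 : ∫ z, gqb η (fun j => y j - 2 * η) z ∂(glaw m : Measure (EE m)) =
      ∫ z, gq η (fun j => y j - 2 * η) z ∂(glaw m : Measure (EE m)) := rfl
    rw [h4]
    linarith
  have hFF0 : 0 ≤ FF y := measureReal_nonneg
  have hFF1 : FF y ≤ 1 := measureReal_le_one
  have hsn : ∀ n ∈ Ib T,
      gq η (fun j => y j - 2 * η) (Yz 0 (xw y 1 r) (rho r) T (zo (ord n))) - edg T n ≤
        idc (Ev y r) n ∧
      idc (Ev y r) n ≤ gq η y (Yz 1 (xw y 0 r) (rho r) T (zo (ord n))) + edg T n := by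
    intro n hn
    by_cases hh : ord n ≤ T + 8 * Real.log T + 1 ∨ 2 * T - 8 * Real.log T - 1 < ord n
    · have e1 : edg T n = 1 := by unfold edg idc; rw [if_pos hh]
      rw [e1]
      constructor
      · have := gq_le η (fun j => y j - 2 * η) (Yz 0 (xw y 1 r) (rho r) T (zo (ord n)))
        linarith [idc_nonneg (Ev y r) n]
      · have := gq_nonneg η y (Yz 1 (xw y 0 r) (rho r) T (zo (ord n)))
        linarith [idc_le (Ev y r) n]
    · have e1 : edg T n = 0 := by unfold edg idc; rw [if_neg hh]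
      rw [e1, sub_zero, add_zero]
      push Not at hh
      apply hs n hn (by rw [← hL] at hh; linarith [hh.2])
      unfold idc
      exact ⟨fun h => by rw [if_pos h], fun h => by rw [if_neg h]⟩
  have hU : ∑ n ∈ Ib T, idc (Ev y r) n ≤
      ∑ n ∈ Ib T, gqb η y (Yz 1 (xw y 0 r) (rho r) T (zo (ord n))) + Ed := by
    rw [hEd, ← Finset.sum_add_distrib]
    exact Finset.sum_le_sum fun n hn => (hsn n hn).2
  have hLw : ∑ n ∈ Ib T, gqb η (fun j => y j - 2 * η) (Yz 0 (xw y 1 r) (rho r) T (zo (ord n))) -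
      Ed ≤ ∑ n ∈ Ib T, idc (Ev y r) n := by
    rw [hEd, ← Finset.sum_sub_distrib]
    exact Finset.sum_le_sum fun n hn => (hsn n hn).1
  set g1 := ∫ z, gqb η y z ∂(glaw m : Measure (EE m)) with hg1
  set g2 := ∫ z, gqb η (fun j => y j - 2 * η) z ∂(glaw m : Measure (EE m)) with hg2
  set N : ℝ := ((Ib T).card : ℝ) with hN
  have hT16 : 0 ≤ T - 16 * L := by linarith
  have hq : L / (2 * Real.pi) ≤ L := by
    apply div_le_self hL0.le
    linarith [Real.pi_gt_three]
  have hq0 : 0 ≤ L / (2 * Real.pi) := by positivity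
  have k1 := (abs_le.1 B1).2
  have k2 := (abs_le.1 B2).1
  have k3 := abs_le.1 B3
  have m1 : L / (2 * Real.pi) * (ε / 16 * T) ≤ ε / 16 * (T * L) := by
    calc L / (2 * Real.pi) * (ε / 16 * T) ≤ L * (ε / 16 * T) := by gcongr
      _ = _ := by ring
  have m2 : L / (2 * Real.pi) * (g1 * (T - 16 * L)) ≤
      L / (2 * Real.pi) * (FF y * (T - 16 * L)) + ε / 8 * (T * L) := by
    have h1 : g1 * (T - 16 * L) ≤ (FF y + m * η) * (T - 16 * L) := by gcongr
    have h2 : m * η * (T - 16 * L) ≤ ε / 8 * T := by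
      have : (m : ℝ) * η * (T - 16 * L) ≤ m * η * T := by
        apply mul_le_mul_of_nonneg_left _ (by positivity); linarith
      nlinarith
    calc L / (2 * Real.pi) * (g1 * (T - 16 * L)) ≤
        L / (2 * Real.pi) * (FF y * (T - 16 * L) + ε / 8 * T) := by
          apply mul_le_mul_of_nonneg_left _ hq0; linarith
      _ = L / (2 * Real.pi) * (FF y * (T - 16 * L)) + L / (2 * Real.pi) * (ε / 8 * T) := by ring
      _ ≤ L / (2 * Real.pi) * (FF y * (T - 16 * L)) + L * (ε / 8 * T) := by gcongr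
      _ = _ := by ring
  have m3 : L / (2 * Real.pi) * (FF y * (T - 16 * L)) - ε / 4 * (T * L) ≤
      L / (2 * Real.pi) * (g2 * (T - 16 * L)) := by
    have h1 : (FF y - m * (2 * η)) * (T - 16 * L) ≤ g2 * (T - 16 * L) := by gcongr
    have h2 : m * (2 * η) * (T - 16 * L) ≤ ε / 4 * T := by
      have : (m : ℝ) * (2 * η) * (T - 16 * L) ≤ m * (2 * η) * T := by
        apply mul_le_mul_of_nonneg_left _ (by positivity); linarith
      nlinarith
    have h3 : L / (2 * Real.pi) * (FF y * (T - 16 * L)) ≤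
        L / (2 * Real.pi) * (g2 * (T - 16 * L) + ε / 4 * T) := by
      apply mul_le_mul_of_nonneg_left _ hq0; linarith
    have h4 : L / (2 * Real.pi) * (ε / 4 * T) ≤ L * (ε / 4 * T) := by gcongr
    linarith
  have m4 : FF y * N ≤ FF y * (L / (2 * Real.pi) * (T - 16 * L)) + ε / 16 * (T * L) + Ed := by
    have h1 : N ≤ L / (2 * Real.pi) * (T - 16 * L) + (ε / 16 * (T * L) + Ed) := by linarith [k3.2]
    have h2 : FF y * N ≤ FF y * (L / (2 * Real.pi) * (T - 16 * L) + (ε / 16 * (T * L) + Ed)) := by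
      gcongr
    have hEd0 : 0 ≤ Ed := Finset.sum_nonneg fun n _ => idc_nonneg _ _
    have h3 : FF y * (ε / 16 * (T * L) + Ed) ≤ 1 * (ε / 16 * (T * L) + Ed) := by
      apply mul_le_mul_of_nonneg_right hFF1; positivity
    linarith
  have m5 : FF y * (L / (2 * Real.pi) * (T - 16 * L)) - ε / 16 * (T * L) - Ed ≤ FF y * N := by
    have h1 : L / (2 * Real.pi) * (T - 16 * L) - (ε / 16 * (T * L) + Ed) ≤ N := by linarith [k3.1]
    have h2 : FF y * (L / (2 * Real.pi) * (T - 16 * L) - (ε / 16 * (T * L) + Ed)) ≤ FF y * N := by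
      gcongr
    have hEd0 : 0 ≤ Ed := Finset.sum_nonneg fun n _ => idc_nonneg _ _
    have h3 : FF y * (ε / 16 * (T * L) + Ed) ≤ 1 * (ε / 16 * (T * L) + Ed) := by
      apply mul_le_mul_of_nonneg_right hFF1; positivity
    linarith
  have hcomm : L / (2 * Real.pi) * (FF y * (T - 16 * L)) = FF y * (L / (2 * Real.pi) * (T - 16 * L)) := by
    ring
  rw [hcomm] at m2 m3
  have hTL : 0 < ε * (T * L) := by positivity
  have hTL0 : 0 < T * L := by positivity
  rw [abs_le]
  constructor
  · linarith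
  · linarith

end Pool.Agent.H478.CW
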