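import Pool.Agent.H478.CW1

/-! Complex prime polynomials and the constant coefficients of their powers. -/

open Finset Complex Filter Topology

namespace Pool.Agent.H478.CW

open Pool.Agent.R321.FA

/-- sum of the monomials `m • ds p` -/
noncomputable def sgC (U : Finset ℕ) (m : ℤ) (y : ℕ → ℂ) : AC :=
  ∑ p ∈ U, AddMonoidAlgebra.single (m • ds p) (y p)

/-- the prime polynomial `c - ∑ (y_p p^{it} + conj y_p p^{-it}) - ∑ (z_p p^{2it} + conj z_p p^{-2it})` -/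
noncomputable def cp (c : ℝ) (U : Finset ℕ) (y z : ℕ → ℂ) : AC :=
  AddMonoidAlgebra.single 0 (c : ℂ) - ((sgC U 1 y + sgC U (-1) (fun p => (starRingEnd ℂ) (y p))) +
    (sgC U 2 z + sgC U (-2) (fun p => (starRingEnd ℂ) (z p))))

/-- the majorant -/
noncomputable def bp (c : ℝ) (U : Finset ℕ) (y z : ℕ → ℂ) : Al :=
  rp |c| U (fun p => -‖y p‖) (fun p => -‖z p‖)

lemma sg_neg (U : Finset ℕ) (m : ℤ) (y : ℕ → ℝ) : sg U m (fun p => -y p) = -sg U m y := by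
  unfold sg
  rw [← Finset.sum_neg_distrib]
  exact Finset.sum_congr rfl fun p _ => AddMonoidAlgebra.single_neg ..

lemma bp_eq (c : ℝ) (U : Finset ℕ) (y z : ℕ → ℂ) : bp c U y z =
    AddMonoidAlgebra.single 0 |c| + ((sg U 1 (fun p => ‖y p‖) + sg U (-1) (fun p => ‖y p‖)) +
      (sg U 2 (fun p => ‖z p‖) + sg U (-2) (fun p => ‖z p‖))) := by
  unfold bp rp
  rw [sg_neg, sg_neg, sg_neg, sg_neg]
  abel

lemma sgC_le (U : Finset ℕ) (m : ℤ) (y : ℕ → ℂ) : Le (sgC U m y) (sg U m fun p => ‖y p‖) :=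
  Le.sum U fun _ _ => Le.single le_rfl

lemma sgC_le' (U : Finset ℕ) (m : ℤ) (y : ℕ → ℂ) :
    Le (sgC U m (fun p => (starRingEnd ℂ) (y p))) (sg U m fun p => ‖y p‖) :=
  Le.sum U fun _ _ => Le.single (le_of_eq (by rw [RCLike.norm_conj]))

lemma cp_le (c : ℝ) (U : Finset ℕ) (y z : ℕ → ℂ) : Le (cp c U y z) (bp c U y z) := by
  rw [bp_eq]
  unfold cp
  rw [sub_eq_add_neg]
  refine Le.add (Le.single (by rw [Complex.norm_real, Real.norm_eq_abs])) (Le.neg ?_)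
  exact ((sgC_le _ _ _).add (sgC_le' _ _ _)).add ((sgC_le _ _ _).add (sgC_le' _ _ _))

/-- domination of the data -/
def YC (U : Finset ℕ) (v : ℕ → ℝ) (C : ℝ) (c : ℝ) (y z : ℕ → ℂ) : Prop :=
  |c| ≤ C ∧ (∀ p ∈ U, ‖y p‖ ≤ C * v p) ∧ ∀ p ∈ U, ‖z p‖ ≤ C * v p ^ 2

lemma YC.yb {U : Finset ℕ} {v : ℕ → ℝ} {C c : ℝ} {y z : ℕ → ℂ} (h : YC U v C c y z) :
    YB U v C |c| (fun p => -‖y p‖) (fun p => -‖z p‖) := by
  refine ⟨by rw [abs_abs]; exact h.1, fun p hp => ?_, fun p hp => ?_⟩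
  · rw [abs_neg, abs_norm]; exact h.2.1 p hp
  · rw [abs_neg, abs_norm]; exact h.2.2 p hp

lemma bp_pow_dom {U : Finset ℕ} {v : ℕ → ℝ} (hv : ∀ p, 0 ≤ v p) {M : ℝ}
    (hM : ∑ p ∈ U, v p ^ 2 ≤ M) {C c : ℝ} {y z : ℕ → ℂ} (h : YC U v C c y z) (k : ℕ) :
    Dom U v (2 * k) (Dc C M k) (bp c U y z ^ k).coeff := by
  have hC : 0 ≤ C := (abs_nonneg _).trans h.1
  have h1 := rl_dom hv hM hC (List.replicate k ((|c|, (fun p => -‖y p‖), (fun p => -‖z p‖)) : Dt))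
    (by
      intro x hx
      rw [List.eq_of_mem_replicate hx]
      exact h.yb)
  rw [List.length_replicate] at h1
  have h2 : (rl U (List.replicate k ((|c|, (fun p => -‖y p‖), (fun p => -‖z p‖)) : Dt))).prod =
      bp c U y z ^ k := by
    unfold rl bp
    rw [List.map_replicate, List.prod_replicate]
  rw [h2] at h1
  exact h1

lemma bp_pow_ht {U : Finset ℕ} {c : ℝ} {y z : ℕ → ℂ} {H : ℝ} (hH : 0 ≤ H)
    (h1 : ∀ p ∈ U, y p ≠ 0 → Real.log p ≤ H) (h2 : ∀ p ∈ U, z p ≠ 0 → 2 * Real.log p ≤ H) (k : ℕ) :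
    Ht (bp c U y z ^ k) (k * H) := by
  have h0 : Ht (bp c U y z) H := rp_ht hH
    (fun p hp hne => h1 p hp (fun h => hne (by rw [h]; simp)))
    (fun p hp hne => h2 p hp (fun h => hne (by rw [h]; simp)))
  induction k with
  | zero =>
    rw [pow_zero, AddMonoidAlgebra.one_def]
    exact Ht.single (by simp)
  | succ k ih =>
    rw [pow_succ]
    have := ih.mul h0
    refine this.mono (le_of_eq ?_)
    push_cast; ring

lemma DC_sg {U : Finset ℕ} {p : ℕ} (hp : p ∈ U) (m : ℤ) (y : ℕ → ℂ) :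
    DC p (sgC U m y) = AddMonoidAlgebra.single (m • ds p) ((m : ℂ) * y p) := by
  classical
  apply AddMonoidAlgebra.coeff_injective
  ext e
  rw [DC_coeff, AddMonoidAlgebra.coeff_single, Finsupp.single_apply]
  have h0 : (sgC U m y).coeff e = ∑ p ∈ U, if m • ds p = e then y p else 0 := by
    unfold sgC
    rw [AddMonoidAlgebra.coeff_sum, Finsupp.finsetSum_apply]
    simp only [AddMonoidAlgebra.coeff_single, Finsupp.single_apply]
  rw [h0, Finset.mul_sum, Finset.sum_eq_single_of_mem p hp]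
  · split_ifs with h
    · rw [← h, zds_apply, if_pos rfl]
    · rw [mul_zero]
  · intro q _ hq
    split_ifs with h
    · rw [← h, zds_apply, if_neg hq]; simp
    · rw [mul_zero]

/-- coefficient of `DC (cp) * H` -/
lemma DC_cp_coeff {U : Finset ℕ} {p : ℕ} (hp : p ∈ U) (c : ℝ) (y z : ℕ → ℂ) (H : AC) (e : G) :
    (DC p (cp c U y z) * H).coeff e =
      -((y p * H.coeff (e - ds p) - (starRingEnd ℂ) (y p) * H.coeff (e + ds p)) +
      (2 * z p * H.coeff (e - (2 : ℤ) • ds p) -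
        2 * (starRingEnd ℂ) (z p) * H.coeff (e + (2 : ℤ) • ds p))) := by
  have hs : ∀ (m : ℤ) (y : ℕ → ℂ), DC p (sgC U m y) =
      AddMonoidAlgebra.single (m • ds p) ((m : ℂ) * y p) := fun m y => DC_sg hp m y
  have h0 : DC p (cp c U y z) =
      -((AddMonoidAlgebra.single ((1 : ℤ) • ds p) (y p) +
        AddMonoidAlgebra.single ((-1 : ℤ) • ds p) (-(starRingEnd ℂ) (y p))) +
      (AddMonoidAlgebra.single ((2 : ℤ) • ds p) (2 * z p) +
        AddMonoidAlgebra.single ((-2 : ℤ) • ds p) (-(2 * (starRingEnd ℂ) (z p))))) := by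
    unfold cp
    rw [sub_eq_add_neg, DC_add, DC_neg, DC_add, DC_add, DC_add, hs, hs, hs, hs, DC_single]
    have e1 : (AddMonoidAlgebra.single (0 : G) ((((0 : G) p : ℤ) : ℂ) * (c : ℂ)) : AC) = 0 := by simp
    rw [e1, zero_add]
    have e3 : (((1 : ℤ) : ℂ) * y p) = y p := by push_cast; ring
    have e4 : (((2 : ℤ) : ℂ) * z p) = 2 * z p := by push_cast; ring
    have e5 : (((-1 : ℤ) : ℂ) * (starRingEnd ℂ) (y p)) = -(starRingEnd ℂ) (y p) := by
      push_cast; ring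
    have e6 : (((-2 : ℤ) : ℂ) * (starRingEnd ℂ) (z p)) = -(2 * (starRingEnd ℂ) (z p)) := by
      push_cast; ring
    rw [e3, e4, e5, e6]
  rw [h0, neg_mul, add_mul, add_mul, add_mul, AddMonoidAlgebra.coeff_neg, Finsupp.neg_apply,
    AddMonoidAlgebra.coeff_add, Finsupp.add_apply, AddMonoidAlgebra.coeff_add,
    AddMonoidAlgebra.coeff_add, Finsupp.add_apply, Finsupp.add_apply,
    AddMonoidAlgebra.coeff_single_mul_apply, AddMonoidAlgebra.coeff_single_mul_apply,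
    AddMonoidAlgebra.coeff_single_mul_apply, AddMonoidAlgebra.coeff_single_mul_apply]
  have a1 : -((1 : ℤ) • ds p) + e = e - ds p := by rw [one_smul]; abel
  have a2 : -((-1 : ℤ) • ds p) + e = e + ds p := by rw [neg_one_smul]; abel
  have a3 : -((2 : ℤ) • ds p) + e = e - (2 : ℤ) • ds p := by abel
  have a4 : -((-2 : ℤ) • ds p) + e = e + (2 : ℤ) • ds p := by rw [neg_smul]; abel
  rw [a1, a2, a3, a4]
  ring

/-- coefficients of the powers at `± p` -/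
lemma pow_ds {U : Finset ℕ} {v : ℕ → ℝ} (hv : ∀ p, 0 ≤ v p) {M : ℝ}
    (hM : ∑ p ∈ U, v p ^ 2 ≤ M) {C c : ℝ} {y z : ℕ → ℂ} (h : YC U v C c y z) (k : ℕ)
    {p : ℕ} (hp : p ∈ U) (hv1 : v p ≤ 1) :
    ‖(cp c U y z ^ (k + 1)).coeff (ds p) + ((k + 1 : ℕ) : ℂ) * (y p * (cp c U y z ^ k).coeff 0)‖ ≤
      (k + 1) * (5 * C * Dc C M k) * v p ^ 3 ∧
    ‖(cp c U y z ^ (k + 1)).coeff (-ds p) +
      ((k + 1 : ℕ) : ℂ) * ((starRingEnd ℂ) (y p) * (cp c U y z ^ k).coeff 0)‖ ≤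
      (k + 1) * (5 * C * Dc C M k) * v p ^ 3 := by
  set A := cp c U y z with hA
  set D := Dc C M k with hD
  have hC : 0 ≤ C := (abs_nonneg _).trans h.1
  have hM0 : 0 ≤ M := (Finset.sum_nonneg fun p _ => sq_nonneg _).trans hM
  have hD0 : 0 ≤ D := Dc_nonneg hC hM0 k
  have hbd : ∀ m : ℤ, ‖(A ^ k).coeff (m • ds p)‖ ≤ D * v p ^ m.natAbs := by
    intro m
    rw [← zds_mw]
    exact (((cp_le c U y z).pow k) _).trans ((le_abs_self _).trans
      ((bp_pow_dom hv hM h k) _).1)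
  have hder : ∀ e : G, (e p : ℂ) * (A ^ (k + 1)).coeff e = ((k + 1 : ℕ) : ℂ) *
      -((y p * (A ^ k).coeff (e - ds p) - (starRingEnd ℂ) (y p) * (A ^ k).coeff (e + ds p)) +
      (2 * z p * (A ^ k).coeff (e - (2 : ℤ) • ds p) -
        2 * (starRingEnd ℂ) (z p) * (A ^ k).coeff (e + (2 : ℤ) • ds p))) := by
    intro e
    rw [← DC_coeff, DC_pow, ← DC_cp_coeff hp, ← nsmul_eq_mul, AddMonoidAlgebra.coeff_smul,
      Finsupp.smul_apply, nsmul_eq_mul]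
  have hv0 := hv p
  have hy := h.2.1 p hp
  have hz := h.2.2 p hp
  have v5 : v p ^ 5 ≤ v p ^ 3 := pow_le_pow_of_le_one hv0 hv1 (by norm_num)
  -- the bound for the remaining terms
  have hrest : ∀ (a b b' x1 x2 x3 : ℂ), ‖a‖ ≤ C * v p → ‖b‖ ≤ C * v p ^ 2 → ‖b'‖ ≤ C * v p ^ 2 →
      ‖x1‖ ≤ D * v p ^ 2 → ‖x2‖ ≤ D * v p ^ 1 →
      ‖x3‖ ≤ D * v p ^ 3 → ‖((k + 1 : ℕ) : ℂ) * (a * x1 - (2 * b * x2 -
        2 * b' * x3))‖ ≤ (k + 1) * (5 * C * D) * v p ^ 3 := by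
    intro a b b' x1 x2 x3 ha hb hb' h1 h2 h3
    have g1 : ‖a * x1‖ ≤ C * v p * (D * v p ^ 2) := by
      rw [norm_mul]; exact mul_le_mul ha h1 (norm_nonneg _) (by positivity)
    have g2 : ‖2 * b * x2‖ ≤ 2 * (C * v p ^ 2) * (D * v p ^ 1) := by
      rw [norm_mul, norm_mul, Complex.norm_two]
      exact mul_le_mul (by linarith) h2 (norm_nonneg _) (by positivity)
    have g3 : ‖2 * b' * x3‖ ≤ 2 * (C * v p ^ 2) * (D * v p ^ 3) := by
      rw [norm_mul, norm_mul, Complex.norm_two]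
      exact mul_le_mul (by linarith) h3 (norm_nonneg _) (by positivity)
    have g4 : 2 * (C * v p ^ 2) * (D * v p ^ 3) ≤ 2 * (C * D) * v p ^ 3 := by
      calc 2 * (C * v p ^ 2) * (D * v p ^ 3) = 2 * (C * D) * v p ^ 5 := by ring
        _ ≤ _ := mul_le_mul_of_nonneg_left v5 (by positivity)
    rw [norm_mul, Complex.norm_natCast]
    push_cast
    have hk : (0 : ℝ) ≤ (k : ℝ) + 1 := by positivity
    calc ((k : ℝ) + 1) * ‖a * x1 - (2 * b * x2 - 2 * b' * x3)‖ ≤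
        (k + 1) * (C * v p * (D * v p ^ 2) + (2 * (C * v p ^ 2) * (D * v p ^ 1) +
          2 * (C * D) * v p ^ 3)) := by
          apply mul_le_mul_of_nonneg_left _ hk
          refine (norm_sub_le _ _).trans (add_le_add g1 ?_)
          exact (norm_sub_le _ _).trans (add_le_add g2 (g3.trans g4))
      _ = _ := by ring
  have hyc : ‖(starRingEnd ℂ) (y p)‖ ≤ C * v p := by rw [RCLike.norm_conj]; exact hy
  have hzc : ‖(starRingEnd ℂ) (z p)‖ ≤ C * v p ^ 2 := by rw [RCLike.norm_conj]; exact hz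
  constructor
  · have h1 := hder (ds p)
    have e0 : ((ds p) p : ℂ) = 1 := by unfold ds; simp
    have e1 : ds p - ds p = 0 := sub_self _
    have e2 : ds p + ds p = (2 : ℤ) • ds p := by rw [two_smul]
    have e3 : ds p - (2 : ℤ) • ds p = (-1 : ℤ) • ds p := by rw [two_smul, neg_one_smul]; abel
    have e4 : ds p + (2 : ℤ) • ds p = (3 : ℤ) • ds p := by
      rw [two_smul, show (3 : ℤ) = 1 + 1 + 1 by norm_num, add_smul, add_smul, one_smul]; abel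
    rw [e0, one_mul, e1, e2, e3, e4] at h1
    rw [h1]
    refine le_trans (le_of_eq ?_) (hrest ((starRingEnd ℂ) (y p)) (z p) ((starRingEnd ℂ) (z p))
      ((A ^ k).coeff ((2 : ℤ) • ds p))
      ((A ^ k).coeff ((-1 : ℤ) • ds p)) ((A ^ k).coeff ((3 : ℤ) • ds p)) hyc hz hzc
      (hbd 2) (hbd (-1)) (hbd 3))
    congr 1
    ring
  · have h1 := hder (-ds p)
    have e00 : (((-ds p : G) p : ℤ) : ℂ) = -1 := by
      rw [Finsupp.neg_apply]
      unfold ds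
      simp
    have e1 : -ds p + ds p = 0 := neg_add_cancel _
    have e2 : -ds p - ds p = (-2 : ℤ) • ds p := by rw [neg_smul, two_smul]; abel
    have e3 : -ds p + (2 : ℤ) • ds p = (1 : ℤ) • ds p := by rw [two_smul, one_smul]; abel
    have e4 : -ds p - (2 : ℤ) • ds p = (-3 : ℤ) • ds p := by
      rw [neg_smul, two_smul, show (3 : ℤ) = 1 + 1 + 1 by norm_num, add_smul, add_smul, one_smul]
      abel
    rw [e00, e1, e2, e3, e4] at h1
    have h2 : (A ^ (k + 1)).coeff (-ds p) = -(-1 * (A ^ (k + 1)).coeff (-ds p)) := by ring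
    rw [h2, h1]
    refine le_trans (le_of_eq ?_) (hrest (y p) ((starRingEnd ℂ) (z p)) (z p)
      ((A ^ k).coeff ((-2 : ℤ) • ds p))
      ((A ^ k).coeff ((1 : ℤ) • ds p)) ((A ^ k).coeff ((-3 : ℤ) • ds p)) hy hzc hz
      (hbd (-2)) (hbd 1) (hbd (-3)))
    congr 1
    ring

/-- **the recursion for the constant coefficients** -/
theorem pow_rec {U : Finset ℕ} {v : ℕ → ℝ} (hv : ∀ p, 0 ≤ v p) (hv1 : ∀ p ∈ U, v p ≤ 1) {M : ℝ}
    (hM : ∑ p ∈ U, v p ^ 2 ≤ M) {C c : ℝ} {y z : ℕ → ℂ} (h : YC U v C c y z) (k : ℕ) :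
    ‖(cp c U y z ^ (k + 2)).coeff 0 - (c * (cp c U y z ^ (k + 1)).coeff 0 + ((k + 1 : ℕ) : ℂ) *
      ((2 * ∑ p ∈ U, ‖y p‖ ^ 2 : ℝ) : ℂ) * (cp c U y z ^ k).coeff 0)‖ ≤
      (2 * C * ((k + 1) * (5 * C * Dc C M k)) + 2 * C * Dc C M (k + 1)) * ∑ p ∈ U, v p ^ 4 := by
  set A := cp c U y z with hA
  have hC : 0 ≤ C := (abs_nonneg _).trans h.1
  have hM0 : 0 ≤ M := (Finset.sum_nonneg fun p _ => sq_nonneg _).trans hM
  set g := A ^ (k + 1) with hg
  set D := Dc C M k with hD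
  set D' := Dc C M (k + 1) with hD'
  have hD0 : 0 ≤ D := Dc_nonneg hC hM0 k
  have hgD : ∀ e, ‖g.coeff e‖ ≤ D' * mw v e := fun e =>
    (((cp_le c U y z).pow (k + 1)) e).trans ((le_abs_self _).trans ((bp_pow_dom hv hM h (k + 1)) e).1)
  have hs : ∀ (m : ℤ) (y : ℕ → ℂ), (sgC U m y * g).coeff 0 =
      ∑ p ∈ U, y p * g.coeff ((-m) • ds p) := by
    intro m y
    unfold sgC
    rw [Finset.sum_mul, AddMonoidAlgebra.coeff_sum, Finsupp.finsetSum_apply]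
    refine Finset.sum_congr rfl fun p _ => ?_
    rw [AddMonoidAlgebra.coeff_single_mul_apply, add_zero, neg_smul]
  -- the exact formula
  have hE : (A ^ (k + 2)).coeff 0 = c * g.coeff 0 -
      ((∑ p ∈ U, y p * g.coeff (-ds p) + ∑ p ∈ U, (starRingEnd ℂ) (y p) * g.coeff (ds p)) +
      (∑ p ∈ U, z p * g.coeff ((-2 : ℤ) • ds p) +
        ∑ p ∈ U, (starRingEnd ℂ) (z p) * g.coeff ((2 : ℤ) • ds p))) := by
    have e0 : A ^ (k + 2) = A * g := by rw [hg, ← pow_succ']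
    rw [e0, hA]
    unfold cp
    rw [sub_mul, add_mul, add_mul, add_mul, AddMonoidAlgebra.coeff_sub, Finsupp.sub_apply,
      AddMonoidAlgebra.coeff_add, Finsupp.add_apply, AddMonoidAlgebra.coeff_add, Finsupp.add_apply,
      AddMonoidAlgebra.coeff_add, Finsupp.add_apply, hs, hs, hs, hs,
      AddMonoidAlgebra.coeff_single_mul_apply, neg_zero, add_zero]
    have e1 : ∀ p, ((-1 : ℤ)) • ds p = -ds p := fun p => neg_one_smul _ _
    have e2 : ∀ p, (-(-1) : ℤ) • ds p = ds p := fun p => by rw [neg_neg, one_smul]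
    have e3 : ∀ p, (-(-2) : ℤ) • ds p = (2 : ℤ) • ds p := fun p => by rw [neg_neg]
    simp only [e1, e2, e3]
  -- the squares
  have hsq : ∀ (m : ℤ) (z : ℕ → ℂ), m.natAbs = 2 → (∀ p ∈ U, ‖z p‖ ≤ C * v p ^ 2) →
      ‖∑ p ∈ U, z p * g.coeff (m • ds p)‖ ≤ C * D' * ∑ p ∈ U, v p ^ 4 := by
    intro m z hm hz
    refine (norm_sum_le _ _).trans ?_
    rw [Finset.mul_sum]
    refine Finset.sum_le_sum fun p hp => ?_
    rw [norm_mul]
    have h1 := hz p hp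
    have h2 := hgD (m • ds p)
    rw [zds_mw, hm] at h2
    have := hv p
    calc ‖z p‖ * ‖g.coeff (m • ds p)‖ ≤ (C * v p ^ 2) * (D' * v p ^ 2) :=
          mul_le_mul h1 h2 (norm_nonneg _) (by positivity)
      _ = _ := by ring
  -- the primes
  have hpr : ∀ (s : G → G) (y y' : ℕ → ℂ), (∀ p ∈ U, ‖y p‖ ≤ C * v p) →
      (∀ p ∈ U, ‖g.coeff (s (ds p)) + ((k + 1 : ℕ) : ℂ) * (y' p * (A ^ k).coeff 0)‖ ≤
        (k + 1) * (5 * C * D) * v p ^ 3) →
      ‖∑ p ∈ U, y p * g.coeff (s (ds p)) + ((k + 1 : ℕ) : ℂ) * (∑ p ∈ U, y p * y' p) *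
        (A ^ k).coeff 0‖ ≤ C * ((k + 1) * (5 * C * D)) * ∑ p ∈ U, v p ^ 4 := by
    intro s y y' hy hs
    have e1 : ∑ p ∈ U, y p * g.coeff (s (ds p)) + ((k + 1 : ℕ) : ℂ) * (∑ p ∈ U, y p * y' p) *
        (A ^ k).coeff 0 = ∑ p ∈ U, y p * (g.coeff (s (ds p)) +
          ((k + 1 : ℕ) : ℂ) * (y' p * (A ^ k).coeff 0)) := by
      simp only [mul_add, Finset.sum_add_distrib]
      congr 1
      rw [Finset.mul_sum, Finset.sum_mul]
      exact Finset.sum_congr rfl fun p _ => by ring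
    rw [e1]
    refine (norm_sum_le _ _).trans ?_
    rw [Finset.mul_sum]
    refine Finset.sum_le_sum fun p hp => ?_
    rw [norm_mul]
    have := hv p
    calc ‖y p‖ * ‖_‖ ≤ (C * v p) * ((k + 1) * (5 * C * D) * v p ^ 3) :=
          mul_le_mul (hy p hp) (hs p hp) (norm_nonneg _) (by positivity)
      _ = _ := by ring
  have hyc : ∀ p ∈ U, ‖(starRingEnd ℂ) (y p)‖ ≤ C * v p := fun p hp => by
    rw [RCLike.norm_conj]; exact h.2.1 p hp
  have hzc : ∀ p ∈ U, ‖(starRingEnd ℂ) (z p)‖ ≤ C * v p ^ 2 := fun p hp => by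
    rw [RCLike.norm_conj]; exact h.2.2 p hp
  have c1 := hpr (fun e => e) (fun p => (starRingEnd ℂ) (y p)) y hyc
    (fun p hp => (pow_ds hv hM h k hp (hv1 p hp)).1)
  have c2 := hpr (fun e => -e) y (fun p => (starRingEnd ℂ) (y p)) h.2.1
    (fun p hp => (pow_ds hv hM h k hp (hv1 p hp)).2)
  have c3 := hsq (-2) z rfl h.2.2
  have c4 := hsq 2 (fun p => (starRingEnd ℂ) (z p)) rfl hzc
  have e7 : ∑ p ∈ U, (starRingEnd ℂ) (y p) * y p = ((∑ p ∈ U, ‖y p‖ ^ 2 : ℝ) : ℂ) := by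
    push_cast
    exact Finset.sum_congr rfl fun p _ => by rw [Complex.conj_mul']
  have e8 : ∑ p ∈ U, y p * (starRingEnd ℂ) (y p) = ((∑ p ∈ U, ‖y p‖ ^ 2 : ℝ) : ℂ) := by
    push_cast
    exact Finset.sum_congr rfl fun p _ => by rw [Complex.mul_conj']
  rw [e7] at c1
  rw [e8] at c2
  rw [hE]
  set Q := ((∑ p ∈ U, ‖y p‖ ^ 2 : ℝ) : ℂ)
  set A1 := ∑ p ∈ U, y p * g.coeff (-ds p)
  set A2 := ∑ p ∈ U, (starRingEnd ℂ) (y p) * g.coeff (ds p)
  set A3 := ∑ p ∈ U, z p * g.coeff ((-2 : ℤ) • ds p)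
  set A4 := ∑ p ∈ U, (starRingEnd ℂ) (z p) * g.coeff ((2 : ℤ) • ds p)
  set V := ∑ p ∈ U, v p ^ 4
  set a0 := (A ^ k).coeff 0
  have e6 : (c : ℂ) * g.coeff 0 - ((A1 + A2) + (A3 + A4)) - (c * g.coeff 0 +
      ((k + 1 : ℕ) : ℂ) * ((2 * ∑ p ∈ U, ‖y p‖ ^ 2 : ℝ) : ℂ) * a0) =
      -((A2 + ((k + 1 : ℕ) : ℂ) * Q * a0) + (A1 + ((k + 1 : ℕ) : ℂ) * Q * a0) + A3 + A4) := by
    have : ((2 * ∑ p ∈ U, ‖y p‖ ^ 2 : ℝ) : ℂ) = 2 * Q := by
      rw [Complex.ofReal_mul, Complex.ofReal_ofNat]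
    rw [this]
    ring
  rw [e6, norm_neg]
  calc ‖(A2 + ((k + 1 : ℕ) : ℂ) * Q * a0) + (A1 + ((k + 1 : ℕ) : ℂ) * Q * a0) + A3 + A4‖ ≤
      ‖A2 + ((k + 1 : ℕ) : ℂ) * Q * a0‖ + ‖A1 + ((k + 1 : ℕ) : ℂ) * Q * a0‖ + ‖A3‖ + ‖A4‖ := by
        refine (norm_add_le _ _).trans (add_le_add ((norm_add_le _ _).trans
          (add_le_add (norm_add_le _ _) le_rfl)) le_rfl)
    _ ≤ C * ((k + 1) * (5 * C * D)) * V + C * ((k + 1) * (5 * C * D)) * V + C * D' * V +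
        C * D' * V := add_le_add (add_le_add (add_le_add c1 c2) c3) c4
    _ = _ := by ring

/-- the moments of a normal variable with mean `c` and variance `κ` -/
noncomputable def gm (c κ : ℝ) : ℕ → ℝ
  | 0 => 1
  | 1 => c
  | k + 2 => c * gm c κ (k + 1) + (k + 1) * κ * gm c κ k

lemma pow_one_coeff (U : Finset ℕ) (c : ℝ) (y z : ℕ → ℂ) :
    (cp c U y z).coeff 0 = c := by
  classical
  have hs : ∀ (m : ℤ) (y : ℕ → ℂ), m ≠ 0 → (sgC U m y).coeff 0 = 0 := by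
    intro m y hm
    unfold sgC
    rw [AddMonoidAlgebra.coeff_sum, Finsupp.finsetSum_apply]
    refine Finset.sum_eq_zero fun p _ => ?_
    rw [AddMonoidAlgebra.coeff_single, Finsupp.single_apply, if_neg]
    intro h
    have := zds_support hm p
    rw [h] at this
    simp at this
  unfold cp
  rw [AddMonoidAlgebra.coeff_sub, Finsupp.sub_apply, AddMonoidAlgebra.coeff_add, Finsupp.add_apply,
    AddMonoidAlgebra.coeff_add, Finsupp.add_apply, AddMonoidAlgebra.coeff_add, Finsupp.add_apply,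
    hs 1 _ (by decide), hs (-1) _ (by decide), hs 2 _ (by decide), hs (-2) _ (by decide),
    AddMonoidAlgebra.coeff_single, Finsupp.single_apply, if_pos rfl]
  ring

/-- **the limit of the constant coefficients** -/
theorem pow_lim (U : ℝ → Finset ℕ) (v : ℝ → ℕ → ℝ) (c : ℝ → ℝ) (y z : ℝ → ℕ → ℂ)
    {M C T0 c0 κ : ℝ}
    (hv : ∀ T, T0 ≤ T → (∀ p, 0 ≤ v T p) ∧ (∀ p ∈ U T, v T p ≤ 1) ∧
      (∑ p ∈ U T, v T p ^ 2 ≤ M) ∧ YC (U T) (v T) C (c T) (y T) (z T))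
    (h4 : Tendsto (fun T => ∑ p ∈ U T, v T p ^ 4) atTop (𝓝 0))
    (hc : Tendsto c atTop (𝓝 c0))
    (hκ : Tendsto (fun T => 2 * ∑ p ∈ U T, ‖y T p‖ ^ 2) atTop (𝓝 κ)) (k : ℕ) :
    Tendsto (fun T => (cp (c T) (U T) (y T) (z T) ^ k).coeff 0) atTop (𝓝 (gm c0 κ k : ℂ)) := by
  induction k using Nat.twoStepInduction with
  | zero =>
    have : ∀ T, (cp (c T) (U T) (y T) (z T) ^ 0).coeff 0 = 1 := by
      intro T
      rw [pow_zero, AddMonoidAlgebra.one_def, AddMonoidAlgebra.coeff_single]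
      simp
    simp only [this, gm]
    simp
  | one =>
    have : ∀ T, (cp (c T) (U T) (y T) (z T) ^ 1).coeff 0 = (c T : ℂ) := by
      intro T
      rw [pow_one]
      exact pow_one_coeff _ _ _ _
    simp only [this, gm]
    exact (Complex.continuous_ofReal.tendsto c0).comp hc
  | more k ih1 ih2 =>
    have hc' : Tendsto (fun T => (c T : ℂ)) atTop (𝓝 (c0 : ℂ)) :=
      (Complex.continuous_ofReal.tendsto c0).comp hc
    have hκ' : Tendsto (fun T => ((2 * ∑ p ∈ U T, ‖y T p‖ ^ 2 : ℝ) : ℂ)) atTop (𝓝 (κ : ℂ)) :=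
      (Complex.continuous_ofReal.tendsto κ).comp hκ
    have h1 : Tendsto (fun T => (c T : ℂ) * (cp (c T) (U T) (y T) (z T) ^ (k + 1)).coeff 0 +
        ((k + 1 : ℕ) : ℂ) * ((2 * ∑ p ∈ U T, ‖y T p‖ ^ 2 : ℝ) : ℂ) *
          (cp (c T) (U T) (y T) (z T) ^ k).coeff 0) atTop (𝓝 (gm c0 κ (k + 2) : ℂ)) := by
      have e : (gm c0 κ (k + 2) : ℂ) = (c0 : ℂ) * (gm c0 κ (k + 1) : ℂ) +
          ((k + 1 : ℕ) : ℂ) * (κ : ℂ) * (gm c0 κ k : ℂ) := by
        rw [gm]; push_cast; ring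
      rw [e]
      exact (hc'.mul ih2).add ((hκ'.const_mul _).mul ih1)
    have h2 : Tendsto (fun T => (2 * C * ((k + 1) * (5 * C * Dc C M k)) + 2 * C * Dc C M (k + 1)) *
        ∑ p ∈ U T, v T p ^ 4) atTop (𝓝 0) := by
      have := h4.const_mul (2 * C * ((k + 1) * (5 * C * Dc C M k)) + 2 * C * Dc C M (k + 1))
      rwa [mul_zero] at this
    have h3 : Tendsto (fun T => (cp (c T) (U T) (y T) (z T) ^ (k + 2)).coeff 0 -
        ((c T : ℂ) * (cp (c T) (U T) (y T) (z T) ^ (k + 1)).coeff 0 +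
        ((k + 1 : ℕ) : ℂ) * ((2 * ∑ p ∈ U T, ‖y T p‖ ^ 2 : ℝ) : ℂ) *
          (cp (c T) (U T) (y T) (z T) ^ k).coeff 0)) atTop (𝓝 0) := by
      apply squeeze_zero_norm' _ h2
      filter_upwards [eventually_ge_atTop T0] with T hT
      obtain ⟨g1, g2, g3, g4⟩ := hv T hT
      exact pow_rec g1 g2 g3 g4 k
    have h6 := h3.add h1
    rw [zero_add] at h6
    exact h6.congr fun T => by ring

end Pool.Agent.H478.CW
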