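import Pool.Agent.H478.CW19

/-! The central limit theorem for sums of consecutive gaps: all indices. -/

open Finset Complex MeasureTheory Filter Topology ProbabilityTheory
open scoped RealInnerProductSpace BoundedContinuousFunction

namespace Pool.Agent.H478.CW

open SP (ZZ mu RHs)
open SG (ord NZ zmult ZS)
open Pool.Agent.TH800.LD (ZZf)
open TH800.MS (dlt)

/-- dyadic summation -/
lemma dyadic {f : ℝ → ℝ} {T0 a M : ℝ} (hT0 : 1 ≤ T0) (ha : 0 ≤ a)
    (hf : ∀ T, T0 ≤ T → |f (2 * T) - f T| ≤ a * (T * Real.log T))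
    (hM : ∀ x, T0 ≤ x → x ≤ 2 * T0 → |f x| ≤ M) :
    ∀ x, T0 ≤ x → |f x| ≤ M + a * (x * Real.log x) := by
  have key : ∀ k : ℕ, ∀ x, T0 ≤ x → x ≤ 2 ^ (k + 1) * T0 → |f x| ≤ M + a * (x * Real.log x) := by
    intro k
    induction k with
    | zero =>
      intro x h1 h2
      have h3 := hM x h1 (by simpa using h2)
      have h4 : 0 ≤ Real.log x := Real.log_nonneg (by linarith)
      have h5 : 0 ≤ a * (x * Real.log x) := by
        have : 0 ≤ x := by linarith
        positivity
      linarith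
    | succ k ih =>
      intro x h1 h2
      by_cases h3 : x ≤ 2 ^ (k + 1) * T0
      · exact ih x h1 h3
      · push Not at h3
        have h4 : 2 * T0 ≤ x := by
          have : (2 : ℝ) ≤ 2 ^ (k + 1) := by
            calc (2 : ℝ) = 2 ^ 1 := by norm_num
              _ ≤ 2 ^ (k + 1) := pow_le_pow_right₀ (by norm_num) (by omega)
          nlinarith
        have h5 := ih (x / 2) (by linarith) (by
          rw [pow_succ] at h2
          linarith)
        have h6 := hf (x / 2) (by linarith)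
        rw [mul_div_cancel₀ x (by norm_num : (2 : ℝ) ≠ 0)] at h6
        have h7 : |f x| ≤ |f x - f (x / 2)| + |f (x / 2)| := by
          have := abs_add_le (f x - f (x / 2)) (f (x / 2))
          rwa [sub_add_cancel] at this
        have h8 : Real.log (x / 2) ≤ Real.log x := Real.log_le_log (by linarith) (by linarith)
        have h9 : x / 2 * Real.log (x / 2) ≤ x / 2 * Real.log x := by
          apply mul_le_mul_of_nonneg_left h8; linarith
        have h10 : a * (x / 2 * Real.log (x / 2)) ≤ a * (x / 2 * Real.log x) :=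
          mul_le_mul_of_nonneg_left h9 ha
        nlinarith
  intro x hx
  obtain ⟨k, hk⟩ := pow_unbounded_of_one_lt (x / T0) (by norm_num : (1 : ℝ) < 2)
  apply key k x hx
  have hT : 0 < T0 := by linarith
  rw [div_lt_iff₀ hT] at hk
  have : (2 : ℝ) ^ k ≤ 2 ^ (k + 1) := pow_le_pow_right₀ (by norm_num) (by omega)
  nlinarith

/-- **the central limit theorem for sums of consecutive gaps** -/
theorem all_law (RH : RiemannHypothesis) {m : ℕ} (y : Fin m → ℝ) {ε : ℝ} (hε : 0 < ε) :
    ∀ᶠ r : ℕ in atTop, ∀ᶠ N : ℕ in atTop,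
    |(({n : ℕ | 1 ≤ n ∧ n ≤ N ∧ Ev y r n}.ncard : ℕ) : ℝ) / N - FF y| ≤ ε := by
  classical
  have hpi := Real.pi_pos
  obtain ⟨C, hC, hrc⟩ := range_count RH
  filter_upwards [block_law RH y (by positivity : 0 < ε / 64)] with r hr
  obtain ⟨T1, hT1⟩ := eventually_atTop.1 (hr.and (eventually_ge_atTop 10))
  set T0 := max T1 10 with hT0
  have hT010 : 10 ≤ T0 := le_max_right _ _
  set f : ℝ → ℝ := fun x => ∑ n ∈ Finset.Ioc 0 (NZ x), (idc (Ev y r) n - FF y) with hf
  have hFF0 : 0 ≤ FF y := measureReal_nonneg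
  have hFF1 : FF y ≤ 1 := measureReal_le_one
  have hterm : ∀ n, |idc (Ev y r) n - FF y| ≤ 1 := by
    intro n
    have h1 := idc_nonneg (Ev y r) n
    have h2 := idc_le (Ev y r) n
    rw [abs_le]; constructor <;> linarith
  have hstep : ∀ T, T0 ≤ T → |f (2 * T) - f T| ≤ ε / 64 * (T * Real.log T) := by
    intro T hT
    have hTp : 10 ≤ T := hT010.trans hT
    have h1 := (hT1 T ((le_max_left _ _).trans hT)).1
    have hmono : NZ T ≤ NZ (2 * T) := SG.NZ_mono (by linarith)
    have e : f (2 * T) - f T = ∑ n ∈ Ib T, idc (Ev y r) n - FF y * (Ib T).card := by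
      simp only [hf]
      have h2 : ∑ n ∈ Finset.Ioc 0 (NZ (2 * T)), (idc (Ev y r) n - FF y) =
          ∑ n ∈ Finset.Ioc 0 (NZ T), (idc (Ev y r) n - FF y) +
          ∑ n ∈ Finset.Ioc (NZ T) (NZ (2 * T)), (idc (Ev y r) n - FF y) :=
        (Finset.sum_Ioc_consecutive _ (Nat.zero_le _) hmono).symm
      rw [h2, add_sub_cancel_left]
      show ∑ n ∈ Ib T, (idc (Ev y r) n - FF y) = _
      rw [Finset.sum_sub_distrib, Finset.sum_const, nsmul_eq_mul]
      ring
    rw [e]; exact h1
  have hbd : ∀ x, |f x| ≤ NZ x := by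
    intro x
    simp only [hf]
    refine (Finset.abs_sum_le_sum_abs _ _).trans ?_
    refine (Finset.sum_le_sum fun n _ => hterm n).trans ?_
    rw [Finset.sum_const, Nat.card_Ioc, nsmul_eq_mul, mul_one, Nat.sub_zero]
  have hall := dyadic (M := NZ (2 * T0)) (by linarith) (by positivity : 0 ≤ ε / 64) hstep
    (fun x _ hx2 => (hbd x).trans (by exact_mod_cast SG.NZ_mono hx2))
  -- large N
  have h1 : ∀ᶠ N : ℕ in atTop, T0 + 10 ≤ ord N :=
    SG.ord_tendsto.eventually_ge_atTop _
  have h2 : ∀ᶠ N : ℕ in atTop, ord (N + 1) * Real.log (ord (N + 1)) / (2 * Real.pi) ≤ (1 + 1) * N :=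
    W249.TCF.T_le 1 one_pos le_rfl
  have h3 : ∀ᶠ N : ℕ in atTop, (NZ (2 * T0) : ℝ) ≤ ε / 4 * N := by
    have : Tendsto (fun N : ℕ => ε / 4 * (N : ℝ)) atTop atTop :=
      tendsto_natCast_atTop_atTop.const_mul_atTop (by positivity)
    exact this.eventually_ge_atTop _
  have h4 : ∀ᶠ N : ℕ in atTop, 16 * C * (2 * Real.pi) * 2 / ε ≤ ord N :=
    SG.ord_tendsto.eventually_ge_atTop _
  filter_upwards [h1, h2, h3, h4, eventually_ge_atTop 1] with N g1 g2 g3 g4 hN1
  have hN0 : (0 : ℝ) < N := by exact_mod_cast hN1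
  set x := ord N with hx
  have hx10 : 20 ≤ x := by linarith
  have hlx : 0 < Real.log x := Real.log_pos (by linarith)
  have hxx : x * Real.log x ≤ 2 * Real.pi * (2 * N) := by
    have m1 : x ≤ ord (N + 1) := SG.ord_mono hN1 (Nat.le_succ N)
    have m2 : Real.log x ≤ Real.log (ord (N + 1)) := Real.log_le_log (by linarith) m1
    have m3 : x * Real.log x ≤ ord (N + 1) * Real.log (ord (N + 1)) :=
      mul_le_mul m1 m2 hlx.le (by linarith)
    rw [div_le_iff₀ (by positivity)] at g2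
    linarith
  have hfx := hall x (by linarith)
  -- the indices with the same ordinate
  have hNle : N ≤ NZ x := SG.le_NZ_ord hN1
  have hNup : (NZ x : ℝ) - N ≤ 2 * C * Real.log x := by
    have m1 := NZ_ord_le RH hN1
    have m2 : (NZ x : ℝ) ≤ N + mu (zo (ord N)) := by exact_mod_cast m1
    have m3 : (mu (zo (ord N)) : ℝ) ≤ 1 * (C * Real.log (x / (3 / 2))) := by
      have hT : 10 ≤ x / (3 / 2) := by linarith
      have hTo : 1 ≤ x / (3 / 2) := by linarith
      have n1 := hrc (x / (3 / 2)) hT 1 (x - 1)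
      have n2 := block_sum RH hTo (fun s => JI (x - 1) ((1 : ℕ) : ℝ) s.im)
      simp only [zo_im] at n2
      rw [← n2] at n1
      have hmem : zo x ∈ (ZZf hTo).toFinset := by
        have hI : N ∈ Ib (x / (3 / 2)) := mem_Ib.2 ⟨hN1, by rw [← hx]; linarith, by rw [← hx]; linarith⟩
        obtain ⟨q1, q2, q3⟩ := mem_Ib.1 hI
        have hb : N ∈ W200.HW.Ix (2 * (x / (3 / 2))) := W200.HW.mem_Ix.2 ⟨q1, q3⟩
        obtain ⟨p0, p1, p2, p3, p4⟩ := W200.HW.zero_at RH hb
        rw [Set.Finite.mem_toFinset]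
        exact ⟨p1, p2, by rw [zo_im]; exact q2, by rw [zo_im]; exact q3, p0⟩
      have n3 := Finset.single_le_sum (f := fun s : ℂ => (mu s : ℝ) * JI (x - 1) ((1 : ℕ) : ℝ) s.im)
        (fun i _ => mul_nonneg (Nat.cast_nonneg _) (JI_nonneg _ _ _)) hmem
      have n4 : JI (x - 1) ((1 : ℕ) : ℝ) (zo x).im = 1 := by
        unfold JI
        rw [if_pos ⟨by rw [zo_im]; linarith, by rw [zo_im]; push_cast; linarith⟩]
      simp only [n4, mul_one] at n3
      have n5 := n3.trans n1
      push_cast at n5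
      exact n5
    have m4 : Real.log (x / (3 / 2)) ≤ Real.log x := Real.log_le_log (by linarith) (by linarith)
    have m5 : 1 * (C * Real.log (x / (3 / 2))) ≤ 2 * C * Real.log x := by nlinarith
    linarith
  -- the sum over n ≤ N
  set A : ℝ := (({n : ℕ | 1 ≤ n ∧ n ≤ N ∧ Ev y r n}.ncard : ℕ) : ℝ) with hA
  have hAeq : A = ∑ n ∈ Finset.Ioc 0 N, idc (Ev y r) n := by
    have e : {n : ℕ | 1 ≤ n ∧ n ≤ N ∧ Ev y r n} =
        (((Finset.Ioc 0 N).filter (fun n => Ev y r n) : Finset ℕ) : Set ℕ) := by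
      ext n
      rw [Finset.coe_filter]
      simp only [Set.mem_ofPred_eq, Finset.mem_Ioc]
      constructor
      · rintro ⟨a, b, c⟩; exact ⟨⟨by omega, b⟩, c⟩
      · rintro ⟨⟨a, b⟩, c⟩; exact ⟨by omega, b, c⟩
    rw [hA, e, Set.ncard_coe_finset, Finset.card_filter]
    push_cast
    refine Finset.sum_congr rfl fun n _ => ?_
    unfold idc
    rfl
  have hdiff : |(A - FF y * N) - f x| ≤ (NZ x : ℝ) - N := by
    have e1 : A - FF y * N = ∑ n ∈ Finset.Ioc 0 N, (idc (Ev y r) n - FF y) := by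
      rw [hAeq, Finset.sum_sub_distrib, Finset.sum_const, Nat.card_Ioc, nsmul_eq_mul, Nat.sub_zero]
      ring
    have e2 : f x = ∑ n ∈ Finset.Ioc 0 N, (idc (Ev y r) n - FF y) +
        ∑ n ∈ Finset.Ioc N (NZ x), (idc (Ev y r) n - FF y) :=
      (Finset.sum_Ioc_consecutive _ (Nat.zero_le _) hNle).symm
    rw [e1, e2]
    have e3 : ∑ n ∈ Finset.Ioc 0 N, (idc (Ev y r) n - FF y) -
        (∑ n ∈ Finset.Ioc 0 N, (idc (Ev y r) n - FF y) +
        ∑ n ∈ Finset.Ioc N (NZ x), (idc (Ev y r) n - FF y)) =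
        -∑ n ∈ Finset.Ioc N (NZ x), (idc (Ev y r) n - FF y) := by ring
    rw [e3, abs_neg]
    refine (Finset.abs_sum_le_sum_abs _ _).trans ?_
    refine (Finset.sum_le_sum fun n _ => hterm n).trans ?_
    rw [Finset.sum_const, Nat.card_Ioc, nsmul_eq_mul, mul_one, Nat.cast_sub hNle]
  have hlogx : 2 * C * Real.log x ≤ ε / 4 * N := by
    rw [div_le_iff₀ hε] at g4
    have k1 : 2 * C * Real.log x * x ≤ 2 * C * (2 * Real.pi * (2 * N)) := by
      calc 2 * C * Real.log x * x = 2 * C * (x * Real.log x) := by ring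
        _ ≤ _ := by gcongr
    have k2 : 2 * C * (2 * Real.pi * (2 * N)) ≤ (ε / 4 * N) * x := by
      nlinarith
    exact le_of_mul_le_mul_right (k1.trans k2) (by linarith)
  have hfin : |A - FF y * N| ≤ ε * N := by
    have k1 : |A - FF y * N| ≤ |(A - FF y * N) - f x| + |f x| := by
      have := abs_add_le ((A - FF y * N) - f x) (f x)
      rwa [sub_add_cancel] at this
    have k2 : ε / 64 * (x * Real.log x) ≤ ε / 64 * (2 * Real.pi * (2 * N)) := by gcongr
    have k3 : ε / 64 * (2 * Real.pi * (2 * N)) ≤ ε / 4 * N := by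
      have hpi4 := Real.pi_le_four
      have : 2 * Real.pi * (2 * N) ≤ 16 * N := by nlinarith
      calc ε / 64 * (2 * Real.pi * (2 * N)) ≤ ε / 64 * (16 * N) := by gcongr
        _ = _ := by ring
    linarith
  have e : A / N - FF y = (A - FF y * N) / N := by field_simp
  rw [e, abs_div, abs_of_pos hN0, div_le_iff₀ hN0]
  exact hfin

end Pool.Agent.H478.CW
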