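import Pool.Agent.H478.CW2
import Pool.Graph.R_pool_sql_team_seeded_b0a926ef.R321.FC17

/-! Shifted linear statistics: prime polynomials, covariances, law of large numbers. -/

open Finset Complex MeasureTheory Filter Topology

namespace Pool.Agent.H478.CW

open Pool.Agent.R321.FA
open SP (ZZ mu Mk RHs)
open H370.A2 (RR evp evp_zero)

/-! ### evaluation -/

lemma evC_sg (t : ℝ) (U : Finset ℕ) (m : ℤ) (y : ℕ → ℂ) : evC t (sgC U m y) =
    ∑ p ∈ U, y p * cexp (((t * (m * Real.log p) : ℝ) : ℂ) * I) := by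
  unfold sgC
  rw [map_sum]
  refine Finset.sum_congr rfl fun p _ => ?_
  rw [evC_single, zds_fr]

/-- the value -/
lemma evC_cp (t c : ℝ) (U : Finset ℕ) (y z : ℕ → ℂ) : evC t (cp c U y z) =
    (c : ℂ) - ((∑ p ∈ U, y p * cexp (((t * (((1 : ℤ) : ℝ) * Real.log p) : ℝ) : ℂ) * I) +
      ∑ p ∈ U, (starRingEnd ℂ) (y p) * cexp (((t * (((-1 : ℤ) : ℝ) * Real.log p) : ℝ) : ℂ) * I)) +
      (∑ p ∈ U, z p * cexp (((t * (((2 : ℤ) : ℝ) * Real.log p) : ℝ) : ℂ) * I) +
      ∑ p ∈ U, (starRingEnd ℂ) (z p) *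
        cexp (((t * (((-2 : ℤ) : ℝ) * Real.log p) : ℝ) : ℂ) * I))) := by
  unfold cp
  rw [map_sub, map_add, map_add, map_add, evC_sg, evC_sg, evC_sg, evC_sg, evC_single, fr_zero,
    mul_zero, ofReal_zero, zero_mul, Complex.exp_zero, mul_one]

/-- the phase -/
noncomputable def ph (θ : ℝ) (p : ℕ) : ℂ := cexp (((θ * Real.log p : ℝ) : ℂ) * I)

lemma ph_norm (θ : ℝ) (p : ℕ) : ‖ph θ p‖ = 1 := by
  unfold ph
  exact Complex.norm_exp_ofReal_mul_I _

lemma ph_conj (θ : ℝ) (p : ℕ) : (starRingEnd ℂ) (ph θ p) = ph (-θ) p := by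
  unfold ph
  rw [← Complex.exp_conj]
  congr 1
  rw [map_mul, Complex.conj_ofReal, Complex.conj_I]
  push_cast
  ring

/-- linear combinations of shifted real prime polynomials -/
lemma evC_lin {m : ℕ} (t : ℝ) (U : Finset ℕ) (u s c : Fin m → ℝ) (y z : Fin m → ℕ → ℝ) (d : ℝ) :
    evC t (cp (∑ j, u j * c j - d) U (fun p => ∑ j, ((u j * y j p : ℝ) : ℂ) * ph (s j) p)
      (fun p => ∑ j, ((u j * z j p : ℝ) : ℂ) * ph (2 * s j) p)) =
    ∑ j, (u j : ℂ) * ev (t + s j) (rp (c j) U (y j) (z j)) - d := by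
  have h1 : ∀ j, ev (t + s j) (rp (c j) U (y j) (z j)) =
      (c j : ℂ) - ((∑ p ∈ U, (y j p : ℂ) * cexp ((((t + s j) * (((1 : ℤ) : ℝ) * Real.log p) : ℝ) : ℂ) * I) +
      ∑ p ∈ U, (y j p : ℂ) * cexp ((((t + s j) * (((-1 : ℤ) : ℝ) * Real.log p) : ℝ) : ℂ) * I)) +
      (∑ p ∈ U, (z j p : ℂ) * cexp ((((t + s j) * (((2 : ℤ) : ℝ) * Real.log p) : ℝ) : ℂ) * I) +
      ∑ p ∈ U, (z j p : ℂ) * cexp ((((t + s j) * (((-2 : ℤ) : ℝ) * Real.log p) : ℝ) : ℂ) * I))) := by
    intro j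
    unfold rp
    rw [map_sub, map_add, map_add, map_add, ev_sg, ev_sg, ev_sg, ev_sg, ev_single, fr_zero,
      mul_zero, ofReal_zero, zero_mul, Complex.exp_zero, mul_one]
  have h2 : ∀ (w : Fin m → ℕ → ℝ) (n : ℤ) (b : ℝ), (n : ℝ) = b →
      ∑ p ∈ U, (∑ j, ((u j * w j p : ℝ) : ℂ) * ph (b * s j) p) *
        cexp (((t * ((n : ℝ) * Real.log p) : ℝ) : ℂ) * I) =
      ∑ j, (u j : ℂ) * ∑ p ∈ U, (w j p : ℂ) *
        cexp ((((t + s j) * ((n : ℝ) * Real.log p) : ℝ) : ℂ) * I) := by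
    intro w n b hb
    simp only [Finset.sum_mul, Finset.mul_sum]
    rw [Finset.sum_comm]
    refine Finset.sum_congr rfl fun j _ => Finset.sum_congr rfl fun p _ => ?_
    unfold ph
    have e : cexp (((b * s j * Real.log p : ℝ) : ℂ) * I) *
        cexp (((t * ((n : ℝ) * Real.log p) : ℝ) : ℂ) * I) =
        cexp ((((t + s j) * ((n : ℝ) * Real.log p) : ℝ) : ℂ) * I) := by
      rw [← Complex.exp_add]
      congr 1
      rw [← hb]
      push_cast
      ring
    rw [← e]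
    push_cast
    ring
  have h3 : ∀ (w : Fin m → ℕ → ℝ) (b : ℝ) (p : ℕ),
      (starRingEnd ℂ) (∑ j, ((u j * w j p : ℝ) : ℂ) * ph (b * s j) p) =
      ∑ j, ((u j * w j p : ℝ) : ℂ) * ph ((-b) * s j) p := by
    intro w b p
    rw [map_sum]
    refine Finset.sum_congr rfl fun j _ => ?_
    rw [map_mul, Complex.conj_ofReal, ph_conj]
    congr 2
    ring
  rw [evC_cp]
  have e1 := h2 y 1 1 (by norm_num)
  have e2 := h2 y (-1) (-1) (by norm_num)
  have e3 := h2 z 2 2 (by norm_num)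
  have e4 := h2 z (-2) (-2) (by norm_num)
  simp only [one_mul] at e1
  have e5 : ∀ p, (starRingEnd ℂ) (∑ j, ((u j * y j p : ℝ) : ℂ) * ph (s j) p) =
      ∑ j, ((u j * y j p : ℝ) : ℂ) * ph ((-1) * s j) p := by
    intro p
    have := h3 y 1 p
    simp only [one_mul] at this
    exact this
  simp only [e5, h3]
  rw [e1, e2, e3, e4]
  simp only [h1]
  simp only [mul_sub, mul_add, Finset.sum_sub_distrib, Finset.sum_add_distrib]
  push_cast
  ring

/-! ### the covariances -/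

/-- **the limit of the covariances**, with a Lipschitz multiplier -/
theorem cov_lim' {ψ φ τ : ℝ → ℝ} {μ μ' ν ν' K B K' : ℝ} (hψ : Continuous ψ) (hφ : Continuous φ)
    (hμν : μ < ν) (hν1 : ν ≤ 1) (hμν' : μ' < ν') (hν1' : ν' ≤ 1)
    (hz : ∀ x, μ ≤ |x| → ψ x = 0) (hz' : ∀ x, μ' ≤ |x| → φ x = 0)
    (hK : ∀ x y, |evp ψ x - evp ψ y| ≤ K * |x - y|) (hK' : ∀ x y, |evp φ x - evp φ y| ≤ K * |x - y|)
    (hB : ∀ x, |evp ψ x| ≤ B) (hB' : ∀ x, |evp φ x| ≤ B)
    (hτ : ∀ x y, |τ x - τ y| ≤ K' * |x - y|) (hτ1 : ∀ x, |τ x| ≤ 1) :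
    Tendsto (fun T : ℝ => 2 * ∑ p ∈ PN ⌊T⌋₊, yy ψ ν (Real.log T) p * yy φ ν' (Real.log T) p *
      τ (Real.log p / Real.log T)) atTop
      (𝓝 (2 * ∫ u in (0 : ℝ)..1, u * evp ψ u * evp φ u * τ u)) := by
  have hB0 : 0 ≤ B := (abs_nonneg _).trans (hB 0)
  have hK0 : 0 ≤ K := by
    have h1 := hK 1 0
    have h2 := abs_nonneg (evp ψ 1 - evp ψ 0)
    simp at h1
    linarith
  have hK'0 : 0 ≤ K' := by
    have h1 := hτ 1 0
    have h2 := abs_nonneg (τ 1 - τ 0)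
    simp at h1
    linarith
  set H0 : ℝ → ℝ := fun u => u * evp ψ u * evp φ u with hH0
  set H : ℝ → ℝ := fun u => u * evp ψ u * evp φ u * τ u with hH
  have hzero : ∀ u : ℝ, 1 ≤ |u| → evp ψ u = 0 := fun u hu => evp_zero hz (by linarith)
  have hH0b : ∀ u, |H0 u| ≤ B * B := by
    intro u
    by_cases h : 1 ≤ |u|
    · simp only [hH0]; rw [hzero u h]; simp; positivity
    · push Not at h
      simp only [hH0]
      rw [abs_mul, abs_mul]
      calc |u| * |evp ψ u| * |evp φ u| ≤ 1 * B * B :=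
            mul_le_mul (mul_le_mul h.le (hB u) (abs_nonneg _) (by norm_num)) (hB' u)
              (abs_nonneg _) (by positivity)
        _ = _ := by ring
  have hlip : LipschitzWith ((B * B + 2 * K * B) + B * B * K').toNNReal
      (fun u => ((H u : ℝ) : ℂ)) := by
    refine LipschitzWith.of_dist_le_mul fun x y => ?_
    rw [dist_eq_norm, ← Complex.ofReal_sub, Complex.norm_real, Real.norm_eq_abs,
      Real.coe_toNNReal _ (by positivity), Real.dist_eq]
    have e : H x - H y = (H0 x - H0 y) * τ x + H0 y * (τ x - τ y) := by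
      simp only [hH, hH0]; ring
    rw [e]
    refine (abs_add_le _ _).trans ?_
    rw [abs_mul, abs_mul, add_mul]
    have g1 := lip3 hK hK' hB hB' hzero x y
    have g2 : |H0 x - H0 y| * |τ x| ≤ (B * B + 2 * K * B) * |x - y| * 1 :=
      mul_le_mul g1 (hτ1 x) (abs_nonneg _) (by positivity)
    have g3 : |H0 y| * |τ x - τ y| ≤ (B * B) * (K' * |x - y|) :=
      mul_le_mul (hH0b y) (hτ x y) (abs_nonneg _) (by positivity)
    linarith
  obtain ⟨C, hC, hm⟩ := SP.mert (fun u => ((H u : ℝ) : ℂ)) _ hlip (fun u hu => by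
    show ((H u : ℝ) : ℂ) = 0
    simp only [hH]
    rw [hzero u (hu.trans (le_abs_self u))]
    simp)
  rw [tendsto_iff_norm_sub_tendsto_zero]
  have hlim : Tendsto (fun T : ℝ => (2 * (2 * B * (2 * K + B) * 7) + 2 * C) / Real.log T) atTop
      (𝓝 0) := Real.tendsto_log_atTop.const_div_atTop _
  apply squeeze_zero' (Eventually.of_forall fun T => norm_nonneg _) _ hlim
  filter_upwards [eventually_ge_atTop 10] with T hT
  have hT0 : 0 < T := by linarith
  have h1 := hm T hT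
  set L := Real.log T with hL
  have hL1 : 1 ≤ L := by
    rw [hL, Real.le_log_iff_exp_le hT0]
    have := Real.exp_one_lt_d9
    linarith
  have hL0 : 0 < L := by linarith
  have hNT : (⌊T⌋₊ : ℝ) ≤ T := Nat.floor_le hT0.le
  have hN1 : 1 ≤ ⌊T⌋₊ := by
    rw [Nat.one_le_floor_iff]
    linarith
  have hPN : (Finset.Icc 1 ⌊T⌋₊).filter Nat.Prime = PN ⌊T⌋₊ := rfl
  -- Mertens
  have e1 : |(1 / L) * ∑ p ∈ PN ⌊T⌋₊, (Real.log p / p) * H (Real.log p / L) -
      ∫ u in (0 : ℝ)..1, H u| ≤ C / L := by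
    rw [hPN] at h1
    have e2 : ((1 / L : ℝ) : ℂ) * ∑ p ∈ PN ⌊T⌋₊, ((Real.log p / p : ℝ) : ℂ) *
        ((H (Real.log p / L) : ℝ) : ℂ) - ∫ u in (0 : ℝ)..1, ((H u : ℝ) : ℂ) =
        (((1 / L) * ∑ p ∈ PN ⌊T⌋₊, (Real.log p / p) * H (Real.log p / L) -
          ∫ u in (0 : ℝ)..1, H u : ℝ) : ℂ) := by
      rw [intervalIntegral.integral_ofReal]
      push_cast
      rfl
    rw [e2, Complex.norm_real, Real.norm_eq_abs] at h1
    exact h1
  -- the coefficients
  have e3 : ∀ (ψ : ℝ → ℝ) (μ ν : ℝ), Continuous ψ → μ < ν → ν ≤ 1 → (∀ x, μ ≤ |x| → ψ x = 0) →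
      (∀ x y, |evp ψ x - evp ψ y| ≤ K * |x - y|) → (∀ x, |evp ψ x| ≤ B) → ∀ p ∈ PN ⌊T⌋₊,
      ∃ b : ℝ, yy ψ ν L p = Real.log p * (p : ℝ) ^ (-(1 / 2) : ℝ) * b ∧ |b| ≤ B / L ∧
        |b - wv ψ L (Real.log p)| ≤ 2 * K / L ^ 2 + B / (L * Real.log p) := by
    intro ψ μ ν hψ hμν hν1 hz hK hB p hp
    have hpp := mem_PN.1 hp
    have hlp : 0 < Real.log p := Real.log_pos (by exact_mod_cast hpp.1.one_lt)
    unfold yy
    split_ifs with h
    · exact ⟨_, rfl, btr_le hB hT p, btr_approx hψ hz (by linarith) hK hB hL0 hlp⟩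
    · refine ⟨0, by ring, by rw [abs_zero]; positivity, ?_⟩
      push Not at h
      rw [wv_zero hz hL0 (by nlinarith), sub_zero, abs_zero]
      positivity
  have e4 : ∀ p ∈ PN ⌊T⌋₊, |yy ψ ν L p * yy φ ν' L p * τ (Real.log p / L) -
      (1 / L) * ((Real.log p / p) * H (Real.log p / L))| ≤
      (2 * B * (2 * K + B)) / L ^ 2 * (Real.log p / p) := by
    intro p hp
    have hpp := mem_PN.1 hp
    have hp0 : (0 : ℝ) < p := by exact_mod_cast hpp.1.pos
    have hlp : 0 < Real.log p := Real.log_pos (by exact_mod_cast hpp.1.one_lt)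
    have hlpL : Real.log p ≤ L := by
      apply Real.log_le_log hp0
      exact le_trans (by exact_mod_cast hpp.2) hNT
    obtain ⟨b, hb1, hb2, hb3⟩ := e3 ψ μ ν hψ hμν hν1 hz hK hB p hp
    obtain ⟨b', hb1', hb2', hb3'⟩ := e3 φ μ' ν' hφ hμν' hν1' hz' hK' hB' p hp
    have hpow : (p : ℝ) ^ (-(1 / 2) : ℝ) * (p : ℝ) ^ (-(1 / 2) : ℝ) = (p : ℝ)⁻¹ := by
      rw [← Real.rpow_add hp0]
      norm_num
      exact Real.rpow_neg_one _
    have e5 : yy ψ ν L p * yy φ ν' L p * τ (Real.log p / L) =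
        Real.log p ^ 2 * (p : ℝ)⁻¹ * (b * b' * τ (Real.log p / L)) := by
      rw [hb1, hb1']
      calc _ = Real.log p ^ 2 * ((p : ℝ) ^ (-(1 / 2) : ℝ) * (p : ℝ) ^ (-(1 / 2) : ℝ)) *
            (b * b' * τ (Real.log p / L)) := by
            ring
        _ = _ := by rw [hpow]
    have e6 : (1 / L) * ((Real.log p / p) * H (Real.log p / L)) =
        Real.log p ^ 2 * (p : ℝ)⁻¹ * (wv ψ L (Real.log p) * wv φ L (Real.log p) *
          τ (Real.log p / L)) := by
      simp only [hH]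
      unfold wv
      field_simp
    rw [e5, e6, ← mul_sub, abs_mul, abs_of_nonneg (by positivity : 0 ≤ Real.log p ^ 2 * (p : ℝ)⁻¹)]
    have e7 : |b * b' * τ (Real.log p / L) - wv ψ L (Real.log p) * wv φ L (Real.log p) *
        τ (Real.log p / L)| ≤
        2 * ((B / L) * (2 * K / L ^ 2 + B / (L * Real.log p))) := by
      have e8 : b * b' * τ (Real.log p / L) - wv ψ L (Real.log p) * wv φ L (Real.log p) *
          τ (Real.log p / L) =
          ((b - wv ψ L (Real.log p)) * b' + wv ψ L (Real.log p) * (b' - wv φ L (Real.log p))) *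
            τ (Real.log p / L) := by
        ring
      rw [e8, abs_mul]
      have g0 : |(b - wv ψ L (Real.log p)) * b' + wv ψ L (Real.log p) * (b' - wv φ L (Real.log p))| ≤
          2 * ((B / L) * (2 * K / L ^ 2 + B / (L * Real.log p))) := by
        refine (abs_add_le _ _).trans ?_
        rw [abs_mul, abs_mul]
        have g1 := mul_le_mul hb3 hb2' (abs_nonneg _) (by positivity)
        have g2 := mul_le_mul (wv_le hB hL0 (Real.log p)) hb3' (abs_nonneg _) (by positivity)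
        linarith
      calc _ ≤ 2 * ((B / L) * (2 * K / L ^ 2 + B / (L * Real.log p))) * 1 :=
            mul_le_mul g0 (hτ1 _) (abs_nonneg _) (by positivity)
        _ = _ := mul_one _
    calc Real.log p ^ 2 * (p : ℝ)⁻¹ * |b * b' * τ (Real.log p / L) -
        wv ψ L (Real.log p) * wv φ L (Real.log p) * τ (Real.log p / L)| ≤
        Real.log p ^ 2 * (p : ℝ)⁻¹ * (2 * ((B / L) * (2 * K / L ^ 2 + B / (L * Real.log p)))) := by
          gcongr
      _ = Real.log p / p * (2 * B / L ^ 2 * (2 * K * (Real.log p / L) + B)) := by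
          field_simp
      _ ≤ Real.log p / p * (2 * B / L ^ 2 * (2 * K * 1 + B)) := by
          have : Real.log p / L ≤ 1 := by rw [div_le_one hL0]; exact hlpL
          gcongr
      _ = _ := by ring
  have e9 : |∑ p ∈ PN ⌊T⌋₊, yy ψ ν L p * yy φ ν' L p * τ (Real.log p / L) -
      (1 / L) * ∑ p ∈ PN ⌊T⌋₊, (Real.log p / p) * H (Real.log p / L)| ≤
      2 * B * (2 * K + B) * 7 / L := by
    rw [Finset.mul_sum, ← Finset.sum_sub_distrib]
    refine (Finset.abs_sum_le_sum_abs _ _).trans ((Finset.sum_le_sum e4).trans ?_)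
    rw [← Finset.mul_sum]
    have g1 := mert_all ⌊T⌋₊ hN1
    have g2 : Real.log ⌊T⌋₊ ≤ L := Real.log_le_log (by exact_mod_cast hN1) hNT
    calc _ ≤ (2 * B * (2 * K + B)) / L ^ 2 * (7 * L) := by
          apply mul_le_mul_of_nonneg_left _ (by positivity)
          linarith
      _ = _ := by field_simp
  rw [Real.norm_eq_abs]
  set S := ∑ p ∈ PN ⌊T⌋₊, yy ψ ν L p * yy φ ν' L p * τ (Real.log p / L) with hS
  set S' := (1 / L) * ∑ p ∈ PN ⌊T⌋₊, (Real.log p / p) * H (Real.log p / L) with hS'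
  have e10 : 2 * S - 2 * ∫ u in (0 : ℝ)..1, u * evp ψ u * evp φ u * τ u =
      2 * (S - S') + 2 * (S' - ∫ u in (0 : ℝ)..1, H u) := by simp only [hH]; ring
  rw [e10]
  refine (abs_add_le _ _).trans ?_
  rw [abs_mul, abs_mul, abs_two]
  calc 2 * |S - S'| + 2 * |S' - ∫ u in (0 : ℝ)..1, H u| ≤
      2 * (2 * B * (2 * K + B) * 7 / L) + 2 * (C / L) := by gcongr
    _ = _ := by ring

/-- the square of the norm of a combination of phases -/
lemma norm_comb {m : ℕ} (a : Fin m → ℝ) (θ : Fin m → ℝ) (x : ℝ) :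
    ‖∑ j, (a j : ℂ) * cexp (((θ j * x : ℝ) : ℂ) * I)‖ ^ 2 =
      ∑ i, ∑ j, a i * a j * Real.cos ((θ i - θ j) * x) := by
  have h1 : (((‖∑ j, (a j : ℂ) * cexp (((θ j * x : ℝ) : ℂ) * I)‖ ^ 2 : ℝ)) : ℂ) =
      ∑ i, ∑ j, (a i : ℂ) * (a j : ℂ) * cexp ((((θ i - θ j) * x : ℝ) : ℂ) * I) := by
    push_cast
    rw [← Complex.mul_conj', map_sum, Finset.sum_mul_sum]
    refine Finset.sum_congr rfl fun i _ => Finset.sum_congr rfl fun j _ => ?_
    rw [map_mul, Complex.conj_ofReal, ← Complex.exp_conj, map_mul, Complex.conj_I]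
    have : (starRingEnd ℂ) (((θ j : ℂ)) * (x : ℂ)) = (θ j : ℂ) * (x : ℂ) := by
      rw [map_mul, Complex.conj_ofReal, Complex.conj_ofReal]
    rw [this]
    have e : cexp (((θ i : ℂ) - θ j) * x * I) = cexp ((θ i : ℂ) * x * I) *
        cexp ((θ j : ℂ) * x * (-I)) := by
      rw [← Complex.exp_add]; congr 1; ring
    rw [e]
    ring
  have h2 : ‖∑ j, (a j : ℂ) * cexp (((θ j * x : ℝ) : ℂ) * I)‖ ^ 2 =
      (∑ i, ∑ j, (a i : ℂ) * (a j : ℂ) * cexp ((((θ i - θ j) * x : ℝ) : ℂ) * I)).re := by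
    rw [← h1, Complex.ofReal_re]
  rw [h2, Complex.re_sum]
  refine Finset.sum_congr rfl fun i _ => ?_
  rw [Complex.re_sum]
  refine Finset.sum_congr rfl fun j _ => ?_
  rw [← Complex.ofReal_mul, Complex.re_ofReal_mul, Complex.exp_ofReal_mul_I_re]

end Pool.Agent.H478.CW
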