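import Pool.Agent.H478.CW3

/-! Moments of linear combinations of shifted linear statistics in almost all windows. -/

open Finset Complex MeasureTheory Filter Topology

namespace Pool.Agent.H478.CW

open Pool.Agent.R321.FA
open SP (ZZ mu Mk RHs)
open H370.A2 (RR evp evp_zero)

/-- families of test functions with a common band -/
structure TT {m : ℕ} (ψ : Fin m → ℝ → ℝ) (μ : ℝ) : Prop where
  cont : ∀ j, Continuous (ψ j)
  zero : ∀ j x, μ ≤ |x| → ψ j x = 0
  lip : ∃ K : ℝ, ∀ j x y, |evp (ψ j) x - evp (ψ j) y| ≤ K * |x - y|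
  bd : ∃ B : ℝ, 1 ≤ B ∧ ∀ j x, |evp (ψ j) x| ≤ B
  dec : ∃ G : ℝ, 1 ≤ G ∧ ∀ j, Dk G (RR (ψ j) μ)

/-- the centred combination -/
noncomputable def AU {m : ℕ} (ψ : Fin m → ℝ → ℝ) (μ : ℝ) (a u : Fin m → ℝ) (T t : ℝ) : ℝ :=
  ∑ j, u j * XX (ψ j) μ T (t + 2 * Real.pi * a j / Real.log T) - ∑ j, u j * ψ j 0

/-- the variance -/
noncomputable def KA {m : ℕ} (ψ : Fin m → ℝ → ℝ) (a u : Fin m → ℝ) : ℝ :=
  ∑ i, ∑ j, u i * u j * (2 * ∫ v in (0 : ℝ)..1, v * evp (ψ i) v * evp (ψ j) v *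
    Real.cos (2 * Real.pi * (a i - a j) * v))

/-- the majorant -/
noncomputable def MS {m : ℕ} (a : Fin m → ℝ) (T t : ℝ) : ℝ :=
  1 + ∑ j, Mp T (t + 2 * Real.pi * a j / Real.log T)

/-- the polynomial -/
noncomputable def AT {m : ℕ} (ψ : Fin m → ℝ → ℝ) (ν : ℝ) (a u : Fin m → ℝ) (T : ℝ) : AC :=
  cp (∑ j, u j * cc (ψ j) (Real.log T) - ∑ j, u j * ψ j 0) (PN ⌊T⌋₊)
    (fun p => ∑ j, ((u j * yy (ψ j) ν (Real.log T) p : ℝ) : ℂ) *
      ph (2 * Real.pi * a j / Real.log T) p)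
    (fun p => ∑ j, ((u j * zz (ψ j) ν (Real.log T) p : ℝ) : ℂ) *
      ph (2 * (2 * Real.pi * a j / Real.log T)) p)

section

variable {m : ℕ} {ψ : Fin m → ℝ → ℝ} {μ : ℝ}

lemma AU_cont (h : TT ψ μ) (a u : Fin m → ℝ) {T : ℝ} (hT : 1 ≤ T) :
    Continuous (AU ψ μ a u T) := by
  unfold AU
  refine Continuous.sub (continuous_finsetSum _ fun j _ => ?_) continuous_const
  exact continuous_const.mul ((XX_cont (h.cont j) μ hT).comp (by fun_prop))

lemma MS_cont (a : Fin m → ℝ) {T : ℝ} (hT : 1 ≤ T) : Continuous (MS a T) := by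
  unfold MS
  refine continuous_const.add (continuous_finsetSum _ fun j _ => ?_)
  exact (Mp_cont hT).comp (by fun_prop)

lemma MS_ge (a : Fin m → ℝ) {T : ℝ} (hT : 1 ≤ T) (t : ℝ) : 1 ≤ MS a T t := by
  unfold MS
  have : 0 ≤ ∑ j, Mp T (t + 2 * Real.pi * a j / Real.log T) :=
    Finset.sum_nonneg fun j _ => Mp_nonneg hT _
  linarith

lemma MS_pow_le (a : Fin m → ℝ) {T : ℝ} (hT : 1 ≤ T) (t : ℝ) (k : ℕ) :
    MS a T t ^ k ≤ (m + 1 : ℝ) ^ k *
      (1 + ∑ j, (1 + Mp T (t + 2 * Real.pi * a j / Real.log T)) ^ k) := by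
  set b : Fin m → ℝ := fun j => Mp T (t + 2 * Real.pi * a j / Real.log T) with hb
  have hb0 : ∀ j, 0 ≤ b j := fun j => Mp_nonneg hT _
  have e : MS a T t = 1 + ∑ j, b j := rfl
  rw [e]
  have hs : ∀ j, (1 + b j) ^ k ≤ ∑ j, (1 + b j) ^ k := fun j =>
    Finset.single_le_sum (f := fun j => (1 + b j) ^ k)
      (fun i _ => by have := hb0 i; positivity) (Finset.mem_univ j)
  rcases Nat.eq_zero_or_pos m with hm | hm
  · subst hm
    simp
  · have : Nonempty (Fin m) := ⟨⟨0, hm⟩⟩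
    obtain ⟨i, hi⟩ := Finite.exists_max b
    have hm0 : (0 : ℝ) ≤ m := Nat.cast_nonneg m
    have h1 : ∑ j, b j ≤ m * b i := by
      calc ∑ j, b j ≤ ∑ _j : Fin m, b i := Finset.sum_le_sum fun j _ => hi j
        _ = _ := by rw [Finset.sum_const, Finset.card_univ, Fintype.card_fin, nsmul_eq_mul]
    have hbi := hb0 i
    have h2 : 1 + ∑ j, b j ≤ (m + 1) * (1 + b i) := by nlinarith
    have h3 : 0 ≤ 1 + ∑ j, b j := by
      have : 0 ≤ ∑ j, b j := Finset.sum_nonneg fun j _ => hb0 j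
      linarith
    calc (1 + ∑ j, b j) ^ k ≤ ((m + 1) * (1 + b i)) ^ k := pow_le_pow_left₀ h3 h2 k
      _ = (m + 1 : ℝ) ^ k * (1 + b i) ^ k := mul_pow _ _ _
      _ ≤ (m + 1 : ℝ) ^ k * (1 + ∑ j, (1 + b j) ^ k) := by
          apply mul_le_mul_of_nonneg_left _ (by positivity)
          linarith [hs i]

lemma small_shift (x : ℝ) : ∃ T0 : ℝ, 10 ≤ T0 ∧ ∀ T : ℝ, T0 ≤ T →
    |2 * Real.pi * x / Real.log T| ≤ 1 := by
  have h : Tendsto (fun T : ℝ => |2 * Real.pi * x| / Real.log T) atTop (𝓝 0) :=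
    Real.tendsto_log_atTop.const_div_atTop _
  obtain ⟨T1, hT1⟩ := eventually_atTop.1 (h.eventually (gt_mem_nhds (by norm_num : (0:ℝ) < 1)))
  refine ⟨max T1 10, le_max_right _ _, fun T hT => ?_⟩
  have h1 := hT1 T ((le_max_left _ _).trans hT)
  have h2 : 0 < Real.log T := Real.log_pos (by linarith [(le_max_right T1 10).trans hT])
  rw [abs_div, abs_of_pos h2]
  exact h1.le

lemma small_shifts (a : Fin m → ℝ) : ∃ T0 : ℝ, 10 ≤ T0 ∧ ∀ T : ℝ, T0 ≤ T →
    ∀ j, |2 * Real.pi * a j / Real.log T| ≤ 1 := by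
  choose T1 h1 h2 using fun j => small_shift (a j)
  refine ⟨∑ j, T1 j + 10, ?_, fun T hT j => h2 j T ?_⟩
  · have : 0 ≤ ∑ j, T1 j := Finset.sum_nonneg fun i _ => by linarith [h1 i]
    linarith
  · have := Finset.single_le_sum (f := T1) (fun i _ => (by linarith [h1 i] : 0 ≤ T1 i))
      (Finset.mem_univ j)
    linarith

lemma log_one_le {T : ℝ} (hT : 10 ≤ T) : 1 ≤ Real.log T := by
  rw [Real.le_log_iff_exp_le (by linarith)]
  have := Real.exp_one_lt_d9
  linarith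

/-- moments of the majorant -/
theorem MS_mom (hRH : RHs) (a : Fin m → ℝ) (k : ℕ) : ∃ C T0 : ℝ, 0 < C ∧ 10 ≤ T0 ∧
    ∀ T : ℝ, T0 ≤ T → ∀ V1 V2 : ℝ, V1 ≤ V2 → T + 6 * Real.log T ≤ V1 →
    V2 ≤ 2 * T - 6 * Real.log T → ∫ t in V1..V2, MS a T t ^ k ≤ C * T := by
  obtain ⟨C, T1, hC, hT1, hM⟩ := Mp_mom hRH k
  obtain ⟨T2, hT2, hs⟩ := small_shifts a
  refine ⟨(m + 1 : ℝ) ^ k * (1 + m * C), max T1 T2, by positivity, hT1.trans (le_max_left _ _), ?_⟩
  intro T hT V1 V2 hV h1 h2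
  have hT1' := (le_max_left T1 T2).trans hT
  have hT10 := hT1.trans hT1'
  have hTo : 1 ≤ T := by linarith
  have hL1 := log_one_le hT10
  have hsT := hs T ((le_max_right T1 T2).trans hT)
  have hc : ∀ j, Continuous fun t => (1 + Mp T (t + 2 * Real.pi * a j / Real.log T)) ^ k :=
    fun j => (continuous_const.add ((Mp_cont hTo).comp (by fun_prop))).pow k
  calc ∫ t in V1..V2, MS a T t ^ k ≤ ∫ t in V1..V2, (m + 1 : ℝ) ^ k *
        (1 + ∑ j, (1 + Mp T (t + 2 * Real.pi * a j / Real.log T)) ^ k) := by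
        apply intervalIntegral.integral_mono_on hV
        · exact ((MS_cont a hTo).pow k).intervalIntegrable _ _
        · apply Continuous.intervalIntegrable
          exact continuous_const.mul (continuous_const.add
            (continuous_finsetSum _ fun j _ => hc j))
        · intro t _
          exact MS_pow_le a hTo t k
    _ = (m + 1 : ℝ) ^ k * ((V2 - V1) + ∑ j, ∫ t in V1..V2,
        (1 + Mp T (t + 2 * Real.pi * a j / Real.log T)) ^ k) := by
        rw [intervalIntegral.integral_const_mul, intervalIntegral.integral_add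
          (continuous_const.intervalIntegrable _ _)
          ((continuous_finsetSum _ fun j _ => hc j).intervalIntegrable _ _),
          intervalIntegral.integral_finsetSum fun j _ => (hc j).intervalIntegrable _ _]
        simp
    _ ≤ (m + 1 : ℝ) ^ k * (T + ∑ _j : Fin m, C * T) := by
        apply mul_le_mul_of_nonneg_left _ (by positivity)
        refine add_le_add (by linarith) (Finset.sum_le_sum fun j _ => ?_)
        rw [intervalIntegral.integral_comp_add_right (fun t => (1 + Mp T t) ^ k)]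
        obtain ⟨s1, s2⟩ := abs_le.1 (hsT j)
        apply hM T hT1' <;> linarith
    _ = _ := by
        rw [Finset.sum_const, Finset.card_univ, Fintype.card_fin, nsmul_eq_mul]
        ring

/-- the statistics are polynomials -/
theorem approx (hRH : RHs) (h : TT ψ μ) (hμ : 0 < μ) {ν : ℝ} (hμν : μ < ν) (hν1 : ν ≤ 1)
    (a u : Fin m → ℝ) : ∃ C T0 : ℝ, 0 ≤ C ∧ 10 ≤ T0 ∧ ∀ T : ℝ, T0 ≤ T → ∀ t : ℝ,
    T + 2 * Real.log T ≤ t → t ≤ 2 * T - 2 * Real.log T →
    ‖((AU ψ μ a u T t : ℝ) : ℂ) - evC t (AT ψ ν a u T)‖ ≤ C / Real.log T := by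
  obtain ⟨B, hB1, hB⟩ := h.bd
  choose C T1 hC hT1 hlin using fun j => lin_rp hRH (h.cont j) hμ hμν hν1 (h.zero j) (hB j)
  obtain ⟨T2, hT2, hs⟩ := small_shifts a
  have hT1s : ∀ j, T1 j ≤ ∑ j, T1 j := fun j =>
    Finset.single_le_sum (f := T1) (fun i _ => (by linarith [hT1 i] : 0 ≤ T1 i)) (Finset.mem_univ j)
  refine ⟨∑ j, |u j| * C j, T2 + ∑ j, T1 j, ?_, ?_, ?_⟩
  · exact Finset.sum_nonneg fun j _ => mul_nonneg (abs_nonneg _) (hC j)
  · have : 0 ≤ ∑ j, T1 j := Finset.sum_nonneg fun i _ => by linarith [hT1 i]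
    linarith
  intro T hT t ht1 ht2
  have hsum0 : 0 ≤ ∑ j, T1 j := Finset.sum_nonneg fun i _ => by linarith [hT1 i]
  have hTT2 : T2 ≤ T := by linarith
  have hL1 := log_one_le (hT2.trans hTT2)
  have hL0 : 0 < Real.log T := by linarith
  unfold AT
  rw [evC_lin]
  unfold AU
  have e : ((∑ j, u j * XX (ψ j) μ T (t + 2 * Real.pi * a j / Real.log T) - ∑ j, u j * ψ j 0 : ℝ) : ℂ) -
      (∑ j, (u j : ℂ) * ev (t + 2 * Real.pi * a j / Real.log T) (rp (cc (ψ j) (Real.log T))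
        (PN ⌊T⌋₊) (yy (ψ j) ν (Real.log T)) (zz (ψ j) ν (Real.log T))) -
        ((∑ j, u j * ψ j 0 : ℝ) : ℂ)) =
      ∑ j, (u j : ℂ) * (((XX (ψ j) μ T (t + 2 * Real.pi * a j / Real.log T) : ℝ) : ℂ) -
        ev (t + 2 * Real.pi * a j / Real.log T) (rp (cc (ψ j) (Real.log T))
        (PN ⌊T⌋₊) (yy (ψ j) ν (Real.log T)) (zz (ψ j) ν (Real.log T)))) := by
    simp only [mul_sub, Finset.sum_sub_distrib]
    push_cast
    ring
  have hgoal : ‖∑ j, (u j : ℂ) * (((XX (ψ j) μ T (t + 2 * Real.pi * a j / Real.log T) : ℝ) : ℂ) -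
        ev (t + 2 * Real.pi * a j / Real.log T) (rp (cc (ψ j) (Real.log T))
        (PN ⌊T⌋₊) (yy (ψ j) ν (Real.log T)) (zz (ψ j) ν (Real.log T))))‖ ≤
      (∑ j, |u j| * C j) / Real.log T := by
    refine (norm_sum_le _ _).trans ?_
    rw [Finset.sum_div]
    refine Finset.sum_le_sum fun j _ => ?_
    obtain ⟨s1, s2⟩ := abs_le.1 (hs T hTT2 j)
    rw [norm_mul, Complex.norm_real, Real.norm_eq_abs,
      show |u j| * C j / Real.log T = |u j| * (C j / Real.log T) from by ring]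
    apply mul_le_mul_of_nonneg_left _ (abs_nonneg _)
    apply hlin j T (by linarith [hT1s j]) <;> linarith
  rw [← e] at hgoal
  exact hgoal

/-- the data of the polynomial are dominated -/
lemma AT_YC {B : ℝ} (hB1 : 1 ≤ B) (hB : ∀ j x, |evp (ψ j) x| ≤ B) (ν : ℝ) (a u : Fin m → ℝ)
    {T : ℝ} (hT : 10 ≤ T) :
    YC (PN ⌊T⌋₊) (vp 1 (Real.log T)) (3 * B * ∑ j, |u j|)
      (∑ j, u j * cc (ψ j) (Real.log T) - ∑ j, u j * ψ j 0)
      (fun p => ∑ j, ((u j * yy (ψ j) ν (Real.log T) p : ℝ) : ℂ) *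
        ph (2 * Real.pi * a j / Real.log T) p)
      (fun p => ∑ j, ((u j * zz (ψ j) ν (Real.log T) p : ℝ) : ℂ) *
        ph (2 * (2 * Real.pi * a j / Real.log T)) p) := by
  have hY := fun j => lin_YB (hB j) ν hT
  have hv : ∀ p, 0 ≤ vp 1 (Real.log T) p := fun p => vp_nonneg (by norm_num) _ p
  have hB0 : 0 ≤ B := by linarith
  have hev : ∀ j, evp (ψ j) 0 = ψ j 0 := fun j => by unfold evp; simp
  refine ⟨?_, fun p hp => ?_, fun p hp => ?_⟩
  · rw [← Finset.sum_sub_distrib, Finset.mul_sum]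
    refine (Finset.abs_sum_le_sum_abs _ _).trans (Finset.sum_le_sum fun j _ => ?_)
    rw [← mul_sub, abs_mul, mul_comm]
    apply mul_le_mul_of_nonneg_right _ (abs_nonneg _)
    have h1 := (hY j).1
    have h2 := hB j 0
    rw [hev j] at h2
    exact (abs_sub _ _).trans (by linarith)
  · refine (norm_sum_le _ _).trans ?_
    rw [Finset.mul_sum, Finset.sum_mul]
    refine Finset.sum_le_sum fun j _ => ?_
    rw [norm_mul, ph_norm, mul_one, Complex.norm_real, Real.norm_eq_abs, abs_mul]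
    have h1 := (hY j).2.1 p hp
    calc |u j| * |yy (ψ j) ν (Real.log T) p| ≤ |u j| * (2 * B * vp 1 (Real.log T) p) :=
          mul_le_mul_of_nonneg_left h1 (abs_nonneg _)
      _ ≤ |u j| * (3 * B * vp 1 (Real.log T) p) := by
          apply mul_le_mul_of_nonneg_left _ (abs_nonneg _)
          apply mul_le_mul_of_nonneg_right _ (hv p)
          linarith
      _ = _ := by ring
  · refine (norm_sum_le _ _).trans ?_
    rw [Finset.mul_sum, Finset.sum_mul]
    refine Finset.sum_le_sum fun j _ => ?_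
    rw [norm_mul, ph_norm, mul_one, Complex.norm_real, Real.norm_eq_abs, abs_mul]
    have h1 := (hY j).2.2 p hp
    calc |u j| * |zz (ψ j) ν (Real.log T) p| ≤ |u j| * (2 * B * vp 1 (Real.log T) p ^ 2) :=
          mul_le_mul_of_nonneg_left h1 (abs_nonneg _)
      _ ≤ |u j| * (3 * B * vp 1 (Real.log T) p ^ 2) := by
          apply mul_le_mul_of_nonneg_left _ (abs_nonneg _)
          apply mul_le_mul_of_nonneg_right _ (sq_nonneg _)
          linarith
      _ = _ := by ring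

lemma basic_vp {T : ℝ} (hT : 10 ≤ T) : (∀ p, 0 ≤ vp 1 (Real.log T) p) ∧
    (∀ p ∈ PN ⌊T⌋₊, vp 1 (Real.log T) p ≤ 1) ∧
    (∑ p ∈ PN ⌊T⌋₊, vp 1 (Real.log T) p ^ 2 ≤ 7) := by
  have hTp : 0 < T := by linarith
  have hL1 := log_one_le hT
  have hN1 : 1 ≤ ⌊T⌋₊ := by
    rw [Nat.one_le_floor_iff]
    linarith
  have hNT : (⌊T⌋₊ : ℝ) ≤ T := Nat.floor_le hTp.le
  have hNL : Real.log ⌊T⌋₊ ≤ Real.log T := Real.log_le_log (by exact_mod_cast hN1) hNT
  refine ⟨fun p => vp_nonneg (by norm_num) _ p, fun p _ => vp_le (by norm_num) hL1 p, ?_⟩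
  have := vp_total (K := 1) hL1 _ hN1 hNL
  linarith

lemma v4_lim : Tendsto (fun T : ℝ => ∑ p ∈ PN ⌊T⌋₊, vp 1 (Real.log T) p ^ 4) atTop (𝓝 0) := by
  have h7 : Tendsto (fun T : ℝ => 7 / Real.log T) atTop (𝓝 0) :=
    Real.tendsto_log_atTop.const_div_atTop _
  apply squeeze_zero' _ _ h7
  · exact Eventually.of_forall fun T => Finset.sum_nonneg fun p _ => by
      have : vp 1 (Real.log T) p ^ 4 = (vp 1 (Real.log T) p ^ 2) ^ 2 := by ring
      rw [this]; positivity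
  · filter_upwards [eventually_ge_atTop 10] with T hT
    obtain ⟨b1, b2, b3⟩ := basic_vp hT
    have hL0 : 0 < Real.log T := Real.log_pos (by linarith)
    calc ∑ p ∈ PN ⌊T⌋₊, vp 1 (Real.log T) p ^ 4 ≤
        ∑ p ∈ PN ⌊T⌋₊, 1 / Real.log T * vp 1 (Real.log T) p ^ 2 := by
          refine Finset.sum_le_sum fun p hp => ?_
          have hpp := mem_PN.1 hp
          have hp0 : (0 : ℝ) < p := by exact_mod_cast hpp.1.pos
          have h1 : vp 1 (Real.log T) p ^ 2 ≤ 1 / Real.log T := by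
            rw [vp_sq hL0]
            have h2 : Real.log p / p ≤ 1 := by
              rw [div_le_one hp0]
              exact (Real.log_le_sub_one_of_pos hp0).trans (by linarith)
            calc (1 : ℝ) ^ 2 / Real.log T * (Real.log p / p) ≤ 1 ^ 2 / Real.log T * 1 :=
                  mul_le_mul_of_nonneg_left h2 (by positivity)
              _ = _ := by ring
          have e : vp 1 (Real.log T) p ^ 4 =
              vp 1 (Real.log T) p ^ 2 * vp 1 (Real.log T) p ^ 2 := by ring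
          rw [e]
          exact mul_le_mul_of_nonneg_right h1 (sq_nonneg _)
      _ = 1 / Real.log T * ∑ p ∈ PN ⌊T⌋₊, vp 1 (Real.log T) p ^ 2 := by rw [Finset.mul_sum]
      _ ≤ 1 / Real.log T * 7 := by gcongr
      _ = _ := by ring

/-- the variance of the polynomial -/
theorem var_lim (h : TT ψ μ) {ν : ℝ} (hμν : μ < ν) (hν1 : ν ≤ 1) (a u : Fin m → ℝ) :
    Tendsto (fun T : ℝ => 2 * ∑ p ∈ PN ⌊T⌋₊, ‖∑ j, ((u j * yy (ψ j) ν (Real.log T) p : ℝ) : ℂ) *
        ph (2 * Real.pi * a j / Real.log T) p‖ ^ 2) atTop (𝓝 (KA ψ a u)) := by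
  obtain ⟨K, hK⟩ := h.lip
  obtain ⟨B, hB1, hB⟩ := h.bd
  have e : ∀ T : ℝ, 2 * ∑ p ∈ PN ⌊T⌋₊, ‖∑ j, ((u j * yy (ψ j) ν (Real.log T) p : ℝ) : ℂ) *
        ph (2 * Real.pi * a j / Real.log T) p‖ ^ 2 = ∑ i, ∑ j, u i * u j *
        (2 * ∑ p ∈ PN ⌊T⌋₊, yy (ψ i) ν (Real.log T) p * yy (ψ j) ν (Real.log T) p *
          Real.cos (2 * Real.pi * (a i - a j) * (Real.log p / Real.log T))) := by
    intro T
    have h1 : ∀ p : ℕ, ‖∑ j, ((u j * yy (ψ j) ν (Real.log T) p : ℝ) : ℂ) *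
        ph (2 * Real.pi * a j / Real.log T) p‖ ^ 2 = ∑ i, ∑ j,
        (u i * yy (ψ i) ν (Real.log T) p) * (u j * yy (ψ j) ν (Real.log T) p) *
          Real.cos ((2 * Real.pi * a i - 2 * Real.pi * a j) * (Real.log p / Real.log T)) := by
      intro p
      rw [← norm_comb]
      congr 2
      refine Finset.sum_congr rfl fun j _ => ?_
      unfold ph
      congr 3
      push_cast
      ring
    simp only [h1]
    rw [Finset.mul_sum]
    simp only [Finset.mul_sum]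
    rw [Finset.sum_comm]
    refine Finset.sum_congr rfl fun i _ => ?_
    rw [Finset.sum_comm]
    refine Finset.sum_congr rfl fun j _ => Finset.sum_congr rfl fun p _ => ?_
    have : (2 * Real.pi * a i - 2 * Real.pi * a j) * (Real.log p / Real.log T) =
        2 * Real.pi * (a i - a j) * (Real.log p / Real.log T) := by ring
    rw [this]
    ring
  simp only [e]
  unfold KA
  refine tendsto_finsetSum _ fun i _ => tendsto_finsetSum _ fun j _ => ?_
  refine Tendsto.const_mul _ ?_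
  exact cov_lim' (τ := fun v => Real.cos (2 * Real.pi * (a i - a j) * v))
    (K' := |2 * Real.pi * (a i - a j)|) (h.cont i) (h.cont j) hμν hν1 hμν hν1 (h.zero i)
    (h.zero j) (hK i) (hK j) (hB i) (hB j) (fun x y => by
      refine (Real.abs_cos_sub_cos_le _ _).trans (le_of_eq ?_)
      rw [← mul_sub, abs_mul]) (fun x => Real.abs_cos_le_one _)

end

end Pool.Agent.H478.CW
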