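import Pool.Agent.H478.CW4

/-! Moments of linear combinations of shifted linear statistics in almost all windows: the
theorem. -/

open Finset Complex MeasureTheory Filter Topology

namespace Pool.Agent.H478.CW

open Pool.Agent.R321.FA
open SP (ZZ mu Mk RHs)
open H370.A2 (RR evp evp_zero)

/-- law of large numbers for complex polynomials -/
theorem llnC (C : ℝ) (hC : 0 ≤ C) (k : ℕ) (κ : ℝ) (hκ : 0 < κ) (hκ1 : κ ≤ 1) :
    ∃ K : ℝ, 0 < K ∧ ∀ Λ : ℝ, 1 ≤ Λ → ∃ T0 : ℝ, 10 ≤ T0 ∧ ∀ T : ℝ, T0 ≤ T → ∀ (f : AC) (b : Al),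
    Le f b → Dom (PN ⌊T⌋₊) (vp 1 (Real.log T)) k C b.coeff → Ht b ((1 - κ) * Real.log T) →
    ∫ t in T..(2 * T), ‖sw (2 * Real.pi * Λ / Real.log T) t (fun t => evC t f) -
      f.coeff 0‖ ^ 2 ≤ K / Real.sqrt Λ * T := by
  obtain ⟨K, hK, hl⟩ := lln_sharp C hC k κ hκ hκ1
  refine ⟨4 * K, by positivity, fun Λ hΛ => ?_⟩
  obtain ⟨T0, hT0, hT⟩ := hl Λ hΛ
  refine ⟨T0, hT0, fun T hTT f b hfb hb hh => ?_⟩
  have h1 := hT T hTT (reA f) (reA_dom hfb hb)
    (ht_part hfb hh fun e => by rw [reA_coeff]; exact Complex.abs_re_le_norm _)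
  have h2 := hT T hTT (imA f) (imA_dom hfb hb)
    (ht_part hfb hh fun e => by rw [imA_coeff]; exact Complex.abs_im_le_norm _)
  set h := 2 * Real.pi * Λ / Real.log T
  have hT10 := hT0.trans hTT
  have e : ∀ t, sw h t (fun t => evC t f) - f.coeff 0 =
      (sw h t (fun t => ev t (reA f)) - ((reA f).coeff 0 : ℂ)) +
      (sw h t (fun t => ev t (imA f)) - ((imA f).coeff 0 : ℂ)) * I := by
    intro t
    have e1 : sw h t (fun t => evC t f) = sw h t (fun t => ev t (reA f)) +
        sw h t (fun t => ev t (imA f)) * I := by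
      unfold sw
      have e2 : ∀ s, evC (t + s) f = ev (t + s) (reA f) + ev (t + s) (imA f) * I := fun s =>
        evC_reim _ _
      simp only [e2]
      have c1 : Continuous fun s => ev (t + s) (reA f) :=
        (ev_cont _).comp (by fun_prop)
      have c2 : Continuous fun s => ev (t + s) (imA f) * I :=
        ((ev_cont _).comp (by fun_prop)).mul continuous_const
      rw [intervalIntegral.integral_add (c1.intervalIntegrable _ _) (c2.intervalIntegrable _ _),
        intervalIntegral.integral_mul_const]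
      ring
    rw [e1, reA_coeff, imA_coeff]
    conv_lhs => rw [← Complex.re_add_im (f.coeff 0)]
    ring
  have c1 : Continuous fun t => ‖sw h t (fun t => ev t (reA f)) - ((reA f).coeff 0 : ℂ)‖ ^ 2 :=
    ((sw_cont h _).sub continuous_const).norm.pow 2
  have c2 : Continuous fun t => ‖sw h t (fun t => ev t (imA f)) - ((imA f).coeff 0 : ℂ)‖ ^ 2 :=
    ((sw_cont h _).sub continuous_const).norm.pow 2
  have hTT2 : T ≤ 2 * T := by linarith
  have c1' : Continuous fun t => 2 * ‖sw h t (fun t => ev t (reA f)) - ((reA f).coeff 0 : ℂ)‖ ^ 2 :=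
    continuous_const.mul c1
  have c2' : Continuous fun t => 2 * ‖sw h t (fun t => ev t (imA f)) - ((imA f).coeff 0 : ℂ)‖ ^ 2 :=
    continuous_const.mul c2
  calc ∫ t in T..(2 * T), ‖sw h t (fun t => evC t f) - f.coeff 0‖ ^ 2 ≤
      ∫ t in T..(2 * T), (2 * ‖sw h t (fun t => ev t (reA f)) - ((reA f).coeff 0 : ℂ)‖ ^ 2 +
        2 * ‖sw h t (fun t => ev t (imA f)) - ((imA f).coeff 0 : ℂ)‖ ^ 2) := by
        apply intervalIntegral.integral_mono_on hTT2
        · apply Continuous.intervalIntegrable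
          simp only [e]
          exact (((sw_cont h _).sub continuous_const).add
            (((sw_cont h _).sub continuous_const).mul continuous_const)).norm.pow 2
        · exact ((continuous_const.mul c1).add (continuous_const.mul c2)).intervalIntegrable _ _
        · intro t _
          rw [e]
          set x := sw h t (fun t => ev t (reA f)) - ((reA f).coeff 0 : ℂ)
          set y := sw h t (fun t => ev t (imA f)) - ((imA f).coeff 0 : ℂ)
          have h3 : ‖x + y * I‖ ≤ ‖x‖ + ‖y‖ := by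
            refine (norm_add_le _ _).trans ?_
            rw [norm_mul, Complex.norm_I, mul_one]
          have h4 := norm_nonneg (x + y * I)
          nlinarith [norm_nonneg x, norm_nonneg y, sq_nonneg (‖x‖ - ‖y‖)]
    _ = 2 * (∫ t in T..(2 * T), ‖sw h t (fun t => ev t (reA f)) - ((reA f).coeff 0 : ℂ)‖ ^ 2) +
        2 * ∫ t in T..(2 * T), ‖sw h t (fun t => ev t (imA f)) - ((imA f).coeff 0 : ℂ)‖ ^ 2 := by
        rw [intervalIntegral.integral_add (c1'.intervalIntegrable _ _)
          (c2'.intervalIntegrable _ _), intervalIntegral.integral_const_mul,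
          intervalIntegral.integral_const_mul]
    _ ≤ 2 * (K / Real.sqrt Λ * T) + 2 * (K / Real.sqrt Λ * T) := by gcongr
    _ = _ := by ring

/-- difference of powers -/
lemma pow_diff {a b : ℂ} {M δ : ℝ} (ha : ‖a‖ ≤ M) (hb : ‖b‖ ≤ M) (hd : ‖a - b‖ ≤ δ)
    (k : ℕ) : ‖a ^ (k + 1) - b ^ (k + 1)‖ ≤ (k + 1) * δ * M ^ k := by
  have hM : 0 ≤ M := (norm_nonneg _).trans ha
  induction k with
  | zero => simpa using hd
  | succ k ih =>
    have e : a ^ (k + 1 + 1) - b ^ (k + 1 + 1) = (a ^ (k + 1) - b ^ (k + 1)) * a +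
        b ^ (k + 1) * (a - b) := by ring
    rw [e]
    refine (norm_add_le _ _).trans ?_
    rw [norm_mul, norm_mul, norm_pow]
    have h1 : ‖a ^ (k + 1) - b ^ (k + 1)‖ * ‖a‖ ≤ ((k + 1) * δ * M ^ k) * M :=
      mul_le_mul ih ha (norm_nonneg _) ((norm_nonneg _).trans ih)
    have h2 : ‖b‖ ^ (k + 1) * ‖a - b‖ ≤ M ^ (k + 1) * δ :=
      mul_le_mul (pow_le_pow_left₀ (norm_nonneg _) hb _) hd (norm_nonneg _) (by positivity)
    calc _ ≤ ((k + 1) * δ * M ^ k) * M + M ^ (k + 1) * δ := add_le_add h1 h2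
      _ = _ := by push_cast; ring

section

variable {m : ℕ} {ψ : Fin m → ℝ → ℝ} {μ : ℝ}

lemma evC_cont (f : AC) : Continuous (fun t => evC t f) := by
  have e : (fun t => evC t f) = fun t => ev t (reA f) + ev t (imA f) * I :=
    funext fun t => evC_reim t f
  rw [e]
  exact (ev_cont _).add ((ev_cont _).mul continuous_const)

/-- bound by the majorant -/
lemma AU_le {G : ℝ} (hG0 : 0 ≤ G) (hG : ∀ j, Dk G (RR (ψ j) μ)) (a u : Fin m → ℝ) {T : ℝ}
    (hT : 10 ≤ T) (t : ℝ) :
    |AU ψ μ a u T t| ≤ (G * ∑ j, |u j| + |∑ j, u j * ψ j 0|) * MS a T t := by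
  have hT1 : 1 ≤ T := by linarith
  have h1 := MS_ge a hT1 t
  have h2 : |∑ j, u j * XX (ψ j) μ T (t + 2 * Real.pi * a j / Real.log T)| ≤
      (G * ∑ j, |u j|) * MS a T t := by
    refine (Finset.abs_sum_le_sum_abs _ _).trans ?_
    rw [Finset.mul_sum, Finset.sum_mul]
    refine Finset.sum_le_sum fun j _ => ?_
    rw [abs_mul]
    have h3 := XX_le hT hG0 (hG j) (t + 2 * Real.pi * a j / Real.log T)
    have h4 : Mp T (t + 2 * Real.pi * a j / Real.log T) ≤ MS a T t := by
      unfold MS
      have := Finset.single_le_sum (f := fun j => Mp T (t + 2 * Real.pi * a j / Real.log T))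
        (fun i _ => Mp_nonneg hT1 _) (Finset.mem_univ j)
      linarith
    calc |u j| * |XX (ψ j) μ T (t + 2 * Real.pi * a j / Real.log T)| ≤
        |u j| * (G * MS a T t) := mul_le_mul_of_nonneg_left
          (h3.trans (mul_le_mul_of_nonneg_left h4 hG0)) (abs_nonneg _)
      _ = _ := by ring
  unfold AU
  refine (abs_sub _ _).trans ?_
  rw [add_mul]
  refine add_le_add h2 ?_
  exact le_mul_of_one_le_right (abs_nonneg _) h1

/-- **moments in almost all windows** -/
theorem quench (hRH : RHs) (h : TT ψ μ) (hμ : 0 < μ) (a u : Fin m → ℝ) (k : ℕ)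
    (hk : k * μ < 1) (η : ℝ) (hη : 0 < η) : ∃ Λ0 : ℝ, 1 ≤ Λ0 ∧ ∀ Λ : ℝ, Λ0 ≤ Λ →
    ∃ T0 : ℝ, 10 ≤ T0 ∧ ∀ T : ℝ, T0 ≤ T → T + 8 * Real.log T ≤ 2 * T - 8 * Real.log T ∧
    ∫ t in (T + 8 * Real.log T)..(2 * T - 8 * Real.log T),
      |1 / Λ * (∫ s in (0 : ℝ)..Λ, AU ψ μ a u T (t + 2 * Real.pi * s / Real.log T) ^ k) -
        gm 0 (KA ψ a u) k| ≤ η * T := by
  have hlogT : ∃ T1 : ℝ, 10 ≤ T1 ∧ ∀ T : ℝ, T1 ≤ T → 16 * Real.log T ≤ T := by
    have h1 : Tendsto (fun T : ℝ => Real.log T / T) atTop (𝓝 0) := by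
      have := Real.isLittleO_log_id_atTop.tendsto_div_nhds_zero
      simpa using this
    obtain ⟨T1, hT1⟩ := eventually_atTop.1
      (h1.eventually (gt_mem_nhds (by norm_num : (0:ℝ) < 1 / 16)))
    refine ⟨max T1 10, le_max_right _ _, fun T hT => ?_⟩
    have h2 := hT1 T ((le_max_left _ _).trans hT)
    have h3 : 0 < T := by linarith [(le_max_right T1 10).trans hT]
    rw [div_lt_iff₀ h3] at h2
    linarith
  obtain ⟨Tl, hTl10, hTl⟩ := hlogT
  rcases Nat.eq_zero_or_pos k with hk0 | hk0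
  · subst hk0
    refine ⟨1, le_rfl, fun Λ hΛ => ⟨Tl, hTl10, fun T hT => ?_⟩⟩
    have h1 := hTl T hT
    have hT0 : 0 < T := by linarith
    refine ⟨by linarith, ?_⟩
    have e : ∀ t : ℝ, |1 / Λ * (∫ s in (0 : ℝ)..Λ, AU ψ μ a u T (t + 2 * Real.pi * s / Real.log T) ^ 0) -
        gm 0 (KA ψ a u) 0| = 0 := by
      intro t
      have hΛ0 : Λ ≠ 0 := by linarith
      simp [gm, hΛ0]
    simp only [e]
    simp only [intervalIntegral.integral_zero]
    positivity
  -- the bandwidth
  have hk1 : (1 : ℝ) ≤ k := by exact_mod_cast hk0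
  set κ := (1 - k * μ) / 2 with hκd
  have hκ0 : 0 < κ := by rw [hκd]; linarith
  have hkμ : 0 < k * μ := by positivity
  have hκ1 : κ ≤ 1 := by rw [hκd]; linarith
  set ν := μ + κ / k with hν
  have hκk : 0 < κ / k := by positivity
  have hμν : μ < ν := by rw [hν]; linarith
  have hkν : k * ν = 1 - κ := by
    rw [hν, mul_add, mul_div_cancel₀ _ (by linarith : (k : ℝ) ≠ 0), hκd]; ring
  have hν1 : ν ≤ 1 := by
    have h1 : ν ≤ k * ν := by
      have : 0 ≤ ν := by linarith
      nlinarith
    linarith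
  have hν0 : 0 ≤ ν := by linarith
  obtain ⟨B, hB1, hB⟩ := h.bd
  obtain ⟨K, hK⟩ := h.lip
  obtain ⟨G, hG1, hG⟩ := h.dec
  have hG0 : 0 ≤ G := by linarith
  set CB := 3 * B * ∑ j, |u j| with hCB
  have hsu : 0 ≤ ∑ j, |u j| := Finset.sum_nonneg fun j _ => abs_nonneg _
  have hCB0 : 0 ≤ CB := by positivity
  obtain ⟨Ca, Ta, hCa, hTa, happ⟩ := approx hRH h hμ hμν hν1 a u
  obtain ⟨Cm, Tm, hCm, hTm, hmom⟩ := MS_mom hRH a k
  obtain ⟨Kl, hKl, hlln⟩ := llnC (Dc CB 7 k) (Dc_nonneg hCB0 (by norm_num) k) (2 * k) κ hκ0 hκ1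
  set M1 := G * ∑ j, |u j| + |∑ j, u j * ψ j 0| with hM1
  have hM10 : 0 ≤ M1 := by positivity
  -- the constant coefficients
  have hlim : Tendsto (fun T => (AT ψ ν a u T ^ k).coeff 0) atTop (𝓝 (gm 0 (KA ψ a u) k : ℂ)) := by
    unfold AT
    apply pow_lim (fun T => PN ⌊T⌋₊) (fun T => vp 1 (Real.log T))
      (fun T => ∑ j, u j * cc (ψ j) (Real.log T) - ∑ j, u j * ψ j 0)
      (fun T p => ∑ j, ((u j * yy (ψ j) ν (Real.log T) p : ℝ) : ℂ) *
        ph (2 * Real.pi * a j / Real.log T) p)
      (fun T p => ∑ j, ((u j * zz (ψ j) ν (Real.log T) p : ℝ) : ℂ) *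
        ph (2 * (2 * Real.pi * a j / Real.log T)) p) (M := 7) (C := CB) (T0 := 10) _ v4_lim
    · have h1 : Tendsto (fun T : ℝ => ∑ j, u j * cc (ψ j) (Real.log T) - ∑ j, u j * ψ j 0) atTop
          (𝓝 (∑ j, u j * ψ j 0 - ∑ j, u j * ψ j 0)) := by
        refine Tendsto.sub_const (tendsto_finsetSum _ fun j _ => ?_) _
        exact (cc_lim (h.cont j) (hK j)).const_mul _
      rwa [sub_self] at h1
    · exact var_lim h hμν hν1 a u
    · intro T hT
      obtain ⟨b1, b2, b3⟩ := basic_vp hT
      exact ⟨b1, b2, b3, AT_YC hB1 hB ν a u hT⟩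
  -- choice of `Λ`
  refine ⟨max 1 ((16 * Kl / η ^ 2) ^ 2), le_max_left _ _, fun Λ hΛ => ?_⟩
  have hΛ1 : 1 ≤ Λ := (le_max_left _ _).trans hΛ
  have hΛ0 : 0 < Λ := by linarith
  have hΛ2 : (16 * Kl / η ^ 2) ^ 2 ≤ Λ := (le_max_right _ _).trans hΛ
  have hsΛ : 16 * Kl / η ^ 2 ≤ Real.sqrt Λ := by
    rw [← Real.sqrt_sq (by positivity : 0 ≤ 16 * Kl / η ^ 2)]
    exact Real.sqrt_le_sqrt hΛ2
  have hsΛ0 : 0 < Real.sqrt Λ := Real.sqrt_pos.2 hΛ0
  obtain ⟨Tn, hTn, hl⟩ := hlln Λ hΛ1
  -- large `T`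
  set K2 := (k : ℝ) * Ca * (M1 + Ca) ^ (k - 1) with hK2
  have hK20 : 0 ≤ K2 := by positivity
  have hb1 : Tendsto (fun T : ℝ => K2 * Cm / Real.log T) atTop (𝓝 0) :=
    Real.tendsto_log_atTop.const_div_atTop _
  obtain ⟨T3, hT3⟩ := eventually_atTop.1 (hb1.eventually (gt_mem_nhds (by positivity : 0 < η / 4)))
  obtain ⟨T4, hT4⟩ := eventually_atTop.1 ((tendsto_iff_norm_sub_tendsto_zero.1 hlim).eventually
    (gt_mem_nhds (by positivity : 0 < η / 4)))
  obtain ⟨T5, hT5⟩ := eventually_atTop.1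
    (Real.tendsto_log_atTop.eventually_ge_atTop (2 * Real.pi * Λ))
  set T0 := max (max (max Tl Ta) (max Tm Tn)) (max T3 (max T4 T5)) with hT0d
  refine ⟨T0, hTl10.trans ((le_max_left _ _).trans ((le_max_left _ _).trans (le_max_left _ _))), ?_⟩
  intro T hT
  have gl : Tl ≤ T := ((le_max_left _ _).trans ((le_max_left _ _).trans (le_max_left _ _))).trans hT
  have ga : Ta ≤ T := ((le_max_right _ _).trans ((le_max_left _ _).trans (le_max_left _ _))).trans hT
  have gm' : Tm ≤ T := ((le_max_left _ _).trans ((le_max_right _ _).trans (le_max_left _ _))).trans hT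
  have gn : Tn ≤ T := ((le_max_right _ _).trans ((le_max_right _ _).trans (le_max_left _ _))).trans hT
  have g3 : T3 ≤ T := ((le_max_left _ _).trans (le_max_right _ _)).trans hT
  have g4 : T4 ≤ T := ((le_max_left _ _).trans ((le_max_right _ _).trans (le_max_right _ _))).trans hT
  have g5 : T5 ≤ T := ((le_max_right _ _).trans ((le_max_right _ _).trans (le_max_right _ _))).trans hT
  have hT10 : 10 ≤ T := hTl10.trans gl
  have hTp : 0 < T := by linarith
  have hT1 : 1 ≤ T := by linarith
  have h16 := hTl T gl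
  set L := Real.log T with hL
  have hL1 : 1 ≤ L := log_one_le hT10
  have hL0 : 0 < L := by linarith
  have hLΛ : 2 * Real.pi * Λ ≤ L := hT5 T g5
  set V1 := T + 8 * L with hV1
  set V2 := 2 * T - 8 * L with hV2
  have hV : V1 ≤ V2 := by rw [hV1, hV2]; linarith
  refine ⟨hV, ?_⟩
  set F := AT ψ ν a u T ^ k with hF
  set g := gm 0 (KA ψ a u) k with hg
  set hh := 2 * Real.pi * Λ / L with hhd
  have hhh1 : hh ≤ 1 := by rw [hhd, div_le_one hL0]; exact hLΛ
  have hpi := Real.pi_pos
  have hhh0 : 0 < hh := by positivity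
  -- pointwise comparison
  have hpt : ∀ t, T + 2 * L ≤ t → t ≤ 2 * T - 2 * L →
      ‖((AU ψ μ a u T t ^ k : ℝ) : ℂ) - evC t F‖ ≤ K2 / L * MS a T t ^ k := by
    intro t ht1 ht2
    have h1 := happ T ga t ht1 ht2
    have h2 := AU_le hG0 hG a u hT10 t
    have hMS := MS_ge a hT1 t
    have hCL : Ca / L ≤ Ca := div_le_self hCa hL1
    rw [hF, map_pow, Complex.ofReal_pow]
    obtain ⟨k', rfl⟩ : ∃ k', k = k' + 1 := ⟨k - 1, by omega⟩
    have h3 : ‖((AU ψ μ a u T t : ℝ) : ℂ)‖ ≤ (M1 + Ca) * MS a T t := by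
      rw [Complex.norm_real, Real.norm_eq_abs]
      refine h2.trans ?_
      apply mul_le_mul_of_nonneg_right _ (by linarith)
      linarith
    have h4 : ‖evC t (AT ψ ν a u T)‖ ≤ (M1 + Ca) * MS a T t := by
      have h5 : ‖evC t (AT ψ ν a u T)‖ ≤ ‖((AU ψ μ a u T t : ℝ) : ℂ)‖ +
          ‖((AU ψ μ a u T t : ℝ) : ℂ) - evC t (AT ψ ν a u T)‖ := by
        have := norm_sub_norm_le (evC t (AT ψ ν a u T)) ((AU ψ μ a u T t : ℝ) : ℂ)
        rw [norm_sub_rev] at this
        linarith
      rw [Complex.norm_real, Real.norm_eq_abs] at h5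
      have h6 : Ca ≤ Ca * MS a T t := le_mul_of_one_le_right hCa hMS
      rw [add_mul]
      linarith
    have h5 := pow_diff h3 h4 h1 k'
    refine h5.trans ?_
    rw [hK2, mul_pow]
    have h6 : MS a T t ^ k' ≤ MS a T t ^ (k' + 1) := pow_le_pow_right₀ hMS (by omega)
    have h7 : (0 : ℝ) ≤ ((k' : ℝ) + 1) * (Ca / L) * (M1 + Ca) ^ k' := by positivity
    calc ((k' : ℝ) + 1) * (Ca / L) * ((M1 + Ca) ^ k' * MS a T t ^ k') =
        ((k' : ℝ) + 1) * (Ca / L) * (M1 + Ca) ^ k' * MS a T t ^ k' := by ring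
      _ ≤ ((k' : ℝ) + 1) * (Ca / L) * (M1 + Ca) ^ k' * MS a T t ^ (k' + 1) :=
          mul_le_mul_of_nonneg_left h6 h7
      _ = _ := by push_cast; ring
  -- the window averages
  have hcAU : Continuous fun t => AU ψ μ a u T t ^ k := (AU_cont h a u hT1).pow k
  have hcMS : Continuous fun t => MS a T t ^ k := (MS_cont a hT1).pow k
  set W : ℝ → ℝ := fun t => ∫ s in (0 : ℝ)..Λ, MS a T (t + 2 * Real.pi * s / L) ^ k with hW
  have hWc : Continuous W := by
    apply intervalIntegral.continuous_parametric_intervalIntegral_of_continuous'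
    exact hcMS.comp (by fun_prop)
  have hwin : ∀ t, V1 ≤ t → t ≤ V2 →
      |1 / Λ * (∫ s in (0 : ℝ)..Λ, AU ψ μ a u T (t + 2 * Real.pi * s / L) ^ k) - g| ≤
      1 / Λ * (K2 / L * W t) + ‖sw hh t (fun t => evC t F) - F.coeff 0‖ + η / 4 := by
    intro t ht1 ht2
    have h0 : ‖F.coeff 0 - (g : ℂ)‖ ≤ η / 4 := (hT4 T g4).le
    have h1 : ‖((1 / Λ * ∫ s in (0 : ℝ)..Λ, AU ψ μ a u T (t + 2 * Real.pi * s / L) ^ k : ℝ) : ℂ) -
        sw hh t (fun t => evC t F)‖ ≤ 1 / Λ * (K2 / L * W t) := by
      rw [hhd, sw_eq hL0 hΛ0, Complex.ofReal_mul, ← intervalIntegral.integral_ofReal, ← mul_sub,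
        norm_mul, Complex.norm_real, Real.norm_of_nonneg (by positivity : 0 ≤ 1 / Λ)]
      apply mul_le_mul_of_nonneg_left _ (by positivity)
      have c1 : Continuous fun s => ((AU ψ μ a u T (t + 2 * Real.pi * s / L) ^ k : ℝ) : ℂ) :=
        Complex.continuous_ofReal.comp (hcAU.comp (by fun_prop))
      have c2 : Continuous fun s => evC (t + 2 * Real.pi * s / L) F :=
        (evC_cont F).comp (by fun_prop)
      rw [← intervalIntegral.integral_sub (c1.intervalIntegrable _ _) (c2.intervalIntegrable _ _)]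
      simp only [hW]
      rw [← intervalIntegral.integral_const_mul]
      apply intervalIntegral.norm_integral_le_of_norm_le hΛ0.le
      · refine Eventually.of_forall fun s hs => ?_
        have hs1 : 0 ≤ 2 * Real.pi * s / L := by have := hs.1; positivity
        have hs2 : 2 * Real.pi * s / L ≤ 1 := by
          refine le_trans ?_ hhh1
          rw [hhd]
          have := hs.2
          gcongr
        apply hpt
        · rw [hV1] at ht1; linarith
        · rw [hV2] at ht2; linarith
      · apply Continuous.intervalIntegrable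
        exact continuous_const.mul (hcMS.comp (by fun_prop))
    have h2 : |1 / Λ * (∫ s in (0 : ℝ)..Λ, AU ψ μ a u T (t + 2 * Real.pi * s / L) ^ k) - g| =
        ‖(((1 / Λ * ∫ s in (0 : ℝ)..Λ, AU ψ μ a u T (t + 2 * Real.pi * s / L) ^ k : ℝ) : ℂ) -
        sw hh t (fun t => evC t F)) + (sw hh t (fun t => evC t F) - F.coeff 0) +
        (F.coeff 0 - (g : ℂ))‖ := by
      rw [← Real.norm_eq_abs, ← Complex.norm_real]
      congr 1
      push_cast
      ring
    rw [h2]
    refine (norm_add_le _ _).trans (add_le_add ((norm_add_le _ _).trans (add_le_add h1 le_rfl)) h0)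
  -- integration
  have hcsw : Continuous fun t => ‖sw hh t (fun t => evC t F) - F.coeff 0‖ := by
    have e1 : (fun t => sw hh t (fun t => evC t F)) = fun t =>
        sw hh t (fun t => ev t (reA F)) + sw hh t (fun t => ev t (imA F)) * I := by
      funext t
      unfold sw
      have e2 : ∀ s, evC (t + s) F = ev (t + s) (reA F) + ev (t + s) (imA F) * I := fun s =>
        evC_reim _ _
      simp only [e2]
      have c1 : Continuous fun s => ev (t + s) (reA F) :=
        (ev_cont _).comp (by fun_prop)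
      have c2 : Continuous fun s => ev (t + s) (imA F) * I :=
        ((ev_cont _).comp (by fun_prop)).mul continuous_const
      rw [intervalIntegral.integral_add (c1.intervalIntegrable _ _) (c2.intervalIntegrable _ _),
        intervalIntegral.integral_mul_const]
      ring
    have c3 : Continuous (fun t => sw hh t (fun t => evC t F)) := by
      rw [e1]
      exact (sw_cont hh _).add ((sw_cont hh _).mul continuous_const)
    exact (c3.sub continuous_const).norm
  have hI1 : ∫ t in V1..V2, W t ≤ Cm * T * Λ := by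
    have := swap_le (H := fun t s => MS a T (t + 2 * Real.pi * s / L) ^ k) (ω := fun _ => 1)
      (by
        show Continuous fun q : ℝ × ℝ => MS a T (q.1 + 2 * Real.pi * q.2 / L) ^ k
        exact hcMS.comp (by fun_prop)) continuous_const (fun _ => zero_le_one)
      (a := 0) (b := Λ) (V1 := V1) (V2 := V2) (Q := Cm * T) hΛ0.le (by
        intro s hs
        have hs1 : 0 ≤ 2 * Real.pi * s / L := by have := hs.1; positivity
        have hs2 : 2 * Real.pi * s / L ≤ 1 := by
          refine le_trans ?_ hhh1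
          rw [hhd]
          have := hs.2
          gcongr
        rw [intervalIntegral.integral_comp_add_right (fun t => MS a T t ^ k)]
        apply hmom T gm'
        · linarith
        · rw [hV1]; linarith
        · rw [hV2]; linarith)
    simp only [one_mul, intervalIntegral.integral_const, sub_zero, smul_eq_mul, mul_one] at this
    simp only [hW]
    exact this
  have hI2 : ∫ t in V1..V2, ‖sw hh t (fun t => evC t F) - F.coeff 0‖ ≤ η / 2 * T := by
    have hdom : Dom (PN ⌊T⌋₊) (vp 1 (Real.log T)) (2 * k) (Dc CB 7 k)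
        (bp (∑ j, u j * cc (ψ j) (Real.log T) - ∑ j, u j * ψ j 0) (PN ⌊T⌋₊)
          (fun p => ∑ j, ((u j * yy (ψ j) ν (Real.log T) p : ℝ) : ℂ) *
            ph (2 * Real.pi * a j / Real.log T) p)
          (fun p => ∑ j, ((u j * zz (ψ j) ν (Real.log T) p : ℝ) : ℂ) *
            ph (2 * (2 * Real.pi * a j / Real.log T)) p) ^ k).coeff := by
      obtain ⟨b1, b2, b3⟩ := basic_vp hT10
      exact bp_pow_dom b1 b3 (AT_YC hB1 hB ν a u hT10) k
    have hht : Ht (bp (∑ j, u j * cc (ψ j) (Real.log T) - ∑ j, u j * ψ j 0) (PN ⌊T⌋₊)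
          (fun p => ∑ j, ((u j * yy (ψ j) ν (Real.log T) p : ℝ) : ℂ) *
            ph (2 * Real.pi * a j / Real.log T) p)
          (fun p => ∑ j, ((u j * zz (ψ j) ν (Real.log T) p : ℝ) : ℂ) *
            ph (2 * (2 * Real.pi * a j / Real.log T)) p) ^ k) ((1 - κ) * Real.log T) := by
      have h1 := bp_pow_ht (U := PN ⌊T⌋₊)
        (c := ∑ j, u j * cc (ψ j) (Real.log T) - ∑ j, u j * ψ j 0)
        (y := fun p => ∑ j, ((u j * yy (ψ j) ν (Real.log T) p : ℝ) : ℂ) *
            ph (2 * Real.pi * a j / Real.log T) p)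
        (z := fun p => ∑ j, ((u j * zz (ψ j) ν (Real.log T) p : ℝ) : ℂ) *
            ph (2 * (2 * Real.pi * a j / Real.log T)) p) (H := ν * Real.log T)
        (by rw [← hL]; positivity) (by
          intro p _ hne
          obtain ⟨j, _, hj⟩ := Finset.exists_ne_zero_of_sum_ne_zero hne
          by_contra hcon
          apply hj
          have : yy (ψ j) ν (Real.log T) p = 0 := by
            unfold yy
            rw [if_neg hcon]
          rw [this]; simp) (by
          intro p _ hne
          obtain ⟨j, _, hj⟩ := Finset.exists_ne_zero_of_sum_ne_zero hne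
          by_contra hcon
          apply hj
          have : zz (ψ j) ν (Real.log T) p = 0 := by
            unfold zz
            rw [if_neg hcon]
          rw [this]; simp) k
      refine h1.mono (le_of_eq ?_)
      rw [← mul_assoc, hkν]
    have hle : Le F (bp (∑ j, u j * cc (ψ j) (Real.log T) - ∑ j, u j * ψ j 0) (PN ⌊T⌋₊)
          (fun p => ∑ j, ((u j * yy (ψ j) ν (Real.log T) p : ℝ) : ℂ) *
            ph (2 * Real.pi * a j / Real.log T) p)
          (fun p => ∑ j, ((u j * zz (ψ j) ν (Real.log T) p : ℝ) : ℂ) *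
            ph (2 * (2 * Real.pi * a j / Real.log T)) p) ^ k) := by
      rw [hF]
      exact (cp_le _ _ _ _).pow k
    have h2 := hl T gn F _ hle hdom hht
    rw [← hL, ← hhd] at h2
    have hsub : ∫ t in V1..V2, ‖sw hh t (fun t => evC t F) - F.coeff 0‖ ≤
        ∫ t in T..(2 * T), ‖sw hh t (fun t => evC t F) - F.coeff 0‖ := by
      apply intervalIntegral.integral_mono_interval
      · rw [hV1]; linarith
      · exact hV
      · rw [hV2]; linarith
      · exact Eventually.of_forall fun t => norm_nonneg _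
      · exact hcsw.intervalIntegrable _ _
    have hTT2 : T ≤ 2 * T := by linarith
    have c4 : Continuous fun t => 1 / η * ‖sw hh t (fun t => evC t F) - F.coeff 0‖ ^ 2 :=
      continuous_const.mul (hcsw.pow 2)
    have c5 : Continuous fun _ : ℝ => η / 4 := continuous_const
    calc _ ≤ ∫ t in T..(2 * T), ‖sw hh t (fun t => evC t F) - F.coeff 0‖ := hsub
      _ ≤ ∫ t in T..(2 * T), (η / 4 + 1 / η * ‖sw hh t (fun t => evC t F) - F.coeff 0‖ ^ 2) := by
          apply intervalIntegral.integral_mono_on hTT2 (hcsw.intervalIntegrable _ _)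
          · exact (c5.add c4).intervalIntegrable _ _
          · intro t _
            set x := ‖sw hh t (fun t => evC t F) - F.coeff 0‖
            have h3 : 0 ≤ (x - η / 2) ^ 2 / η := by positivity
            have h4 : (x - η / 2) ^ 2 / η = 1 / η * x ^ 2 - x + η / 4 := by
              field_simp
              ring
            linarith
      _ = η / 4 * T + 1 / η * ∫ t in T..(2 * T),
          ‖sw hh t (fun t => evC t F) - F.coeff 0‖ ^ 2 := by
          rw [intervalIntegral.integral_add (c5.intervalIntegrable _ _)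
            (c4.intervalIntegrable _ _),
            intervalIntegral.integral_const_mul, intervalIntegral.integral_const, smul_eq_mul]
          ring
      _ ≤ η / 4 * T + 1 / η * (Kl / Real.sqrt Λ * T) := by gcongr
      _ ≤ η / 4 * T + 1 / η * (η ^ 2 / 16 * T) := by
          have h5 : Kl / Real.sqrt Λ ≤ η ^ 2 / 16 := by
            rw [div_le_iff₀ hsΛ0]
            rw [div_le_iff₀ (by positivity)] at hsΛ
            linarith
          gcongr
      _ ≤ _ := by
          have : 1 / η * (η ^ 2 / 16 * T) = η / 16 * T := by field_simp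
          rw [this]
          nlinarith [mul_pos hη hTp]
  have c6 : Continuous fun t => 1 / Λ * (K2 / L * W t) :=
    continuous_const.mul (continuous_const.mul hWc)
  have c7 : Continuous fun t => 1 / Λ * (K2 / L * W t) +
      ‖sw hh t (fun t => evC t F) - F.coeff 0‖ := c6.add hcsw
  have c8 : Continuous fun _ : ℝ => η / 4 := continuous_const
  calc ∫ t in V1..V2,
      |1 / Λ * (∫ s in (0 : ℝ)..Λ, AU ψ μ a u T (t + 2 * Real.pi * s / L) ^ k) - g| ≤
      ∫ t in V1..V2, (1 / Λ * (K2 / L * W t) +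
        ‖sw hh t (fun t => evC t F) - F.coeff 0‖ + η / 4) := by
        apply intervalIntegral.integral_mono_on hV
        · apply Continuous.intervalIntegrable
          refine ((continuous_const.mul ?_).sub continuous_const).abs
          apply intervalIntegral.continuous_parametric_intervalIntegral_of_continuous'
          exact hcAU.comp (by fun_prop)
        · exact (c7.add c8).intervalIntegrable _ _
        · intro t ht
          exact hwin t ht.1 ht.2
    _ = 1 / Λ * (K2 / L * ∫ t in V1..V2, W t) +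
        (∫ t in V1..V2, ‖sw hh t (fun t => evC t F) - F.coeff 0‖) + (V2 - V1) * (η / 4) := by
        rw [intervalIntegral.integral_add (c7.intervalIntegrable _ _)
          (c8.intervalIntegrable _ _), intervalIntegral.integral_add
          (c6.intervalIntegrable _ _)
          (hcsw.intervalIntegrable _ _), intervalIntegral.integral_const_mul,
          intervalIntegral.integral_const_mul, intervalIntegral.integral_const, smul_eq_mul]
    _ ≤ 1 / Λ * (K2 / L * (Cm * T * Λ)) + η / 2 * T + T * (η / 4) := by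
        have : V2 - V1 ≤ T := by rw [hV1, hV2]; linarith
        gcongr
    _ = K2 * Cm / L * T + η / 2 * T + T * (η / 4) := by
        field_simp
    _ ≤ η / 4 * T + η / 2 * T + T * (η / 4) := by
        have := (hT3 T g3).le
        gcongr
    _ = _ := by ring

end

end Pool.Agent.H478.CW
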