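import Pool.Agent.H478.CW5

/-! Smooth approximations of window counts: the test functions. -/

open Finset Complex MeasureTheory Filter Topology

namespace Pool.Agent.H478.CW

open Pool.Agent.R321.FA
open H370.A2 (RR evp evp_zero RR_inv RR_integrable RR_even RR_cont)

/-- clamped absolute value -/
noncomputable def cl (α : ℝ) : ℝ := min 1 |α|

lemma cl_lip (x y : ℝ) : |cl x - cl y| ≤ |x - y| := by
  unfold cl
  have h1 := abs_min_sub_min_le_max 1 |x| 1 |y|
  have h2 := abs_abs_sub_abs_le_abs_sub x y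
  simp only [sub_self, abs_zero] at h1
  refine h1.trans (max_le (abs_nonneg _) h2)

lemma cl_nonneg (x : ℝ) : 0 ≤ cl x := le_min (by norm_num) (abs_nonneg _)

lemma cl_le (x : ℝ) : cl x ≤ 1 := min_le_left _ _

/-- the profile -/
noncomputable def fb (α : ℝ) : ℝ := (1 - cl α ^ 2) ^ 2

lemma fb_even (α : ℝ) : fb (-α) = fb α := by unfold fb cl; rw [abs_neg]

lemma fb_zero {α : ℝ} (h : 1 ≤ |α|) : fb α = 0 := by
  unfold fb cl; rw [min_eq_left h]; norm_num

lemma fb_in {α : ℝ} (h : |α| ≤ 1) : fb α = (1 - α ^ 2) ^ 2 := by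
  unfold fb cl; rw [min_eq_right h, sq_abs]

lemma fb_nonneg (α : ℝ) : 0 ≤ fb α := sq_nonneg _

lemma fb_le (α : ℝ) : fb α ≤ 1 := by
  unfold fb
  have h1 := cl_nonneg α
  have h2 := cl_le α
  have h3 : cl α ^ 2 ≤ 1 := by nlinarith
  have h4 : 0 ≤ cl α ^ 2 := sq_nonneg _
  nlinarith

lemma fb_lip (x y : ℝ) : |fb x - fb y| ≤ 4 * |x - y| := by
  unfold fb
  have h1 := cl_nonneg x
  have h2 := cl_le x
  have h3 := cl_nonneg y
  have h4 := cl_le y
  have h5 := cl_lip x y
  have e : (1 - cl x ^ 2) ^ 2 - (1 - cl y ^ 2) ^ 2 =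
      -((cl x - cl y) * ((cl x + cl y) * ((1 - cl x ^ 2) + (1 - cl y ^ 2)))) := by ring
  rw [e, abs_neg, abs_mul]
  have h6 : |(cl x + cl y) * ((1 - cl x ^ 2) + (1 - cl y ^ 2))| ≤ 4 := by
    have a1 : cl x ^ 2 ≤ 1 := by nlinarith
    have a2 : cl y ^ 2 ≤ 1 := by nlinarith
    have a3 : 0 ≤ cl x ^ 2 := sq_nonneg _
    have a4 : 0 ≤ cl y ^ 2 := sq_nonneg _
    rw [abs_of_nonneg (mul_nonneg (by linarith) (by linarith))]
    nlinarith
  calc |cl x - cl y| * |(cl x + cl y) * ((1 - cl x ^ 2) + (1 - cl y ^ 2))| ≤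
      |x - y| * 4 := by gcongr
    _ = _ := by ring

lemma fb_cont : Continuous fb := by unfold fb cl; fun_prop

/-- the transform of the profile -/
noncomputable def kk (w : ℝ) : ℝ := ∫ β in (-1 : ℝ)..1, fb β * Real.cos (w * β)

lemma kk_le_two (w : ℝ) : |kk w| ≤ 2 := by
  unfold kk
  have h := intervalIntegral.norm_integral_le_of_norm_le_const (a := (-1 : ℝ)) (b := 1) (C := 1)
    (f := fun β => fb β * Real.cos (w * β)) (fun β _ => by
      rw [Real.norm_eq_abs, abs_mul, abs_of_nonneg (fb_nonneg β)]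
      have := fb_le β
      have := Real.abs_cos_le_one (w * β)
      have := fb_nonneg β
      nlinarith [abs_nonneg (Real.cos (w * β))])
  rw [Real.norm_eq_abs] at h
  norm_num at h
  exact h

lemma kk_formula {w : ℝ} (hw : w ≠ 0) : kk w =
    2 * (-(8 * Real.sin w) / w ^ 3 - 24 * Real.cos w / w ^ 4 + 24 * Real.sin w / w ^ 5) := by
  unfold kk
  have h1 : ∫ β in (-1 : ℝ)..1, fb β * Real.cos (w * β) =
      ∫ β in (-1 : ℝ)..1, (1 - β ^ 2) ^ 2 * Real.cos (w * β) := by
    apply intervalIntegral.integral_congr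
    intro β hβ
    rw [Set.uIcc_of_le (by norm_num)] at hβ
    show fb β * _ = _
    rw [fb_in (abs_le.2 ⟨hβ.1, hβ.2⟩)]
  rw [h1]
  set F : ℝ → ℝ := fun β => (1 - β ^ 2) ^ 2 * Real.sin (w * β) / w +
    (-(4 * β) + 4 * β ^ 3) * Real.cos (w * β) / w ^ 2 -
    (-4 + 12 * β ^ 2) * Real.sin (w * β) / w ^ 3 - 24 * β * Real.cos (w * β) / w ^ 4 +
    24 * Real.sin (w * β) / w ^ 5 with hF
  have hd : ∀ β : ℝ, HasDerivAt F ((1 - β ^ 2) ^ 2 * Real.cos (w * β)) β := by
    intro β
    have hs : HasDerivAt (fun β => Real.sin (w * β)) (Real.cos (w * β) * w) β := by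
      have := (Real.hasDerivAt_sin (w * β)).comp β ((hasDerivAt_id β).const_mul w)
      simpa [Function.comp_def] using this
    have hc : HasDerivAt (fun β => Real.cos (w * β)) (-Real.sin (w * β) * w) β := by
      have := (Real.hasDerivAt_cos (w * β)).comp β ((hasDerivAt_id β).const_mul w)
      simpa [Function.comp_def] using this
    have hp : HasDerivAt (fun β : ℝ => (1 - β ^ 2) ^ 2) (-(4 * β) + 4 * β ^ 3) β := by
      have h := (((hasDerivAt_id β).pow 2).const_sub 1).pow 2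
      refine HasDerivAt.congr_deriv h ?_
      simp
      ring
    have hp1 : HasDerivAt (fun β : ℝ => -(4 * β) + 4 * β ^ 3) (-4 + 12 * β ^ 2) β := by
      have h := ((hasDerivAt_id β).const_mul 4).neg.add (((hasDerivAt_id β).pow 3).const_mul 4)
      refine HasDerivAt.congr_deriv h ?_
      simp
      ring
    have hp2 : HasDerivAt (fun β : ℝ => -4 + 12 * β ^ 2) (24 * β) β := by
      have h := (((hasDerivAt_id β).pow 2).const_mul 12).const_add (-4)
      refine HasDerivAt.congr_deriv h ?_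
      simp
      ring
    have hp3 : HasDerivAt (fun β : ℝ => 24 * β) 24 β := by
      have h := ((hasDerivAt_id β).const_mul 24)
      refine HasDerivAt.congr_deriv h ?_
      simp
    have h := ((((hp.mul hs).div_const w).add ((hp1.mul hc).div_const (w ^ 2))).sub
      ((hp2.mul hs).div_const (w ^ 3))).sub ((hp3.mul hc).div_const (w ^ 4)) |>.add
      ((hs.const_mul 24).div_const (w ^ 5))
    refine HasDerivAt.congr_deriv h ?_
    field_simp
    ring
  rw [intervalIntegral.integral_eq_sub_of_hasDerivAt (fun β _ => hd β)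
    (Continuous.intervalIntegrable (by fun_prop) _ _)]
  simp only [hF]
  rw [mul_neg_one, Real.sin_neg, Real.cos_neg, mul_one]
  ring

lemma kk_dec (w : ℝ) : |kk w| ≤ 900 * ((1 + |w|) ^ 3)⁻¹ := by
  have h0 := abs_nonneg w
  rcases le_total |w| 1 with h | h
  · refine (kk_le_two w).trans ?_
    rw [← div_eq_mul_inv, le_div_iff₀ (by positivity)]
    have : (1 + |w|) ^ 3 ≤ 2 ^ 3 := pow_le_pow_left₀ (by linarith) (by linarith) 3
    linarith
  · have hw : w ≠ 0 := by
      intro h1; rw [h1, abs_zero] at h; linarith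
    have hwp : 0 < |w| := by linarith
    have h3 : (1 + |w|) ^ 3 ≤ 8 * |w| ^ 3 := by
      have : (1 + |w|) ^ 3 ≤ (2 * |w|) ^ 3 := pow_le_pow_left₀ (by linarith) (by linarith) 3
      rw [mul_pow] at this
      linarith
    have h4 : |kk w| ≤ 112 / |w| ^ 3 := by
      rw [kk_formula hw, abs_mul]
      have hs := Real.abs_sin_le_one w
      have hc := Real.abs_cos_le_one w
      have e1 : |-(8 * Real.sin w) / w ^ 3| ≤ 8 / |w| ^ 3 := by
        rw [abs_div, abs_neg, abs_mul, abs_pow, abs_of_pos (by norm_num : (0 : ℝ) < 8)]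
        gcongr; linarith
      have e2 : |24 * Real.cos w / w ^ 4| ≤ 24 / |w| ^ 3 := by
        rw [abs_div, abs_mul, abs_pow, abs_of_pos (by norm_num : (0 : ℝ) < 24)]
        have : |w| ^ 3 ≤ |w| ^ 4 := pow_le_pow_right₀ h (by norm_num)
        calc 24 * |Real.cos w| / |w| ^ 4 ≤ 24 / |w| ^ 4 := by gcongr; linarith
          _ ≤ _ := by gcongr
      have e3 : |24 * Real.sin w / w ^ 5| ≤ 24 / |w| ^ 3 := by
        rw [abs_div, abs_mul, abs_pow, abs_of_pos (by norm_num : (0 : ℝ) < 24)]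
        have : |w| ^ 3 ≤ |w| ^ 5 := pow_le_pow_right₀ h (by norm_num)
        calc 24 * |Real.sin w| / |w| ^ 5 ≤ 24 / |w| ^ 5 := by gcongr; linarith
          _ ≤ _ := by gcongr
      have e4 := abs_add_le (-(8 * Real.sin w) / w ^ 3 - 24 * Real.cos w / w ^ 4)
        (24 * Real.sin w / w ^ 5)
      have e5 := abs_sub (-(8 * Real.sin w) / w ^ 3) (24 * Real.cos w / w ^ 4)
      rw [abs_of_pos (by norm_num : (0 : ℝ) < 2)]
      have : 112 / |w| ^ 3 = 2 * (8 / |w| ^ 3 + 24 / |w| ^ 3 + 24 / |w| ^ 3) := by ring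
      linarith
    refine h4.trans ?_
    rw [← div_eq_mul_inv, div_le_div_iff₀ (by positivity) (by positivity)]
    nlinarith [pow_pos hwp 3]

/-- the kernel of band `δ` -/
noncomputable def kb (δ w : ℝ) : ℝ := RR (fun α => fb (α / δ)) δ w

lemma kb_eq {δ : ℝ} (hδ : 0 < δ) (w : ℝ) : kb δ w = δ * kk (2 * Real.pi * (δ * w)) := by
  unfold kb RR kk
  have h := intervalIntegral.integral_comp_div (a := -δ) (b := δ)
    (f := fun β => fb β * Real.cos (2 * Real.pi * (δ * w) * β)) (c := δ) hδ.ne'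
  rw [neg_div, div_self hδ.ne', smul_eq_mul] at h
  rw [← h]
  apply intervalIntegral.integral_congr
  intro α _
  show fb (α / δ) * Real.cos (2 * Real.pi * α * w) =
    fb (α / δ) * Real.cos (2 * Real.pi * (δ * w) * (α / δ))
  congr 2
  field_simp

lemma pf_cont (δ : ℝ) : Continuous (fun α => fb (α / δ)) := fb_cont.comp (continuous_id.div_const δ)

lemma pf_zero {δ : ℝ} (hδ : 0 < δ) (x : ℝ) (h : δ ≤ |x|) : fb (x / δ) = 0 := by
  apply fb_zero
  rw [abs_div, abs_of_pos hδ, le_div_iff₀ hδ]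
  linarith

lemma kb_cont (δ : ℝ) : Continuous (kb δ) := RR_cont (pf_cont δ)

lemma kb_even (δ w : ℝ) : kb δ (-w) = kb δ w := RR_even w

/-- decay of the kernel -/
lemma kb_dec {δ : ℝ} (hδ : 0 < δ) (hδ1 : δ ≤ 1) (w : ℝ) :
    |kb δ w| ≤ 900 / δ ^ 2 * ((1 + 2 * Real.pi * |w|) ^ 3)⁻¹ := by
  have hpi := Real.pi_pos
  rw [kb_eq hδ, abs_mul, abs_of_pos hδ]
  have h1 := kk_dec (2 * Real.pi * (δ * w))
  have e1 : |2 * Real.pi * (δ * w)| = 2 * Real.pi * |w| * δ := by
    rw [abs_mul, abs_mul δ, abs_of_pos (by positivity : 0 < 2 * Real.pi), abs_of_pos hδ]; ring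
  rw [e1] at h1
  have hw := abs_nonneg w
  have h2 : δ * (1 + 2 * Real.pi * |w|) ≤ 1 + 2 * Real.pi * |w| * δ := by nlinarith
  have h3 : (δ * (1 + 2 * Real.pi * |w|)) ^ 3 ≤ (1 + 2 * Real.pi * |w| * δ) ^ 3 :=
    pow_le_pow_left₀ (by positivity) h2 3
  calc δ * |kk (2 * Real.pi * (δ * w))| ≤ δ * (900 * ((1 + 2 * Real.pi * |w| * δ) ^ 3)⁻¹) := by
        gcongr
    _ ≤ δ * (900 * ((δ * (1 + 2 * Real.pi * |w|)) ^ 3)⁻¹) := by gcongr
    _ = _ := by
        rw [mul_pow]
        field_simp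

lemma kb_int {δ : ℝ} (hδ : 0 < δ) (hδ1 : δ ≤ 1) : Integrable (kb δ) ∧ ∫ w, kb δ w = 1 := by
  have hpi := Real.pi_pos
  have hC : ∀ x, |RR (fun α => fb (α / δ)) δ x| * x ^ 2 ≤ 900 / δ ^ 2 := by
    intro x
    have h := kb_dec hδ hδ1 x
    have hx := abs_nonneg x
    have h2 : x ^ 2 ≤ (1 + 2 * Real.pi * |x|) ^ 3 := by
      rw [← sq_abs]
      have hpi3 := Real.pi_gt_three
      have : |x| ≤ 1 + 2 * Real.pi * |x| := by nlinarith
      calc |x| ^ 2 ≤ (1 + 2 * Real.pi * |x|) ^ 2 := pow_le_pow_left₀ hx this 2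
        _ ≤ _ := pow_le_pow_right₀ (by nlinarith) (by norm_num)
    calc |RR (fun α => fb (α / δ)) δ x| * x ^ 2 ≤
        (900 / δ ^ 2 * ((1 + 2 * Real.pi * |x|) ^ 3)⁻¹) * (1 + 2 * Real.pi * |x|) ^ 3 := by
          have h' : |RR (fun α => fb (α / δ)) δ x| ≤
            900 / δ ^ 2 * ((1 + 2 * Real.pi * |x|) ^ 3)⁻¹ := h
          gcongr
      _ = 900 / δ ^ 2 := by
          have : (1 + 2 * Real.pi * |x|) ^ 3 ≠ 0 := by positivity
          field_simp
  refine ⟨RR_integrable (pf_cont δ) (pf_zero hδ) hC, ?_⟩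
  have h := RR_inv (pf_cont δ) (pf_zero hδ) hC 0
  simp only [mul_zero, Real.cos_zero, mul_one] at h
  show ∫ w, RR (fun α => fb (α / δ)) δ w = 1
  rw [h]
  unfold evp
  show (fb (0 / δ) + fb (-0 / δ)) / 2 = 1
  rw [neg_zero, zero_div, fb_in (by norm_num)]
  norm_num

/-- the primitive -/
noncomputable def hb (δ y : ℝ) : ℝ := ∫ w in (0 : ℝ)..y, kb δ w

lemma hb_neg (δ y : ℝ) : hb δ (-y) = -hb δ y := by
  unfold hb
  have h := intervalIntegral.integral_comp_neg (a := (0 : ℝ)) (b := y) (f := kb δ)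
  simp only [kb_even, neg_zero] at h
  rw [h, intervalIntegral.integral_symm]

lemma hb_sub_le {δ : ℝ} (hδ : 0 < δ) (hδ1 : δ ≤ 1) {y z : ℝ} (hy : 0 ≤ y) (hyz : y ≤ z) :
    |hb δ z - hb δ y| ≤ 900 / δ ^ 2 * ((1 + 2 * Real.pi * y) ^ 2)⁻¹ := by
  have hpi := Real.pi_pos
  unfold hb
  rw [intervalIntegral.integral_interval_sub_left ((kb_cont δ).intervalIntegrable _ _)
    ((kb_cont δ).intervalIntegrable _ _), ← Real.norm_eq_abs]
  have h1 := intervalIntegral.norm_integral_le_integral_norm (f := kb δ) (μ := volume) hyz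
  refine h1.trans ?_
  have h2 : ∫ w in y..z, ‖kb δ w‖ ≤ ∫ w in y..z, 900 / δ ^ 2 * ((1 + 2 * Real.pi * w) ^ 3)⁻¹ := by
    apply intervalIntegral.integral_mono_on hyz
    · exact (kb_cont δ).norm.intervalIntegrable _ _
    · apply ContinuousOn.intervalIntegrable
      rw [Set.uIcc_of_le hyz]
      apply ContinuousOn.mul continuousOn_const
      apply ContinuousOn.inv₀ (by fun_prop)
      intro w hw
      have := hy.trans hw.1
      positivity
    · intro w hw
      have := kb_dec hδ hδ1 w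
      rw [abs_of_nonneg (hy.trans hw.1)] at this
      exact this
  refine h2.trans ?_
  rw [intervalIntegral.integral_const_mul]
  apply mul_le_mul_of_nonneg_left _ (by positivity)
  have h3 : ∫ w in y..z, ((1 + 2 * Real.pi * w) ^ 3)⁻¹ =
      -(4 * Real.pi)⁻¹ * ((1 + 2 * Real.pi * z) ^ 2)⁻¹ -
      -(4 * Real.pi)⁻¹ * ((1 + 2 * Real.pi * y) ^ 2)⁻¹ := by
    apply intervalIntegral.integral_eq_sub_of_hasDerivAt
      (f := fun w => -(4 * Real.pi)⁻¹ * ((1 + 2 * Real.pi * w) ^ 2)⁻¹)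
    · intro w hw
      rw [Set.uIcc_of_le hyz] at hw
      have hw0 := hy.trans hw.1
      have hne : (1 + 2 * Real.pi * w) ≠ 0 := by positivity
      have h := ((((hasDerivAt_id w).const_mul (2 * Real.pi)).const_add 1).pow 2).inv
        (by simpa using pow_ne_zero 2 hne) |>.const_mul (-(4 * Real.pi)⁻¹)
      refine HasDerivAt.congr_deriv h ?_
      simp
      field_simp
      ring
    · apply ContinuousOn.intervalIntegrable
      rw [Set.uIcc_of_le hyz]
      apply ContinuousOn.inv₀ (by fun_prop)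
      intro w hw
      have := hy.trans hw.1
      positivity
  rw [h3]
  have hz : 0 ≤ ((1 + 2 * Real.pi * z) ^ 2)⁻¹ := by positivity
  have hy' : 0 ≤ ((1 + 2 * Real.pi * y) ^ 2)⁻¹ := by positivity
  have h4 : (4 * Real.pi)⁻¹ ≤ 1 := by
    apply inv_le_one_of_one_le₀
    have := Real.pi_gt_three
    linarith
  have h5 : 0 ≤ (4 * Real.pi)⁻¹ := by positivity
  nlinarith

lemma hb_lim {δ : ℝ} (hδ : 0 < δ) (hδ1 : δ ≤ 1) : Tendsto (hb δ) atTop (𝓝 (1 / 2)) := by
  obtain ⟨hi, h1⟩ := kb_int hδ hδ1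
  have h2 : Tendsto (fun z : ℝ => ∫ w in (-z)..z, kb δ w) atTop (𝓝 (∫ w, kb δ w)) :=
    intervalIntegral_tendsto_integral hi tendsto_neg_atTop_atBot tendsto_id
  rw [h1] at h2
  have h3 : (fun z : ℝ => ∫ w in (-z)..z, kb δ w) = fun z => 2 * hb δ z := by
    funext z
    have e : ∫ w in (-z)..z, kb δ w = hb δ z - hb δ (-z) := by
      unfold hb
      rw [intervalIntegral.integral_interval_sub_left ((kb_cont δ).intervalIntegrable _ _)
        ((kb_cont δ).intervalIntegrable _ _)]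
    rw [e, hb_neg]; ring
  rw [h3] at h2
  have h4 := h2.const_mul (1 / 2)
  refine (h4.congr fun z => ?_).trans_eq (by norm_num)
  ring

lemma hb_half {δ : ℝ} (hδ : 0 < δ) (hδ1 : δ ≤ 1) {y : ℝ} (hy : 0 ≤ y) :
    |1 / 2 - hb δ y| ≤ 900 / δ ^ 2 * ((1 + 2 * Real.pi * y) ^ 2)⁻¹ := by
  have h1 : Tendsto (fun z => |hb δ z - hb δ y|) atTop (𝓝 |1 / 2 - hb δ y|) :=
    ((hb_lim hδ hδ1).sub_const _).abs
  refine le_of_tendsto h1 ?_
  filter_upwards [eventually_ge_atTop y] with z hz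
  exact hb_sub_le hδ hδ1 hy hz

/-- sign with value `-1` at zero -/
noncomputable def sg1 (y : ℝ) : ℝ := if 0 < y then 1 else -1

lemma hb_sg {δ : ℝ} (hδ : 0 < δ) (hδ1 : δ ≤ 1) (y : ℝ) :
    |hb δ y - sg1 y / 2| ≤ 900 / δ ^ 2 * ((1 + 2 * Real.pi * |y|) ^ 2)⁻¹ := by
  unfold sg1
  rcases lt_trichotomy y 0 with h | h | h
  · rw [if_neg (by linarith), abs_of_neg h]
    have h1 := hb_half hδ hδ1 (y := -y) (by linarith)
    rw [hb_neg] at h1
    have e : hb δ y - -1 / 2 = 1 / 2 - -hb δ y := by ring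
    rw [e]; exact h1
  · rw [h, if_neg (by linarith)]
    have : hb δ 0 = 0 := by unfold hb; simp
    rw [this]
    have h2 : 1 ≤ 900 / δ ^ 2 := by
      rw [le_div_iff₀ (by positivity)]
      nlinarith
    norm_num
    linarith
  · rw [if_pos h, abs_of_pos h, abs_sub_comm]
    exact hb_half hδ hδ1 h.le

/-- the transform of the interval of length `x` -/
noncomputable def cb (x α : ℝ) : ℝ := ∫ v in (-(x / 2))..(x / 2), Real.cos (2 * Real.pi * α * v)

/-- the test function of the window of length `x` -/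
noncomputable def psb (δ x α : ℝ) : ℝ := fb (α / δ) * cb x α

lemma cb_even (x α : ℝ) : cb x (-α) = cb x α := by
  unfold cb
  apply intervalIntegral.integral_congr
  intro v _
  show Real.cos (2 * Real.pi * -α * v) = _
  rw [← Real.cos_neg]
  congr 1; ring

lemma cb_zero (x : ℝ) : cb x 0 = x := by
  unfold cb
  simp

lemma cb_formula (x : ℝ) {α : ℝ} (h : α ≠ 0) : cb x α = Real.sin (Real.pi * α * x) / (Real.pi * α) := by
  have hpi := Real.pi_pos
  unfold cb
  have hc : 2 * Real.pi * α ≠ 0 := by positivity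
  rw [intervalIntegral.integral_comp_mul_left (fun v => Real.cos v) hc, integral_cos, smul_eq_mul]
  have e1 : 2 * Real.pi * α * (x / 2) = Real.pi * α * x := by ring
  have e2 : 2 * Real.pi * α * (-(x / 2)) = -(Real.pi * α * x) := by ring
  rw [e1, e2, Real.sin_neg]
  field_simp
  ring

lemma cb_le {x : ℝ} (hx : 0 ≤ x) (α : ℝ) : |cb x α| ≤ x := by
  unfold cb
  have h := intervalIntegral.norm_integral_le_of_norm_le_const (a := -(x / 2)) (b := x / 2) (C := 1)
    (f := fun v => Real.cos (2 * Real.pi * α * v)) (fun v _ => by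
      rw [Real.norm_eq_abs]; exact Real.abs_cos_le_one _)
  rw [Real.norm_eq_abs] at h
  have e : |x / 2 - -(x / 2)| = x := by rw [abs_of_nonneg (by linarith)]; ring
  rw [e] at h
  linarith

lemma cb_lip {x : ℝ} (hx : 0 ≤ x) (α β : ℝ) : |cb x α - cb x β| ≤ 4 * x ^ 2 * |α - β| := by
  unfold cb
  rw [← intervalIntegral.integral_sub (Continuous.intervalIntegrable (by fun_prop) _ _)
    (Continuous.intervalIntegrable (by fun_prop) _ _)]
  have h := intervalIntegral.norm_integral_le_of_norm_le_const (a := -(x / 2)) (b := x / 2)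
    (C := 4 * x * |α - β|)
    (f := fun v => Real.cos (2 * Real.pi * α * v) - Real.cos (2 * Real.pi * β * v)) (fun v hv => by
      rw [Real.norm_eq_abs]
      rw [Set.uIoc_of_le (by linarith)] at hv
      have hv1 : |v| ≤ x / 2 := abs_le.2 ⟨hv.1.le, hv.2⟩
      have h1 := Real.abs_cos_sub_cos_le (2 * Real.pi * α * v) (2 * Real.pi * β * v)
      refine h1.trans ?_
      have e : 2 * Real.pi * α * v - 2 * Real.pi * β * v = 2 * Real.pi * ((α - β) * v) := by ring
      rw [e, abs_mul, abs_mul (α - β), abs_of_pos (by positivity : 0 < 2 * Real.pi)]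
      have hpi4 := Real.pi_le_four
      have := abs_nonneg (α - β)
      have := abs_nonneg v
      calc 2 * Real.pi * (|α - β| * |v|) ≤ 2 * 4 * (|α - β| * (x / 2)) := by gcongr
        _ = _ := by ring)
  rw [Real.norm_eq_abs] at h
  have e : |x / 2 - -(x / 2)| = x := by rw [abs_of_nonneg (by linarith)]; ring
  rw [e] at h
  calc _ ≤ _ := h
    _ = _ := by ring

lemma psb_even (δ x α : ℝ) : psb δ x (-α) = psb δ x α := by
  unfold psb; rw [cb_even, neg_div, fb_even]

lemma psb_evp (δ x α : ℝ) : evp (psb δ x) α = psb δ x α := by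
  unfold evp; rw [psb_even]; ring

lemma psb_zero_val (δ x : ℝ) : psb δ x 0 = x := by
  unfold psb; rw [cb_zero, zero_div, fb_in (by norm_num)]; norm_num

lemma psb_zero {δ : ℝ} (hδ : 0 < δ) (x α : ℝ) (h : δ ≤ |α|) : psb δ x α = 0 := by
  unfold psb; rw [pf_zero hδ α h, zero_mul]

lemma psb_le {δ x : ℝ} (hx : 0 ≤ x) (α : ℝ) : |psb δ x α| ≤ x := by
  unfold psb
  rw [abs_mul, abs_of_nonneg (fb_nonneg _)]
  have h1 := fb_le (α / δ)
  have h2 := fb_nonneg (α / δ)
  have h3 := cb_le hx α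
  have h4 := abs_nonneg (cb x α)
  nlinarith

lemma psb_lip {δ x : ℝ} (hδ : 0 < δ) (hx : 0 ≤ x) (α β : ℝ) :
    |psb δ x α - psb δ x β| ≤ (4 / δ * x + 4 * x ^ 2) * |α - β| := by
  unfold psb
  have e : fb (α / δ) * cb x α - fb (β / δ) * cb x β =
      (fb (α / δ) - fb (β / δ)) * cb x α + fb (β / δ) * (cb x α - cb x β) := by ring
  rw [e]
  refine (abs_add_le _ _).trans ?_
  rw [abs_mul, abs_mul, abs_of_nonneg (fb_nonneg _)]
  have h1 := fb_lip (α / δ) (β / δ)
  have e1 : |α / δ - β / δ| = |α - β| / δ := by rw [← sub_div, abs_div, abs_of_pos hδ]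
  rw [e1] at h1
  have h2 := cb_le hx α
  have h3 := cb_lip hx α β
  have h4 := fb_le (β / δ)
  have h5 := fb_nonneg (β / δ)
  have h6 := abs_nonneg (α - β)
  have h7 := abs_nonneg (cb x α - cb x β)
  calc |fb (α / δ) - fb (β / δ)| * |cb x α| + fb (β / δ) * |cb x α - cb x β| ≤
      (4 * (|α - β| / δ)) * x + 1 * (4 * x ^ 2 * |α - β|) := by gcongr
    _ = _ := by field_simp

lemma psb_cont {δ x : ℝ} (hδ : 0 < δ) (hx : 0 ≤ x) : Continuous (psb δ x) := by
  have h : LipschitzWith (Real.toNNReal (4 / δ * x + 4 * x ^ 2)) (psb δ x) :=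
    LipschitzWith.of_dist_le_mul fun α β => by
      rw [Real.dist_eq, Real.dist_eq, Real.coe_toNNReal _ (by positivity)]
      exact psb_lip hδ hx α β
  exact h.continuous

/-- the transform is a difference of primitives -/
lemma psb_RR {δ x : ℝ} (u : ℝ) :
    RR (psb δ x) δ u = hb δ (u + x / 2) - hb δ (u - x / 2) := by
  have h1 : hb δ (u + x / 2) - hb δ (u - x / 2) = ∫ v in (-(x / 2))..(x / 2), kb δ (u - v) := by
    unfold hb
    rw [intervalIntegral.integral_interval_sub_left ((kb_cont δ).intervalIntegrable _ _)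
      ((kb_cont δ).intervalIntegrable _ _), intervalIntegral.integral_comp_sub_left]
    congr 1 <;> ring
  rw [h1]
  unfold kb RR
  have hc : Continuous (Function.uncurry fun α v : ℝ =>
      fb (α / δ) * Real.cos (2 * Real.pi * α * (u - v))) := by
    have := pf_cont δ
    have h2 : Continuous fun q : ℝ × ℝ => fb (q.1 / δ) * Real.cos (2 * Real.pi * q.1 * (u - q.2)) :=
      (this.comp continuous_fst).mul (by fun_prop)
    exact h2
  have e2 : ∫ v in (-(x / 2))..(x / 2), ∫ α in (-δ)..δ,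
      (fun α => fb (α / δ)) α * Real.cos (2 * Real.pi * α * (u - v)) =
      ∫ α in (-δ)..δ, ∫ v in (-(x / 2))..(x / 2),
      fb (α / δ) * Real.cos (2 * Real.pi * α * (u - v)) := by
    symm
    apply intervalIntegral_intervalIntegral_swap
    apply (hc.continuousOn.integrableOn_compact
      (isCompact_uIcc.prod isCompact_uIcc)).mono_set
    exact Set.prod_mono Set.uIoc_subset_uIcc Set.uIoc_subset_uIcc
  rw [e2]
  apply intervalIntegral.integral_congr
  intro α _
  show fb (α / δ) * cb x α * Real.cos (2 * Real.pi * α * u) =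
    ∫ v in (-(x / 2))..(x / 2), fb (α / δ) * Real.cos (2 * Real.pi * α * (u - v))
  rw [intervalIntegral.integral_const_mul, mul_assoc]
  congr 1
  have e3 : ∀ v : ℝ, Real.cos (2 * Real.pi * α * (u - v)) =
      Real.cos (2 * Real.pi * α * u) * Real.cos (2 * Real.pi * α * v) +
        Real.sin (2 * Real.pi * α * u) * Real.sin (2 * Real.pi * α * v) := by
    intro v
    rw [← Real.cos_sub]
    congr 1; ring
  simp only [e3]
  rw [intervalIntegral.integral_add (Continuous.intervalIntegrable (by fun_prop) _ _)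
    (Continuous.intervalIntegrable (by fun_prop) _ _), intervalIntegral.integral_const_mul,
    intervalIntegral.integral_const_mul]
  have e4 : ∫ v in (-(x / 2))..(x / 2), Real.sin (2 * Real.pi * α * v) = 0 := by
    have h := intervalIntegral.integral_comp_neg (a := -(x / 2)) (b := x / 2)
      (f := fun v => Real.sin (2 * Real.pi * α * v))
    rw [neg_neg] at h
    have h' : ∫ v in (-(x / 2))..(x / 2), Real.sin (2 * Real.pi * α * -v) =
        -∫ v in (-(x / 2))..(x / 2), Real.sin (2 * Real.pi * α * v) := by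
      rw [← intervalIntegral.integral_neg]
      apply intervalIntegral.integral_congr
      intro v _
      show Real.sin (2 * Real.pi * α * -v) = -Real.sin (2 * Real.pi * α * v)
      rw [← Real.sin_neg]
      congr 1; ring
    rw [h'] at h
    linarith
  rw [e4]
  unfold cb
  ring

/-- **the smoothed indicator** -/
theorem psb_ind {δ x : ℝ} (hδ : 0 < δ) (hδ1 : δ ≤ 1) (hx : 0 < x) (u : ℝ) :
    |RR (psb δ x) δ u - (if -(x / 2) < u ∧ u ≤ x / 2 then 1 else 0)| ≤
      900 / δ ^ 2 * (((1 + 2 * Real.pi * |u + x / 2|) ^ 2)⁻¹ +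
        ((1 + 2 * Real.pi * |u - x / 2|) ^ 2)⁻¹) := by
  rw [psb_RR]
  have h1 := hb_sg hδ hδ1 (u + x / 2)
  have h2 := hb_sg hδ hδ1 (u - x / 2)
  have e : (if -(x / 2) < u ∧ u ≤ x / 2 then (1 : ℝ) else 0) =
      sg1 (u + x / 2) / 2 - sg1 (u - x / 2) / 2 := by
    unfold sg1
    by_cases a1 : -(x / 2) < u
    · by_cases a2 : u ≤ x / 2
      · rw [if_pos ⟨a1, a2⟩, if_pos (by linarith), if_neg (by linarith)]; norm_num
      · rw [if_neg (fun h => a2 h.2), if_pos (by linarith), if_pos (by linarith)]; norm_num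
    · rw [if_neg (fun h => a1 h.1), if_neg (by linarith), if_neg (by linarith)]; norm_num
  rw [e]
  have e2 : hb δ (u + x / 2) - hb δ (u - x / 2) - (sg1 (u + x / 2) / 2 - sg1 (u - x / 2) / 2) =
      (hb δ (u + x / 2) - sg1 (u + x / 2) / 2) - (hb δ (u - x / 2) - sg1 (u - x / 2) / 2) := by ring
  rw [e2]
  refine (abs_sub _ _).trans ?_
  linarith

lemma sh_le {x : ℝ} (hx : 0 ≤ x) (u v : ℝ) (hv : |v| ≤ x / 2) :
    ((1 + 2 * Real.pi * |u + v|) ^ 2)⁻¹ ≤
      (1 + Real.pi * x) ^ 2 * ((1 + |2 * Real.pi * u|) ^ 2)⁻¹ := by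
  have hpi := Real.pi_pos
  have h0 := abs_nonneg (u + v)
  have h1 : |2 * Real.pi * u| = 2 * Real.pi * |u| := by
    rw [abs_mul, abs_of_pos (by positivity : 0 < 2 * Real.pi)]
  have h2 : |u| ≤ |u + v| + |v| := by
    have := abs_sub (u + v) v
    rw [add_sub_cancel_right] at this
    exact this
  have h3 : 1 + |2 * Real.pi * u| ≤ (1 + Real.pi * x) * (1 + 2 * Real.pi * |u + v|) := by
    rw [h1]
    have a1 : 2 * Real.pi * |u| ≤ 2 * Real.pi * |u + v| + Real.pi * x := by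
      have : 2 * Real.pi * |u| ≤ 2 * Real.pi * (|u + v| + |v|) := by gcongr
      nlinarith
    have a2 : 0 ≤ Real.pi * x * (2 * Real.pi * |u + v|) := by positivity
    linarith
  have h4 : (1 + |2 * Real.pi * u|) ^ 2 ≤ (1 + Real.pi * x) ^ 2 * (1 + 2 * Real.pi * |u + v|) ^ 2 := by
    rw [← mul_pow]
    exact pow_le_pow_left₀ (by positivity) h3 2
  rw [inv_eq_one_div, ← div_eq_mul_inv, div_le_div_iff₀ (by positivity) (by positivity)]
  linarith

lemma rp2 (y : ℝ) : (1 + |y|) ^ (-2 : ℝ) = ((1 + |y|) ^ 2)⁻¹ := by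
  rw [Real.rpow_neg (by positivity)]
  norm_num

/-- decay of the smoothed indicator -/
lemma psb_dk {δ x : ℝ} (hδ : 0 < δ) (hδ1 : δ ≤ 1) (hx : 0 < x) :
    Dk ((1 + Real.pi * x) ^ 2 * (1 + 2 * (900 / δ ^ 2))) (RR (psb δ x) δ) := by
  intro u
  have hpi := Real.pi_pos
  rw [rp2]
  have h1 := psb_ind hδ hδ1 hx u
  have h2 := sh_le hx.le u (x / 2) (by rw [abs_of_pos (by positivity)])
  have h3 := sh_le hx.le u (-(x / 2)) (by rw [abs_neg, abs_of_pos (by positivity)])
  rw [← sub_eq_add_neg] at h3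
  set D := (1 + Real.pi * x) ^ 2 * ((1 + |2 * Real.pi * u|) ^ 2)⁻¹ with hD
  have hD0 : 0 ≤ D := by positivity
  have h4 : |(if -(x / 2) < u ∧ u ≤ x / 2 then (1 : ℝ) else 0)| ≤ D := by
    split_ifs with h
    · rw [abs_one, hD, ← div_eq_mul_inv, le_div_iff₀ (by positivity), one_mul]
      apply pow_le_pow_left₀ (by positivity)
      rw [abs_mul, abs_of_pos (by positivity : 0 < 2 * Real.pi)]
      have : |u| ≤ x / 2 := abs_le.2 ⟨h.1.le, h.2⟩
      nlinarith
    · rw [abs_zero]; exact hD0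
  have h5 : 0 ≤ 900 / δ ^ 2 := by positivity
  have h6 : |RR (psb δ x) δ u| ≤ |RR (psb δ x) δ u -
      (if -(x / 2) < u ∧ u ≤ x / 2 then 1 else 0)| +
      |(if -(x / 2) < u ∧ u ≤ x / 2 then (1 : ℝ) else 0)| := by
    have := abs_add_le (RR (psb δ x) δ u - (if -(x / 2) < u ∧ u ≤ x / 2 then 1 else 0))
      (if -(x / 2) < u ∧ u ≤ x / 2 then (1 : ℝ) else 0)
    rwa [sub_add_cancel] at this
  calc |RR (psb δ x) δ u| ≤ 900 / δ ^ 2 * (D + D) + D := by
        have : 900 / δ ^ 2 * (((1 + 2 * Real.pi * |u + x / 2|) ^ 2)⁻¹ +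
          ((1 + 2 * Real.pi * |u - x / 2|) ^ 2)⁻¹) ≤ 900 / δ ^ 2 * (D + D) := by gcongr
        linarith
    _ = _ := by rw [hD]; ring

/-- the family of window test functions -/
lemma psb_TT {m : ℕ} {δ : ℝ} (hδ : 0 < δ) (hδ1 : δ ≤ 1) {x : Fin m → ℝ} (hx : ∀ j, 0 < x j) :
    TT (fun j => psb δ (x j)) δ := by
  have hs : ∀ (f : Fin m → ℝ), (∀ j, 0 ≤ f j) → ∀ j, f j ≤ ∑ i, f i := fun f hf j =>
    Finset.single_le_sum (f := f) (fun i _ => hf i) (Finset.mem_univ j)
  refine ⟨fun j => psb_cont hδ (hx j).le, fun j y hy => psb_zero hδ _ _ hy,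
    ⟨∑ i, (4 / δ * x i + 4 * x i ^ 2), fun j y z => ?_⟩, ⟨1 + ∑ i, x i, ?_, fun j y => ?_⟩,
    ⟨1 + ∑ i, (1 + Real.pi * x i) ^ 2 * (1 + 2 * (900 / δ ^ 2)), ?_, fun j u => ?_⟩⟩
  · rw [psb_evp, psb_evp]
    refine (psb_lip hδ (hx j).le y z).trans ?_
    apply mul_le_mul_of_nonneg_right _ (abs_nonneg _)
    exact hs (fun i => 4 / δ * x i + 4 * x i ^ 2) (fun i => by
      have := hx i
      positivity) j
  · have := Finset.sum_nonneg (s := Finset.univ) (fun i _ => (hx i).le)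
    linarith
  · rw [psb_evp]
    have := hs x (fun i => (hx i).le) j
    linarith [psb_le (δ := δ) (hx j).le y]
  · have hpi := Real.pi_pos
    have : 0 ≤ ∑ i, (1 + Real.pi * x i) ^ 2 * (1 + 2 * (900 / δ ^ 2)) :=
      Finset.sum_nonneg (fun i _ => by positivity)
    linarith
  · refine (psb_dk hδ hδ1 (hx j) u).trans ?_
    apply mul_le_mul_of_nonneg_right _ (by positivity)
    have := hs (fun i => (1 + Real.pi * x i) ^ 2 * (1 + 2 * (900 / δ ^ 2)))
      (fun i => by positivity) j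
    linarith

end Pool.Agent.H478.CW
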