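import Pool.Agent.H478.CW6

/-! The covariances of the window counts. -/

open Finset Complex MeasureTheory Filter Topology

namespace Pool.Agent.H478.CW

open Pool.Agent.R321.FA
open H370.A2 (RR evp evp_zero)

/-- the basic kernel -/
noncomputable def gc (c v : ℝ) : ℝ := (1 - Real.cos (c * v)) / v

lemma gc_eq (c v : ℝ) : gc c v = c * Real.sin (c * v / 2) * Real.sinc (c * v / 2) := by
  unfold gc
  rcases eq_or_ne v 0 with h | h
  · rw [h]; simp
  rcases eq_or_ne c 0 with hc | hc
  · rw [hc]; simp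
  have h1 : c * v / 2 ≠ 0 := by positivity
  rw [Real.sinc_of_ne_zero h1]
  have h2 : Real.cos (c * v) = 1 - 2 * Real.sin (c * v / 2) ^ 2 := by
    have := Real.cos_sq' (c * v / 2)
    have h3 := Real.cos_two_mul (c * v / 2)
    rw [mul_div_cancel₀ _ (by norm_num : (2 : ℝ) ≠ 0)] at h3
    rw [h3, this]; ring
  rw [h2]
  field_simp
  ring

lemma gc_cont (c : ℝ) : Continuous (gc c) := by
  have : gc c = fun v => c * Real.sin (c * v / 2) * Real.sinc (c * v / 2) := funext (gc_eq c)
  rw [this]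
  exact (by fun_prop : Continuous fun v : ℝ => c * Real.sin (c * v / 2)).mul
    (Real.continuous_sinc.comp (by fun_prop))

lemma gc_nonneg (c : ℝ) {v : ℝ} (hv : 0 ≤ v) : 0 ≤ gc c v := by
  unfold gc
  apply div_nonneg _ hv
  linarith [Real.cos_le_one (c * v)]

lemma gc_le (c : ℝ) {v : ℝ} (hv : 0 ≤ v) : gc c v ≤ c ^ 2 * v / 2 := by
  unfold gc
  rcases eq_or_lt_of_le hv with h | h
  · rw [← h]; simp
  · rw [div_le_iff₀ h]
    have := Real.one_sub_sq_div_two_le_cos (x := c * v)
    nlinarith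

/-- the variance function -/
noncomputable def Wf (δ x : ℝ) : ℝ := ∫ v in (0 : ℝ)..1, fb (v / δ) ^ 2 * gc (2 * Real.pi * x) v

lemma Wf_int (δ x : ℝ) (a b : ℝ) :
    IntervalIntegrable (fun v => fb (v / δ) ^ 2 * gc (2 * Real.pi * x) v) volume a b :=
  (((pf_cont δ).pow 2).mul (gc_cont _)).intervalIntegrable _ _

lemma Wf_neg (δ x : ℝ) : Wf δ (-x) = Wf δ x := by
  unfold Wf gc
  apply intervalIntegral.integral_congr
  intro v _
  show fb (v / δ) ^ 2 * ((1 - Real.cos (2 * Real.pi * -x * v)) / v) = _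
  rw [← Real.cos_neg]
  congr 4; ring

lemma Wf_zero (δ : ℝ) : Wf δ 0 = 0 := by
  unfold Wf gc; simp

/-- the covariances -/
lemma cov_eq (δ : ℝ) (x y : ℝ) :
    2 * ∫ v in (0 : ℝ)..1, v * evp (psb δ x) v * evp (psb δ y) v *
      Real.cos (2 * Real.pi * (x / 2 - y / 2) * v) =
    (Wf δ x + Wf δ y - Wf δ (x - y)) / (2 * Real.pi ^ 2) := by
  have hpi := Real.pi_pos
  unfold Wf
  rw [← intervalIntegral.integral_add (Wf_int _ _ _ _) (Wf_int _ _ _ _),
    ← intervalIntegral.integral_sub ((Wf_int _ _ _ _).add (Wf_int _ _ _ _)) (Wf_int _ _ _ _),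
    ← intervalIntegral.integral_const_mul, ← intervalIntegral.integral_div]
  apply intervalIntegral.integral_congr
  intro v _
  show 2 * (v * evp (psb δ x) v * evp (psb δ y) v * Real.cos (2 * Real.pi * (x / 2 - y / 2) * v)) =
    (fb (v / δ) ^ 2 * gc (2 * Real.pi * x) v + fb (v / δ) ^ 2 * gc (2 * Real.pi * y) v -
      fb (v / δ) ^ 2 * gc (2 * Real.pi * (x - y)) v) / (2 * Real.pi ^ 2)
  rw [psb_evp, psb_evp]
  unfold psb gc
  rcases eq_or_ne v 0 with h | h
  · rw [h]; simp
  rw [cb_formula x h, cb_formula y h]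
  have e1 : 2 * Real.pi * x * v = 2 * (Real.pi * v * x) := by ring
  have e2 : 2 * Real.pi * y * v = 2 * (Real.pi * v * y) := by ring
  have e3 : 2 * Real.pi * (x / 2 - y / 2) * v = Real.pi * v * x - Real.pi * v * y := by ring
  have e4 : 2 * Real.pi * (x - y) * v = 2 * (Real.pi * v * x - Real.pi * v * y) := by ring
  rw [e1, e2, e3, e4]
  set A := Real.pi * v * x
  set B := Real.pi * v * y
  have h1 : Real.cos (2 * A) = 1 - 2 * Real.sin A ^ 2 := by
    have := Real.cos_sq' A
    rw [Real.cos_two_mul, this]; ring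
  have h2 : Real.cos (2 * B) = 1 - 2 * Real.sin B ^ 2 := by
    have := Real.cos_sq' B
    rw [Real.cos_two_mul, this]; ring
  have h3 : Real.cos (2 * (A - B)) = 2 * Real.cos (A - B) ^ 2 - 1 := Real.cos_two_mul _
  rw [h1, h2, h3]
  have h4 : Real.cos (A - B) = Real.cos A * Real.cos B + Real.sin A * Real.sin B := Real.cos_sub A B
  have h5 := Real.cos_sq' A
  have h6 := Real.cos_sq' B
  have key : 2 * (Real.sin A * Real.sin B * Real.cos (A - B)) =
      Real.sin A ^ 2 + Real.sin B ^ 2 - (1 - Real.cos (A - B) ^ 2) := by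
    rw [h4]
    have : (Real.cos A * Real.cos B + Real.sin A * Real.sin B) ^ 2 =
        Real.cos A ^ 2 * Real.cos B ^ 2 + 2 * (Real.sin A * Real.sin B * (Real.cos A * Real.cos B)) +
        Real.sin A ^ 2 * Real.sin B ^ 2 := by ring
    rw [this, h5, h6]
    ring
  field_simp
  linear_combination (2 : ℝ) * fb (v / δ) ^ 2 * key

lemma fb2_anti {δ : ℝ} (hδ : 0 < δ) : ∀ v ∈ Set.Icc 0 δ, 1 - fb (v / δ) ^ 2 ≤ 8 / δ * v := by
  intro v hv
  have h1 := fb_lip 0 (v / δ)
  have h0 : fb 0 = 1 := by rw [fb_in (by norm_num)]; norm_num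
  rw [h0, zero_sub, abs_neg, abs_of_nonneg (div_nonneg hv.1 hδ.le)] at h1
  have h2 := fb_le (v / δ)
  have h3 := fb_nonneg (v / δ)
  rw [abs_of_nonneg (by linarith)] at h1
  have e : 8 / δ * v = 2 * (4 * (v / δ)) := by field_simp; ring
  rw [e]
  nlinarith

/-- the oscillating part -/
lemma osc {δ x : ℝ} (hδ : 0 < δ) (hx : 1 / δ ≤ x) :
    |∫ v in (1 / x)..δ, fb (v / δ) ^ 2 / v * Real.cos (2 * Real.pi * x * v)| ≤ 1 := by
  have hpi := Real.pi_pos
  have hx0 : 0 < x := lt_of_lt_of_le (by positivity) hx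
  have hxd : 1 / x ≤ δ := by
    rw [div_le_iff₀ hx0]
    rw [div_le_iff₀ hδ] at hx
    linarith
  have hx1 : 0 < 1 / x := by positivity
  set G : ℝ → ℝ := fun v => (1 - (v / δ) ^ 2) ^ 4 / v with hG
  set G' : ℝ → ℝ := fun v => (-(8 * v / δ ^ 2) * (1 - (v / δ) ^ 2) ^ 3) / v -
    (1 - (v / δ) ^ 2) ^ 4 / v ^ 2 with hG'
  have hv0 : ∀ v ∈ Set.Icc (1 / x) δ, 0 < v := fun v hv => lt_of_lt_of_le hx1 hv.1
  have hsq : ∀ v ∈ Set.Icc (1 / x) δ, 0 ≤ 1 - (v / δ) ^ 2 ∧ 1 - (v / δ) ^ 2 ≤ 1 := by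
    intro v hv
    have h1 : 0 ≤ v / δ := div_nonneg (hv0 v hv).le hδ.le
    have h2 : v / δ ≤ 1 := by rw [div_le_one hδ]; exact hv.2
    constructor
    · nlinarith
    · nlinarith
  have hGd : ∀ v ∈ Set.Icc (1 / x) δ, HasDerivAt G (G' v) v := by
    intro v hv
    have hne := (hv0 v hv).ne'
    have h1 : HasDerivAt (fun v : ℝ => (1 - (v / δ) ^ 2) ^ 4)
        (-(8 * v / δ ^ 2) * (1 - (v / δ) ^ 2) ^ 3) v := by
      have h := ((((hasDerivAt_id v).div_const δ).pow 2).const_sub 1).pow 4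
      refine HasDerivAt.congr_deriv h ?_
      simp
      field_simp
      ring
    have h := h1.div (hasDerivAt_id v) hne
    refine HasDerivAt.congr_deriv h ?_
    simp only [id, hG', mul_one]
    field_simp
  have hG'n : ∀ v ∈ Set.Icc (1 / x) δ, G' v ≤ 0 := by
    intro v hv
    have h0 := hv0 v hv
    obtain ⟨h1, h2⟩ := hsq v hv
    have h3 : 0 ≤ (8 * v / δ ^ 2) * (1 - (v / δ) ^ 2) ^ 3 := by positivity
    have h4 : 0 ≤ (1 - (v / δ) ^ 2) ^ 4 / v ^ 2 := by positivity
    have h5 : -(8 * v / δ ^ 2) * (1 - (v / δ) ^ 2) ^ 3 / v ≤ 0 := by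
      apply div_nonpos_of_nonpos_of_nonneg _ h0.le
      linarith
    simp only [hG']
    linarith
  have hGc : ContinuousOn G' (Set.Icc (1 / x) δ) := by
    have hn : ∀ v ∈ Set.Icc (1 / x) δ, v ≠ 0 := fun v hv => (hv0 v hv).ne'
    apply ContinuousOn.sub
    · exact ContinuousOn.div (by fun_prop) continuousOn_id hn
    · exact ContinuousOn.div (by fun_prop) (by fun_prop) (fun v hv => pow_ne_zero 2 (hn v hv))
  have hc0 : 2 * Real.pi * x ≠ 0 := by positivity
  set S : ℝ → ℝ := fun v => Real.sin (2 * Real.pi * x * v) / (2 * Real.pi * x) with hS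
  have hSd : ∀ v, HasDerivAt S (Real.cos (2 * Real.pi * x * v)) v := by
    intro v
    have h := ((Real.hasDerivAt_sin (2 * Real.pi * x * v)).comp v
      ((hasDerivAt_id v).const_mul (2 * Real.pi * x))).div_const (2 * Real.pi * x)
    refine HasDerivAt.congr_deriv h ?_
    field_simp
  have hSb : ∀ v, |S v| ≤ 1 / (2 * Real.pi * x) := by
    intro v
    simp only [hS]
    rw [abs_div, abs_of_pos (by positivity : 0 < 2 * Real.pi * x)]
    have := Real.abs_sin_le_one (2 * Real.pi * x * v)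
    gcongr
  have hparts := intervalIntegral.integral_mul_deriv_eq_deriv_mul (a := 1 / x) (b := δ)
    (u := G) (v := S) (u' := G') (v' := fun v => Real.cos (2 * Real.pi * x * v))
    (fun v hv => hGd v (by rwa [Set.uIcc_of_le hxd] at hv)) (fun v _ => hSd v)
    (by
      apply ContinuousOn.intervalIntegrable
      rw [Set.uIcc_of_le hxd]; exact hGc)
    (Continuous.intervalIntegrable (by fun_prop) _ _)
  have e1 : ∫ v in (1 / x)..δ, fb (v / δ) ^ 2 / v * Real.cos (2 * Real.pi * x * v) =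
      ∫ v in (1 / x)..δ, G v * Real.cos (2 * Real.pi * x * v) := by
    apply intervalIntegral.integral_congr
    intro v hv
    rw [Set.uIcc_of_le hxd] at hv
    have h0 := hv0 v hv
    show fb (v / δ) ^ 2 / v * _ = (1 - (v / δ) ^ 2) ^ 4 / v * _
    rw [fb_in (by
      rw [abs_div, abs_of_pos hδ, abs_of_pos h0, div_le_one hδ]; exact hv.2)]
    ring
  rw [e1, hparts]
  have hGδ : G δ = 0 := by simp only [hG]; rw [div_self hδ.ne']; norm_num
  have hint : ∫ v in (1 / x)..δ, G' v = -G (1 / x) := by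
    rw [intervalIntegral.integral_eq_sub_of_hasDerivAt (f := G)
      (fun v hv => hGd v (by rwa [Set.uIcc_of_le hxd] at hv)) (by
      apply ContinuousOn.intervalIntegrable
      rw [Set.uIcc_of_le hxd]; exact hGc), hGδ]
    ring
  have hGx : 0 ≤ G (1 / x) ∧ G (1 / x) ≤ x := by
    obtain ⟨h1, h2⟩ := hsq (1 / x) ⟨le_rfl, hxd⟩
    have h3 : (1 - (1 / x / δ) ^ 2) ^ 4 ≤ 1 := pow_le_one₀ h1 h2
    simp only [hG]
    constructor
    · positivity
    · rw [div_le_iff₀ hx1]
      have : x * (1 / x) = 1 := by field_simp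
      rw [this]; exact h3
  have hb2 : |∫ v in (1 / x)..δ, G' v * S v| ≤ G (1 / x) * (1 / (2 * Real.pi * x)) := by
    rw [← Real.norm_eq_abs]
    have h1 := intervalIntegral.norm_integral_le_integral_norm (f := fun v => G' v * S v)
      (μ := volume) hxd
    refine h1.trans ?_
    have h2 : ∫ v in (1 / x)..δ, ‖G' v * S v‖ ≤
        ∫ v in (1 / x)..δ, (-(1 / (2 * Real.pi * x))) * G' v := by
      apply intervalIntegral.integral_mono_on hxd
      · apply ContinuousOn.intervalIntegrable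
        rw [Set.uIcc_of_le hxd]
        apply ContinuousOn.norm
        apply hGc.mul
        simp only [hS]
        fun_prop
      · apply ContinuousOn.intervalIntegrable
        rw [Set.uIcc_of_le hxd]
        exact continuousOn_const.mul hGc
      · intro v hv
        rw [norm_mul, Real.norm_eq_abs, Real.norm_eq_abs, abs_of_nonpos (hG'n v hv)]
        have := hSb v
        have := hG'n v hv
        nlinarith
    refine h2.trans ?_
    rw [intervalIntegral.integral_const_mul, hint]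
    apply le_of_eq; ring
  have hb1 : |G δ * S δ - G (1 / x) * S (1 / x)| ≤ G (1 / x) * (1 / (2 * Real.pi * x)) := by
    rw [hGδ, zero_mul, zero_sub, abs_neg, abs_mul, abs_of_nonneg hGx.1]
    exact mul_le_mul_of_nonneg_left (hSb _) hGx.1
  have h3 := abs_sub (G δ * S δ - G (1 / x) * S (1 / x)) (∫ v in (1 / x)..δ, G' v * S v)
  refine h3.trans ?_
  have h4 : G (1 / x) * (1 / (2 * Real.pi * x)) ≤ 1 / 2 := by
    calc G (1 / x) * (1 / (2 * Real.pi * x)) ≤ x * (1 / (2 * Real.pi * x)) := by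
          apply mul_le_mul_of_nonneg_right hGx.2 (by positivity)
      _ = 1 / (2 * Real.pi) := by field_simp
      _ ≤ 1 / 2 := by
          apply one_div_le_one_div_of_le (by norm_num)
          linarith [Real.pi_gt_three]
  linarith

/-- **the variance function is a logarithm** -/
theorem Wf_log {δ x : ℝ} (hδ : 0 < δ) (hδ1 : δ ≤ 1) (hx : 1 / δ ≤ x) :
    |Wf δ x - Real.log x| ≤ 29 - Real.log δ := by
  have hpi := Real.pi_pos
  have hx0 : 0 < x := lt_of_lt_of_le (by positivity) hx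
  have hxd : 1 / x ≤ δ := by
    rw [div_le_iff₀ hx0]
    rw [div_le_iff₀ hδ] at hx
    linarith
  have hx1 : 0 < 1 / x := by positivity
  have hlogδ : Real.log δ ≤ 0 := Real.log_nonpos hδ.le hδ1
  unfold Wf
  rw [← intervalIntegral.integral_add_adjacent_intervals (Wf_int δ x 0 (1 / x))
    (Wf_int δ x (1 / x) 1), ← intervalIntegral.integral_add_adjacent_intervals
    (Wf_int δ x (1 / x) δ) (Wf_int δ x δ 1)]
  have h3 : ∫ v in δ..1, fb (v / δ) ^ 2 * gc (2 * Real.pi * x) v = 0 := by
    rw [← intervalIntegral.integral_zero (a := δ) (b := 1) (μ := volume)]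
    apply intervalIntegral.integral_congr
    intro v hv
    rw [Set.uIcc_of_le hδ1] at hv
    show fb (v / δ) ^ 2 * _ = 0
    rw [pf_zero hδ v (by rw [abs_of_nonneg (hδ.le.trans hv.1)]; exact hv.1)]
    ring
  have h1 : |∫ v in (0 : ℝ)..(1 / x), fb (v / δ) ^ 2 * gc (2 * Real.pi * x) v| ≤ 20 := by
    rw [← Real.norm_eq_abs]
    have h := intervalIntegral.norm_integral_le_of_norm_le_const (a := (0 : ℝ)) (b := 1 / x)
      (C := 20 * x) (f := fun v => fb (v / δ) ^ 2 * gc (2 * Real.pi * x) v) (fun v hv => by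
        rw [Set.uIoc_of_le hx1.le] at hv
        rw [Real.norm_eq_abs, abs_mul, abs_of_nonneg (gc_nonneg _ hv.1.le),
          abs_of_nonneg (sq_nonneg _)]
        have a1 := gc_le (2 * Real.pi * x) hv.1.le
        have a2 : fb (v / δ) ^ 2 ≤ 1 := pow_le_one₀ (fb_nonneg _) (fb_le _)
        have a3 := gc_nonneg (2 * Real.pi * x) hv.1.le
        have a4 : fb (v / δ) ^ 2 * gc (2 * Real.pi * x) v ≤ 1 * ((2 * Real.pi * x) ^ 2 * v / 2) := by
          gcongr
        refine a4.trans ?_
        have a5 : (2 * Real.pi * x) ^ 2 * v / 2 ≤ (2 * Real.pi * x) ^ 2 * (1 / x) / 2 := by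
          have := hv.2
          gcongr
        have a6 : (2 * Real.pi * x) ^ 2 * (1 / x) / 2 = 2 * Real.pi ^ 2 * x := by
          field_simp
          try ring
        have a7 : Real.pi ^ 2 ≤ 10 := by
          have := Real.pi_lt_d2
          nlinarith
        nlinarith)
    rw [sub_zero, abs_of_pos hx1] at h
    calc _ ≤ _ := h
      _ = 20 := by field_simp
  have h2 : |(∫ v in (1 / x)..δ, fb (v / δ) ^ 2 * gc (2 * Real.pi * x) v) -
      Real.log x - Real.log δ| ≤ 9 := by
    have e0 : ∫ v in (1 / x)..δ, 1 / v = Real.log δ + Real.log x := by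
      rw [integral_one_div_of_pos hx1 hδ]
      rw [show δ / (1 / x) = δ * x by field_simp, Real.log_mul hδ.ne' hx0.ne']
    have hcI : ContinuousOn (fun v : ℝ => 1 / v) (Set.uIcc (1 / x) δ) := by
      rw [Set.uIcc_of_le hxd]
      exact ContinuousOn.div continuousOn_const continuousOn_id
        (fun v hv => (lt_of_lt_of_le hx1 hv.1).ne')
    have hi2 : IntervalIntegrable (fun v : ℝ => (1 - fb (v / δ) ^ 2) * (1 / v)) volume (1 / x) δ :=
      ContinuousOn.intervalIntegrable
        ((continuous_const.sub ((pf_cont δ).pow 2)).continuousOn.mul hcI)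
    have e1 : ∫ v in (1 / x)..δ, fb (v / δ) ^ 2 * gc (2 * Real.pi * x) v =
        (∫ v in (1 / x)..δ, 1 / v) - (∫ v in (1 / x)..δ, (1 - fb (v / δ) ^ 2) * (1 / v)) -
        ∫ v in (1 / x)..δ, fb (v / δ) ^ 2 / v * Real.cos (2 * Real.pi * x * v) := by
      rw [← intervalIntegral.integral_sub hcI.intervalIntegrable hi2,
        ← intervalIntegral.integral_sub (hcI.intervalIntegrable.sub hi2)]
      · apply intervalIntegral.integral_congr
        intro v hv
        rw [Set.uIcc_of_le hxd] at hv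
        have hne := (lt_of_lt_of_le hx1 hv.1).ne'
        show fb (v / δ) ^ 2 * ((1 - Real.cos (2 * Real.pi * x * v)) / v) =
          1 / v - (1 - fb (v / δ) ^ 2) * (1 / v) -
            fb (v / δ) ^ 2 / v * Real.cos (2 * Real.pi * x * v)
        field_simp
        ring
      · apply ContinuousOn.intervalIntegrable
        have : (fun v : ℝ => fb (v / δ) ^ 2 / v * Real.cos (2 * Real.pi * x * v)) =
            fun v => (fb (v / δ) ^ 2 * (1 / v)) * Real.cos (2 * Real.pi * x * v) := by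
          funext v; ring
        rw [this]
        exact (((pf_cont δ).pow 2).continuousOn.mul hcI).mul (by fun_prop)
    have h4 : |∫ v in (1 / x)..δ, (1 - fb (v / δ) ^ 2) * (1 / v)| ≤ 8 := by
      rw [← Real.norm_eq_abs]
      have h := intervalIntegral.norm_integral_le_of_norm_le_const (a := 1 / x) (b := δ)
        (C := 8 / δ) (f := fun v => (1 - fb (v / δ) ^ 2) * (1 / v)) (fun v hv => by
          rw [Set.uIoc_of_le hxd] at hv
          have hv0 : 0 < v := hx1.trans hv.1
          have a1 := fb2_anti hδ v ⟨hv0.le, hv.2⟩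
          have a2 : fb (v / δ) ^ 2 ≤ 1 := pow_le_one₀ (fb_nonneg _) (fb_le _)
          rw [Real.norm_eq_abs, abs_mul, abs_of_nonneg (by linarith), abs_of_pos (by positivity)]
          calc (1 - fb (v / δ) ^ 2) * (1 / v) ≤ (8 / δ * v) * (1 / v) := by gcongr
            _ = 8 / δ := by field_simp)
      refine h.trans ?_
      rw [abs_of_nonneg (by linarith)]
      calc 8 / δ * (δ - 1 / x) ≤ 8 / δ * δ := by gcongr; linarith
        _ = 8 := by field_simp
    have h5 := osc hδ hx
    rw [e1, e0]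
    have e2 : Real.log δ + Real.log x - (∫ v in (1 / x)..δ, (1 - fb (v / δ) ^ 2) * (1 / v)) -
        (∫ v in (1 / x)..δ, fb (v / δ) ^ 2 / v * Real.cos (2 * Real.pi * x * v)) - Real.log x -
        Real.log δ = -((∫ v in (1 / x)..δ, (1 - fb (v / δ) ^ 2) * (1 / v)) +
        (∫ v in (1 / x)..δ, fb (v / δ) ^ 2 / v * Real.cos (2 * Real.pi * x * v))) := by ring
    rw [e2, abs_neg]
    refine (abs_add_le _ _).trans ?_
    linarith
  rw [h3, add_zero]
  rw [abs_le] at h1 h2 ⊢
  constructor <;> linarith [h1.1, h1.2, h2.1, h2.2]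

end Pool.Agent.H478.CW
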