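import Pool.Agent.H478.CW7

/-! Sharp window counts and their smooth approximations. -/

open Finset Complex MeasureTheory Filter Topology

namespace Pool.Agent.H478.CW

open Pool.Agent.R321.FA
open SP (ZZ mu RHs)
open H370.A2 (RR evp evp_zero)
open Pool.Agent.TH800.LD (ZZf)

/-- the number of zeros in `(t, t + 2π x / log T]` -/
noncomputable def nc (T t x : ℝ) : ℝ := ∑ᶠ s ∈ ZZ T,
  (mu s : ℝ) * (if t < s.im ∧ s.im ≤ t + 2 * Real.pi * x / Real.log T then 1 else 0)

lemma nc_eq {T : ℝ} (hT : 1 ≤ T) (t x : ℝ) : nc T t x = ∑ s ∈ (ZZf hT).toFinset,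
    (mu s : ℝ) * (if t < s.im ∧ s.im ≤ t + 2 * Real.pi * x / Real.log T then 1 else 0) :=
  finsum_mem_eq_finite_toFinset_sum _ (ZZf hT)

lemma nc_nonneg {T : ℝ} (hT : 1 ≤ T) (t x : ℝ) : 0 ≤ nc T t x := by
  rw [nc_eq hT]
  refine Finset.sum_nonneg fun s _ => ?_
  split_ifs <;> simp

/-- the constant for windows of length `x` -/
noncomputable def cK (x : ℝ) : ℝ := Real.exp (1 / 2) * (1 + 2 * Real.pi * x) ^ (5 / 4 : ℝ)

lemma cK_pos {x : ℝ} (hx : 0 ≤ x) : 0 < cK x := by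
  have := Real.pi_pos
  unfold cK; positivity

lemma cK_one {x : ℝ} (hx : 0 ≤ x) : 1 ≤ cK x := by
  have := Real.pi_pos
  unfold cK
  have h1 : (1 : ℝ) ≤ Real.exp (1 / 2) := Real.one_le_exp (by norm_num)
  have h2 : (1 : ℝ) ≤ (1 + 2 * Real.pi * x) ^ (5 / 4 : ℝ) :=
    Real.one_le_rpow (by nlinarith [mul_nonneg this.le hx]) (by norm_num)
  nlinarith

/-- a pointwise bound near `t` -/
lemma near_one {T x t γ : ℝ} (hT : 10 ≤ T) (hx : 0 ≤ x) (hxL : 2 * Real.pi * x ≤ Real.log T)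
    (h : |γ - t| ≤ 2 * Real.pi * x / Real.log T) :
    1 ≤ cK x * (Real.exp (-(γ - t) ^ 2 / 2) * dp (Real.log T * (γ - t))) := by
  have hpi := Real.pi_pos
  have hL1 := log_one_le hT
  have hL0 : 0 < Real.log T := by linarith
  have h1 : |γ - t| ≤ 1 := h.trans (by rw [div_le_one hL0]; exact hxL)
  have h2 : (γ - t) ^ 2 ≤ 1 := by
    rw [← sq_abs]; exact pow_le_one₀ (abs_nonneg _) h1
  have h3 : |Real.log T * (γ - t)| ≤ 2 * Real.pi * x := by
    rw [abs_mul, abs_of_pos hL0]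
    calc Real.log T * |γ - t| ≤ Real.log T * (2 * Real.pi * x / Real.log T) := by gcongr
      _ = _ := by field_simp
  have h4 : Real.exp (-(1 / 2)) ≤ Real.exp (-(γ - t) ^ 2 / 2) := Real.exp_le_exp.2 (by linarith)
  have h5 : (1 + 2 * Real.pi * x) ^ (-(5 / 4) : ℝ) ≤ dp (Real.log T * (γ - t)) := by
    unfold dp
    apply Real.rpow_le_rpow_of_nonpos (by positivity) (by linarith) (by norm_num)
  unfold cK
  have h6 : Real.exp (1 / 2) * Real.exp (-(1 / 2)) = 1 := by rw [← Real.exp_add]; norm_num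
  have h7 : (1 + 2 * Real.pi * x) ^ (5 / 4 : ℝ) * (1 + 2 * Real.pi * x) ^ (-(5 / 4) : ℝ) = 1 := by
    rw [← Real.rpow_add (by positivity)]; norm_num
  calc (1 : ℝ) = (Real.exp (1 / 2) * Real.exp (-(1 / 2))) *
      ((1 + 2 * Real.pi * x) ^ (5 / 4 : ℝ) * (1 + 2 * Real.pi * x) ^ (-(5 / 4) : ℝ)) := by
        rw [h6, h7]; norm_num
    _ = Real.exp (1 / 2) * (1 + 2 * Real.pi * x) ^ (5 / 4 : ℝ) *
        (Real.exp (-(1 / 2)) * (1 + 2 * Real.pi * x) ^ (-(5 / 4) : ℝ)) := by ring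
    _ ≤ _ := by gcongr

/-- window counts are dominated by the majorant -/
lemma nc_le {T x : ℝ} (hT : 10 ≤ T) (hx : 0 ≤ x) (hxL : 2 * Real.pi * x ≤ Real.log T) (t : ℝ) :
    nc T t x ≤ cK x * Mp T t := by
  have hT1 : 1 ≤ T := by linarith
  rw [nc_eq hT1, Mp_eq hT1, Finset.mul_sum]
  refine Finset.sum_le_sum fun s _ => ?_
  have hm : (0 : ℝ) ≤ mu s := Nat.cast_nonneg _
  have hdp := (dp_pos (Real.log T * (s.im - t))).le
  have hck := (cK_pos hx).le
  split_ifs with h
  · have h1 := near_one hT hx hxL (t := t) (γ := s.im) (by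
      rw [abs_of_pos (by linarith [h.1])]; linarith [h.2])
    calc (mu s : ℝ) * 1 ≤ (mu s : ℝ) * (cK x *
        (Real.exp (-(s.im - t) ^ 2 / 2) * dp (Real.log T * (s.im - t)))) := by gcongr
      _ = _ := by ring
  · rw [mul_zero]; positivity

/-- moving the window -/
lemma nc_shift {T : ℝ} (hT : 10 ≤ T) {K x : ℝ} (t t1 : ℝ) (h1 : t ≤ t1)
    (h2 : t1 ≤ t + 2 * Real.pi * K / Real.log T) :
    |nc T t1 x - nc T t x| ≤ nc T t K + nc T (t + 2 * Real.pi * x / Real.log T) K := by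
  have hT1 : 1 ≤ T := by linarith
  rw [nc_eq hT1, nc_eq hT1, nc_eq hT1, nc_eq hT1, ← Finset.sum_sub_distrib,
    ← Finset.sum_add_distrib]
  refine (Finset.abs_sum_le_sum_abs _ _).trans (Finset.sum_le_sum fun s _ => ?_)
  have hm : (0 : ℝ) ≤ mu s := Nat.cast_nonneg _
  rw [← mul_sub, ← mul_add, abs_mul, abs_of_nonneg hm]
  apply mul_le_mul_of_nonneg_left _ hm
  set w := 2 * Real.pi * x / Real.log T
  set k := 2 * Real.pi * K / Real.log T
  set γ := s.im
  by_cases a1 : t1 < γ ∧ γ ≤ t1 + w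
  · rw [if_pos a1]
    by_cases a2 : t < γ ∧ γ ≤ t + w
    · rw [if_pos a2]
      simp only [sub_self, abs_zero]
      split_ifs <;> norm_num
    · rw [if_neg a2]
      have a3 : t + w < γ ∧ γ ≤ t + w + k := by
        constructor
        · by_contra hh
          exact a2 ⟨by linarith [a1.1], not_lt.1 hh⟩
        · linarith [a1.2]
      rw [if_pos a3]
      split_ifs <;> norm_num
  · rw [if_neg a1]
    by_cases a2 : t < γ ∧ γ ≤ t + w
    · rw [if_pos a2]
      have a3 : t < γ ∧ γ ≤ t + k := by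
        refine ⟨a2.1, ?_⟩
        by_contra hh
        exact a1 ⟨by linarith, by linarith [a2.2]⟩
      rw [if_pos a3]
      split_ifs <;> norm_num
    · rw [if_neg a2]
      simp only [sub_self, abs_zero]
      split_ifs <;> norm_num

lemma dp_ge (y : ℝ) : ((1 + |y|) ^ 2)⁻¹ ≤ dp y := by
  rw [← rp2]
  unfold dp
  exact Real.rpow_le_rpow_of_exponent_le (by linarith [abs_nonneg y]) (by norm_num)

/-- change of the centre of the Gaussian weight -/
lemma gauss_move {d a b L : ℝ} (hd : |a - b| ≤ d) (hL : 1 ≤ L) :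
    Real.exp (-a ^ 2 / 2) * ((1 + |L * b|) ^ 2)⁻¹ ≤
      Real.exp 2 * (Real.exp (-b ^ 2 / 2) * dp (L * b)) + 1 / L * Real.exp (-a ^ 2 / 2) := by
  have hd0 : 0 ≤ d := (abs_nonneg _).trans hd
  have hdp := dp_pos (L * b)
  have hL0 : 0 < L := by linarith
  by_cases h : |b| ≤ 1
  · have h1 : b ^ 2 - a ^ 2 ≤ 4 := by
      have : b ^ 2 ≤ 1 := by rw [← sq_abs]; exact pow_le_one₀ (abs_nonneg _) h
      nlinarith [sq_nonneg a]
    have h2 : Real.exp (-a ^ 2 / 2) ≤ Real.exp 2 * Real.exp (-b ^ 2 / 2) := by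
      rw [← Real.exp_add]
      apply Real.exp_le_exp.2
      linarith
    have h3 := dp_ge (L * b)
    have h4 : 0 ≤ 1 / L * Real.exp (-a ^ 2 / 2) := by positivity
    calc Real.exp (-a ^ 2 / 2) * ((1 + |L * b|) ^ 2)⁻¹ ≤
        (Real.exp 2 * Real.exp (-b ^ 2 / 2)) * dp (L * b) := by gcongr
      _ ≤ _ := by linarith
  · push Not at h
    have h1 : ((1 + |L * b|) ^ 2)⁻¹ ≤ 1 / L := by
      rw [inv_eq_one_div]
      apply one_div_le_one_div_of_le hL0
      rw [abs_mul, abs_of_pos hL0]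
      have : L ≤ L * |b| := by nlinarith
      nlinarith
    have h2 : 0 ≤ Real.exp 2 * (Real.exp (-b ^ 2 / 2) * dp (L * b)) := by positivity
    calc Real.exp (-a ^ 2 / 2) * ((1 + |L * b|) ^ 2)⁻¹ ≤ Real.exp (-a ^ 2 / 2) * (1 / L) := by
          gcongr
      _ ≤ _ := by linarith

/-- **sharp and smooth counts** -/
theorem nc_XX : ∃ C : ℝ, 1 ≤ C ∧ ∀ δ : ℝ, 0 < δ → δ ≤ 1 → ∀ x : ℝ, 0 < x → ∃ T0 : ℝ, 10 ≤ T0 ∧
    ∀ T : ℝ, T0 ≤ T → ∀ t : ℝ,
    |nc T t x - XX (psb δ x) δ T (t + Real.pi * x / Real.log T)| ≤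
      C / δ ^ 2 * (1 + Mp T t + Mp T (t + Real.pi * x / Real.log T) +
        Mp T (t + 2 * Real.pi * x / Real.log T)) := by
  obtain ⟨C2, hC2, hg⟩ := SP.gauss_zeros
  have hpi := Real.pi_pos
  refine ⟨1 + 1800 * C2 + 900 * Real.exp 2, by nlinarith [Real.exp_pos 2], fun δ hδ hδ1 x hx => ?_⟩
  obtain ⟨T0, hT0⟩ : ∃ T0 : ℝ, ∀ T : ℝ, T0 ≤ T → 2 * Real.pi * x ≤ Real.log T ∧
      cK x * (Real.pi * x) ^ 2 ≤ Real.log T := by
    have h := (Real.tendsto_log_atTop.eventually_ge_atTop (2 * Real.pi * x)).and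
      (Real.tendsto_log_atTop.eventually_ge_atTop (cK x * (Real.pi * x) ^ 2))
    exact eventually_atTop.1 h
  refine ⟨max 10 T0, le_max_left _ _, fun T hT t => ?_⟩
  have hT10 : 10 ≤ T := (le_max_left _ _).trans hT
  obtain ⟨hx1, hx2⟩ := hT0 T ((le_max_right _ _).trans hT)
  have hT1 : 1 ≤ T := by linarith
  have hL1 := log_one_le hT10
  set L := Real.log T with hL
  have hL0 : 0 < L := by linarith
  set t' := t + Real.pi * x / L with ht'
  set t'' := t + 2 * Real.pi * x / L with ht''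
  have hd : Real.pi * x / L ≤ 1 / 2 := by
    rw [div_le_iff₀ hL0]; linarith
  have hd0 : 0 ≤ Real.pi * x / L := by positivity
  rw [nc_eq hT1, XX_eq hT1, Mp_eq hT1, Mp_eq hT1, Mp_eq hT1, ← Finset.sum_sub_distrib]
  refine (Finset.abs_sum_le_sum_abs _ _).trans ?_
  have hG := hg T hT10 t'
  rw [finsum_mem_eq_finite_toFinset_sum _ (ZZf hT1)] at hG
  have key : ∀ s ∈ (ZZf hT1).toFinset,
      |(mu s : ℝ) * (if t < s.im ∧ s.im ≤ t + 2 * Real.pi * x / L then 1 else 0) -
        (mu s : ℝ) * Real.exp (-(s.im - t') ^ 2 / 2) *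
          RR (psb δ x) δ ((s.im - t') * L / (2 * Real.pi))| ≤
      (mu s : ℝ) * Real.exp (-(s.im - t') ^ 2 / 2) * dp (L * (s.im - t')) +
      900 / δ ^ 2 * Real.exp 2 * ((mu s : ℝ) * Real.exp (-(s.im - t) ^ 2 / 2) * dp (L * (s.im - t)) +
        (mu s : ℝ) * Real.exp (-(s.im - t'') ^ 2 / 2) * dp (L * (s.im - t''))) +
      900 / δ ^ 2 * (2 / L) * ((mu s : ℝ) * Real.exp (-(s.im - t') ^ 2 / 2)) := by
    intro s _
    have hm : (0 : ℝ) ≤ mu s := Nat.cast_nonneg _
    set γ := s.im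
    set u := (γ - t') * L / (2 * Real.pi) with hu
    have e1 : 2 * Real.pi * |u + x / 2| = |L * (γ - t)| := by
      rw [← abs_of_pos (by positivity : 0 < 2 * Real.pi), ← abs_mul]
      congr 1
      rw [hu, ht']
      field_simp
      ring
    have e2 : 2 * Real.pi * |u - x / 2| = |L * (γ - t'')| := by
      rw [← abs_of_pos (by positivity : 0 < 2 * Real.pi), ← abs_mul]
      congr 1
      rw [hu, ht', ht'']
      field_simp
      ring
    have e3 : (-(x / 2) < u ∧ u ≤ x / 2) ↔ (t < γ ∧ γ ≤ t + 2 * Real.pi * x / L) := by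
      rw [hu, ht', lt_div_iff₀ (by positivity), div_le_iff₀ (by positivity)]
      constructor
      · rintro ⟨a, b⟩
        constructor
        · by_contra hh
          push Not at hh
          have : (γ - (t + Real.pi * x / L)) * L ≤ (- (Real.pi * x / L)) * L := by
            apply mul_le_mul_of_nonneg_right _ hL0.le; linarith
          rw [neg_mul, div_mul_cancel₀ _ hL0.ne'] at this
          linarith
        · by_contra hh
          push Not at hh
          have : (Real.pi * x / L) * L < (γ - (t + Real.pi * x / L)) * L := by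
            apply mul_lt_mul_of_pos_right _ hL0
            have : t + 2 * Real.pi * x / L = t + Real.pi * x / L + Real.pi * x / L := by ring
            linarith
          rw [div_mul_cancel₀ _ hL0.ne'] at this
          linarith
      · rintro ⟨a, b⟩
        constructor
        · have : (- (Real.pi * x / L)) * L < (γ - (t + Real.pi * x / L)) * L := by
            apply mul_lt_mul_of_pos_right _ hL0; linarith
          rw [neg_mul, div_mul_cancel₀ _ hL0.ne'] at this
          linarith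
        · have : (γ - (t + Real.pi * x / L)) * L ≤ (Real.pi * x / L) * L := by
            apply mul_le_mul_of_nonneg_right _ hL0.le
            have : t + 2 * Real.pi * x / L = t + Real.pi * x / L + Real.pi * x / L := by ring
            linarith
          rw [div_mul_cancel₀ _ hL0.ne'] at this
          linarith
    have hind := psb_ind hδ hδ1 hx u
    rw [e1, e2] at hind
    rw [mul_assoc (mu s : ℝ) (Real.exp (-(γ - t') ^ 2 / 2)) (RR (psb δ x) δ u), ← mul_sub, abs_mul,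
      abs_of_nonneg hm]
    have hE := Real.exp_pos (-(γ - t') ^ 2 / 2)
    have hEle : Real.exp (-(γ - t') ^ 2 / 2) ≤ 1 := Real.exp_le_one_iff.2 (by nlinarith [sq_nonneg (γ - t')])
    set E := Real.exp (-(γ - t') ^ 2 / 2) with hEdef
    have e4 : (if t < γ ∧ γ ≤ t + 2 * Real.pi * x / L then (1 : ℝ) else 0) =
        (if -(x / 2) < u ∧ u ≤ x / 2 then (1 : ℝ) else 0) := by
      by_cases hh : -(x / 2) < u ∧ u ≤ x / 2
      · rw [if_pos hh, if_pos (e3.1 hh)]
      · rw [if_neg hh, if_neg (fun h => hh (e3.2 h))]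
    set I : ℝ := (if t < γ ∧ γ ≤ t + 2 * Real.pi * x / L then (1 : ℝ) else 0) with hI
    rw [← e4] at hind
    have hb1 : I * (1 - E) ≤ E * dp (L * (γ - t')) := by
      rw [hI]
      split_ifs with hh
      · rw [one_mul]
        have a1 : |γ - t'| ≤ Real.pi * x / L := by
          rw [abs_le, ht']
          have : t + 2 * Real.pi * x / L = t + Real.pi * x / L + Real.pi * x / L := by ring
          constructor <;> linarith [hh.1, hh.2]
        have a2 : 1 - E ≤ (γ - t') ^ 2 / 2 := by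
          have := Real.add_one_le_exp (-(γ - t') ^ 2 / 2)
          rw [hEdef]; linarith
        have a3 : (γ - t') ^ 2 ≤ (Real.pi * x / L) ^ 2 := by
          rw [← sq_abs]; exact pow_le_pow_left₀ (abs_nonneg _) a1 2
        have a4 := near_one hT10 hx.le hx1 (t := t') (γ := γ) (a1.trans (by
          rw [← hL]
          have : 0 ≤ Real.pi * x / L := hd0
          have e : 2 * Real.pi * x / L = 2 * (Real.pi * x / L) := by ring
          rw [e]; linarith))
        have a5 : cK x * (Real.pi * x / L) ^ 2 ≤ 1 := by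
          rw [div_pow, ← mul_div_assoc, div_le_one (by positivity)]
          nlinarith
        have hck := cK_pos hx.le
        have a6 : (Real.pi * x / L) ^ 2 ≤ E * dp (L * (γ - t')) := by
          have a7 : (Real.pi * x / L) ^ 2 * 1 ≤ (Real.pi * x / L) ^ 2 *
              (cK x * (E * dp (L * (γ - t')))) := mul_le_mul_of_nonneg_left a4 (sq_nonneg _)
          have a8 : 0 ≤ E * dp (L * (γ - t')) := mul_nonneg hE.le (dp_pos _).le
          nlinarith
        nlinarith [sq_nonneg (Real.pi * x / L)]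
      · rw [zero_mul]
        exact mul_nonneg hE.le (dp_pos _).le
    have hb0 : 0 ≤ I * (1 - E) := by
      rw [hI]
      split_ifs
      · linarith
      · simp
    have hb2 : E * |I - RR (psb δ x) δ u| ≤ 900 / δ ^ 2 * (E * ((1 + |L * (γ - t)|) ^ 2)⁻¹ +
        E * ((1 + |L * (γ - t'')|) ^ 2)⁻¹) := by
      rw [abs_sub_comm]
      calc E * |RR (psb δ x) δ u - I| ≤ E * (900 / δ ^ 2 * (((1 + |L * (γ - t)|) ^ 2)⁻¹ +
          ((1 + |L * (γ - t'')|) ^ 2)⁻¹)) := by gcongr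
        _ = _ := by ring
    have hm1 := gauss_move (d := 1 / 2) (a := γ - t') (b := γ - t) (L := L) (by
      rw [show γ - t' - (γ - t) = -(Real.pi * x / L) by rw [ht']; ring, abs_neg, abs_of_nonneg hd0]
      exact hd) hL1
    have hm2 := gauss_move (d := 1 / 2) (a := γ - t') (b := γ - t'') (L := L) (by
      rw [show γ - t' - (γ - t'') = Real.pi * x / L by rw [ht', ht'']; ring, abs_of_nonneg hd0]
      exact hd) hL1
    rw [← hEdef] at hm1 hm2
    have e5 : I - E * RR (psb δ x) δ u = I * (1 - E) + E * (I - RR (psb δ x) δ u) := by ring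
    have hfin : |I - E * RR (psb δ x) δ u| ≤ E * dp (L * (γ - t')) +
        900 / δ ^ 2 * ((Real.exp 2 * (Real.exp (-(γ - t) ^ 2 / 2) * dp (L * (γ - t))) + 1 / L * E) +
        (Real.exp 2 * (Real.exp (-(γ - t'') ^ 2 / 2) * dp (L * (γ - t''))) + 1 / L * E)) := by
      rw [e5]
      refine (abs_add_le _ _).trans ?_
      rw [abs_of_nonneg hb0, abs_mul, abs_of_pos hE]
      have : 900 / δ ^ 2 * (E * ((1 + |L * (γ - t)|) ^ 2)⁻¹ + E * ((1 + |L * (γ - t'')|) ^ 2)⁻¹) ≤
        900 / δ ^ 2 * ((Real.exp 2 * (Real.exp (-(γ - t) ^ 2 / 2) * dp (L * (γ - t))) + 1 / L * E) +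
        (Real.exp 2 * (Real.exp (-(γ - t'') ^ 2 / 2) * dp (L * (γ - t''))) + 1 / L * E)) := by
        gcongr
      linarith
    calc (mu s : ℝ) * |I - E * RR (psb δ x) δ u| ≤ (mu s : ℝ) * (E * dp (L * (γ - t')) +
        900 / δ ^ 2 * ((Real.exp 2 * (Real.exp (-(γ - t) ^ 2 / 2) * dp (L * (γ - t))) + 1 / L * E) +
        (Real.exp 2 * (Real.exp (-(γ - t'') ^ 2 / 2) * dp (L * (γ - t''))) + 1 / L * E))) := by
          gcongr
      _ = _ := by ring
  refine (Finset.sum_le_sum key).trans ?_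
  rw [Finset.sum_add_distrib, Finset.sum_add_distrib, ← Finset.mul_sum, ← Finset.mul_sum,
    Finset.sum_add_distrib]
  set M0 := ∑ s ∈ (ZZf hT1).toFinset, (mu s : ℝ) * Real.exp (-(s.im - t) ^ 2 / 2) * dp (L * (s.im - t))
    with hM0
  set M1 := ∑ s ∈ (ZZf hT1).toFinset, (mu s : ℝ) * Real.exp (-(s.im - t') ^ 2 / 2) *
    dp (L * (s.im - t')) with hM1
  set M2 := ∑ s ∈ (ZZf hT1).toFinset, (mu s : ℝ) * Real.exp (-(s.im - t'') ^ 2 / 2) *
    dp (L * (s.im - t'')) with hM2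
  have h0 : ∀ y : ℝ, 0 ≤ ∑ s ∈ (ZZf hT1).toFinset, (mu s : ℝ) * Real.exp (-(s.im - y) ^ 2 / 2) *
      dp (L * (s.im - y)) := fun y => Finset.sum_nonneg fun s _ => by
    have := (dp_pos (L * (s.im - y))).le
    positivity
  have p0 := h0 t
  have p1 := h0 t'
  have p2 := h0 t''
  rw [← hM0] at p0
  rw [← hM1] at p1
  rw [← hM2] at p2
  have hδ2 : 1 ≤ 1 / δ ^ 2 := by
    rw [le_div_iff₀ (by positivity)]
    nlinarith
  have hGG : 900 / δ ^ 2 * (2 / L) * ∑ s ∈ (ZZf hT1).toFinset,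
      (mu s : ℝ) * Real.exp (-(s.im - t') ^ 2 / 2) ≤ 1800 * C2 / δ ^ 2 := by
    calc 900 / δ ^ 2 * (2 / L) * ∑ s ∈ (ZZf hT1).toFinset,
        (mu s : ℝ) * Real.exp (-(s.im - t') ^ 2 / 2) ≤ 900 / δ ^ 2 * (2 / L) * (C2 * L) := by
          gcongr
      _ = _ := by field_simp; ring
  set q := 1 / δ ^ 2 with hq
  have e6 : 1800 * C2 / δ ^ 2 = 1800 * C2 * q := by rw [hq]; ring
  have e7 : 900 / δ ^ 2 = 900 * q := by rw [hq]; ring
  have e8 : (1 + 1800 * C2 + 900 * Real.exp 2) / δ ^ 2 = (1 + 1800 * C2 + 900 * Real.exp 2) * q := by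
    rw [hq]; ring
  rw [e6] at hGG
  rw [e8]
  rw [e7] at hGG ⊢
  have hex := Real.exp_pos 2
  have hMM : 0 ≤ (1 + 1800 * C2 + 900 * Real.exp 2) * q := by positivity
  have g1 : M1 ≤ q * M1 := by nlinarith
  have g2 : 0 ≤ q * M0 := by positivity
  have g3 : 0 ≤ q * M1 := by positivity
  have g4 : 0 ≤ q * M2 := by positivity
  have g5 : 0 ≤ C2 * (q * M0) := by positivity
  have g6 : 0 ≤ C2 * (q * M1) := by positivity
  have g7 : 0 ≤ C2 * (q * M2) := by positivity
  have g8 : 0 ≤ Real.exp 2 * (q * M1) := by positivity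
  have g9 : 0 ≤ Real.exp 2 * q := by positivity
  have g10 : 0 ≤ q := by positivity
  nlinarith

end Pool.Agent.H478.CW
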