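import Pool.Agent.H478.CW8
import Mathlib.MeasureTheory.Measure.LevyConvergence
import Mathlib.Probability.Distributions.Gaussian.Real

/-! Moments determine the law: a finite form of the method of moments for normal vectors. -/

open Finset Complex MeasureTheory Filter Topology
open scoped RealInnerProductSpace BoundedContinuousFunction

namespace Pool.Agent.H478.CW

/-! ### Taylor expansion of the exponential -/

/-- the remainder -/
noncomputable def ek (k : ℕ) (z : ℝ) : ℂ :=
  cexp (z * I) - ∑ j ∈ Finset.range k, (z * I) ^ j / (j.factorial : ℂ)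

lemma ek_zero (k : ℕ) : ek (k + 1) 0 = 0 := by
  unfold ek
  rw [Finset.sum_range_succ']
  simp

lemma ek_deriv (k : ℕ) (z : ℝ) : HasDerivAt (ek (k + 1)) (I * ek k z) z := by
  have h1 : HasDerivAt (fun z : ℝ => (z : ℂ) * I) I z := by
    have := (Complex.ofRealCLM.hasDerivAt (x := z)).mul_const I
    simpa using this
  have h2 : HasDerivAt (fun z : ℝ => cexp (z * I)) (cexp (z * I) * I) z := h1.cexp
  have h3 : HasDerivAt (fun z : ℝ => ∑ j ∈ Finset.range (k + 1), ((z : ℂ) * I) ^ j /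
      (j.factorial : ℂ)) (∑ j ∈ Finset.range (k + 1), ((j : ℂ) * ((z : ℂ) * I) ^ (j - 1) * I) /
      (j.factorial : ℂ)) z := by
    apply HasDerivAt.fun_sum
    intro j _
    exact (h1.fun_pow j).div_const _
  have h4 := h2.sub h3
  refine HasDerivAt.congr_deriv h4 ?_
  unfold ek
  rw [Finset.sum_range_succ', mul_sub, mul_sum]
  simp only [Nat.cast_zero, zero_mul, zero_div, add_zero]
  congr 1
  · ring
  · refine Finset.sum_congr rfl fun j _ => ?_
    rw [Nat.factorial_succ, Nat.add_sub_cancel]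
    have : ((j + 1 : ℕ) : ℂ) ≠ 0 := by exact_mod_cast (Nat.succ_ne_zero j)
    have h5 : (j.factorial : ℂ) ≠ 0 := by exact_mod_cast (Nat.factorial_ne_zero j)
    push_cast
    have h6 : (j : ℂ) + 1 ≠ 0 := by exact_mod_cast (Nat.succ_ne_zero j)
    field_simp

lemma ek_conj (k : ℕ) (z : ℝ) : ek k (-z) = (starRingEnd ℂ) (ek k z) := by
  unfold ek
  rw [map_sub, map_sum, ← Complex.exp_conj]
  congr 1
  · congr 1; simp
  · refine Finset.sum_congr rfl fun j _ => ?_
    simp

/-- the Taylor bound -/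
lemma ek_le (k : ℕ) : ∀ z : ℝ, ‖ek k z‖ ≤ |z| ^ k / k.factorial := by
  induction k with
  | zero =>
    intro z
    unfold ek
    simp [Complex.norm_exp_ofReal_mul_I]
  | succ k ih =>
    have hpos : ∀ z : ℝ, 0 ≤ z → ‖ek (k + 1) z‖ ≤ z ^ (k + 1) / (k + 1).factorial := by
      intro z hz
      have h := image_norm_le_of_norm_deriv_right_le_deriv_boundary (f := ek (k + 1))
        (f' := fun z => I * ek k z) (a := 0) (b := z)
        (B := fun z => z ^ (k + 1) / (k + 1).factorial) (B' := fun z => z ^ k / k.factorial)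
        (fun x _ => (ek_deriv k x).continuousAt.continuousWithinAt)
        (fun x _ => (ek_deriv k x).hasDerivWithinAt)
        (by rw [ek_zero]; simp)
        (fun x => by
          have h := ((hasDerivAt_pow (k + 1) x)).div_const ((k + 1).factorial : ℝ)
          refine HasDerivAt.congr_deriv h ?_
          rw [Nat.factorial_succ, Nat.add_sub_cancel]
          push_cast
          have h6 : (k : ℝ) + 1 ≠ 0 := by positivity
          have h5 : (k.factorial : ℝ) ≠ 0 := by positivity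
          field_simp)
        (fun x hx => by
          rw [norm_mul, Complex.norm_I, one_mul]
          have := ih x
          rwa [abs_of_nonneg hx.1] at this)
      exact h ⟨hz, le_rfl⟩
    intro z
    rcases le_total 0 z with h | h
    · rw [abs_of_nonneg h]; exact hpos z h
    · rw [abs_of_nonpos h]
      have h1 := hpos (-z) (by linarith)
      rw [ek_conj, RCLike.norm_conj] at h1
      exact h1

/-! ### normal moments -/

lemma gm_rec (κ : ℝ) (k : ℕ) : gm 0 κ (k + 2) = (k + 1) * κ * gm 0 κ k := by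
  show 0 * gm 0 κ (k + 1) + (k + 1) * κ * gm 0 κ k = _
  ring

lemma gm_odd (κ : ℝ) (k : ℕ) : gm 0 κ (2 * k + 1) = 0 := by
  induction k with
  | zero => rfl
  | succ k ih =>
    have : 2 * (k + 1) + 1 = (2 * k + 1) + 2 := by ring
    rw [this, gm_rec, ih, mul_zero]

lemma gm_even (κ : ℝ) (k : ℕ) : gm 0 κ (2 * k) / (2 * k).factorial = (κ / 2) ^ k / k.factorial := by
  induction k with
  | zero => simp [gm]
  | succ k ih =>
    have : 2 * (k + 1) = 2 * k + 2 := by ring
    rw [this, gm_rec, Nat.factorial_succ, Nat.factorial_succ, Nat.factorial_succ]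
    have h1 : ((2 * k).factorial : ℝ) ≠ 0 := by positivity
    have h2 : (k.factorial : ℝ) ≠ 0 := by positivity
    rw [div_eq_div_iff h1 h2] at ih
    push_cast
    rw [div_eq_div_iff (by positivity) (by positivity), pow_succ]
    linear_combination ((2 * (k : ℝ) + 1) * κ * (k + 1)) * ih

/-- the partial sums of the moment series -/
lemma gm_series (κ : ℝ) (k : ℕ) : ∑ j ∈ Finset.range (2 * k), I ^ j / (j.factorial : ℂ) *
    (gm 0 κ j : ℂ) = ∑ j ∈ Finset.range k, (-(κ : ℂ) / 2) ^ j / (j.factorial : ℂ) := by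
  induction k with
  | zero => simp
  | succ k ih =>
    have : 2 * (k + 1) = 2 * k + 1 + 1 := by ring
    rw [this, Finset.sum_range_succ, Finset.sum_range_succ, ih, Finset.sum_range_succ, gm_odd]
    simp only [ofReal_zero, mul_zero, add_zero]
    congr 1
    have h := gm_even κ k
    rw [pow_mul, I_sq]
    have h1 : ((2 * k).factorial : ℂ) ≠ 0 := by exact_mod_cast (Nat.factorial_ne_zero _)
    have h2 : (((gm 0 κ (2 * k) / (2 * k).factorial : ℝ)) : ℂ) =
        (((κ / 2) ^ k / k.factorial : ℝ) : ℂ) := by rw [h]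
    push_cast at h2
    calc (-1 : ℂ) ^ k / ((2 * k).factorial : ℂ) * (gm 0 κ (2 * k) : ℂ) =
        (-1 : ℂ) ^ k * ((gm 0 κ (2 * k) : ℂ) / ((2 * k).factorial : ℂ)) := by ring
      _ = (-1 : ℂ) ^ k * (((κ : ℂ) / 2) ^ k / (k.factorial : ℂ)) := by rw [h2]
      _ = _ := by
        rw [← mul_div_assoc, ← mul_pow]
        congr 2; ring

lemma gm_cont (k : ℕ) : Continuous (fun κ => gm 0 κ k) := by
  induction k using Nat.strong_induction_on with
  | _ k ih =>
    rcases k with _ | _ | k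
    · exact continuous_const
    · exact continuous_const
    · have : (fun κ => gm 0 κ (k + 2)) = fun κ => (k + 1) * κ * gm 0 κ k := by
        funext κ; exact gm_rec κ k
      rw [this]
      exact (by fun_prop : Continuous fun κ : ℝ => ((k : ℝ) + 1) * κ).mul (ih k (by omega))

/-! ### characteristic functions -/

variable {E : Type*} [NormedAddCommGroup E] [InnerProductSpace ℝ E] [FiniteDimensional ℝ E]
  [MeasurableSpace E] [BorelSpace E]

omit [FiniteDimensional ℝ E] in
/-- Taylor expansion of the characteristic function -/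
lemma char_taylor (μ : ProbabilityMeasure E) (u : E) (k : ℕ)
    (hi : ∀ j ≤ 2 * k, Integrable (fun x => ⟪x, u⟫ ^ j) (μ : Measure E)) :
    ‖charFun (μ : Measure E) u - ∑ j ∈ Finset.range (2 * k), I ^ j / (j.factorial : ℂ) *
      ((∫ x, ⟪x, u⟫ ^ j ∂(μ : Measure E) : ℝ) : ℂ)‖ ≤
    (∫ x, ⟪x, u⟫ ^ (2 * k) ∂(μ : Measure E)) / (2 * k).factorial := by
  rw [charFun_apply]
  have h1 : Integrable (fun x : E => cexp ((⟪x, u⟫ : ℝ) * I)) (μ : Measure E) := by
    refine Integrable.of_bound (C := 1) ?_ (Eventually.of_forall fun x => ?_)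
    · apply Continuous.aestronglyMeasurable
      fun_prop
    · rw [Complex.norm_exp_ofReal_mul_I]
  have hC : ∀ j ≤ 2 * k, Integrable (fun x => ((⟪x, u⟫ : ℝ) * I) ^ j / (j.factorial : ℂ))
      (μ : Measure E) := by
    intro j hj
    have h : Integrable (fun x => ((⟪x, u⟫ ^ j : ℝ) : ℂ)) (μ : Measure E) := (hi j hj).ofReal
    refine (h.const_mul (I ^ j / (j.factorial : ℂ))).congr (Eventually.of_forall fun x => ?_)
    show I ^ j / (j.factorial : ℂ) * ((⟪x, u⟫ ^ j : ℝ) : ℂ) = ((⟪x, u⟫ : ℝ) * I) ^ j / (j.factorial : ℂ)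
    rw [mul_pow]
    push_cast
    ring
  have h2 : ∑ j ∈ Finset.range (2 * k), I ^ j / (j.factorial : ℂ) *
      ((∫ x, ⟪x, u⟫ ^ j ∂(μ : Measure E) : ℝ) : ℂ) =
      ∫ x, ∑ j ∈ Finset.range (2 * k), ((⟪x, u⟫ : ℝ) * I) ^ j / (j.factorial : ℂ) ∂(μ : Measure E) := by
    rw [integral_finsetSum _ fun j hj => hC j (Finset.mem_range.1 hj).le]
    refine Finset.sum_congr rfl fun j _ => ?_
    have h3 : ((∫ x, ⟪x, u⟫ ^ j ∂(μ : Measure E) : ℝ) : ℂ) =
        ∫ x, ((⟪x, u⟫ ^ j : ℝ) : ℂ) ∂(μ : Measure E) := integral_ofReal.symm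
    rw [h3, ← integral_const_mul]
    refine integral_congr_ae (Eventually.of_forall fun x => ?_)
    show I ^ j / (j.factorial : ℂ) * ((⟪x, u⟫ ^ j : ℝ) : ℂ) = ((⟪x, u⟫ : ℝ) * I) ^ j / (j.factorial : ℂ)
    rw [mul_pow]
    push_cast
    ring
  have h2i : Integrable (fun x : E => ∑ j ∈ Finset.range (2 * k), ((⟪x, u⟫ : ℝ) * I) ^ j /
      (j.factorial : ℂ)) (μ : Measure E) :=
    integrable_finsetSum _ fun j hj => hC j (Finset.mem_range.1 hj).le
  rw [h2, ← integral_sub h1 h2i, ← integral_div]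
  refine norm_integral_le_of_norm_le ((hi (2 * k) le_rfl).div_const _) (Eventually.of_forall fun x => ?_)
  have h3 := ek_le (2 * k) ⟪x, u⟫
  unfold ek at h3
  rw [(even_two_mul k).pow_abs] at h3
  exact h3

omit [FiniteDimensional ℝ E] in
/-- convergence of characteristic functions from moments -/
lemma char_lim (μ : ℕ → ProbabilityMeasure E) (u : E) (κ : ℝ)
    (hi : ∀ k, ∀ᶠ n in atTop, Integrable (fun x => ⟪x, u⟫ ^ k) (μ n : Measure E))
    (hm : ∀ k, Tendsto (fun n => ∫ x, ⟪x, u⟫ ^ k ∂(μ n : Measure E)) atTop (𝓝 (gm 0 κ k))) :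
    Tendsto (fun n => charFun (μ n : Measure E) u) atTop (𝓝 (cexp (-(κ : ℂ) / 2))) := by
  rw [Metric.tendsto_nhds]
  intro ε hε
  have hs1 : Tendsto (fun k : ℕ => (κ / 2) ^ k / k.factorial) atTop (𝓝 0) :=
    FloorSemiring.tendsto_pow_div_factorial_atTop _
  have hs2 : Tendsto (fun k : ℕ => ∑ j ∈ Finset.range k, (-(κ : ℂ) / 2) ^ j / (j.factorial : ℂ))
      atTop (𝓝 (cexp (-(κ : ℂ) / 2))) := by
    have h := NormedSpace.expSeries_div_hasSum_exp (-(κ : ℂ) / 2)
    rw [← Complex.exp_eq_exp_ℂ] at h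
    exact h.tendsto_sum_nat
  obtain ⟨k, hk1, hk2⟩ := ((hs1.eventually (gt_mem_nhds (by positivity : (0 : ℝ) < ε / 4))).and
    (hs2.eventually (Metric.ball_mem_nhds _ (by positivity : (0 : ℝ) < ε / 4)))).exists
  rw [dist_eq_norm] at hk2
  have e1 : ∀ᶠ n in atTop, ∀ j ∈ Finset.range (2 * k + 1),
      Integrable (fun x => ⟪x, u⟫ ^ j) (μ n : Measure E) :=
    (Finset.eventually_all _).2 fun j _ => hi j
  have e2 : ∀ᶠ n in atTop, (∫ x, ⟪x, u⟫ ^ (2 * k) ∂(μ n : Measure E)) / (2 * k).factorial < ε / 4 := by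
    have := (hm (2 * k)).div_const ((2 * k).factorial : ℝ)
    rw [gm_even] at this
    exact this.eventually (gt_mem_nhds hk1)
  have e3 : Tendsto (fun n => ∑ j ∈ Finset.range (2 * k), I ^ j / (j.factorial : ℂ) *
      ((∫ x, ⟪x, u⟫ ^ j ∂(μ n : Measure E) : ℝ) : ℂ)) atTop
      (𝓝 (∑ j ∈ Finset.range (2 * k), I ^ j / (j.factorial : ℂ) * (gm 0 κ j : ℂ))) := by
    apply tendsto_finsetSum
    intro j _
    apply Tendsto.const_mul
    exact (Complex.continuous_ofReal.tendsto _).comp (hm j)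
  rw [gm_series] at e3
  have e4 := e3.eventually (Metric.ball_mem_nhds _ (by positivity : (0 : ℝ) < ε / 4))
  filter_upwards [e1, e2, e4] with n h1 h2 h4
  rw [dist_eq_norm] at h4
  rw [dist_eq_norm]
  have h5 := char_taylor (μ n) u k (fun j hj => h1 j (Finset.mem_range.2 (by omega)))
  set A := charFun (μ n : Measure E) u
  set B := ∑ j ∈ Finset.range (2 * k), I ^ j / (j.factorial : ℂ) *
      ((∫ x, ⟪x, u⟫ ^ j ∂(μ n : Measure E) : ℝ) : ℂ)
  set C := ∑ j ∈ Finset.range k, (-(κ : ℂ) / 2) ^ j / (j.factorial : ℂ)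
  have h6 : ‖A - cexp (-(κ : ℂ) / 2)‖ ≤ ‖A - B‖ + ‖B - C‖ + ‖C - cexp (-(κ : ℂ) / 2)‖ := by
    have : A - cexp (-(κ : ℂ) / 2) = (A - B) + (B - C) + (C - cexp (-(κ : ℂ) / 2)) := by ring
    rw [this]
    exact norm_add₃_le
  linarith

omit [FiniteDimensional ℝ E] in
/-- Lipschitz bound for the characteristic function -/
lemma char_lip (μ : ProbabilityMeasure E) (u v : E)
    (hi : Integrable (fun x : E => ‖x‖ ^ 2) (μ : Measure E)) :
    ‖charFun (μ : Measure E) u - charFun (μ : Measure E) v‖ ≤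
      ‖u - v‖ * (1 + ∫ x, ‖x‖ ^ 2 ∂(μ : Measure E)) := by
  rw [charFun_apply, charFun_apply]
  have h1 : ∀ u : E, Integrable (fun x : E => cexp ((⟪x, u⟫ : ℝ) * I)) (μ : Measure E) := by
    intro u
    refine Integrable.of_bound (C := 1) ?_ (Eventually.of_forall fun x => ?_)
    · apply Continuous.aestronglyMeasurable
      fun_prop
    · rw [Complex.norm_exp_ofReal_mul_I]
  have e : ‖u - v‖ * (1 + ∫ x, ‖x‖ ^ 2 ∂(μ : Measure E)) =
      ∫ x, ‖u - v‖ * (1 + ‖x‖ ^ 2) ∂(μ : Measure E) := by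
    rw [integral_const_mul, integral_add (integrable_const _) hi]
    simp
  rw [← integral_sub (h1 u) (h1 v), e]
  refine norm_integral_le_of_norm_le (((integrable_const _).add hi).const_mul _)
    (Eventually.of_forall fun x => ?_)
  have h2 := ek_le 1 ⟪x, u - v⟫
  unfold ek at h2
  simp only [Finset.sum_range_one, pow_zero, Nat.factorial_zero, Nat.cast_one, div_one, pow_one,
    Nat.factorial_one] at h2
  have h3 : cexp ((⟪x, u⟫ : ℝ) * I) - cexp ((⟪x, v⟫ : ℝ) * I) =
      cexp ((⟪x, v⟫ : ℝ) * I) * (cexp ((⟪x, u - v⟫ : ℝ) * I) - 1) := by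
    rw [mul_sub, ← Complex.exp_add, mul_one, inner_sub_right]
    congr 2
    push_cast
    ring
  rw [h3, norm_mul, Complex.norm_exp_ofReal_mul_I, one_mul]
  refine h2.trans ((abs_real_inner_le_norm x (u - v)).trans ?_)
  have := norm_nonneg (u - v)
  have h4 : ‖x‖ ≤ 1 + ‖x‖ ^ 2 := by nlinarith [norm_nonneg x, sq_nonneg (‖x‖ - 1)]
  calc ‖x‖ * ‖u - v‖ ≤ (1 + ‖x‖ ^ 2) * ‖u - v‖ := by gcongr
    _ = _ := by ring

/-- **a finite form of the method of moments** -/
theorem mom_law (γ : ProbabilityMeasure E) (σ : E → ℝ)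
    (hγ : ∀ u, charFun (γ : Measure E) u = cexp (-(σ u : ℂ) / 2))
    (g : E →ᵇ ℝ) {ε : ℝ} (hε : 0 < ε) :
    ∃ K : ℕ, ∃ F : Finset E, ∃ η : ℝ, 0 < η ∧ ∀ μ : ProbabilityMeasure E,
    (∀ u ∈ F, ∀ k ≤ K, Integrable (fun x => ⟪x, u⟫ ^ k) (μ : Measure E) ∧
      |∫ x, ⟪x, u⟫ ^ k ∂(μ : Measure E) - gm 0 (σ u) k| ≤ η) →
    |∫ x, g x ∂(μ : Measure E) - ∫ x, g x ∂(γ : Measure E)| ≤ ε := by
  classical
  by_contra hcon
  push Not at hcon
  have : ProperSpace E := FiniteDimensional.proper_real E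
  set b := stdOrthonormalBasis ℝ E with hb
  set d : ℕ → E := TopologicalSpace.denseSeq E with hd
  choose μ h1 h2 using fun n : ℕ => hcon n ((Finset.range n).image d ∪ Finset.univ.image b)
    (1 / ((n : ℝ) + 1)) (by positivity)
  -- the second moments
  set C := ∑ j, (gm 0 (σ (b j)) 2 + 1) with hC
  have hsq : ∀ n, 2 ≤ n → Integrable (fun x : E => ‖x‖ ^ 2) (μ n : Measure E) ∧
      ∫ x, ‖x‖ ^ 2 ∂(μ n : Measure E) ≤ C := by
    intro n hn
    have hj : ∀ j, Integrable (fun x => ⟪x, b j⟫ ^ 2) (μ n : Measure E) ∧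
        |∫ x, ⟪x, b j⟫ ^ 2 ∂(μ n : Measure E) - gm 0 (σ (b j)) 2| ≤ 1 / ((n : ℝ) + 1) := fun j =>
      h1 n (b j) (Finset.mem_union_right _ (Finset.mem_image_of_mem _ (Finset.mem_univ j))) 2 hn
    have e : ∀ x : E, ‖x‖ ^ 2 = ∑ j, ⟪x, b j⟫ ^ 2 := fun x => by
      rw [← b.sum_sq_norm_inner_left x]
      refine Finset.sum_congr rfl fun j _ => ?_
      rw [Real.norm_eq_abs, sq_abs]
    simp only [e]
    refine ⟨integrable_finsetSum _ fun j _ => (hj j).1, ?_⟩
    rw [integral_finsetSum _ fun j _ => (hj j).1, hC]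
    refine Finset.sum_le_sum fun j _ => ?_
    have h3 := (abs_le.1 (hj j).2).2
    have h4 : 1 / ((n : ℝ) + 1) ≤ 1 := by
      rw [div_le_one (by positivity)]
      have : (0 : ℝ) ≤ n := Nat.cast_nonneg n
      linarith
    linarith
  have hC0 : 0 ≤ C := by
    have h := (hsq 2 le_rfl).2
    exact le_trans (integral_nonneg fun x => by positivity) h
  -- convergence on the dense sequence
  have hdense : ∀ i, Tendsto (fun n => charFun (μ n : Measure E) (d i)) atTop
      (𝓝 (cexp (-(σ (d i) : ℂ) / 2))) := by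
    intro i
    have hk : ∀ k, ∀ᶠ n in atTop, Integrable (fun x => ⟪x, d i⟫ ^ k) (μ n : Measure E) ∧
        |∫ x, ⟪x, d i⟫ ^ k ∂(μ n : Measure E) - gm 0 (σ (d i)) k| ≤ 1 / ((n : ℝ) + 1) := by
      intro k
      filter_upwards [eventually_ge_atTop (max k (i + 1))] with n hn
      exact h1 n (d i) (Finset.mem_union_left _ (Finset.mem_image_of_mem _ (Finset.mem_range.2
        (lt_of_lt_of_le (Nat.lt_succ_self i) ((le_max_right _ _).trans hn))))) k
        ((le_max_left _ _).trans hn)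
    refine char_lim μ (d i) (σ (d i)) (fun k => (hk k).mono fun n h => h.1) fun k => ?_
    rw [tendsto_iff_dist_tendsto_zero]
    exact squeeze_zero' (Eventually.of_forall fun n => dist_nonneg)
      ((hk k).mono fun n h => by rw [Real.dist_eq]; exact h.2)
      tendsto_one_div_add_atTop_nhds_zero_nat
  -- convergence everywhere
  have hall : ∀ u : E, Tendsto (fun n => charFun (μ n : Measure E) u) atTop
      (𝓝 (charFun (γ : Measure E) u)) := by
    intro u
    rw [Metric.tendsto_nhds]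
    intro ρ hρ
    have hcont : Continuous (charFun (γ : Measure E)) := continuous_charFun
    have hA : ∀ᶠ v in 𝓝 u, dist (charFun (γ : Measure E) v) (charFun (γ : Measure E) u) < ρ / 3 :=
      Metric.tendsto_nhds.1 (hcont.tendsto u) _ (by positivity)
    have hB : ∀ᶠ v in 𝓝 u, dist v u < ρ / (3 * (1 + C)) :=
      Metric.ball_mem_nhds _ (by positivity)
    obtain ⟨i, hi⟩ := (TopologicalSpace.denseRange_denseSeq E).exists_mem_open
      (s := interior {v | dist (charFun (γ : Measure E) v) (charFun (γ : Measure E) u) < ρ / 3 ∧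
        dist v u < ρ / (3 * (1 + C))}) isOpen_interior
      ⟨u, mem_interior_iff_mem_nhds.2 (hA.and hB)⟩
    have hi' := interior_subset hi
    have hv1 : dist (charFun (γ : Measure E) (d i)) (charFun (γ : Measure E) u) < ρ / 3 := hi'.1
    have hv2 : dist (d i) u < ρ / (3 * (1 + C)) := hi'.2
    have hD : ∀ᶠ n in atTop, dist (charFun (μ n : Measure E) (d i)) (charFun (γ : Measure E) (d i)) <
        ρ / 3 := by
      rw [hγ (d i)]
      exact Metric.tendsto_nhds.1 (hdense i) _ (by positivity)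
    filter_upwards [hD, eventually_ge_atTop 2] with n hn hn2
    have hlip := char_lip (μ n) u (d i) (hsq n hn2).1
    rw [dist_eq_norm] at hn hv1 hv2 ⊢
    have h5 : ‖u - d i‖ * (1 + ∫ x, ‖x‖ ^ 2 ∂(μ n : Measure E)) < ρ / 3 := by
      rw [← norm_neg, neg_sub]
      have h6 := (hsq n hn2).2
      calc ‖d i - u‖ * (1 + ∫ x, ‖x‖ ^ 2 ∂(μ n : Measure E)) ≤ ‖d i - u‖ * (1 + C) := by gcongr
        _ < ρ / (3 * (1 + C)) * (1 + C) := by
            apply mul_lt_mul_of_pos_right hv2 (by linarith)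
        _ = ρ / 3 := by
            have : 1 + C ≠ 0 := by positivity
            field_simp
    have h7 : ‖charFun (μ n : Measure E) u - charFun (γ : Measure E) u‖ ≤
        ‖charFun (μ n : Measure E) u - charFun (μ n : Measure E) (d i)‖ +
        ‖charFun (μ n : Measure E) (d i) - charFun (γ : Measure E) (d i)‖ +
        ‖charFun (γ : Measure E) (d i) - charFun (γ : Measure E) u‖ := by
      have : charFun (μ n : Measure E) u - charFun (γ : Measure E) u =
          (charFun (μ n : Measure E) u - charFun (μ n : Measure E) (d i)) +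
          (charFun (μ n : Measure E) (d i) - charFun (γ : Measure E) (d i)) +
          (charFun (γ : Measure E) (d i) - charFun (γ : Measure E) u) := by ring
      rw [this]
      exact norm_add₃_le
    linarith
  have hw := ProbabilityMeasure.tendsto_iff_tendsto_charFun.2 hall
  have hw2 := (ProbabilityMeasure.tendsto_iff_forall_integral_tendsto.1 hw) g
  have hw3 := Metric.tendsto_nhds.1 hw2 ε hε
  obtain ⟨n, hn⟩ := hw3.exists
  rw [Real.dist_eq] at hn
  linarith [h2 n]

end Pool.Agent.H478.CW
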