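import Pool.Agent.H478.CW8

/-! Statistics as lists of weighted shifted test functions; their moments. -/

open Finset Complex MeasureTheory Filter Topology

namespace Pool.Agent.H478.EX

open Pool.Agent.H478.CW
open Pool.Agent.R321.FA
open SP (ZZ mu Mk RHs)
open H370.A2 (RR evp evp_zero)

/-- an entry of a statistic: weight, test function, shift -/
structure Ent where
  /-- the weight -/
  u : ℝ
  /-- the test function -/
  f : ℝ → ℝ
  /-- the shift -/
  a : ℝ

/-- admissible test functions of band `μ` -/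
structure Adm (f : ℝ → ℝ) (μ : ℝ) : Prop where
  cont : Continuous f
  even : ∀ x, f (-x) = f x
  zero : ∀ x, μ ≤ |x| → f x = 0
  lip : ∃ K : ℝ, ∀ x y, |f x - f y| ≤ K * |x - y|
  bd : ∃ B : ℝ, ∀ x, |f x| ≤ B
  dec : ∃ G : ℝ, Dk G (RR f μ)

lemma Adm.evp {f : ℝ → ℝ} {μ : ℝ} (h : Adm f μ) : evp f = f := by
  funext x
  unfold H370.A2.evp
  rw [h.even]; ring

/-- the statistic -/
noncomputable def stt (l : List Ent) (μ T t : ℝ) : ℝ :=
  (l.map fun e => e.u * (XX e.f μ T (t + 2 * Real.pi * e.a / Real.log T) - e.f 0)).sum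

/-- its transform -/
noncomputable def tf (l : List Ent) (v : ℝ) : ℂ :=
  (l.map fun e => ((e.u * e.f v : ℝ) : ℂ) * cexp (((2 * Real.pi * e.a * v : ℝ) : ℂ) * I)).sum

/-- its variance -/
noncomputable def kv (l : List Ent) : ℝ := 2 * ∫ v in (0 : ℝ)..1, v * ‖tf l v‖ ^ 2

/-- admissible statistics -/
def Good (l : List Ent) (μ : ℝ) : Prop := ∀ e ∈ l, Adm e.f μ

lemma stt_nil (μ T t : ℝ) : stt [] μ T t = 0 := by simp [stt]

lemma tf_nil (v : ℝ) : tf [] v = 0 := by simp [tf]

lemma stt_append (l l' : List Ent) (μ T t : ℝ) : stt (l ++ l') μ T t = stt l μ T t + stt l' μ T t := by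
  simp [stt]

lemma tf_append (l l' : List Ent) (v : ℝ) : tf (l ++ l') v = tf l v + tf l' v := by
  simp [tf]

lemma Good.append {l l' : List Ent} {μ : ℝ} (h : Good l μ) (h' : Good l' μ) : Good (l ++ l') μ := by
  intro e he
  rw [List.mem_append] at he
  exact he.elim (h e) (h' e)

/-- scaling -/
def scl (c : ℝ) (l : List Ent) : List Ent := l.map fun e => ⟨c * e.u, e.f, e.a⟩

lemma stt_scl (c : ℝ) (l : List Ent) (μ T t : ℝ) : stt (scl c l) μ T t = c * stt l μ T t := by
  unfold stt scl
  rw [List.map_map, ← List.sum_map_mul_left]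
  congr 1
  apply List.map_congr_left
  intro e _
  simp only [Function.comp]
  ring

lemma tf_scl (c : ℝ) (l : List Ent) (v : ℝ) : tf (scl c l) v = c * tf l v := by
  unfold tf scl
  rw [List.map_map, ← List.sum_map_mul_left]
  congr 1
  apply List.map_congr_left
  intro e _
  simp only [Function.comp]
  push_cast
  ring

lemma Good.scl {l : List Ent} {μ : ℝ} (h : Good l μ) (c : ℝ) : Good (scl c l) μ := by
  intro e he
  unfold EX.scl at he
  rw [List.mem_map] at he
  obtain ⟨e', he', rfl⟩ := he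
  exact h e' he'

/-- translation by `x` -/
def trl (x : ℝ) (l : List Ent) : List Ent := l.map fun e => ⟨e.u, e.f, e.a + x⟩

lemma stt_trl (x : ℝ) (l : List Ent) (μ T t : ℝ) :
    stt (trl x l) μ T t = stt l μ T (t + 2 * Real.pi * x / Real.log T) := by
  unfold stt trl
  rw [List.map_map]
  congr 1
  apply List.map_congr_left
  intro e _
  simp only [Function.comp]
  congr 3
  ring

lemma tf_trl (x : ℝ) (l : List Ent) (v : ℝ) :
    tf (trl x l) v = cexp (((2 * Real.pi * x * v : ℝ) : ℂ) * I) * tf l v := by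
  unfold tf trl
  rw [List.map_map, ← List.sum_map_mul_left]
  congr 1
  apply List.map_congr_left
  intro e _
  simp only [Function.comp]
  rw [mul_left_comm, ← Complex.exp_add]
  congr 2
  push_cast
  ring

lemma Good.trl {l : List Ent} {μ : ℝ} (h : Good l μ) (x : ℝ) : Good (trl x l) μ := by
  intro e he
  unfold EX.trl at he
  rw [List.mem_map] at he
  obtain ⟨e', he', rfl⟩ := he
  exact h e' he'

lemma kv_scl (c : ℝ) (l : List Ent) : kv (scl c l) = c ^ 2 * kv l := by
  unfold kv
  simp only [tf_scl, norm_mul, Complex.norm_real, Real.norm_eq_abs, mul_pow, sq_abs]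
  rw [show (fun v : ℝ => v * (c ^ 2 * ‖tf l v‖ ^ 2)) = fun v => c ^ 2 * (v * ‖tf l v‖ ^ 2) by
    funext v; ring, intervalIntegral.integral_const_mul]
  ring

lemma kv_trl (x : ℝ) (l : List Ent) : kv (trl x l) = kv l := by
  unfold kv
  simp only [tf_trl, norm_mul, Complex.norm_exp_ofReal_mul_I, one_mul]

lemma kv_nonneg (l : List Ent) : 0 ≤ kv l := by
  unfold kv
  have : 0 ≤ ∫ v in (0 : ℝ)..1, v * ‖tf l v‖ ^ 2 := by
    apply intervalIntegral.integral_nonneg (by norm_num)
    intro v hv
    exact mul_nonneg hv.1 (sq_nonneg _)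
  linarith

lemma tf_cont {l : List Ent} {μ : ℝ} (h : Good l μ) : Continuous (tf l) := by
  induction l with
  | nil =>
    have h1 : tf [] = fun _ => (0 : ℂ) := funext fun v => tf_nil v
    rw [h1]; exact continuous_const
  | cons e l ih =>
    have h1 : tf (e :: l) = fun v => ((e.u * e.f v : ℝ) : ℂ) *
        cexp (((2 * Real.pi * e.a * v : ℝ) : ℂ) * I) + tf l v := by
      funext v; simp [tf]
    rw [h1]
    have h2 := (h e (by simp)).cont
    have h3 := ih fun e' he' => h e' (by simp [he'])
    refine Continuous.add (Continuous.mul ?_ (by fun_prop)) h3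
    exact Complex.continuous_ofReal.comp (continuous_const.mul h2)

lemma tf_zero {l : List Ent} {μ : ℝ} (h : Good l μ) {v : ℝ} (hv : μ ≤ |v|) : tf l v = 0 := by
  induction l with
  | nil => simp [tf]
  | cons e l ih =>
    have h1 : tf (e :: l) v = ((e.u * e.f v : ℝ) : ℂ) *
        cexp (((2 * Real.pi * e.a * v : ℝ) : ℂ) * I) + tf l v := by simp [tf]
    rw [h1, ih fun e' he' => h e' (by simp [he']), (h e (by simp)).zero v hv]
    simp

/-- the family of an admissible statistic -/
lemma Good.tt {l : List Ent} {μ : ℝ} (h : Good l μ) : TT (fun j : Fin l.length => l[j.1].f) μ := by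
  have hm : ∀ j : Fin l.length, Adm (l[j.1].f) μ := fun j => h _ (List.getElem_mem _)
  choose K hK using fun j => (hm j).lip
  choose B hB using fun j => (hm j).bd
  choose G hG using fun j => (hm j).dec
  have he : ∀ j : Fin l.length, evp (l[j.1].f) = l[j.1].f := fun j => (hm j).evp
  refine ⟨fun j => (hm j).cont, fun j => (hm j).zero, ⟨∑ j, |K j|, fun j x y => ?_⟩,
    ⟨1 + ∑ j, |B j|, ?_, fun j x => ?_⟩, ⟨1 + ∑ j, |G j|, ?_, fun j x => ?_⟩⟩
  · rw [he]
    refine (hK j x y).trans ?_
    apply mul_le_mul_of_nonneg_right _ (abs_nonneg _)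
    exact (le_abs_self _).trans
      (Finset.single_le_sum (f := fun j => |K j|) (fun i _ => abs_nonneg _) (Finset.mem_univ j))
  · have : 0 ≤ ∑ j, |B j| := Finset.sum_nonneg fun i _ => abs_nonneg _
    linarith
  · rw [he]
    refine (hB j x).trans ?_
    have := (le_abs_self _).trans
      (Finset.single_le_sum (f := fun j => |B j|) (fun i _ => abs_nonneg _) (Finset.mem_univ j))
    linarith
  · have : 0 ≤ ∑ j, |G j| := Finset.sum_nonneg fun i _ => abs_nonneg _
    linarith
  · refine (hG j x).trans ?_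
    apply mul_le_mul_of_nonneg_right _ (by positivity)
    have := (le_abs_self _).trans
      (Finset.single_le_sum (f := fun j => |G j|) (fun i _ => abs_nonneg _) (Finset.mem_univ j))
    linarith

lemma stt_AU (l : List Ent) (μ T t : ℝ) : stt l μ T t =
    AU (fun j : Fin l.length => l[j.1].f) μ (fun j => l[j.1].a) (fun j => l[j.1].u) T t := by
  unfold stt AU
  rw [← Fin.sum_univ_fun_getElem, ← Finset.sum_sub_distrib]
  refine Finset.sum_congr rfl fun j _ => ?_
  ring

lemma kv_KA {l : List Ent} {μ : ℝ} (h : Good l μ) : kv l =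
    KA (fun j : Fin l.length => l[j.1].f) (fun j => l[j.1].a) (fun j => l[j.1].u) := by
  have hm : ∀ j : Fin l.length, Adm (l[j.1].f) μ := fun j => h _ (List.getElem_mem _)
  unfold kv KA
  have e1 : ∀ v : ℝ, v * ‖tf l v‖ ^ 2 = ∑ i : Fin l.length, ∑ j : Fin l.length,
      l[i.1].u * l[j.1].u * (v * l[i.1].f v * l[j.1].f v *
        Real.cos (2 * Real.pi * (l[i.1].a - l[j.1].a) * v)) := by
    intro v
    unfold tf
    rw [← Fin.sum_univ_fun_getElem, norm_comb (fun j : Fin l.length => l[j.1].u * l[j.1].f v)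
      (fun j => 2 * Real.pi * l[j.1].a), Finset.mul_sum]
    refine Finset.sum_congr rfl fun i _ => ?_
    rw [Finset.mul_sum]
    refine Finset.sum_congr rfl fun j _ => ?_
    rw [show (2 * Real.pi * l[i.1].a - 2 * Real.pi * l[j.1].a) * v =
      2 * Real.pi * (l[i.1].a - l[j.1].a) * v by ring]
    ring
  simp only [e1]
  have hc : ∀ i j : Fin l.length, Continuous fun v : ℝ => l[i.1].u * l[j.1].u *
      (v * l[i.1].f v * l[j.1].f v * Real.cos (2 * Real.pi * (l[i.1].a - l[j.1].a) * v)) := by
    intro i j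
    have h1 := (hm i).cont
    have h2 := (hm j).cont
    refine continuous_const.mul (((continuous_id.mul h1).mul h2).mul (by fun_prop))
  rw [intervalIntegral.integral_finsetSum fun i _ =>
    (continuous_finsetSum _ fun j _ => hc i j).intervalIntegrable _ _, Finset.mul_sum]
  refine Finset.sum_congr rfl fun i _ => ?_
  rw [intervalIntegral.integral_finsetSum fun j _ => (hc i j).intervalIntegrable _ _,
    Finset.mul_sum]
  refine Finset.sum_congr rfl fun j _ => ?_
  rw [intervalIntegral.integral_const_mul, (hm i).evp, (hm j).evp]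
  ring

lemma stt_cont {l : List Ent} {μ : ℝ} (h : Good l μ) {T : ℝ} (hT : 1 ≤ T) :
    Continuous (stt l μ T) := by
  have := AU_cont h.tt (fun j => l[j.1].a) (fun j => l[j.1].u) hT
  have e : stt l μ T = AU (fun j : Fin l.length => l[j.1].f) μ (fun j => l[j.1].a)
    (fun j => l[j.1].u) T := funext fun t => stt_AU l μ T t
  rw [e]; exact this

/-- the interval of averaging -/
noncomputable def Va (T : ℝ) : ℝ := T + 8 * Real.log T

/-- the interval of averaging -/
noncomputable def Vb (T : ℝ) : ℝ := 2 * T - 8 * Real.log T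

/-- bounded moments near the interval of averaging -/
theorem mom_bd (hRH : RHs) {l : List Ent} {μ : ℝ} (h : Good l μ) (k : ℕ) : ∃ C T0 : ℝ, 0 < C ∧
    10 ≤ T0 ∧ ∀ T : ℝ, T0 ≤ T → ∀ V1 V2 : ℝ, V1 ≤ V2 → T + 6 * Real.log T ≤ V1 →
    V2 ≤ 2 * T - 6 * Real.log T → ∫ t in V1..V2, |stt l μ T t| ^ k ≤ C * T := by
  obtain ⟨G, hG1, hG⟩ := h.tt.dec
  obtain ⟨C, T0, hC, hT0, hM⟩ := MS_mom hRH (fun j : Fin l.length => l[j.1].a) k
  set M1 := G * ∑ j : Fin l.length, |l[j.1].u| + |∑ j : Fin l.length, l[j.1].u * l[j.1].f 0|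
    with hM1
  have hs : 0 ≤ ∑ j : Fin l.length, |l[j.1].u| := Finset.sum_nonneg fun i _ => abs_nonneg _
  have hM10 : 0 ≤ M1 := by
    have : 0 ≤ G := by linarith
    positivity
  refine ⟨(M1 + 1) ^ k * C, T0, by positivity, hT0, fun T hT V1 V2 hV h1 h2 => ?_⟩
  have hT10 := hT0.trans hT
  have hT1 : 1 ≤ T := by linarith
  calc ∫ t in V1..V2, |stt l μ T t| ^ k ≤
      ∫ t in V1..V2, (M1 + 1) ^ k * MS (fun j : Fin l.length => l[j.1].a) T t ^ k := by
        apply intervalIntegral.integral_mono_on hV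
        · exact ((stt_cont h hT1).abs.pow k).intervalIntegrable _ _
        · exact (continuous_const.mul ((MS_cont _ hT1).pow k)).intervalIntegrable _ _
        · intro t _
          rw [← mul_pow, stt_AU]
          apply pow_le_pow_left₀ (abs_nonneg _)
          refine (AU_le (by linarith) hG _ _ hT10 t).trans ?_
          have := MS_ge (fun j : Fin l.length => l[j.1].a) hT1 t
          apply mul_le_mul_of_nonneg_right _ (by linarith)
          linarith
    _ = (M1 + 1) ^ k * ∫ t in V1..V2, MS (fun j : Fin l.length => l[j.1].a) T t ^ k :=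
        intervalIntegral.integral_const_mul _ _
    _ ≤ (M1 + 1) ^ k * (C * T) := by
        have := hM T hT V1 V2 hV h1 h2
        gcongr
    _ = _ := by ring

/-- Cauchy-Schwarz on a short interval -/
lemma short_cs {f : ℝ → ℝ} (hf : Continuous f) {a b : ℝ} (hab : a ≤ b) {c Q : ℝ}
    (hc : 0 < c) (hQ : ∫ t in a..b, f t ^ 2 ≤ Q) :
    ∫ t in a..b, |f t| ≤ c * Q + 1 / c * (b - a) := by
  calc ∫ t in a..b, |f t| ≤ ∫ t in a..b, (c * f t ^ 2 + 1 / c) := by
        apply intervalIntegral.integral_mono_on hab (hf.abs.intervalIntegrable _ _)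
        · exact ((continuous_const.mul (hf.pow 2)).add continuous_const).intervalIntegrable _ _
        · intro t _
          have h1 : 0 ≤ (c * |f t| - 1) ^ 2 / c := by positivity
          have h2 : (c * |f t| - 1) ^ 2 / c = c * |f t| ^ 2 - 2 * |f t| + 1 / c := by
            field_simp
            ring
          rw [h2, sq_abs] at h1
          have := abs_nonneg (f t)
          linarith
    _ = c * (∫ t in a..b, f t ^ 2) + 1 / c * (b - a) := by
        have c1 : Continuous fun t => c * f t ^ 2 := continuous_const.mul (hf.pow 2)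
        rw [intervalIntegral.integral_add (c1.intervalIntegrable _ _)
          (continuous_const.intervalIntegrable _ _), intervalIntegral.integral_const_mul,
          intervalIntegral.integral_const, smul_eq_mul]
        ring
    _ ≤ _ := by gcongr

/-- moving the interval of averaging -/
lemma move_int {f : ℝ → ℝ} (hf : Continuous f) {V1 V2 c D : ℝ} (h1 : ∫ t in V1..(V1 + c), |f t| ≤ D)
    (h2 : ∫ t in V2..(V2 + c), |f t| ≤ D) (hc : 0 ≤ c) :
    |(∫ t in V1..V2, f (t + c)) - ∫ t in V1..V2, f t| ≤ 2 * D := by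
  have hi : ∀ a b : ℝ, IntervalIntegrable f volume a b := fun a b => hf.intervalIntegrable _ _
  rw [intervalIntegral.integral_comp_add_right (fun t => f t)]
  have e1 : (∫ t in (V1 + c)..(V2 + c), f t) = (∫ t in V1..V2, f t) + (∫ t in V2..(V2 + c), f t) -
      ∫ t in V1..(V1 + c), f t := by
    have a1 := intervalIntegral.integral_add_adjacent_intervals (hi V1 (V1 + c)) (hi (V1 + c) (V2 + c))
    have a2 := intervalIntegral.integral_add_adjacent_intervals (hi V1 V2) (hi V2 (V2 + c))
    linarith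
  rw [e1]
  have b1 : |∫ t in V1..(V1 + c), f t| ≤ D := by
    refine (intervalIntegral.abs_integral_le_integral_abs (by linarith)).trans h1
  have b2 : |∫ t in V2..(V2 + c), f t| ≤ D := by
    refine (intervalIntegral.abs_integral_le_integral_abs (by linarith)).trans h2
  rw [abs_le] at b1 b2 ⊢
  constructor <;> linarith [b1.1, b1.2, b2.1, b2.2]

lemma log_ratio_zero : Tendsto (fun T : ℝ => Real.log T / T) atTop (𝓝 0) := by
  have := Real.isLittleO_log_id_atTop.tendsto_div_nhds_zero
  simpa using this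

/-- **the moments** -/
theorem mom_lim (hRH : RHs) {l : List Ent} {μ : ℝ} (h : Good l μ) (hμ : 0 < μ) (k : ℕ)
    (hk : k * μ < 1) : Tendsto (fun T : ℝ => 1 / T * ∫ t in Va T..Vb T, stt l μ T t ^ k) atTop
      (𝓝 (gm 0 (kv l) k)) := by
  rw [Metric.tendsto_atTop]
  intro η hη
  set g := gm 0 (kv l) k with hg
  obtain ⟨Λ, hΛ1, hq⟩ := quench hRH h.tt hμ (fun j => l[j.1].a) (fun j => l[j.1].u) k hk (η / 8)
    (by positivity)
  obtain ⟨T1, hT1, hq⟩ := hq Λ le_rfl
  obtain ⟨C, T2, hC, hT2, hM⟩ := mom_bd hRH h (2 * k)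
  have hΛ0 : 0 < Λ := by linarith
  have hpi := Real.pi_pos
  -- the size of the shift
  set c0 := η / (32 * C) with hc0
  have hc0p : 0 < c0 := by positivity
  have e3 : ∀ᶠ T : ℝ in atTop, 2 * Real.pi * Λ ≤ Real.log T :=
    Real.tendsto_log_atTop.eventually_ge_atTop _
  have e4 : ∀ᶠ T : ℝ in atTop, 1 / c0 * 1 ≤ η / 32 * T := by
    filter_upwards [eventually_ge_atTop (1 / c0 * 32 / η)] with T hT
    rw [div_le_iff₀ hη] at hT
    linarith
  have e5 : ∀ᶠ T : ℝ in atTop, 16 * |g| * (Real.log T / T) ≤ η / 8 := by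
    have := (log_ratio_zero.const_mul (16 * |g|))
    rw [mul_zero] at this
    exact (this.eventually (gt_mem_nhds (by positivity : (0 : ℝ) < η / 8))).mono fun T hT => hT.le
  obtain ⟨T3, hT3⟩ := eventually_atTop.1 (e3.and (e4.and e5))
  refine ⟨max T1 (max T2 T3), fun T hT => ?_⟩
  have g1 : T1 ≤ T := (le_max_left _ _).trans hT
  have g2 : T2 ≤ T := ((le_max_left _ _).trans (le_max_right _ _)).trans hT
  have g3 : T3 ≤ T := ((le_max_right _ _).trans (le_max_right _ _)).trans hT
  obtain ⟨hΛL, hs, hgl⟩ := hT3 T g3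
  have hT10 : 10 ≤ T := hT1.trans g1
  have hTp : 0 < T := by linarith
  have hTo : 1 ≤ T := by linarith
  have hL1 := log_one_le hT10
  set L := Real.log T with hL
  have hL0 : 0 < L := by linarith
  obtain ⟨hV, hq⟩ := hq T g1
  have hVa : Va T = T + 8 * L := rfl
  have hVb : Vb T = 2 * T - 8 * L := rfl
  rw [← hVa, ← hVb] at hV hq
  set f : ℝ → ℝ := fun t => stt l μ T t ^ k with hf
  have hfc : Continuous f := (stt_cont h hTo).pow k
  have hqf : ∫ t in Va T..Vb T, |1 / Λ * (∫ s in (0 : ℝ)..Λ, f (t + 2 * Real.pi * s / L)) - g| ≤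
      η / 8 * T := by
    refine le_trans (le_of_eq ?_) hq
    refine intervalIntegral.integral_congr fun t _ => ?_
    simp only [hf, stt_AU]
    rw [hg, kv_KA h]
  -- moving
  have hmove : ∀ c : ℝ, 0 ≤ c → c ≤ 1 →
      |(∫ t in Va T..Vb T, f (t + c)) - ∫ t in Va T..Vb T, f t| ≤ η / 8 * T := by
    intro c hc hc1
    have key : ∀ V : ℝ, Va T ≤ V → V ≤ Vb T → ∫ t in V..(V + c), |f t| ≤ η / 16 * T := by
      intro V hv1 hv2
      have hQ : ∫ t in V..(V + c), f t ^ 2 ≤ C * T := by
        have := hM T g2 V (V + c) (by linarith) (by rw [hVa] at hv1; linarith)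
          (by rw [hVb] at hv2; linarith)
        refine le_trans (le_of_eq ?_) this
        refine intervalIntegral.integral_congr fun t _ => ?_
        simp only [hf]
        rw [pow_mul, sq_abs, ← pow_mul, ← pow_mul, mul_comm]
      have h1 := short_cs hfc (by linarith : V ≤ V + c) hc0p hQ
      have h2 : c0 * (C * T) = η / 32 * T := by
        rw [hc0]; field_simp
      have h3 : 1 / c0 * (V + c - V) ≤ 1 / c0 * 1 := by
        apply mul_le_mul_of_nonneg_left _ (by positivity)
        linarith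
      linarith
    have := move_int hfc (key (Va T) le_rfl hV) (key (Vb T) hV le_rfl) hc
    linarith
  -- swapping
  set W : ℝ → ℝ := fun t => ∫ s in (0 : ℝ)..Λ, f (t + 2 * Real.pi * s / L) with hW
  have hWc : Continuous W := by
    apply intervalIntegral.continuous_parametric_intervalIntegral_of_continuous'
    exact hfc.comp (by fun_prop)
  have hswap : ∫ t in Va T..Vb T, W t = ∫ s in (0 : ℝ)..Λ, ∫ t in Va T..Vb T,
      f (t + 2 * Real.pi * s / L) := by
    apply intervalIntegral_intervalIntegral_swap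
    have hc : Continuous fun q : ℝ × ℝ => f (q.1 + 2 * Real.pi * q.2 / L) := hfc.comp (by fun_prop)
    have h1 := (hc.integrableOn_Icc (μ := (volume : Measure (ℝ × ℝ))) (a := (Va T, 0))
      (b := (Vb T, Λ)))
    rw [Measure.volume_eq_prod] at h1
    rw [Set.uIoc_of_le hV, Set.uIoc_of_le hΛ0.le]
    refine h1.mono_set ?_
    rintro ⟨x, y⟩ ⟨hx, hy⟩
    exact ⟨⟨hx.1.le, hy.1.le⟩, ⟨hx.2, hy.2⟩⟩
  have hdiff : |(∫ s in (0 : ℝ)..Λ, ∫ t in Va T..Vb T, f (t + 2 * Real.pi * s / L)) -
      Λ * ∫ t in Va T..Vb T, f t| ≤ Λ * (η / 8 * T) := by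
    have c1 : Continuous fun s => ∫ t in Va T..Vb T, f (t + 2 * Real.pi * s / L) := by
      apply intervalIntegral.continuous_parametric_intervalIntegral_of_continuous'
      exact hfc.comp (by fun_prop)
    have e1 : (∫ s in (0 : ℝ)..Λ, ∫ t in Va T..Vb T, f (t + 2 * Real.pi * s / L)) -
        Λ * ∫ t in Va T..Vb T, f t = ∫ s in (0 : ℝ)..Λ,
          ((∫ t in Va T..Vb T, f (t + 2 * Real.pi * s / L)) - ∫ t in Va T..Vb T, f t) := by
      rw [intervalIntegral.integral_sub (c1.intervalIntegrable _ _)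
        (continuous_const.intervalIntegrable _ _), intervalIntegral.integral_const, smul_eq_mul,
        sub_zero]
    rw [e1]
    have := intervalIntegral.norm_integral_le_of_norm_le_const (a := 0) (b := Λ)
      (C := η / 8 * T) (f := fun s =>
        (∫ t in Va T..Vb T, f (t + 2 * Real.pi * s / L)) - ∫ t in Va T..Vb T, f t) (by
      intro s hs
      rw [Set.uIoc_of_le hΛ0.le] at hs
      rw [Real.norm_eq_abs]
      apply hmove
      · have := hs.1; positivity
      · rw [div_le_one hL0]
        have := hs.2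
        nlinarith)
    rw [Real.norm_eq_abs, sub_zero, abs_of_pos hΛ0] at this
    linarith
  rw [← hswap] at hdiff
  have hint : |(∫ t in Va T..Vb T, (1 / Λ * W t - g))| ≤ η / 8 * T :=
    (intervalIntegral.abs_integral_le_integral_abs hV).trans hqf
  have e6 : (∫ t in Va T..Vb T, (1 / Λ * W t - g)) = 1 / Λ * (∫ t in Va T..Vb T, W t) -
      (T - 16 * L) * g := by
    have c2 : Continuous fun t => 1 / Λ * W t := continuous_const.mul hWc
    rw [intervalIntegral.integral_sub (c2.intervalIntegrable _ _)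
      (continuous_const.intervalIntegrable _ _), intervalIntegral.integral_const_mul,
      intervalIntegral.integral_const, smul_eq_mul, hVa, hVb]
    ring
  rw [e6] at hint
  set IW := ∫ t in Va T..Vb T, W t with hIW
  set If := ∫ t in Va T..Vb T, f t with hIf
  have h7 : |1 / Λ * IW - If| ≤ η / 8 * T := by
    have : 1 / Λ * IW - If = 1 / Λ * (IW - Λ * If) := by field_simp
    rw [this, abs_mul, abs_of_pos (by positivity : 0 < 1 / Λ)]
    calc 1 / Λ * |IW - Λ * If| ≤ 1 / Λ * (Λ * (η / 8 * T)) := by gcongr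
      _ = _ := by field_simp
  have h8 : |16 * L * g| ≤ η / 8 * T := by
    rw [abs_mul, abs_of_pos (by positivity : 0 < 16 * L)]
    have : 16 * |g| * (L / T) * T ≤ η / 8 * T := by gcongr
    rw [mul_assoc, div_mul_cancel₀ _ hTp.ne'] at this
    linarith
  rw [Real.dist_eq]
  show |1 / T * If - g| < η
  have h9 : 1 / T * If - g = 1 / T * (If - T * g) := by field_simp
  rw [h9, abs_mul, abs_of_pos (by positivity : 0 < 1 / T)]
  have h10 : |If - T * g| ≤ 3 * (η / 8 * T) := by
    rw [abs_le] at hint h7 h8 ⊢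
    constructor <;> linarith [hint.1, hint.2, h7.1, h7.2, h8.1, h8.2]
  calc 1 / T * |If - T * g| ≤ 1 / T * (3 * (η / 8 * T)) := by gcongr
    _ = 3 * (η / 8) := by field_simp
    _ < η := by linarith

end Pool.Agent.H478.EX
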