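import Pool.Agent.H478.EX9

/-! Large values of the band statistics: the parameters. -/

open Finset Complex MeasureTheory Filter Topology ProbabilityTheory

namespace Pool.Agent.H478.EX

open Pool.Agent.H478.CW
open Pool.Agent.R321.FA
open SP (ZZ mu Mk RHs)

lemma cvf_neg (b b' D : ℝ) : cvf b b' (-D) = cvf b b' D := by
  unfold cvf
  congr 2
  funext v
  congr 1
  rw [← Real.cos_neg]
  congr 1
  ring

lemma cvf_abs' {b b' D : ℝ} (hb : 0 < b) (hbb : b < b') (hb1 : b' ≤ 1) (hD : D ≠ 0) :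
    |cvf b b' D| ≤ 1 / (|D| * b) := by
  rcases lt_or_gt_of_ne hD with h | h
  · rw [← cvf_neg, abs_of_neg h]
    exact cvf_abs hb hbb hb1 (by linarith)
  · rw [abs_of_pos h]
    exact cvf_abs hb hbb hb1 h

/-- the lower bound for one point -/
lemma P1_lower {a V ℓ ε : ℝ} (hℓ : 0 < ℓ) (hε0 : 0 ≤ ε) (hε : ε ≤ 1)
    (ha : |a| ≤ (1 - ε) * (ℓ / Real.pi)) (hV0 : 0 ≤ V)
    (hV1 : 1 / (2 * Real.pi ^ 2) * (ℓ - Real.log 4) ≤ V) (hV2 : V ≤ ℓ) :
    Real.exp (-((1 - ε) * ℓ)) / (1 + ℓ) ≤ P1 a V := by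
  have hpi := Real.pi_pos
  have hpi3 := Real.pi_gt_three
  have hl4 : Real.log 4 ≤ 2 := by
    have := Real.log_le_sub_one_of_pos (x := 4) (by norm_num)
    have h2 : Real.log 4 = 2 * Real.log 2 := by
      rw [show (4 : ℝ) = 2 ^ 2 by norm_num, Real.log_pow]; push_cast; ring
    have := Real.log_two_lt_d9
    linarith
  have h1 : ℓ / (2 * Real.pi ^ 2) ≤ 1 + V := by
    have : 1 / (2 * Real.pi ^ 2) * Real.log 4 ≤ 1 := by
      rw [one_div, inv_mul_le_iff₀ (by positivity)]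
      nlinarith
    have e : 1 / (2 * Real.pi ^ 2) * (ℓ - Real.log 4) = ℓ / (2 * Real.pi ^ 2) -
      1 / (2 * Real.pi ^ 2) * Real.log 4 := by ring
    linarith
  have h2 : a ^ 2 ≤ (1 - ε) * (ℓ / Real.pi) ^ 2 := by
    rw [← sq_abs]
    have h3 : |a| ^ 2 ≤ ((1 - ε) * (ℓ / Real.pi)) ^ 2 := pow_le_pow_left₀ (abs_nonneg _) ha 2
    have h4 : (1 - ε) ^ 2 ≤ 1 - ε := by nlinarith
    have h5 : 0 ≤ (ℓ / Real.pi) ^ 2 := sq_nonneg _
    nlinarith
  unfold P1
  have h3 : a ^ 2 / (2 * (1 + V)) ≤ (1 - ε) * ℓ := by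
    rw [div_le_iff₀ (by positivity)]
    have h4 : (ℓ / Real.pi) ^ 2 = 2 * ℓ * (ℓ / (2 * Real.pi ^ 2)) := by
      field_simp
    have h5 : (1 - ε) * (2 * ℓ * (ℓ / (2 * Real.pi ^ 2))) ≤ (1 - ε) * (2 * ℓ * (1 + V)) := by
      have : 0 ≤ 1 - ε := by linarith
      gcongr
    rw [h4] at h2
    linarith
  have h4 : Real.sqrt (1 + V) ≤ 1 + ℓ := by
    rw [Real.sqrt_le_left (by positivity)]
    nlinarith
  have h5 : 0 < Real.sqrt (1 + V) := Real.sqrt_pos.2 (by positivity)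
  rw [div_eq_mul_one_div, mul_comm]
  apply mul_le_mul _ _ (Real.exp_pos _).le (by positivity)
  · exact one_div_le_one_div_of_le h5 h4
  · apply Real.exp_le_exp.2
    linarith

/-- two points against one point -/
lemma P2_upper {a V c κ ℓ : ℝ} (hℓ : 0 < ℓ) (ha : |a| ≤ ℓ / Real.pi) (hV0 : 0 ≤ V)
    (hV1 : 1 / (2 * Real.pi ^ 2) * (ℓ - Real.log 4) ≤ V) (hc : |c| ≤ κ) (hκ : κ ≤ 1 / 2) :
    P2 a V c ≤ Real.exp (81 * κ) * P1 a V ^ 2 := by
  have hpi := Real.pi_pos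
  have hpi3 := Real.pi_gt_three
  have hpi4 := Real.pi_lt_d2
  have hκ0 : 0 ≤ κ := (abs_nonneg c).trans hc
  have hl4 : Real.log 4 ≤ 2 := by
    have h2 : Real.log 4 = 2 * Real.log 2 := by
      rw [show (4 : ℝ) = 2 ^ 2 by norm_num, Real.log_pow]; push_cast; ring
    have := Real.log_two_lt_d9
    linarith
  have h1 : ℓ / (2 * Real.pi ^ 2) ≤ 1 + V := by
    have : 1 / (2 * Real.pi ^ 2) * Real.log 4 ≤ 1 := by
      rw [one_div, inv_mul_le_iff₀ (by positivity)]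
      nlinarith
    have e : 1 / (2 * Real.pi ^ 2) * (ℓ - Real.log 4) = ℓ / (2 * Real.pi ^ 2) -
      1 / (2 * Real.pi ^ 2) * Real.log 4 := by ring
    linarith
  set W := 1 + V with hW
  have hW1 : 1 ≤ W := by linarith
  have hcl := (abs_le.1 hc).1
  have hcu := (abs_le.1 hc).2
  have hWc : 0 < W + c := by linarith
  have hWc2 : W / 2 ≤ W + c := by linarith
  -- the exponent
  have ha2 : a ^ 2 ≤ (2 * Real.pi * W) ^ 2 := by
    rw [← sq_abs]
    apply pow_le_pow_left₀ (abs_nonneg _)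
    refine ha.trans ?_
    rw [div_le_iff₀ hpi]
    rw [div_le_iff₀ (by positivity)] at h1
    nlinarith
  have hexp : a ^ 2 / W - a ^ 2 / (W + c) ≤ 80 * κ := by
    have e : a ^ 2 / W - a ^ 2 / (W + c) = a ^ 2 * c / (W * (W + c)) := by
      field_simp; ring
    rw [e, div_le_iff₀ (by positivity)]
    have h2 : a ^ 2 * c ≤ a ^ 2 * κ := by gcongr
    have h3 : a ^ 2 * κ ≤ (2 * Real.pi * W) ^ 2 * κ := by gcongr
    have h4 : (2 * Real.pi * W) ^ 2 * κ ≤ 80 * κ * (W * (W / 2)) := by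
      have : (2 * Real.pi) ^ 2 ≤ 40 := by nlinarith
      have h5 : (2 * Real.pi * W) ^ 2 * κ = (2 * Real.pi) ^ 2 * (W ^ 2 * κ) := by ring
      have h6 : 80 * κ * (W * (W / 2)) = 40 * (W ^ 2 * κ) := by ring
      rw [h5, h6]
      gcongr
    have h7 : 80 * κ * (W * (W / 2)) ≤ 80 * κ * (W * (W + c)) := by gcongr
    linarith
  -- the determinant
  have hdet : 0 < W ^ 2 - c ^ 2 := by
    have : c ^ 2 ≤ κ ^ 2 := by rw [← sq_abs]; exact pow_le_pow_left₀ (abs_nonneg _) hc 2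
    nlinarith
  have hdet2 : 1 / Real.sqrt (W ^ 2 - c ^ 2) ≤ Real.exp κ * (1 / W) := by
    have h2 : W * Real.exp (-κ) ≤ Real.sqrt (W ^ 2 - c ^ 2) := by
      apply Real.le_sqrt_of_sq_le
      have hc2 : c ^ 2 ≤ κ ^ 2 := by rw [← sq_abs]; exact pow_le_pow_left₀ (abs_nonneg _) hc 2
      have h3 : Real.exp (-κ) ^ 2 ≤ 1 - κ ^ 2 := by
        rw [← Real.exp_nat_mul]
        have h4 : Real.exp (((2 : ℕ) : ℝ) * -κ) ≤ 1 / (1 + 2 * κ) := by
          rw [show ((2 : ℕ) : ℝ) * -κ = -(2 * κ) by push_cast; ring, Real.exp_neg, ← one_div]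
          apply one_div_le_one_div_of_le (by positivity)
          have := Real.add_one_le_exp (2 * κ)
          linarith
        refine h4.trans ?_
        rw [div_le_iff₀ (by positivity)]
        nlinarith [mul_nonneg hκ0 hκ0, mul_nonneg (mul_nonneg hκ0 hκ0) hκ0]
      rw [mul_pow]
      have h5 : W ^ 2 * Real.exp (-κ) ^ 2 ≤ W ^ 2 * (1 - κ ^ 2) := by gcongr
      have h6 : κ ^ 2 ≤ W ^ 2 * κ ^ 2 := by
        have : 1 ≤ W ^ 2 := by nlinarith
        nlinarith [sq_nonneg κ]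
      nlinarith
    have h3 : Real.exp κ * (1 / W) = 1 / (W * Real.exp (-κ)) := by
      rw [Real.exp_neg]; field_simp
    rw [h3]
    exact one_div_le_one_div_of_le (by positivity) h2
  have hP1 : P1 a V ^ 2 = 1 / W * Real.exp (-(a ^ 2 / W)) := by
    unfold P1
    rw [mul_pow, div_pow, one_pow, Real.sq_sqrt (by positivity), ← Real.exp_nat_mul]
    congr 2
    push_cast
    field_simp
    rw [hW]
  rw [hP1]
  unfold P2
  rw [← hW]
  calc 1 / Real.sqrt (W ^ 2 - c ^ 2) * Real.exp (-(a ^ 2 / (W + c))) ≤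
      Real.exp κ * (1 / W) * (Real.exp (80 * κ) * Real.exp (-(a ^ 2 / W))) := by
        apply mul_le_mul hdet2 _ (Real.exp_pos _).le (by positivity)
        rw [← Real.exp_add]
        apply Real.exp_le_exp.2
        linarith
    _ = Real.exp (81 * κ) * (1 / W * Real.exp (-(a ^ 2 / W))) := by
        rw [show (81 : ℝ) * κ = κ + 80 * κ by ring, Real.exp_add]
        ring

/-! ### the parameters -/

/-- the bands -/
noncomputable def bq (J n : ℕ) (j : ℕ) : ℝ := Real.log n ^ 2 * (n : ℝ) ^ j / (n : ℝ) ^ (J + 1)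

/-- the highest frequency -/
noncomputable def mq (n : ℕ) : ℝ := Real.log n ^ 2 / n

lemma bq_top {J n : ℕ} (hn : 0 < n) : bq J n J = mq n := by
  have : (0 : ℝ) < n := by exact_mod_cast hn
  unfold bq mq
  field_simp
  ring

lemma bq_pos {J n : ℕ} (hn : 1 < n) (j : ℕ) : 0 < bq J n j := by
  have h1 : (1 : ℝ) < n := by exact_mod_cast hn
  have h2 : 0 < Real.log n := Real.log_pos h1
  unfold bq
  positivity

lemma bq_mono {J n : ℕ} (hn : 1 < n) : StrictMono (bq J n) := by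
  have h1 : (1 : ℝ) < n := by exact_mod_cast hn
  have h2 : 0 < Real.log n := Real.log_pos h1
  intro i j hij
  unfold bq
  have h3 : (n : ℝ) ^ i < (n : ℝ) ^ j := pow_lt_pow_right₀ h1 hij
  gcongr

lemma bq_succ {J n : ℕ} (hn : 1 < n) (j : ℕ) : bq J n (j + 1) / bq J n j = n := by
  have h1 : (1 : ℝ) < n := by exact_mod_cast hn
  have h2 : 0 < Real.log n := Real.log_pos h1
  unfold bq
  field_simp
  ring

lemma bq_dist {J n j : ℕ} (hn : 1 < n) (hj : j ≤ J + 1) : bq J n j * (n : ℝ) ^ (J + 1 - j) =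
    Real.log n ^ 2 := by
  have h1 : (0 : ℝ) < n := by exact_mod_cast (by omega : 0 < n)
  unfold bq
  rw [div_mul_eq_mul_div, mul_assoc, ← pow_add, show j + (J + 1 - j) = J + 1 by omega]
  field_simp

/-- the number of moments -/
noncomputable def kq (n : ℕ) : ℕ := ⌊Real.log n ^ 3⌋₊

/-- the error term -/
lemma err_small (J : ℕ) {q : ℝ} (hq : 0 < q) : ∀ᶠ n : ℕ in atTop,
    ((n : ℝ) ^ J) ^ 2 * (2 * ((Real.log n * (16 * (J + 1) * Real.log n)) ^ kq n / (kq n).factorial) +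
      2 * (2 ^ J * Real.exp (-((16 * (J + 1) * Real.log n) / 4)))) ≤ q := by
  have hlog : Tendsto (fun n : ℕ => Real.log n) atTop atTop :=
    Real.tendsto_log_atTop.comp tendsto_natCast_atTop_atTop
  have h1 : Tendsto (fun n : ℕ => Real.exp (-Real.log n)) atTop (𝓝 0) :=
    Real.tendsto_exp_atBot.comp (tendsto_neg_atTop_atBot.comp hlog)
  have h2 : Tendsto (fun n : ℕ => (2 * Real.exp 1 + 2 * 2 ^ J) * Real.exp (-Real.log n)) atTop (𝓝 0) := by
    simpa using h1.const_mul (2 * Real.exp 1 + 2 * 2 ^ J)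
  filter_upwards [h2.eventually (ge_mem_nhds hq), eventually_gt_atTop 1,
    hlog.eventually_ge_atTop (Real.exp 2 * (16 * (J + 1)) + 1 + (2 * J + 1))] with n h3 hn hl
  have hn1 : (1 : ℝ) < n := by exact_mod_cast hn
  have hn0 : (0 : ℝ) < n := by linarith
  set ℓ := Real.log n with hℓ
  have hJ0 : (0 : ℝ) ≤ J := Nat.cast_nonneg _
  have hA0 : 0 < Real.exp 2 * (16 * ((J : ℝ) + 1)) := by positivity
  have hℓ1 : 1 ≤ ℓ := by linarith
  have hnexp : (n : ℝ) = Real.exp ℓ := by rw [hℓ, Real.exp_log hn0]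
  -- the factorial
  set k := kq n with hk
  have hk1 : ℓ ^ 3 - 1 < k := by
    rw [hk]; unfold kq
    have := Nat.lt_floor_add_one (ℓ ^ 3)
    linarith
  have hk2 : Real.exp 2 * (ℓ * (16 * (J + 1) * ℓ)) ≤ k := by
    have h4 : Real.exp 2 * (ℓ * (16 * (J + 1) * ℓ)) = (Real.exp 2 * (16 * (J + 1))) * ℓ ^ 2 := by ring
    have h5 : (Real.exp 2 * (16 * (J + 1))) * ℓ ^ 2 ≤ (ℓ - 1) * ℓ ^ 2 := by
      gcongr
      linarith
    have h6 : (ℓ - 1) * ℓ ^ 2 ≤ ℓ ^ 3 - 1 := by nlinarith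
    linarith
  have hkpos : (0 : ℝ) < k := lt_of_lt_of_le (by positivity) hk2
  have hVR : (ℓ * (16 * (J + 1) * ℓ)) ^ k / (k.factorial : ℝ) ≤ Real.exp (-(k : ℝ)) := by
    have h4 := fac_lower k
    have h5 : 0 < ((k : ℝ) / Real.exp 1) ^ k := by positivity
    calc (ℓ * (16 * (J + 1) * ℓ)) ^ k / (k.factorial : ℝ) ≤
        (ℓ * (16 * (J + 1) * ℓ)) ^ k / ((k : ℝ) / Real.exp 1) ^ k := by gcongr
      _ = ((ℓ * (16 * (J + 1) * ℓ)) / ((k : ℝ) / Real.exp 1)) ^ k := (div_pow _ _ _).symm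
      _ ≤ (Real.exp (-1)) ^ k := by
          apply pow_le_pow_left₀ (by positivity)
          rw [div_le_iff₀ (by positivity), Real.exp_neg]
          have h6 : Real.exp 2 = Real.exp 1 * Real.exp 1 := by rw [← Real.exp_add]; norm_num
          rw [h6] at hk2
          have he := Real.exp_pos 1
          rw [← div_eq_inv_mul, div_div, le_div_iff₀ (by positivity)]
          linarith
      _ = Real.exp (-(k : ℝ)) := by rw [← Real.exp_nat_mul]; congr 1; ring
  have hk3 : Real.exp (-(k : ℝ)) ≤ Real.exp 1 * Real.exp (-(ℓ ^ 3)) := by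
    rw [← Real.exp_add]
    apply Real.exp_le_exp.2
    linarith
  have hpow : ((n : ℝ) ^ J) ^ 2 = Real.exp (2 * J * ℓ) := by
    rw [hnexp, ← Real.exp_nat_mul, ← Real.exp_nat_mul]
    congr 1
    push_cast
    ring
  have hc1 : Real.exp (2 * J * ℓ) * Real.exp (-(ℓ ^ 3)) ≤ Real.exp (-ℓ) := by
    rw [← Real.exp_add]
    apply Real.exp_le_exp.2
    have h5 : ℓ ≤ ℓ ^ 2 := by nlinarith
    have h6 : 2 * J + 1 ≤ ℓ ^ 2 := by linarith
    nlinarith [mul_le_mul_of_nonneg_left h6 (by linarith : 0 ≤ ℓ)]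
  have hc2 : Real.exp (2 * J * ℓ) * Real.exp (-((16 * (J + 1) * ℓ) / 4)) ≤ Real.exp (-ℓ) := by
    rw [← Real.exp_add]
    apply Real.exp_le_exp.2
    nlinarith
  rw [hpow]
  calc Real.exp (2 * J * ℓ) * (2 * ((ℓ * (16 * (J + 1) * ℓ)) ^ k / (k.factorial : ℝ)) +
      2 * (2 ^ J * Real.exp (-((16 * (J + 1) * ℓ) / 4)))) ≤
      Real.exp (2 * J * ℓ) * (2 * (Real.exp 1 * Real.exp (-(ℓ ^ 3))) +
      2 * (2 ^ J * Real.exp (-((16 * (J + 1) * ℓ) / 4)))) := by
        gcongr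
        exact hVR.trans hk3
    _ = 2 * Real.exp 1 * (Real.exp (2 * J * ℓ) * Real.exp (-(ℓ ^ 3))) +
        2 * 2 ^ J * (Real.exp (2 * J * ℓ) * Real.exp (-((16 * (J + 1) * ℓ) / 4))) := by ring
    _ ≤ 2 * Real.exp 1 * Real.exp (-ℓ) + 2 * 2 ^ J * Real.exp (-ℓ) := by gcongr
    _ = (2 * Real.exp 1 + 2 * 2 ^ J) * Real.exp (-ℓ) := by ring
    _ ≤ q := h3

/-- **large values of all band statistics at one point** -/
theorem lower_band (hRH : RHs) {J : ℕ} {ε : ℝ} (hε : 0 < ε) (hε1 : ε ≤ 1) {q : ℝ} (hq : 0 < q) :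
    ∀ᶠ n : ℕ in atTop, ∀ a : ℝ, |a| ≤ (1 - ε) * (Real.log n / Real.pi) →
    Sm (fun T t => ∃ p : Fin J → Fin (n / 4), ∀ j : Fin J,
      |Xs (bq J n j) (bq J n (j + 1)) (xq J n p) (mq n) T t - a| ≤
        Real.sqrt (2 * (J + 1) * Real.log n)) q := by
  have hpi := Real.pi_pos
  have hlog : Tendsto (fun n : ℕ => Real.log n) atTop atTop :=
    Real.tendsto_log_atTop.comp tendsto_natCast_atTop_atTop
  set θ : ℝ := q / 28 with hθ
  have hθ0 : 0 < θ := by positivity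
  -- the small quantities
  have hτlim : Tendsto (fun n : ℕ => 8 * (1 + Real.log n) * Real.exp (-(ε * Real.log n))) atTop (𝓝 0) := by
    have h1 : Tendsto (fun y : ℝ => 8 * (y ^ 0 * Real.exp (-y)) + 8 / ε * (y ^ 1 * Real.exp (-y)))
        atTop (𝓝 0) := by
      have a0 := (Real.tendsto_pow_mul_exp_neg_atTop_nhds_zero 0).const_mul 8
      have a1 := (Real.tendsto_pow_mul_exp_neg_atTop_nhds_zero 1).const_mul (8 / ε)
      simpa using a0.add a1
    have h2 := h1.comp (hlog.const_mul_atTop hε)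
    refine h2.congr fun n => ?_
    simp only [Function.comp_apply]
    field_simp
  have hκlim : Tendsto (fun n : ℕ => 81 * (2 / Real.log n ^ 2)) atTop (𝓝 0) := by
    have h1 : Tendsto (fun n : ℕ => Real.log n ^ 2) atTop atTop :=
      (tendsto_pow_atTop (by norm_num)).comp hlog
    have := (h1.const_div_atTop 2).const_mul 81
    simpa using this
  have hθlim : Tendsto (fun n : ℕ => Real.exp (J * (81 * (2 / Real.log n ^ 2))) *
      (1 + J * (8 * (1 + Real.log n) * Real.exp (-(ε * Real.log n))))) atTop (𝓝 1) := by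
    have h1 := (hκlim.const_mul (J : ℝ)).rexp
    have h2 := (hτlim.const_mul (J : ℝ)).const_add 1
    have := h1.mul h2
    simpa using this
  have hmlim : Tendsto (fun n : ℕ => 2 * Real.log n ^ 5 * Real.exp (-Real.log n)) atTop (𝓝 0) := by
    have h1 := ((Real.tendsto_pow_mul_exp_neg_atTop_nhds_zero 5).comp hlog).const_mul 2
    simp only [mul_zero] at h1
    refine h1.congr fun n => ?_
    simp only [Function.comp_apply]
    ring
  filter_upwards [hτlim.eventually (gt_mem_nhds (show (0 : ℝ) < 1 by norm_num)),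
    hθlim.eventually (gt_mem_nhds (show (1 : ℝ) < 1 + θ by linarith)),
    hmlim.eventually (gt_mem_nhds (show (0 : ℝ) < 1 by norm_num)),
    err_small J hθ0, eventually_ge_atTop 8, hlog.eventually_ge_atTop 2] with n h1 h2 h3 h4 hn8 hℓ2
  intro a ha
  have hn1 : 1 < n := by omega
  have hn0 : (0 : ℝ) < n := by exact_mod_cast (by omega : 0 < n)
  set ℓ := Real.log n with hℓ
  have hℓ0 : 0 < ℓ := by linarith
  have hnexp : (n : ℝ) = Real.exp ℓ := by rw [hℓ, Real.exp_log hn0]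
  set τ := 8 * (1 + ℓ) * Real.exp (-(ε * ℓ)) with hτ
  set b := bq J n with hb
  have hbp : ∀ j, 0 < b j := fun j => bq_pos hn1 j
  have hbm : StrictMono b := bq_mono hn1
  have hn' : 0 < n / 4 := by omega
  have hn4 : 4 * (n / 4) ≤ n := by omega
  have hn'8 : (n : ℝ) / 8 ≤ ((n / 4 : ℕ) : ℝ) := by
    have : n ≤ 8 * (n / 4) := by omega
    have : (n : ℝ) ≤ 8 * ((n / 4 : ℕ) : ℝ) := by exact_mod_cast this
    linarith
  have hμ : b J ≤ mq n := (bq_top (by omega)).le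
  have hmq : mq n = ℓ ^ 2 * Real.exp (-ℓ) := by
    unfold mq
    rw [← hℓ, hnexp, Real.exp_neg, div_eq_mul_inv]
  have hμ1 : mq n ≤ 1 := by
    have h5 : ℓ ^ 2 * Real.exp (-ℓ) ≤ 2 * ℓ ^ 5 * Real.exp (-ℓ) := by
      have : ℓ ^ 2 ≤ 2 * ℓ ^ 5 := by nlinarith [pow_le_pow_right₀ (by linarith : 1 ≤ ℓ) (by norm_num : 2 ≤ 5), pow_pos hℓ0 5]
      gcongr
    rw [hmq]; linarith
  have hbj1 : ∀ j : Fin J, b (j + 1) ≤ 1 := fun j =>
    (hbm.monotone (by omega : (j : ℕ) + 1 ≤ J)).trans (hμ.trans hμ1)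
  have hVu : ∀ j : Fin J, cvf (b j) (b (j + 1)) 0 ≤ ℓ := by
    intro j
    have h5 := cvf_le (hbp j) (hbm (Nat.lt_succ_self j)) (hbj1 j)
    rw [bq_succ hn1] at h5
    refine h5.trans ?_
    rw [← hℓ]
    have : 1 / (2 * Real.pi ^ 2) ≤ 1 := by
      rw [div_le_one (by positivity)]
      nlinarith [Real.pi_gt_three]
    nlinarith
  have hVl : ∀ j : Fin J, 1 / (2 * Real.pi ^ 2) * (ℓ - Real.log 4) ≤ cvf (b j) (b (j + 1)) 0 := by
    intro j
    have h4b : 4 * b j ≤ b (j + 1) := by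
      have h5 := bq_succ (J := J) hn1 j
      rw [div_eq_iff (bq_pos hn1 j).ne'] at h5
      rw [hb, h5]
      have h6 : (4 : ℝ) ≤ n := by exact_mod_cast (by omega : 4 ≤ n)
      have := bq_pos (J := J) hn1 (j : ℕ)
      gcongr
    have h5 := cvf_ge (hbp j) h4b (hbj1 j)
    rwa [bq_succ hn1, ← hℓ] at h5
  have hVn : ∀ j : Fin J, 0 ≤ cvf (b j) (b (j + 1)) 0 := fun j => cvf_nonneg _ _
  have ha' : |a| ≤ ℓ / Real.pi := by
    refine ha.trans ?_
    have : 0 ≤ ℓ / Real.pi := by positivity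
    nlinarith
  have hP : ∀ j : Fin J, 0 < P1 a (cvf (b j) (b (j + 1)) 0) := fun j => P1_pos (hVn j)
  have hPτ : ∀ j : Fin J, 1 / (((n / 4 : ℕ) : ℝ) * P1 a (cvf (b j) (b (j + 1)) 0)) ≤ τ := by
    intro j
    have h5 := P1_lower hℓ0 hε.le hε1 ha (hVn j) (hVl j) (hVu j)
    have h6 : 1 / τ ≤ ((n / 4 : ℕ) : ℝ) * P1 a (cvf (b j) (b (j + 1)) 0) := by
      calc 1 / τ = n / 8 * (Real.exp (-((1 - ε) * ℓ)) / (1 + ℓ)) := by
            rw [hτ, hnexp, show -((1 - ε) * ℓ) = -ℓ + ε * ℓ by ring, Real.exp_add, Real.exp_neg,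
              Real.exp_neg]
            field_simp
        _ ≤ _ := by gcongr
    have hτ0 : 0 < τ := by positivity
    rw [div_le_iff₀ (by have := hP j; positivity)]
    rw [div_le_iff₀ hτ0] at h6
    linarith
  set κ : ℝ := 81 * (2 / ℓ ^ 2) with hκ
  have hκ0 : 0 ≤ κ := by positivity
  have hG : ∀ p q' : Fin J → Fin (n / 4),
      Gp b ((xq J n p : ℝ) - xq J n q') a (Sq p q') ≤
      ∏ j : Fin J, (if j ∈ Sq p q' then Real.exp κ * P1 a (cvf (b j) (b (j + 1)) 0) ^ 2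
        else P1 a (cvf (b j) (b (j + 1)) 0)) := by
    classical
    intro p q'
    unfold Gp
    have hif : ∀ j : Fin J, 0 ≤ (if j ∈ Sq p q' then P2 a (cvf (b j) (b (j + 1)) 0)
        (cvf (b j) (b (j + 1)) ((xq J n p : ℝ) - xq J n q')) else P1 a (cvf (b j) (b (j + 1)) 0)) ∧
        (if j ∈ Sq p q' then P2 a (cvf (b j) (b (j + 1)) 0)
        (cvf (b j) (b (j + 1)) ((xq J n p : ℝ) - xq J n q')) else P1 a (cvf (b j) (b (j + 1)) 0)) ≤
        (if j ∈ Sq p q' then Real.exp κ * P1 a (cvf (b j) (b (j + 1)) 0) ^ 2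
        else P1 a (cvf (b j) (b (j + 1)) 0)) := by
      intro j
      by_cases hj : j ∈ Sq p q'
      · rw [if_pos hj, if_pos hj]
        constructor
        · unfold P2; positivity
        · have hD := dist_Sq (by omega) hn4 hj
          have hD0 : 0 < |(xq J n p : ℝ) - xq J n q'| := lt_of_lt_of_le (by positivity) hD
          have hDb : ℓ ^ 2 / 2 ≤ |(xq J n p : ℝ) - xq J n q'| * b j := by
            have h5 := bq_dist (J := J) (j := (j : ℕ)) hn1 (by omega)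
            calc ℓ ^ 2 / 2 = (n : ℝ) ^ (J + 1 - (j : ℕ)) / 2 * b j := by rw [hℓ, ← h5]; ring
              _ ≤ _ := by have := hbp j; gcongr
          have hc := cvf_abs' (hbp j) (hbm (Nat.lt_succ_self j)) (hbj1 j) (abs_pos.1 hD0)
          have hc2 : |cvf (b j) (b (j + 1)) ((xq J n p : ℝ) - xq J n q')| ≤ 2 / ℓ ^ 2 := by
            refine hc.trans ?_
            rw [show 2 / ℓ ^ 2 = 1 / (ℓ ^ 2 / 2) by field_simp]
            exact one_div_le_one_div_of_le (by positivity) hDb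
          rw [hκ]
          apply P2_upper hℓ0 ha' (hVn j) (hVl j) hc2
          rw [div_le_iff₀ (by positivity)]
          nlinarith
      · rw [if_neg hj, if_neg hj]
        exact ⟨(hP j).le, le_rfl⟩
    exact Finset.prod_le_prod (fun j _ => (hif j).1) (fun j _ => (hif j).2)
  have hpairs := sum_pairs hP h1.le hn' hPτ hκ0
    (fun p q' => Gp b ((xq J n p : ℝ) - xq J n q') a (Sq p q')) hG
  set M := (Fintype.card (Fin J → Fin (n / 4)) : ℝ) * ∏ j : Fin J, P1 a (cvf (b j) (b (j + 1)) 0)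
    with hM
  have hcard : (Fintype.card (Fin J → Fin (n / 4)) : ℝ) = ((n / 4 : ℕ) : ℝ) ^ J := by
    simp [Fintype.card_fin]
  have hM1 : 1 ≤ M := by
    have e : M = ∏ j : Fin J, (((n / 4 : ℕ) : ℝ) * P1 a (cvf (b j) (b (j + 1)) 0)) := by
      rw [Finset.prod_mul_distrib, Finset.prod_const, Finset.card_univ, Fintype.card_fin, hM, hcard]
    rw [e]
    have e' : (1 : ℝ) = ∏ _j : Fin J, (1 : ℝ) := by simp
    rw [e']
    apply Finset.prod_le_prod (fun j _ => zero_le_one)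
    intro j _
    have h5 := (hPτ j).trans h1.le
    have h6 : 0 < ((n / 4 : ℕ) : ℝ) * P1 a (cvf (b j) (b (j + 1)) 0) := by
      have := hP j
      have : (0 : ℝ) < ((n / 4 : ℕ) : ℝ) := by exact_mod_cast hn'
      positivity
    rwa [div_le_one h6] at h5
  have hcardn : (Fintype.card (Fin J → Fin (n / 4)) : ℝ) ≤ (n : ℝ) ^ J := by
    rw [hcard]
    gcongr
    exact_mod_cast Nat.div_le_self n 4
  have h5 := second_moment hRH (hbp 0) hbm hμ hμ1 a (fun p : Fin J → Fin (n / 4) => (xq J n p : ℝ))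
    Sq hVu hℓ0.le (kq n) (by
      have h6 : (kq n : ℝ) ≤ ℓ ^ 3 := by unfold kq; exact Nat.floor_le (by positivity)
      rw [hmq]
      calc 2 * (kq n : ℝ) * (ℓ ^ 2 * Real.exp (-ℓ)) ≤ 2 * ℓ ^ 3 * (ℓ ^ 2 * Real.exp (-ℓ)) := by gcongr
        _ = 2 * ℓ ^ 5 * Real.exp (-ℓ) := by ring
        _ < 1 := h3) (R := 16 * (J + 1) * ℓ) (by positivity) hM hM1 (θ := θ) (θ' := θ) (η := θ)
    (by
      refine hpairs.trans ?_
      have hM2 : 0 ≤ M ^ 2 := sq_nonneg _
      exact mul_le_mul_of_nonneg_right h2.le hM2) (by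
      refine le_trans ?_ h4
      gcongr) hθ0
  have h6 := h5.weaken (q' := q) (by rw [hθ]; linarith)
  refine h6.mono (Eventually.of_forall fun T t _ _ hMt => ?_)
  apply good_point (fun p : Fin J → Fin (n / 4) => (xq J n p : ℝ)) hMt _ (Real.sqrt_nonneg _)
  rw [Real.sq_sqrt (by positivity)]
  calc (Fintype.card (Fin J → Fin (n / 4)) : ℝ) * Real.exp (-(2 * (J + 1) * ℓ / 2)) ≤
      (n : ℝ) ^ J * Real.exp (-(2 * (J + 1) * ℓ / 2)) := by gcongr
    _ = Real.exp (-ℓ) := by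
        rw [hnexp, ← Real.exp_nat_mul, ← Real.exp_add]
        congr 1
        ring
    _ ≤ 1 / 2 := by
        have h7 := Real.add_one_le_exp ℓ
        rw [Real.exp_neg, ← one_div]
        exact one_div_le_one_div_of_le (by norm_num) (by linarith)
    _ ≤ M / 2 := by linarith

end Pool.Agent.H478.EX
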