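import Pool.Agent.H478.EX10

/-! The variances of the remainders. -/

open Finset Complex MeasureTheory Filter Topology ProbabilityTheory

namespace Pool.Agent.H478.EX

open Pool.Agent.H478.CW
open Pool.Agent.R321.FA
open SP (ZZ mu Mk RHs)
open H370.A2 (RR evp evp_zero)

/-- admissibility at a wider band -/
lemma Adm.wide {f : ℝ → ℝ} {μ μ' : ℝ} (h : Adm f μ) (h0 : 0 ≤ μ) (hμ : μ ≤ μ') : Adm f μ' where
  cont := h.cont
  even := h.even
  zero := fun x hx => h.zero x (hμ.trans hx)
  lip := h.lip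
  bd := h.bd
  dec := by
    obtain ⟨G, hG⟩ := h.dec
    refine ⟨G, fun x => ?_⟩
    rw [RR_band h.cont h0 hμ h.zero]
    exact hG x

lemma Good.wide {l : List Ent} {μ μ' : ℝ} (h : Good l μ) (h0 : 0 ≤ μ) (hμ : μ ≤ μ') : Good l μ' :=
  fun e he => (h e he).wide h0 hμ

lemma psb_adm {δ x : ℝ} (hδ : 0 < δ) (hδ1 : δ ≤ 1) (hx : 0 < x) : Adm (psb δ x) δ where
  cont := psb_cont hδ hx.le
  even := psb_even δ x
  zero := psb_zero hδ x
  lip := ⟨_, psb_lip hδ hx.le⟩
  bd := ⟨_, fun y => psb_le hx.le y⟩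
  dec := ⟨_, psb_dk hδ hδ1 hx⟩

/-- the centred smooth count -/
noncomputable def cntl (δ x : ℝ) : List Ent := [⟨1, psb δ x, x / 2⟩]

lemma cntl_good {δ x : ℝ} (hδ : 0 < δ) (hδ1 : δ ≤ 1) (hx : 0 < x) : Good (cntl δ x) δ := by
  intro e he
  simp only [cntl, List.mem_singleton] at he
  rw [he]
  exact psb_adm hδ hδ1 hx

lemma cntl_stt (δ x μ T t : ℝ) : stt (cntl δ x) μ T t =
    XX (psb δ x) μ T (t + Real.pi * x / Real.log T) - x := by
  unfold stt cntl
  simp only [List.map_cons, List.map_nil, List.sum_cons, List.sum_nil, add_zero, one_mul,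
    psb_zero_val]
  congr 2
  ring

/-- the transform of the window -/
lemma cb_exp (x : ℝ) {v : ℝ} (hv : 0 < v) :
    ((cb x v : ℝ) : ℂ) * cexp (((2 * Real.pi * (x / 2) * v : ℝ) : ℂ) * I) =
      (cexp (((2 * Real.pi * x * v : ℝ) : ℂ) * I) - 1) * (-I * ((1 / (2 * Real.pi * v) : ℝ) : ℂ)) := by
  have hpi := Real.pi_pos
  rw [cb_formula x hv.ne']
  have e1 : ((2 * Real.pi * x * v : ℝ) : ℂ) * I =
      ((2 * Real.pi * (x / 2) * v : ℝ) : ℂ) * I + ((2 * Real.pi * (x / 2) * v : ℝ) : ℂ) * I := by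
    push_cast; ring
  rw [e1, Complex.exp_add]
  set θ := 2 * Real.pi * (x / 2) * v with hθ
  have e2 : Real.pi * v * x = θ := by rw [hθ]; ring
  rw [e2, Complex.exp_mul_I, ← Complex.ofReal_cos, ← Complex.ofReal_sin]
  have e3 : ((Real.sin θ / (Real.pi * v) : ℝ) : ℂ) = 2 * (Real.sin θ : ℂ) *
      ((1 / (2 * Real.pi * v) : ℝ) : ℂ) := by
    rw [← Complex.ofReal_ofNat, ← Complex.ofReal_mul, ← Complex.ofReal_mul]
    congr 1
    field_simp
  rw [e3]
  have h1 : ((Real.cos θ : ℂ)) ^ 2 = 1 - (Real.sin θ : ℂ) ^ 2 := by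
    rw [← Complex.ofReal_pow, ← Complex.ofReal_pow, Real.cos_sq', Complex.ofReal_sub,
      Complex.ofReal_one]
  have h2 : ((Real.cos θ : ℂ) + (Real.sin θ : ℂ) * I) * ((Real.cos θ : ℂ) + (Real.sin θ : ℂ) * I) - 1
      = 2 * I * (Real.sin θ : ℂ) * ((Real.cos θ : ℂ) + (Real.sin θ : ℂ) * I) := by
    have hI : I ^ 2 = -1 := Complex.I_sq
    linear_combination h1 - (Real.sin θ : ℂ) ^ 2 * hI
  rw [h2]
  have hI : I * I = -1 := Complex.I_mul_I
  linear_combination (2 * (Real.sin θ : ℂ) * ((Real.cos θ : ℂ) + (Real.sin θ : ℂ) * I) *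
    ((1 / (2 * Real.pi * v) : ℝ) : ℂ)) * (hI)

/-- the norm of `e^{iφ} - 1` -/
lemma norm_e1 (φ : ℝ) : ‖cexp ((φ : ℂ) * I) - 1‖ ^ 2 = 2 - 2 * Real.cos φ := by
  rw [← Complex.normSq_eq_norm_sq, Complex.exp_mul_I, ← Complex.ofReal_cos, ← Complex.ofReal_sin,
    Complex.normSq_apply]
  simp only [Complex.sub_re, Complex.add_re, Complex.ofReal_re, Complex.mul_re, Complex.I_re,
    mul_zero, Complex.ofReal_im, Complex.I_im, mul_one, Complex.one_re, Complex.sub_im,
    Complex.add_im, Complex.mul_im, Complex.one_im, sub_zero, zero_add, sub_self, add_zero]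
  have := Real.sin_sq_add_cos_sq φ
  nlinarith

lemma cntl_tf {δ x v : ℝ} (hv : 0 < v) : tf (cntl δ x) v =
    ((fb (v / δ) : ℝ) : ℂ) * ((cexp (((2 * Real.pi * x * v : ℝ) : ℂ) * I) - 1) *
      (-I * ((1 / (2 * Real.pi * v) : ℝ) : ℂ))) := by
  unfold tf cntl
  simp only [List.map_cons, List.map_nil, List.sum_cons, List.sum_nil, add_zero, one_mul]
  rw [← cb_exp x hv]
  unfold psb
  push_cast
  ring

/-- the first remainder -/
noncomputable def reml (J : ℕ) (b : ℕ → ℝ) (δ x : ℝ) : List Ent :=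
  cntl δ x ++ bun J fun j => pr (b j) (b (j + 1)) x 0 1 (-1)

lemma reml_good {J : ℕ} {b : ℕ → ℝ} (hb : 0 < b 0) (hbm : StrictMono b) {δ : ℝ} (hδ : 0 < δ)
    (hδ1 : δ ≤ 1) (hbJ : b J ≤ δ) {x : ℝ} (hx : 0 < x) : Good (reml J b δ x) δ := by
  have hbp : ∀ j, 0 < b j := fun j => hb.trans_le (hbm.monotone (Nat.zero_le j))
  apply (cntl_good hδ hδ1 hx).append
  apply Good.bun
  intro j
  exact pr_good (hbp j) (hbm (Nat.lt_succ_self j))
    ((hbm.monotone (by omega : (j : ℕ) + 1 ≤ J)).trans hbJ) _ _ _ _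

lemma reml_stt (J : ℕ) (b : ℕ → ℝ) (δ x μ T t : ℝ) : stt (reml J b δ x) μ T t =
    (XX (psb δ x) μ T (t + Real.pi * x / Real.log T) - x) +
      ∑ j : Fin J, (Xs (b j) (b (j + 1)) x μ T t - Xs (b j) (b (j + 1)) 0 μ T t) := by
  unfold reml
  rw [stt_append, cntl_stt, stt_bun]
  congr 1
  refine Finset.sum_congr rfl fun j _ => ?_
  unfold pr Xs
  rw [stt_append, stt_scl, stt_scl]
  ring

lemma reml_norm {J : ℕ} {b : ℕ → ℝ} (hb : 0 < b 0) (hbm : StrictMono b) {δ x v : ℝ} (hv : 0 < v) :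
    2 * (v * ‖tf (reml J b δ x) v‖ ^ 2) = 1 / (2 * Real.pi ^ 2) * ((2 - 2 * Real.cos (2 * Real.pi * x * v)) *
      (fb (v / δ) - ∑ j : Fin J, chi (b j) (b (j + 1)) v) ^ 2 / v) := by
  have hpi := Real.pi_pos
  have hbp : ∀ j, 0 < b j := fun j => hb.trans_le (hbm.monotone (Nat.zero_le j))
  have e1 : tf (reml J b δ x) v = (cexp (((2 * Real.pi * x * v : ℝ) : ℂ) * I) - 1) *
      ((-I) * (((fb (v / δ) - ∑ j : Fin J, chi (b j) (b (j + 1)) v) * (1 / (2 * Real.pi * v)) : ℝ) : ℂ)) := by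
    unfold reml
    rw [tf_append, cntl_tf hv, tf_bun]
    have e2 : ∀ j : Fin J, tf (pr (b j) (b (j + 1)) x 0 1 (-1)) v =
        (cexp (((2 * Real.pi * x * v : ℝ) : ℂ) * I) - 1) *
          (I * ((chi (b j) (b (j + 1)) v * (1 / (2 * Real.pi * v)) : ℝ) : ℂ)) := by
      intro j
      rw [pr_tf (hbp j) (hbm (Nat.lt_succ_self j)) hv.le]
      have : cexp (((2 * Real.pi * 0 * v : ℝ) : ℂ) * I) = 1 := by simp
      rw [this]
      push_cast
      ring
    simp only [e2]
    rw [← Finset.mul_sum, ← Finset.mul_sum, ← Complex.ofReal_sum, ← Finset.sum_mul]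
    push_cast
    ring
  rw [e1, norm_mul, norm_mul, norm_neg, Complex.norm_I, one_mul, Complex.norm_real, mul_pow,
    norm_e1, Real.norm_eq_abs, sq_abs]
  field_simp

lemma sum_chi_le {J : ℕ} {b : ℕ → ℝ} (hb : 0 < b 0) (hbm : StrictMono b) (v : ℝ) :
    ∑ j : Fin J, chi (b j) (b (j + 1)) v ≤ 1 := by
  classical
  have hbp : ∀ j, 0 < b j := fun j => hb.trans_le (hbm.monotone (Nat.zero_le j))
  by_cases h : ∃ j : Fin J, chi (b j) (b (j + 1)) v ≠ 0
  · obtain ⟨i, hi⟩ := h
    rw [← Finset.add_sum_erase _ _ (Finset.mem_univ i)]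
    have h1 : ∑ j ∈ Finset.univ.erase i, chi (b j) (b (j + 1)) v = 0 := by
      apply Finset.sum_eq_zero
      intro j hj
      have hji : j ≠ i := Finset.ne_of_mem_erase hj
      have hv1 : b i < v := by
        by_contra hh
        exact hi (chi_low (hbp i) (not_lt.1 hh))
      have hv2 : v < b (i + 1) := by
        by_contra hh
        exact hi (chi_high (hbp _) (not_lt.1 hh))
      rcases lt_or_gt_of_ne hji with h2 | h2
      · apply chi_high (hbp _)
        have : b ((j : ℕ) + 1) ≤ b i := hbm.monotone (by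
          have : (j : ℕ) < i := h2
          omega)
        linarith
      · apply chi_low (hbp _)
        have : b ((i : ℕ) + 1) ≤ b j := hbm.monotone (by
          have : (i : ℕ) < j := h2
          omega)
        linarith
    rw [h1, add_zero]
    exact chi_le _ _ _
  · push Not at h
    rw [Finset.sum_eq_zero fun j _ => h j]
    norm_num

/-- **the variance of the first remainder** -/
theorem reml_kv {J : ℕ} {b : ℕ → ℝ} (hb : 0 < b 0) (hbm : StrictMono b)
    (hb4 : ∀ j, 4 * b j ≤ b (j + 1)) {δ : ℝ} (hδ : 0 < δ)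
    (hδ1 : δ ≤ 1) (hbJ : b J ≤ δ) {x R : ℝ} (hx : 0 < x) (hxR : x ≤ R) (hR : 1 ≤ R * b 0) :
    kv (reml J b δ x) ≤ 2 + Real.log (δ * R * (b 0 / b J)) + J * Real.log 4 := by
  have hpi := Real.pi_pos
  have hpi3 := Real.pi_gt_three
  have hbp : ∀ j, 0 < b j := fun j => hb.trans_le (hbm.monotone (Nat.zero_le j))
  have hR0 : 0 < R := by
    by_contra h
    nlinarith [hbp 0]
  have hR1 : 1 / R ≤ b 0 := by rw [div_le_iff₀ hR0]; linarith
  have hb0J : b 0 ≤ b J := hbm.monotone (Nat.zero_le J)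
  have hRδ : 1 / R ≤ δ := hR1.trans (hb0J.trans hbJ)
  have hg := reml_good hb hbm hδ hδ1 hbJ hx
  have hc : Continuous fun v => 2 * (v * ‖tf (reml J b δ x) v‖ ^ 2) := by
    have := tf_cont hg
    fun_prop
  have e0 : kv (reml J b δ x) = ∫ v in (0 : ℝ)..1, 2 * (v * ‖tf (reml J b δ x) v‖ ^ 2) := by
    unfold kv
    rw [intervalIntegral.integral_const_mul]
  -- bounds for the difference of the profiles
  have hX0 : ∀ v, 0 ≤ ∑ j : Fin J, chi (b j) (b (j + 1)) v := fun v =>
    Finset.sum_nonneg fun j _ => chi_nonneg _ _ _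
  have hX1 := fun v => sum_chi_le (J := J) hb hbm v
  have hd1 : ∀ v, (fb (v / δ) - ∑ j : Fin J, chi (b j) (b (j + 1)) v) ^ 2 ≤ 1 := by
    intro v
    have h1 := fb_nonneg (v / δ)
    have h2 := fb_le (v / δ)
    have h3 := hX0 v
    have h4 := hX1 v
    nlinarith
  have hcos : ∀ v, 0 ≤ 2 - 2 * Real.cos (2 * Real.pi * x * v) := fun v => by
    linarith [Real.cos_le_one (2 * Real.pi * x * v)]
  have hcos4 : ∀ v, 2 - 2 * Real.cos (2 * Real.pi * x * v) ≤ 4 := fun v => by
    linarith [Real.neg_one_le_cos (2 * Real.pi * x * v)]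
  -- low frequencies
  have i1 : ∫ v in (0 : ℝ)..(1 / R), 2 * (v * ‖tf (reml J b δ x) v‖ ^ 2) ≤ 1 := by
    have hle : ∫ v in (0 : ℝ)..(1 / R), 2 * (v * ‖tf (reml J b δ x) v‖ ^ 2) ≤
        ∫ v in (0 : ℝ)..(1 / R), 2 * R ^ 2 * v := by
      apply intervalIntegral.integral_mono_on (by positivity) (hc.intervalIntegrable _ _)
      · exact (by fun_prop : Continuous fun v : ℝ => 2 * R ^ 2 * v).intervalIntegrable _ _
      · intro v hv
        rcases hv.1.eq_or_lt with h0 | h0
        · rw [← h0]; simp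
        rw [reml_norm hb hbm h0]
        have h1 : 2 - 2 * Real.cos (2 * Real.pi * x * v) ≤ (2 * Real.pi * R * v) ^ 2 := by
          have h2 := Real.one_sub_sq_div_two_le_cos (x := 2 * Real.pi * x * v)
          have h3 : (2 * Real.pi * x * v) ^ 2 ≤ (2 * Real.pi * R * v) ^ 2 := by
            have := hv.1
            gcongr
          linarith
        have h2 := hd1 v
        calc 1 / (2 * Real.pi ^ 2) * ((2 - 2 * Real.cos (2 * Real.pi * x * v)) *
            (fb (v / δ) - ∑ j : Fin J, chi (b j) (b (j + 1)) v) ^ 2 / v) ≤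
            1 / (2 * Real.pi ^ 2) * ((2 * Real.pi * R * v) ^ 2 * 1 / v) := by
              have := hcos v
              gcongr
          _ = 2 * R ^ 2 * v := by field_simp
    refine hle.trans ?_
    rw [intervalIntegral.integral_const_mul, integral_id]
    have : 2 * R ^ 2 * (((1 / R) ^ 2 - 0 ^ 2) / 2) = 1 := by
      rw [div_pow]; field_simp; try ring
    rw [this]
  -- middle frequencies
  have i2 : ∫ v in (1 / R)..δ, 2 * (v * ‖tf (reml J b δ x) v‖ ^ 2) ≤
      1 / (2 * Real.pi ^ 2) * (4 * Real.log (δ * R) -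
        4 * (Real.log (b J / b 0) - J * Real.log 4) + 4) := by
    have hR0' : 0 < 1 / R := by positivity
    have hinv : IntervalIntegrable (fun v : ℝ => 1 / v) volume (1 / R) δ := inv_int hR0' hRδ
    have hsd : ∀ j : Fin J, Continuous (sd (b j) (b (j + 1))) := fun j => sd_cont (hbp j)
    have hsdI : Continuous fun v => ∑ j : Fin J, sd (b j) (b (j + 1)) v :=
      continuous_finsetSum _ fun j _ => hsd j
    have hlin : Continuous fun v : ℝ => 8 / δ ^ 2 * v := by fun_prop
    have hle : ∫ v in (1 / R)..δ, 2 * (v * ‖tf (reml J b δ x) v‖ ^ 2) ≤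
        ∫ v in (1 / R)..δ, 1 / (2 * Real.pi ^ 2) *
          ((4 * (1 / v) - 4 * ∑ j : Fin J, sd (b j) (b (j + 1)) v) + 8 / δ ^ 2 * v) := by
      apply intervalIntegral.integral_mono_on hRδ (hc.intervalIntegrable _ _)
      · exact (((hinv.const_mul 4).sub ((hsdI.intervalIntegrable _ _).const_mul 4)).add
          (hlin.intervalIntegrable _ _)).const_mul _
      · intro v hv
        have h0 : 0 < v := lt_of_lt_of_le hR0' hv.1
        rw [reml_norm hb hbm h0]
        apply mul_le_mul_of_nonneg_left _ (by positivity)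
        have hfb : 1 - fb (v / δ) ≤ 2 * (v / δ) ^ 2 := by
          have hvd : |v / δ| ≤ 1 := by
            rw [abs_of_nonneg (by positivity), div_le_one hδ]; exact hv.2
          rw [fb_in hvd]
          nlinarith [sq_nonneg ((v / δ) ^ 2)]
        have hfb1 := fb_le (v / δ)
        have hsq : ∑ j : Fin J, chi (b j) (b (j + 1)) v ^ 2 ≤ ∑ j : Fin J, chi (b j) (b (j + 1)) v := by
          refine Finset.sum_le_sum fun j _ => ?_
          have h1 := chi_nonneg (b j) (b (j + 1)) v
          have h2 := chi_le (b j) (b (j + 1)) v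
          nlinarith
        have hsum : ∑ j : Fin J, sd (b j) (b (j + 1)) v =
            (∑ j : Fin J, chi (b j) (b (j + 1)) v ^ 2) / v := by
          unfold sd
          rw [Finset.sum_div]
        rw [hsum]
        have hX0v := hX0 v
        have hX1v := hX1 v
        have hsqdiff : (fb (v / δ) - ∑ j : Fin J, chi (b j) (b (j + 1)) v) ^ 2 ≤
            (1 - ∑ j : Fin J, chi (b j) (b (j + 1)) v ^ 2) + 2 * (v / δ) ^ 2 := by
          have hfn := fb_nonneg (v / δ)
          have h5 : (fb (v / δ) - ∑ j : Fin J, chi (b j) (b (j + 1)) v) ^ 2 ≤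
              (1 - ∑ j : Fin J, chi (b j) (b (j + 1)) v) + (1 - fb (v / δ)) := by
            nlinarith [mul_nonneg hfn hX0v, mul_nonneg hfn (by linarith : 0 ≤ 1 - fb (v / δ)),
              mul_nonneg hX0v (by linarith : 0 ≤ 1 - ∑ j : Fin J, chi (b j) (b (j + 1)) v),
              mul_nonneg (by linarith : 0 ≤ 1 - fb (v / δ))
                (by linarith : 0 ≤ 1 - ∑ j : Fin J, chi (b j) (b (j + 1)) v)]
          linarith
        have hpos : 0 ≤ (1 - ∑ j : Fin J, chi (b j) (b (j + 1)) v ^ 2) + 2 * (v / δ) ^ 2 :=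
          (sq_nonneg _).trans hsqdiff
        calc (2 - 2 * Real.cos (2 * Real.pi * x * v)) *
            (fb (v / δ) - ∑ j : Fin J, chi (b j) (b (j + 1)) v) ^ 2 / v ≤
            4 * ((1 - ∑ j : Fin J, chi (b j) (b (j + 1)) v ^ 2) + 2 * (v / δ) ^ 2) / v := by
              have := hcos4 v
              gcongr
          _ = _ := by field_simp; ring
    refine hle.trans ?_
    rw [intervalIntegral.integral_const_mul]
    apply mul_le_mul_of_nonneg_left _ (by positivity)
    rw [intervalIntegral.integral_add ((hinv.const_mul 4).sub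
      ((hsdI.intervalIntegrable _ _).const_mul 4)) (hlin.intervalIntegrable _ _),
      intervalIntegral.integral_sub (hinv.const_mul 4) ((hsdI.intervalIntegrable _ _).const_mul 4),
      intervalIntegral.integral_const_mul, intervalIntegral.integral_const_mul,
      intervalIntegral.integral_const_mul, int_inv' hR0' hRδ, integral_id]
    have e1 : δ / (1 / R) = δ * R := by field_simp
    rw [e1]
    have h1 : ∫ v in (1 / R)..δ, ∑ j : Fin J, sd (b j) (b (j + 1)) v =
        ∑ j : Fin J, ∫ v in (0 : ℝ)..1, sd (b j) (b (j + 1)) v := by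
      rw [intervalIntegral.integral_finsetSum fun j _ => (hsd j).intervalIntegrable _ _]
      refine Finset.sum_congr rfl fun j _ => ?_
      have z1 : ∫ v in (0 : ℝ)..(1 / R), sd (b j) (b (j + 1)) v = 0 := by
        have : ∫ v in (0 : ℝ)..(1 / R), sd (b j) (b (j + 1)) v =
            ∫ v in (0 : ℝ)..(1 / R), (0 : ℝ) := by
          apply intervalIntegral.integral_congr
          intro v hv
          rw [Set.uIcc_of_le hR0'.le] at hv
          exact sd_low (hbp j) (hv.2.trans (hR1.trans (hbm.monotone (Nat.zero_le _))))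
        rw [this]; simp
      have z2 : ∫ v in δ..1, sd (b j) (b (j + 1)) v = 0 := by
        have : ∫ v in δ..1, sd (b j) (b (j + 1)) v = ∫ v in δ..1, (0 : ℝ) := by
          apply intervalIntegral.integral_congr
          intro v hv
          rw [Set.uIcc_of_le hδ1] at hv
          exact sd_high (hbp _) (((hbm.monotone (by omega : (j : ℕ) + 1 ≤ J)).trans hbJ).trans hv.1)
        rw [this]; simp
      rw [← intervalIntegral.integral_add_adjacent_intervals (b := 1 / R)
        ((hsd j).intervalIntegrable 0 (1 / R)) ((hsd j).intervalIntegrable (1 / R) 1), z1, zero_add,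
        ← intervalIntegral.integral_add_adjacent_intervals (b := δ)
        ((hsd j).intervalIntegrable (1 / R) δ) ((hsd j).intervalIntegrable δ 1), z2, add_zero]
    rw [h1]
    have h2 : Real.log (b J / b 0) - J * Real.log 4 ≤
        ∑ j : Fin J, ∫ v in (0 : ℝ)..1, sd (b j) (b (j + 1)) v := by
      have h3 : ∀ j : Fin J, Real.log (b (j + 1)) - Real.log (b j) - Real.log 4 ≤
          ∫ v in (0 : ℝ)..1, sd (b j) (b (j + 1)) v := by
        intro j
        have h4 := cvf_ge (hbp j) (hb4 j)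
          (((hbm.monotone (by omega : (j : ℕ) + 1 ≤ J)).trans hbJ).trans hδ1)
        rw [cvf_zero] at h4
        have h5 := le_of_mul_le_mul_left h4 (by positivity)
        rwa [Real.log_div (hbp _).ne' (hbp _).ne'] at h5
      calc Real.log (b J / b 0) - J * Real.log 4 =
          ∑ j : Fin J, (Real.log (b (j + 1)) - Real.log (b j) - Real.log 4) := by
            rw [Finset.sum_sub_distrib, Finset.sum_const, Finset.card_univ, Fintype.card_fin,
              nsmul_eq_mul, Real.log_div (hbp _).ne' (hbp _).ne']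
            congr 1
            rw [Fin.sum_univ_eq_sum_range (fun j => Real.log (b (j + 1)) - Real.log (b j)) J,
              Finset.sum_range_sub (fun j => Real.log (b j))]
        _ ≤ _ := Finset.sum_le_sum fun j _ => h3 j
    have h3 : 8 / δ ^ 2 * ((δ ^ 2 - (1 / R) ^ 2) / 2) ≤ 4 := by
      have : 8 / δ ^ 2 * ((δ ^ 2 - (1 / R) ^ 2) / 2) = 4 - 4 * (1 / R) ^ 2 / δ ^ 2 := by
        field_simp
        ring
      rw [this]
      have : 0 ≤ 4 * (1 / R) ^ 2 / δ ^ 2 := by positivity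
      linarith
    linarith
  -- high frequencies
  have i3 : ∫ v in δ..1, 2 * (v * ‖tf (reml J b δ x) v‖ ^ 2) = 0 := by
    have : ∫ v in δ..1, 2 * (v * ‖tf (reml J b δ x) v‖ ^ 2) = ∫ v in δ..1, (0 : ℝ) := by
      apply intervalIntegral.integral_congr
      intro v hv
      rw [Set.uIcc_of_le hδ1] at hv
      show 2 * (v * ‖tf (reml J b δ x) v‖ ^ 2) = 0
      rw [tf_zero hg (v := v) (by rw [abs_of_nonneg (hδ.le.trans hv.1)]; exact hv.1)]
      simp
    rw [this]; simp
  rw [e0, ← intervalIntegral.integral_add_adjacent_intervals (b := 1 / R)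
    (hc.intervalIntegrable 0 (1 / R)) (hc.intervalIntegrable (1 / R) 1),
    ← intervalIntegral.integral_add_adjacent_intervals (b := δ)
    (hc.intervalIntegrable (1 / R) δ) (hc.intervalIntegrable δ 1), i3, add_zero]
  have hlog : Real.log (δ * R * (b 0 / b J)) = Real.log (δ * R) - Real.log (b J / b 0) := by
    rw [Real.log_mul (by positivity) (by have := hbp 0; have := hbp J; positivity), sub_eq_add_neg,
      ← Real.log_inv, inv_div]
  have hnn : 0 ≤ 1 + Real.log (δ * R * (b 0 / b J)) + J * Real.log 4 := by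
    have h1 : 0 ≤ J * Real.log 4 := mul_nonneg (Nat.cast_nonneg _) (Real.log_nonneg (by norm_num))
    have h2 : 0 ≤ Real.log (δ * R * (b 0 / b J)) := by
      apply Real.log_nonneg
      have h3 : δ * R * (b 0 / b J) = (δ / b J) * (R * b 0) := by
        have := hbp J
        field_simp
      rw [h3]
      have h4 : 1 ≤ δ / b J := by rw [le_div_iff₀ (hbp J)]; linarith
      nlinarith
    linarith
  have hcoef : 1 / (2 * Real.pi ^ 2) * (4 * Real.log (δ * R) -
      4 * (Real.log (b J / b 0) - J * Real.log 4) + 4) ≤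
      1 + Real.log (δ * R * (b 0 / b J)) + J * Real.log 4 := by
    have e : 4 * Real.log (δ * R) - 4 * (Real.log (b J / b 0) - J * Real.log 4) + 4 =
        4 * (1 + Real.log (δ * R * (b 0 / b J)) + J * Real.log 4) := by rw [hlog]; ring
    rw [e]
    have h1 : 1 / (2 * Real.pi ^ 2) * 4 ≤ 1 := by
      rw [one_div, inv_mul_le_iff₀ (by positivity)]
      nlinarith
    nlinarith
  linarith

/-- the second remainder -/
noncomputable def midl (δ δ' x : ℝ) : List Ent := cntl δ' x ++ scl (-1) (cntl δ x)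

lemma midl_good {δ δ' : ℝ} (hδ : 0 < δ) (hδδ : δ ≤ δ') (hδ1 : δ' ≤ 1) {x : ℝ} (hx : 0 < x) :
    Good (midl δ δ' x) δ' :=
  (cntl_good (hδ.trans_le hδδ) hδ1 hx).append
    (((cntl_good hδ (hδδ.trans hδ1) hx).wide hδ.le hδδ).scl _)

/-- **the variance of the second remainder** -/
theorem midl_kv {δ δ' : ℝ} (hδ : 0 < δ) (hδδ : δ ≤ δ') (hδ1 : δ' ≤ 1) {x : ℝ} (hx : 0 < x) :
    kv (midl δ δ' x) ≤ 1 + Real.log (δ' / δ) := by
  have hpi := Real.pi_pos
  have hpi3 := Real.pi_gt_three
  have hδ' : 0 < δ' := hδ.trans_le hδδ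
  have hg := midl_good hδ hδδ hδ1 hx
  have hc : Continuous fun v => 2 * (v * ‖tf (midl δ δ' x) v‖ ^ 2) := by
    have := tf_cont hg
    fun_prop
  have e0 : kv (midl δ δ' x) = ∫ v in (0 : ℝ)..1, 2 * (v * ‖tf (midl δ δ' x) v‖ ^ 2) := by
    unfold kv
    rw [intervalIntegral.integral_const_mul]
  have hn : ∀ v, 0 < v → 2 * (v * ‖tf (midl δ δ' x) v‖ ^ 2) ≤
      2 / Real.pi ^ 2 * ((fb (v / δ') - fb (v / δ)) ^ 2 / v) := by
    intro v hv
    have e1 : tf (midl δ δ' x) v = (cexp (((2 * Real.pi * x * v : ℝ) : ℂ) * I) - 1) *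
        (-I * (((fb (v / δ') - fb (v / δ)) * (1 / (2 * Real.pi * v)) : ℝ) : ℂ)) := by
      unfold midl
      rw [tf_append, tf_scl, cntl_tf hv, cntl_tf hv]
      push_cast
      ring
    rw [e1, norm_mul, norm_mul, norm_neg, Complex.norm_I, one_mul, Complex.norm_real, mul_pow,
      norm_e1, Real.norm_eq_abs, sq_abs]
    have h1 : 2 - 2 * Real.cos (2 * Real.pi * x * v) ≤ 4 := by
      linarith [Real.neg_one_le_cos (2 * Real.pi * x * v)]
    calc 2 * (v * ((2 - 2 * Real.cos (2 * Real.pi * x * v)) *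
        ((fb (v / δ') - fb (v / δ)) * (1 / (2 * Real.pi * v))) ^ 2)) ≤
        2 * (v * (4 * ((fb (v / δ') - fb (v / δ)) * (1 / (2 * Real.pi * v))) ^ 2)) := by gcongr
      _ = _ := by field_simp; ring
  have hrange : ∀ v, 0 ≤ v → v ≤ δ → (fb (v / δ') - fb (v / δ)) ^ 2 ≤ 2 * (v / δ) ^ 2 := by
    intro v h0 h1
    have hvd : |v / δ| ≤ 1 := by
      rw [abs_of_nonneg (by positivity), div_le_one hδ]; exact h1
    have hvd' : |v / δ'| ≤ 1 := by
      rw [abs_of_nonneg (by positivity), div_le_one hδ']; exact h1.trans hδδ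
    have h2 : 1 - fb (v / δ) ≤ 2 * (v / δ) ^ 2 := by
      rw [fb_in hvd]
      nlinarith [sq_nonneg ((v / δ) ^ 2)]
    have h3 : fb (v / δ) ≤ fb (v / δ') := by
      rw [fb_in hvd, fb_in hvd']
      have h4 : (v / δ') ^ 2 ≤ (v / δ) ^ 2 := by gcongr
      have h5 : (v / δ) ^ 2 ≤ 1 := by rw [← sq_abs]; exact pow_le_one₀ (abs_nonneg _) hvd
      have h6 : 0 ≤ 1 - (v / δ) ^ 2 := by linarith
      exact pow_le_pow_left₀ h6 (by linarith) 2
    have h4 := fb_le (v / δ')
    have h5 := fb_nonneg (v / δ)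
    nlinarith
  have i1 : ∫ v in (0 : ℝ)..δ, 2 * (v * ‖tf (midl δ δ' x) v‖ ^ 2) ≤ 2 / Real.pi ^ 2 := by
    have hle : ∫ v in (0 : ℝ)..δ, 2 * (v * ‖tf (midl δ δ' x) v‖ ^ 2) ≤
        ∫ v in (0 : ℝ)..δ, 4 / (Real.pi ^ 2 * δ ^ 2) * v := by
      apply intervalIntegral.integral_mono_on hδ.le (hc.intervalIntegrable _ _)
      · exact (by fun_prop : Continuous fun v : ℝ => 4 / (Real.pi ^ 2 * δ ^ 2) * v).intervalIntegrable _ _
      · intro v hv
        rcases hv.1.eq_or_lt with h0 | h0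
        · rw [← h0]; simp
        refine (hn v h0).trans ?_
        have h1 := hrange v hv.1 hv.2
        calc 2 / Real.pi ^ 2 * ((fb (v / δ') - fb (v / δ)) ^ 2 / v) ≤
            2 / Real.pi ^ 2 * (2 * (v / δ) ^ 2 / v) := by gcongr
          _ = _ := by field_simp; ring
    refine hle.trans ?_
    rw [intervalIntegral.integral_const_mul, integral_id]
    apply le_of_eq
    field_simp
    ring
  have i2 : ∫ v in δ..δ', 2 * (v * ‖tf (midl δ δ' x) v‖ ^ 2) ≤
      2 / Real.pi ^ 2 * Real.log (δ' / δ) := by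
    have hinv : IntervalIntegrable (fun v : ℝ => 1 / v) volume δ δ' := inv_int hδ hδδ
    have hle : ∫ v in δ..δ', 2 * (v * ‖tf (midl δ δ' x) v‖ ^ 2) ≤
        ∫ v in δ..δ', 2 / Real.pi ^ 2 * (1 / v) := by
      apply intervalIntegral.integral_mono_on hδδ (hc.intervalIntegrable _ _) (hinv.const_mul _)
      intro v hv
      have h0 : 0 < v := hδ.trans_le hv.1
      refine (hn v h0).trans ?_
      have h1 : (fb (v / δ') - fb (v / δ)) ^ 2 ≤ 1 := by
        have h2 := fb_le (v / δ')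
        have h3 := fb_nonneg (v / δ')
        have h4 := fb_le (v / δ)
        have h5 := fb_nonneg (v / δ)
        nlinarith
      gcongr
    refine hle.trans ?_
    rw [intervalIntegral.integral_const_mul, int_inv' hδ hδδ]
  have i3 : ∫ v in δ'..1, 2 * (v * ‖tf (midl δ δ' x) v‖ ^ 2) = 0 := by
    have : ∫ v in δ'..1, 2 * (v * ‖tf (midl δ δ' x) v‖ ^ 2) = ∫ v in δ'..1, (0 : ℝ) := by
      apply intervalIntegral.integral_congr
      intro v hv
      rw [Set.uIcc_of_le hδ1] at hv
      show 2 * (v * ‖tf (midl δ δ' x) v‖ ^ 2) = 0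
      rw [tf_zero hg (v := v) (by rw [abs_of_nonneg (hδ'.le.trans hv.1)]; exact hv.1)]
      simp
    rw [this]; simp
  rw [e0, ← intervalIntegral.integral_add_adjacent_intervals (b := δ)
    (hc.intervalIntegrable 0 δ) (hc.intervalIntegrable δ 1),
    ← intervalIntegral.integral_add_adjacent_intervals (b := δ')
    (hc.intervalIntegrable δ δ') (hc.intervalIntegrable δ' 1), i3, add_zero]
  have hlog : 0 ≤ Real.log (δ' / δ) := Real.log_nonneg (by rw [le_div_iff₀ hδ]; linarith)
  have h2 : 2 / Real.pi ^ 2 ≤ 1 := by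
    rw [div_le_one (by positivity)]
    nlinarith
  nlinarith

end Pool.Agent.H478.EX
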