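import Pool.Agent.H478.EX11

/-! The triangle test function; a scale invariant comparison of sharp and smooth counts. -/

open Finset Complex MeasureTheory Filter Topology ProbabilityTheory

namespace Pool.Agent.H478.EX

open Pool.Agent.H478.CW
open Pool.Agent.R321.FA
open SP (ZZ mu Mk RHs)
open H370.A2 (RR evp evp_zero)
open Pool.Agent.TH800.LD (ZZf)

/-- the triangle -/
noncomputable def tri (δ α : ℝ) : ℝ := max 0 (1 - |α| / δ) / δ

lemma tri_nonneg {δ : ℝ} (hδ : 0 < δ) (α : ℝ) : 0 ≤ tri δ α := by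
  unfold tri
  exact div_nonneg (le_max_left _ _) hδ.le

lemma tri_le {δ : ℝ} (hδ : 0 < δ) (α : ℝ) : tri δ α ≤ 1 / δ := by
  unfold tri
  gcongr
  apply max_le (by norm_num)
  have : 0 ≤ |α| / δ := by positivity
  linarith

lemma tri_zero_val {δ : ℝ} : tri δ 0 = 1 / δ := by
  unfold tri; simp

lemma tri_cont (δ : ℝ) : Continuous (tri δ) := by unfold tri; fun_prop

lemma tri_in {δ α : ℝ} (hδ : 0 < δ) (h : |α| ≤ δ) : tri δ α = (1 - |α| / δ) / δ := by
  unfold tri
  rw [max_eq_right]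
  have : |α| / δ ≤ 1 := by rw [div_le_one hδ]; exact h
  linarith

/-- the Fejer kernel -/
noncomputable def fej (y : ℝ) : ℝ := Real.sinc (Real.pi * y) ^ 2

lemma fej_nonneg (y : ℝ) : 0 ≤ fej y := sq_nonneg _

lemma fej_formula {y : ℝ} (hy : y ≠ 0) : fej y = Real.sin (Real.pi * y) ^ 2 / (Real.pi * y) ^ 2 := by
  unfold fej
  rw [Real.sinc_of_ne_zero (by positivity), div_pow]

lemma fej_dec (y : ℝ) : fej y ≤ 4 * ((1 + |Real.pi * y|) ^ 2)⁻¹ := by
  rw [← div_eq_mul_inv, le_div_iff₀ (by positivity)]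
  unfold fej
  set z := Real.pi * y
  rcases le_or_gt |z| 1 with h | h
  · have h1 : Real.sinc z ^ 2 ≤ 1 := by
      rw [← sq_abs]
      exact pow_le_one₀ (abs_nonneg _) (Real.abs_sinc_le_one z)
    have h2 : (1 + |z|) ^ 2 ≤ 4 := by nlinarith [abs_nonneg z]
    nlinarith [sq_nonneg (Real.sinc z), sq_nonneg (1 + |z|)]
  · have hz : z ≠ 0 := by intro h0; rw [h0] at h; simp at h; linarith
    rw [Real.sinc_of_ne_zero hz, div_pow]
    have h1 : Real.sin z ^ 2 ≤ 1 := Real.sin_sq_le_one z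
    have h2 : (1 + |z|) ^ 2 ≤ 4 * z ^ 2 := by rw [← sq_abs z]; nlinarith
    have hz2 : 0 < z ^ 2 := by positivity
    rw [div_mul_eq_mul_div, div_le_iff₀ hz2]
    nlinarith [sq_nonneg (Real.sin z), mul_nonneg (sq_nonneg (1 + |z|)) (by linarith : 0 ≤ 1 - Real.sin z ^ 2)]

/-- two shifted Fejer kernels dominate -/
lemma fej_two (y : ℝ) : ((1 + 2 * Real.pi * |y|) ^ 2)⁻¹ ≤
    Real.pi ^ 2 / 4 * (fej y + fej (y + 1 / 2)) := by
  have hpi := Real.pi_pos
  have hpi3 := Real.pi_gt_three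
  have hkey : ∀ a b : ℝ, Real.sin (Real.pi * a) ^ 2 + Real.sin (Real.pi * b) ^ 2 = 1 →
      |a| ≤ |y| + 1 / 2 → |b| ≤ |y| + 1 / 2 → a ≠ 0 → b ≠ 0 →
      4 / (Real.pi ^ 2 * (1 + 2 * |y|) ^ 2) ≤ fej a + fej b := by
    intro a b hs ha hb ha0 hb0
    have h1 : ∀ c : ℝ, |c| ≤ |y| + 1 / 2 → c ≠ 0 →
        Real.sin (Real.pi * c) ^ 2 * (4 / (Real.pi ^ 2 * (1 + 2 * |y|) ^ 2)) ≤ fej c := by
      intro c hc hc0
      rw [fej_formula hc0]
      have h2 : c ^ 2 ≤ (|y| + 1 / 2) ^ 2 := by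
        rw [← sq_abs c]; exact pow_le_pow_left₀ (abs_nonneg _) hc 2
      have h3 : (Real.pi * c) ^ 2 ≤ Real.pi ^ 2 * (1 + 2 * |y|) ^ 2 / 4 := by
        rw [mul_pow]
        have : Real.pi ^ 2 * c ^ 2 ≤ Real.pi ^ 2 * (|y| + 1 / 2) ^ 2 := by gcongr
        nlinarith
      rw [div_eq_mul_inv (Real.sin (Real.pi * c) ^ 2)]
      apply mul_le_mul_of_nonneg_left _ (sq_nonneg _)
      rw [show (4 : ℝ) / (Real.pi ^ 2 * (1 + 2 * |y|) ^ 2) = (Real.pi ^ 2 * (1 + 2 * |y|) ^ 2 / 4)⁻¹ by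
        rw [inv_div]]
      exact inv_anti₀ (by positivity) h3
    have h4 := h1 a ha ha0
    have h5 := h1 b hb hb0
    calc 4 / (Real.pi ^ 2 * (1 + 2 * |y|) ^ 2) = (Real.sin (Real.pi * a) ^ 2 +
        Real.sin (Real.pi * b) ^ 2) * (4 / (Real.pi ^ 2 * (1 + 2 * |y|) ^ 2)) := by rw [hs, one_mul]
      _ = Real.sin (Real.pi * a) ^ 2 * (4 / (Real.pi ^ 2 * (1 + 2 * |y|) ^ 2)) +
          Real.sin (Real.pi * b) ^ 2 * (4 / (Real.pi ^ 2 * (1 + 2 * |y|) ^ 2)) := by ring
      _ ≤ _ := add_le_add h4 h5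
  have hfin : 4 / (Real.pi ^ 2 * (1 + 2 * |y|) ^ 2) ≤ fej y + fej (y + 1 / 2) →
      ((1 + 2 * Real.pi * |y|) ^ 2)⁻¹ ≤ Real.pi ^ 2 / 4 * (fej y + fej (y + 1 / 2)) := by
    intro h
    have h1 : ((1 + 2 * Real.pi * |y|) ^ 2)⁻¹ ≤ ((1 + 2 * |y|) ^ 2)⁻¹ := by
      apply inv_anti₀ (by positivity)
      have h0 := abs_nonneg y
      have h00 : 2 * |y| ≤ 2 * Real.pi * |y| := by nlinarith
      gcongr
    have h2 : ((1 + 2 * |y|) ^ 2)⁻¹ = Real.pi ^ 2 / 4 * (4 / (Real.pi ^ 2 * (1 + 2 * |y|) ^ 2)) := by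
      field_simp
    calc _ ≤ ((1 + 2 * |y|) ^ 2)⁻¹ := h1
      _ = _ := h2
      _ ≤ _ := by gcongr
  have h0y := abs_nonneg y
  have f0 : fej 0 = 1 := by unfold fej; simp
  have h4pi : 4 / (Real.pi ^ 2 * (1 + 2 * |y|) ^ 2) ≤ 1 := by
    rw [div_le_one (by positivity)]
    have : 1 ≤ (1 + 2 * |y|) ^ 2 := by nlinarith
    nlinarith
  apply hfin
  by_cases hy : y = 0
  · rw [hy, f0]
    rw [hy] at h4pi
    linarith [fej_nonneg (0 + 1 / 2)]
  by_cases hy2 : y + 1 / 2 = 0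
  · rw [hy2, f0]
    linarith [fej_nonneg y]
  apply hkey y (y + 1 / 2) _ (by linarith) _ hy hy2
  · have : Real.sin (Real.pi * (y + 1 / 2)) = Real.cos (Real.pi * y) := by
      rw [show Real.pi * (y + 1 / 2) = Real.pi * y + Real.pi / 2 by ring, Real.sin_add_pi_div_two]
    rw [this, Real.sin_sq_add_cos_sq]
  · calc |y + 1 / 2| ≤ |y| + |(1 / 2 : ℝ)| := abs_add_le _ _
      _ = |y| + 1 / 2 := by norm_num

/-- the transform of the triangle -/
lemma tri_RR {δ : ℝ} (hδ : 0 < δ) (u : ℝ) : RR (tri δ) δ u = fej (δ * u) := by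
  have hpi := Real.pi_pos
  unfold RR
  set w := 2 * Real.pi * u with hw
  have e0 : ∀ α, tri δ α * Real.cos (2 * Real.pi * α * u) = tri δ α * Real.cos (w * α) := by
    intro α; rw [hw]; congr 2; ring
  simp only [e0]
  have hc : Continuous fun α => tri δ α * Real.cos (w * α) := by
    have := tri_cont δ
    fun_prop
  have e1 : ∫ α in (-δ)..0, tri δ α * Real.cos (w * α) = ∫ α in (0 : ℝ)..δ, tri δ α * Real.cos (w * α) := by
    have h := intervalIntegral.integral_comp_neg (a := 0) (b := δ)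
      (fun α => tri δ α * Real.cos (w * α))
    rw [neg_zero] at h
    rw [← h]
    apply intervalIntegral.integral_congr
    intro α _
    show tri δ (-α) * Real.cos (w * -α) = tri δ α * Real.cos (w * α)
    rw [mul_neg, Real.cos_neg]
    unfold tri
    rw [abs_neg]
  rw [← intervalIntegral.integral_add_adjacent_intervals (b := 0) (hc.intervalIntegrable _ _)
    (hc.intervalIntegrable _ _), e1]
  have e2 : ∫ α in (0 : ℝ)..δ, tri δ α * Real.cos (w * α) =
      ∫ α in (0 : ℝ)..δ, (1 - α / δ) / δ * Real.cos (w * α) := by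
    apply intervalIntegral.integral_congr
    intro α hα
    rw [Set.uIcc_of_le hδ.le] at hα
    show tri δ α * Real.cos (w * α) = _
    rw [tri_in hδ (by rw [abs_of_nonneg hα.1]; exact hα.2), abs_of_nonneg hα.1]
  rw [e2]
  by_cases hu : u = 0
  · have hw0 : w = 0 := by rw [hw, hu, mul_zero]
    rw [hw0, hu]
    simp only [zero_mul, Real.cos_zero, mul_one, mul_zero]
    have e3 : ∫ α in (0 : ℝ)..δ, (1 - α / δ) / δ = 1 / 2 := by
      have h1 : ∀ α : ℝ, (1 - α / δ) / δ = 1 / δ - 1 / δ ^ 2 * α := by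
        intro α; field_simp
      simp only [h1]
      rw [intervalIntegral.integral_sub (continuous_const.intervalIntegrable _ _)
        ((by fun_prop : Continuous fun α : ℝ => 1 / δ ^ 2 * α).intervalIntegrable _ _),
        intervalIntegral.integral_const, intervalIntegral.integral_const_mul, integral_id, smul_eq_mul]
      field_simp
      ring
    rw [e3]
    unfold fej
    simp
    norm_num
  · have hw0 : w ≠ 0 := by rw [hw]; positivity
    have e3 : ∫ α in (0 : ℝ)..δ, (1 - α / δ) / δ * Real.cos (w * α) =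
        ((1 - δ / δ) / δ * Real.sin (w * δ) / w - Real.cos (w * δ) / (δ ^ 2 * w ^ 2)) -
        ((1 - 0 / δ) / δ * Real.sin (w * 0) / w - Real.cos (w * 0) / (δ ^ 2 * w ^ 2)) := by
      apply intervalIntegral.integral_eq_sub_of_hasDerivAt
        (f := fun α => (1 - α / δ) / δ * Real.sin (w * α) / w - Real.cos (w * α) / (δ ^ 2 * w ^ 2))
      · intro α _
        have hs : HasDerivAt (fun α : ℝ => Real.sin (w * α)) (Real.cos (w * α) * w) α := by
          have h := ((hasDerivAt_id α).const_mul w).sin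
          simpa using h
        have hcs : HasDerivAt (fun α : ℝ => Real.cos (w * α)) (-Real.sin (w * α) * w) α := by
          have h := ((hasDerivAt_id α).const_mul w).cos
          simpa using h
        have hl : HasDerivAt (fun α : ℝ => (1 - α / δ) / δ) (-(1 / δ) / δ) α := by
          have h := (((hasDerivAt_id α).div_const δ).const_sub 1).div_const δ
          simpa using h
        have h := ((hl.mul hs).div_const w).sub (hcs.div_const (δ ^ 2 * w ^ 2))
        refine h.congr_deriv ?_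
        field_simp
        ring
      · exact (by fun_prop : Continuous fun α : ℝ => (1 - α / δ) / δ * Real.cos (w * α)).intervalIntegrable _ _
    rw [e3, fej_formula (by positivity)]
    have e4 : Real.cos (w * δ) = 1 - 2 * Real.sin (Real.pi * (δ * u)) ^ 2 := by
      rw [show w * δ = 2 * (Real.pi * (δ * u)) by rw [hw]; ring, Real.cos_two_mul]
      have := Real.sin_sq_add_cos_sq (Real.pi * (δ * u))
      linarith
    rw [e4, mul_zero, Real.sin_zero, Real.cos_zero, div_self hδ.ne', hw]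
    field_simp
    ring

lemma tri_adm {δ : ℝ} (hδ : 0 < δ) (hδ1 : δ ≤ 1) : Adm (tri δ) δ where
  cont := tri_cont δ
  even := fun x => by unfold tri; rw [abs_neg]
  zero := fun x hx => by
    unfold tri
    rw [max_eq_left, zero_div]
    have : 1 ≤ |x| / δ := by rw [le_div_iff₀ hδ]; linarith
    linarith
  lip := ⟨1 / δ ^ 2, fun x y => by
    unfold tri
    rw [← sub_div, abs_div, abs_of_pos hδ, div_le_iff₀ hδ]
    have h1 : |max 0 (1 - |x| / δ) - max 0 (1 - |y| / δ)| ≤ |(1 - |x| / δ) - (1 - |y| / δ)| := by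
      rw [max_comm 0, max_comm 0]
      exact abs_max_sub_max_le_abs _ _ _
    refine h1.trans ?_
    have h2 : (1 - |x| / δ) - (1 - |y| / δ) = -((|x| - |y|) / δ) := by ring
    rw [h2, abs_neg, abs_div, abs_of_pos hδ]
    have h3 := abs_abs_sub_abs_le x y
    have h4 : 1 / δ ^ 2 * |x - y| * δ = |x - y| / δ := by field_simp
    rw [h4]
    gcongr⟩
  bd := ⟨1 / δ, fun x => by rw [abs_of_nonneg (tri_nonneg hδ x)]; exact tri_le hδ x⟩
  dec := ⟨16 / δ ^ 2, fun x => by
    have hpi := Real.pi_pos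
    rw [tri_RR hδ, abs_of_nonneg (fej_nonneg _), rp2]
    refine (fej_dec _).trans ?_
    have h1 : |Real.pi * (δ * x)| = δ * (Real.pi * |x|) := by
      rw [abs_mul, abs_mul, abs_of_pos hpi, abs_of_pos hδ]; ring
    have h2 : |2 * Real.pi * x| = 2 * (Real.pi * |x|) := by
      rw [abs_mul, abs_mul, abs_of_pos hpi, abs_of_pos (by norm_num : (0 : ℝ) < 2)]; ring
    rw [h1, h2]
    set z := Real.pi * |x| with hz
    have hz0 : 0 ≤ z := by positivity
    have h3 : δ / 2 * (1 + 2 * z) ≤ 1 + δ * z := by nlinarith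
    have h4 : (δ / 2 * (1 + 2 * z)) ^ 2 ≤ (1 + δ * z) ^ 2 := pow_le_pow_left₀ (by positivity) h3 2
    have h5 : ((1 + δ * z) ^ 2)⁻¹ ≤ ((δ / 2 * (1 + 2 * z)) ^ 2)⁻¹ := inv_anti₀ (by positivity) h4
    calc 4 * ((1 + δ * z) ^ 2)⁻¹ ≤ 4 * ((δ / 2 * (1 + 2 * z)) ^ 2)⁻¹ := by gcongr
      _ = _ := by field_simp; ring⟩

/-- the triangle statistic -/
noncomputable def tril (δ a : ℝ) : List Ent := [⟨1, tri δ, a⟩]

lemma tril_good {δ : ℝ} (hδ : 0 < δ) (hδ1 : δ ≤ 1) (a : ℝ) : Good (tril δ a) δ := by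
  intro e he
  simp only [tril, List.mem_singleton] at he
  rw [he]
  exact tri_adm hδ hδ1

lemma tril_stt (δ a μ T t : ℝ) : stt (tril δ a) μ T t =
    XX (tri δ) μ T (t + 2 * Real.pi * a / Real.log T) - 1 / δ := by
  unfold stt tril
  simp only [List.map_cons, List.map_nil, List.sum_cons, List.sum_nil, add_zero, one_mul,
    tri_zero_val]

lemma tril_kv {δ : ℝ} (hδ : 0 < δ) (hδ1 : δ ≤ 1) (a : ℝ) : kv (tril δ a) ≤ 1 := by
  have hg := tril_good hδ hδ1 a
  have hc : Continuous fun v => v * ‖tf (tril δ a) v‖ ^ 2 := by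
    have := tf_cont hg
    fun_prop
  have hn : ∀ v, ‖tf (tril δ a) v‖ = tri δ v := by
    intro v
    unfold tf tril
    simp only [List.map_cons, List.map_nil, List.sum_cons, List.sum_nil, add_zero, one_mul]
    rw [norm_mul, Complex.norm_exp_ofReal_mul_I, mul_one, Complex.norm_real, Real.norm_eq_abs,
      abs_of_nonneg (tri_nonneg hδ v)]
  unfold kv
  have h1 : ∫ v in (0 : ℝ)..1, v * ‖tf (tril δ a) v‖ ^ 2 ≤ 1 / 2 := by
    have e1 : ∫ v in (0 : ℝ)..1, v * ‖tf (tril δ a) v‖ ^ 2 =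
        ∫ v in (0 : ℝ)..δ, v * ‖tf (tril δ a) v‖ ^ 2 := by
      rw [← intervalIntegral.integral_add_adjacent_intervals (b := δ)
        (hc.intervalIntegrable 0 δ) (hc.intervalIntegrable δ 1)]
      have : ∫ v in δ..1, v * ‖tf (tril δ a) v‖ ^ 2 = ∫ v in δ..1, (0 : ℝ) := by
        apply intervalIntegral.integral_congr
        intro v hv
        rw [Set.uIcc_of_le hδ1] at hv
        show v * ‖tf (tril δ a) v‖ ^ 2 = 0
        rw [tf_zero hg (v := v) (by rw [abs_of_nonneg (hδ.le.trans hv.1)]; exact hv.1)]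
        simp
      rw [this]; simp
    rw [e1]
    calc ∫ v in (0 : ℝ)..δ, v * ‖tf (tril δ a) v‖ ^ 2 ≤ ∫ v in (0 : ℝ)..δ, 1 / δ ^ 2 * v := by
          apply intervalIntegral.integral_mono_on hδ.le (hc.intervalIntegrable _ _)
            ((by fun_prop : Continuous fun v : ℝ => 1 / δ ^ 2 * v).intervalIntegrable _ _)
          intro v hv
          rw [hn]
          have h2 := tri_le hδ v
          have h3 := tri_nonneg hδ v
          have h4 : tri δ v ^ 2 ≤ (1 / δ) ^ 2 := pow_le_pow_left₀ h3 h2 2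
          calc v * tri δ v ^ 2 ≤ v * (1 / δ) ^ 2 := by have := hv.1; gcongr
            _ = _ := by rw [div_pow]; ring
      _ = 1 / 2 := by
          rw [intervalIntegral.integral_const_mul, integral_id]
          field_simp
          ring
  linarith

/-- the scale invariant smoothing error -/
lemma hb_scale {δ : ℝ} (hδ : 0 < δ) (y : ℝ) : hb δ y = hb 1 (δ * y) := by
  unfold hb
  have h := intervalIntegral.integral_comp_mul_left (a := 0) (b := y) (fun w => kb 1 w) hδ.ne'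
  rw [mul_zero] at h
  have h2 : ∫ w in (0 : ℝ)..y, kb δ w = δ * ∫ w in (0 : ℝ)..y, kb 1 (δ * w) := by
    rw [← intervalIntegral.integral_const_mul]
    congr 1
    funext w
    rw [kb_eq hδ, kb_eq one_pos]
    simp only [one_mul]
  rw [h2, h, smul_eq_mul, ← mul_assoc, mul_inv_cancel₀ hδ.ne', one_mul]

lemma hb_sg' {δ : ℝ} (hδ : 0 < δ) (y : ℝ) :
    |hb δ y - sg1 y / 2| ≤ 900 * ((1 + 2 * Real.pi * |δ * y|) ^ 2)⁻¹ := by
  have h := hb_sg one_pos le_rfl (δ * y)
  rw [← hb_scale hδ] at h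
  have e : sg1 (δ * y) = sg1 y := by
    unfold sg1
    by_cases hy : 0 < y
    · rw [if_pos hy, if_pos (by positivity)]
    · rw [if_neg hy, if_neg]
      intro h2
      exact hy ((mul_pos_iff_of_pos_left hδ).1 h2)
  rw [e] at h
  simpa using h

/-- **the smoothed indicator**, scale invariant form -/
theorem psb_ind' {δ x : ℝ} (hδ : 0 < δ) (hx : 0 < x) (u : ℝ) :
    |RR (psb δ x) δ u - (if -(x / 2) < u ∧ u ≤ x / 2 then 1 else 0)| ≤
      900 * (((1 + 2 * Real.pi * |δ * (u + x / 2)|) ^ 2)⁻¹ +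
        ((1 + 2 * Real.pi * |δ * (u - x / 2)|) ^ 2)⁻¹) := by
  rw [psb_RR]
  have h1 := hb_sg' hδ (u + x / 2)
  have h2 := hb_sg' hδ (u - x / 2)
  have e : (if -(x / 2) < u ∧ u ≤ x / 2 then (1 : ℝ) else 0) =
      sg1 (u + x / 2) / 2 - sg1 (u - x / 2) / 2 := by
    unfold sg1
    by_cases ha : 0 < u + x / 2 <;> by_cases hb : 0 < u - x / 2
    · rw [if_pos ha, if_pos hb, if_neg (fun h => by linarith [h.2])]; ring
    · rw [if_pos ha, if_neg hb, if_pos ⟨by linarith, by linarith⟩]; norm_num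
    · linarith
    · rw [if_neg ha, if_neg hb, if_neg (fun h => by linarith [h.1])]; ring
  rw [e]
  calc |hb δ (u + x / 2) - hb δ (u - x / 2) - (sg1 (u + x / 2) / 2 - sg1 (u - x / 2) / 2)| =
      |(hb δ (u + x / 2) - sg1 (u + x / 2) / 2) - (hb δ (u - x / 2) - sg1 (u - x / 2) / 2)| := by
        congr 1; ring
    _ ≤ _ := abs_sub _ _
    _ ≤ _ := by linarith

/-- change of the centre of the Gaussian weight -/
lemma gauss_move2 {δ d a b L η : ℝ} (hδ : 0 < δ) (hd : |a - b| ≤ d) (hd1 : d ≤ 1) (hL : 1 ≤ L)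
    (hη : 4 / (δ ^ 2 * L) ≤ η) :
    Real.exp (-a ^ 2 / 2) * fej (δ * (b * L / (2 * Real.pi))) ≤
      Real.exp 2 * (Real.exp (-b ^ 2 / 2) * fej (δ * (b * L / (2 * Real.pi)))) +
        η / L * Real.exp (-a ^ 2 / 2) := by
  have hpi := Real.pi_pos
  have hf := fej_nonneg (δ * (b * L / (2 * Real.pi)))
  have hη0 : 0 ≤ η := le_trans (by positivity) hη
  rcases le_or_gt |b| 1 with h | h
  · have h1 : Real.exp (-a ^ 2 / 2) ≤ Real.exp 2 * Real.exp (-b ^ 2 / 2) := by
      rw [← Real.exp_add]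
      apply Real.exp_le_exp.2
      have h2 : |b ^ 2 - a ^ 2| ≤ 4 := by
        have e : b ^ 2 - a ^ 2 = -((a - b) * (a + b)) := by ring
        rw [e, abs_neg, abs_mul]
        have h3 : |a + b| ≤ 4 := by
          calc |a + b| = |(a - b) + 2 * b| := by congr 1; ring
            _ ≤ |a - b| + |2 * b| := abs_add_le _ _
            _ = |a - b| + 2 * |b| := by rw [abs_mul, abs_of_pos (by norm_num : (0 : ℝ) < 2)]
            _ ≤ _ := by linarith
        have h4 : |a - b| ≤ 1 := hd.trans hd1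
        nlinarith [abs_nonneg (a - b), abs_nonneg (a + b)]
      have := (abs_le.1 h2).2
      linarith
    have h5 : 0 ≤ η / L * Real.exp (-a ^ 2 / 2) := by positivity
    calc Real.exp (-a ^ 2 / 2) * fej (δ * (b * L / (2 * Real.pi))) ≤
        Real.exp 2 * Real.exp (-b ^ 2 / 2) * fej (δ * (b * L / (2 * Real.pi))) := by gcongr
      _ ≤ _ := by rw [mul_assoc]; linarith
  · have h1 : fej (δ * (b * L / (2 * Real.pi))) ≤ η / L := by
      have hb0 : b ≠ 0 := by intro h0; rw [h0] at h; simp at h; linarith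
      have hne : δ * (b * L / (2 * Real.pi)) ≠ 0 := by positivity
      rw [fej_formula hne]
      have h2 : Real.sin (Real.pi * (δ * (b * L / (2 * Real.pi)))) ^ 2 ≤ 1 := Real.sin_sq_le_one _
      have h3 : (Real.pi * (δ * (b * L / (2 * Real.pi)))) ^ 2 = δ ^ 2 * b ^ 2 * L ^ 2 / 4 := by
        field_simp
        ring
      rw [h3]
      have hb2 : 1 ≤ b ^ 2 := by rw [← sq_abs]; nlinarith
      calc Real.sin (Real.pi * (δ * (b * L / (2 * Real.pi)))) ^ 2 / (δ ^ 2 * b ^ 2 * L ^ 2 / 4) ≤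
          1 / (δ ^ 2 * 1 * L ^ 2 / 4) := by gcongr
        _ = 4 / (δ ^ 2 * L) / L := by field_simp
        _ ≤ η / L := by gcongr
    have h2 : 0 ≤ Real.exp 2 * (Real.exp (-b ^ 2 / 2) * fej (δ * (b * L / (2 * Real.pi)))) := by
      positivity
    have hE := Real.exp_pos (-a ^ 2 / 2)
    nlinarith [mul_le_mul_of_nonneg_left h1 hE.le]

end Pool.Agent.H478.EX
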