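import Pool.Agent.H478.EX12

/-! A scale invariant comparison of sharp and smooth counts. -/

open Finset Complex MeasureTheory Filter Topology ProbabilityTheory

namespace Pool.Agent.H478.EX

open Pool.Agent.H478.CW
open Pool.Agent.R321.FA
open SP (ZZ mu Mk RHs)
open H370.A2 (RR evp evp_zero)
open Pool.Agent.TH800.LD (ZZf)

/-- the constant -/
noncomputable def C1 : ℝ := 900 * (Real.pi ^ 2 / 4) * Real.exp 2

lemma C1_pos : 0 < C1 := by have := Real.pi_pos; unfold C1; positivity

/-- the triangle sum in terms of zeros -/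
lemma tri_sum {δ : ℝ} (hδ : 0 < δ) {T : ℝ} (hT : 1 ≤ T) (t : ℝ) : XX (tri δ) δ T t =
    ∑ s ∈ (ZZf hT).toFinset, (mu s : ℝ) * (Real.exp (-(s.im - t) ^ 2 / 2) *
      fej (δ * ((s.im - t) * Real.log T / (2 * Real.pi)))) := by
  rw [XX_eq hT]
  refine Finset.sum_congr rfl fun s _ => ?_
  rw [tri_RR hδ, mul_assoc]

/-- **comparison of sharp and smooth counts**, scale invariant form -/
theorem nc_near {δ x : ℝ} (hδ : 0 < δ) (hx : 0 < x) {η : ℝ} (hη : 0 < η) :
    ∀ᶠ T : ℝ in atTop, ∀ t : ℝ,
    |nc T t x - XX (psb δ x) δ T (t + Real.pi * x / Real.log T)| ≤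
      C1 * (4 / δ + (stt (tril δ 0) δ T t + stt (tril δ (-(1 / (2 * δ)))) δ T t +
        stt (tril δ x) δ T t + stt (tril δ (x - 1 / (2 * δ))) δ T t)) + η := by
  obtain ⟨C2, hC2, hg⟩ := SP.gauss_zeros
  have hpi := Real.pi_pos
  set A : ℝ := 900 * (Real.pi ^ 2 / 4) with hA
  have hA0 : 0 < A := by positivity
  set η' : ℝ := η / (2 * (4 * A * C2)) with hη'
  have hη0 : 0 < η' := by positivity
  have hL := Real.tendsto_log_atTop
  filter_upwards [eventually_ge_atTop 10, hL.eventually_ge_atTop (Real.pi * x + Real.pi / δ),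
    hL.eventually_ge_atTop (4 / (δ ^ 2 * η')),
    hL.eventually_ge_atTop (2 * ((Real.pi * x) ^ 2 * Real.exp (1 / 2) * C2) / η)] with T hT10 hL2 hL3 hL4
  intro t
  have hT1 : 1 ≤ T := by linarith
  have hL1 := log_one_le hT10
  set L := Real.log T with hLdef
  have hL0 : 0 < L := by linarith
  set t' := t + Real.pi * x / L with ht'
  set t'' := t + 2 * Real.pi * x / L with ht''
  set e := Real.pi / (δ * L) with he
  have he0 : 0 < e := by positivity
  have hd0 : 0 < Real.pi * x / L := by positivity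
  have hd : Real.pi * x / L + e ≤ 1 := by
    rw [he, ← div_div, ← add_div, div_le_one hL0]; exact hL2
  have hηL : 4 / (δ ^ 2 * L) ≤ η' := by
    rw [div_le_iff₀ (by positivity)] at hL3 ⊢
    nlinarith
  have hG := hg T hT10 t'
  rw [finsum_mem_eq_finite_toFinset_sum _ (ZZf hT1)] at hG
  have hE4 : ∀ T' : ℝ, T' = stt (tril δ 0) δ T t + stt (tril δ (-(1 / (2 * δ)))) δ T t +
        stt (tril δ x) δ T t + stt (tril δ (x - 1 / (2 * δ))) δ T t →
      4 / δ + T' = XX (tri δ) δ T t + XX (tri δ) δ T (t - e) + XX (tri δ) δ T t'' +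
        XX (tri δ) δ T (t'' - e) := by
    intro T' hT'
    rw [hT', tril_stt, tril_stt, tril_stt, tril_stt]
    have a1 : t + 2 * Real.pi * 0 / Real.log T = t := by simp
    have a2 : t + 2 * Real.pi * -(1 / (2 * δ)) / Real.log T = t - e := by
      rw [he, ← hLdef]; field_simp; ring
    have a3 : t + 2 * Real.pi * x / Real.log T = t'' := by rw [ht'']
    have a4 : t + 2 * Real.pi * (x - 1 / (2 * δ)) / Real.log T = t'' - e := by
      rw [he, ht'', ← hLdef]; field_simp; ring
    rw [a1, a2, a3, a4]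
    ring
  rw [hE4 _ rfl, tri_sum hδ hT1, tri_sum hδ hT1, tri_sum hδ hT1, tri_sum hδ hT1]
  rw [nc_eq hT1, XX_eq hT1, ← Finset.sum_sub_distrib]
  refine (Finset.abs_sum_le_sum_abs _ _).trans ?_
  have key : ∀ s ∈ (ZZf hT1).toFinset,
      |(mu s : ℝ) * (if t < s.im ∧ s.im ≤ t + 2 * Real.pi * x / L then 1 else 0) -
        (mu s : ℝ) * Real.exp (-(s.im - t') ^ 2 / 2) *
          RR (psb δ x) δ ((s.im - t') * L / (2 * Real.pi))| ≤
      C1 * ((mu s : ℝ) * (Real.exp (-(s.im - t) ^ 2 / 2) * fej (δ * ((s.im - t) * L / (2 * Real.pi)))) +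
      (mu s : ℝ) * (Real.exp (-(s.im - (t - e)) ^ 2 / 2) *
        fej (δ * ((s.im - (t - e)) * L / (2 * Real.pi)))) +
      (mu s : ℝ) * (Real.exp (-(s.im - t'') ^ 2 / 2) * fej (δ * ((s.im - t'') * L / (2 * Real.pi)))) +
      (mu s : ℝ) * (Real.exp (-(s.im - (t'' - e)) ^ 2 / 2) *
        fej (δ * ((s.im - (t'' - e)) * L / (2 * Real.pi))))) +
      (4 * A * η' / L + (Real.pi * x / L) ^ 2 * Real.exp (1 / 2)) *
        ((mu s : ℝ) * Real.exp (-(s.im - t') ^ 2 / 2)) := by
    intro s _
    have hm : (0 : ℝ) ≤ mu s := Nat.cast_nonneg _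
    set γ := s.im
    set u := (γ - t') * L / (2 * Real.pi) with hu
    have e1 : δ * (u + x / 2) = δ * ((γ - t) * L / (2 * Real.pi)) := by
      rw [hu, ht']; field_simp; ring
    have e1' : δ * ((γ - t) * L / (2 * Real.pi)) + 1 / 2 = δ * ((γ - (t - e)) * L / (2 * Real.pi)) := by
      rw [he]; field_simp; ring
    have e2 : δ * (u - x / 2) = δ * ((γ - t'') * L / (2 * Real.pi)) := by
      rw [hu, ht', ht'']; field_simp; ring
    have e2' : δ * ((γ - t'') * L / (2 * Real.pi)) + 1 / 2 =
        δ * ((γ - (t'' - e)) * L / (2 * Real.pi)) := by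
      rw [he]; field_simp; ring
    have e3 : (-(x / 2) < u ∧ u ≤ x / 2) ↔ (t < γ ∧ γ ≤ t + 2 * Real.pi * x / L) := by
      rw [hu, ht', lt_div_iff₀ (by positivity), div_le_iff₀ (by positivity)]
      constructor
      · rintro ⟨a, b⟩
        constructor
        · by_contra hh
          push Not at hh
          have : (γ - (t + Real.pi * x / L)) * L ≤ (- (Real.pi * x / L)) * L := by
            apply mul_le_mul_of_nonneg_right _ hL0.le; linarith
          rw [neg_mul, div_mul_cancel₀ _ hL0.ne'] at this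
          linarith
        · by_contra hh
          push Not at hh
          have : (Real.pi * x / L) * L < (γ - (t + Real.pi * x / L)) * L := by
            apply mul_lt_mul_of_pos_right _ hL0
            have : t + 2 * Real.pi * x / L = t + Real.pi * x / L + Real.pi * x / L := by ring
            linarith
          rw [div_mul_cancel₀ _ hL0.ne'] at this
          linarith
      · rintro ⟨a, b⟩
        constructor
        · have : (- (Real.pi * x / L)) * L < (γ - (t + Real.pi * x / L)) * L := by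
            apply mul_lt_mul_of_pos_right _ hL0; linarith
          rw [neg_mul, div_mul_cancel₀ _ hL0.ne'] at this
          linarith
        · have : (γ - (t + Real.pi * x / L)) * L ≤ (Real.pi * x / L) * L := by
            apply mul_le_mul_of_nonneg_right _ hL0.le
            have : t + 2 * Real.pi * x / L = t + Real.pi * x / L + Real.pi * x / L := by ring
            linarith
          rw [div_mul_cancel₀ _ hL0.ne'] at this
          linarith
    have hind := psb_ind' hδ hx u
    have f1 := fej_two (δ * (u + x / 2))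
    have f2 := fej_two (δ * (u - x / 2))
    rw [e1, e1'] at f1
    rw [e2, e2'] at f2
    rw [e1, e2] at hind
    set E := Real.exp (-(γ - t') ^ 2 / 2) with hEdef
    have hE : 0 < E := Real.exp_pos _
    have hEle : E ≤ 1 := Real.exp_le_one_iff.2 (by nlinarith [sq_nonneg (γ - t')])
    rw [mul_assoc (mu s : ℝ) E (RR (psb δ x) δ u), ← mul_sub, abs_mul, abs_of_nonneg hm]
    have e4 : (if t < γ ∧ γ ≤ t + 2 * Real.pi * x / L then (1 : ℝ) else 0) =
        (if -(x / 2) < u ∧ u ≤ x / 2 then (1 : ℝ) else 0) := by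
      by_cases hh : -(x / 2) < u ∧ u ≤ x / 2
      · rw [if_pos hh, if_pos (e3.1 hh)]
      · rw [if_neg hh, if_neg (fun h => hh (e3.2 h))]
    set I : ℝ := (if t < γ ∧ γ ≤ t + 2 * Real.pi * x / L then (1 : ℝ) else 0) with hI
    rw [← e4] at hind
    have hb1 : I * (1 - E) ≤ (Real.pi * x / L) ^ 2 * Real.exp (1 / 2) * E := by
      rw [hI]
      split_ifs with hh
      · rw [one_mul]
        have a1 : |γ - t'| ≤ Real.pi * x / L := by
          rw [abs_le, ht']
          have : t + 2 * Real.pi * x / L = t + Real.pi * x / L + Real.pi * x / L := by ring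
          constructor <;> linarith [hh.1, hh.2]
        have a2 : 1 - E ≤ (γ - t') ^ 2 / 2 := by
          have := Real.add_one_le_exp (-(γ - t') ^ 2 / 2)
          rw [hEdef]; linarith
        have a3 : (γ - t') ^ 2 ≤ (Real.pi * x / L) ^ 2 := by
          rw [← sq_abs]; exact pow_le_pow_left₀ (abs_nonneg _) a1 2
        have a4 : 1 ≤ Real.exp (1 / 2) * E := by
          rw [hEdef, ← Real.exp_add]
          apply Real.one_le_exp
          have : Real.pi * x / L ≤ 1 := by linarith
          nlinarith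
        have a5 : 0 ≤ (Real.pi * x / L) ^ 2 := sq_nonneg _
        calc 1 - E ≤ (Real.pi * x / L) ^ 2 * 1 := by linarith
          _ ≤ (Real.pi * x / L) ^ 2 * (Real.exp (1 / 2) * E) := by gcongr
          _ = _ := by ring
      · rw [zero_mul]; positivity
    have hb0 : 0 ≤ I * (1 - E) := by
      rw [hI]
      split_ifs
      · linarith
      · simp
    have g1 := gauss_move2 (a := γ - t') (b := γ - t) hδ (d := 1) (by
      rw [show γ - t' - (γ - t) = -(Real.pi * x / L) by rw [ht']; ring, abs_neg, abs_of_pos hd0]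
      linarith) le_rfl hL1 hηL
    have g2 := gauss_move2 (a := γ - t') (b := γ - (t - e)) hδ (d := 1) (by
      rw [show γ - t' - (γ - (t - e)) = -(Real.pi * x / L + e) by rw [ht']; ring, abs_neg,
        abs_of_pos (by positivity)]
      linarith) le_rfl hL1 hηL
    have g3 := gauss_move2 (a := γ - t') (b := γ - t'') hδ (d := 1) (by
      rw [show γ - t' - (γ - t'') = Real.pi * x / L by rw [ht', ht'']; ring, abs_of_pos hd0]
      linarith) le_rfl hL1 hηL
    have g4 := gauss_move2 (a := γ - t') (b := γ - (t'' - e)) hδ (d := 1) (by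
      rw [show γ - t' - (γ - (t'' - e)) = Real.pi * x / L - e by rw [ht', ht'']; ring]
      rw [abs_le]
      constructor <;> linarith) le_rfl hL1 hηL
    rw [← hEdef] at g1 g2 g3 g4
    set F1 := fej (δ * ((γ - t) * L / (2 * Real.pi)))
    set F2 := fej (δ * ((γ - (t - e)) * L / (2 * Real.pi)))
    set F3 := fej (δ * ((γ - t'') * L / (2 * Real.pi)))
    set F4 := fej (δ * ((γ - (t'' - e)) * L / (2 * Real.pi)))
    set E1 := Real.exp (-(γ - t) ^ 2 / 2)
    set E2 := Real.exp (-(γ - (t - e)) ^ 2 / 2)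
    set E3 := Real.exp (-(γ - t'') ^ 2 / 2)
    set E4 := Real.exp (-(γ - (t'' - e)) ^ 2 / 2)
    have hb2 : E * |I - RR (psb δ x) δ u| ≤ A * (E * F1 + E * F2 + E * F3 + E * F4) := by
      rw [abs_sub_comm]
      calc E * |RR (psb δ x) δ u - I| ≤ E * (900 * (((1 + 2 * Real.pi * |δ * ((γ - t) * L / (2 * Real.pi))|) ^ 2)⁻¹ +
          ((1 + 2 * Real.pi * |δ * ((γ - t'') * L / (2 * Real.pi))|) ^ 2)⁻¹)) := by gcongr
        _ ≤ E * (900 * (Real.pi ^ 2 / 4 * (F1 + F2) + Real.pi ^ 2 / 4 * (F3 + F4))) := by gcongr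
        _ = _ := by rw [hA]; ring
    have e5 : I - E * RR (psb δ x) δ u = I * (1 - E) + E * (I - RR (psb δ x) δ u) := by ring
    have hfin : |I - E * RR (psb δ x) δ u| ≤ C1 * (E1 * F1 + E2 * F2 + E3 * F3 + E4 * F4) +
        (4 * A * η' / L + (Real.pi * x / L) ^ 2 * Real.exp (1 / 2)) * E := by
      rw [e5]
      calc |I * (1 - E) + E * (I - RR (psb δ x) δ u)| ≤
          |I * (1 - E)| + |E * (I - RR (psb δ x) δ u)| := abs_add_le _ _
        _ = I * (1 - E) + E * |I - RR (psb δ x) δ u| := by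
            rw [abs_of_nonneg hb0, abs_mul, abs_of_pos hE]
        _ ≤ (Real.pi * x / L) ^ 2 * Real.exp (1 / 2) * E + A * (E * F1 + E * F2 + E * F3 + E * F4) :=
            add_le_add hb1 hb2
        _ ≤ (Real.pi * x / L) ^ 2 * Real.exp (1 / 2) * E + A * ((Real.exp 2 * (E1 * F1) + η' / L * E) +
            (Real.exp 2 * (E2 * F2) + η' / L * E) + (Real.exp 2 * (E3 * F3) + η' / L * E) +
            (Real.exp 2 * (E4 * F4) + η' / L * E)) := by
            gcongr
        _ = _ := by unfold C1; rw [← hA]; ring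
    calc (mu s : ℝ) * |I - E * RR (psb δ x) δ u| ≤ (mu s : ℝ) * (C1 * (E1 * F1 + E2 * F2 + E3 * F3 +
        E4 * F4) + (4 * A * η' / L + (Real.pi * x / L) ^ 2 * Real.exp (1 / 2)) * E) := by gcongr
      _ = _ := by ring
  refine (Finset.sum_le_sum key).trans ?_
  rw [Finset.sum_add_distrib, ← Finset.mul_sum, ← Finset.mul_sum, Finset.sum_add_distrib,
    Finset.sum_add_distrib, Finset.sum_add_distrib]
  have h1 : (4 * A * η' / L + (Real.pi * x / L) ^ 2 * Real.exp (1 / 2)) *
      ∑ s ∈ (ZZf hT1).toFinset, (mu s : ℝ) * Real.exp (-(s.im - t') ^ 2 / 2) ≤ η := by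
    calc (4 * A * η' / L + (Real.pi * x / L) ^ 2 * Real.exp (1 / 2)) *
        ∑ s ∈ (ZZf hT1).toFinset, (mu s : ℝ) * Real.exp (-(s.im - t') ^ 2 / 2) ≤
        (4 * A * η' / L + (Real.pi * x / L) ^ 2 * Real.exp (1 / 2)) * (C2 * L) := by gcongr
      _ = 4 * A * C2 * η' + (Real.pi * x) ^ 2 * Real.exp (1 / 2) * C2 / L := by field_simp
      _ ≤ η / 2 + η / 2 := by
          apply add_le_add
          · rw [hη']
            apply le_of_eq
            field_simp
          · rw [div_le_iff₀ hη] at hL4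
            rw [div_le_iff₀ hL0]
            linarith
      _ = η := by ring
  linarith

end Pool.Agent.H478.EX
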