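import Pool.Agent.H478.EX13

/-! Tail bounds with parameters. -/

open Finset Complex MeasureTheory Filter Topology ProbabilityTheory

namespace Pool.Agent.H478.EX

open Pool.Agent.H478.CW
open Pool.Agent.R321.FA
open SP (ZZ mu Mk RHs)

/-- tail bound, convenient form -/
lemma tail' (hRH : RHs) {l : List Ent} {μ : ℝ} (h : Good l μ) (hμ : 0 < μ) {k : ℕ} (hk1 : 1 ≤ k)
    (hk : 2 * k * μ < 1) {z κ ρ q : ℝ} (hz : 0 < z) (hκ : kv l ≤ κ)
    (hρ : 2 * k * κ ≤ Real.exp 1 * ρ * z ^ 2) (hq : 2 * Real.exp 1 * k * ρ ^ k < q) :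
    Sm (fun T t => |stt l μ T t| < z) q := by
  apply tail hRH h hμ k hk hz
  have h0 := kv_nonneg l
  have he := Real.exp_pos 1
  have hk0 : (0 : ℝ) < k := by exact_mod_cast hk1
  have h1 := gm_le h0 hk1
  have h2 : 2 * k * kv l / Real.exp 1 ≤ ρ * z ^ 2 := by
    rw [div_le_iff₀ he]
    have : 2 * k * kv l ≤ 2 * k * κ := by gcongr
    linarith
  have h3 : (2 * k * kv l / Real.exp 1) ^ k ≤ (ρ * z ^ 2) ^ k :=
    pow_le_pow_left₀ (by positivity) h2 k
  calc gm 0 (kv l) (2 * k) ≤ 2 * Real.exp 1 * k * (2 * k * kv l / Real.exp 1) ^ k := h1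
    _ ≤ 2 * Real.exp 1 * k * (ρ * z ^ 2) ^ k := by gcongr
    _ = z ^ (2 * k) * (2 * Real.exp 1 * k * ρ ^ k) := by rw [mul_pow, ← pow_mul]; ring
    _ < z ^ (2 * k) * q := by
        apply mul_lt_mul_of_pos_left hq
        positivity

lemma nlog : Tendsto (fun r : ℕ => Real.log r) atTop atTop :=
  Real.tendsto_log_atTop.comp tendsto_natCast_atTop_atTop

/-- `log r` is smaller than `r` times any constant -/
lemma log_small (C : ℝ) : ∀ᶠ r : ℕ in atTop, C * Real.log r < r := by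
  have h := Real.isLittleO_log_id_atTop.def (by positivity : (0 : ℝ) < 1 / (|C| + 1))
  have h' := (tendsto_natCast_atTop_atTop (R := ℝ)).eventually h
  filter_upwards [h', eventually_gt_atTop 1] with r hr hr1
  have hr0 : (1 : ℝ) < r := by exact_mod_cast hr1
  simp only [id, Real.norm_eq_abs] at hr
  rw [abs_of_pos (by linarith : (0 : ℝ) < r), abs_of_pos (Real.log_pos hr0)] at hr
  have hl := Real.log_pos hr0
  have h1 : C * Real.log r ≤ |C| * Real.log r := by
    have := le_abs_self C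
    gcongr
  have h2 : (|C| + 1) * Real.log r ≤ r := by
    have hC : 0 < |C| + 1 := by positivity
    calc (|C| + 1) * Real.log r ≤ (|C| + 1) * (1 / (|C| + 1) * r) := by gcongr
      _ = r := by field_simp
  nlinarith

/-- statistics of bounded variance -/
lemma small_stats (hRH : RHs) {A κ e : ℝ} (hA : 1 ≤ A) (hκ : 0 ≤ κ) (he : 0 < e) :
    ∀ᶠ r : ℕ in atTop, ∀ l, Good l (A / Real.log r) → kv l ≤ κ →
      Sm (fun T t => |stt l (A / Real.log r) T t| < e * Real.log r) (1 / (r : ℝ) ^ 2) := by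
  have hA0 : 0 < A := by linarith
  filter_upwards [nlog.eventually_ge_atTop (8 * A + 1),
    nlog.eventually_ge_atTop ((κ + 1) / e ^ 2 * Real.exp (24 * A)),
    log_small (2 * Real.exp 1), eventually_gt_atTop 1] with r h1 h2 h3 hr1
  intro l hl hkv
  have hr0 : (0 : ℝ) < r := by exact_mod_cast (by omega : 0 < r)
  set ℓ := Real.log r with hℓ
  have hℓ0 : 0 < ℓ := by linarith
  set k := ⌊ℓ / (4 * A)⌋₊ with hk
  have hk1 : (k : ℝ) ≤ ℓ / (4 * A) := Nat.floor_le (by positivity)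
  have hk2 : ℓ / (4 * A) - 1 < k := by
    have := Nat.lt_floor_add_one (ℓ / (4 * A))
    linarith
  have hk3 : ℓ / (8 * A) ≤ k := by
    have h4 : 1 ≤ ℓ / (8 * A) := by rw [le_div_iff₀ (by positivity)]; linarith
    have h5 : ℓ / (4 * A) = 2 * (ℓ / (8 * A)) := by field_simp; ring
    linarith
  have hk4 : 1 ≤ k := by
    have h4 : 1 < ℓ / (8 * A) := by rw [lt_div_iff₀ (by positivity)]; linarith
    have : (0 : ℝ) < k := by linarith
    exact_mod_cast this
  have hkℓ : (k : ℝ) ≤ ℓ := by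
    refine hk1.trans ?_
    rw [div_le_iff₀ (by positivity)]
    nlinarith
  refine tail' (ρ := (κ + 1) / (e ^ 2 * ℓ)) (κ := κ) hRH hl (by positivity) hk4 ?_ (by positivity)
    hkv ?_ ?_
  · calc 2 * (k : ℝ) * (A / ℓ) ≤ 2 * (ℓ / (4 * A)) * (A / ℓ) := by gcongr
      _ = 1 / 2 := by field_simp; norm_num
      _ < 1 := by norm_num
  · have h4 : Real.exp 1 * ((κ + 1) / (e ^ 2 * ℓ)) * (e * ℓ) ^ 2 = Real.exp 1 * (κ + 1) * ℓ := by
      field_simp
    rw [h4]
    have h5 : 2 * (k : ℝ) ≤ ℓ := by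
      have : ℓ / (4 * A) ≤ ℓ / 2 := by
        apply div_le_div_of_nonneg_left hℓ0.le (by norm_num) (by linarith)
      linarith
    have h6 : (1 : ℝ) ≤ Real.exp 1 := Real.one_le_exp (by norm_num)
    calc 2 * (k : ℝ) * κ ≤ ℓ * (κ + 1) := by gcongr; linarith
      _ ≤ Real.exp 1 * (ℓ * (κ + 1)) := le_mul_of_one_le_left (by positivity) h6
      _ = _ := by ring
  · have hρ : (κ + 1) / (e ^ 2 * ℓ) ≤ Real.exp (-(24 * A)) := by
      rw [Real.exp_neg, div_le_iff₀ (by positivity)]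
      have h4 : (κ + 1) / e ^ 2 * Real.exp (24 * A) ≤ ℓ := h2
      have h5 : (κ + 1) / e ^ 2 ≤ (Real.exp (24 * A))⁻¹ * ℓ := by
        rw [← div_eq_inv_mul, le_div_iff₀ (Real.exp_pos _)]
        exact h4
      rw [div_le_iff₀ (by positivity)] at h5
      linarith
    have hρk : ((κ + 1) / (e ^ 2 * ℓ)) ^ k ≤ 1 / (r : ℝ) ^ 3 := by
      calc ((κ + 1) / (e ^ 2 * ℓ)) ^ k ≤ (Real.exp (-(24 * A))) ^ k :=
            pow_le_pow_left₀ (by positivity) hρ k
        _ = Real.exp (-(24 * A * k)) := by rw [← Real.exp_nat_mul]; congr 1; ring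
        _ ≤ Real.exp (-(3 * ℓ)) := by
            apply Real.exp_le_exp.2
            have : 24 * A * (ℓ / (8 * A)) = 3 * ℓ := by field_simp; ring
            have h4 : 24 * A * (ℓ / (8 * A)) ≤ 24 * A * k := by gcongr
            linarith
        _ = 1 / (r : ℝ) ^ 3 := by
            rw [Real.exp_neg, hℓ, show 3 * Real.log r = ((3 : ℕ) : ℝ) * Real.log r by push_cast; ring,
              Real.exp_nat_mul, Real.exp_log hr0, one_div]
    calc 2 * Real.exp 1 * (k : ℝ) * ((κ + 1) / (e ^ 2 * ℓ)) ^ k ≤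
        2 * Real.exp 1 * ℓ * (1 / (r : ℝ) ^ 3) := by gcongr
      _ < r * (1 / (r : ℝ) ^ 3) := by gcongr
      _ = 1 / (r : ℝ) ^ 2 := by field_simp

/-- statistics of small variance compared with `log r` -/
lemma rem_stats (hRH : RHs) {c e : ℝ} (hc : 0 ≤ c) (he : 0 < e) (hce : 4 * c * Real.exp 3 ≤ e ^ 2) :
    ∀ᶠ r : ℕ in atTop, ∀ l, Good l (1 / (4 * Real.log r)) → kv l ≤ c * Real.log r →
      Sm (fun T t => |stt l (1 / (4 * Real.log r)) T t| < e * Real.log r) (1 / (r : ℝ) ^ 2) := by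
  filter_upwards [nlog.eventually_gt_atTop 2, eventually_gt_atTop 6] with r h1 hr1
  intro l hl hkv
  have hr6 : (6 : ℝ) < r := by exact_mod_cast hr1
  have hr0 : (0 : ℝ) < r := by linarith
  set ℓ := Real.log r with hℓ
  have hℓ0 : 0 < ℓ := by linarith
  set k := ⌈ℓ⌉₊ with hk
  have hk1 : ℓ ≤ k := Nat.le_ceil ℓ
  have hk2 : (k : ℝ) < ℓ + 1 := Nat.ceil_lt_add_one hℓ0.le
  have hk4 : 1 ≤ k := by
    have : (0 : ℝ) < k := by linarith
    exact_mod_cast this
  have hk0 : (0 : ℝ) < k := by exact_mod_cast hk4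
  refine tail' (ρ := Real.exp (-4)) (κ := c * ℓ) hRH hl (by positivity) hk4 ?_ (by positivity)
    hkv ?_ ?_
  · rw [← mul_div_assoc, mul_one, div_lt_one (by positivity)]
    linarith
  · have h4 : Real.exp 1 * Real.exp (-4) * (e * ℓ) ^ 2 = Real.exp (-3) * e ^ 2 * ℓ ^ 2 := by
      rw [← Real.exp_add, mul_pow]
      norm_num
      ring
    rw [h4]
    have h5 : 4 * c ≤ Real.exp (-3) * e ^ 2 := by
      rw [Real.exp_neg, ← div_eq_inv_mul, le_div_iff₀ (Real.exp_pos _)]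
      exact hce
    calc 2 * (k : ℝ) * (c * ℓ) ≤ 2 * (2 * ℓ) * (c * ℓ) := by gcongr; linarith
      _ = 4 * c * ℓ ^ 2 := by ring
      _ ≤ _ := by gcongr
  · have h5 : (k : ℝ) * Real.exp (-k) ≤ 1 := by
      rw [Real.exp_neg, ← div_eq_mul_inv, div_le_one (Real.exp_pos _)]
      have := Real.add_one_le_exp (k : ℝ)
      linarith
    have h6 : Real.exp (-4) ^ k = Real.exp (-k) * Real.exp (-(3 * k)) := by
      rw [← Real.exp_nat_mul, ← Real.exp_add]
      congr 1
      ring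
    have h7 : Real.exp (-(3 * k)) ≤ 1 / (r : ℝ) ^ 3 := by
      calc Real.exp (-(3 * k)) ≤ Real.exp (-(3 * ℓ)) := by
            apply Real.exp_le_exp.2
            linarith
        _ = 1 / (r : ℝ) ^ 3 := by
            rw [Real.exp_neg, hℓ, show 3 * Real.log r = ((3 : ℕ) : ℝ) * Real.log r by push_cast; ring,
              Real.exp_nat_mul, Real.exp_log hr0, one_div]
    have h8 : Real.exp 1 < 3 := by
      have := Real.exp_one_lt_d9
      linarith
    calc 2 * Real.exp 1 * (k : ℝ) * Real.exp (-4) ^ k =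
        2 * Real.exp 1 * ((k : ℝ) * Real.exp (-k)) * Real.exp (-(3 * k)) := by rw [h6]; ring
      _ ≤ 2 * Real.exp 1 * 1 * (1 / (r : ℝ) ^ 3) := by gcongr
      _ < r * (1 / (r : ℝ) ^ 3) := by
          apply mul_lt_mul_of_pos_right _ (by positivity)
          linarith
      _ = 1 / (r : ℝ) ^ 2 := by field_simp

/-- the main statistics -/
lemma main_stats (hRH : RHs) {e : ℝ} (he : 0 < e) {q : ℝ} (hq : 0 < q) :
    ∀ᶠ r : ℕ in atTop, ∀ l, Good l (1 / (4 * Real.log r)) →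
      kv l ≤ 1 / (2 * Real.pi ^ 2) * Real.log r →
      Sm (fun T t => |stt l (1 / (4 * Real.log r)) T t| < (1 / Real.pi + e) * Real.log r) (q / r) := by
  have hpi := Real.pi_pos
  have hlim : Tendsto (fun k : ℕ => 2 * Real.exp 1 * ((k : ℝ) ^ 1 * (1 / (1 + e)) ^ k)) atTop (𝓝 0) := by
    have h := tendsto_pow_const_mul_const_pow_of_abs_lt_one 1 (r := 1 / (1 + e)) (by
      rw [abs_of_pos (by positivity), div_lt_one (by positivity)]
      linarith)
    simpa using h.const_mul (2 * Real.exp 1)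
  have hceil : Tendsto (fun r : ℕ => ⌈Real.log r⌉₊) atTop atTop :=
    tendsto_nat_ceil_atTop.comp nlog
  filter_upwards [nlog.eventually_gt_atTop 2, eventually_gt_atTop 6, nlog.eventually_ge_atTop (1 / e),
    (hlim.comp hceil).eventually (gt_mem_nhds hq)] with r h1 hr1 h2 h3
  intro l hl hkv
  have hr6 : (6 : ℝ) < r := by exact_mod_cast hr1
  have hr0 : (0 : ℝ) < r := by linarith
  simp only [Function.comp_apply, pow_one] at h3
  set ℓ := Real.log r with hℓ
  have hℓ0 : 0 < ℓ := by linarith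
  set k := ⌈ℓ⌉₊ with hk
  have hk1 : ℓ ≤ k := Nat.le_ceil ℓ
  have hk2 : (k : ℝ) < ℓ + 1 := Nat.ceil_lt_add_one hℓ0.le
  have hk4 : 1 ≤ k := by
    have : (0 : ℝ) < k := by linarith
    exact_mod_cast this
  have hk0 : (0 : ℝ) < k := by exact_mod_cast hk4
  refine tail' (ρ := Real.exp (-1) * (1 / (1 + e))) (κ := 1 / (2 * Real.pi ^ 2) * ℓ) hRH hl
    (by positivity) hk4 ?_ (by positivity) hkv ?_ ?_
  · rw [← mul_div_assoc, mul_one, div_lt_one (by positivity)]
    linarith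
  · have h4 : Real.exp 1 * (Real.exp (-1) * (1 / (1 + e))) * ((1 / Real.pi + e) * ℓ) ^ 2 =
        (1 + Real.pi * e) ^ 2 / (1 + e) * (ℓ ^ 2 / Real.pi ^ 2) := by
      rw [← mul_assoc, ← Real.exp_add, add_neg_cancel, Real.exp_zero, one_mul]
      field_simp
    rw [h4]
    have h5 : 1 + e ≤ (1 + Real.pi * e) ^ 2 / (1 + e) := by
      rw [le_div_iff₀ (by positivity), ← sq]
      apply pow_le_pow_left₀ (by positivity)
      nlinarith [Real.pi_gt_three]
    have h6 : ℓ + 1 ≤ (1 + e) * ℓ := by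
      rw [div_le_iff₀ he] at h2
      linarith
    calc 2 * (k : ℝ) * (1 / (2 * Real.pi ^ 2) * ℓ) = k * (ℓ / Real.pi ^ 2) := by field_simp
      _ ≤ ((1 + e) * ℓ) * (ℓ / Real.pi ^ 2) := by
          have : (k : ℝ) ≤ (1 + e) * ℓ := by linarith
          gcongr
      _ = (1 + e) * (ℓ ^ 2 / Real.pi ^ 2) := by ring
      _ ≤ _ := by gcongr
  · have h6 : Real.exp (-1) ^ k ≤ 1 / r := by
      rw [← Real.exp_nat_mul]
      calc Real.exp ((k : ℝ) * -1) ≤ Real.exp (-ℓ) := by
            apply Real.exp_le_exp.2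
            linarith
        _ = 1 / r := by rw [Real.exp_neg, hℓ, Real.exp_log hr0, one_div]
    calc 2 * Real.exp 1 * (k : ℝ) * (Real.exp (-1) * (1 / (1 + e))) ^ k =
        (2 * Real.exp 1 * ((k : ℝ) * (1 / (1 + e)) ^ k)) * Real.exp (-1) ^ k := by
          rw [mul_pow]; ring
      _ ≤ (2 * Real.exp 1 * ((k : ℝ) * (1 / (1 + e)) ^ k)) * (1 / r) := by gcongr
      _ < q * (1 / r) := by gcongr
      _ = q / r := by ring

end Pool.Agent.H478.EX
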