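import Pool.Agent.H478.EX14

/-! Extreme values of the counts at typical heights. -/

open Finset Complex MeasureTheory Filter Topology ProbabilityTheory

namespace Pool.Agent.H478.EX

open Pool.Agent.H478.CW
open Pool.Agent.R321.FA
open SP (ZZ mu Mk RHs)

/-- the scale -/
noncomputable def nq (J r : ℕ) : ℕ := ⌊Real.exp (Real.log r / (J + 2))⌋₊

lemma nq_tendsto (J : ℕ) : Tendsto (nq J) atTop atTop := by
  unfold nq
  apply tendsto_nat_floor_atTop.comp
  apply Real.tendsto_exp_atTop.comp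
  exact nlog.atTop_div_const (by positivity)

lemma nq_le (J r : ℕ) : (nq J r : ℝ) ≤ Real.exp (Real.log r / (J + 2)) :=
  Nat.floor_le (Real.exp_pos _).le

lemma nq_pow {J r : ℕ} (hr : 0 < r) : (nq J r) ^ (J + 2) ≤ r := by
  have hr0 : (0 : ℝ) < r := by exact_mod_cast hr
  have h1 : ((nq J r : ℝ)) ^ (J + 2) ≤ r := by
    calc ((nq J r : ℝ)) ^ (J + 2) ≤ (Real.exp (Real.log r / (J + 2))) ^ (J + 2) :=
          pow_le_pow_left₀ (Nat.cast_nonneg _) (nq_le J r) _
      _ = r := by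
          rw [← Real.exp_nat_mul]
          push_cast
          rw [mul_div_cancel₀ _ (by positivity), Real.exp_log hr0]
  exact_mod_cast h1

lemma nq_log_le {J r : ℕ} (hn : 0 < nq J r) : Real.log (nq J r) ≤ Real.log r / (J + 2) := by
  have hn0 : (0 : ℝ) < nq J r := by exact_mod_cast hn
  rw [Real.log_le_iff_le_exp hn0]
  exact nq_le J r

lemma nq_log_ge {J r : ℕ} (hn : 0 < nq J r) :
    Real.log r / (J + 2) - Real.log 2 ≤ Real.log (nq J r) := by
  have hn0 : (1 : ℝ) ≤ nq J r := by exact_mod_cast hn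
  have h1 : Real.exp (Real.log r / (J + 2)) < nq J r + 1 := Nat.lt_floor_add_one _
  have h2 : Real.exp (Real.log r / (J + 2)) ≤ 2 * nq J r := by linarith
  have h3 := (Real.le_log_iff_exp_le (by positivity)).2 h2
  rw [Real.log_mul (by norm_num) (by positivity)] at h3
  linarith

/-- the sum of the band statistics -/
noncomputable def sumX (J : ℕ) (b : ℕ → ℝ) (x : ℝ) : List Ent :=
  bun J fun j => pr (b j) (b (j + 1)) x 0 1 0

lemma sumX_stt (J : ℕ) (b : ℕ → ℝ) (x μ T t : ℝ) :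
    stt (sumX J b x) μ T t = ∑ j : Fin J, Xs (b j) (b (j + 1)) x μ T t := by
  unfold sumX
  rw [stt_bun]
  refine Finset.sum_congr rfl fun j _ => ?_
  unfold pr Xs
  rw [stt_append, stt_scl, stt_scl]
  ring

lemma sumX_good {J : ℕ} {b : ℕ → ℝ} (hb : 0 < b 0) (hbm : StrictMono b) {μ : ℝ} (hμ : b J ≤ μ)
    (x : ℝ) : Good (sumX J b x) μ := by
  have hbp : ∀ j, 0 < b j := fun j => hb.trans_le (hbm.monotone (Nat.zero_le j))
  apply Good.bun
  intro j
  exact pr_good (hbp j) (hbm (Nat.lt_succ_self j))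
    ((hbm.monotone (by omega : (j : ℕ) + 1 ≤ J)).trans hμ) _ _ _ _

lemma sumX_kv {J n : ℕ} (hn : 1 < n) (hb1 : bq J n J ≤ 1) (x : ℝ) :
    kv (sumX J (bq J n) x) ≤ 1 / (2 * Real.pi ^ 2) * (J * Real.log n) := by
  have hpi := Real.pi_pos
  unfold sumX
  rw [kv_bun (bq_pos hn 0) (bq_mono hn) hb1]
  have h1 : ∀ j : Fin J, ((1 : ℝ) ^ 2 + 0 ^ 2) * cvf (bq J n j) (bq J n (j + 1)) 0 +
      2 * 1 * 0 * cvf (bq J n j) (bq J n (j + 1)) (x - 0) ≤ 1 / (2 * Real.pi ^ 2) * Real.log n := by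
    intro j
    have h := cvf_le (bq_pos hn j) (bq_mono (J := J) hn (Nat.lt_succ_self (j : ℕ)))
      (((bq_mono hn).monotone (by omega : (j : ℕ) + 1 ≤ J)).trans hb1)
    rw [bq_succ hn] at h
    have e : ((1 : ℝ) ^ 2 + 0 ^ 2) * cvf (bq J n j) (bq J n (j + 1)) 0 +
      2 * 1 * 0 * cvf (bq J n j) (bq J n (j + 1)) (x - 0) = cvf (bq J n j) (bq J n (j + 1)) 0 := by ring
    rw [e]
    exact h
  calc _ ≤ ∑ _j : Fin J, 1 / (2 * Real.pi ^ 2) * Real.log n := Finset.sum_le_sum fun j _ => h1 j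
    _ = _ := by rw [Finset.sum_const, Finset.card_univ, Fintype.card_fin, nsmul_eq_mul]; ring

lemma cntl_kv_one {δ : ℝ} (hδ : 0 < δ) (hδ1 : δ ≤ 1) : kv (cntl δ 1) ≤ 1 := by
  have hg := cntl_good hδ hδ1 one_pos
  have hc : Continuous fun v => v * ‖tf (cntl δ 1) v‖ ^ 2 := by
    have := tf_cont hg
    fun_prop
  have hn : ∀ v, ‖tf (cntl δ 1) v‖ ≤ 1 := by
    intro v
    unfold tf cntl
    simp only [List.map_cons, List.map_nil, List.sum_cons, List.sum_nil, add_zero, one_mul]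
    rw [norm_mul, Complex.norm_exp_ofReal_mul_I, mul_one, Complex.norm_real, Real.norm_eq_abs]
    exact psb_le zero_le_one v
  unfold kv
  have h1 : ∫ v in (0 : ℝ)..1, v * ‖tf (cntl δ 1) v‖ ^ 2 ≤ ∫ v in (0 : ℝ)..1, v := by
    apply intervalIntegral.integral_mono_on (by norm_num) (hc.intervalIntegrable _ _)
      (continuous_id.intervalIntegrable _ _)
    intro v hv
    have h2 : ‖tf (cntl δ 1) v‖ ^ 2 ≤ 1 := pow_le_one₀ (norm_nonneg _) (hn v)
    exact mul_le_of_le_one_right hv.1 h2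
  rw [integral_id] at h1
  linarith

/-- the variance of the first remainder for the chosen parameters -/
lemma reml_par {J : ℕ} : ∀ᶠ r : ℕ in atTop, 1 < nq J r ∧ 4 ≤ nq J r ∧
    1 ≤ Real.log (nq J r) ∧ bq J (nq J r) J ≤ 1 / (4 * Real.log r) ∧ 1 / (4 * Real.log r) ≤ 1 ∧
    ∀ x : ℕ, 1 ≤ x → x ≤ 2 * r →
      kv (reml J (bq J (nq J r)) (1 / (4 * Real.log r)) x) ≤ 4 / (J + 2) * Real.log r := by
  have hnl : Tendsto (fun r : ℕ => Real.log (nq J r)) atTop atTop := nlog.comp (nq_tendsto J)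
  have hcube : ∀ᶠ n : ℕ in atTop, 8 * ((J : ℝ) + 2) * Real.log n ^ 3 ≤ n := by
    have h := ((Real.tendsto_pow_mul_exp_neg_atTop_nhds_zero 3).comp nlog).const_mul
      (8 * ((J : ℝ) + 2))
    rw [mul_zero] at h
    filter_upwards [h.eventually (ge_mem_nhds (show (0 : ℝ) < 1 by norm_num)),
      eventually_gt_atTop 0] with n hn hn0
    have hn1 : (0 : ℝ) < n := by exact_mod_cast hn0
    simp only [Function.comp_apply] at hn
    rw [Real.exp_neg, Real.exp_log hn1, ← mul_assoc, ← div_eq_mul_inv, div_le_one hn1] at hn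
    exact hn
  filter_upwards [(nq_tendsto J).eventually_ge_atTop 4, hnl.eventually_ge_atTop 1,
    hnl.eventually_ge_atTop ((2 + (J + 3) * Real.log 2 + J * Real.log 4) / 2),
    (nq_tendsto J).eventually hcube, nlog.eventually_ge_atTop 1, eventually_gt_atTop 0] with
    r h4 h1 h2 h3 h5 hr0
  set n := nq J r with hn
  set ℓ := Real.log r with hℓ
  have hn1 : 1 < n := by omega
  have hn0 : (0 : ℝ) < n := by exact_mod_cast (by omega : 0 < n)
  have hr : (0 : ℝ) < r := by exact_mod_cast hr0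
  have hJ : (0 : ℝ) ≤ J := Nat.cast_nonneg _
  have hl1 : Real.log n ≤ ℓ / (J + 2) := nq_log_le (by omega)
  have hl2 : ℓ / (J + 2) - Real.log 2 ≤ Real.log n := nq_log_ge (by omega)
  have hlog2 : Real.log 2 ≤ 1 := by have := Real.log_two_lt_d9; linarith
  have hℓ2 : ℓ ≤ 2 * ((J : ℝ) + 2) * Real.log n := by
    have h6 : ℓ / (J + 2) ≤ 2 * Real.log n := by linarith
    rw [div_le_iff₀ (by positivity)] at h6
    linarith
  have hδ1 : 1 / (4 * ℓ) ≤ 1 := by
    rw [div_le_one (by positivity)]; linarith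
  have hbJ : bq J n J ≤ 1 / (4 * ℓ) := by
    rw [bq_top (by omega)]
    unfold mq
    rw [div_le_div_iff₀ hn0 (by positivity)]
    have h6 : Real.log n ^ 2 * (4 * ℓ) ≤ Real.log n ^ 2 * (4 * (2 * ((J : ℝ) + 2) * Real.log n)) := by
      gcongr
    have h7 : Real.log n ^ 2 * (4 * (2 * ((J : ℝ) + 2) * Real.log n)) =
        8 * ((J : ℝ) + 2) * Real.log n ^ 3 := by ring
    linarith
  refine ⟨hn1, h4, h1, hbJ, hδ1, fun x hx1 hx2 => ?_⟩
  have hx1' : (0 : ℝ) < x := by exact_mod_cast hx1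
  have hx2' : (x : ℝ) ≤ 2 * r := by exact_mod_cast hx2
  have hb4 : ∀ j, 4 * bq J n j ≤ bq J n (j + 1) := by
    intro j
    have h6 := bq_succ (J := J) hn1 j
    rw [div_eq_iff (bq_pos hn1 j).ne'] at h6
    rw [h6]
    have h7 : (4 : ℝ) ≤ n := by exact_mod_cast h4
    have := bq_pos (J := J) hn1 j
    gcongr
  have hpow : (n : ℝ) ^ (J + 2) ≤ r := by
    have := nq_pow (J := J) hr0
    rw [← hn] at this
    exact_mod_cast this
  have hb0 : bq J n 0 = Real.log n ^ 2 / (n : ℝ) ^ (J + 1) := by unfold bq; rw [pow_zero, mul_one]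
  have hn1' : (1 : ℝ) ≤ n := by exact_mod_cast hn1.le
  have hR : 1 ≤ 2 * (r : ℝ) * bq J n 0 := by
    rw [hb0, ← mul_div_assoc, le_div_iff₀ (by positivity), one_mul]
    have h6 : (n : ℝ) ^ (J + 1) ≤ (n : ℝ) ^ (J + 2) := pow_le_pow_right₀ hn1' (by omega)
    have h7 : 1 ≤ Real.log n ^ 2 := by nlinarith
    nlinarith
  have h6 := reml_kv (bq_pos hn1 0) (bq_mono hn1) hb4 (by positivity : 0 < 1 / (4 * ℓ)) hδ1 hbJ
    hx1' hx2' hR
  have hratio : bq J n 0 / bq J n J = 1 / (n : ℝ) ^ J := by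
    rw [hb0]
    unfold bq
    have hl : Real.log n ≠ 0 := by
      have : 0 < Real.log n := by linarith
      exact this.ne'
    field_simp
  have hr2 : (r : ℝ) ≤ (2 * n) ^ (J + 2) := by
    have h7 : ℓ ≤ ((J + 2 : ℕ) : ℝ) * Real.log (2 * n) := by
      rw [Real.log_mul (by norm_num) hn0.ne']
      have h8 : ℓ / (J + 2) ≤ Real.log 2 + Real.log n := by linarith
      rw [div_le_iff₀ (by positivity)] at h8
      push_cast
      linarith
    calc (r : ℝ) = Real.exp ℓ := by rw [hℓ, Real.exp_log hr]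
      _ ≤ Real.exp (((J + 2 : ℕ) : ℝ) * Real.log (2 * n)) := Real.exp_le_exp.2 h7
      _ = (2 * n) ^ (J + 2) := by rw [Real.exp_nat_mul, Real.exp_log (by positivity)]
  have harg : 1 / (4 * ℓ) * (2 * r) * (bq J n 0 / bq J n J) ≤ 2 ^ (J + 3) * (n : ℝ) ^ 2 := by
    rw [hratio]
    calc 1 / (4 * ℓ) * (2 * r) * (1 / (n : ℝ) ^ J) ≤ 1 * (2 * (2 * n) ^ (J + 2)) * (1 / (n : ℝ) ^ J) := by
          gcongr
      _ = 2 ^ (J + 3) * (n : ℝ) ^ 2 := by
          rw [mul_pow, pow_add (n : ℝ) J 2, pow_succ (2 : ℝ) (J + 2)]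
          field_simp
  have hargpos : 0 < 1 / (4 * ℓ) * (2 * r) * (bq J n 0 / bq J n J) := by
    rw [hratio]; positivity
  have hlogarg : Real.log (1 / (4 * ℓ) * (2 * r) * (bq J n 0 / bq J n J)) ≤
      (J + 3) * Real.log 2 + 2 * Real.log n := by
    refine (Real.log_le_log hargpos harg).trans ?_
    rw [Real.log_mul (by positivity) (by positivity), Real.log_pow, Real.log_pow]
    push_cast
    exact le_rfl
  have h7 : kv (reml J (bq J n) (1 / (4 * ℓ)) x) ≤ 4 * Real.log n := by linarith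
  refine h7.trans ?_
  calc 4 * Real.log n ≤ 4 * (ℓ / (J + 2)) := by gcongr
    _ = _ := by ring

end Pool.Agent.H478.EX
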