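import Pool.Agent.H478.EX15

/-! Extreme values of the counts at typical heights: the theorem. -/

open Finset Complex MeasureTheory Filter Topology ProbabilityTheory

namespace Pool.Agent.H478.EX

open Pool.Agent.H478.CW
open Pool.Agent.R321.FA
open SP (ZZ mu Mk RHs)

/-- the smooth events at the point `x` -/
def EvX (J : ℕ) (b : ℕ → ℝ) (δ δ' e ℓ : ℝ) (x : ℕ) (T t : ℝ) : Prop :=
  |stt (sumX J b x) δ T t| < (1 / Real.pi + e) * ℓ ∧ |stt (reml J b δ x) δ T t| < e * ℓ ∧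
  |stt (midl δ δ' x) δ' T t| < e * ℓ ∧ |stt (tril δ' x) δ' T t| < e * ℓ ∧
  |stt (tril δ' (x - 1 / (2 * δ'))) δ' T t| < e * ℓ

/-- the smooth events at zero -/
def Ev0 (J : ℕ) (b : ℕ → ℝ) (δ δ' e ℓ : ℝ) (T t : ℝ) : Prop :=
  |stt (sumX J b 0) δ T t| < e * ℓ ∧ |stt (tril δ' 0) δ' T t| < e * ℓ ∧
  |stt (tril δ' (-(1 / (2 * δ')))) δ' T t| < e * ℓ ∧ |stt (cntl δ' 1) δ' T t| < e * ℓ

lemma Xs_band {b b' μ μ' : ℝ} (hb : 0 < b) (hbb : b < b') (h : b' ≤ μ) (hμ : μ ≤ μ') (x : ℝ) {T : ℝ}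
    (hT : 1 ≤ T) (t : ℝ) : Xs b b' x μ' T t = Xs b b' x μ T t := by
  unfold Xs
  exact stt_band ((Yl_good hb hbb h).trl x) ((hb.trans hbb).le.trans h) hμ hT t

/-- from the smooth events to the counts -/
lemma det_main {J : ℕ} {b : ℕ → ℝ} {δ δ' e ℓ : ℝ} (hδ : 0 < δ)
    (hδδ : δ ≤ δ') (hδ1 : δ' ≤ 1) {T : ℝ} (hT : 1 ≤ T) {x : ℕ} (hx : 1 ≤ x) {t : ℝ}
    (hδe : 4 / δ' ≤ 4 * (e * ℓ)) (hℓ : 1 ≤ e * ℓ)
    (h1 : EvX J b δ δ' e ℓ x T t) (h0 : Ev0 J b δ δ' e ℓ T t)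
    (hn : |nc T t x - XX (psb δ' x) δ' T (t + Real.pi * x / Real.log T)| ≤
      C1 * (4 / δ' + (stt (tril δ' 0) δ' T t + stt (tril δ' (-(1 / (2 * δ')))) δ' T t +
        stt (tril δ' x) δ' T t + stt (tril δ' (x - 1 / (2 * δ'))) δ' T t)) + 1) :
    |nc T t x - x + ∑ j : Fin J, Xs (b j) (b (j + 1)) x δ T t| ≤ (8 * C1 + 4) * (e * ℓ) := by
  obtain ⟨a1, a2, a3, a4, a5⟩ := h1
  obtain ⟨z1, z2, z3, z4⟩ := h0
  have hx0 : (0 : ℝ) < x := by exact_mod_cast hx
  have hδ' : 0 < δ' := hδ.trans_le hδδ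
  have hC := C1_pos
  have e1 : stt (midl δ δ' x) δ' T t = stt (cntl δ' x) δ' T t - stt (cntl δ x) δ T t := by
    unfold midl
    rw [stt_append, stt_scl, stt_band (cntl_good hδ (hδδ.trans hδ1) hx0) hδ.le hδδ hT]
    ring
  have e2 := reml_stt J b δ x δ T t
  rw [← cntl_stt] at e2
  rw [Finset.sum_sub_distrib, ← sumX_stt J b 0 δ T t] at e2
  have e3 := cntl_stt δ' x δ' T t
  set S := ∑ j : Fin J, Xs (b j) (b (j + 1)) x δ T t with hS
  have hmain : |nc T t x - XX (psb δ' x) δ' T (t + Real.pi * x / Real.log T)| ≤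
      8 * C1 * (e * ℓ) + 1 := by
    refine hn.trans ?_
    have b1 := (abs_lt.1 z2).2
    have b2 := (abs_lt.1 z3).2
    have b3 := (abs_lt.1 a4).2
    have b4 := (abs_lt.1 a5).2
    have : C1 * (4 / δ' + (stt (tril δ' 0) δ' T t + stt (tril δ' (-(1 / (2 * δ')))) δ' T t +
        stt (tril δ' x) δ' T t + stt (tril δ' (x - 1 / (2 * δ'))) δ' T t)) ≤
        C1 * (8 * (e * ℓ)) := by
      apply mul_le_mul_of_nonneg_left _ hC.le
      linarith
    linarith
  have hid : nc T t x - x + S = (nc T t x - XX (psb δ' x) δ' T (t + Real.pi * x / Real.log T)) +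
      stt (midl δ δ' x) δ' T t + stt (reml J b δ x) δ T t + stt (sumX J b 0) δ T t := by
    rw [e1, e2, e3]
    ring
  rw [hid]
  rw [abs_le] at hmain ⊢
  rw [abs_lt] at a2 a3 z1
  have e5 : (8 * C1 + 4) * (e * ℓ) = 8 * C1 * (e * ℓ) + 4 * (e * ℓ) := by ring
  rw [e5]
  constructor <;> linarith [hmain.1, hmain.2, a2.1, a2.2, a3.1, a3.2, z1.1, z1.2]

/-- **extreme values of the counts at typical heights** -/
theorem leb (hRH : RHs) {ε : ℝ} (hε : 0 < ε) (hε1 : ε ≤ 1) {q : ℝ} (hq : 0 < q) :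
    ∀ᶠ r : ℕ in atTop, Sm (fun T t =>
      (∀ x : ℕ, 1 ≤ x → x ≤ 2 * r → |nc T t x - x| ≤ (1 / Real.pi + ε) * Real.log r) ∧
      (∃ x : ℕ, 1 ≤ x ∧ 2 * x ≤ r ∧ (1 / Real.pi - ε) * Real.log r ≤ nc T t x - x) ∧
      (∃ x : ℕ, 1 ≤ x ∧ 2 * x ≤ r ∧ nc T t x - x ≤ -((1 / Real.pi - ε) * Real.log r)) ∧
      nc T t 1 ≤ ε * Real.log r) q := by
  have hpi := Real.pi_pos
  have hpi3 := Real.pi_gt_three
  have hC := C1_pos
  set e : ℝ := ε / (16 * C1 + 16) with he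
  have he0 : 0 < e := by positivity
  have heε : (8 * C1 + 8) * e = ε / 2 := by rw [he]; field_simp; ring
  have he16 : e ≤ ε / 16 := by
    rw [he]
    apply div_le_div_of_nonneg_left hε.le (by norm_num) (by linarith)
  have he1 : e ≤ 1 / 16 := he16.trans (by linarith)
  set A : ℝ := 1 / e with hA
  have hA1 : 1 ≤ A := by rw [hA, le_div_iff₀ he0]; linarith
  set J : ℕ := ⌈16 * Real.exp 3 / e ^ 2⌉₊ + 1 with hJ
  have hJ1 : 1 ≤ J := by omega
  have hJr : 16 * Real.exp 3 / e ^ 2 ≤ (J : ℝ) + 2 := by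
    have := Nat.le_ceil (16 * Real.exp 3 / e ^ 2)
    rw [hJ]
    push_cast
    linarith
  have hJ0 : (0 : ℝ) < (J : ℝ) + 2 := by positivity
  have hJe : 2 / ((J : ℝ) + 2) ≤ e := by
    rw [div_le_iff₀ (by positivity)] at hJr
    rw [div_le_iff₀ hJ0]
    have h3 : 1 ≤ Real.exp 3 := Real.one_le_exp (by norm_num)
    nlinarith
  have hce : 4 * (4 / ((J : ℝ) + 2)) * Real.exp 3 ≤ e ^ 2 := by
    rw [div_le_iff₀ (by positivity)] at hJr
    rw [show 4 * (4 / ((J : ℝ) + 2)) * Real.exp 3 = 16 * Real.exp 3 / ((J : ℝ) + 2) by ring,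
      div_le_iff₀ hJ0]
    linarith
  -- the size of the small terms
  have hnl : Tendsto (fun r : ℕ => Real.log (nq J r)) atTop atTop := nlog.comp (nq_tendsto J)
  have hw : ∀ᶠ r : ℕ in atTop, J * Real.sqrt (2 * (J + 1) * Real.log r) ≤ e * Real.log r := by
    filter_upwards [nlog.eventually_ge_atTop (J ^ 2 * (2 * (J + 1)) / e ^ 2),
      nlog.eventually_ge_atTop 0] with r h1 h2
    rw [div_le_iff₀ (by positivity)] at h1
    have h3 : J * Real.sqrt (2 * (J + 1) * Real.log r) =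
        Real.sqrt (J ^ 2 * (2 * (J + 1) * Real.log r)) := by
      rw [Real.sqrt_mul (by positivity : (0 : ℝ) ≤ (J : ℝ) ^ 2), Real.sqrt_sq (by positivity)]
    rw [h3, Real.sqrt_le_left (by positivity)]
    nlinarith
  have hq16 : 0 < q / 16 := by positivity
  filter_upwards [(nq_tendsto J).eventually (lower_band hRH (J := J) he0 (by linarith : e ≤ 1)
      (q := q / 8) (by positivity)), main_stats hRH he0 hq16,
    rem_stats hRH (c := 4 / ((J : ℝ) + 2)) (by positivity) he0 hce,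
    small_stats hRH (κ := 1 + Real.log (4 * A)) hA1
      (by have := Real.log_nonneg (by linarith : 1 ≤ 4 * A); linarith) he0,
    reml_par (J := J), hw, nlog.eventually_ge_atTop (max (max 8 A) (J / e)),
    nlog.eventually_ge_atTop (max (1 / e) (2 * Real.exp 1 / e ^ 2 / (q / 16) + 1)),
    eventually_ge_atTop (⌈64 / q⌉₊ + 10), hnl.eventually_ge_atTop 1] with
    r hlow hmain hrem hsmall hpar hwr hl1 hl2 hr10 hnl1
  obtain ⟨hn1, hn4, hnlog, hbJ, hδ1, hkvrem⟩ := hpar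
  set n := nq J r with hn
  set ℓ := Real.log r with hℓ
  have hℓ8 : 8 ≤ ℓ := (le_max_left _ _).trans ((le_max_left _ _).trans hl1)
  have hℓA : A ≤ ℓ := (le_max_right _ _).trans ((le_max_left _ _).trans hl1)
  have hℓJ : J / e ≤ ℓ := (le_max_right _ _).trans hl1
  have hℓe : 1 / e ≤ ℓ := (le_max_left _ _).trans hl2
  have hℓq : 2 * Real.exp 1 / e ^ 2 / (q / 16) + 1 ≤ ℓ := (le_max_right _ _).trans hl2
  have hℓ0 : 0 < ℓ := by linarith
  have hr0 : (0 : ℝ) < r := by exact_mod_cast (by omega : 0 < r)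
  have hrq : 64 / q ≤ r := by
    have h1 := Nat.le_ceil (64 / q)
    have h2 : ((⌈64 / q⌉₊ + 10 : ℕ) : ℝ) ≤ r := by exact_mod_cast hr10
    push_cast at h2
    linarith
  have hr10' : (10 : ℝ) ≤ r := by
    have h2 : ((⌈64 / q⌉₊ + 10 : ℕ) : ℝ) ≤ r := by exact_mod_cast hr10
    push_cast at h2
    have : (0 : ℝ) ≤ (⌈64 / q⌉₊ : ℝ) := Nat.cast_nonneg _
    linarith
  set b := bq J n with hb
  have hb0 : 0 < b 0 := bq_pos hn1 0
  have hbm : StrictMono b := bq_mono hn1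
  set δ : ℝ := 1 / (4 * ℓ) with hδ
  set δ' : ℝ := A / ℓ with hδ'
  have hδ0 : 0 < δ := by positivity
  have hδ'0 : 0 < δ' := by positivity
  have hδδ : δ ≤ δ' := by
    rw [hδ, hδ', div_le_div_iff₀ (by positivity) hℓ0]
    nlinarith
  have hδ'1 : δ' ≤ 1 := by rw [hδ', div_le_one hℓ0]; exact hℓA
  have heℓ : 1 ≤ e * ℓ := by
    rw [div_le_iff₀ he0] at hℓe
    linarith
  have h4δ : 4 / δ' ≤ 4 * (e * ℓ) := by
    rw [hδ', hA]
    apply le_of_eq
    field_simp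
  have hκ1 : 1 ≤ 1 + Real.log (4 * A) := by
    have := Real.log_nonneg (by linarith : 1 ≤ 4 * A); linarith
  have hratio : δ' / δ = 4 * A := by rw [hδ', hδ]; field_simp
  have hbJ1 : b J ≤ 1 := hbJ.trans hδ1
  have hnlogr : Real.log n ≤ ℓ / (J + 2) := nq_log_le (by omega)
  have hnlogr2 : ℓ / (J + 2) - Real.log 2 ≤ Real.log n := nq_log_ge (by omega)
  have hnlogℓ : Real.log n ≤ ℓ := by
    refine hnlogr.trans (div_le_self hℓ0.le ?_)
    have : (0 : ℝ) ≤ J := Nat.cast_nonneg _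
    linarith
  have hkvX : ∀ x : ℝ, kv (sumX J b x) ≤ 1 / (2 * Real.pi ^ 2) * ℓ := by
    intro x
    refine (sumX_kv hn1 hbJ1 x).trans ?_
    apply mul_le_mul_of_nonneg_left _ (by positivity)
    calc (J : ℝ) * Real.log n ≤ J * (ℓ / (J + 2)) := by gcongr
      _ = J / (J + 2) * ℓ := by ring
      _ ≤ 1 * ℓ := by
          gcongr
          rw [div_le_one hJ0]
          linarith
      _ = ℓ := one_mul _
  -- the events
  have S1 : ∀ x ∈ Finset.Icc 1 (2 * r), Sm (EvX J b δ δ' e ℓ x)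
      (q / 16 / r + (1 / (r : ℝ) ^ 2 + (1 / (r : ℝ) ^ 2 + (1 / (r : ℝ) ^ 2 + 1 / (r : ℝ) ^ 2)))) := by
    intro x hx
    rw [Finset.mem_Icc] at hx
    have hx0 : (0 : ℝ) < x := by exact_mod_cast hx.1
    have s1 := hmain (sumX J b x) (sumX_good hb0 hbm hbJ x) (hkvX x)
    have s2 := hrem (reml J b δ x) (reml_good hb0 hbm hδ0 hδ1 hbJ hx0) (hkvrem x hx.1 hx.2)
    have s3 := hsmall (midl δ δ' x) (midl_good hδ0 hδδ hδ'1 hx0) (by
      have := midl_kv hδ0 hδδ hδ'1 hx0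
      rwa [hratio] at this)
    have s4 := hsmall (tril δ' x) (tril_good hδ'0 hδ'1 x) ((tril_kv hδ'0 hδ'1 x).trans hκ1)
    have s5 := hsmall (tril δ' (x - 1 / (2 * δ'))) (tril_good hδ'0 hδ'1 _)
      ((tril_kv hδ'0 hδ'1 _).trans hκ1)
    exact s1.and (s2.and (s3.and (s4.and s5 (by positivity) (by positivity)) (by positivity)
      (by positivity)) (by positivity) (by positivity)) (by positivity) (by positivity)
  have S1' := Sm.all (Finset.Icc 1 (2 * r)) (by positivity) S1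
  have S0 : Sm (Ev0 J b δ δ' e ℓ)
      (q / 16 + (1 / (r : ℝ) ^ 2 + (1 / (r : ℝ) ^ 2 + 1 / (r : ℝ) ^ 2))) := by
    have s1 : Sm (fun T t => |stt (sumX J b 0) δ T t| < e * ℓ) (q / 16) := by
      refine tail' (k := 1) (ρ := 1 / (e ^ 2 * ℓ)) (κ := 1 / (2 * Real.pi ^ 2) * ℓ) hRH
        (sumX_good hb0 hbm hbJ 0) hδ0 le_rfl ?_ (by positivity) (hkvX 0) ?_ ?_
      · rw [hδ]
        push_cast
        rw [mul_one, ← mul_div_assoc, mul_one, div_lt_one (by positivity)]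
        linarith
      · have e5 : Real.exp 1 * (1 / (e ^ 2 * ℓ)) * (e * ℓ) ^ 2 = Real.exp 1 * ℓ := by field_simp
        rw [e5]
        have e6 : 2 * ((1 : ℕ) : ℝ) * (1 / (2 * Real.pi ^ 2) * ℓ) = 1 / Real.pi ^ 2 * ℓ := by
          push_cast; field_simp
        rw [e6]
        have e7 : 1 / Real.pi ^ 2 ≤ 1 := by rw [div_le_one (by positivity)]; nlinarith
        have e8 : (1 : ℝ) ≤ Real.exp 1 := Real.one_le_exp (by norm_num)
        exact mul_le_mul_of_nonneg_right (e7.trans e8) hℓ0.le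
      · rw [pow_one]
        push_cast
        have e5 : 2 * Real.exp 1 / e ^ 2 / (q / 16) < ℓ := by linarith
        rw [div_lt_iff₀ (by positivity)] at e5
        rw [show 2 * Real.exp 1 * 1 * (1 / (e ^ 2 * ℓ)) = (2 * Real.exp 1 / e ^ 2) / ℓ by field_simp,
          div_lt_iff₀ hℓ0]
        linarith
    have s2 := hsmall (tril δ' 0) (tril_good hδ'0 hδ'1 0) ((tril_kv hδ'0 hδ'1 0).trans hκ1)
    have s3 := hsmall (tril δ' (-(1 / (2 * δ')))) (tril_good hδ'0 hδ'1 _)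
      ((tril_kv hδ'0 hδ'1 _).trans hκ1)
    have s4 := hsmall (cntl δ' 1) (cntl_good hδ'0 hδ'1 one_pos) ((cntl_kv_one hδ'0 hδ'1).trans hκ1)
    exact s1.and (s2.and (s3.and s4 (by positivity) (by positivity)) (by positivity) (by positivity))
      (by positivity) (by positivity)
  set a : ℝ := (1 - e) * (Real.log n / Real.pi) with ha
  have ha0 : 0 ≤ a := by
    have : 0 ≤ 1 - e := by linarith
    positivity
  have L1 := hlow (-a) (by rw [abs_neg, abs_of_nonneg ha0])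
  have L2 := hlow a (by rw [abs_of_nonneg ha0])
  have hall := ((L1.and L2 (by positivity) (by positivity)).and
    (S1'.and S0 (by positivity) (by positivity)) (by positivity) (by positivity)).weaken (q' := q) (by
      have hcard : ((Finset.Icc 1 (2 * r)).card : ℝ) = 2 * r := by
        rw [Nat.card_Icc]; push_cast [Nat.add_sub_cancel]; ring
      rw [hcard]
      have h1 : 2 * (r : ℝ) * (q / 16 / r + (1 / (r : ℝ) ^ 2 + (1 / (r : ℝ) ^ 2 +
        (1 / (r : ℝ) ^ 2 + 1 / (r : ℝ) ^ 2)))) = q / 8 + 8 / r := by field_simp; ring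
      rw [h1]
      have h2 : 8 / (r : ℝ) ≤ q / 8 := by
        rw [div_le_iff₀ hr0]
        rw [div_le_iff₀ hq] at hrq
        nlinarith
      have h3 : 1 / (r : ℝ) ^ 2 ≤ q / 64 := by
        rw [div_le_iff₀ (by positivity)]
        rw [div_le_iff₀ hq] at hrq
        nlinarith
      linarith)
  refine hall.mono ?_
  have hnear : ∀ᶠ T : ℝ in atTop, ∀ x ∈ Finset.Icc 1 (2 * r), ∀ t : ℝ,
      |nc T t x - XX (psb δ' x) δ' T (t + Real.pi * x / Real.log T)| ≤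
      C1 * (4 / δ' + (stt (tril δ' 0) δ' T t + stt (tril δ' (-(1 / (2 * δ')))) δ' T t +
        stt (tril δ' x) δ' T t + stt (tril δ' (x - 1 / (2 * δ'))) δ' T t)) + 1 := by
    refine (eventually_all_finset _).2 fun x hx => ?_
    rw [Finset.mem_Icc] at hx
    exact nc_near hδ'0 (by exact_mod_cast hx.1) one_pos
  filter_upwards [hnear, eventually_ge_atTop 1] with T hnearT hT1
  rintro t - - ⟨⟨l1, l2⟩, ⟨ex, e0⟩⟩
  have hdet : ∀ x : ℕ, 1 ≤ x → x ≤ 2 * r →
      |nc T t x - x + ∑ j : Fin J, Xs (b j) (b (j + 1)) x δ T t| ≤ (8 * C1 + 4) * (e * ℓ) :=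
    fun x hx1 hx2 => det_main hδ0 hδδ hδ'1 hT1 hx1 h4δ heℓ
      (ex x (Finset.mem_Icc.2 ⟨hx1, hx2⟩)) e0 (hnearT x (Finset.mem_Icc.2 ⟨hx1, hx2⟩) t)
  have hdet' : ∀ x : ℕ, 1 ≤ x → x ≤ 2 * r →
      |nc T t x - x + ∑ j : Fin J, Xs (b j) (b (j + 1)) x δ T t| ≤ ε / 2 * ℓ := by
    intro x hx1 hx2
    refine (hdet x hx1 hx2).trans ?_
    have : (8 * C1 + 4) * (e * ℓ) ≤ (8 * C1 + 8) * (e * ℓ) := by gcongr; norm_num
    refine this.trans ?_
    rw [← heε, mul_assoc]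
  have hband : ∀ (x : ℝ) (j : Fin J), Xs (b j) (b (j + 1)) x δ T t =
      Xs (b j) (b (j + 1)) x (mq n) T t := by
    intro x j
    have hμ : mq n ≤ δ := by rw [← bq_top (J := J) (by omega)]; exact hbJ
    have hj : b (j + 1) ≤ mq n := by
      rw [← bq_top (J := J) (by omega)]
      exact hbm.monotone (by omega : (j : ℕ) + 1 ≤ J)
    exact Xs_band (bq_pos hn1 _) (hbm (Nat.lt_succ_self _)) hj hμ x hT1 t
  -- the value of the levels
  have hlev : (1 / Real.pi - ε / 2) * ℓ ≤ J * a - J * Real.sqrt (2 * (J + 1) * Real.log n) := by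
    have hlog2 : Real.log 2 ≤ 1 := by have := Real.log_two_lt_d9; linarith
    have h1 : J * Real.sqrt (2 * (J + 1) * Real.log n) ≤ e * ℓ := by
      refine le_trans ?_ hwr
      gcongr
    have hJ0' : (0 : ℝ) ≤ J := Nat.cast_nonneg _
    have h2 : ℓ / (J + 2) - 1 ≤ Real.log n := by linarith
    have h3 : J ≤ e * ℓ := by
      rw [div_le_iff₀ he0] at hℓJ
      linarith
    have h4 : J * (ℓ / (J + 2)) = ℓ - 2 / (J + 2) * ℓ := by field_simp; ring
    have h5 : 2 / ((J : ℝ) + 2) * ℓ ≤ e * ℓ := by gcongr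
    have h6 : ℓ - 2 * (e * ℓ) ≤ J * Real.log n := by
      have : J * (ℓ / (J + 2) - 1) ≤ J * Real.log n := by gcongr
      nlinarith
    have h7 : J * a = (1 - e) / Real.pi * (J * Real.log n) := by rw [ha]; field_simp
    rw [h7]
    have hc0 : 0 ≤ (1 - e) / Real.pi := by
      have : 0 ≤ 1 - e := by linarith
      positivity
    have h8 : (1 - e) / Real.pi * (ℓ - 2 * (e * ℓ)) ≤ (1 - e) / Real.pi * (J * Real.log n) := by gcongr
    have h9 : 1 / Real.pi * ℓ - e * ℓ ≤ (1 - e) / Real.pi * (ℓ - 2 * (e * ℓ)) := by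
      have e9 : (1 - e) / Real.pi * (ℓ - 2 * (e * ℓ)) = 1 / Real.pi * ℓ -
        1 / Real.pi * (3 * e - 2 * e ^ 2) * ℓ := by field_simp; ring
      rw [e9]
      have : 1 / Real.pi * (3 * e - 2 * e ^ 2) ≤ e := by
        rw [one_div, inv_mul_le_iff₀ hpi]
        nlinarith
      nlinarith
    have h10 : 2 * (e * ℓ) ≤ ε / 2 * ℓ := by
      have : 2 * e ≤ ε / 2 := by linarith
      nlinarith
    linarith
  have hxq : ∀ p : Fin J → Fin (n / 4), 1 ≤ xq J n p ∧ 2 * xq J n p ≤ r := by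
    intro p
    refine ⟨xq_pos hJ1 (by omega) p, ?_⟩
    refine (xq_le (by omega) (by omega) p).trans ?_
    rw [hn]
    exact nq_pow (by omega)
  have hsumband : ∀ p : Fin J → Fin (n / 4), ∀ a' : ℝ,
      (∀ j : Fin J, |Xs (b j) (b (j + 1)) (xq J n p) (mq n) T t - a'| ≤
        Real.sqrt (2 * (J + 1) * Real.log n)) →
      |(∑ j : Fin J, Xs (b j) (b (j + 1)) (xq J n p) δ T t) - J * a'| ≤
        J * Real.sqrt (2 * (J + 1) * Real.log n) := by
    intro p a' h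
    have e1 : (∑ j : Fin J, Xs (b j) (b (j + 1)) (xq J n p) δ T t) - J * a' =
        ∑ j : Fin J, (Xs (b j) (b (j + 1)) (xq J n p) (mq n) T t - a') := by
      rw [Finset.sum_sub_distrib, Finset.sum_const, Finset.card_univ, Fintype.card_fin, nsmul_eq_mul]
      congr 1
      exact Finset.sum_congr rfl fun j _ => hband _ j
    rw [e1]
    refine (Finset.abs_sum_le_sum_abs _ _).trans ?_
    refine (Finset.sum_le_sum fun j _ => h j).trans ?_
    rw [Finset.sum_const, Finset.card_univ, Fintype.card_fin, nsmul_eq_mul]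
  refine ⟨?_, ?_, ?_, ?_⟩
  · intro x hx1 hx2
    have h1 := hdet' x hx1 hx2
    have h2 := (ex x (Finset.mem_Icc.2 ⟨hx1, hx2⟩)).1
    rw [sumX_stt] at h2
    rw [abs_le] at h1 ⊢
    rw [abs_lt] at h2
    have h3 : e * ℓ ≤ ε / 2 * ℓ := by
      have : e ≤ ε / 2 := by linarith
      gcongr
    have h4 : (1 / Real.pi + ε) * ℓ = 1 / Real.pi * ℓ + ε / 2 * ℓ + ε / 2 * ℓ := by ring
    rw [h4]
    rw [add_mul] at h2
    constructor <;> linarith [h1.1, h1.2, h2.1, h2.2]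
  · obtain ⟨p, hp⟩ := l1
    refine ⟨xq J n p, (hxq p).1, (hxq p).2, ?_⟩
    have h1 := hdet' (xq J n p) (hxq p).1 (by have := (hxq p).2; omega)
    have h2 := hsumband p (-a) hp
    rw [abs_le] at h1 h2
    have h3 := h2.2
    have h4 := h1.1
    have h5 : (1 / Real.pi - ε) * ℓ = (1 / Real.pi - ε / 2) * ℓ - ε / 2 * ℓ := by ring
    rw [h5]
    linarith
  · obtain ⟨p, hp⟩ := l2
    refine ⟨xq J n p, (hxq p).1, (hxq p).2, ?_⟩
    have h1 := hdet' (xq J n p) (hxq p).1 (by have := (hxq p).2; omega)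
    have h2 := hsumband p a hp
    rw [abs_le] at h1 h2
    have h3 := h2.1
    have h4 := h1.2
    have h5 : (1 / Real.pi - ε) * ℓ = (1 / Real.pi - ε / 2) * ℓ - ε / 2 * ℓ := by ring
    rw [h5]
    linarith
  · have hx1 : (1 : ℕ) ∈ Finset.Icc 1 (2 * r) := Finset.mem_Icc.2 ⟨le_rfl, by omega⟩
    have h1 := hnearT 1 hx1 t
    have e1 := (ex 1 hx1).2.2.2
    have e2 := cntl_stt δ' 1 δ' T t
    push_cast at h1 e1
    have z := e0
    obtain ⟨z1, z2, z3, z4⟩ := z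
    rw [e2] at z4
    have b1 := (abs_lt.1 z2).2
    have b2 := (abs_lt.1 z3).2
    have b3 := (abs_lt.1 e1.1).2
    have b4 := (abs_lt.1 e1.2).2
    have b5 := (abs_lt.1 z4).2
    have h2 := (abs_le.1 h1).2
    have h3 : C1 * (4 / δ' + (stt (tril δ' 0) δ' T t + stt (tril δ' (-(1 / (2 * δ')))) δ' T t +
        stt (tril δ' 1) δ' T t + stt (tril δ' (1 - 1 / (2 * δ'))) δ' T t)) ≤
        C1 * (8 * (e * ℓ)) := by
      apply mul_le_mul_of_nonneg_left _ hC.le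
      linarith
    have h4 : (8 * C1 + 8) * (e * ℓ) = ε / 2 * ℓ := by rw [← mul_assoc, heε]
    have h5 : ε / 2 * ℓ ≤ ε * ℓ := by
      have : ε / 2 ≤ ε := by linarith
      gcongr
    have h6 : (8 * C1 + 8) * (e * ℓ) = C1 * (8 * (e * ℓ)) + 8 * (e * ℓ) := by ring
    rw [h6] at h4
    linarith

end Pool.Agent.H478.EX
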