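import Pool.Agent.H478.EX16
import Pool.Agent.H478.CW19

/-! From typical heights to zeros. -/

open Finset Complex MeasureTheory Filter Topology ProbabilityTheory

namespace Pool.Agent.H478.EX

open Pool.Agent.H478.CW
open Pool.Agent.R321.FA
open SP (ZZ mu Mk RHs)
open SG (ord NZ zmult ZS)
open Pool.Agent.TH800.LD (ZZf)
open TH800.MS (dlt)

lemma nc_sub {T : ℝ} (hT : 1 ≤ T) {t x t' x' : ℝ}
    (h : ∀ s : ℝ, t < s → s ≤ t + 2 * Real.pi * x / Real.log T →
      t' < s ∧ s ≤ t' + 2 * Real.pi * x' / Real.log T) : nc T t x ≤ nc T t' x' := by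
  rw [nc_eq hT, nc_eq hT]
  refine Finset.sum_le_sum fun s _ => ?_
  apply mul_le_mul_of_nonneg_left _ (Nat.cast_nonneg _)
  by_cases hs : t < s.im ∧ s.im ≤ t + 2 * Real.pi * x / Real.log T
  · rw [if_pos hs, if_pos (h s.im hs.1 hs.2)]
  · rw [if_neg hs]
    split_ifs <;> norm_num

lemma nc_mono {T : ℝ} (hT : 10 ≤ T) (t : ℝ) {x x' : ℝ} (h : x ≤ x') : nc T t x ≤ nc T t x' := by
  have hL := log_one_le hT
  have hpi := Real.pi_pos
  apply nc_sub (by linarith)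
  intro s h1 h2
  refine ⟨h1, h2.trans ?_⟩
  gcongr

lemma nc_up {T : ℝ} (hT : 10 ≤ T) {t γ : ℝ} (h1 : t ≤ γ) (h2 : γ ≤ t + 2 * Real.pi / Real.log T)
    (y : ℝ) : nc T γ y ≤ nc T t (y + 1) := by
  have hL := log_one_le hT
  apply nc_sub (by linarith)
  intro s h3 h4
  refine ⟨by linarith, ?_⟩
  have e : 2 * Real.pi * (y + 1) / Real.log T = 2 * Real.pi * y / Real.log T +
      2 * Real.pi / Real.log T := by ring
  rw [e]; linarith

lemma nc_low {T : ℝ} (hT : 10 ≤ T) {t γ : ℝ} (h1 : t ≤ γ) (h2 : γ ≤ t + 2 * Real.pi / Real.log T)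
    (y : ℝ) : nc T t y ≤ nc T t 1 + nc T γ y := by
  have hT1 : 1 ≤ T := by linarith
  rw [nc_eq hT1, nc_eq hT1, nc_eq hT1, ← Finset.sum_add_distrib]
  refine Finset.sum_le_sum fun s _ => ?_
  rw [← mul_add]
  apply mul_le_mul_of_nonneg_left _ (Nat.cast_nonneg _)
  by_cases hs : t < s.im ∧ s.im ≤ t + 2 * Real.pi * y / Real.log T
  · rw [if_pos hs]
    by_cases h3 : s.im ≤ γ
    · rw [if_pos ⟨hs.1, by rw [mul_one]; linarith⟩]
      split_ifs <;> norm_num
    · push Not at h3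
      have h4 : γ < s.im ∧ s.im ≤ γ + 2 * Real.pi * y / Real.log T := ⟨h3, by linarith [hs.2]⟩
      rw [if_pos h4]
      split_ifs <;> norm_num
  · rw [if_neg hs]
    split_ifs <;> norm_num

lemma sum_dlt_nonneg {T : ℝ} (hT : 10 ≤ T) {n : ℕ} (hn : n ∈ Ib T) (k : ℕ) :
    0 ≤ ∑ i ∈ Finset.range k, dlt (n + i) := by
  obtain ⟨h1, h2, -⟩ := mem_Ib.1 hn
  rw [dlt_sum]
  have hpi := Real.pi_pos
  have hm : ord n ≤ ord (n + k) := SG.ord_mono h1 (Nat.le_add_right n k)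
  have h := xlogx_low (by linarith : 0 < ord n) hm
  have hl : 0 ≤ Real.log (ord n) := Real.log_nonneg (by linarith)
  apply div_nonneg _ (by positivity)
  have : 0 ≤ (ord (n + k) - ord n) * (Real.log (ord n) + 1) := mul_nonneg (by linarith) (by linarith)
  linarith

/-- the property of the index -/
def Fin' (ε : ℝ) (r n : ℕ) : Prop :=
  (∀ k ≤ r, |(∑ i ∈ Finset.range k, dlt (n + i)) - k| ≤ (1 / Real.pi + ε) * Real.log r) ∧
  (∃ k ≤ r, (1 / Real.pi - ε) * Real.log r ≤ (∑ i ∈ Finset.range k, dlt (n + i)) - k) ∧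
  (∃ k ≤ r, (∑ i ∈ Finset.range k, dlt (n + i)) - k ≤ -((1 / Real.pi - ε) * Real.log r))

/-- the property of the height -/
def Pt (ε : ℝ) (r : ℕ) (T t : ℝ) : Prop :=
  (∀ x : ℕ, 1 ≤ x → x ≤ 2 * r → |nc T t x - x| ≤ (1 / Real.pi + ε) * Real.log r) ∧
  (∃ x : ℕ, 1 ≤ x ∧ 2 * x ≤ r ∧ (1 / Real.pi - ε) * Real.log r ≤ nc T t x - x) ∧
  (∃ x : ℕ, 1 ≤ x ∧ 2 * x ≤ r ∧ nc T t x - x ≤ -((1 / Real.pi - ε) * Real.log r)) ∧
  nc T t 1 ≤ ε * Real.log r

/-- **from heights to indices** -/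
theorem transfer (RH : RiemannHypothesis) {ε : ℝ} (hε : 0 < ε) (hε1 : ε ≤ 1 / 8) : ∀ᶠ r : ℕ in atTop,
    ∀ᶠ T : ℝ in atTop, ∀ t, Pt (ε / 8) r T t → ∀ n ∈ Ib T, ord n ≤ 2 * T - 1 → t < ord n →
      ord n ≤ t + 2 * Real.pi / Real.log T → Fin' ε r n := by
  have hpi := Real.pi_pos
  have hpi3 := Real.pi_gt_three
  filter_upwards [nlog.eventually_ge_atTop (max 8 (8 / ε)), log_small 16] with r hl hlr
  set ℓ := Real.log r with hℓ
  have hℓ8 : 8 ≤ ℓ := (le_max_left _ _).trans hl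
  have hℓε : 8 ≤ ε * ℓ := by
    have := (le_max_right _ _).trans hl
    rw [div_le_iff₀ hε] at this
    linarith
  have hℓ0 : 0 < ℓ := by linarith
  set e := ε / 8 with he
  have he0 : 0 < e := by positivity
  have heℓ : 1 ≤ e * ℓ := by
    have : e * ℓ = ε * ℓ / 8 := by rw [he]; ring
    rw [this]; linarith
  have hεe : ε * ℓ = 8 * (e * ℓ) := by rw [he]; ring
  have hπ0 : 0 < 1 / Real.pi * ℓ := by positivity
  have hπℓ : 1 / Real.pi * ℓ ≤ ℓ := by
    have : 1 / Real.pi ≤ 1 := by rw [div_le_one hpi]; linarith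
    nlinarith
  have hεℓ : ε * ℓ ≤ ℓ := by nlinarith
  filter_upwards [eventually_ge_atTop 10, Real.tendsto_log_atTop.eventually_ge_atTop
    (2 * Real.pi * (2 * r))] with T hT10 hL
  intro t hP n hn hn2 ht1 ht2
  obtain ⟨p1, ⟨x2, hx2a, hx2b, p2⟩, ⟨x3, hx3a, hx3b, p3⟩, p4⟩ := hP
  have hT1 : 1 ≤ T := by linarith
  have hL1 := log_one_le hT10
  set L := Real.log T with hLdef
  have hL0 : 0 < L := by linarith
  set γ := ord n with hγ
  have hr0 : (0 : ℝ) < r := by linarith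
  -- windows up to length 2r
  have hwin : ∀ y : ℝ, 0 ≤ y → y ≤ 2 * r → 0 ≤ 2 * Real.pi * y / L ∧ 2 * Real.pi * y / L ≤ 1 := by
    intro y h0 h1
    refine ⟨by positivity, ?_⟩
    rw [div_le_one hL0]
    have : 2 * Real.pi * y ≤ 2 * Real.pi * (2 * r) := by gcongr
    linarith
  have hmu : (mu (zo γ) : ℝ) ≤ e * ℓ := by
    refine le_trans ?_ p4
    have hzo : zo γ ∈ ZZ T := by
      obtain ⟨q1, q2, q3⟩ := mem_Ib.1 hn
      have hb : n ∈ W200.HW.Ix (2 * T) := W200.HW.mem_Ix.2 ⟨q1, q3⟩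
      obtain ⟨s0, s1, s2, s3, s4⟩ := W200.HW.zero_at RH hb
      exact ⟨s1, s2, by rw [zo_im]; exact q2, by rw [zo_im]; exact q3, s0⟩
    exact mu_le_nc hT1 hzo (by rw [zo_im]; exact ht1) (by rw [zo_im, mul_one]; exact ht2)
  set lam1 : ℝ := (1 / Real.pi + e) * ℓ with hlam1
  set lam2 : ℝ := (1 / Real.pi - e) * ℓ with hlam2
  have hl1 : lam1 = 1 / Real.pi * ℓ + e * ℓ := by rw [hlam1]; ring
  have hl2 : lam2 = 1 / Real.pi * ℓ - e * ℓ := by rw [hlam2]; ring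
  have hle : (1 / Real.pi + ε) * ℓ = 1 / Real.pi * ℓ + 8 * (e * ℓ) := by rw [add_mul, hεe]
  have hle2 : (1 / Real.pi - ε) * ℓ = 1 / Real.pi * ℓ - 8 * (e * ℓ) := by rw [sub_mul, hεe]
  -- upper and lower bounds for the counts at the zero
  have hup : ∀ y : ℝ, 0 ≤ y → y ≤ 2 * r - 2 → nc T γ y ≤ y + lam1 + 2 := by
    intro y h0 h1
    have a1 := nc_up hT10 ht1.le ht2 y
    have a2 : nc T t (y + 1) ≤ nc T t ((⌈y⌉₊ + 1 : ℕ) : ℝ) := by
      apply nc_mono hT10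
      push_cast
      linarith [Nat.le_ceil y]
    have a3 : (⌈y⌉₊ : ℝ) < y + 1 := Nat.ceil_lt_add_one h0
    have a4 : ⌈y⌉₊ + 1 ≤ 2 * r := by
      have : ((⌈y⌉₊ + 1 : ℕ) : ℝ) < 2 * r := by push_cast; linarith
      exact_mod_cast this.le
    have a5 := (abs_le.1 (p1 (⌈y⌉₊ + 1) (by omega) a4)).2
    push_cast at a5 a2
    linarith
  have hlo : ∀ y : ℝ, 0 ≤ y → y ≤ 2 * r → y - lam1 - e * ℓ - 1 ≤ nc T γ y := by
    intro y h0 h1
    have a1 := nc_low hT10 ht1.le ht2 y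
    have a2 : nc T t (⌊y⌋₊ : ℝ) ≤ nc T t y := nc_mono hT10 t (Nat.floor_le h0)
    have a3 : y < ⌊y⌋₊ + 1 := Nat.lt_floor_add_one y
    rcases Nat.eq_zero_or_pos ⌊y⌋₊ with h2 | h2
    · rw [h2] at a3
      have := nc_nonneg hT1 γ y
      push_cast at a3
      linarith
    · have a4 : ⌊y⌋₊ ≤ 2 * r := by
        have : (⌊y⌋₊ : ℝ) ≤ 2 * r := (Nat.floor_le h0).trans h1
        exact_mod_cast this
      have a5 := (abs_le.1 (p1 ⌊y⌋₊ h2 a4)).1
      linarith
  refine ⟨?_, ?_, ?_⟩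
  · -- all k
    intro k hk
    have hkr : (k : ℝ) ≤ r := by exact_mod_cast hk
    have hk0 : (0 : ℝ) ≤ k := Nat.cast_nonneg _
    rw [hle, abs_le]
    constructor
    · by_contra hcon
      push Not at hcon
      set y := (k : ℝ) - (1 / Real.pi * ℓ + 8 * (e * ℓ)) with hy
      have hS0 := sum_dlt_nonneg hT10 hn k
      have hSy : ∑ i ∈ Finset.range k, dlt (n + i) ≤ y := by linarith
      have hy0 : 0 ≤ y := hS0.trans hSy
      have hyr : y ≤ 2 * r - 2 := by linarith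
      obtain ⟨w1, w2⟩ := hwin y hy0 (by linarith)
      have c1 := ord_of_S hT10 hn hSy
      have c2 := nc_of_ord RH hT1 hn (by linarith) w1 c1
      have c3 := hup y hy0 hyr
      rw [← hγ] at c2
      linarith
    · by_contra hcon
      push Not at hcon
      set y := (k : ℝ) + (1 / Real.pi * ℓ + 8 * (e * ℓ)) - 1 with hy
      have hy0 : 0 ≤ y := by linarith
      have hyr : y ≤ 2 * r := by linarith
      obtain ⟨w1, w2⟩ := hwin y hy0 hyr
      have c3 := hlo y hy0 hyr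
      have c1 := ord_of_nc RH hT1 hn (k := k) (x := y) (by linarith) w1 (by rw [← hγ]; linarith)
      have c2 := S_of_ord hT10 hn hy0 (by nlinarith) (by linarith) c1
      linarith
  · -- a large sum
    have hx3 : (1 : ℝ) ≤ x3 := by exact_mod_cast hx3a
    have hx3r : 2 * (x3 : ℝ) ≤ r := by exact_mod_cast hx3b
    set y := (x3 : ℝ) - 1 with hy
    have hy0 : 0 ≤ y := by linarith
    have hyr : y ≤ 2 * r := by linarith
    obtain ⟨w1, w2⟩ := hwin y hy0 hyr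
    have a1 := nc_up hT10 ht1.le ht2 y
    have e1 : y + 1 = x3 := by rw [hy]; ring
    rw [e1] at a1
    have hN0 := nc_nonneg hT1 γ y
    set N := nc T γ y with hN
    set k := ⌊N + mu (zo γ)⌋₊ + 1 with hk
    have hk1 : N + mu (zo γ) < k := by
      rw [hk]; push_cast; exact Nat.lt_floor_add_one _
    have hk2 : (k : ℝ) ≤ N + mu (zo γ) + 1 := by
      rw [hk]; push_cast
      have : (⌊N + mu (zo γ)⌋₊ : ℝ) ≤ N + mu (zo γ) := Nat.floor_le (by positivity)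
      linarith
    refine ⟨k, ?_, ?_⟩
    · have : (k : ℝ) ≤ r := by linarith
      exact_mod_cast this
    · by_contra hcon
      push Not at hcon
      have hSy : ∑ i ∈ Finset.range k, dlt (n + i) ≤ y := by
        rw [hle2] at hcon
        linarith
      have c1 := ord_of_S hT10 hn hSy
      have c2 := nc_of_ord RH hT1 hn (by linarith) w1 c1
      rw [← hγ, ← hN] at c2
      linarith
  · -- a small sum
    have hx2 : (1 : ℝ) ≤ x2 := by exact_mod_cast hx2a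
    have hx2r : 2 * (x2 : ℝ) ≤ r := by exact_mod_cast hx2b
    have a1 := nc_low hT10 ht1.le ht2 (x2 : ℝ)
    have hN0 := nc_nonneg hT1 γ (x2 : ℝ)
    obtain ⟨w1, w2⟩ := hwin x2 (by linarith) (by linarith)
    have a2 := hup x2 (by linarith) (by linarith)
    set N := nc T γ (x2 : ℝ) with hN
    set k := ⌊N⌋₊ with hk
    have hk1 : (k : ℝ) ≤ N := Nat.floor_le hN0
    have hk2 : N < k + 1 := Nat.lt_floor_add_one N
    refine ⟨k, ?_, ?_⟩
    · have : (k : ℝ) ≤ r := by linarith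
      exact_mod_cast this
    · have c1 := ord_of_nc RH hT1 hn (k := k) (x := x2) (by linarith) w1 (by rw [← hγ, ← hN]; exact hk1)
      have c2 := S_of_ord hT10 hn (by linarith) (by nlinarith) (by linarith) c1
      rw [hle2]
      linarith

end Pool.Agent.H478.EX
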