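import Pool.Agent.H478.EX17
import Pool.Agent.H478.CW20

/-! Counting exceptional indices. -/

open Finset Complex MeasureTheory Filter Topology ProbabilityTheory

namespace Pool.Agent.H478.EX

open Pool.Agent.H478.CW
open Pool.Agent.R321.FA
open SP (ZZ mu Mk RHs)
open SG (ord NZ zmult ZS)
open Pool.Agent.TH800.LD (ZZf)
open TH800.MS (dlt)

/-- **exceptional indices from exceptional heights** -/
theorem bad_count (RH : RiemannHypothesis) : ∃ C : ℝ, 1 ≤ C ∧ ∀ q : ℝ, 0 < q → ∀ P : ℝ → ℝ → Prop,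
    Sm P (q ^ 2) → ∀ Q : ℕ → Prop,
    (∀ᶠ T : ℝ in atTop, ∀ t, P T t → ∀ n ∈ Ib T, ord n ≤ 2 * T - 1 → t < ord n →
      ord n ≤ t + 2 * Real.pi / Real.log T → Q n) →
    ∀ᶠ T : ℝ in atTop, ∑ n ∈ Ib T, idc (fun n => ¬ Q n) n ≤ C * q * (T * Real.log T) := by
  classical
  have hpi := Real.pi_pos
  obtain ⟨C0, T0, hC0, hT0, hM⟩ := Mp_shift (rhs_of RH)
  have hcK : 0 < cK 1 := cK_pos zero_le_one
  refine ⟨cK 1 * (C0 + 1) + 1, by nlinarith, fun q hq P hP Q hPQ => ?_⟩
  filter_upwards [hP, hPQ, edg_small RH hq, V_ord, eventually_ge_atTop T0,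
    Real.tendsto_log_atTop.eventually_ge_atTop (2 * Real.pi)] with T hB hPQT hedge hV hTT0 hL2
  obtain ⟨hT10, hVV, hVT⟩ := hV
  have hT1 : 1 ≤ T := by linarith
  have hTp : 0 < T := by linarith
  have hL1 := log_one_le hT10
  set L := Real.log T with hLdef
  have hL0 : 0 < L := by linarith
  set w := 2 * Real.pi / L with hw
  have hw0 : 0 < w := by positivity
  have hw1 : w ≤ 1 := by rw [hw, div_le_one hL0]; exact hL2
  -- a measurable bad set
  set B := {t : ℝ | Va T ≤ t ∧ t ≤ Vb T ∧ ¬ P T t} with hBdef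
  set B' := toMeasurable volume B with hB'
  have hB'm : MeasurableSet B' := measurableSet_toMeasurable _ _
  have hB'v : volume B' ≤ ENNReal.ofReal (q ^ 2 * T) := by
    rw [hB', measure_toMeasurable]; exact hB
  have hBB : B ⊆ B' := subset_toMeasurable _ _
  set g : ℝ → ℝ := Set.indicator B' fun _ => 1 with hg
  have hg0 : ∀ t, 0 ≤ g t := fun t => Set.indicator_nonneg (fun _ _ => zero_le_one) t
  have hg1 : ∀ t, g t ≤ 1 := fun t => by
    rw [hg]; unfold Set.indicator; split_ifs <;> norm_num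
  have hgm : Measurable g := measurable_const.indicator hB'm
  have hgint : ∀ a b : ℝ, IntervalIntegrable g volume a b := by
    intro a b
    refine (intervalIntegrable_const (c := (1 : ℝ))).mono_fun hgm.aestronglyMeasurable ?_
    refine Eventually.of_forall fun t => ?_
    show ‖g t‖ ≤ ‖(1 : ℝ)‖
    rw [Real.norm_of_nonneg (hg0 t), norm_one]
    exact hg1 t
  have hgV : ∫ t in Va T..Vb T, g t ≤ q ^ 2 * T := by
    rw [intervalIntegral.integral_of_le hVV, hg, integral_indicator hB'm, setIntegral_const,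
      smul_eq_mul, mul_one, measureReal_restrict_apply hB'm]
    have h1 : volume (B' ∩ Set.Ioc (Va T) (Vb T)) ≤ ENNReal.ofReal (q ^ 2 * T) :=
      (measure_mono Set.inter_subset_left).trans hB'v
    unfold Measure.real
    exact ENNReal.toReal_le_of_le_ofReal (by positivity) h1
  -- the bad indices
  set S := (Ib T).filter fun n => ¬ Q n ∧ ¬ (ord n ≤ T + 8 * L + 1 ∨ 2 * T - 8 * L - 1 < ord n)
    with hS
  have hsplit : ∑ n ∈ Ib T, idc (fun n => ¬ Q n) n ≤ (S.card : ℝ) + ∑ n ∈ Ib T, edg T n := by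
    have e1 : (S.card : ℝ) = ∑ n ∈ Ib T, (if ¬ Q n ∧
        ¬ (ord n ≤ T + 8 * L + 1 ∨ 2 * T - 8 * L - 1 < ord n) then (1 : ℝ) else 0) := by
      rw [hS, Finset.card_filter]; push_cast; rfl
    rw [e1, ← Finset.sum_add_distrib]
    refine Finset.sum_le_sum fun n _ => ?_
    have a1 : (0 : ℝ) ≤ (if ¬ Q n ∧
      ¬ (ord n ≤ T + 8 * L + 1 ∨ 2 * T - 8 * L - 1 < ord n) then (1 : ℝ) else 0) := by
      split_ifs <;> norm_num
    have a2 : (0 : ℝ) ≤ edg T n := by unfold edg; exact idc_nonneg _ _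
    by_cases h1 : ¬ Q n
    · have a3 : idc (fun n => ¬ Q n) n = 1 := by unfold idc; rw [if_pos h1]
      by_cases h2 : ord n ≤ T + 8 * L + 1 ∨ 2 * T - 8 * L - 1 < ord n
      · have a4 : edg T n = 1 := by unfold edg idc; rw [if_pos h2]
        linarith
      · rw [if_pos ⟨h1, h2⟩]
        linarith
    · have a3 : idc (fun n => ¬ Q n) n = 0 := by unfold idc; rw [if_neg h1]
      linarith
  -- for bad indices the interval below is bad
  have hbad : ∀ n ∈ S, ∀ t, JI t w (ord n) ≤ JI t w (ord n) * g t := by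
    intro n hn t
    rw [hS, Finset.mem_filter] at hn
    obtain ⟨hnI, hnQ, hnE⟩ := hn
    push Not at hnE
    by_cases hJ : t < ord n ∧ ord n ≤ t + w
    · have hVa : Va T ≤ t := by unfold Va; rw [← hLdef]; linarith [hnE.1, hJ.2]
      have hVb : t ≤ Vb T := by unfold Vb; rw [← hLdef]; linarith [hnE.2, hJ.1]
      have hnP : ¬ P T t := fun hPt => hnQ (hPQT t hPt n hnI (by linarith [hnE.2]) hJ.1 hJ.2)
      have hmem : t ∈ B' := hBB ⟨hVa, hVb, hnP⟩
      have : g t = 1 := by rw [hg, Set.indicator_of_mem hmem]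
      rw [this, mul_one]
    · unfold JI
      rw [if_neg hJ]
      simp
  have hJint : ∀ n ∈ S, ∫ t in Va T..Vb T, JI t w (ord n) = w := by
    intro n hn
    rw [hS, Finset.mem_filter] at hn
    obtain ⟨hnI, hnQ, hnE⟩ := hn
    push Not at hnE
    apply JI_int_eq hw0.le
    · unfold Va; rw [← hLdef]; linarith [hnE.1]
    · unfold Vb; rw [← hLdef]; linarith [hnE.2]
  have hJg : ∀ n, IntervalIntegrable (fun t => JI t w (ord n) * g t) volume (Va T) (Vb T) := by
    intro n
    have hm : Measurable fun t => JI t w (ord n) := by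
      rw [JI_set']
      exact measurable_const.indicator measurableSet_Ico
    refine (intervalIntegrable_const (c := (1 : ℝ))).mono_fun (hm.mul hgm).aestronglyMeasurable ?_
    refine Eventually.of_forall fun t => ?_
    show ‖JI t w (ord n) * g t‖ ≤ ‖(1 : ℝ)‖
    rw [Real.norm_of_nonneg (mul_nonneg (JI_nonneg _ _ _) (hg0 t)), norm_one]
    exact mul_le_one₀ (JI_le _ _ _) (hg0 t) (hg1 t)
  have hMc : Continuous fun t => 1 + Mp T t := by
    have := Mp_cont hT1
    fun_prop
  have hcount : ∀ t, ∑ n ∈ S, JI t w (ord n) ≤ cK 1 * Mp T t := by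
    intro t
    have h1 := nc_le hT10 zero_le_one (by rw [mul_one]; exact hL2) t
    refine le_trans ?_ h1
    have h2 := AW_idx RH hT1 1 (fun _ => 1) t
    have h3 : AW T 1 (fun _ => 1) t = nc T t 1 := by
      rw [AW_eq hT1, nc_JI hT1]
      refine Finset.sum_congr rfl fun s _ => ?_
      rw [mul_one]
    rw [h3] at h2
    rw [h2]
    simp only [mul_one]
    exact Finset.sum_le_sum_of_subset_of_nonneg (Finset.filter_subset _ _)
      (fun n _ _ => JI_nonneg _ _ _)
  have hmain : (S.card : ℝ) * w ≤ cK 1 * (C0 + 1) * q * T := by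
    calc (S.card : ℝ) * w = ∑ n ∈ S, ∫ t in Va T..Vb T, JI t w (ord n) := by
          rw [Finset.sum_congr rfl hJint, Finset.sum_const, nsmul_eq_mul]
      _ ≤ ∑ n ∈ S, ∫ t in Va T..Vb T, JI t w (ord n) * g t := by
          refine Finset.sum_le_sum fun n hn => ?_
          exact intervalIntegral.integral_mono_on hVV (JI_intble' _ _ _ _) (hJg n)
            (fun t _ => hbad n hn t)
      _ = ∫ t in Va T..Vb T, ∑ n ∈ S, JI t w (ord n) * g t := by
          rw [intervalIntegral.integral_finsetSum fun n _ => hJg n]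
      _ ≤ ∫ t in Va T..Vb T, cK 1 * (q * (1 + Mp T t) ^ 2 + 1 / q * g t) := by
          apply intervalIntegral.integral_mono_on hVV
          · exact (IntervalIntegrable.sum S fun n _ => hJg n).congr (by
              intro t _
              simp)
          · exact (((hMc.pow 2).const_mul q).intervalIntegrable _ _ |>.add
              ((hgint _ _).const_mul _)).const_mul _
          · intro t _
            rw [← Finset.sum_mul]
            have h1 := hcount t
            have h2 := hg0 t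
            have h3 := hg1 t
            have h4 : 0 ≤ Mp T t := Mp_nonneg hT1 t
            have h5 : Mp T t * g t ≤ q * (1 + Mp T t) ^ 2 + 1 / q * g t := by
              rcases le_or_gt (Mp T t * q) 1 with h6 | h6
              · have h7 : Mp T t ≤ 1 / q := by rw [le_div_iff₀ hq]; exact h6
                have h8 : Mp T t * g t ≤ 1 / q * g t := by gcongr
                have : 0 ≤ q * (1 + Mp T t) ^ 2 := by positivity
                linarith
              · have h7 : Mp T t * g t ≤ Mp T t := mul_le_of_le_one_right h4 h3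
                have h8 : Mp T t ≤ q * (1 + Mp T t) ^ 2 := by nlinarith
                have : 0 ≤ 1 / q * g t := by positivity
                linarith
            calc (∑ n ∈ S, JI t w (ord n)) * g t ≤ cK 1 * Mp T t * g t := by gcongr
              _ = cK 1 * (Mp T t * g t) := by ring
              _ ≤ _ := by gcongr
      _ = cK 1 * (q * (∫ t in Va T..Vb T, (1 + Mp T t) ^ 2) + 1 / q * ∫ t in Va T..Vb T, g t) := by
          have i1 : IntervalIntegrable (fun t => q * (1 + Mp T t) ^ 2) volume (Va T) (Vb T) :=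
            ((hMc.pow 2).const_mul q).intervalIntegrable _ _
          have i2 : IntervalIntegrable (fun t => 1 / q * g t) volume (Va T) (Vb T) :=
            (hgint _ _).const_mul _
          rw [intervalIntegral.integral_const_mul, intervalIntegral.integral_add i1 i2,
            intervalIntegral.integral_const_mul, intervalIntegral.integral_const_mul]
      _ ≤ cK 1 * (q * (C0 * T) + 1 / q * (q ^ 2 * T)) := by
          have h1 := hM T hTT0 0 (by norm_num) hVV
          simp only [add_zero] at h1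
          gcongr
          exact h1
      _ = _ := by field_simp
  have hS2 : (S.card : ℝ) ≤ cK 1 * (C0 + 1) * q * (T * L) := by
    rw [hw, ← mul_div_assoc, div_le_iff₀ hL0] at hmain
    have h1 : (S.card : ℝ) ≤ S.card * (2 * Real.pi) :=
      le_mul_of_one_le_right (Nat.cast_nonneg _) (by nlinarith [Real.pi_gt_three])
    calc (S.card : ℝ) ≤ S.card * (2 * Real.pi) := h1
      _ ≤ cK 1 * (C0 + 1) * q * T * L := hmain
      _ = _ := by ring
  have hfin : (cK 1 * (C0 + 1) + 1) * q * (T * L) = cK 1 * (C0 + 1) * q * (T * L) + q * (T * L) := by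
    ring
  rw [hfin]
  linarith

/-- exceptional indices up to `N` -/
theorem all_bad {Q : ℕ → Prop} {ε : ℝ} (hε : 0 < ε)
    (h : ∀ᶠ T : ℝ in atTop, ∑ n ∈ Ib T, idc Q n ≤ ε / 64 * (T * Real.log T)) :
    ∀ᶠ N : ℕ in atTop, (({n : ℕ | 1 ≤ n ∧ n ≤ N ∧ Q n}.ncard : ℕ) : ℝ) ≤ ε * N := by
  classical
  have hpi := Real.pi_pos
  obtain ⟨T1, hT1⟩ := eventually_atTop.1 (h.and (eventually_ge_atTop 10))
  set T0 := max T1 10 with hT0
  have hT010 : 10 ≤ T0 := le_max_right _ _
  set f : ℝ → ℝ := fun x => ∑ n ∈ Finset.Ioc 0 (NZ x), idc Q n with hf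
  have hstep : ∀ T, T0 ≤ T → |f (2 * T) - f T| ≤ ε / 64 * (T * Real.log T) := by
    intro T hT
    have hTp : 10 ≤ T := hT010.trans hT
    have h1 := (hT1 T ((le_max_left _ _).trans hT)).1
    have hmono : NZ T ≤ NZ (2 * T) := SG.NZ_mono (by linarith)
    have e : f (2 * T) - f T = ∑ n ∈ Ib T, idc Q n := by
      simp only [hf]
      rw [← Finset.sum_Ioc_consecutive _ (Nat.zero_le _) hmono, add_sub_cancel_left]
      rfl
    rw [e, abs_of_nonneg (Finset.sum_nonneg fun n _ => idc_nonneg _ _)]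
    exact h1
  have hbd : ∀ x, |f x| ≤ NZ x := by
    intro x
    simp only [hf]
    rw [abs_of_nonneg (Finset.sum_nonneg fun n _ => idc_nonneg _ _)]
    refine (Finset.sum_le_sum fun n _ => idc_le Q n).trans ?_
    rw [Finset.sum_const, Nat.card_Ioc, nsmul_eq_mul, mul_one, Nat.sub_zero]
  have hall := dyadic (M := NZ (2 * T0)) (by linarith) (by positivity : 0 ≤ ε / 64) hstep
    (fun x _ hx2 => (hbd x).trans (by exact_mod_cast SG.NZ_mono hx2))
  have h1 : ∀ᶠ N : ℕ in atTop, T0 + 10 ≤ ord N :=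
    SG.ord_tendsto.eventually_ge_atTop _
  have h2 : ∀ᶠ N : ℕ in atTop, ord (N + 1) * Real.log (ord (N + 1)) / (2 * Real.pi) ≤ (1 + 1) * N :=
    W249.TCF.T_le 1 one_pos le_rfl
  have h3 : ∀ᶠ N : ℕ in atTop, (NZ (2 * T0) : ℝ) ≤ ε / 4 * N := by
    have : Tendsto (fun N : ℕ => ε / 4 * (N : ℝ)) atTop atTop :=
      tendsto_natCast_atTop_atTop.const_mul_atTop (by positivity)
    exact this.eventually_ge_atTop _
  filter_upwards [h1, h2, h3, eventually_ge_atTop 1] with N g1 g2 g3 hN1
  have hN0 : (0 : ℝ) < N := by exact_mod_cast hN1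
  set x := ord N with hx
  have hx10 : 20 ≤ x := by linarith
  have hlx : 0 < Real.log x := Real.log_pos (by linarith)
  have hxx : x * Real.log x ≤ 2 * Real.pi * (2 * N) := by
    have m1 : x ≤ ord (N + 1) := SG.ord_mono hN1 (Nat.le_succ N)
    have m2 : Real.log x ≤ Real.log (ord (N + 1)) := Real.log_le_log (by linarith) m1
    have m3 : x * Real.log x ≤ ord (N + 1) * Real.log (ord (N + 1)) :=
      mul_le_mul m1 m2 hlx.le (by linarith)
    rw [div_le_iff₀ (by positivity)] at g2
    linarith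
  have hfx := hall x (by linarith)
  have hNle : N ≤ NZ x := SG.le_NZ_ord hN1
  have e : {n : ℕ | 1 ≤ n ∧ n ≤ N ∧ Q n} =
      (((Finset.Ioc 0 N).filter (fun n => Q n) : Finset ℕ) : Set ℕ) := by
    ext n
    rw [Finset.coe_filter]
    simp only [Set.mem_ofPred_eq, Finset.mem_Ioc]
    constructor
    · rintro ⟨a, b, c⟩; exact ⟨⟨by omega, b⟩, c⟩
    · rintro ⟨⟨a, b⟩, c⟩; exact ⟨by omega, b, c⟩
  rw [e, Set.ncard_coe_finset, Finset.card_filter]
  push_cast
  have k0 : ∑ n ∈ Finset.Ioc 0 N, (if Q n then (1 : ℝ) else 0) ≤ f x := by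
    simp only [hf]
    apply Finset.sum_le_sum_of_subset_of_nonneg
    · exact Finset.Ioc_subset_Ioc_right hNle
    · intro n _ _
      exact idc_nonneg _ _
  have k1 : f x ≤ |f x| := le_abs_self _
  have k2 : ε / 64 * (x * Real.log x) ≤ ε / 64 * (2 * Real.pi * (2 * N)) := by gcongr
  have k3 : ε / 64 * (2 * Real.pi * (2 * N)) ≤ ε / 4 * N := by
    have hpi4 := Real.pi_le_four
    have : 2 * Real.pi * (2 * N) ≤ 16 * N := by nlinarith
    calc ε / 64 * (2 * Real.pi * (2 * N)) ≤ ε / 64 * (16 * N) := by gcongr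
      _ = _ := by ring
  have k4 : 0 ≤ ε * N := by positivity
  linarith

/-- **extreme values of the sums of consecutive gaps** -/
theorem extremal (RH : RiemannHypothesis) {ε : ℝ} (hε : 0 < ε) : ∀ᶠ r : ℕ in atTop,
    ∀ᶠ N : ℕ in atTop, (({n : ℕ | 1 ≤ n ∧ n ≤ N ∧ ¬ Fin' ε r n}.ncard : ℕ) : ℝ) ≤ ε * N := by
  obtain ⟨C, hC, hbad⟩ := bad_count RH
  set e := min ε (1 / 8) with he
  have he0 : 0 < e := lt_min hε (by norm_num)
  have heε : e ≤ ε := min_le_left _ _
  have he8 : e ≤ 1 / 8 := min_le_right _ _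
  set q := ε / (64 * C) with hq
  have hq0 : 0 < q := by positivity
  filter_upwards [leb (rhs_of RH) (by positivity : 0 < e / 8) (by linarith)
    (by positivity : 0 < q ^ 2), transfer RH he0 he8, nlog.eventually_ge_atTop 0] with r h1 h2 h3
  apply all_bad hε
  have h4 := hbad q hq0 (Pt (e / 8) r) h1 (Fin' e r) h2
  filter_upwards [h4, eventually_ge_atTop 1] with T h5 hT1
  have e1 : C * q = ε / 64 := by rw [hq]; field_simp
  rw [e1] at h5
  refine le_trans (Finset.sum_le_sum fun n _ => ?_) h5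
  unfold idc
  by_cases hF : Fin' e r n
  · have hF' : Fin' ε r n := by
      obtain ⟨a1, ⟨k, hk, a2⟩, ⟨k', hk', a3⟩⟩ := hF
      refine ⟨fun k hk => (a1 k hk).trans ?_, ⟨k, hk, le_trans ?_ a2⟩, ⟨k', hk', a3.trans ?_⟩⟩
      · gcongr
      · gcongr
      · have : (1 / Real.pi - ε) * Real.log r ≤ (1 / Real.pi - e) * Real.log r := by gcongr
        linarith
    rw [if_neg (not_not.2 hF'), if_neg (not_not.2 hF)]
  · rw [if_pos hF]
    split_ifs <;> norm_num

end Pool.Agent.H478.EX
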