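import Pool.Agent.H478.EX1
import Mathlib.Analysis.SpecialFunctions.SmoothTransition

/-! Smooth test functions; the band statistics. -/

open Finset Complex MeasureTheory Filter Topology

namespace Pool.Agent.H478.EX

open Pool.Agent.H478.CW
open Pool.Agent.R321.FA
open SP (ZZ mu Mk RHs)
open H370.A2 (RR evp evp_zero)

/-- two integrations by parts -/
lemma ibp2 {f : ℝ → ℝ} (hf : ContDiff ℝ 2 f) {μ : ℝ} (h0 : f μ = 0) (h0' : f (-μ) = 0)
    (h1 : deriv f μ = 0) (h1' : deriv f (-μ) = 0) {y : ℝ} (hy : y ≠ 0) :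
    ∫ α in (-μ)..μ, f α * Real.cos (y * α) =
      -(1 / y ^ 2) * ∫ α in (-μ)..μ, deriv (deriv f) α * Real.cos (y * α) := by
  have hd1 : ∀ x, HasDerivAt f (deriv f x) x := fun x =>
    (hf.differentiable (by norm_num)).differentiableAt.hasDerivAt
  have hf' : ContDiff ℝ 1 (deriv f) := by
    have h2 : ContDiff ℝ (1 + 1) f := by rw [one_add_one_eq_two]; exact hf
    exact (contDiff_succ_iff_deriv.1 h2).2.2
  have hd2 : ∀ x, HasDerivAt (deriv f) (deriv (deriv f) x) x := fun x =>
    (hf'.differentiable (by norm_num)).differentiableAt.hasDerivAt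
  have hc2 : Continuous (deriv (deriv f)) := hf'.continuous_deriv (by norm_num)
  have hs : ∀ x, HasDerivAt (fun α => Real.sin (y * α) / y) (Real.cos (y * x)) x := by
    intro x
    have h := ((Real.hasDerivAt_sin (y * x)).comp x ((hasDerivAt_id x).const_mul y)).div_const y
    have e : Real.cos (y * x) = Real.cos (y * x) * (y * 1) / y := by field_simp
    rw [e]
    exact h
  have hcs : ∀ x, HasDerivAt (fun α => -(Real.cos (y * α) / y)) (Real.sin (y * x)) x := by
    intro x
    have h := (((Real.hasDerivAt_cos (y * x)).comp x ((hasDerivAt_id x).const_mul y)).div_const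
      y).neg
    have e : Real.sin (y * x) = -(-Real.sin (y * x) * (y * 1) / y) := by field_simp
    rw [e]
    exact h
  have e1 := intervalIntegral.integral_mul_deriv_eq_deriv_mul (a := -μ) (b := μ) (u := f)
    (v := fun α => Real.sin (y * α) / y) (u' := deriv f) (v' := fun α => Real.cos (y * α))
    (fun x _ => hd1 x) (fun x _ => hs x) (hf'.continuous.intervalIntegrable _ _)
    ((by fun_prop : Continuous fun α => Real.cos (y * α)).intervalIntegrable _ _)
  have e2 := intervalIntegral.integral_mul_deriv_eq_deriv_mul (a := -μ) (b := μ) (u := deriv f)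
    (v := fun α => -(Real.cos (y * α) / y)) (u' := deriv (deriv f))
    (v' := fun α => Real.sin (y * α))
    (fun x _ => hd2 x) (fun x _ => hcs x) (hc2.intervalIntegrable _ _)
    ((by fun_prop : Continuous fun α => Real.sin (y * α)).intervalIntegrable _ _)
  rw [e1, h0, h0']
  have e3 : (∫ x in (-μ)..μ, deriv f x * (Real.sin (y * x) / y)) =
      1 / y * ∫ x in (-μ)..μ, deriv f x * Real.sin (y * x) := by
    rw [← intervalIntegral.integral_const_mul]
    congr 1
    funext x
    ring
  rw [e3, e2, h1, h1']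
  have e4 : (∫ x in (-μ)..μ, deriv (deriv f) x * -(Real.cos (y * x) / y)) =
      -(1 / y) * ∫ x in (-μ)..μ, deriv (deriv f) x * Real.cos (y * x) := by
    rw [← intervalIntegral.integral_const_mul]
    congr 1
    funext x
    ring
  rw [e4]
  field_simp
  ring

/-- smooth test functions are admissible -/
theorem adm_C2 {f : ℝ → ℝ} {μ : ℝ} (hμ : 0 < μ) (hf : ContDiff ℝ 2 f) (he : ∀ x, f (-x) = f x)
    (hz : ∀ x, μ ≤ |x| → f x = 0) : Adm f μ := by
  have hsupp : HasCompactSupport f := by
    apply HasCompactSupport.intro (isCompact_Icc (a := -μ) (b := μ))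
    intro x hx
    apply hz
    by_contra hcon
    push Not at hcon
    exact hx ⟨(abs_lt.1 hcon).1.le, (abs_lt.1 hcon).2.le⟩
  obtain ⟨K, hK⟩ := ContDiff.lipschitzWith_of_hasCompactSupport (𝕂 := ℝ) hsupp hf (by norm_num)
  obtain ⟨B, hB⟩ := hsupp.exists_bound_of_continuous hf.continuous
  have hf' : ContDiff ℝ 1 (deriv f) := by
    have h2 : ContDiff ℝ (1 + 1) f := by rw [one_add_one_eq_two]; exact hf
    exact (contDiff_succ_iff_deriv.1 h2).2.2
  have hc2 : Continuous (deriv (deriv f)) := hf'.continuous_deriv (by norm_num)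
  obtain ⟨B2, hB2⟩ := (hsupp.deriv.deriv).exists_bound_of_continuous hc2
  have hB0 : 0 ≤ B := (norm_nonneg _).trans (hB 0)
  have hB20 : 0 ≤ B2 := (norm_nonneg _).trans (hB2 0)
  -- vanishing derivative at the boundary
  have hdz : ∀ x : ℝ, μ < |x| → deriv f x = 0 := by
    intro x hx
    have : f =ᶠ[𝓝 x] fun _ => 0 := by
      have h1 : {y : ℝ | μ < |y|} ∈ 𝓝 x := (isOpen_lt continuous_const continuous_abs).mem_nhds hx
      filter_upwards [h1] with y hy
      exact hz y hy.le
    rw [this.deriv_eq]; simp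
  have hd1 : deriv f μ = 0 := by
    have h1 : Tendsto (fun n : ℕ => deriv f (μ + 1 / ((n : ℝ) + 1))) atTop (𝓝 (deriv f μ)) := by
      have h2 := tendsto_one_div_add_atTop_nhds_zero_nat (𝕜 := ℝ)
      have h3 := h2.const_add μ
      rw [add_zero] at h3
      exact (hf'.continuous.tendsto μ).comp h3
    have h4 : (fun n : ℕ => deriv f (μ + 1 / ((n : ℝ) + 1))) = fun _ => 0 := by
      funext n
      apply hdz
      have : (0 : ℝ) < 1 / ((n : ℝ) + 1) := by positivity
      rw [abs_of_pos (by linarith)]
      linarith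
    rw [h4] at h1
    exact (tendsto_nhds_unique h1 tendsto_const_nhds)
  have hd1' : deriv f (-μ) = 0 := by
    have h1 : Tendsto (fun n : ℕ => deriv f (-μ - 1 / ((n : ℝ) + 1))) atTop (𝓝 (deriv f (-μ))) := by
      have h2 := tendsto_one_div_add_atTop_nhds_zero_nat (𝕜 := ℝ)
      have h3 := (tendsto_const_nhds (x := -μ)).sub h2
      rw [sub_zero] at h3
      exact (hf'.continuous.tendsto (-μ)).comp h3
    have h4 : (fun n : ℕ => deriv f (-μ - 1 / ((n : ℝ) + 1))) = fun _ => 0 := by
      funext n
      apply hdz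
      have : (0 : ℝ) < 1 / ((n : ℝ) + 1) := by positivity
      rw [abs_of_neg (by linarith)]
      linarith
    rw [h4] at h1
    exact (tendsto_nhds_unique h1 tendsto_const_nhds)
  refine ⟨hf.continuous, he, hz, ⟨K, fun x y => ?_⟩, ⟨B, hB⟩, ⟨4 * μ * B + 4 * μ * B2, fun x => ?_⟩⟩
  · have := hK.dist_le_mul x y
    rwa [Real.dist_eq, Real.dist_eq] at this
  · set y := 2 * Real.pi * x with hy
    have e0 : RR f μ x = ∫ α in (-μ)..μ, f α * Real.cos (y * α) := by
      unfold H370.A2.RR
      congr 1
      funext α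
      rw [hy]
      congr 2
      ring
    have hb1 : |RR f μ x| ≤ 2 * μ * B := by
      rw [e0]
      have := intervalIntegral.norm_integral_le_of_norm_le_const (a := -μ) (b := μ) (C := B)
        (f := fun α => f α * Real.cos (y * α)) (by
        intro α _
        rw [norm_mul]
        calc ‖f α‖ * ‖Real.cos (y * α)‖ ≤ B * 1 := by
              apply mul_le_mul (hB α) _ (norm_nonneg _) hB0
              rw [Real.norm_eq_abs]; exact Real.abs_cos_le_one _
          _ = B := mul_one B)
      rw [Real.norm_eq_abs, show μ - -μ = 2 * μ by ring, abs_of_pos (by linarith : 0 < 2 * μ)] at this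
      linarith
    have hb2 : y ^ 2 * |RR f μ x| ≤ 2 * μ * B2 := by
      rcases eq_or_ne y 0 with h | h
      · rw [h]
        have : 0 ≤ 2 * μ * B2 := by positivity
        simpa using this
      · rw [e0, ibp2 hf (hz μ (le_abs_self μ)) (hz (-μ) (by rw [abs_neg]; exact le_abs_self μ)) hd1
          hd1' h, abs_mul, abs_neg, abs_of_pos (by positivity : 0 < 1 / y ^ 2)]
        have := intervalIntegral.norm_integral_le_of_norm_le_const (a := -μ) (b := μ) (C := B2)
          (f := fun α => deriv (deriv f) α * Real.cos (y * α)) (by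
          intro α _
          rw [norm_mul]
          calc ‖deriv (deriv f) α‖ * ‖Real.cos (y * α)‖ ≤ B2 * 1 := by
                apply mul_le_mul (hB2 α) _ (norm_nonneg _) hB20
                rw [Real.norm_eq_abs]; exact Real.abs_cos_le_one _
            _ = B2 := mul_one B2)
        rw [Real.norm_eq_abs, show μ - -μ = 2 * μ by ring,
          abs_of_pos (by linarith : 0 < 2 * μ)] at this
        have h2 : 0 < y ^ 2 := by positivity
        calc y ^ 2 * (1 / y ^ 2 * |∫ α in (-μ)..μ, deriv (deriv f) α * Real.cos (y * α)|) =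
            |∫ α in (-μ)..μ, deriv (deriv f) α * Real.cos (y * α)| := by field_simp
          _ ≤ _ := by linarith
    have h3 : (1 + |y|) ^ (-2 : ℝ) = ((1 + |y|) ^ 2)⁻¹ := rp2 y
    rw [h3, ← div_eq_mul_inv, le_div_iff₀ (by positivity)]
    have h4 : (1 + |y|) ^ 2 ≤ 2 * (1 + y ^ 2) := by
      nlinarith [sq_nonneg (1 - |y|), sq_abs y]
    have h5 := abs_nonneg (RR f μ x)
    calc |RR f μ x| * (1 + |y|) ^ 2 ≤ |RR f μ x| * (2 * (1 + y ^ 2)) := by gcongr
      _ = 2 * |RR f μ x| + 2 * (y ^ 2 * |RR f μ x|) := by ring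
      _ ≤ _ := by linarith

/-! ### bands -/

/-- the band cutoff -/
noncomputable def chi (b b' v : ℝ) : ℝ :=
  Real.smoothTransition (v / b - 1) * Real.smoothTransition (2 - 2 * v / b')

lemma chi_nonneg (b b' v : ℝ) : 0 ≤ chi b b' v :=
  mul_nonneg (Real.smoothTransition.nonneg _) (Real.smoothTransition.nonneg _)

lemma chi_le (b b' v : ℝ) : chi b b' v ≤ 1 :=
  mul_le_one₀ (Real.smoothTransition.le_one _) (Real.smoothTransition.nonneg _)
    (Real.smoothTransition.le_one _)

lemma chi_low {b b' v : ℝ} (hb : 0 < b) (h : v ≤ b) : chi b b' v = 0 := by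
  unfold chi
  rw [Real.smoothTransition.zero_of_nonpos, zero_mul]
  rw [sub_nonpos, div_le_one hb]; exact h

lemma chi_high {b b' v : ℝ} (hb' : 0 < b') (h : b' ≤ v) : chi b b' v = 0 := by
  unfold chi
  rw [Real.smoothTransition.zero_of_nonpos (x := 2 - 2 * v / b'), mul_zero]
  rw [sub_nonpos, le_div_iff₀ hb']; linarith

lemma chi_one {b b' v : ℝ} (hb : 0 < b) (hb' : 0 < b') (h1 : 2 * b ≤ v) (h2 : v ≤ b' / 2) :
    chi b b' v = 1 := by
  unfold chi
  rw [Real.smoothTransition.one_of_one_le, Real.smoothTransition.one_of_one_le, one_mul]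
  · have : 2 * v / b' ≤ 1 := by rw [div_le_one hb']; linarith
    linarith
  · have : 2 ≤ v / b := by rw [le_div_iff₀ hb]; linarith
    linarith

lemma chi_smooth (b b' : ℝ) : ContDiff ℝ 2 (chi b b') := by
  unfold chi
  apply ContDiff.mul
  · exact (Real.smoothTransition.contDiff (n := 2)).comp (by fun_prop)
  · exact (Real.smoothTransition.contDiff (n := 2)).comp (by fun_prop)

/-- the shift -/
noncomputable def dB (b' : ℝ) : ℝ := 1 / (4 * b')

/-- the test function of the band -/
noncomputable def gB (b b' v : ℝ) : ℝ :=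
  chi b b' |v| / (4 * Real.pi * v * Real.sin (2 * Real.pi * v * dB b'))

lemma gB_even (b b' v : ℝ) : gB b b' (-v) = gB b b' v := by
  unfold gB
  rw [abs_neg]
  congr 1
  rw [show 2 * Real.pi * -v * dB b' = -(2 * Real.pi * v * dB b') by ring, Real.sin_neg]
  ring

lemma gB_zero {b b' μ : ℝ} (hb' : 0 < b') (h : b' ≤ μ) (v : ℝ) (hv : μ ≤ |v|) : gB b b' v = 0 := by
  unfold gB
  rw [chi_high hb' (h.trans hv), zero_div]

lemma gB_smooth {b b' : ℝ} (hb : 0 < b) (hbb : b < b') : ContDiff ℝ 2 (gB b b') := by
  have hb' : 0 < b' := hb.trans hbb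
  rw [contDiff_iff_contDiffAt]
  intro v
  rcases lt_or_ge |v| b with h | h
  · have : gB b b' =ᶠ[𝓝 v] fun _ => 0 := by
      have h1 : {y : ℝ | |y| < b} ∈ 𝓝 v := (isOpen_lt continuous_abs continuous_const).mem_nhds h
      filter_upwards [h1] with y hy
      unfold gB
      rw [chi_low hb (le_of_lt hy), zero_div]
    exact contDiffAt_const.congr_of_eventuallyEq this
  · rcases lt_or_ge b' |v| with h' | h'
    · have : gB b b' =ᶠ[𝓝 v] fun _ => 0 := by
        have h1 : {y : ℝ | b' < |y|} ∈ 𝓝 v := (isOpen_lt continuous_const continuous_abs).mem_nhds h'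
        filter_upwards [h1] with y hy
        unfold gB
        rw [chi_high hb' (le_of_lt hy), zero_div]
      exact contDiffAt_const.congr_of_eventuallyEq this
    · have hv0 : v ≠ 0 := by
        intro h0
        rw [h0, abs_zero] at h
        linarith
      have hpi := Real.pi_pos
      have hs : Real.sin (2 * Real.pi * v * dB b') ≠ 0 := by
        have e : |2 * Real.pi * v * dB b'| = 2 * Real.pi * |v| * dB b' := by
          unfold dB
          rw [abs_mul, abs_mul, abs_of_pos (by positivity : 0 < 2 * Real.pi),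
            abs_of_pos (by positivity : 0 < 1 / (4 * b'))]
        have h1 : 0 < |2 * Real.pi * v * dB b'| := by
          rw [e]; unfold dB
          have := abs_pos.2 hv0
          positivity
        have h2 : |2 * Real.pi * v * dB b'| < Real.pi := by
          rw [e]; unfold dB
          have : 2 * Real.pi * |v| * (1 / (4 * b')) = Real.pi * (|v| / (2 * b')) := by
            field_simp
            ring
          rw [this]
          have h3 : |v| / (2 * b') < 1 := by
            rw [div_lt_one (by positivity)]; linarith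
          nlinarith
        intro h0
        have h3 : Real.sin |2 * Real.pi * v * dB b'| = 0 := by
          rcases abs_cases (2 * Real.pi * v * dB b') with ⟨e1, -⟩ | ⟨e1, -⟩
          · rw [e1, h0]
          · rw [e1, Real.sin_neg, h0, neg_zero]
        have := Real.sin_pos_of_pos_of_lt_pi h1 h2
        linarith
      unfold gB
      apply ContDiffAt.div
      · exact ((chi_smooth b b').contDiffAt).comp v (contDiffAt_abs hv0)
      · apply ContDiff.contDiffAt
        fun_prop
      · have : 4 * Real.pi * v ≠ 0 := by positivity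
        exact mul_ne_zero this hs

lemma gB_adm {b b' μ : ℝ} (hb : 0 < b) (hbb : b < b') (h : b' ≤ μ) : Adm (gB b b') μ :=
  adm_C2 (by linarith) (gB_smooth hb hbb) (gB_even b b') (gB_zero (by linarith) h)

/-- the band statistic -/
noncomputable def Yl (b b' : ℝ) : List Ent := [⟨1, gB b b', dB b'⟩, ⟨-1, gB b b', -dB b'⟩]

lemma Yl_good {b b' μ : ℝ} (hb : 0 < b) (hbb : b < b') (h : b' ≤ μ) : Good (Yl b b') μ := by
  intro e he
  unfold Yl at he
  simp only [List.mem_cons, List.not_mem_nil, or_false] at he
  rcases he with rfl | rfl <;> exact gB_adm hb hbb h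

/-- the transform of the band statistic -/
lemma Yl_tf {b b' v : ℝ} (hb : 0 < b) (hbb : b < b') (hv : 0 ≤ v) :
    tf (Yl b b') v = I * ((chi b b' v / (2 * Real.pi * v) : ℝ) : ℂ) := by
  have hb' : 0 < b' := hb.trans hbb
  have hpi := Real.pi_pos
  unfold tf Yl
  simp only [List.map_cons, List.map_nil, List.sum_cons, List.sum_nil, add_zero]
  have e1 : (((1 : ℝ) * gB b b' v : ℝ) : ℂ) * cexp (((2 * Real.pi * dB b' * v : ℝ) : ℂ) * I) +
      (((-1 : ℝ) * gB b b' v : ℝ) : ℂ) * cexp (((2 * Real.pi * -dB b' * v : ℝ) : ℂ) * I) =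
      I * ((gB b b' v * (2 * Real.sin (2 * Real.pi * v * dB b')) : ℝ) : ℂ) := by
    have h1 := Complex.two_sin ((2 * Real.pi * dB b' * v : ℝ) : ℂ)
    have h2 : cexp (((2 * Real.pi * -dB b' * v : ℝ) : ℂ) * I) =
        cexp (-((2 * Real.pi * dB b' * v : ℝ) : ℂ) * I) := by
      congr 1; push_cast; ring
    rw [h2]
    have h3 : ((Real.sin (2 * Real.pi * v * dB b') : ℝ) : ℂ) =
        Complex.sin ((2 * Real.pi * dB b' * v : ℝ) : ℂ) := by
      rw [← Complex.ofReal_sin]; congr 2; ring
    push_cast at h1 h3 ⊢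
    rw [h3]
    have h4 : I * I = -1 := Complex.I_mul_I
    linear_combination (-I * (gB b b' v : ℂ)) * h1 + (gB b b' v : ℂ) *
      (cexp (2 * Real.pi * dB b' * v * I) - cexp (-(2 * Real.pi * dB b' * v) * I)) * h4
  rw [e1]
  congr 2
  unfold gB
  rw [abs_of_nonneg hv]
  rcases le_or_gt v b with h | h
  · rw [chi_low hb h]; simp
  · rcases le_or_gt b' v with h' | h'
    · rw [chi_high hb' h']; simp
    · have hv0 : 0 < v := by linarith
      have hs : Real.sin (2 * Real.pi * v * dB b') ≠ 0 := by
        apply ne_of_gt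
        apply Real.sin_pos_of_pos_of_lt_pi
        · unfold dB; positivity
        · unfold dB
          have : 2 * Real.pi * v * (1 / (4 * b')) = Real.pi * (v / (2 * b')) := by
            field_simp
            ring
          rw [this]
          have h3 : v / (2 * b') < 1 := by
            rw [div_lt_one (by positivity)]; linarith
          nlinarith
      generalize Real.sin (2 * Real.pi * v * dB b') = s at hs
      generalize chi b b' v = c
      field_simp
      norm_num

end Pool.Agent.H478.EX
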