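import Pool.Agent.H478.EX2

/-! Covariances of the band statistics. -/

open Finset Complex MeasureTheory Filter Topology

namespace Pool.Agent.H478.EX

open Pool.Agent.H478.CW
open Pool.Agent.R321.FA
open SP (ZZ mu Mk RHs)
open H370.A2 (RR evp evp_zero)

/-- the spectral density of a band -/
noncomputable def sd (b b' v : ℝ) : ℝ := chi b b' v ^ 2 / v

lemma sd_low {b b' v : ℝ} (hb : 0 < b) (h : v ≤ b) : sd b b' v = 0 := by
  unfold sd; rw [chi_low hb h]; simp

lemma sd_high {b b' v : ℝ} (hb' : 0 < b') (h : b' ≤ v) : sd b b' v = 0 := by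
  unfold sd; rw [chi_high hb' h]; simp

lemma sd_nonneg {b b' v : ℝ} (hv : 0 ≤ v) : 0 ≤ sd b b' v := div_nonneg (sq_nonneg _) hv

lemma sd_cont {b b' : ℝ} (hb : 0 < b) : Continuous (sd b b') := by
  rw [continuous_iff_continuousAt]
  intro v
  rcases lt_or_ge v b with h | h
  · have : sd b b' =ᶠ[𝓝 v] fun _ => 0 := by
      have h1 : {y : ℝ | y < b} ∈ 𝓝 v := (isOpen_lt continuous_id continuous_const).mem_nhds h
      filter_upwards [h1] with y hy
      exact sd_low hb (le_of_lt hy)
    exact (continuousAt_const).congr this.symm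
  · unfold sd
    apply ContinuousAt.div
    · exact ((chi_smooth b b').continuous.pow 2).continuousAt
    · exact continuousAt_id
    · linarith

lemma sd_int {b b' : ℝ} (hb : 0 < b) (hbb : b < b') (hb1 : b' ≤ 1) {f : ℝ → ℝ} (hf : Continuous f) :
    ∫ v in (0 : ℝ)..1, sd b b' v * f v = ∫ v in b..b', sd b b' v * f v := by
  have hb' : 0 < b' := hb.trans hbb
  have hc : Continuous fun v => sd b b' v * f v := (sd_cont hb).mul hf
  have hi : ∀ x y : ℝ, IntervalIntegrable (fun v => sd b b' v * f v) volume x y :=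
    fun x y => hc.intervalIntegrable _ _
  rw [← intervalIntegral.integral_add_adjacent_intervals (hi 0 b) (hi b 1),
    ← intervalIntegral.integral_add_adjacent_intervals (hi b b') (hi b' 1)]
  have h1 : ∫ v in (0 : ℝ)..b, sd b b' v * f v = 0 := by
    rw [intervalIntegral.integral_congr (g := fun _ => 0), intervalIntegral.integral_zero]
    intro v hv
    rw [Set.uIcc_of_le hb.le] at hv
    show sd b b' v * f v = 0
    rw [sd_low hb hv.2, zero_mul]
  have h2 : ∫ v in b'..(1 : ℝ), sd b b' v * f v = 0 := by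
    rw [intervalIntegral.integral_congr (g := fun _ => 0), intervalIntegral.integral_zero]
    intro v hv
    rw [Set.uIcc_of_le hb1] at hv
    show sd b b' v * f v = 0
    rw [sd_high hb' hv.1, zero_mul]
  rw [h1, h2]; ring

/-- the covariance at distance `D` -/
noncomputable def cvf (b b' D : ℝ) : ℝ :=
  1 / (2 * Real.pi ^ 2) * ∫ v in (0 : ℝ)..1, sd b b' v * Real.cos (2 * Real.pi * D * v)

lemma cvf_zero (b b' : ℝ) : cvf b b' 0 = 1 / (2 * Real.pi ^ 2) * ∫ v in (0 : ℝ)..1, sd b b' v := by
  unfold cvf; simp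

lemma cvf_nonneg (b b' : ℝ) : 0 ≤ cvf b b' 0 := by
  rw [cvf_zero]
  apply mul_nonneg (by positivity)
  apply intervalIntegral.integral_nonneg (by norm_num)
  intro v hv
  exact sd_nonneg hv.1

lemma int_inv' {b b' : ℝ} (hb : 0 < b) (hbb : b ≤ b') : ∫ v in b..b', 1 / v = Real.log (b' / b) := by
  rw [integral_one_div_of_pos hb (by linarith)]

lemma inv_int {b b' : ℝ} (hb : 0 < b) (hbb : b ≤ b') :
    IntervalIntegrable (fun v : ℝ => 1 / v) volume b b' := by
  apply ContinuousOn.intervalIntegrable
  rw [Set.uIcc_of_le hbb]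
  apply ContinuousOn.div continuousOn_const continuousOn_id
  intro x hx
  show x ≠ 0
  have := hx.1
  linarith

lemma cvf_le {b b' : ℝ} (hb : 0 < b) (hbb : b < b') (hb1 : b' ≤ 1) :
    cvf b b' 0 ≤ 1 / (2 * Real.pi ^ 2) * Real.log (b' / b) := by
  rw [cvf_zero]
  apply mul_le_mul_of_nonneg_left _ (by positivity)
  have := sd_int hb hbb hb1 (f := fun _ => 1) continuous_const
  simp only [mul_one] at this
  rw [this, ← int_inv' hb hbb.le]
  apply intervalIntegral.integral_mono_on hbb.le ((sd_cont hb).intervalIntegrable _ _)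
    (inv_int hb hbb.le)
  intro v hv
  have hv0 : 0 < v := by linarith [hv.1]
  unfold sd
  have h1 := chi_nonneg b b' v
  have h2 := chi_le b b' v
  gcongr
  nlinarith

lemma cvf_ge {b b' : ℝ} (hb : 0 < b) (hbb : 4 * b ≤ b') (hb1 : b' ≤ 1) :
    1 / (2 * Real.pi ^ 2) * (Real.log (b' / b) - Real.log 4) ≤ cvf b b' 0 := by
  rw [cvf_zero]
  apply mul_le_mul_of_nonneg_left _ (by positivity)
  have hb' : 0 < b' := by linarith
  have h1 : ∫ v in (2 * b)..(b' / 2), 1 / v = Real.log (b' / b) - Real.log 4 := by
    rw [int_inv' (by linarith) (by linarith), ← Real.log_div (by positivity) (by norm_num)]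
    congr 1
    field_simp
    norm_num
  rw [← h1]
  calc ∫ v in (2 * b)..(b' / 2), 1 / v = ∫ v in (2 * b)..(b' / 2), sd b b' v := by
        apply intervalIntegral.integral_congr
        intro v hv
        rw [Set.uIcc_of_le (by linarith)] at hv
        show 1 / v = sd b b' v
        unfold sd
        rw [chi_one hb hb' hv.1 hv.2]; simp
    _ ≤ ∫ v in (0 : ℝ)..1, sd b b' v := by
        apply intervalIntegral.integral_mono_interval (by linarith) (by linarith) (by linarith)
        · rw [EventuallyLE, ae_restrict_iff' measurableSet_Ioc]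
          exact Eventually.of_forall fun v hv => sd_nonneg hv.1.le
        · exact (sd_cont hb).intervalIntegrable _ _

/-- the covariances decay -/
theorem cvf_abs {b b' D : ℝ} (hb : 0 < b) (hbb : b < b') (hb1 : b' ≤ 1) (hD : 0 < D) :
    |cvf b b' D| ≤ 1 / (D * b) := by
  have hb' : 0 < b' := hb.trans hbb
  have hpi := Real.pi_pos
  have hpi3 := Real.pi_gt_three
  unfold cvf
  rw [sd_int hb hbb hb1 (by fun_prop : Continuous fun v => Real.cos (2 * Real.pi * D * v))]
  -- the two factors
  set s1 : ℝ → ℝ := fun v => Real.smoothTransition (v / b - 1) ^ 2 with hs1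
  set s2 : ℝ → ℝ := fun v => Real.smoothTransition (2 - 2 * v / b') ^ 2 with hs2
  have hs1c : ContDiff ℝ 1 s1 := by
    rw [hs1]
    exact ((Real.smoothTransition.contDiff (n := 1)).comp (by fun_prop)).pow 2
  have hs2c : ContDiff ℝ 1 s2 := by
    rw [hs2]
    exact ((Real.smoothTransition.contDiff (n := 1)).comp (by fun_prop)).pow 2
  have hs1m : Monotone s1 := by
    intro x y hxy
    simp only [hs1]
    apply pow_le_pow_left₀ (Real.smoothTransition.nonneg _)
    apply Real.smoothTransition.monotone
    have := div_le_div_of_nonneg_right hxy hb.le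
    linarith
  have hs2m : Antitone s2 := by
    intro x y hxy
    simp only [hs2]
    apply pow_le_pow_left₀ (Real.smoothTransition.nonneg _)
    apply Real.smoothTransition.monotone
    have : 2 * x / b' ≤ 2 * y / b' := by gcongr
    linarith
  have h10 : ∀ v, 0 ≤ s1 v ∧ s1 v ≤ 1 := fun v => ⟨sq_nonneg _, by
    have a := Real.smoothTransition.nonneg (v / b - 1)
    have c := Real.smoothTransition.le_one (v / b - 1)
    simp only [hs1]
    nlinarith⟩
  have h20 : ∀ v, 0 ≤ s2 v ∧ s2 v ≤ 1 := fun v => ⟨sq_nonneg _, by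
    have a := Real.smoothTransition.nonneg (2 - 2 * v / b')
    have c := Real.smoothTransition.le_one (2 - 2 * v / b')
    simp only [hs2]
    nlinarith⟩
  have hd1 : ∀ v, HasDerivAt s1 (deriv s1 v) v := fun v =>
    (hs1c.differentiable (by norm_num)).differentiableAt.hasDerivAt
  have hd2 : ∀ v, HasDerivAt s2 (deriv s2 v) v := fun v =>
    (hs2c.differentiable (by norm_num)).differentiableAt.hasDerivAt
  have hc1 : Continuous (deriv s1) := hs1c.continuous_deriv (by norm_num)
  have hc2 : Continuous (deriv s2) := hs2c.continuous_deriv (by norm_num)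
  have hn1 : ∀ v, 0 ≤ deriv s1 v := fun v => hs1m.deriv_nonneg
  have hn2 : ∀ v, deriv s2 v ≤ 0 := fun v => by
    have h := (hs2m.neg : Monotone (fun v => -s2 v)).deriv_nonneg (x := v)
    have h3 : deriv (fun v => -s2 v) v = -deriv s2 v := (hd2 v).neg.deriv
    rw [h3] at h
    linarith
  have hsd : ∀ v, sd b b' v = s1 v * s2 v / v := by
    intro v
    unfold sd chi
    simp only [hs1, hs2]
    rw [mul_pow]
  set u' : ℝ → ℝ := fun v => ((deriv s1 v * s2 v + s1 v * deriv s2 v) * v - s1 v * s2 v * 1) / v ^ 2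
    with hu'
  have hu : ∀ v, v ∈ Set.uIcc b b' → HasDerivAt (sd b b') (u' v) v := by
    intro v hv
    rw [Set.uIcc_of_le hbb.le] at hv
    have hv0 : v ≠ 0 := by linarith [hv.1]
    have := ((hd1 v).mul (hd2 v)).div (hasDerivAt_id v) hv0
    have e : sd b b' = fun v => (s1 * s2) v / id v := by
      funext v; rw [hsd]; rfl
    rw [e]
    exact this
  have hv' : ∀ v, v ∈ Set.uIcc b b' → HasDerivAt (fun v => Real.sin (2 * Real.pi * D * v) /
      (2 * Real.pi * D)) (Real.cos (2 * Real.pi * D * v)) v := by
    intro v _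
    have h := ((Real.hasDerivAt_sin (2 * Real.pi * D * v)).comp v
      ((hasDerivAt_id v).const_mul (2 * Real.pi * D))).div_const (2 * Real.pi * D)
    have e : Real.cos (2 * Real.pi * D * v) =
      Real.cos (2 * Real.pi * D * v) * (2 * Real.pi * D * 1) / (2 * Real.pi * D) := by field_simp
    rw [e]
    exact h
  have hu'c : ContinuousOn u' (Set.uIcc b b') := by
    rw [Set.uIcc_of_le hbb.le]
    apply ContinuousOn.div
    · apply Continuous.continuousOn
      have a1 := hs1c.continuous
      have a2 := hs2c.continuous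
      fun_prop
    · fun_prop
    · intro x hx
      have : 0 < x := by linarith [hx.1]
      positivity
  have hui : IntervalIntegrable u' volume b b' := hu'c.intervalIntegrable
  have hparts := intervalIntegral.integral_mul_deriv_eq_deriv_mul hu hv' hui
    ((by fun_prop : Continuous fun v => Real.cos (2 * Real.pi * D * v)).intervalIntegrable _ _)
  rw [hparts, sd_low hb le_rfl, sd_high hb' le_rfl]
  -- total variation
  have hTV : ∫ v in b..b', |u' v| ≤ 3 / b := by
    have hi1 : IntervalIntegrable (deriv s1) volume b b' := hc1.intervalIntegrable _ _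
    have hi2 : IntervalIntegrable (deriv s2) volume b b' := hc2.intervalIntegrable _ _
    have hisq : IntervalIntegrable (fun v : ℝ => (v ^ 2)⁻¹) volume b b' := by
      apply ContinuousOn.intervalIntegrable
      rw [Set.uIcc_of_le hbb.le]
      apply ContinuousOn.inv₀ (by fun_prop)
      intro x hx
      have : 0 < x := by linarith [hx.1]
      positivity
    calc ∫ v in b..b', |u' v| ≤ ∫ v in b..b', (1 / b * deriv s1 v - 1 / b * deriv s2 v +
          (v ^ 2)⁻¹) := by
          apply intervalIntegral.integral_mono_on hbb.le hui.abs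
            (((hi1.const_mul _).sub (hi2.const_mul _)).add hisq)
          intro v hv
          have hv0 : 0 < v := by linarith [hv.1]
          have e : u' v = deriv s1 v * s2 v / v + s1 v * deriv s2 v / v -
              s1 v * s2 v * (v ^ 2)⁻¹ := by
            simp only [hu']
            field_simp
          have hbv : 1 / v ≤ 1 / b := one_div_le_one_div_of_le hb hv.1
          have a1 : 0 ≤ deriv s1 v * s2 v / v := by
            have := hn1 v
            have := (h20 v).1
            positivity
          have a2 : deriv s1 v * s2 v / v ≤ 1 / b * deriv s1 v := by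
            have b1 := hn1 v
            have b2 := h20 v
            calc deriv s1 v * s2 v / v = (deriv s1 v * s2 v) * (1 / v) := by ring
              _ ≤ (deriv s1 v * 1) * (1 / b) := by
                have := b2.1
                have := b2.2
                gcongr
              _ = _ := by ring
          have a3 : 0 ≤ s1 v * (-deriv s2 v) / v := by
            have := (h10 v).1
            have : 0 ≤ -deriv s2 v := by linarith [hn2 v]
            positivity
          have a4 : s1 v * (-deriv s2 v) / v ≤ -(1 / b * deriv s2 v) := by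
            have b1 : 0 ≤ -deriv s2 v := by linarith [hn2 v]
            have b2 := h10 v
            calc s1 v * (-deriv s2 v) / v = (s1 v * (-deriv s2 v)) * (1 / v) := by ring
              _ ≤ (1 * (-deriv s2 v)) * (1 / b) := by
                have := b2.1
                have := b2.2
                gcongr
              _ = _ := by ring
          have a5 : 0 ≤ s1 v * s2 v * (v ^ 2)⁻¹ := by
            have := (h10 v).1
            have := (h20 v).1
            positivity
          have a6 : s1 v * s2 v * (v ^ 2)⁻¹ ≤ (v ^ 2)⁻¹ := by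
            have b1 : s1 v * s2 v ≤ 1 := mul_le_one₀ (h10 v).2 (h20 v).1 (h20 v).2
            have b2 : 0 ≤ (v ^ 2)⁻¹ := by positivity
            nlinarith
          have e7 : s1 v * deriv s2 v / v = -(s1 v * (-deriv s2 v) / v) := by ring
          rw [e, e7, abs_le]
          constructor <;> linarith
      _ = 1 / b * (s1 b' - s1 b) - 1 / b * (s2 b' - s2 b) + (1 / b - 1 / b') := by
          rw [intervalIntegral.integral_add ((hi1.const_mul _).sub (hi2.const_mul _)) hisq,
            intervalIntegral.integral_sub (hi1.const_mul _) (hi2.const_mul _),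
            intervalIntegral.integral_const_mul, intervalIntegral.integral_const_mul,
            intervalIntegral.integral_eq_sub_of_hasDerivAt (fun v _ => hd1 v) hi1,
            intervalIntegral.integral_eq_sub_of_hasDerivAt (fun v _ => hd2 v) hi2]
          congr 1
          have hd3 : ∀ v ∈ Set.uIcc b b', HasDerivAt (fun v : ℝ => -v⁻¹) ((v ^ 2)⁻¹) v := by
            intro v hv
            rw [Set.uIcc_of_le hbb.le] at hv
            have hv0 : v ≠ 0 := by linarith [hv.1]
            have := (hasDerivAt_inv hv0).neg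
            rw [neg_neg] at this
            exact this
          rw [intervalIntegral.integral_eq_sub_of_hasDerivAt hd3 hisq]
          rw [one_div, one_div]; ring
      _ ≤ 3 / b := by
          have a1 := (h10 b').2
          have a2 := (h10 b).1
          have a3 := (h20 b').1
          have a4 := (h20 b).2
          have hb0 : 0 < 1 / b := by positivity
          have hb0' : 0 < 1 / b' := by positivity
          have : 1 / b * (s1 b' - s1 b) ≤ 1 / b * 1 := by
            apply mul_le_mul_of_nonneg_left _ hb0.le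
            linarith
          have : 1 / b * (-1) ≤ 1 / b * (s2 b' - s2 b) := by
            apply mul_le_mul_of_nonneg_left _ hb0.le
            linarith
          have : 3 / b = 3 * (1 / b) := by ring
          linarith
  have hI : |∫ x in b..b', u' x * (Real.sin (2 * Real.pi * D * x) / (2 * Real.pi * D))| ≤
      3 / b / (2 * Real.pi * D) := by
    refine (intervalIntegral.abs_integral_le_integral_abs hbb.le).trans ?_
    calc ∫ x in b..b', |u' x * (Real.sin (2 * Real.pi * D * x) / (2 * Real.pi * D))| ≤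
        ∫ x in b..b', |u' x| * (1 / (2 * Real.pi * D)) := by
          apply intervalIntegral.integral_mono_on hbb.le
          · apply IntervalIntegrable.abs
            apply ContinuousOn.intervalIntegrable
            exact hu'c.mul (by fun_prop)
          · exact hui.abs.mul_const _
          · intro v _
            have h5 : |Real.sin (2 * Real.pi * D * v) / (2 * Real.pi * D)| ≤
                1 / (2 * Real.pi * D) := by
              rw [abs_div, abs_of_pos (by positivity : 0 < 2 * Real.pi * D)]
              exact div_le_div_of_nonneg_right (Real.abs_sin_le_one _) (by positivity)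
            exact (abs_mul (u' v) _).le.trans (mul_le_mul_of_nonneg_left h5 (abs_nonneg _))
      _ = (∫ v in b..b', |u' v|) * (1 / (2 * Real.pi * D)) :=
          intervalIntegral.integral_mul_const _ _
      _ ≤ 3 / b * (1 / (2 * Real.pi * D)) := by gcongr
      _ = _ := by ring
  rw [zero_mul, zero_mul, sub_zero, zero_sub, abs_mul, abs_neg,
    abs_of_pos (by positivity : 0 < 1 / (2 * Real.pi ^ 2))]
  calc 1 / (2 * Real.pi ^ 2) * |∫ x in b..b', u' x * (Real.sin (2 * Real.pi * D * x) /
      (2 * Real.pi * D))| ≤ 1 / (2 * Real.pi ^ 2) * (3 / b / (2 * Real.pi * D)) := by gcongr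
    _ = 3 / (4 * Real.pi ^ 3) * (1 / (D * b)) := by field_simp; norm_num
    _ ≤ 1 * (1 / (D * b)) := by
        apply mul_le_mul_of_nonneg_right _ (by positivity)
        rw [div_le_one (by positivity)]
        have : 3 ^ 3 ≤ Real.pi ^ 3 := pow_le_pow_left₀ (by norm_num) hpi3.le 3
        linarith
    _ = _ := one_mul _

/-! ### bundles -/

/-- bundle of statistics -/
def bun (J : ℕ) (g : Fin J → List Ent) : List Ent := (List.finRange J).flatMap g

lemma stt_flat {α : Type*} (l : List α) (g : α → List Ent) (μ T t : ℝ) :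
    stt (l.flatMap g) μ T t = (l.map fun j => stt (g j) μ T t).sum := by
  induction l with
  | nil => simp [stt]
  | cons a l ih => rw [List.flatMap_cons, stt_append, ih]; simp

lemma tf_flat {α : Type*} (l : List α) (g : α → List Ent) (v : ℝ) :
    tf (l.flatMap g) v = (l.map fun j => tf (g j) v).sum := by
  induction l with
  | nil => simp [tf]
  | cons a l ih => rw [List.flatMap_cons, tf_append, ih]; simp

lemma stt_bun (J : ℕ) (g : Fin J → List Ent) (μ T t : ℝ) :
    stt (bun J g) μ T t = ∑ j, stt (g j) μ T t := by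
  unfold bun
  rw [stt_flat, Fin.sum_univ_def]

lemma tf_bun (J : ℕ) (g : Fin J → List Ent) (v : ℝ) : tf (bun J g) v = ∑ j, tf (g j) v := by
  unfold bun
  rw [tf_flat, Fin.sum_univ_def]

lemma Good.bun {J : ℕ} {g : Fin J → List Ent} {μ : ℝ} (h : ∀ j, Good (g j) μ) :
    Good (bun J g) μ := by
  intro e he
  unfold EX.bun at he
  rw [List.mem_flatMap] at he
  obtain ⟨j, -, hj⟩ := he
  exact h j e hj

/-- orthogonal sums -/
lemma norm_sq_disj {J : ℕ} (A : Fin J → ℂ) (h : ∀ i j, i ≠ j → A i = 0 ∨ A j = 0) :
    ‖∑ j, A j‖ ^ 2 = ∑ j, ‖A j‖ ^ 2 := by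
  by_cases h0 : ∀ j, A j = 0
  · simp [h0]
  · push Not at h0
    obtain ⟨j, hj⟩ := h0
    have h1 : ∀ i, i ≠ j → A i = 0 := fun i hi => (h i j hi).resolve_right hj
    rw [Finset.sum_eq_single j (fun i _ hi => h1 i hi) (fun hh => absurd (Finset.mem_univ j) hh),
      Finset.sum_eq_single j (fun i _ hi => by rw [h1 i hi]; simp)
        (fun hh => absurd (Finset.mem_univ j) hh)]

/-- two points in one band -/
noncomputable def pr (b b' x y ξ ξ' : ℝ) : List Ent :=
  scl ξ (trl x (Yl b b')) ++ scl ξ' (trl y (Yl b b'))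

lemma pr_good {b b' μ : ℝ} (hb : 0 < b) (hbb : b < b') (h : b' ≤ μ) (x y ξ ξ' : ℝ) :
    Good (pr b b' x y ξ ξ') μ :=
  (((Yl_good hb hbb h).trl x).scl ξ).append (((Yl_good hb hbb h).trl y).scl ξ')

lemma pr_tf {b b' v : ℝ} (hb : 0 < b) (hbb : b < b') (hv : 0 ≤ v) (x y ξ ξ' : ℝ) :
    tf (pr b b' x y ξ ξ') v = I * ((chi b b' v / (2 * Real.pi * v) : ℝ) : ℂ) *
      ((ξ : ℂ) * cexp (((2 * Real.pi * x * v : ℝ) : ℂ) * I) +
        (ξ' : ℂ) * cexp (((2 * Real.pi * y * v : ℝ) : ℂ) * I)) := by
  unfold pr
  rw [tf_append, tf_scl, tf_scl, tf_trl, tf_trl, Yl_tf hb hbb hv]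
  ring

lemma pr_norm {b b' v : ℝ} (hb : 0 < b) (hbb : b < b') (hv : 0 ≤ v) (x y ξ ξ' : ℝ) :
    v * ‖tf (pr b b' x y ξ ξ') v‖ ^ 2 = 1 / (4 * Real.pi ^ 2) * (sd b b' v *
      (ξ ^ 2 + ξ' ^ 2 + 2 * ξ * ξ' * Real.cos (2 * Real.pi * (x - y) * v))) := by
  have hpi := Real.pi_pos
  rw [pr_tf hb hbb hv, norm_mul, norm_mul, Complex.norm_I, one_mul, mul_pow, Complex.norm_real,
    Real.norm_eq_abs, sq_abs]
  have h1 := norm_comb (m := 2) ![ξ, ξ'] ![2 * Real.pi * x, 2 * Real.pi * y] v
  rw [Fin.sum_univ_two, Fin.sum_univ_two, Fin.sum_univ_two, Fin.sum_univ_two] at h1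
  simp only [Matrix.cons_val_zero, Matrix.cons_val_one] at h1
  rw [h1]
  have e1 : (2 * Real.pi * x - 2 * Real.pi * y) * v = 2 * Real.pi * (x - y) * v := by ring
  have e2 : (2 * Real.pi * y - 2 * Real.pi * x) * v = -(2 * Real.pi * (x - y) * v) := by ring
  rw [sub_self, sub_self, zero_mul, Real.cos_zero, e1, e2, Real.cos_neg]
  unfold sd
  rcases eq_or_lt_of_le hv with h | h
  · rw [← h]; simp
  · field_simp
    ring

/-- the variance of two points in each band -/
theorem kv_bun {J : ℕ} {b : ℕ → ℝ} (hb : 0 < b 0) (hbm : StrictMono b) (hb1 : b J ≤ 1)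
    (x y : ℝ) (ξ ξ' : Fin J → ℝ) :
    kv (bun J fun j => pr (b j) (b (j + 1)) x y (ξ j) (ξ' j)) =
      ∑ j : Fin J, ((ξ j ^ 2 + ξ' j ^ 2) * cvf (b j) (b (j + 1)) 0 +
        2 * ξ j * ξ' j * cvf (b j) (b (j + 1)) (x - y)) := by
  have hbp : ∀ j, 0 < b j := fun j => hb.trans_le (hbm.monotone (Nat.zero_le j))
  have hlt : ∀ j, b j < b (j + 1) := fun j => hbm (Nat.lt_succ_self j)
  have hpi := Real.pi_pos
  unfold kv
  have e1 : ∀ v ∈ Set.uIcc (0 : ℝ) 1, v * ‖tf (bun J fun j => pr (b j) (b (j + 1)) x y (ξ j) (ξ' j)) v‖ ^ 2 =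
      ∑ j : Fin J, (1 / (4 * Real.pi ^ 2) * (sd (b j) (b (j + 1)) v *
      (ξ j ^ 2 + ξ' j ^ 2 + 2 * ξ j * ξ' j * Real.cos (2 * Real.pi * (x - y) * v)))) := by
    intro v hv
    rw [Set.uIcc_of_le (by norm_num)] at hv
    rw [tf_bun, norm_sq_disj, Finset.mul_sum]
    · exact Finset.sum_congr rfl fun j _ => pr_norm (hbp j) (hlt j) hv.1 x y _ _
    · have key : ∀ i j : Fin J, i < j → tf (pr (b i) (b (i + 1)) x y (ξ i) (ξ' i)) v = 0 ∨
          tf (pr (b j) (b (j + 1)) x y (ξ j) (ξ' j)) v = 0 := by
        intro i j hij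
        rcases le_or_gt v (b j) with h | h
        · right
          rw [pr_tf (hbp j) (hlt j) hv.1, chi_low (hbp j) h]; simp
        · left
          have h2 : b (i + 1) ≤ b j := hbm.monotone (by exact_mod_cast hij)
          rw [pr_tf (hbp i) (hlt i) hv.1, chi_high (hbp _) (h2.trans h.le)]; simp
      intro i j hij
      rcases lt_or_gt_of_ne hij with h | h
      · exact key i j h
      · exact (key j i h).symm
  rw [intervalIntegral.integral_congr e1]
  have hc : ∀ j : Fin J, Continuous fun v => 1 / (4 * Real.pi ^ 2) * (sd (b j) (b (j + 1)) v *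
      (ξ j ^ 2 + ξ' j ^ 2 + 2 * ξ j * ξ' j * Real.cos (2 * Real.pi * (x - y) * v))) := by
    intro j
    have := sd_cont (b' := b (j + 1)) (hbp j)
    fun_prop
  rw [intervalIntegral.integral_finsetSum fun j _ => (hc j).intervalIntegrable _ _, Finset.mul_sum]
  refine Finset.sum_congr rfl fun j _ => ?_
  have hs := sd_cont (b' := b (j + 1)) (hbp j)
  have c1 : Continuous fun v => (ξ j ^ 2 + ξ' j ^ 2) * sd (b j) (b (j + 1)) v :=
    continuous_const.mul hs
  have c2 : Continuous fun v => 2 * ξ j * ξ' j * (sd (b j) (b (j + 1)) v *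
    Real.cos (2 * Real.pi * (x - y) * v)) := continuous_const.mul (hs.mul (by fun_prop))
  rw [intervalIntegral.integral_const_mul]
  have e2 : (∫ v in (0 : ℝ)..1, sd (b j) (b (j + 1)) v *
      (ξ j ^ 2 + ξ' j ^ 2 + 2 * ξ j * ξ' j * Real.cos (2 * Real.pi * (x - y) * v))) =
      (ξ j ^ 2 + ξ' j ^ 2) * (∫ v in (0 : ℝ)..1, sd (b j) (b (j + 1)) v) +
      2 * ξ j * ξ' j * ∫ v in (0 : ℝ)..1, sd (b j) (b (j + 1)) v *
        Real.cos (2 * Real.pi * (x - y) * v) := by
    rw [← intervalIntegral.integral_const_mul, ← intervalIntegral.integral_const_mul,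
      ← intervalIntegral.integral_add (c1.intervalIntegrable _ _) (c2.intervalIntegrable _ _)]
    congr 1
    funext v
    ring
  rw [e2, cvf_zero]
  unfold cvf
  field_simp
  ring

end Pool.Agent.H478.EX
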