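import Pool.Agent.H478.EX3
import Pool.Agent.H478.CW9

/-! Characteristic functions of the statistics; weights of Gaussian shape. -/

open Finset Complex MeasureTheory Filter Topology ProbabilityTheory

namespace Pool.Agent.H478.EX

open Pool.Agent.H478.CW
open Pool.Agent.R321.FA
open SP (ZZ mu Mk RHs)
open H370.A2 (RR evp evp_zero)

/-! ### the exponential series at negative numbers -/

/-- the remainder -/
noncomputable def rk (k : ℕ) (x : ℝ) : ℝ :=
  Real.exp (-x) - ∑ j ∈ Finset.range k, (-x) ^ j / (j.factorial : ℝ)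

lemma rk_zero (k : ℕ) : rk (k + 1) 0 = 0 := by
  unfold rk
  rw [Finset.sum_range_succ']
  simp

lemma rk_deriv (k : ℕ) (z : ℝ) : HasDerivAt (rk (k + 1)) (-rk k z) z := by
  have h1 : HasDerivAt (fun z : ℝ => -z) (-1) z := (hasDerivAt_id z).neg
  have h2 : HasDerivAt (fun z : ℝ => Real.exp (-z)) (Real.exp (-z) * (-1)) z := h1.exp
  have h3 : HasDerivAt (fun z : ℝ => ∑ j ∈ Finset.range (k + 1), (-z) ^ j /
      (j.factorial : ℝ)) (∑ j ∈ Finset.range (k + 1), ((j : ℝ) * (-z) ^ (j - 1) * (-1)) /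
      (j.factorial : ℝ)) z := by
    apply HasDerivAt.fun_sum
    intro j _
    exact (h1.fun_pow j).div_const _
  have h4 := h2.sub h3
  refine HasDerivAt.congr_deriv h4 ?_
  unfold rk
  rw [Finset.sum_range_succ', neg_sub]
  simp only [Nat.cast_zero, zero_mul, zero_div, add_zero]
  have : ∑ j ∈ Finset.range k, (((j + 1 : ℕ) : ℝ) * (-z) ^ (j + 1 - 1) * (-1)) /
      ((j + 1).factorial : ℝ) = - ∑ j ∈ Finset.range k, (-z) ^ j / (j.factorial : ℝ) := by
    rw [← Finset.sum_neg_distrib]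
    refine Finset.sum_congr rfl fun j _ => ?_
    rw [Nat.factorial_succ, Nat.add_sub_cancel]
    have h5 : (j.factorial : ℝ) ≠ 0 := by exact_mod_cast (Nat.factorial_ne_zero j)
    push_cast
    have h6 : (j : ℝ) + 1 ≠ 0 := by positivity
    field_simp
  rw [this]
  ring

lemma rk_le (k : ℕ) : ∀ x : ℝ, 0 ≤ x → |rk k x| ≤ x ^ k / k.factorial := by
  induction k with
  | zero =>
    intro x hx
    unfold rk
    simp only [Finset.range_zero, Finset.sum_empty, sub_zero, pow_zero, Nat.factorial_zero,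
      Nat.cast_one, div_one, abs_of_pos (Real.exp_pos _)]
    exact Real.exp_le_one_iff.2 (by linarith)
  | succ k ih =>
    intro z hz
    have h := image_norm_le_of_norm_deriv_right_le_deriv_boundary (f := rk (k + 1))
      (f' := fun z => -rk k z) (a := 0) (b := z)
      (B := fun z => z ^ (k + 1) / (k + 1).factorial) (B' := fun z => z ^ k / k.factorial)
      (fun x _ => (rk_deriv k x).continuousAt.continuousWithinAt)
      (fun x _ => (rk_deriv k x).hasDerivWithinAt)
      (by rw [rk_zero]; simp)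
      (fun x => by
        have h := ((hasDerivAt_pow (k + 1) x)).div_const ((k + 1).factorial : ℝ)
        refine HasDerivAt.congr_deriv h ?_
        rw [Nat.factorial_succ, Nat.add_sub_cancel]
        push_cast
        have h6 : (k : ℝ) + 1 ≠ 0 := by positivity
        have h5 : (k.factorial : ℝ) ≠ 0 := by positivity
        field_simp)
      (fun x hx => by
        rw [norm_neg, Real.norm_eq_abs]
        exact ih x hx.1)
    have := h ⟨hz, le_rfl⟩
    rwa [Real.norm_eq_abs] at this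

/-! ### characteristic functions -/

/-- the characteristic function -/
noncomputable def phi (l : List Ent) (μ T : ℝ) : ℂ :=
  ((1 / T : ℝ) : ℂ) * ∫ t in Va T..Vb T, cexp (((stt l μ T t : ℝ) : ℂ) * I)

lemma V_ord : ∀ᶠ T : ℝ in atTop, 10 ≤ T ∧ Va T ≤ Vb T ∧ Vb T - Va T ≤ T := by
  have h1 : ∀ᶠ T : ℝ in atTop, Real.log T / T < 1 / 16 :=
    log_ratio_zero.eventually (gt_mem_nhds (by norm_num))
  filter_upwards [h1, eventually_ge_atTop 10] with T h2 h3
  have hT0 : 0 < T := by linarith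
  have hL := log_one_le h3
  rw [div_lt_iff₀ hT0] at h2
  unfold Va Vb
  exact ⟨h3, by linarith, by linarith⟩

lemma phi_le {l : List Ent} {μ T : ℝ} (h10 : 10 ≤ T) (hV : Va T ≤ Vb T) (hV1 : Vb T - Va T ≤ T) :
    ‖phi l μ T‖ ≤ 1 := by
  unfold phi
  rw [norm_mul, Complex.norm_real, Real.norm_of_nonneg (by positivity : (0 : ℝ) ≤ 1 / T)]
  have := intervalIntegral.norm_integral_le_of_norm_le_const (a := Va T) (b := Vb T) (C := 1)
    (f := fun t => cexp (((stt l μ T t : ℝ) : ℂ) * I)) (fun t _ => by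
      rw [Complex.norm_exp_ofReal_mul_I])
  rw [one_mul, abs_of_nonneg (by linarith)] at this
  have hT0 : 0 < T := by linarith
  calc 1 / T * ‖∫ t in Va T..Vb T, cexp (((stt l μ T t : ℝ) : ℂ) * I)‖ ≤ 1 / T * T := by
        gcongr; linarith
    _ = 1 := by field_simp

/-- **the limit of the characteristic functions** -/
theorem phi_lim (hRH : RHs) {l : List Ent} {μ : ℝ} (h : Good l μ) (hμ : 0 < μ) (k : ℕ)
    (hk : 2 * k * μ < 1) {η : ℝ} (hη : 0 < η) : ∀ᶠ T : ℝ in atTop,
    ‖phi l μ T - cexp (-((kv l : ℝ) : ℂ) / 2)‖ ≤ 2 * ((kv l / 2) ^ k / k.factorial) + η := by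
  set Q := kv l with hQ
  have hQ0 : 0 ≤ Q := kv_nonneg l
  have hkμ : ∀ j : ℕ, j ≤ 2 * k → (j : ℝ) * μ < 1 := by
    intro j hj
    have : (j : ℝ) ≤ 2 * k := by exact_mod_cast hj
    nlinarith
  have hm : ∀ j ≤ 2 * k, Tendsto (fun T : ℝ => 1 / T * ∫ t in Va T..Vb T, stt l μ T t ^ j) atTop
      (𝓝 (gm 0 Q j)) := fun j hj => mom_lim hRH h hμ j (hkμ j hj)
  -- the polynomial part
  have hP : Tendsto (fun T : ℝ => ∑ j ∈ Finset.range (2 * k), I ^ j / (j.factorial : ℂ) *
      ((1 / T * ∫ t in Va T..Vb T, stt l μ T t ^ j : ℝ) : ℂ)) atTop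
      (𝓝 (∑ j ∈ Finset.range (2 * k), I ^ j / (j.factorial : ℂ) * ((gm 0 Q j : ℝ) : ℂ))) := by
    refine tendsto_finsetSum _ fun j hj => ?_
    exact ((Complex.continuous_ofReal.tendsto _).comp (hm j (Finset.mem_range.1 hj).le)).const_mul _
  rw [gm_series] at hP
  have e1 := (tendsto_iff_norm_sub_tendsto_zero.1 hP).eventually
    (gt_mem_nhds (by positivity : 0 < η / 2))
  have h2k : (gm 0 Q (2 * k)) / (2 * k).factorial = (Q / 2) ^ k / k.factorial := gm_even Q k
  have hf : (0 : ℝ) < (2 * k).factorial := by positivity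
  have e2 : ∀ᶠ T : ℝ in atTop, (1 / T * ∫ t in Va T..Vb T, stt l μ T t ^ (2 * k)) /
      (2 * k).factorial ≤ (Q / 2) ^ k / k.factorial + η / 2 := by
    have h1 := (hm (2 * k) le_rfl).div_const ((2 * k).factorial : ℝ)
    rw [h2k] at h1
    exact (h1.eventually (gt_mem_nhds (by linarith : (Q / 2) ^ k / k.factorial <
      (Q / 2) ^ k / k.factorial + η / 2))).mono fun T hT => hT.le
  filter_upwards [e1, e2, V_ord] with T h1 h2 ⟨h10, hV, hV1⟩
  have hTo : 1 ≤ T := by linarith
  have hT0 : 0 < T := by linarith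
  have hc := stt_cont h hTo
  -- Taylor
  have hA : ‖phi l μ T - ∑ j ∈ Finset.range (2 * k), I ^ j / (j.factorial : ℂ) *
      ((1 / T * ∫ t in Va T..Vb T, stt l μ T t ^ j : ℝ) : ℂ)‖ ≤
      (1 / T * ∫ t in Va T..Vb T, stt l μ T t ^ (2 * k)) / (2 * k).factorial := by
    have e3 : phi l μ T - ∑ j ∈ Finset.range (2 * k), I ^ j / (j.factorial : ℂ) *
        ((1 / T * ∫ t in Va T..Vb T, stt l μ T t ^ j : ℝ) : ℂ) =
        ((1 / T : ℝ) : ℂ) * ∫ t in Va T..Vb T, ek (2 * k) (stt l μ T t) := by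
      unfold phi ek
      rw [intervalIntegral.integral_sub, mul_sub]
      · congr 1
        rw [intervalIntegral.integral_finsetSum, Finset.mul_sum]
        · refine Finset.sum_congr rfl fun j _ => ?_
          have h3 : ((1 / T * ∫ t in Va T..Vb T, stt l μ T t ^ j : ℝ) : ℂ) =
              ((1 / T : ℝ) : ℂ) * ∫ t in Va T..Vb T, ((stt l μ T t ^ j : ℝ) : ℂ) := by
            rw [Complex.ofReal_mul, intervalIntegral.integral_ofReal]
          rw [h3, mul_left_comm, ← intervalIntegral.integral_const_mul]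
          congr 2
          funext t
          rw [mul_pow]
          push_cast
          ring
        · intro j _
          apply Continuous.intervalIntegrable
          fun_prop
      · apply Continuous.intervalIntegrable
        fun_prop
      · apply Continuous.intervalIntegrable
        fun_prop
    rw [e3, norm_mul, Complex.norm_real, Real.norm_of_nonneg (by positivity : (0 : ℝ) ≤ 1 / T),
      mul_div_assoc, ← intervalIntegral.integral_div]
    apply mul_le_mul_of_nonneg_left _ (by positivity)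
    apply intervalIntegral.norm_integral_le_of_norm_le hV
    · refine Eventually.of_forall fun t _ => ?_
      have := ek_le (2 * k) (stt l μ T t)
      rwa [(even_two_mul k).pow_abs] at this
    · apply Continuous.intervalIntegrable
      fun_prop
  have hB : ‖(∑ j ∈ Finset.range k, (-(Q : ℂ) / 2) ^ j / (j.factorial : ℂ)) -
      cexp (-((Q : ℝ) : ℂ) / 2)‖ ≤ (Q / 2) ^ k / k.factorial := by
    have := rk_le k (Q / 2) (by positivity)
    rw [norm_sub_rev]
    refine le_trans (le_of_eq ?_) this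
    rw [← Real.norm_eq_abs, ← Complex.norm_real]
    congr 1
    unfold rk
    push_cast
    congr 1
    · congr 1; ring
    · refine Finset.sum_congr rfl fun j _ => ?_
      congr 2; ring
  set P := ∑ j ∈ Finset.range (2 * k), I ^ j / (j.factorial : ℂ) *
      ((1 / T * ∫ t in Va T..Vb T, stt l μ T t ^ j : ℝ) : ℂ) with hPd
  set P' := ∑ j ∈ Finset.range k, (-(Q : ℂ) / 2) ^ j / (j.factorial : ℂ) with hPd'
  have : phi l μ T - cexp (-((Q : ℝ) : ℂ) / 2) = (phi l μ T - P) + (P - P') +
    (P' - cexp (-((Q : ℝ) : ℂ) / 2)) := by ring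
  rw [this]
  refine (norm_add_le _ _).trans ?_
  have h3 := norm_add_le (phi l μ T - P) (P - P')
  linarith

/-! ### averages over a probability space -/

lemma cexp_cont {X : Type*} [TopologicalSpace X] {F : X → ℝ} {c : X → ℂ} (hF : Continuous F)
    (hc : Continuous c) : Continuous fun x => c x * cexp (((F x : ℝ) : ℂ) * I) := by
  fun_prop

lemma swap_cont {Ω : Type*} [TopologicalSpace Ω] {l : Ω → List Ent} {μ T : ℝ}
    (hSc : Continuous fun p : Ω × ℝ => stt (l p.1) μ T p.2) :
    Continuous fun p : ℝ × Ω => stt (l p.2) μ T p.1 := by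
  have hsw : Continuous fun p : ℝ × Ω => ((p.2, p.1) : Ω × ℝ) := by fun_prop
  have h2 := hSc.comp hsw
  have e : (fun p : ℝ × Ω => stt (l p.2) μ T p.1) =
      (fun p : Ω × ℝ => stt (l p.1) μ T p.2) ∘ (fun p : ℝ × Ω => ((p.2, p.1) : Ω × ℝ)) := by
    funext p
    simp only [Function.comp]
  rw [e]
  exact h2

/-- integrability on the product -/
lemma swap_int {Ω : Type*} [TopologicalSpace Ω] [SecondCountableTopology Ω]
    [MeasurableSpace Ω] [BorelSpace Ω] (ν : Measure Ω) [IsProbabilityMeasure ν] {F : ℝ × Ω → ℂ}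
    (hF : Continuous F) (hF1 : ∀ p, ‖F p‖ ≤ 1) (a b : ℝ) :
    Integrable F ((volume.restrict (Set.uIoc a b)).prod ν) := by
  have hfin : IsFiniteMeasure (volume.restrict (Set.uIoc a b)) := by
    refine ⟨?_⟩
    rw [Measure.restrict_apply_univ]
    unfold Set.uIoc
    exact measure_Ioc_lt_top
  exact Integrable.of_bound (C := 1) hF.aestronglyMeasurable (Eventually.of_forall hF1)

/-- **averaging over a probability space of statistics** -/
theorem avg_lim (hRH : RHs) {Ω : Type*} [TopologicalSpace Ω] [FirstCountableTopology Ω]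
    [SecondCountableTopology Ω] [LocallyCompactSpace Ω]
    [MeasurableSpace Ω] [BorelSpace Ω] (ν : Measure Ω) [IsProbabilityMeasure ν] (l : Ω → List Ent)
    (c : Ω → ℂ) {μ : ℝ} (hμ : 0 < μ) (hg : ∀ ω, Good (l ω) μ) (hc : Continuous c)
    (hc1 : ∀ ω, ‖c ω‖ ≤ 1) (hQ : Continuous fun ω => kv (l ω))
    (hS : ∀ T : ℝ, 1 ≤ T → Continuous fun p : Ω × ℝ => stt (l p.1) μ T p.2) (k : ℕ)
    (hk : 2 * k * μ < 1) {η : ℝ} (hη : 0 < η) : ∀ᶠ T : ℝ in atTop,
    ‖((1 / T : ℝ) : ℂ) * (∫ t in Va T..Vb T, ∫ ω, c ω * cexp (((stt (l ω) μ T t : ℝ) : ℂ) * I) ∂ν) -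
      ∫ ω, c ω * cexp (-((kv (l ω) : ℝ) : ℂ) / 2) ∂ν‖ ≤
    (∫ ω, min 2 (2 * ((kv (l ω) / 2) ^ k / k.factorial)) ∂ν) + η := by
  -- the majorant and the excess
  set B : Ω → ℝ := fun ω => min 2 (2 * ((kv (l ω) / 2) ^ k / k.factorial)) with hB
  have hQ0 : ∀ ω, 0 ≤ kv (l ω) := fun ω => kv_nonneg _
  have hB0 : ∀ ω, 0 ≤ B ω := fun ω => by
    have := hQ0 ω
    simp only [hB]
    positivity
  have hB2 : ∀ ω, B ω ≤ 2 := fun ω => min_le_left _ _
  have hBc : Continuous B := by
    simp only [hB]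
    fun_prop
  set h : ℝ → Ω → ℝ := fun T ω => max 0 (‖phi (l ω) μ T - cexp (-((kv (l ω) : ℝ) : ℂ) / 2)‖ - B ω)
    with hh
  have hphic : ∀ T : ℝ, 1 ≤ T → Continuous fun ω => phi (l ω) μ T := by
    intro T hT
    unfold phi
    apply continuous_const.mul
    apply intervalIntegral.continuous_parametric_intervalIntegral_of_continuous'
    have := hS T hT
    exact Complex.continuous_exp.comp ((Complex.continuous_ofReal.comp this).mul continuous_const)
  have hGc : Continuous fun ω => cexp (-((kv (l ω) : ℝ) : ℂ) / 2) := by fun_prop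
  have hGn : ∀ ω, ‖cexp (-((kv (l ω) : ℝ) : ℂ) / 2)‖ ≤ 1 := by
    intro ω
    rw [Complex.norm_exp]
    apply Real.exp_le_one_iff.2
    have := hQ0 ω
    have e : (-((kv (l ω) : ℝ) : ℂ) / 2).re = -kv (l ω) / 2 := by
      simp
    rw [e]; linarith
  have hlim : Tendsto (fun T => ∫ ω, h T ω ∂ν) atTop (𝓝 (∫ _ω : Ω, (0 : ℝ) ∂ν)) := by
    apply tendsto_integral_filter_of_dominated_convergence (fun _ => 2)
    · filter_upwards [eventually_ge_atTop 1] with T hT
      apply Continuous.aestronglyMeasurable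
      simp only [hh]
      exact continuous_const.max (((hphic T hT).sub hGc).norm.sub hBc)
    · filter_upwards [V_ord] with T ⟨h10, hV, hV1⟩
      refine Eventually.of_forall fun ω => ?_
      simp only [hh]
      rw [Real.norm_of_nonneg (le_max_left _ _)]
      apply max_le (by norm_num)
      have h1 := norm_sub_le (phi (l ω) μ T) (cexp (-((kv (l ω) : ℝ) : ℂ) / 2))
      have h2 := phi_le (l := l ω) (μ := μ) h10 hV hV1
      linarith [hGn ω, hB0 ω]
    · exact integrable_const _
    · refine Eventually.of_forall fun ω => ?_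
      rw [Metric.tendsto_atTop]
      intro e he
      have h1 := phi_lim hRH (hg ω) hμ k hk (half_pos he)
      obtain ⟨T0, hT0⟩ := eventually_atTop.1 (h1.and V_ord)
      refine ⟨T0, fun T hT => ?_⟩
      obtain ⟨h2, h10, hV, hV1⟩ := hT0 T hT
      have h3 := norm_sub_le (phi (l ω) μ T) (cexp (-((kv (l ω) : ℝ) : ℂ) / 2))
      have h4 := phi_le (l := l ω) (μ := μ) h10 hV hV1
      rw [Real.dist_eq, sub_zero]
      simp only [hh]
      rw [abs_of_nonneg (le_max_left _ _)]
      apply max_lt he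
      have h5 : ‖phi (l ω) μ T - cexp (-((kv (l ω) : ℝ) : ℂ) / 2)‖ ≤ B ω + e / 2 := by
        simp only [hB]
        rw [← min_add_add_right]
        exact le_min (by linarith [hGn ω]) h2
      linarith
  rw [integral_zero] at hlim
  have e1 := hlim.eventually (gt_mem_nhds hη)
  filter_upwards [e1, V_ord] with T h1 ⟨h10, hV, hV1⟩
  have hTo : 1 ≤ T := by linarith
  have hT0 : 0 < T := by linarith
  -- Fubini
  have hSc := hS T hTo
  have hFc : Continuous fun p : ℝ × Ω => c p.2 * cexp (((stt (l p.2) μ T p.1 : ℝ) : ℂ) * I) := by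
    exact cexp_cont (swap_cont hSc) (hc.comp continuous_snd)
  have hfub : (∫ t in Va T..Vb T, ∫ ω, c ω * cexp (((stt (l ω) μ T t : ℝ) : ℂ) * I) ∂ν) =
      ∫ ω, (∫ t in Va T..Vb T, c ω * cexp (((stt (l ω) μ T t : ℝ) : ℂ) * I)) ∂ν := by
    exact intervalIntegral_integral_swap (a := Va T) (b := Vb T) (μ := ν)
      (f := fun t ω => c ω * cexp (((stt (l ω) μ T t : ℝ) : ℂ) * I))
      (swap_int ν hFc (fun p => by
        rw [norm_mul, Complex.norm_exp_ofReal_mul_I, mul_one]
        exact hc1 _) _ _)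
  have e2 : ((1 / T : ℝ) : ℂ) * (∫ t in Va T..Vb T, ∫ ω, c ω * cexp (((stt (l ω) μ T t : ℝ) : ℂ) * I) ∂ν) =
      ∫ ω, c ω * phi (l ω) μ T ∂ν := by
    rw [hfub, ← integral_const_mul]
    refine integral_congr_ae (Eventually.of_forall fun ω => ?_)
    show ((1 / T : ℝ) : ℂ) * (∫ t in Va T..Vb T, c ω * cexp (((stt (l ω) μ T t : ℝ) : ℂ) * I)) = _
    unfold phi
    rw [intervalIntegral.integral_const_mul]
    ring
  have hpn : ∀ ω, ‖phi (l ω) μ T‖ ≤ 1 := fun ω => phi_le h10 hV hV1
  have i1 : Integrable (fun ω => c ω * phi (l ω) μ T) ν := by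
    refine Integrable.of_bound (C := 1) (hc.mul (hphic T hTo)).aestronglyMeasurable
      (Eventually.of_forall fun ω => ?_)
    rw [norm_mul]
    exact mul_le_one₀ (hc1 ω) (norm_nonneg _) (hpn ω)
  have i2 : Integrable (fun ω => c ω * cexp (-((kv (l ω) : ℝ) : ℂ) / 2)) ν := by
    refine Integrable.of_bound (C := 1) (hc.mul hGc).aestronglyMeasurable
      (Eventually.of_forall fun ω => ?_)
    rw [norm_mul]
    exact mul_le_one₀ (hc1 ω) (norm_nonneg _) (hGn ω)
  have i3 : Integrable B ν := by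
    refine Integrable.of_bound (C := 2) hBc.aestronglyMeasurable (Eventually.of_forall fun ω => ?_)
    rw [Real.norm_of_nonneg (hB0 ω)]
    exact hB2 ω
  have i4 : Integrable (h T) ν := by
    refine Integrable.of_bound (C := 2) ?_ (Eventually.of_forall fun ω => ?_)
    · apply Continuous.aestronglyMeasurable
      simp only [hh]
      exact continuous_const.max (((hphic T hTo).sub hGc).norm.sub hBc)
    · simp only [hh]
      rw [Real.norm_of_nonneg (le_max_left _ _)]
      apply max_le (by norm_num)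
      have h1 := norm_sub_le (phi (l ω) μ T) (cexp (-((kv (l ω) : ℝ) : ℂ) / 2))
      linarith [hGn ω, hB0 ω, hpn ω]
  rw [e2, ← integral_sub i1 i2]
  calc ‖∫ ω, (c ω * phi (l ω) μ T - c ω * cexp (-((kv (l ω) : ℝ) : ℂ) / 2)) ∂ν‖ ≤
      ∫ ω, (B ω + h T ω) ∂ν := by
        apply norm_integral_le_of_norm_le (i3.add i4)
        refine Eventually.of_forall fun ω => ?_
        rw [← mul_sub, norm_mul]
        have h3 : ‖phi (l ω) μ T - cexp (-((kv (l ω) : ℝ) : ℂ) / 2)‖ ≤ B ω + h T ω := by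
          have := le_max_right 0 (‖phi (l ω) μ T - cexp (-((kv (l ω) : ℝ) : ℂ) / 2)‖ - B ω)
          simp only [hh]
          linarith
        calc ‖c ω‖ * ‖phi (l ω) μ T - cexp (-((kv (l ω) : ℝ) : ℂ) / 2)‖ ≤
            1 * ‖phi (l ω) μ T - cexp (-((kv (l ω) : ℝ) : ℂ) / 2)‖ := by
              gcongr
              exact hc1 ω
          _ ≤ _ := by rw [one_mul]; exact h3
    _ = (∫ ω, B ω ∂ν) + ∫ ω, h T ω ∂ν := integral_add i3 i4
    _ ≤ _ := by linarith

end Pool.Agent.H478.EX
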