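import Pool.Agent.H478.EX4

/-! Gaussian integrals. -/

open Finset Complex MeasureTheory Filter Topology ProbabilityTheory

namespace Pool.Agent.H478.EX

open Pool.Agent.H478.CW

/-- the standard normal law -/
noncomputable abbrev gam : Measure ℝ := gaussianReal 0 1

/-- pairs of independent standard normal variables -/
noncomputable abbrev gam2 : Measure (ℝ × ℝ) := gam.prod gam

lemma pdf_eq (x : ℝ) : gaussianPDFReal 0 1 x = (Real.sqrt (2 * Real.pi))⁻¹ * Real.exp (-x ^ 2 / 2) := by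
  unfold gaussianPDFReal
  simp

/-- the Gaussian integral with a quadratic weight -/
lemma gint {A : ℝ} (hA : -1 < A) (z : ℂ) :
    ∫ η : ℝ, cexp (-((A : ℝ) : ℂ) / 2 * (η : ℂ) ^ 2 + z * η) ∂gam =
      ((1 / Real.sqrt (1 + A) : ℝ) : ℂ) * cexp (z ^ 2 / (2 * (1 + A))) := by
  have hpi := Real.pi_pos
  have hA1 : 0 < 1 + A := by linarith
  rw [integral_gaussianReal_eq_integral_smul (by norm_num)]
  have e1 : (fun x : ℝ => gaussianPDFReal 0 1 x • cexp (-((A : ℝ) : ℂ) / 2 * (x : ℂ) ^ 2 + z * x)) =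
      fun x : ℝ => (((Real.sqrt (2 * Real.pi))⁻¹ : ℝ) : ℂ) *
        cexp ((-(1 + (A : ℂ)) / 2) * (x : ℂ) ^ 2 + z * x + 0) := by
    funext x
    rw [pdf_eq, Complex.real_smul, Complex.ofReal_mul, mul_assoc, Complex.ofReal_exp,
      ← Complex.exp_add]
    congr 2
    push_cast
    ring
  rw [e1, integral_const_mul, integral_cexp_quadratic]
  · have e2 : (Real.pi : ℂ) / -(-(1 + (A : ℂ)) / 2) = ((2 * Real.pi / (1 + A) : ℝ) : ℂ) := by
      push_cast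
      have : (1 : ℂ) + A ≠ 0 := by
        have h : ((1 + A : ℝ) : ℂ) ≠ 0 := by exact_mod_cast hA1.ne'
        simpa using h
      field_simp
    rw [e2]
    have e3 : (((2 * Real.pi / (1 + A) : ℝ) : ℂ)) ^ (1 / 2 : ℂ) =
        ((Real.sqrt (2 * Real.pi / (1 + A)) : ℝ) : ℂ) := by
      rw [Real.sqrt_eq_rpow, Complex.ofReal_cpow (by positivity)]
      norm_num
    rw [e3, ← mul_assoc, ← Complex.ofReal_mul]
    congr 1
    · congr 1
      rw [Real.sqrt_div' _ hA1.le]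
      have : Real.sqrt (2 * Real.pi) ≠ 0 := by positivity
      field_simp
    · congr 1
      have : (1 : ℂ) + A ≠ 0 := by
        have h : ((1 + A : ℝ) : ℂ) ≠ 0 := by exact_mod_cast hA1.ne'
        simpa using h
      field_simp
      ring
  · have : (-(1 + (A : ℂ)) / 2).re = -(1 + A) / 2 := by simp
    rw [this]; linarith

/-- the weight of Gaussian shape -/
lemma rep1 (z : ℝ) : ∫ η : ℝ, cexp (((η * z : ℝ) : ℂ) * I) ∂gam = ((Real.exp (-z ^ 2 / 2) : ℝ) : ℂ) := by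
  have h := gint (A := 0) (by norm_num) (z * I)
  have e1 : (fun η : ℝ => cexp (((η * z : ℝ) : ℂ) * I)) =
      fun η : ℝ => cexp (-((0 : ℝ) : ℂ) / 2 * (η : ℂ) ^ 2 + z * I * η) := by
    funext η
    congr 1
    push_cast
    ring
  rw [e1, h]
  simp only [add_zero, Real.sqrt_one, ne_eq, one_ne_zero, not_false_eq_true, div_self,
    Complex.ofReal_one, one_mul, Complex.ofReal_zero, mul_one]
  rw [mul_pow, Complex.I_sq]
  push_cast
  congr 1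
  ring

lemma rep2 (z z' : ℝ) : ∫ p : ℝ × ℝ, cexp (((p.1 * z + p.2 * z' : ℝ) : ℂ) * I) ∂gam2 =
    ((Real.exp (-z ^ 2 / 2) * Real.exp (-z' ^ 2 / 2) : ℝ) : ℂ) := by
  have e1 : (fun p : ℝ × ℝ => cexp (((p.1 * z + p.2 * z' : ℝ) : ℂ) * I)) =
      fun p : ℝ × ℝ => cexp (((p.1 * z : ℝ) : ℂ) * I) * cexp (((p.2 * z' : ℝ) : ℂ) * I) := by
    funext p
    rw [← Complex.exp_add]
    congr 1
    push_cast
    ring
  rw [e1, integral_prod_mul (fun x : ℝ => cexp (((x * z : ℝ) : ℂ) * I))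
    (fun x : ℝ => cexp (((x * z' : ℝ) : ℂ) * I)), rep1, rep1, ← Complex.ofReal_mul]

/-- the exponential moment -/
lemma exp_quarter : Integrable (fun x : ℝ => Real.exp (x ^ 2 / 4)) gam ∧
    ∫ x : ℝ, Real.exp (x ^ 2 / 4) ∂gam = Real.sqrt 2 := by
  have hpi := Real.pi_pos
  have h := gint (A := -(1 / 2)) (by norm_num) 0
  have e1 : (fun η : ℝ => cexp (-((-(1 / 2) : ℝ) : ℂ) / 2 * (η : ℂ) ^ 2 + 0 * η)) =
      fun η : ℝ => ((Real.exp (η ^ 2 / 4) : ℝ) : ℂ) := by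
    funext η
    push_cast
    congr 1
    ring
  rw [e1] at h
  have h2 : ∫ η : ℝ, ((Real.exp (η ^ 2 / 4) : ℝ) : ℂ) ∂gam = ((Real.sqrt 2 : ℝ) : ℂ) := by
    rw [h]
    have : Real.sqrt (1 + -(1 / 2)) = 1 / Real.sqrt 2 := by
      rw [show (1 : ℝ) + -(1 / 2) = 1 / 2 by norm_num, Real.sqrt_div' _ (by norm_num), Real.sqrt_one]
    rw [this]
    simp
  have h3 : ((∫ x : ℝ, Real.exp (x ^ 2 / 4) ∂gam : ℝ) : ℂ) = ((Real.sqrt 2 : ℝ) : ℂ) := by
    rw [← h2]; exact integral_ofReal.symm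
  have h4 : ∫ x : ℝ, Real.exp (x ^ 2 / 4) ∂gam = Real.sqrt 2 := by exact_mod_cast h3
  refine ⟨?_, h4⟩
  by_contra hcon
  rw [integral_undef hcon] at h4
  have : 0 < Real.sqrt 2 := by positivity
  linarith

/-- the value for one point -/
noncomputable def P1 (a V : ℝ) : ℝ := 1 / Real.sqrt (1 + V) * Real.exp (-(a ^ 2 / (2 * (1 + V))))

lemma P1_pos {a V : ℝ} (hV : 0 ≤ V) : 0 < P1 a V := by
  unfold P1
  have : 0 < 1 + V := by linarith
  positivity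

/-- the value for two points -/
noncomputable def P2 (a V c : ℝ) : ℝ :=
  1 / Real.sqrt ((1 + V) ^ 2 - c ^ 2) * Real.exp (-(a ^ 2 / (1 + V + c)))

lemma one_point {a V : ℝ} (hV : 0 ≤ V) :
    ∫ p : ℝ × ℝ, cexp (((-(a * p.1) : ℝ) : ℂ) * I) * cexp (-((V * p.1 ^ 2 : ℝ) : ℂ) / 2) ∂gam2 =
      ((P1 a V : ℝ) : ℂ) := by
  have e1 : (fun p : ℝ × ℝ => cexp (((-(a * p.1) : ℝ) : ℂ) * I) *
      cexp (-((V * p.1 ^ 2 : ℝ) : ℂ) / 2)) = fun p : ℝ × ℝ =>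
      cexp (-((V : ℝ) : ℂ) / 2 * (p.1 : ℂ) ^ 2 + (-(a * I)) * p.1) * (fun _ : ℝ => (1 : ℂ)) p.2 := by
    funext p
    rw [← Complex.exp_add, mul_one]
    congr 1
    push_cast
    ring
  rw [e1, integral_prod_mul (fun x : ℝ => cexp (-((V : ℝ) : ℂ) / 2 * (x : ℂ) ^ 2 + (-(a * I)) * x))
    (fun _ : ℝ => (1 : ℂ)), gint (by linarith)]
  simp only [integral_const, probReal_univ, one_smul, mul_one]
  unfold P1
  rw [Complex.ofReal_mul]
  congr 1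
  rw [Complex.ofReal_exp]
  congr 1
  rw [neg_sq, mul_pow, Complex.I_sq]
  push_cast
  ring

lemma two_points {a V c : ℝ} (hV : 0 ≤ V) (hc : |c| ≤ V) :
    ∫ p : ℝ × ℝ, cexp (((-(a * (p.1 + p.2)) : ℝ) : ℂ) * I) *
      cexp (-(((p.1 ^ 2 + p.2 ^ 2) * V + 2 * p.1 * p.2 * c : ℝ) : ℂ) / 2) ∂gam2 =
      ((P2 a V c : ℝ) : ℂ) := by
  have hc2 := abs_le.1 hc
  have hV1 : 0 < 1 + V := by linarith
  have hVc : 0 < (1 + V) ^ 2 - c ^ 2 := by nlinarith [sq_abs c, abs_nonneg c]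
  have hVC : (1 : ℂ) + V ≠ 0 := by
    have h : ((1 + V : ℝ) : ℂ) ≠ 0 := by exact_mod_cast hV1.ne'
    simpa using h
  have hint : Integrable (fun p : ℝ × ℝ => cexp (((-(a * (p.1 + p.2)) : ℝ) : ℂ) * I) *
      cexp (-(((p.1 ^ 2 + p.2 ^ 2) * V + 2 * p.1 * p.2 * c : ℝ) : ℂ) / 2)) gam2 := by
    refine Integrable.of_bound (C := 1) ?_ (Eventually.of_forall fun p => ?_)
    · apply Continuous.aestronglyMeasurable
      fun_prop
    · rw [norm_mul, Complex.norm_exp_ofReal_mul_I, one_mul, Complex.norm_exp]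
      apply Real.exp_le_one_iff.2
      have e : (-(((p.1 ^ 2 + p.2 ^ 2) * V + 2 * p.1 * p.2 * c : ℝ) : ℂ) / 2).re =
          -((p.1 ^ 2 + p.2 ^ 2) * V + 2 * p.1 * p.2 * c) / 2 := by
        rw [← Complex.ofReal_neg, ← Complex.ofReal_ofNat, ← Complex.ofReal_div, Complex.ofReal_re]
      rw [e]
      have h1 : -(2 * p.1 * p.2 * c) ≤ (p.1 ^ 2 + p.2 ^ 2) * V := by
        have h2 : |2 * p.1 * p.2 * c| ≤ (p.1 ^ 2 + p.2 ^ 2) * V := by
          rw [abs_mul]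
          have h3 : |2 * p.1 * p.2| ≤ p.1 ^ 2 + p.2 ^ 2 := by
            rw [abs_le]
            constructor <;> nlinarith [sq_nonneg (p.1 + p.2), sq_nonneg (p.1 - p.2)]
          have := abs_nonneg (2 * p.1 * p.2)
          have := abs_nonneg c
          gcongr
        linarith [neg_abs_le (2 * p.1 * p.2 * c)]
      linarith
  rw [integral_prod _ hint]
  -- inner integral
  have hin : ∀ ξ : ℝ, (∫ η : ℝ, cexp (((-(a * (ξ + η)) : ℝ) : ℂ) * I) *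
      cexp (-(((ξ ^ 2 + η ^ 2) * V + 2 * ξ * η * c : ℝ) : ℂ) / 2) ∂gam) =
      (((1 / Real.sqrt (1 + V) : ℝ) : ℂ) * cexp (-((a ^ 2 : ℝ) : ℂ) / (2 * (1 + V)))) *
      cexp (-((V - c ^ 2 / (1 + V) : ℝ) : ℂ) / 2 * (ξ : ℂ) ^ 2 +
        (-(a * I) * (1 - c / (1 + V))) * ξ) := by
    intro ξ
    have e1 : (fun η : ℝ => cexp (((-(a * (ξ + η)) : ℝ) : ℂ) * I) *
        cexp (-(((ξ ^ 2 + η ^ 2) * V + 2 * ξ * η * c : ℝ) : ℂ) / 2)) = fun η : ℝ =>
        cexp (-(a * ξ * I) - V * ξ ^ 2 / 2) *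
          cexp (-((V : ℝ) : ℂ) / 2 * (η : ℂ) ^ 2 + (-(a * I) - c * ξ) * η) := by
      funext η
      rw [← Complex.exp_add, ← Complex.exp_add]
      congr 1
      push_cast
      ring
    rw [e1, integral_const_mul, gint (by linarith)]
    rw [mul_left_comm, ← Complex.exp_add, mul_assoc (((1 / Real.sqrt (1 + V) : ℝ) : ℂ)),
      ← Complex.exp_add]
    congr 2
    push_cast
    have hI : I ^ 2 = -1 := Complex.I_sq
    field_simp
    ring_nf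
    rw [hI]
    ring
  have e2 : (fun x : ℝ => ∫ y : ℝ, cexp (((-(a * ((x, y).1 + (x, y).2)) : ℝ) : ℂ) * I) *
      cexp (-((((x, y).1 ^ 2 + (x, y).2 ^ 2) * V + 2 * (x, y).1 * (x, y).2 * c : ℝ) : ℂ) / 2) ∂gam) =
      fun ξ : ℝ => (((1 / Real.sqrt (1 + V) : ℝ) : ℂ) * cexp (-((a ^ 2 : ℝ) : ℂ) / (2 * (1 + V)))) *
      cexp (-((V - c ^ 2 / (1 + V) : ℝ) : ℂ) / 2 * (ξ : ℂ) ^ 2 +
        (-(a * I) * (1 - c / (1 + V))) * ξ) := funext hin
  rw [e2, integral_const_mul]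
  have hA : -1 < V - c ^ 2 / (1 + V) := by
    rw [neg_lt_sub_iff_lt_add, div_lt_iff₀ hV1]
    nlinarith
  rw [gint hA]
  have e3 : 1 + (V - c ^ 2 / (1 + V)) = ((1 + V) ^ 2 - c ^ 2) / (1 + V) := by
    field_simp
    ring
  rw [e3]
  have e4 : ((1 / Real.sqrt (1 + V) : ℝ) : ℂ) * cexp (-((a ^ 2 : ℝ) : ℂ) / (2 * (1 + V))) *
      (((1 / Real.sqrt (((1 + V) ^ 2 - c ^ 2) / (1 + V)) : ℝ) : ℂ) *
        cexp ((-(a * I) * (1 - c / (1 + V))) ^ 2 / (2 * (1 + ((V - c ^ 2 / (1 + V) : ℝ) : ℂ))))) =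
      ((1 / Real.sqrt (1 + V) * (1 / Real.sqrt (((1 + V) ^ 2 - c ^ 2) / (1 + V))) : ℝ) : ℂ) *
      (cexp (-((a ^ 2 : ℝ) : ℂ) / (2 * (1 + V))) *
        cexp ((-(a * I) * (1 - c / (1 + V))) ^ 2 / (2 * (1 + ((V - c ^ 2 / (1 + V) : ℝ) : ℂ))))) := by
    rw [Complex.ofReal_mul]; ring
  have hs : 1 / Real.sqrt (1 + V) * (1 / Real.sqrt (((1 + V) ^ 2 - c ^ 2) / (1 + V))) =
      1 / Real.sqrt ((1 + V) ^ 2 - c ^ 2) := by
    rw [Real.sqrt_div' _ hV1.le]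
    have h1 : Real.sqrt (1 + V) ≠ 0 := by positivity
    have h2 : Real.sqrt ((1 + V) ^ 2 - c ^ 2) ≠ 0 := by positivity
    field_simp
  rw [e4, ← Complex.exp_add, hs]
  unfold P2
  rw [Complex.ofReal_mul (1 / Real.sqrt ((1 + V) ^ 2 - c ^ 2)), Complex.ofReal_exp]
  congr 2
  have e5 : (1 : ℂ) + ((V - c ^ 2 / (1 + V) : ℝ) : ℂ) = (((1 + V) ^ 2 - c ^ 2) / (1 + V) : ℂ) := by
    push_cast
    field_simp
    ring
  rw [e5]
  have h1 : (1 : ℂ) + V + c ≠ 0 := by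
    have h : ((1 + V + c : ℝ) : ℂ) ≠ 0 := by
      have : 0 < 1 + V + c := by linarith
      exact_mod_cast this.ne'
    simpa using h
  have h2 : (1 : ℂ) + V - c ≠ 0 := by
    have h : ((1 + V - c : ℝ) : ℂ) ≠ 0 := by
      have : 0 < 1 + V - c := by linarith
      exact_mod_cast this.ne'
    simpa using h
  have h3 : ((1 : ℂ) + V) ^ 2 - c ^ 2 = (1 + V + c) * (1 + V - c) := by ring
  rw [h3]
  have hI : I ^ 2 = -1 := Complex.I_sq
  push_cast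
  field_simp
  rw [hI]
  ring

end Pool.Agent.H478.EX
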