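import Pool.Agent.H478.EX5

/-! Products of weights of Gaussian shape over the bands. -/

open Finset Complex MeasureTheory Filter Topology ProbabilityTheory

namespace Pool.Agent.H478.EX

open Pool.Agent.H478.CW
open Pool.Agent.R321.FA
open SP (ZZ mu Mk RHs)

/-- the weight -/
noncomputable def wt1 (a z : ℝ) : ℝ := Real.exp (-(z - a) ^ 2 / 2)

lemma wt1_pos (a z : ℝ) : 0 < wt1 a z := Real.exp_pos _

lemma wt1_le (a z : ℝ) : wt1 a z ≤ 1 := by
  unfold wt1
  apply Real.exp_le_one_iff.2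
  nlinarith [sq_nonneg (z - a)]

/-- the band statistic at `x` -/
noncomputable def Xs (b b' x μ T t : ℝ) : ℝ := stt (trl x (Yl b b')) μ T t

open Classical in
/-- indicator of a set of bands -/
noncomputable def th {J : ℕ} (S : Finset (Fin J)) (j : Fin J) : ℝ := if j ∈ S then 1 else 0

lemma th_one {J : ℕ} {S : Finset (Fin J)} {j : Fin J} (h : j ∈ S) : th S j = 1 := by
  unfold th; rw [if_pos h]

lemma th_zero {J : ℕ} {S : Finset (Fin J)} {j : Fin J} (h : j ∉ S) : th S j = 0 := by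
  unfold th; rw [if_neg h]

lemma th_nonneg {J : ℕ} (S : Finset (Fin J)) (j : Fin J) : 0 ≤ th S j := by
  unfold th; split_ifs <;> norm_num

lemma th_le {J : ℕ} (S : Finset (Fin J)) (j : Fin J) : th S j ≤ 1 := by
  unfold th; split_ifs <;> norm_num

/-- the product of the weights -/
noncomputable def Wp {J : ℕ} (b : ℕ → ℝ) (x y a : ℝ) (S : Finset (Fin J)) (μ T t : ℝ) : ℝ :=
  ∏ j : Fin J, (Real.exp (-(Xs (b j) (b (j + 1)) x μ T t - a) ^ 2 / 2) *
    Real.exp (-(th S j * (Xs (b j) (b (j + 1)) y μ T t - a)) ^ 2 / 2))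

/-- the random statistic -/
noncomputable def lom {J : ℕ} (b : ℕ → ℝ) (x y : ℝ) (S : Finset (Fin J)) (ω : Fin J → ℝ × ℝ) :
    List Ent := bun J fun j => pr (b j) (b (j + 1)) x y (ω j).1 (th S j * (ω j).2)

/-- the phase -/
noncomputable def com {J : ℕ} (a : ℝ) (S : Finset (Fin J)) (ω : Fin J → ℝ × ℝ) : ℂ :=
  cexp (((-(a * ∑ j, ((ω j).1 + th S j * (ω j).2)) : ℝ) : ℂ) * I)

/-- the law -/
noncomputable def nu (J : ℕ) : Measure (Fin J → ℝ × ℝ) := Measure.pi fun _ => gam2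

instance (J : ℕ) : IsProbabilityMeasure (nu J) := by unfold nu; infer_instance

lemma int_prodC {J : ℕ} (f : Fin J → ℝ × ℝ → ℂ) :
    ∫ ω, ∏ j, f j (ω j) ∂(nu J) = ∏ j, ∫ p, f j p ∂gam2 := by
  unfold nu
  exact integral_fintype_prod_eq_prod (E := fun _ => ℝ × ℝ) (μ := fun _ => gam2) f

lemma int_prodR {J : ℕ} (f : Fin J → ℝ × ℝ → ℝ) :
    ∫ ω, ∏ j, f j (ω j) ∂(nu J) = ∏ j, ∫ p, f j p ∂gam2 := by
  unfold nu
  exact integral_fintype_prod_eq_prod (E := fun _ => ℝ × ℝ) (μ := fun _ => gam2) f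

lemma lom_stt {J : ℕ} (b : ℕ → ℝ) (x y : ℝ) (S : Finset (Fin J)) (ω : Fin J → ℝ × ℝ) (μ T t : ℝ) :
    stt (lom b x y S ω) μ T t = ∑ j : Fin J, ((ω j).1 * Xs (b j) (b (j + 1)) x μ T t +
      th S j * (ω j).2 * Xs (b j) (b (j + 1)) y μ T t) := by
  unfold lom
  rw [stt_bun]
  refine Finset.sum_congr rfl fun j _ => ?_
  unfold pr Xs
  rw [stt_append, stt_scl, stt_scl]

/-- **the weights as an average of exponentials** -/
lemma lom_rep {J : ℕ} (b : ℕ → ℝ) (x y a : ℝ) (S : Finset (Fin J)) (μ T t : ℝ) :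
    ∫ ω, com a S ω * cexp (((stt (lom b x y S ω) μ T t : ℝ) : ℂ) * I) ∂(nu J) =
      ((Wp b x y a S μ T t : ℝ) : ℂ) := by
  obtain ⟨f, hf⟩ : ∃ f : Fin J → ℝ × ℝ → ℂ, f = fun (j : Fin J) (p : ℝ × ℝ) =>
        cexp (((p.1 * (Xs (b j) (b (j + 1)) x μ T t - a) +
        p.2 * (th S j * (Xs (b j) (b (j + 1)) y μ T t - a)) : ℝ) : ℂ) * I) := ⟨_, rfl⟩
  have e1 : (fun ω => com a S ω * cexp (((stt (lom b x y S ω) μ T t : ℝ) : ℂ) * I)) =
      fun ω : Fin J → ℝ × ℝ => ∏ j : Fin J, f j (ω j) := by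
    funext ω
    rw [hf]
    show com a S ω * cexp (((stt (lom b x y S ω) μ T t : ℝ) : ℂ) * I) = ∏ j : Fin J,
      cexp ((((ω j).1 * (Xs (b j) (b (j + 1)) x μ T t - a) +
        (ω j).2 * (th S j * (Xs (b j) (b (j + 1)) y μ T t - a)) : ℝ) : ℂ) * I)
    rw [← Complex.exp_sum, lom_stt]
    unfold com
    rw [← Complex.exp_add]
    congr 1
    rw [← Finset.sum_mul, ← add_mul, ← Complex.ofReal_sum, ← Complex.ofReal_add]
    congr 2
    rw [Finset.mul_sum, ← Finset.sum_neg_distrib, ← Finset.sum_add_distrib]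
    refine Finset.sum_congr rfl fun j _ => ?_
    ring
  rw [e1, int_prodC f, hf]
  unfold Wp
  rw [Complex.ofReal_prod]
  refine Finset.prod_congr rfl fun j _ => ?_
  exact rep2 _ _

open Classical in
/-- the limiting value -/
noncomputable def Gp {J : ℕ} (b : ℕ → ℝ) (D a : ℝ) (S : Finset (Fin J)) : ℝ :=
  ∏ j : Fin J, if j ∈ S then P2 a (cvf (b j) (b (j + 1)) 0) (cvf (b j) (b (j + 1)) D)
    else P1 a (cvf (b j) (b (j + 1)) 0)

lemma cvf_abs_le {b b' : ℝ} (hb : 0 < b) (D : ℝ) : |cvf b b' D| ≤ cvf b b' 0 := by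
  rw [cvf_zero]
  unfold cvf
  rw [abs_mul, abs_of_pos (by positivity : 0 < 1 / (2 * Real.pi ^ 2))]
  apply mul_le_mul_of_nonneg_left _ (by positivity)
  refine (intervalIntegral.abs_integral_le_integral_abs (by norm_num)).trans ?_
  have hc := sd_cont (b' := b') hb
  apply intervalIntegral.integral_mono_on (by norm_num)
  · exact ((hc.mul (by fun_prop)).abs).intervalIntegrable _ _
  · exact hc.intervalIntegrable _ _
  · intro v hv
    rw [abs_mul, abs_of_nonneg (sd_nonneg hv.1)]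
    exact mul_le_of_le_one_right (sd_nonneg hv.1) (Real.abs_cos_le_one _)

/-- the limiting value as an average -/
lemma lom_val {J : ℕ} {b : ℕ → ℝ} (hb : 0 < b 0) (hbm : StrictMono b) (hb1 : b J ≤ 1) (x y a : ℝ)
    (S : Finset (Fin J)) : ∫ ω, com a S ω * cexp (-((kv (lom b x y S ω) : ℝ) : ℂ) / 2) ∂(nu J) =
      ((Gp b (x - y) a S : ℝ) : ℂ) := by
  classical
  have hbp : ∀ j, 0 < b j := fun j => hb.trans_le (hbm.monotone (Nat.zero_le j))
  obtain ⟨f, hf⟩ : ∃ f : Fin J → ℝ × ℝ → ℂ, f = fun (j : Fin J) (p : ℝ × ℝ) =>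
        cexp (((-(a * (p.1 + th S j * p.2)) : ℝ) : ℂ) * I) *
        cexp (-(((p.1 ^ 2 + (th S j * p.2) ^ 2) * cvf (b j) (b (j + 1)) 0 +
        2 * p.1 * (th S j * p.2) * cvf (b j) (b (j + 1)) (x - y) : ℝ) : ℂ) / 2) := ⟨_, rfl⟩
  have e1 : (fun ω => com a S ω * cexp (-((kv (lom b x y S ω) : ℝ) : ℂ) / 2)) =
      fun ω : Fin J → ℝ × ℝ => ∏ j : Fin J, f j (ω j) := by
    funext ω
    rw [hf]
    show com a S ω * cexp (-((kv (lom b x y S ω) : ℝ) : ℂ) / 2) = ∏ j : Fin J,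
        (cexp (((-(a * ((ω j).1 + th S j * (ω j).2)) : ℝ) : ℂ) * I) *
        cexp (-((((ω j).1 ^ 2 + (th S j * (ω j).2) ^ 2) * cvf (b j) (b (j + 1)) 0 +
        2 * (ω j).1 * (th S j * (ω j).2) * cvf (b j) (b (j + 1)) (x - y) : ℝ) : ℂ) / 2))
    unfold lom
    rw [kv_bun hb hbm hb1, Finset.prod_mul_distrib, ← Complex.exp_sum, ← Complex.exp_sum]
    unfold com
    congr 2
    · rw [← Finset.sum_mul, ← Complex.ofReal_sum]
      congr 2
      rw [Finset.mul_sum, ← Finset.sum_neg_distrib]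
    · rw [← Finset.sum_div, Finset.sum_neg_distrib, ← Complex.ofReal_sum]
  rw [e1, int_prodC f, hf]
  unfold Gp
  rw [Complex.ofReal_prod]
  refine Finset.prod_congr rfl fun j _ => ?_
  by_cases hj : j ∈ S
  · rw [if_pos hj, ← two_points (cvf_nonneg _ _) (cvf_abs_le (hbp j) _)]
    simp only [th_one hj, one_mul]
  · rw [if_neg hj, ← one_point (cvf_nonneg _ _)]
    simp only [th_zero hj, zero_mul, add_zero, mul_zero, ne_eq, OfNat.ofNat_ne_zero,
      not_false_eq_true, zero_pow]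
    refine integral_congr_ae (Eventually.of_forall fun p => ?_)
    simp only
    congr 3
    rw [mul_comm]

/-- the sum of squares -/
noncomputable def ssq {J : ℕ} (ω : Fin J → ℝ × ℝ) : ℝ := ∑ j, ((ω j).1 ^ 2 + (ω j).2 ^ 2)

lemma ssq_nonneg {J : ℕ} (ω : Fin J → ℝ × ℝ) : 0 ≤ ssq ω :=
  Finset.sum_nonneg fun j _ => by positivity

lemma ssq_exp (J : ℕ) : Integrable (fun ω : Fin J → ℝ × ℝ => Real.exp (ssq ω / 4)) (nu J) ∧
    ∫ ω, Real.exp (ssq ω / 4) ∂(nu J) = 2 ^ J := by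
  obtain ⟨hi, hv⟩ := exp_quarter
  obtain ⟨f, hf⟩ : ∃ f : Fin J → ℝ × ℝ → ℝ, f = fun (_ : Fin J) (p : ℝ × ℝ) =>
      Real.exp (p.1 ^ 2 / 4) * Real.exp (p.2 ^ 2 / 4) := ⟨_, rfl⟩
  have e1 : (fun ω : Fin J → ℝ × ℝ => Real.exp (ssq ω / 4)) = fun ω : Fin J → ℝ × ℝ =>
      ∏ j : Fin J, f j (ω j) := by
    funext ω
    rw [hf]
    show Real.exp (ssq ω / 4) = ∏ j : Fin J, (Real.exp ((ω j).1 ^ 2 / 4) * Real.exp ((ω j).2 ^ 2 / 4))
    unfold ssq
    rw [Finset.sum_div, Real.exp_sum]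
    refine Finset.prod_congr rfl fun j _ => ?_
    rw [← Real.exp_add]
    congr 1
    ring
  have hi2 : Integrable (fun p : ℝ × ℝ => Real.exp (p.1 ^ 2 / 4) * Real.exp (p.2 ^ 2 / 4)) gam2 :=
    hi.mul_prod hi
  have hv2 : ∫ p : ℝ × ℝ, Real.exp (p.1 ^ 2 / 4) * Real.exp (p.2 ^ 2 / 4) ∂gam2 = 2 := by
    rw [integral_prod_mul (fun x : ℝ => Real.exp (x ^ 2 / 4)) (fun x : ℝ => Real.exp (x ^ 2 / 4)), hv,
      Real.mul_self_sqrt (by norm_num)]
  rw [e1]
  constructor
  · unfold nu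
    exact Integrable.fintype_prod_dep (fun _ => by rw [hf]; exact hi2)
  · rw [int_prodR f, hf]
    simp only [hv2, Finset.prod_const, Finset.card_univ, Fintype.card_fin]

lemma lom_kv_le {J : ℕ} {b : ℕ → ℝ} (hb : 0 < b 0) (hbm : StrictMono b) (hb1 : b J ≤ 1) (x y : ℝ)
    (S : Finset (Fin J)) {V : ℝ} (hV : ∀ j : Fin J, cvf (b j) (b (j + 1)) 0 ≤ V)
    (ω : Fin J → ℝ × ℝ) : kv (lom b x y S ω) / 2 ≤ V * ssq ω := by
  have hbp : ∀ j, 0 < b j := fun j => hb.trans_le (hbm.monotone (Nat.zero_le j))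
  unfold lom
  rw [kv_bun hb hbm hb1]
  unfold ssq
  rw [Finset.sum_div, Finset.mul_sum]
  refine Finset.sum_le_sum fun j _ => ?_
  set ξ := (ω j).1
  set η := (ω j).2
  set v := cvf (b j) (b (j + 1)) 0
  set c := cvf (b j) (b (j + 1)) (x - y)
  have hv0 : 0 ≤ v := cvf_nonneg _ _
  have hc : |c| ≤ v := cvf_abs_le (hbp j) _
  have hvV : v ≤ V := hV j
  have ht0 := th_nonneg S j
  have ht1 := th_le S j
  have h1 : (th S j * η) ^ 2 ≤ η ^ 2 := by
    rw [mul_pow]
    have : th S j ^ 2 ≤ 1 := by nlinarith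
    nlinarith [sq_nonneg η]
  have h2 : 2 * ξ * (th S j * η) * c ≤ (ξ ^ 2 + (th S j * η) ^ 2) * v := by
    have h3 : |2 * ξ * (th S j * η) * c| ≤ (ξ ^ 2 + (th S j * η) ^ 2) * v := by
      rw [abs_mul]
      have h4 : |2 * ξ * (th S j * η)| ≤ ξ ^ 2 + (th S j * η) ^ 2 := by
        rw [abs_le]
        constructor <;> nlinarith [sq_nonneg (ξ + th S j * η), sq_nonneg (ξ - th S j * η)]
      have := abs_nonneg (2 * ξ * (th S j * η))
      have := abs_nonneg c
      gcongr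
    exact (le_abs_self _).trans h3
  have h5 : (ξ ^ 2 + (th S j * η) ^ 2) * v ≤ V * (ξ ^ 2 + η ^ 2) := by
    calc (ξ ^ 2 + (th S j * η) ^ 2) * v ≤ (ξ ^ 2 + η ^ 2) * V := by
          have : 0 ≤ ξ ^ 2 + (th S j * η) ^ 2 := by positivity
          have : 0 ≤ V := hv0.trans hvV
          gcongr
      _ = _ := mul_comm _ _
  linarith

lemma lom_good {J : ℕ} {b : ℕ → ℝ} (hb : 0 < b 0) (hbm : StrictMono b) {μ : ℝ} (hμ : b J ≤ μ)
    (x y : ℝ) (S : Finset (Fin J)) (ω : Fin J → ℝ × ℝ) : Good (lom b x y S ω) μ := by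
  have hbp : ∀ j, 0 < b j := fun j => hb.trans_le (hbm.monotone (Nat.zero_le j))
  apply Good.bun
  intro j
  apply pr_good (hbp j) (hbm (Nat.lt_succ_self j))
  exact (hbm.monotone (by omega : (j : ℕ) + 1 ≤ J)).trans hμ

lemma Xs_cont {b b' μ : ℝ} (hb : 0 < b) (hbb : b < b') (h : b' ≤ μ) (x : ℝ) {T : ℝ} (hT : 1 ≤ T) :
    Continuous (Xs b b' x μ T) := stt_cont ((Yl_good hb hbb h).trl x) hT

/-- **the average of the product of the weights** -/
theorem pair_lim (hRH : RHs) {J : ℕ} {b : ℕ → ℝ} (hb : 0 < b 0) (hbm : StrictMono b)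
    {μ : ℝ} (hμ : b J ≤ μ) (hμ1 : μ ≤ 1) (x y a : ℝ) (S : Finset (Fin J)) {V : ℝ}
    (hV : ∀ j : Fin J, cvf (b j) (b (j + 1)) 0 ≤ V) (hV0 : 0 ≤ V) (k : ℕ) (hk : 2 * k * μ < 1)
    {R : ℝ} (hR : 0 ≤ R) {η : ℝ} (hη : 0 < η) : ∀ᶠ T : ℝ in atTop,
    |1 / T * (∫ t in Va T..Vb T, Wp b x y a S μ T t) - Gp b (x - y) a S| ≤
      2 * ((V * R) ^ k / k.factorial) + 2 * (2 ^ J * Real.exp (-(R / 4))) + η := by
  have hbp : ∀ j, 0 < b j := fun j => hb.trans_le (hbm.monotone (Nat.zero_le j))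
  have hlt : ∀ j, b j < b (j + 1) := fun j => hbm (Nat.lt_succ_self j)
  have hbJ : ∀ j : Fin J, b (j + 1) ≤ μ := fun j => (hbm.monotone (by omega)).trans hμ
  have hμ0 : 0 < μ := (hbp J).trans_le hμ
  have hb1 : b J ≤ 1 := hμ.trans hμ1
  have hQc : Continuous fun ω : Fin J → ℝ × ℝ => kv (lom b x y S ω) := by
    unfold lom
    simp only [kv_bun hb hbm hb1]
    fun_prop
  have hmain := avg_lim hRH (nu J) (lom b x y S) (com a S) hμ0 (lom_good hb hbm hμ x y S)
    (by unfold com; fun_prop) (fun ω => by unfold com; rw [Complex.norm_exp_ofReal_mul_I])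
    hQc (by
      intro T hT
      simp only [lom_stt]
      have hX : ∀ (z : ℝ) (j : Fin J), Continuous fun p : (Fin J → ℝ × ℝ) × ℝ =>
          Xs (b j) (b (j + 1)) z μ T p.2 := fun z j =>
        (Xs_cont (hbp j) (hlt j) (hbJ j) z hT).comp continuous_snd
      refine continuous_finsetSum _ fun j _ => ?_
      have h1 := hX x j
      have h2 := hX y j
      fun_prop) k hk hη
  filter_upwards [hmain, eventually_ge_atTop 1] with T hT hT1
  have e1 : (∫ t in Va T..Vb T, ∫ ω, com a S ω *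
      cexp (((stt (lom b x y S ω) μ T t : ℝ) : ℂ) * I) ∂(nu J)) =
      ((∫ t in Va T..Vb T, Wp b x y a S μ T t : ℝ) : ℂ) := by
    rw [← intervalIntegral.integral_ofReal]
    congr 1
    funext t
    exact lom_rep b x y a S μ T t
  rw [e1, lom_val hb hbm hb1, ← Complex.ofReal_mul, ← Complex.ofReal_sub, Complex.norm_real,
    Real.norm_eq_abs] at hT
  refine hT.trans ?_
  -- the error
  obtain ⟨hi, hv⟩ := ssq_exp J
  have hmin : ∫ ω, min 2 (2 * ((kv (lom b x y S ω) / 2) ^ k / k.factorial)) ∂(nu J) ≤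
      2 * ((V * R) ^ k / k.factorial) + 2 * (2 ^ J * Real.exp (-(R / 4))) := by
    have i1 : Integrable (fun ω : Fin J → ℝ × ℝ => 2 * ((V * R) ^ k / k.factorial) +
        2 * Real.exp (-(R / 4)) * Real.exp (ssq ω / 4)) (nu J) :=
      (integrable_const _).add (hi.const_mul _)
    calc ∫ ω, min 2 (2 * ((kv (lom b x y S ω) / 2) ^ k / k.factorial)) ∂(nu J) ≤
        ∫ ω, (2 * ((V * R) ^ k / k.factorial) + 2 * Real.exp (-(R / 4)) * Real.exp (ssq ω / 4))
          ∂(nu J) := by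
          apply integral_mono _ i1
          · intro ω
            show min 2 (2 * ((kv (lom b x y S ω) / 2) ^ k / k.factorial)) ≤
              2 * ((V * R) ^ k / k.factorial) + 2 * Real.exp (-(R / 4)) * Real.exp (ssq ω / 4)
            have hk0 : 0 ≤ kv (lom b x y S ω) / 2 := by
              have := kv_nonneg (lom b x y S ω)
              positivity
            rcases le_or_gt (ssq ω) R with h | h
            · have h1 : kv (lom b x y S ω) / 2 ≤ V * R := by
                refine (lom_kv_le hb hbm hb1 x y S hV ω).trans ?_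
                gcongr
              have h2 : 2 * ((kv (lom b x y S ω) / 2) ^ k / k.factorial) ≤
                  2 * ((V * R) ^ k / k.factorial) := by gcongr
              have h3 : 0 ≤ 2 * Real.exp (-(R / 4)) * Real.exp (ssq ω / 4) := by positivity
              exact (min_le_right _ _).trans (by linarith)
            · have h1 : 2 ≤ 2 * Real.exp (-(R / 4)) * Real.exp (ssq ω / 4) := by
                rw [mul_assoc, ← Real.exp_add]
                have : 1 ≤ Real.exp (-(R / 4) + ssq ω / 4) := by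
                  exact Real.one_le_exp (by linarith)
                linarith
              have h3 : 0 ≤ 2 * ((V * R) ^ k / k.factorial) := by positivity
              exact (min_le_left _ _).trans (by linarith)
          · refine Integrable.of_bound (C := 2) ?_ (Eventually.of_forall fun ω => ?_)
            · apply Continuous.aestronglyMeasurable
              fun_prop
            · have hk0 : 0 ≤ kv (lom b x y S ω) := kv_nonneg _
              rw [Real.norm_of_nonneg (by positivity)]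
              exact min_le_left _ _
      _ = _ := by
          rw [integral_add (integrable_const _) (hi.const_mul _), integral_const,
            integral_const_mul (2 * Real.exp (-(R / 4))) (fun ω : Fin J → ℝ × ℝ => Real.exp (ssq ω / 4)),
            hv]
          simp only [probReal_univ, one_smul]
          ring
  linarith

end Pool.Agent.H478.EX
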