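import Pool.Agent.H478.EX6

/-! Exceptional sets of small measure; tail bounds. -/

open Finset Complex MeasureTheory Filter Topology ProbabilityTheory

namespace Pool.Agent.H478.EX

open Pool.Agent.H478.CW
open Pool.Agent.R321.FA
open SP (ZZ mu Mk RHs)

/-- `P` holds outside a set of proportion at most `q` -/
def Sm (P : ℝ → ℝ → Prop) (q : ℝ) : Prop :=
  ∀ᶠ T : ℝ in atTop, volume {t : ℝ | Va T ≤ t ∧ t ≤ Vb T ∧ ¬ P T t} ≤ ENNReal.ofReal (q * T)

lemma Sm.mono {P Q : ℝ → ℝ → Prop} {q : ℝ} (h : Sm P q)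
    (hPQ : ∀ᶠ T : ℝ in atTop, ∀ t, Va T ≤ t → t ≤ Vb T → P T t → Q T t) : Sm Q q := by
  unfold Sm at *
  filter_upwards [h, hPQ] with T h1 h2
  refine (measure_mono ?_).trans h1
  rintro t ⟨a, b, c⟩
  exact ⟨a, b, fun h => c (h2 t a b h)⟩

lemma Sm.weaken {P : ℝ → ℝ → Prop} {q q' : ℝ} (h : Sm P q) (hq : q ≤ q') : Sm P q' := by
  unfold Sm at *
  filter_upwards [h, eventually_ge_atTop 0] with T h1 h2
  exact h1.trans (ENNReal.ofReal_le_ofReal (mul_le_mul_of_nonneg_right hq h2))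

lemma Sm.and {P Q : ℝ → ℝ → Prop} {q q' : ℝ} (h : Sm P q) (h' : Sm Q q') (hq : 0 ≤ q)
    (hq' : 0 ≤ q') : Sm (fun T t => P T t ∧ Q T t) (q + q') := by
  unfold Sm at *
  filter_upwards [h, h', eventually_ge_atTop 0] with T h1 h2 h3
  have e : {t : ℝ | Va T ≤ t ∧ t ≤ Vb T ∧ ¬ (P T t ∧ Q T t)} ⊆
      {t : ℝ | Va T ≤ t ∧ t ≤ Vb T ∧ ¬ P T t} ∪ {t : ℝ | Va T ≤ t ∧ t ≤ Vb T ∧ ¬ Q T t} := by
    rintro t ⟨a, b, c⟩
    by_cases hp : P T t
    · exact Or.inr ⟨a, b, fun hq => c ⟨hp, hq⟩⟩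
    · exact Or.inl ⟨a, b, hp⟩
  refine (measure_mono e).trans ((measure_union_le _ _).trans ?_)
  rw [add_mul, ENNReal.ofReal_add (by positivity) (by positivity)]
  exact add_le_add h1 h2

lemma Sm.all {ι : Type*} (s : Finset ι) {P : ι → ℝ → ℝ → Prop} {q : ℝ} (hq : 0 ≤ q)
    (h : ∀ i ∈ s, Sm (P i) q) : Sm (fun T t => ∀ i ∈ s, P i T t) (s.card * q) := by
  unfold Sm at *
  have h' : ∀ᶠ T : ℝ in atTop, ∀ i ∈ s,
      volume {t : ℝ | Va T ≤ t ∧ t ≤ Vb T ∧ ¬ P i T t} ≤ ENNReal.ofReal (q * T) :=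
    (eventually_all_finset s).2 h
  filter_upwards [h', eventually_ge_atTop 0] with T h1 h3
  have e : {t : ℝ | Va T ≤ t ∧ t ≤ Vb T ∧ ¬ ∀ i ∈ s, P i T t} ⊆
      ⋃ i ∈ s, {t : ℝ | Va T ≤ t ∧ t ≤ Vb T ∧ ¬ P i T t} := by
    rintro t ⟨a, b, c⟩
    push Not at c
    obtain ⟨i, hi, hc⟩ := c
    simp only [Set.mem_iUnion]
    exact ⟨i, hi, a, b, hc⟩
  refine (measure_mono e).trans ((measure_biUnion_finset_le s _).trans ?_)
  calc ∑ i ∈ s, volume {t : ℝ | Va T ≤ t ∧ t ≤ Vb T ∧ ¬ P i T t} ≤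
      ∑ i ∈ s, ENNReal.ofReal (q * T) := Finset.sum_le_sum h1
    _ = ENNReal.ofReal (s.card * q * T) := by
        rw [Finset.sum_const, nsmul_eq_mul, mul_assoc (s.card : ℝ) q T,
          ENNReal.ofReal_mul (p := (s.card : ℝ)) (by positivity), ENNReal.ofReal_natCast]

/-- Markov's inequality -/
lemma markov {f : ℝ → ℝ} (hf : Continuous f) (hf0 : ∀ t, 0 ≤ f t) {V1 V2 c Q : ℝ} (hV : V1 ≤ V2)
    (hc : 0 < c) (hQ : ∫ t in V1..V2, f t ≤ c * Q) :
    volume {t : ℝ | V1 ≤ t ∧ t ≤ V2 ∧ c ≤ f t} ≤ ENNReal.ofReal Q := by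
  have h1 : (ENNReal.ofReal c) * volume {t : ℝ | V1 ≤ t ∧ t ≤ V2 ∧ c ≤ f t} ≤
      ENNReal.ofReal (c * Q) := by
    have hset : {t : ℝ | V1 ≤ t ∧ t ≤ V2 ∧ c ≤ f t} = {t | c ≤ f t} ∩ Set.Icc V1 V2 := by
      ext t
      simp only [Set.mem_ofPred_eq, Set.mem_inter_iff, Set.mem_Icc]
      tauto
    have hint : IntegrableOn f (Set.Icc V1 V2) := (hf.continuousOn).integrableOn_Icc
    have h2 := mul_meas_ge_le_lintegral (μ := volume.restrict (Set.Icc V1 V2))
      (f := fun t => ENNReal.ofReal (f t)) (by fun_prop) (ENNReal.ofReal c)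
    rw [← ofReal_integral_eq_lintegral_ofReal hint (Eventually.of_forall hf0)] at h2
    rw [integral_Icc_eq_integral_Ioc, ← intervalIntegral.integral_of_le hV] at h2
    have h3 : (volume.restrict (Set.Icc V1 V2)) {t | ENNReal.ofReal c ≤ ENNReal.ofReal (f t)} =
        volume {t : ℝ | V1 ≤ t ∧ t ≤ V2 ∧ c ≤ f t} := by
      have e : {t | ENNReal.ofReal c ≤ ENNReal.ofReal (f t)} = {t | c ≤ f t} := by
        ext t
        simp only [Set.mem_ofPred_eq]
        exact ENNReal.ofReal_le_ofReal_iff (hf0 t)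
      rw [e, Measure.restrict_apply (isClosed_le continuous_const hf).measurableSet, hset]
    rw [h3] at h2
    exact h2.trans (ENNReal.ofReal_le_ofReal hQ)
  rw [ENNReal.ofReal_mul hc.le] at h1
  exact (ENNReal.mul_le_mul_iff_right (by simpa using hc) ENNReal.ofReal_ne_top).1 h1

lemma gm_nonneg {κ : ℝ} (hκ : 0 ≤ κ) (k : ℕ) : 0 ≤ gm 0 κ (2 * k) := by
  have h := gm_even κ k
  have h2 : gm 0 κ (2 * k) = (κ / 2) ^ k / k.factorial * (2 * k).factorial := by
    rw [← h, div_mul_cancel₀]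
    exact_mod_cast (2 * k).factorial_ne_zero
  rw [h2]
  positivity

/-- **tail bound** -/
theorem tail (hRH : RHs) {l : List Ent} {μ : ℝ} (h : Good l μ) (hμ : 0 < μ) (k : ℕ)
    (hk : 2 * k * μ < 1) {z : ℝ} (hz : 0 < z) {q : ℝ} (hq : gm 0 (kv l) (2 * k) < z ^ (2 * k) * q) :
    Sm (fun T t => |stt l μ T t| < z) q := by
  have h1 := mom_lim hRH h hμ (2 * k) (by push_cast; exact hk)
  have h2 := h1.eventually (gt_mem_nhds hq)
  unfold Sm
  filter_upwards [h2, V_ord, eventually_ge_atTop 1] with T h3 h4 h5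
  obtain ⟨h10, hV, -⟩ := h4
  have hT0 : 0 < T := by linarith
  have hc : Continuous fun t => stt l μ T t ^ (2 * k) := (stt_cont h h5).pow _
  have hm := markov (f := fun t => stt l μ T t ^ (2 * k)) hc
    (fun t => by rw [pow_mul]; positivity) (c := z ^ (2 * k)) (Q := q * T) hV (by positivity) (by
      have : ∫ t in Va T..Vb T, stt l μ T t ^ (2 * k) =
          T * (1 / T * ∫ t in Va T..Vb T, stt l μ T t ^ (2 * k)) := by field_simp
      rw [this]
      nlinarith)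
  refine (measure_mono ?_).trans hm
  rintro t ⟨a, b, c⟩
  refine ⟨a, b, ?_⟩
  push Not at c
  show z ^ (2 * k) ≤ stt l μ T t ^ (2 * k)
  rw [pow_mul (stt l μ T t), ← sq_abs (stt l μ T t), ← pow_mul]
  exact pow_le_pow_left₀ hz.le c _

/-! ### the size of the moments -/

lemma fac_upper (n : ℕ) (hn : 1 ≤ n) :
    (n.factorial : ℝ) ≤ Real.exp 1 * n * ((n : ℝ) / Real.exp 1) ^ n := by
  induction n, hn using Nat.le_induction with
  | base =>
    simp only [Nat.factorial_one, Nat.cast_one, mul_one, pow_one]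
    rw [mul_one_div, div_self (Real.exp_pos 1).ne']
  | succ n hn ih =>
    have hn0 : (0 : ℝ) < n := by exact_mod_cast hn
    have he := Real.exp_pos 1
    rw [Nat.factorial_succ]
    push_cast
    have hkey : Real.exp 1 * (n : ℝ) ^ (n + 1) ≤ ((n : ℝ) + 1) ^ (n + 1) := by
      have h1 : 1 - ((n : ℝ) / (n + 1)) ≤ Real.log (((n : ℝ) + 1) / n) := by
        have := Real.one_sub_inv_le_log_of_pos (x := ((n : ℝ) + 1) / n) (by positivity)
        rwa [inv_div] at this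
      have h2 : 1 ≤ (n + 1) * Real.log (((n : ℝ) + 1) / n) := by
        have h3 : 1 - ((n : ℝ) / (n + 1)) = 1 / (n + 1) := by field_simp; ring
        rw [h3, div_le_iff₀ (by positivity)] at h1
        linarith
      have h4 : Real.exp 1 ≤ (((n : ℝ) + 1) / n) ^ (n + 1) := by
        rw [← Real.exp_log (show 0 < (((n : ℝ) + 1) / n) ^ (n + 1) by positivity), Real.log_pow]
        apply Real.exp_le_exp.2
        push_cast
        exact h2
      rw [div_pow, le_div_iff₀ (by positivity)] at h4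
      exact h4
    calc ((n : ℝ) + 1) * (n.factorial : ℝ) ≤
        ((n : ℝ) + 1) * (Real.exp 1 * n * ((n : ℝ) / Real.exp 1) ^ n) := by gcongr
      _ = ((n : ℝ) + 1) * (Real.exp 1 * (n : ℝ) ^ (n + 1)) / Real.exp 1 ^ n := by
          rw [div_pow]; field_simp; ring
      _ ≤ ((n : ℝ) + 1) * ((n : ℝ) + 1) ^ (n + 1) / Real.exp 1 ^ n := by gcongr
      _ = _ := by rw [div_pow]; field_simp; ring

lemma fac_lower (n : ℕ) : ((n : ℝ) / Real.exp 1) ^ n ≤ n.factorial := by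
  have h := Real.pow_div_factorial_le_exp (n : ℝ) (by positivity) n
  rw [div_le_iff₀ (by positivity)] at h
  rw [div_pow, ← Real.exp_nat_mul, mul_one, div_le_iff₀ (Real.exp_pos _)]
  linarith

/-- the moments of the normal law -/
lemma gm_le {κ : ℝ} (hκ : 0 ≤ κ) {k : ℕ} (hk : 1 ≤ k) :
    gm 0 κ (2 * k) ≤ 2 * Real.exp 1 * k * (2 * k * κ / Real.exp 1) ^ k := by
  have h := gm_even κ k
  have h2 : gm 0 κ (2 * k) = (κ / 2) ^ k / k.factorial * (2 * k).factorial := by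
    rw [← h, div_mul_cancel₀]
    exact_mod_cast (2 * k).factorial_ne_zero
  have hk0 : (0 : ℝ) < k := by exact_mod_cast hk
  have he := Real.exp_pos 1
  have h3 := fac_upper (2 * k) (by omega)
  have h4 := fac_lower k
  have h5 : 0 < ((k : ℝ) / Real.exp 1) ^ k := by positivity
  rw [h2]
  push_cast at h3
  calc (κ / 2) ^ k / k.factorial * (2 * k).factorial ≤
      (κ / 2) ^ k / ((k : ℝ) / Real.exp 1) ^ k *
        (Real.exp 1 * (2 * k) * ((2 * (k : ℝ)) / Real.exp 1) ^ (2 * k)) := by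
        have : 0 ≤ (κ / 2) ^ k := by positivity
        gcongr
    _ = _ := by
        have e1 : ((2 * (k : ℝ)) / Real.exp 1) ^ (2 * k) =
            (4 * ((k : ℝ) / Real.exp 1)) ^ k * ((k : ℝ) / Real.exp 1) ^ k := by
          rw [pow_mul, ← mul_pow]
          congr 1
          ring
        have e2 : (2 * k * κ / Real.exp 1) ^ k = (κ / 2) ^ k * (4 * ((k : ℝ) / Real.exp 1)) ^ k := by
          rw [← mul_pow]
          congr 1
          ring
        rw [e1, e2]
        field_simp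

/-- statistics at a wider band -/
lemma RR_band {f : ℝ → ℝ} {μ μ' : ℝ} (hf : Continuous f) (h0 : 0 ≤ μ) (h : μ ≤ μ')
    (hz : ∀ x, μ ≤ |x| → f x = 0) (u : ℝ) :
    H370.A2.RR f μ' u = H370.A2.RR f μ u := by
  unfold H370.A2.RR
  have hc : Continuous fun α => f α * Real.cos (2 * Real.pi * α * u) := by fun_prop
  have h1 : ∫ α in (-μ')..(-μ), f α * Real.cos (2 * Real.pi * α * u) = 0 := by
    have : ∫ α in (-μ')..(-μ), f α * Real.cos (2 * Real.pi * α * u) =
        ∫ α in (-μ')..(-μ), (0 : ℝ) := by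
      apply intervalIntegral.integral_congr
      intro α hα
      rw [Set.uIcc_of_le (by linarith)] at hα
      show f α * Real.cos (2 * Real.pi * α * u) = 0
      rw [hz α (by rw [abs_of_nonpos (by linarith [hα.2])]; linarith [hα.2]), zero_mul]
    rw [this]; simp
  have h2 : ∫ α in μ..μ', f α * Real.cos (2 * Real.pi * α * u) = 0 := by
    have : ∫ α in μ..μ', f α * Real.cos (2 * Real.pi * α * u) =
        ∫ α in μ..μ', (0 : ℝ) := by
      apply intervalIntegral.integral_congr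
      intro α hα
      rw [Set.uIcc_of_le h] at hα
      show f α * Real.cos (2 * Real.pi * α * u) = 0
      rw [hz α (by rw [abs_of_nonneg (by linarith [hα.1])]; exact hα.1), zero_mul]
    rw [this]; simp
  rw [← intervalIntegral.integral_add_adjacent_intervals (b := -μ) (hc.intervalIntegrable _ _)
    (hc.intervalIntegrable _ _), h1, zero_add,
    ← intervalIntegral.integral_add_adjacent_intervals (b := μ) (hc.intervalIntegrable _ _)
    (hc.intervalIntegrable _ _), h2, add_zero]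

lemma XX_band {f : ℝ → ℝ} {μ μ' : ℝ} (hf : Continuous f) (h0 : 0 ≤ μ) (h : μ ≤ μ')
    (hz : ∀ x, μ ≤ |x| → f x = 0) {T : ℝ} (hT : 1 ≤ T) (t : ℝ) : XX f μ' T t = XX f μ T t := by
  rw [XX_eq hT, XX_eq hT]
  refine Finset.sum_congr rfl fun s _ => ?_
  rw [RR_band hf h0 h hz]

lemma stt_band {l : List Ent} {μ μ' : ℝ} (hl : Good l μ) (h0 : 0 ≤ μ) (h : μ ≤ μ') {T : ℝ}
    (hT : 1 ≤ T) (t : ℝ) : stt l μ' T t = stt l μ T t := by
  unfold stt
  congr 1
  apply List.map_congr_left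
  intro e he
  have ha := hl e he
  rw [XX_band ha.cont h0 h ha.zero hT]

end Pool.Agent.H478.EX
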