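import Pool.Agent.H478.EX7

/-! The second moment method for products of weights. -/

open Finset Complex MeasureTheory Filter Topology ProbabilityTheory

namespace Pool.Agent.H478.EX

open Pool.Agent.H478.CW
open Pool.Agent.R321.FA
open SP (ZZ mu Mk RHs)

/-- the product of the weights at `x` -/
noncomputable def Zp (J : ℕ) (b : ℕ → ℝ) (x a μ T t : ℝ) : ℝ :=
  ∏ j : Fin J, wt1 a (Xs (b j) (b (j + 1)) x μ T t)

lemma Zp_pos (J : ℕ) (b : ℕ → ℝ) (x a μ T t : ℝ) : 0 < Zp J b x a μ T t :=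
  Finset.prod_pos fun _ _ => wt1_pos _ _

lemma Wp_empty {J : ℕ} (b : ℕ → ℝ) (x y a μ T t : ℝ) :
    Wp b x y a (∅ : Finset (Fin J)) μ T t = Zp J b x a μ T t := by
  unfold Wp Zp
  refine Finset.prod_congr rfl fun j _ => ?_
  rw [th_zero (Finset.notMem_empty j)]
  simp [wt1]

lemma Zp_mul_le {J : ℕ} (b : ℕ → ℝ) (x y a : ℝ) (S : Finset (Fin J)) (μ T t : ℝ) :
    Zp J b x a μ T t * Zp J b y a μ T t ≤ Wp b x y a S μ T t := by
  unfold Wp Zp
  rw [← Finset.prod_mul_distrib]
  apply Finset.prod_le_prod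
  · intro j _
    exact mul_nonneg (wt1_pos _ _).le (wt1_pos _ _).le
  · intro j _
    unfold wt1
    apply mul_le_mul_of_nonneg_left _ (Real.exp_pos _).le
    apply Real.exp_le_exp.2
    have h0 := th_nonneg S j
    have h1 := th_le S j
    have h2 : th S j ^ 2 ≤ 1 := by nlinarith
    rw [mul_pow]
    nlinarith [sq_nonneg (Xs (b j) (b (j + 1)) y μ T t - a)]

lemma Zp_cont {J : ℕ} {b : ℕ → ℝ} (hb : 0 < b 0) (hbm : StrictMono b) {μ : ℝ} (hμ : b J ≤ μ)
    (x a : ℝ) {T : ℝ} (hT : 1 ≤ T) : Continuous (Zp J b x a μ T) := by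
  unfold Zp
  refine continuous_finsetProd _ fun j _ => ?_
  have hbp : ∀ j, 0 < b j := fun j => hb.trans_le (hbm.monotone (Nat.zero_le j))
  have h := Xs_cont (hbp j) (hbm (Nat.lt_succ_self j))
    ((hbm.monotone (by omega : (j : ℕ) + 1 ≤ J)).trans hμ) x hT
  unfold wt1
  fun_prop

lemma Gp_empty {J : ℕ} (b : ℕ → ℝ) (D a : ℝ) : Gp b D a (∅ : Finset (Fin J)) =
    ∏ j : Fin J, P1 a (cvf (b j) (b (j + 1)) 0) := by
  unfold Gp
  refine Finset.prod_congr rfl fun j _ => ?_
  rw [if_neg (Finset.notMem_empty j)]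

/-- **the second moment method** -/
theorem second_moment (hRH : RHs) {J : ℕ} {b : ℕ → ℝ} (hb : 0 < b 0) (hbm : StrictMono b)
    {μ : ℝ} (hμ : b J ≤ μ) (hμ1 : μ ≤ 1) (a : ℝ) {ι : Type} [Fintype ι] (x : ι → ℝ)
    (S : ι → ι → Finset (Fin J)) {V : ℝ}
    (hV : ∀ j : Fin J, cvf (b j) (b (j + 1)) 0 ≤ V) (hV0 : 0 ≤ V) (k : ℕ) (hk : 2 * k * μ < 1)
    {R : ℝ} (hR : 0 ≤ R) {M θ θ' η : ℝ}
    (hM : M = (Fintype.card ι : ℝ) * ∏ j : Fin J, P1 a (cvf (b j) (b (j + 1)) 0)) (hM1 : 1 ≤ M)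
    (h2 : ∑ p, ∑ q, Gp b (x p - x q) a (S p q) ≤ (1 + θ) * M ^ 2)
    (h3 : (Fintype.card ι : ℝ) ^ 2 *
      (2 * ((V * R) ^ k / k.factorial) + 2 * (2 ^ J * Real.exp (-(R / 4)))) ≤ θ') (hη : 0 < η) :
    Sm (fun T t => M / 2 < ∑ p, Zp J b (x p) a μ T t) (4 * (θ + 3 * θ' + 3 * η)) := by
  classical
  set N : ℝ := (Fintype.card ι : ℝ) with hN
  have hN0 : 0 ≤ N := Nat.cast_nonneg _
  set er := 2 * ((V * R) ^ k / k.factorial) + 2 * (2 ^ J * Real.exp (-(R / 4))) with her
  have her0 : 0 ≤ er := by rw [her]; positivity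
  set G1 := ∏ j : Fin J, P1 a (cvf (b j) (b (j + 1)) 0) with hG1
  set η' : ℝ := η / (N ^ 2 + 1) with hη'
  have hη0 : 0 < η' := by positivity
  have hN2 : N ^ 2 * η' ≤ η := by
    rw [hη', ← mul_div_assoc, div_le_iff₀ (by positivity)]
    nlinarith [sq_nonneg N]
  have hNN : N ≤ N ^ 2 := by
    rw [hN]
    exact_mod_cast Nat.le_self_pow (by norm_num) _
  have e1 : ∀ᶠ T : ℝ in atTop, ∀ p q, |1 / T * (∫ t in Va T..Vb T, Wp b (x p) (x q) a (S p q) μ T t) -
      Gp b (x p - x q) a (S p q)| ≤ er + η' :=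
    eventually_all.2 fun p => eventually_all.2 fun q =>
      pair_lim hRH hb hbm hμ hμ1 (x p) (x q) a (S p q) hV hV0 k hk hR hη0
  have e2 : ∀ᶠ T : ℝ in atTop, ∀ p, |1 / T * (∫ t in Va T..Vb T, Zp J b (x p) a μ T t) - G1| ≤
      er + η' := by
    refine eventually_all.2 fun p => ?_
    have h := pair_lim hRH hb hbm hμ hμ1 (x p) (x p) a (∅ : Finset (Fin J)) hV hV0 k hk hR hη0
    filter_upwards [h] with T hT
    rw [Gp_empty] at hT
    simp only [Wp_empty] at hT
    exact hT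
  unfold Sm
  filter_upwards [e1, e2, V_ord, eventually_ge_atTop 1] with T h4 h5 h6 hT1
  obtain ⟨h10, hVV, hVT⟩ := h6
  have hT0 : 0 < T := by linarith
  have hZc : ∀ p, Continuous (Zp J b (x p) a μ T) := fun p => Zp_cont hb hbm hμ (x p) a hT1
  have hbp : ∀ j, 0 < b j := fun j => hb.trans_le (hbm.monotone (Nat.zero_le j))
  have hWc : ∀ p q, Continuous (Wp b (x p) (x q) a (S p q) μ T) := by
    intro p q
    unfold Wp
    refine continuous_finsetProd _ fun j _ => ?_
    have h := Xs_cont (hbp j) (hbm (Nat.lt_succ_self j))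
      ((hbm.monotone (by omega : (j : ℕ) + 1 ≤ J)).trans hμ) (x p) hT1
    have h' := Xs_cont (hbp j) (hbm (Nat.lt_succ_self j))
      ((hbm.monotone (by omega : (j : ℕ) + 1 ≤ J)).trans hμ) (x q) hT1
    fun_prop
  have hSc : Continuous fun t => ∑ p, Zp J b (x p) a μ T t :=
    continuous_finsetSum _ fun p _ => hZc p
  -- the second moment
  have i2 : ∫ t in Va T..Vb T, (∑ p, Zp J b (x p) a μ T t) ^ 2 ≤
      T * ((1 + θ) * M ^ 2 + θ' + η) := by
    calc ∫ t in Va T..Vb T, (∑ p, Zp J b (x p) a μ T t) ^ 2 ≤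
        ∫ t in Va T..Vb T, ∑ p, ∑ q, Wp b (x p) (x q) a (S p q) μ T t := by
          apply intervalIntegral.integral_mono_on hVV
          · exact (hSc.pow 2).intervalIntegrable _ _
          · exact (continuous_finsetSum _ fun p _ =>
              continuous_finsetSum _ fun q _ => hWc p q).intervalIntegrable _ _
          · intro t _
            rw [sq, Finset.sum_mul_sum]
            exact Finset.sum_le_sum fun p _ => Finset.sum_le_sum fun q _ => Zp_mul_le _ _ _ _ _ _ _ _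
      _ = ∑ p, ∑ q, ∫ t in Va T..Vb T, Wp b (x p) (x q) a (S p q) μ T t := by
          rw [intervalIntegral.integral_finsetSum fun p _ =>
            (continuous_finsetSum _ fun q _ => hWc p q).intervalIntegrable _ _]
          refine Finset.sum_congr rfl fun p _ => ?_
          rw [intervalIntegral.integral_finsetSum fun q _ => (hWc p q).intervalIntegrable _ _]
      _ ≤ ∑ p, ∑ q, T * (Gp b (x p - x q) a (S p q) + (er + η')) := by
          refine Finset.sum_le_sum fun p _ => Finset.sum_le_sum fun q _ => ?_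
          have h := (abs_le.1 (h4 p q)).2
          have : 1 / T * (∫ t in Va T..Vb T, Wp b (x p) (x q) a (S p q) μ T t) ≤
              Gp b (x p - x q) a (S p q) + (er + η') := by linarith
          calc ∫ t in Va T..Vb T, Wp b (x p) (x q) a (S p q) μ T t =
              T * (1 / T * ∫ t in Va T..Vb T, Wp b (x p) (x q) a (S p q) μ T t) := by field_simp
            _ ≤ _ := by gcongr
      _ = T * ((∑ p, ∑ q, Gp b (x p - x q) a (S p q)) + N ^ 2 * (er + η')) := by
          simp only [← Finset.mul_sum, Finset.sum_add_distrib, Finset.sum_const, Finset.card_univ,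
            nsmul_eq_mul]
          ring
      _ ≤ _ := by
          apply mul_le_mul_of_nonneg_left _ hT0.le
          rw [mul_add]
          linarith
  have i1 : T * (M - (θ' + η)) ≤ ∫ t in Va T..Vb T, ∑ p, Zp J b (x p) a μ T t := by
    rw [intervalIntegral.integral_finsetSum fun p _ => (hZc p).intervalIntegrable _ _]
    calc T * (M - (θ' + η)) ≤ T * (M - N ^ 2 * (er + η')) := by
          apply mul_le_mul_of_nonneg_left _ hT0.le
          rw [mul_add]
          linarith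
      _ ≤ T * (M - N * (er + η')) := by
          have : 0 ≤ er + η' := by positivity
          gcongr
      _ = ∑ p : ι, T * (G1 - (er + η')) := by
          rw [Finset.sum_const, Finset.card_univ, nsmul_eq_mul, hM]
          ring
      _ ≤ ∑ p, ∫ t in Va T..Vb T, Zp J b (x p) a μ T t := by
          refine Finset.sum_le_sum fun p _ => ?_
          have h := (abs_le.1 (h5 p)).1
          calc T * (G1 - (er + η')) ≤ T * (1 / T * ∫ t in Va T..Vb T, Zp J b (x p) a μ T t) := by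
                gcongr
                linarith
            _ = _ := by field_simp
  have hθη : 0 ≤ θ' + η := by
    have : 0 ≤ N ^ 2 * er := by positivity
    linarith
  have hf : Continuous fun t => (∑ p, Zp J b (x p) a μ T t - M) ^ 2 := by fun_prop
  have hm := markov hf (fun t => sq_nonneg _) (c := (M / 2) ^ 2)
    (Q := 4 * (θ + 3 * θ' + 3 * η) * T) hVV (by positivity) (by
      have e : ∀ t, (∑ p, Zp J b (x p) a μ T t - M) ^ 2 =
          ((∑ p, Zp J b (x p) a μ T t) ^ 2 - 2 * M * ∑ p, Zp J b (x p) a μ T t) + M ^ 2 := by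
        intro t; ring
      simp only [e]
      have hF2 : Continuous fun t => (∑ p, Zp J b (x p) a μ T t) ^ 2 := hSc.pow 2
      have hF1 : Continuous fun t => 2 * M * ∑ p, Zp J b (x p) a μ T t := hSc.const_mul _
      have hF12 : Continuous fun t => (∑ p, Zp J b (x p) a μ T t) ^ 2 -
        2 * M * ∑ p, Zp J b (x p) a μ T t := hF2.sub hF1
      rw [intervalIntegral.integral_add (hF12.intervalIntegrable _ _)
        (continuous_const.intervalIntegrable _ _),
        intervalIntegral.integral_sub (hF2.intervalIntegrable _ _)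
        (hF1.intervalIntegrable _ _), intervalIntegral.integral_const,
        intervalIntegral.integral_const_mul, smul_eq_mul]
      have a1 : (Vb T - Va T) * M ^ 2 ≤ T * M ^ 2 := by gcongr
      have a2 : 2 * M * (T * (M - (θ' + η))) ≤
          2 * M * ∫ t in Va T..Vb T, ∑ p, Zp J b (x p) a μ T t := by gcongr
      have a3 : T * ((θ' + η) + 2 * M * (θ' + η)) ≤ T * (3 * M ^ 2 * (θ' + η)) := by
        apply mul_le_mul_of_nonneg_left _ hT0.le
        nlinarith [mul_nonneg hθη (by nlinarith : 0 ≤ 3 * M ^ 2 - 1 - 2 * M)]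
      calc (∫ t in Va T..Vb T, (∑ p, Zp J b (x p) a μ T t) ^ 2) -
          2 * M * (∫ t in Va T..Vb T, ∑ p, Zp J b (x p) a μ T t) + (Vb T - Va T) * M ^ 2 ≤
          T * ((1 + θ) * M ^ 2 + θ' + η) - 2 * M * (T * (M - (θ' + η))) + T * M ^ 2 := by linarith
        _ = T * (θ * M ^ 2) + T * ((θ' + η) + 2 * M * (θ' + η)) := by ring
        _ ≤ T * (θ * M ^ 2) + T * (3 * M ^ 2 * (θ' + η)) := by linarith
        _ = _ := by ring)
  refine (measure_mono ?_).trans hm
  rintro t ⟨a', b', c'⟩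
  refine ⟨a', b', ?_⟩
  push Not at c'
  show (M / 2) ^ 2 ≤ (∑ p, Zp J b (x p) a μ T t - M) ^ 2
  have h7 : M / 2 ≤ M - ∑ p, Zp J b (x p) a μ T t := by linarith
  calc (M / 2) ^ 2 ≤ (M - ∑ p, Zp J b (x p) a μ T t) ^ 2 := pow_le_pow_left₀ (by positivity) h7 2
    _ = _ := by ring

/-- large sum of weights: a good point -/
lemma good_point {J : ℕ} {b : ℕ → ℝ} {a μ T t : ℝ} {ι : Type} [Fintype ι] (x : ι → ℝ) {M w : ℝ}
    (h : M / 2 < ∑ p, Zp J b (x p) a μ T t) (hw : (Fintype.card ι : ℝ) * Real.exp (-(w ^ 2 / 2)) ≤ M / 2)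
    (hw0 : 0 ≤ w) :
    ∃ p, ∀ j : Fin J, |Xs (b j) (b (j + 1)) (x p) μ T t - a| ≤ w := by
  by_contra hcon
  push Not at hcon
  have h1 : ∀ p, Zp J b (x p) a μ T t ≤ Real.exp (-(w ^ 2 / 2)) := by
    intro p
    obtain ⟨j, hj⟩ := hcon p
    unfold Zp
    have h2 : ∏ i : Fin J, wt1 a (Xs (b i) (b (i + 1)) (x p) μ T t) ≤
        wt1 a (Xs (b j) (b (j + 1)) (x p) μ T t) := by
      rw [← Finset.mul_prod_erase _ _ (Finset.mem_univ j)]
      apply mul_le_of_le_one_right (wt1_pos _ _).le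
      exact Finset.prod_le_one (fun i _ => (wt1_pos _ _).le) (fun i _ => wt1_le _ _)
    refine h2.trans ?_
    unfold wt1
    apply Real.exp_le_exp.2
    have h3 : w ^ 2 ≤ (Xs (b j) (b (j + 1)) (x p) μ T t - a) ^ 2 := by
      rw [← sq_abs (Xs (b j) (b (j + 1)) (x p) μ T t - a)]
      exact pow_le_pow_left₀ hw0 hj.le 2
    linarith
  have h4 : ∑ p, Zp J b (x p) a μ T t ≤ (Fintype.card ι : ℝ) * Real.exp (-(w ^ 2 / 2)) := by
    calc ∑ p, Zp J b (x p) a μ T t ≤ ∑ _p : ι, Real.exp (-(w ^ 2 / 2)) :=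
          Finset.sum_le_sum fun p _ => h1 p
      _ = _ := by rw [Finset.sum_const, Finset.card_univ, nsmul_eq_mul]
  linarith

end Pool.Agent.H478.EX
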