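import Pool.Agent.H478.EX8

/-! Paths: distances and sums over pairs. -/

open Finset Complex MeasureTheory Filter Topology ProbabilityTheory

namespace Pool.Agent.H478.EX

open Pool.Agent.H478.CW

/-- the point of a path -/
def xq (J n : ℕ) {n' : ℕ} (p : Fin J → Fin n') : ℕ := ∑ j : Fin J, ((p j : ℕ) + 1) * n ^ (J + 1 - j)

open Classical in
/-- the bands from the first difference on -/
noncomputable def Sq {J n' : ℕ} (p q : Fin J → Fin n') : Finset (Fin J) :=
  Finset.univ.filter fun j => ∃ i ≤ j, p i ≠ q i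

lemma mem_Sq {J n' : ℕ} {p q : Fin J → Fin n'} {j : Fin J} : j ∈ Sq p q ↔ ∃ i ≤ j, p i ≠ q i := by
  unfold Sq; simp

lemma geo_tail {J n : ℕ} (hn : 2 ≤ n) (l : Fin J) :
    ∑ i ∈ Finset.univ.filter (fun i : Fin J => l < i), n ^ (J + 1 - (i : ℕ)) ≤ 2 * n ^ (J - l) := by
  classical
  have hinj : Set.InjOn (fun i : Fin J => J + 1 - (i : ℕ))
      ((Finset.univ.filter (fun i : Fin J => l < i) : Finset (Fin J)) : Set (Fin J)) := by
    intro i _ k _ h
    have h' : J + 1 - (i : ℕ) = J + 1 - (k : ℕ) := h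
    have := i.2
    have := k.2
    exact Fin.ext (by omega)
  rw [← Finset.sum_image (f := fun k => n ^ k) hinj]
  have hsub : (Finset.univ.filter (fun i : Fin J => l < i)).image (fun i : Fin J => J + 1 - (i : ℕ)) ⊆
      Finset.range (J - l + 1) := by
    intro k hk
    simp only [Finset.mem_image, Finset.mem_filter, Finset.mem_univ, true_and] at hk
    obtain ⟨i, hi, rfl⟩ := hk
    have h1 : (l : ℕ) < i := hi
    have := i.2
    rw [Finset.mem_range]
    omega
  refine (Finset.sum_le_sum_of_subset hsub).trans ?_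
  rw [Finset.sum_range_succ]
  have := Nat.geomSum_lt (m := n) (n := J - l) (s := Finset.range (J - l)) hn
    (fun k hk => Finset.mem_range.1 hk)
  omega

/-- distance at the first difference -/
lemma dist_first {J n n' : ℕ} (hn : 2 ≤ n) (hn' : 4 * n' ≤ n) {p q : Fin J → Fin n'} {l : Fin J}
    (h1 : ∀ i < l, p i = q i) (h2 : p l ≠ q l) :
    (n : ℝ) ^ (J + 1 - (l : ℕ)) / 2 ≤ |(xq J n p : ℝ) - xq J n q| := by
  classical
  have hn0 : (0 : ℝ) < n := by exact_mod_cast (by omega : 0 < n)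
  have e1 : (xq J n p : ℝ) - xq J n q =
      ∑ i : Fin J, (((p i : ℕ) : ℝ) - ((q i : ℕ) : ℝ)) * (n : ℝ) ^ (J + 1 - (i : ℕ)) := by
    unfold xq
    push_cast
    rw [← Finset.sum_sub_distrib]
    refine Finset.sum_congr rfl fun i _ => ?_
    ring
  have hd : (1 : ℝ) ≤ |((p l : ℕ) : ℝ) - ((q l : ℕ) : ℝ)| := by
    have h3 : (p l : ℕ) ≠ (q l : ℕ) := fun h => h2 (Fin.ext h)
    have h4 : (1 : ℤ) ≤ |((p l : ℕ) : ℤ) - ((q l : ℕ) : ℤ)| := by
      apply Int.one_le_abs
      omega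
    exact_mod_cast h4
  rw [e1, ← Finset.add_sum_erase _ _ (Finset.mem_univ l)]
  have hrest : |∑ i ∈ Finset.univ.erase l, (((p i : ℕ) : ℝ) - ((q i : ℕ) : ℝ)) *
      (n : ℝ) ^ (J + 1 - (i : ℕ))| ≤ (n : ℝ) ^ (J + 1 - (l : ℕ)) / 2 := by
    calc |∑ i ∈ Finset.univ.erase l, (((p i : ℕ) : ℝ) - ((q i : ℕ) : ℝ)) *
        (n : ℝ) ^ (J + 1 - (i : ℕ))| ≤
        ∑ i ∈ Finset.univ.erase l, |(((p i : ℕ) : ℝ) - ((q i : ℕ) : ℝ)) *
        (n : ℝ) ^ (J + 1 - (i : ℕ))| := Finset.abs_sum_le_sum_abs _ _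
      _ ≤ ∑ i ∈ Finset.univ.erase l, (if l < i then (n' : ℝ) * (n : ℝ) ^ (J + 1 - (i : ℕ)) else 0) := by
          refine Finset.sum_le_sum fun i hi => ?_
          by_cases hli : l < i
          · rw [if_pos hli, abs_mul, abs_of_pos (by positivity : 0 < (n : ℝ) ^ (J + 1 - (i : ℕ)))]
            gcongr
            have a1 : ((p i : ℕ) : ℝ) ≤ n' := by exact_mod_cast (p i).2.le
            have a2 : ((q i : ℕ) : ℝ) ≤ n' := by exact_mod_cast (q i).2.le
            have a3 : (0 : ℝ) ≤ ((p i : ℕ) : ℝ) := Nat.cast_nonneg _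
            have a4 : (0 : ℝ) ≤ ((q i : ℕ) : ℝ) := Nat.cast_nonneg _
            rw [abs_le]
            constructor <;> linarith
          · rw [if_neg hli]
            have : i < l := lt_of_le_of_ne (not_lt.1 hli) (Finset.ne_of_mem_erase hi)
            rw [h1 i this]
            simp
      _ ≤ ∑ i : Fin J, (if l < i then (n' : ℝ) * (n : ℝ) ^ (J + 1 - (i : ℕ)) else 0) := by
          apply Finset.sum_le_sum_of_subset_of_nonneg (Finset.erase_subset _ _)
          intro i _ _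
          split_ifs <;> positivity
      _ = n' * ((∑ i ∈ Finset.univ.filter (fun i : Fin J => l < i), n ^ (J + 1 - (i : ℕ)) : ℕ) : ℝ) := by
          rw [← Finset.sum_filter]
          push_cast
          rw [Finset.mul_sum]
      _ ≤ n' * ((2 * n ^ (J - (l : ℕ)) : ℕ) : ℝ) := by
          gcongr
          exact geo_tail hn l
      _ ≤ (n : ℝ) ^ (J + 1 - (l : ℕ)) / 2 := by
          have h5 : J + 1 - (l : ℕ) = (J - l) + 1 := by have := l.2; omega
          rw [h5, pow_succ]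
          push_cast
          have h6 : (4 : ℝ) * n' ≤ n := by exact_mod_cast hn'
          have h7 : (0 : ℝ) ≤ (n : ℝ) ^ (J - (l : ℕ)) := by positivity
          nlinarith [mul_le_mul_of_nonneg_right h6 h7]
  have hmain : (n : ℝ) ^ (J + 1 - (l : ℕ)) ≤ |(((p l : ℕ) : ℝ) - ((q l : ℕ) : ℝ)) *
      (n : ℝ) ^ (J + 1 - (l : ℕ))| := by
    rw [abs_mul, abs_of_pos (by positivity : 0 < (n : ℝ) ^ (J + 1 - (l : ℕ)))]
    exact le_mul_of_one_le_left (by positivity) hd
  set A := (((p l : ℕ) : ℝ) - ((q l : ℕ) : ℝ)) * (n : ℝ) ^ (J + 1 - (l : ℕ)) with hA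
  set B := ∑ i ∈ Finset.univ.erase l, (((p i : ℕ) : ℝ) - ((q i : ℕ) : ℝ)) *
      (n : ℝ) ^ (J + 1 - (i : ℕ)) with hB
  have h8 : |A| ≤ |A + B| + |B| := by
    calc |A| = |(A + B) - B| := by congr 1; ring
      _ ≤ _ := abs_sub _ _
  linarith

/-- distance in the bands from the first difference on -/
lemma dist_Sq {J n n' : ℕ} (hn : 2 ≤ n) (hn' : 4 * n' ≤ n) {p q : Fin J → Fin n'} {j : Fin J}
    (hj : j ∈ Sq p q) : (n : ℝ) ^ (J + 1 - (j : ℕ)) / 2 ≤ |(xq J n p : ℝ) - xq J n q| := by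
  classical
  obtain ⟨i, hij, hi⟩ := mem_Sq.1 hj
  have hne : (Finset.univ.filter fun i : Fin J => p i ≠ q i).Nonempty := ⟨i, by simp [hi]⟩
  obtain ⟨l, hl⟩ := (Finset.univ.filter fun i : Fin J => p i ≠ q i).exists_min_image id hne
  have hl1 : p l ≠ q l := by simpa using hl.1
  have hl2 : ∀ i, p i ≠ q i → l ≤ i := fun i hi => hl.2 i (by simp [hi])
  have h1 : ∀ i < l, p i = q i := by
    intro i hi
    by_contra h
    exact absurd (hl2 i h) (not_le.2 hi)
  refine le_trans ?_ (dist_first hn hn' h1 hl1)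
  have h3 : (l : ℕ) ≤ j := (hl2 i hi).trans hij
  have h4 : (1 : ℝ) ≤ n := by exact_mod_cast (by omega : 1 ≤ n)
  have : (n : ℝ) ^ (J + 1 - (j : ℕ)) ≤ (n : ℝ) ^ (J + 1 - (l : ℕ)) :=
    pow_le_pow_right₀ h4 (by omega)
  linarith

/-- the points are bounded -/
lemma xq_le {J n n' : ℕ} (hn : 2 ≤ n) (hn' : 4 * n' ≤ n) (p : Fin J → Fin n') :
    2 * xq J n p ≤ n ^ (J + 2) := by
  classical
  have h1 : xq J n p ≤ n' * ∑ i : Fin J, n ^ (J + 1 - (i : ℕ)) := by
    unfold xq
    rw [Finset.mul_sum]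
    exact Finset.sum_le_sum fun i _ => Nat.mul_le_mul_right _ (p i).2
  have hinj : Set.InjOn (fun i : Fin J => J + 1 - (i : ℕ))
      ((Finset.univ : Finset (Fin J)) : Set (Fin J)) := by
    intro i _ k _ h
    have h' : J + 1 - (i : ℕ) = J + 1 - (k : ℕ) := h
    have := i.2
    have := k.2
    exact Fin.ext (by omega)
  have h2 : ∑ i : Fin J, n ^ (J + 1 - (i : ℕ)) ≤ 2 * n ^ (J + 1) := by
    rw [← Finset.sum_image (f := fun k => n ^ k) hinj]
    have hsub : (Finset.univ : Finset (Fin J)).image (fun i : Fin J => J + 1 - (i : ℕ)) ⊆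
        Finset.range (J + 1 + 1) := by
      intro k hk
      simp only [Finset.mem_image, Finset.mem_univ, true_and] at hk
      obtain ⟨i, rfl⟩ := hk
      rw [Finset.mem_range]
      omega
    refine (Finset.sum_le_sum_of_subset hsub).trans ?_
    rw [Finset.sum_range_succ]
    have := Nat.geomSum_lt (m := n) (n := J + 1) (s := Finset.range (J + 1)) hn
      (fun k hk => Finset.mem_range.1 hk)
    omega
  calc 2 * xq J n p ≤ 2 * (n' * (2 * n ^ (J + 1))) := by
        have := Nat.mul_le_mul_left n' h2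
        omega
    _ = (4 * n') * n ^ (J + 1) := by ring
    _ ≤ n * n ^ (J + 1) := Nat.mul_le_mul_right _ hn'
    _ = n ^ (J + 2) := by ring

lemma xq_pos {J n n' : ℕ} (hJ : 1 ≤ J) (hn : 1 ≤ n) (p : Fin J → Fin n') : 1 ≤ xq J n p := by
  unfold xq
  have h := Finset.single_le_sum (f := fun j : Fin J => ((p j : ℕ) + 1) * n ^ (J + 1 - (j : ℕ)))
    (fun i _ => Nat.zero_le _) (Finset.mem_univ (⟨0, hJ⟩ : Fin J))
  have h2 : 1 ≤ ((p ⟨0, hJ⟩ : ℕ) + 1) * n ^ (J + 1 - ((⟨0, hJ⟩ : Fin J) : ℕ)) :=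
    Nat.one_le_iff_ne_zero.2 (by positivity)
  exact h2.trans h

/-- the complementary product is dominated by coincidence products -/
lemma prod_Sq {J n' : ℕ} (p q : Fin J → Fin n') {P : Fin J → ℝ} (hP : ∀ j, 0 < P j) :
    ∏ j : Fin J, (if j ∈ Sq p q then 1 else 1 / P j) ≤ 1 + ∑ l : Fin J, ∏ j : Fin J,
      (if j ≤ l then (if p j = q j then 1 / P j else 0) else 1) := by
  classical
  have h0 : ∀ l j : Fin J, 0 ≤ (if j ≤ l then (if p j = q j then 1 / P j else 0) else (1 : ℝ)) := by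
    intro l j
    have := hP j
    split_ifs <;> positivity
  by_cases hS : ∀ j, j ∈ Sq p q
  · have h1 : ∏ j : Fin J, (if j ∈ Sq p q then 1 else 1 / P j) = 1 :=
      Finset.prod_eq_one fun j _ => if_pos (hS j)
    rw [h1]
    have h2 : 0 ≤ ∑ l : Fin J, ∏ j : Fin J,
      (if j ≤ l then (if p j = q j then 1 / P j else 0) else (1 : ℝ)) :=
      Finset.sum_nonneg fun l _ => Finset.prod_nonneg fun j _ => h0 l j
    linarith
  · push Not at hS
    obtain ⟨i0, hi0⟩ := hS
    have hne : (Finset.univ.filter fun j : Fin J => j ∉ Sq p q).Nonempty := ⟨i0, by simp [hi0]⟩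
    obtain ⟨l, hl⟩ := (Finset.univ.filter fun j : Fin J => j ∉ Sq p q).exists_max_image id hne
    have hl1 : l ∉ Sq p q := by simpa using hl.1
    have hl2 : ∀ j, j ∉ Sq p q → j ≤ l := fun j hj => hl.2 j (by simp [hj])
    have hl3 : ∀ j ≤ l, p j = q j := by
      intro j hj
      by_contra h
      exact hl1 (mem_Sq.2 ⟨j, hj, h⟩)
    have h1 : ∏ j : Fin J, (if j ∈ Sq p q then 1 else 1 / P j) =
        ∏ j : Fin J, (if j ≤ l then (if p j = q j then 1 / P j else 0) else 1) := by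
      refine Finset.prod_congr rfl fun j _ => ?_
      by_cases hj : j ≤ l
      · rw [if_pos hj, if_pos (hl3 j hj), if_neg]
        intro hj2
        obtain ⟨i, hij, hi⟩ := mem_Sq.1 hj2
        exact hi (hl3 i (hij.trans hj))
      · rw [if_neg hj, if_pos]
        by_contra h
        exact hj (hl2 j h)
    rw [h1]
    have h2 := Finset.single_le_sum (f := fun l : Fin J => ∏ j : Fin J,
      (if j ≤ l then (if p j = q j then 1 / P j else 0) else (1 : ℝ)))
      (fun l _ => Finset.prod_nonneg fun j _ => h0 l j) (Finset.mem_univ l)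
    linarith

/-- summing the coincidence products -/
lemma sum_coinc {J n' : ℕ} (p : Fin J → Fin n') {P : Fin J → ℝ} (hP : ∀ j, 0 < P j) {τ : ℝ}
    (hτ : τ ≤ 1) (hn' : 0 < n') (h : ∀ j, 1 / (n' * P j) ≤ τ) (l : Fin J) :
    ∑ q : Fin J → Fin n', ∏ j : Fin J, (if j ≤ l then (if p j = q j then 1 / P j else 0) else 1) ≤
      (n' : ℝ) ^ J * τ := by
  classical
  have hn0 : (0 : ℝ) < n' := by exact_mod_cast hn'
  have e1 : ∑ q : Fin J → Fin n', ∏ j : Fin J,
      (if j ≤ l then (if p j = q j then 1 / P j else 0) else (1 : ℝ)) =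
      ∏ j : Fin J, ∑ a : Fin n', (if j ≤ l then (if p j = a then 1 / P j else 0) else (1 : ℝ)) := by
    rw [Finset.prod_univ_sum, Fintype.piFinset_univ]
  rw [e1]
  have e2 : ∀ j : Fin J, ∑ a : Fin n', (if j ≤ l then (if p j = a then 1 / P j else 0) else (1 : ℝ)) =
      n' * (if j ≤ l then 1 / (n' * P j) else 1) := by
    intro j
    have hPj := hP j
    split_ifs with hj
    · rw [Finset.sum_ite_eq Finset.univ (p j)]
      simp only [Finset.mem_univ, if_true]
      field_simp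
    · simp
  simp only [e2]
  rw [Finset.prod_mul_distrib, Finset.prod_const, Finset.card_univ, Fintype.card_fin]
  apply mul_le_mul_of_nonneg_left _ (by positivity)
  have h0 : ∀ j : Fin J, 0 ≤ (if j ≤ l then 1 / (n' * P j) else (1 : ℝ)) := by
    intro j
    have := hP j
    split_ifs <;> positivity
  rw [← Finset.mul_prod_erase _ _ (Finset.mem_univ l), if_pos le_rfl]
  have h1 : ∏ j ∈ Finset.univ.erase l, (if j ≤ l then 1 / (n' * P j) else (1 : ℝ)) ≤ 1 := by
    apply Finset.prod_le_one (fun j _ => h0 j)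
    intro j _
    split_ifs
    · exact (h j).trans hτ
    · exact le_rfl
  have h2 : 0 ≤ 1 / (n' * P l) := by have := hP l; positivity
  calc 1 / (n' * P l) * ∏ j ∈ Finset.univ.erase l, (if j ≤ l then 1 / (n' * P j) else (1 : ℝ)) ≤
      1 / (n' * P l) * 1 := by gcongr
    _ ≤ τ := by rw [mul_one]; exact h l

/-- **the sum over pairs of paths** -/
lemma sum_pairs {J n' : ℕ} {P : Fin J → ℝ} (hP : ∀ j, 0 < P j) {τ κ : ℝ}
    (hτ : τ ≤ 1) (hn' : 0 < n') (h : ∀ j, 1 / (n' * P j) ≤ τ) (hκ : 0 ≤ κ)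
    (G : (Fin J → Fin n') → (Fin J → Fin n') → ℝ)
    (hG : ∀ p q, G p q ≤ ∏ j : Fin J, (if j ∈ Sq p q then Real.exp κ * P j ^ 2 else P j)) :
    ∑ p, ∑ q, G p q ≤ Real.exp (J * κ) * (1 + J * τ) *
      ((Fintype.card (Fin J → Fin n') : ℝ) * ∏ j, P j) ^ 2 := by
  classical
  have hn0 : (0 : ℝ) < n' := by exact_mod_cast hn'
  have hP2 : 0 < ∏ j, P j := Finset.prod_pos fun j _ => hP j
  have hcard : (Fintype.card (Fin J → Fin n') : ℝ) = (n' : ℝ) ^ J := by
    simp [Fintype.card_fin]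
  have h1 : ∀ p q, G p q ≤ Real.exp (J * κ) * (∏ j, P j) ^ 2 *
      ∏ j : Fin J, (if j ∈ Sq p q then 1 else 1 / P j) := by
    intro p q
    refine (hG p q).trans ?_
    have e1 : Real.exp (J * κ) * (∏ j, P j) ^ 2 * ∏ j : Fin J, (if j ∈ Sq p q then 1 else 1 / P j) =
        ∏ j : Fin J, (Real.exp κ * P j ^ 2 * (if j ∈ Sq p q then 1 else 1 / P j)) := by
      rw [Finset.prod_mul_distrib, Finset.prod_mul_distrib, Finset.prod_const, Finset.card_univ,
        Fintype.card_fin, ← Real.exp_nat_mul, Finset.prod_pow]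
    rw [e1]
    apply Finset.prod_le_prod
    · intro j _
      have := hP j
      split_ifs <;> positivity
    · intro j _
      have hj := hP j
      split_ifs
      · rw [mul_one]
      · have h2 : Real.exp κ * P j ^ 2 * (1 / P j) = Real.exp κ * P j := by field_simp
        rw [h2]
        exact le_mul_of_one_le_left hj.le (Real.one_le_exp hκ)
  have h2 : ∀ p : Fin J → Fin n', ∑ q, ∏ j : Fin J, (if j ∈ Sq p q then 1 else 1 / P j) ≤
      (n' : ℝ) ^ J * (1 + J * τ) := by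
    intro p
    calc ∑ q, ∏ j : Fin J, (if j ∈ Sq p q then 1 else 1 / P j) ≤
        ∑ q : Fin J → Fin n', (1 + ∑ l : Fin J, ∏ j : Fin J,
          (if j ≤ l then (if p j = q j then 1 / P j else 0) else 1)) :=
          Finset.sum_le_sum fun q _ => prod_Sq p q hP
      _ = (n' : ℝ) ^ J + ∑ l : Fin J, ∑ q : Fin J → Fin n', ∏ j : Fin J,
          (if j ≤ l then (if p j = q j then 1 / P j else 0) else 1) := by
          rw [Finset.sum_add_distrib, Finset.sum_comm, Finset.sum_const, Finset.card_univ,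
            nsmul_eq_mul, mul_one, hcard]
      _ ≤ (n' : ℝ) ^ J + ∑ _l : Fin J, (n' : ℝ) ^ J * τ := by
          gcongr with l _
          exact sum_coinc p hP hτ hn' h l
      _ = _ := by
          rw [Finset.sum_const, Finset.card_univ, Fintype.card_fin, nsmul_eq_mul]
          ring
  calc ∑ p, ∑ q, G p q ≤ ∑ p : Fin J → Fin n', ∑ q : Fin J → Fin n',
      Real.exp (J * κ) * (∏ j, P j) ^ 2 *
        ∏ j : Fin J, (if j ∈ Sq p q then 1 else 1 / P j) :=
        Finset.sum_le_sum fun p _ => Finset.sum_le_sum fun q _ => h1 p q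
    _ = Real.exp (J * κ) * (∏ j, P j) ^ 2 * ∑ p : Fin J → Fin n', ∑ q : Fin J → Fin n',
        ∏ j : Fin J, (if j ∈ Sq p q then 1 else 1 / P j) := by
        simp only [Finset.mul_sum]
    _ ≤ Real.exp (J * κ) * (∏ j, P j) ^ 2 * ∑ _p : Fin J → Fin n', (n' : ℝ) ^ J * (1 + J * τ) := by
        apply mul_le_mul_of_nonneg_left _ (by positivity)
        exact Finset.sum_le_sum fun p _ => h2 p
    _ = _ := by
        rw [Finset.sum_const, Finset.card_univ, nsmul_eq_mul, hcard]
        ring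

end Pool.Agent.H478.EX
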