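import Pool.Agent.H478.EX18

/-! High points of the counts: preliminaries. -/

open Finset Complex MeasureTheory Filter Topology ProbabilityTheory

namespace Pool.Agent.H478.HP

open Pool.Agent.H478.CW
open Pool.Agent.H478.EX
open Pool.Agent.R321.FA
open SP (ZZ mu Mk RHs)

lemma Sm_one (P : ℝ → ℝ → Prop) : Sm P 1 := by
  unfold Sm
  filter_upwards [V_ord] with T h
  obtain ⟨h10, hV, hVT⟩ := h
  have h1 : {t : ℝ | Va T ≤ t ∧ t ≤ Vb T ∧ ¬ P T t} ⊆ Set.Icc (Va T) (Vb T) := fun t ht => ⟨ht.1, ht.2.1⟩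
  refine (measure_mono h1).trans ?_
  rw [Real.volume_Icc, one_mul]
  exact ENNReal.ofReal_le_ofReal hVT

/-- **the level sets of the main statistics** -/
lemma main_level (hRH : RHs) {y e : ℝ} (hy0 : 0 ≤ y) (hy1 : y ≤ 1) (he : 0 < e) :
    ∀ᶠ r : ℕ in atTop, ∀ l, Good l (1 / (4 * Real.log r)) →
      kv l ≤ 1 / (2 * Real.pi ^ 2) * Real.log r →
      Sm (fun T t => |stt l (1 / (4 * Real.log r)) T t| < (y / Real.pi + e) * Real.log r)
        (Real.exp (-(y ^ 2 * Real.log r))) := by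
  have hpi := Real.pi_pos
  have hpi3 := Real.pi_gt_three
  rcases eq_or_lt_of_le hy0 with hy | hy
  · filter_upwards with r l _ _
    rw [← hy]
    simpa using Sm_one _
  set b := Real.pi ^ 2 * e ^ 2 with hb
  have hb0 : 0 < b := by positivity
  set ρ := (1 + b / 2) / (1 + b) with hρ
  have hρ0 : 0 < ρ := by positivity
  have hρ1 : ρ < 1 := by rw [hρ, div_lt_one (by positivity)]; linarith
  have hlim : Tendsto (fun k : ℕ => 2 * Real.exp 1 * ((k : ℝ) ^ 1 * ρ ^ k)) atTop (𝓝 0) := by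
    have h := tendsto_pow_const_mul_const_pow_of_abs_lt_one 1 (r := ρ) (by
      rw [abs_of_pos hρ0]; exact hρ1)
    simpa using h.const_mul (2 * Real.exp 1)
  have hceil : Tendsto (fun r : ℕ => ⌈y ^ 2 * Real.log r⌉₊) atTop atTop :=
    tendsto_nat_ceil_atTop.comp (nlog.const_mul_atTop (by positivity))
  filter_upwards [nlog.eventually_gt_atTop 2, nlog.eventually_ge_atTop (2 / b),
    (hlim.comp hceil).eventually (gt_mem_nhds one_pos)] with r h1 h2 h3
  intro l hl hkv
  simp only [Function.comp_apply, pow_one] at h3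
  set ℓ := Real.log r with hℓ
  have hℓ0 : 0 < ℓ := by linarith
  have hyℓ : 0 < y ^ 2 * ℓ := by positivity
  set k := ⌈y ^ 2 * ℓ⌉₊ with hk
  have hk1 : y ^ 2 * ℓ ≤ k := Nat.le_ceil _
  have hk2 : (k : ℝ) < y ^ 2 * ℓ + 1 := Nat.ceil_lt_add_one hyℓ.le
  have hk4 : 1 ≤ k := by
    have : (0 : ℝ) < k := by linarith
    exact_mod_cast this
  have hk0 : (0 : ℝ) < k := by exact_mod_cast hk4
  have hy2 : y ^ 2 ≤ 1 := by nlinarith
  refine tail' (ρ := Real.exp (-1) * ρ) (κ := 1 / (2 * Real.pi ^ 2) * ℓ) hRH hl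
    (by positivity) hk4 ?_ (by positivity) hkv ?_ ?_
  · rw [← mul_div_assoc, mul_one, div_lt_one (by positivity)]
    nlinarith
  · have h4 : Real.exp 1 * (Real.exp (-1) * ρ) * ((y / Real.pi + e) * ℓ) ^ 2 =
        ρ * (y + Real.pi * e) ^ 2 * (ℓ ^ 2 / Real.pi ^ 2) := by
      rw [← mul_assoc, ← Real.exp_add, add_neg_cancel, Real.exp_zero, one_mul]
      field_simp
    rw [h4]
    have h5 : y ^ 2 + b / 2 ≤ ρ * (y + Real.pi * e) ^ 2 := by
      have a1 : y ^ 2 + b ≤ (y + Real.pi * e) ^ 2 := by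
        have : 0 ≤ y * (Real.pi * e) := by positivity
        nlinarith
      have a2 : y ^ 2 + b / 2 ≤ ρ * (y ^ 2 + b) := by
        rw [hρ, div_mul_eq_mul_div, le_div_iff₀ (by positivity)]
        nlinarith
      exact a2.trans (by gcongr)
    have h6 : 1 ≤ b / 2 * ℓ := by
      rw [div_le_iff₀ hb0] at h2
      linarith
    calc 2 * (k : ℝ) * (1 / (2 * Real.pi ^ 2) * ℓ) = k * (ℓ / Real.pi ^ 2) := by field_simp
      _ ≤ ((y ^ 2 + b / 2) * ℓ) * (ℓ / Real.pi ^ 2) := by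
          have : (k : ℝ) ≤ (y ^ 2 + b / 2) * ℓ := by rw [add_mul]; linarith
          gcongr
      _ = (y ^ 2 + b / 2) * (ℓ ^ 2 / Real.pi ^ 2) := by ring
      _ ≤ _ := by gcongr
  · have h6 : Real.exp (-1) ^ k ≤ Real.exp (-(y ^ 2 * ℓ)) := by
      rw [← Real.exp_nat_mul]
      apply Real.exp_le_exp.2
      linarith
    calc 2 * Real.exp 1 * (k : ℝ) * (Real.exp (-1) * ρ) ^ k =
        (2 * Real.exp 1 * ((k : ℝ) * ρ ^ k)) * Real.exp (-1) ^ k := by
          rw [mul_pow]; ring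
      _ ≤ (2 * Real.exp 1 * ((k : ℝ) * ρ ^ k)) * Real.exp (-(y ^ 2 * ℓ)) := by gcongr
      _ < 1 * Real.exp (-(y ^ 2 * ℓ)) := by gcongr
      _ = _ := one_mul _

open Classical in
/-- Markov's inequality for the number of failures -/
lemma Sm_count {ι : Type*} (s : Finset ι) {P : ι → ℝ → ℝ → Prop} {q K : ℝ} (hq : 0 ≤ q) (hK : 0 < K)
    (h : ∀ i ∈ s, Sm (P i) q) :
    Sm (fun T t => ((s.filter fun i => ¬ P i T t).card : ℝ) ≤ K) (s.card * q / K) := by
  unfold Sm at *
  have h' : ∀ᶠ T : ℝ in atTop, ∀ i ∈ s,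
      volume {t : ℝ | Va T ≤ t ∧ t ≤ Vb T ∧ ¬ P i T t} ≤ ENNReal.ofReal (q * T) :=
    (eventually_all_finset s).2 h
  filter_upwards [h', eventually_ge_atTop 0] with T h1 h3
  set B : ι → Set ℝ := fun i => toMeasurable volume {t : ℝ | Va T ≤ t ∧ t ≤ Vb T ∧ ¬ P i T t} with hB
  have hBm : ∀ i, MeasurableSet (B i) := fun i => measurableSet_toMeasurable _ _
  set f : ℝ → ENNReal := fun t => ∑ i ∈ s, (B i).indicator (fun _ => (1 : ENNReal)) t with hf
  have hfm : Measurable f := Finset.measurable_fun_sum s fun i _ =>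
    measurable_const.indicator (hBm i)
  have hint : ∫⁻ t, f t ≤ ENNReal.ofReal (s.card * q * T) := by
    rw [hf, lintegral_finsetSum s fun i _ => measurable_const.indicator (hBm i)]
    calc ∑ i ∈ s, ∫⁻ t, (B i).indicator (fun _ => (1 : ENNReal)) t = ∑ i ∈ s, volume (B i) := by
          refine Finset.sum_congr rfl fun i _ => ?_
          rw [lintegral_indicator (hBm i), setLIntegral_const, one_mul]
      _ ≤ ∑ i ∈ s, ENNReal.ofReal (q * T) := by
          refine Finset.sum_le_sum fun i hi => ?_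
          rw [hB]
          simp only [measure_toMeasurable]
          exact h1 i hi
      _ = ENNReal.ofReal (s.card * q * T) := by
        rw [Finset.sum_const, nsmul_eq_mul, mul_assoc (s.card : ℝ) q T,
          ENNReal.ofReal_mul (p := (s.card : ℝ)) (by positivity), ENNReal.ofReal_natCast]
  have hmark := mul_meas_ge_le_lintegral hfm (ENNReal.ofReal K) (μ := volume)
  have hsub : {t : ℝ | Va T ≤ t ∧ t ≤ Vb T ∧ ¬ ((s.filter fun i => ¬ P i T t).card : ℝ) ≤ K} ⊆
      {t | ENNReal.ofReal K ≤ f t} := by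
    rintro t ⟨a, b, c⟩
    push Not at c
    show ENNReal.ofReal K ≤ ∑ i ∈ s, (B i).indicator (fun _ => (1 : ENNReal)) t
    have h4 : ((s.filter fun i => ¬ P i T t).card : ENNReal) ≤
        ∑ i ∈ s, (B i).indicator (fun _ => (1 : ENNReal)) t := by
      rw [Finset.card_filter]
      push_cast
      refine Finset.sum_le_sum fun i _ => ?_
      by_cases hp : P i T t
      · rw [if_neg (not_not.2 hp)]
        exact zero_le
      · have hm : t ∈ {t : ℝ | Va T ≤ t ∧ t ≤ Vb T ∧ ¬ P i T t} := ⟨a, b, hp⟩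
        have hm' : t ∈ B i := subset_toMeasurable _ _ hm
        rw [if_pos hp, Set.indicator_of_mem hm']
    refine le_trans ?_ h4
    rw [← ENNReal.ofReal_natCast]
    exact ENNReal.ofReal_le_ofReal c.le
  have h5 : ENNReal.ofReal K * volume {t : ℝ | Va T ≤ t ∧ t ≤ Vb T ∧
      ¬ ((s.filter fun i => ¬ P i T t).card : ℝ) ≤ K} ≤ ENNReal.ofReal K *
      ENNReal.ofReal (s.card * q / K * T) := by
    rw [← ENNReal.ofReal_mul hK.le, show K * (s.card * q / K * T) = s.card * q * T by field_simp]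
    exact ((mul_le_mul_right (measure_mono hsub) _).trans hmark).trans hint
  exact (ENNReal.mul_le_mul_iff_right (by simpa using hK) ENNReal.ofReal_ne_top).1 h5

/-- the lower bound for one point -/
lemma P1_level {a V ℓ : ℝ} (hℓ : 0 < ℓ) (hV0 : 0 ≤ V)
    (hV1 : 1 / (2 * Real.pi ^ 2) * (ℓ - Real.log 4) ≤ V) (hV2 : V ≤ ℓ) :
    Real.exp (-(a ^ 2 * Real.pi ^ 2 / ℓ)) / (1 + ℓ) ≤ P1 a V := by
  have hpi := Real.pi_pos
  have hpi3 := Real.pi_gt_three
  have hl4 : Real.log 4 ≤ 2 := by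
    have h2 : Real.log 4 = 2 * Real.log 2 := by
      rw [show (4 : ℝ) = 2 ^ 2 by norm_num, Real.log_pow]; push_cast; ring
    have := Real.log_two_lt_d9
    linarith
  have h1 : ℓ / (2 * Real.pi ^ 2) ≤ 1 + V := by
    have : 1 / (2 * Real.pi ^ 2) * Real.log 4 ≤ 1 := by
      rw [one_div, inv_mul_le_iff₀ (by positivity)]
      nlinarith
    have e : 1 / (2 * Real.pi ^ 2) * (ℓ - Real.log 4) = ℓ / (2 * Real.pi ^ 2) -
      1 / (2 * Real.pi ^ 2) * Real.log 4 := by ring
    linarith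
  have hV3 : 0 < 1 + V := by linarith
  have h3 : a ^ 2 / (2 * (1 + V)) ≤ a ^ 2 * Real.pi ^ 2 / ℓ := by
    rw [div_le_div_iff₀ (by positivity) hℓ]
    rw [div_le_iff₀ (by positivity)] at h1
    calc a ^ 2 * ℓ ≤ a ^ 2 * ((1 + V) * (2 * Real.pi ^ 2)) := by gcongr
      _ = _ := by ring
  unfold P1
  have h4 : Real.sqrt (1 + V) ≤ 1 + ℓ := by
    rw [Real.sqrt_le_left (by positivity)]
    nlinarith
  have h5 : 0 < Real.sqrt (1 + V) := Real.sqrt_pos.2 (by positivity)
  rw [div_eq_mul_one_div, mul_comm]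
  apply mul_le_mul _ _ (Real.exp_pos _).le (by positivity)
  · exact one_div_le_one_div_of_le h5 h4
  · apply Real.exp_le_exp.2
    linarith

open Classical in
/-- large sum of weights: many good points -/
lemma good_count {J : ℕ} {b : ℕ → ℝ} {a μ T t : ℝ} {ι : Type} [Fintype ι] (x : ι → ℝ) {M w : ℝ}
    (h : M / 2 < ∑ p, Zp J b (x p) a μ T t) (hw : (Fintype.card ι : ℝ) * Real.exp (-(w ^ 2 / 2)) ≤ M / 4)
    (hw0 : 0 ≤ w) :
    M / 4 ≤ ((Finset.univ.filter fun p => ∀ j : Fin J,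
      |Xs (b j) (b (j + 1)) (x p) μ T t - a| ≤ w).card : ℝ) := by
  have h1 : ∀ p, Zp J b (x p) a μ T t ≤ Real.exp (-(w ^ 2 / 2)) +
      (if ∀ j : Fin J, |Xs (b j) (b (j + 1)) (x p) μ T t - a| ≤ w then 1 else 0) := by
    intro p
    split_ifs with hg
    · have h2 : Zp J b (x p) a μ T t ≤ 1 := by
        unfold Zp
        exact Finset.prod_le_one (fun i _ => (wt1_pos _ _).le) (fun i _ => wt1_le _ _)
      have := Real.exp_pos (-(w ^ 2 / 2))
      linarith
    · push Not at hg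
      obtain ⟨j, hj⟩ := hg
      rw [add_zero]
      unfold Zp
      have h2 : ∏ i : Fin J, wt1 a (Xs (b i) (b (i + 1)) (x p) μ T t) ≤
          wt1 a (Xs (b j) (b (j + 1)) (x p) μ T t) := by
        rw [← Finset.mul_prod_erase _ _ (Finset.mem_univ j)]
        apply mul_le_of_le_one_right (wt1_pos _ _).le
        exact Finset.prod_le_one (fun i _ => (wt1_pos _ _).le) (fun i _ => wt1_le _ _)
      refine h2.trans ?_
      unfold wt1
      apply Real.exp_le_exp.2
      have h3 : w ^ 2 ≤ (Xs (b j) (b (j + 1)) (x p) μ T t - a) ^ 2 := by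
        rw [← sq_abs (Xs (b j) (b (j + 1)) (x p) μ T t - a)]
        exact pow_le_pow_left₀ hw0 hj.le 2
      linarith
  have h4 : ∑ p, Zp J b (x p) a μ T t ≤ (Fintype.card ι : ℝ) * Real.exp (-(w ^ 2 / 2)) +
      ((Finset.univ.filter fun p => ∀ j : Fin J,
        |Xs (b j) (b (j + 1)) (x p) μ T t - a| ≤ w).card : ℝ) := by
    refine (Finset.sum_le_sum fun p _ => h1 p).trans (le_of_eq ?_)
    rw [Finset.sum_add_distrib, Finset.sum_const, Finset.card_univ, nsmul_eq_mul,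
      Finset.card_filter]
    push_cast
    rfl
  linarith

end Pool.Agent.H478.HP
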