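import Pool.Agent.H478.HP1

/-! Many high points of the band statistics. -/

open Finset Complex MeasureTheory Filter Topology ProbabilityTheory

namespace Pool.Agent.H478.HP

open Pool.Agent.H478.CW
open Pool.Agent.H478.EX
open Pool.Agent.R321.FA
open SP (ZZ mu Mk RHs)

open Classical in
/-- **many points with large values of all band statistics** -/
theorem band_count (hRH : RHs) {J : ℕ} {ε : ℝ} (hε : 0 < ε) (hε1 : ε ≤ 1) {q : ℝ} (hq : 0 < q) :
    ∀ᶠ n : ℕ in atTop, ∀ a : ℝ, |a| ≤ (1 - ε) * (Real.log n / Real.pi) →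
    Sm (fun T t => ((n / 4 : ℕ) : ℝ) ^ J *
      (Real.exp (-(a ^ 2 * Real.pi ^ 2 / Real.log n)) / (1 + Real.log n)) ^ J / 4 ≤
      ((Finset.univ.filter fun p : Fin J → Fin (n / 4) => ∀ j : Fin J,
      |Xs (bq J n j) (bq J n (j + 1)) (xq J n p) (mq n) T t - a| ≤
        Real.sqrt (2 * (J + 1) * Real.log n)).card : ℝ)) q := by
  have hpi := Real.pi_pos
  have hlog : Tendsto (fun n : ℕ => Real.log n) atTop atTop :=
    Real.tendsto_log_atTop.comp tendsto_natCast_atTop_atTop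
  set θ : ℝ := q / 28 with hθ
  have hθ0 : 0 < θ := by positivity
  -- the small quantities
  have hτlim : Tendsto (fun n : ℕ => 8 * (1 + Real.log n) * Real.exp (-(ε * Real.log n))) atTop (𝓝 0) := by
    have h1 : Tendsto (fun y : ℝ => 8 * (y ^ 0 * Real.exp (-y)) + 8 / ε * (y ^ 1 * Real.exp (-y)))
        atTop (𝓝 0) := by
      have a0 := (Real.tendsto_pow_mul_exp_neg_atTop_nhds_zero 0).const_mul 8
      have a1 := (Real.tendsto_pow_mul_exp_neg_atTop_nhds_zero 1).const_mul (8 / ε)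
      simpa using a0.add a1
    have h2 := h1.comp (hlog.const_mul_atTop hε)
    refine h2.congr fun n => ?_
    simp only [Function.comp_apply]
    field_simp
  have hκlim : Tendsto (fun n : ℕ => 81 * (2 / Real.log n ^ 2)) atTop (𝓝 0) := by
    have h1 : Tendsto (fun n : ℕ => Real.log n ^ 2) atTop atTop :=
      (tendsto_pow_atTop (by norm_num)).comp hlog
    have := (h1.const_div_atTop 2).const_mul 81
    simpa using this
  have hθlim : Tendsto (fun n : ℕ => Real.exp (J * (81 * (2 / Real.log n ^ 2))) *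
      (1 + J * (8 * (1 + Real.log n) * Real.exp (-(ε * Real.log n))))) atTop (𝓝 1) := by
    have h1 := (hκlim.const_mul (J : ℝ)).rexp
    have h2 := (hτlim.const_mul (J : ℝ)).const_add 1
    have := h1.mul h2
    simpa using this
  have hmlim : Tendsto (fun n : ℕ => 2 * Real.log n ^ 5 * Real.exp (-Real.log n)) atTop (𝓝 0) := by
    have h1 := ((Real.tendsto_pow_mul_exp_neg_atTop_nhds_zero 5).comp hlog).const_mul 2
    simp only [mul_zero] at h1
    refine h1.congr fun n => ?_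
    simp only [Function.comp_apply]
    ring
  filter_upwards [hτlim.eventually (gt_mem_nhds (show (0 : ℝ) < 1 by norm_num)),
    hθlim.eventually (gt_mem_nhds (show (1 : ℝ) < 1 + θ by linarith)),
    hmlim.eventually (gt_mem_nhds (show (0 : ℝ) < 1 by norm_num)),
    err_small J hθ0, eventually_ge_atTop 8, hlog.eventually_ge_atTop 2] with n h1 h2 h3 h4 hn8 hℓ2
  intro a ha
  have hn1 : 1 < n := by omega
  have hn0 : (0 : ℝ) < n := by exact_mod_cast (by omega : 0 < n)
  set ℓ := Real.log n with hℓ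
  have hℓ0 : 0 < ℓ := by linarith
  have hnexp : (n : ℝ) = Real.exp ℓ := by rw [hℓ, Real.exp_log hn0]
  set τ := 8 * (1 + ℓ) * Real.exp (-(ε * ℓ)) with hτ
  set b := bq J n with hb
  have hbp : ∀ j, 0 < b j := fun j => bq_pos hn1 j
  have hbm : StrictMono b := bq_mono hn1
  have hn' : 0 < n / 4 := by omega
  have hn4 : 4 * (n / 4) ≤ n := by omega
  have hn'8 : (n : ℝ) / 8 ≤ ((n / 4 : ℕ) : ℝ) := by
    have : n ≤ 8 * (n / 4) := by omega
    have : (n : ℝ) ≤ 8 * ((n / 4 : ℕ) : ℝ) := by exact_mod_cast this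
    linarith
  have hμ : b J ≤ mq n := (bq_top (by omega)).le
  have hmq : mq n = ℓ ^ 2 * Real.exp (-ℓ) := by
    unfold mq
    rw [← hℓ, hnexp, Real.exp_neg, div_eq_mul_inv]
  have hμ1 : mq n ≤ 1 := by
    have h5 : ℓ ^ 2 * Real.exp (-ℓ) ≤ 2 * ℓ ^ 5 * Real.exp (-ℓ) := by
      have : ℓ ^ 2 ≤ 2 * ℓ ^ 5 := by nlinarith [pow_le_pow_right₀ (by linarith : 1 ≤ ℓ) (by norm_num : 2 ≤ 5), pow_pos hℓ0 5]
      gcongr
    rw [hmq]; linarith
  have hbj1 : ∀ j : Fin J, b (j + 1) ≤ 1 := fun j =>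
    (hbm.monotone (by omega : (j : ℕ) + 1 ≤ J)).trans (hμ.trans hμ1)
  have hVu : ∀ j : Fin J, cvf (b j) (b (j + 1)) 0 ≤ ℓ := by
    intro j
    have h5 := cvf_le (hbp j) (hbm (Nat.lt_succ_self j)) (hbj1 j)
    rw [bq_succ hn1] at h5
    refine h5.trans ?_
    rw [← hℓ]
    have : 1 / (2 * Real.pi ^ 2) ≤ 1 := by
      rw [div_le_one (by positivity)]
      nlinarith [Real.pi_gt_three]
    nlinarith
  have hVl : ∀ j : Fin J, 1 / (2 * Real.pi ^ 2) * (ℓ - Real.log 4) ≤ cvf (b j) (b (j + 1)) 0 := by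
    intro j
    have h4b : 4 * b j ≤ b (j + 1) := by
      have h5 := bq_succ (J := J) hn1 j
      rw [div_eq_iff (bq_pos hn1 j).ne'] at h5
      rw [hb, h5]
      have h6 : (4 : ℝ) ≤ n := by exact_mod_cast (by omega : 4 ≤ n)
      have := bq_pos (J := J) hn1 (j : ℕ)
      gcongr
    have h5 := cvf_ge (hbp j) h4b (hbj1 j)
    rwa [bq_succ hn1, ← hℓ] at h5
  have hVn : ∀ j : Fin J, 0 ≤ cvf (b j) (b (j + 1)) 0 := fun j => cvf_nonneg _ _
  have ha' : |a| ≤ ℓ / Real.pi := by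
    refine ha.trans ?_
    have : 0 ≤ ℓ / Real.pi := by positivity
    nlinarith
  have hP : ∀ j : Fin J, 0 < P1 a (cvf (b j) (b (j + 1)) 0) := fun j => P1_pos (hVn j)
  have hPτ : ∀ j : Fin J, 1 / (((n / 4 : ℕ) : ℝ) * P1 a (cvf (b j) (b (j + 1)) 0)) ≤ τ := by
    intro j
    have h5 := P1_lower hℓ0 hε.le hε1 ha (hVn j) (hVl j) (hVu j)
    have h6 : 1 / τ ≤ ((n / 4 : ℕ) : ℝ) * P1 a (cvf (b j) (b (j + 1)) 0) := by
      calc 1 / τ = n / 8 * (Real.exp (-((1 - ε) * ℓ)) / (1 + ℓ)) := by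
            rw [hτ, hnexp, show -((1 - ε) * ℓ) = -ℓ + ε * ℓ by ring, Real.exp_add, Real.exp_neg,
              Real.exp_neg]
            field_simp
        _ ≤ _ := by gcongr
    have hτ0 : 0 < τ := by positivity
    rw [div_le_iff₀ (by have := hP j; positivity)]
    rw [div_le_iff₀ hτ0] at h6
    linarith
  set κ : ℝ := 81 * (2 / ℓ ^ 2) with hκ
  have hκ0 : 0 ≤ κ := by positivity
  have hG : ∀ p q' : Fin J → Fin (n / 4),
      Gp b ((xq J n p : ℝ) - xq J n q') a (Sq p q') ≤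
      ∏ j : Fin J, (if j ∈ Sq p q' then Real.exp κ * P1 a (cvf (b j) (b (j + 1)) 0) ^ 2
        else P1 a (cvf (b j) (b (j + 1)) 0)) := by
    classical
    intro p q'
    unfold Gp
    have hif : ∀ j : Fin J, 0 ≤ (if j ∈ Sq p q' then P2 a (cvf (b j) (b (j + 1)) 0)
        (cvf (b j) (b (j + 1)) ((xq J n p : ℝ) - xq J n q')) else P1 a (cvf (b j) (b (j + 1)) 0)) ∧
        (if j ∈ Sq p q' then P2 a (cvf (b j) (b (j + 1)) 0)
        (cvf (b j) (b (j + 1)) ((xq J n p : ℝ) - xq J n q')) else P1 a (cvf (b j) (b (j + 1)) 0)) ≤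
        (if j ∈ Sq p q' then Real.exp κ * P1 a (cvf (b j) (b (j + 1)) 0) ^ 2
        else P1 a (cvf (b j) (b (j + 1)) 0)) := by
      intro j
      by_cases hj : j ∈ Sq p q'
      · rw [if_pos hj, if_pos hj]
        constructor
        · unfold P2; positivity
        · have hD := dist_Sq (by omega) hn4 hj
          have hD0 : 0 < |(xq J n p : ℝ) - xq J n q'| := lt_of_lt_of_le (by positivity) hD
          have hDb : ℓ ^ 2 / 2 ≤ |(xq J n p : ℝ) - xq J n q'| * b j := by
            have h5 := bq_dist (J := J) (j := (j : ℕ)) hn1 (by omega)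
            calc ℓ ^ 2 / 2 = (n : ℝ) ^ (J + 1 - (j : ℕ)) / 2 * b j := by rw [hℓ, ← h5]; ring
              _ ≤ _ := by have := hbp j; gcongr
          have hc := cvf_abs' (hbp j) (hbm (Nat.lt_succ_self j)) (hbj1 j) (abs_pos.1 hD0)
          have hc2 : |cvf (b j) (b (j + 1)) ((xq J n p : ℝ) - xq J n q')| ≤ 2 / ℓ ^ 2 := by
            refine hc.trans ?_
            rw [show 2 / ℓ ^ 2 = 1 / (ℓ ^ 2 / 2) by field_simp]
            exact one_div_le_one_div_of_le (by positivity) hDb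
          rw [hκ]
          apply P2_upper hℓ0 ha' (hVn j) (hVl j) hc2
          rw [div_le_iff₀ (by positivity)]
          nlinarith
      · rw [if_neg hj, if_neg hj]
        exact ⟨(hP j).le, le_rfl⟩
    exact Finset.prod_le_prod (fun j _ => (hif j).1) (fun j _ => (hif j).2)
  have hpairs := sum_pairs hP h1.le hn' hPτ hκ0
    (fun p q' => Gp b ((xq J n p : ℝ) - xq J n q') a (Sq p q')) hG
  set M := (Fintype.card (Fin J → Fin (n / 4)) : ℝ) * ∏ j : Fin J, P1 a (cvf (b j) (b (j + 1)) 0)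
    with hM
  have hcard : (Fintype.card (Fin J → Fin (n / 4)) : ℝ) = ((n / 4 : ℕ) : ℝ) ^ J := by
    simp [Fintype.card_fin]
  have hM1 : 1 ≤ M := by
    have e : M = ∏ j : Fin J, (((n / 4 : ℕ) : ℝ) * P1 a (cvf (b j) (b (j + 1)) 0)) := by
      rw [Finset.prod_mul_distrib, Finset.prod_const, Finset.card_univ, Fintype.card_fin, hM, hcard]
    rw [e]
    have e' : (1 : ℝ) = ∏ _j : Fin J, (1 : ℝ) := by simp
    rw [e']
    apply Finset.prod_le_prod (fun j _ => zero_le_one)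
    intro j _
    have h5 := (hPτ j).trans h1.le
    have h6 : 0 < ((n / 4 : ℕ) : ℝ) * P1 a (cvf (b j) (b (j + 1)) 0) := by
      have := hP j
      have : (0 : ℝ) < ((n / 4 : ℕ) : ℝ) := by exact_mod_cast hn'
      positivity
    rwa [div_le_one h6] at h5
  have hcardn : (Fintype.card (Fin J → Fin (n / 4)) : ℝ) ≤ (n : ℝ) ^ J := by
    rw [hcard]
    gcongr
    exact_mod_cast Nat.div_le_self n 4
  have h5 := second_moment hRH (hbp 0) hbm hμ hμ1 a (fun p : Fin J → Fin (n / 4) => (xq J n p : ℝ))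
    Sq hVu hℓ0.le (kq n) (by
      have h6 : (kq n : ℝ) ≤ ℓ ^ 3 := by unfold kq; exact Nat.floor_le (by positivity)
      rw [hmq]
      calc 2 * (kq n : ℝ) * (ℓ ^ 2 * Real.exp (-ℓ)) ≤ 2 * ℓ ^ 3 * (ℓ ^ 2 * Real.exp (-ℓ)) := by gcongr
        _ = 2 * ℓ ^ 5 * Real.exp (-ℓ) := by ring
        _ < 1 := h3) (R := 16 * (J + 1) * ℓ) (by positivity) hM hM1 (θ := θ) (θ' := θ) (η := θ)
    (by
      refine hpairs.trans ?_
      have hM2 : 0 ≤ M ^ 2 := sq_nonneg _
      exact mul_le_mul_of_nonneg_right h2.le hM2) (by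
      refine le_trans ?_ h4
      gcongr) hθ0
  have h6 := h5.weaken (q' := q) (by rw [hθ]; linarith)
  refine h6.mono (Eventually.of_forall fun T t _ _ hMt => ?_)
  have hlowM : ((n / 4 : ℕ) : ℝ) ^ J *
      (Real.exp (-(a ^ 2 * Real.pi ^ 2 / ℓ)) / (1 + ℓ)) ^ J ≤ M := by
    rw [hM, hcard]
    apply mul_le_mul_of_nonneg_left _ (by positivity)
    have e' : (Real.exp (-(a ^ 2 * Real.pi ^ 2 / ℓ)) / (1 + ℓ)) ^ J =
        ∏ _j : Fin J, (Real.exp (-(a ^ 2 * Real.pi ^ 2 / ℓ)) / (1 + ℓ)) := by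
      rw [Finset.prod_const, Finset.card_univ, Fintype.card_fin]
    rw [e']
    exact Finset.prod_le_prod (fun j _ => by positivity)
      (fun j _ => P1_level hℓ0 (hVn j) (hVl j) (hVu j))
  have hgc := good_count (fun p : Fin J → Fin (n / 4) => (xq J n p : ℝ)) hMt
    (w := Real.sqrt (2 * (J + 1) * ℓ)) (by
      rw [Real.sq_sqrt (by positivity)]
      calc (Fintype.card (Fin J → Fin (n / 4)) : ℝ) * Real.exp (-(2 * (J + 1) * ℓ / 2)) ≤
          (n : ℝ) ^ J * Real.exp (-(2 * (J + 1) * ℓ / 2)) := by gcongr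
        _ = Real.exp (-ℓ) := by
            rw [hnexp, ← Real.exp_nat_mul, ← Real.exp_add]
            congr 1
            ring
        _ ≤ 1 / 4 := by
            have h7 : Real.exp (-ℓ) ≤ Real.exp (-2) := Real.exp_le_exp.2 (by linarith)
            have h8 : Real.exp (-2) ≤ 1 / 4 := by
              rw [Real.exp_neg, ← one_div]
              apply one_div_le_one_div_of_le (by norm_num)
              have h9 : Real.exp 2 = Real.exp 1 * Real.exp 1 := by rw [← Real.exp_add]; norm_num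
              have h10 := Real.exp_one_gt_d9
              rw [h9]
              nlinarith
            linarith
        _ ≤ M / 4 := by linarith) (Real.sqrt_nonneg _)
  refine le_trans ?_ hgc
  linarith

end Pool.Agent.H478.HP
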