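import Pool.Agent.H478.HP2

/-! High points of the counts at typical heights. -/

open Finset Complex MeasureTheory Filter Topology ProbabilityTheory

namespace Pool.Agent.H478.HP

open Pool.Agent.H478.CW
open Pool.Agent.H478.EX
open Pool.Agent.R321.FA
open SP (ZZ mu Mk RHs)

lemma xq_inj {J n n' : ℕ} (hn : 2 ≤ n) (hn' : 4 * n' ≤ n) :
    Function.Injective (fun p : Fin J → Fin n' => xq J n p) := by
  intro p q h
  by_contra hpq
  obtain ⟨j, hj⟩ := Function.ne_iff.1 hpq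
  have hS : j ∈ Sq p q := mem_Sq.2 ⟨j, le_rfl, hj⟩
  have h1 := dist_Sq hn hn' hS
  have h2 : (xq J n p : ℝ) - xq J n q = 0 := by
    have : xq J n p = xq J n q := h
    rw [this, sub_self]
  rw [h2, abs_zero] at h1
  have h3 : (0 : ℝ) < n := by exact_mod_cast (by omega : 0 < n)
  have h4 : 0 < (n : ℝ) ^ (J + 1 - (j : ℕ)) / 2 := by positivity
  linarith

/-- the exponent of the number of points -/
lemma size_aux {y e ε ℓ Ln J L1 l8 l4 : ℝ} (h0 : 0 ≤ y) (h1 : y ≤ 1) (hJℓ : ℓ - 2 * (e * ℓ) ≤ J * Ln)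
    (he : 2 * (e * ℓ) ≤ ε / 2 * ℓ) (he0 : 0 ≤ e * ℓ)
    (hs : J * l8 + J * L1 + l4 ≤ ε / 2 * ℓ) :
    (1 - y ^ 2 - ε) * ℓ ≤ J * (Ln - l8) + J * (-(y ^ 2 * Ln) - L1) - l4 := by
  have h5 : 0 ≤ 1 - y ^ 2 := by nlinarith
  have h6 : (1 - y ^ 2) * (ℓ - 2 * (e * ℓ)) ≤ (1 - y ^ 2) * (J * Ln) :=
    mul_le_mul_of_nonneg_left hJℓ h5
  have h7 : (1 - y ^ 2) * (2 * (e * ℓ)) ≤ 1 * (2 * (e * ℓ)) := by
    apply mul_le_mul_of_nonneg_right _ (by linarith)
    linarith [sq_nonneg y]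
  have e1 : J * (Ln - l8) + J * (-(y ^ 2 * Ln) - L1) - l4 =
      (1 - y ^ 2) * (J * Ln) - (J * l8 + J * L1 + l4) := by ring
  have e2 : (1 - y ^ 2 - ε) * ℓ = (1 - y ^ 2) * (ℓ - 2 * (e * ℓ)) + (1 - y ^ 2) * (2 * (e * ℓ)) -
      ε * ℓ := by ring
  rw [e1, e2]
  linarith

/-- the value of the levels -/
lemma lev_aux {y e ε ℓ Ln J w : ℝ} (h0 : 0 ≤ y) (h1 : y ≤ 1) (he0 : 0 < e) (he1 : e ≤ 1 / 16)
    (hℓ : 0 < ℓ) (hJℓ : ℓ - 2 * (e * ℓ) ≤ J * Ln) (he : 2 * (e * ℓ) ≤ ε / 2 * ℓ)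
    (hw : w ≤ e * ℓ) :
    (y / Real.pi - ε / 2) * ℓ ≤ J * ((1 - e) * y * (Ln / Real.pi)) - w := by
  have hpi := Real.pi_pos
  have hpi3 := Real.pi_gt_three
  have h7 : J * ((1 - e) * y * (Ln / Real.pi)) = (1 - e) * y / Real.pi * (J * Ln) := by
    field_simp
  rw [h7]
  have hc0 : 0 ≤ (1 - e) * y / Real.pi := by
    have : 0 ≤ 1 - e := by linarith
    positivity
  have h8 : (1 - e) * y / Real.pi * (ℓ - 2 * (e * ℓ)) ≤ (1 - e) * y / Real.pi * (J * Ln) :=
    mul_le_mul_of_nonneg_left hJℓ hc0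
  have h9 : y / Real.pi * ℓ - e * ℓ ≤ (1 - e) * y / Real.pi * (ℓ - 2 * (e * ℓ)) := by
    have e9 : (1 - e) * y / Real.pi * (ℓ - 2 * (e * ℓ)) = y / Real.pi * ℓ -
      y / Real.pi * (3 * e - 2 * e ^ 2) * ℓ := by field_simp; ring
    rw [e9]
    have h10 : y / Real.pi * (3 * e - 2 * e ^ 2) ≤ e := by
      rw [div_mul_eq_mul_div, div_le_iff₀ hpi]
      have : y * (3 * e - 2 * e ^ 2) ≤ 1 * (3 * e) := by
        apply mul_le_mul h1 _ _ (by norm_num)
        · nlinarith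
        · nlinarith
      nlinarith
    have := mul_le_mul_of_nonneg_right h10 hℓ.le
    linarith
  linarith

open Classical in
/-- the property of the height -/
def PH (ε : ℝ) (Y : Finset ℝ) (r : ℕ) (T t : ℝ) : Prop :=
  (∀ x : ℕ, 1 ≤ x → x ≤ 2 * r → |nc T t x - x| ≤ (1 / Real.pi + ε) * Real.log r) ∧
  nc T t 1 ≤ ε * Real.log r ∧
  ∀ y ∈ Y,
    (((Finset.Icc 1 (2 * r)).filter fun x : ℕ =>
      (y / Real.pi + ε) * Real.log r ≤ |nc T t x - x|).card : ℝ) ≤
        Real.exp ((1 - y ^ 2 + ε) * Real.log r) ∧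
    Real.exp ((1 - y ^ 2 - ε) * Real.log r) ≤ (((Finset.Icc 1 (2 * r)).filter fun x : ℕ =>
      2 * x ≤ r ∧ (y / Real.pi - ε) * Real.log r ≤ nc T t x - x).card : ℝ) ∧
    Real.exp ((1 - y ^ 2 - ε) * Real.log r) ≤ (((Finset.Icc 1 (2 * r)).filter fun x : ℕ =>
      2 * x ≤ r ∧ nc T t x - x ≤ -((y / Real.pi - ε) * Real.log r)).card : ℝ)

/-- **high points of the counts at typical heights** -/
theorem leb2 (hRH : RHs) {ε : ℝ} (hε : 0 < ε) (hε1 : ε ≤ 1) {q : ℝ} (hq : 0 < q) (Y : Finset ℝ)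
    (hY : ∀ y ∈ Y, 0 ≤ y ∧ y ≤ 1) : ∀ᶠ r : ℕ in atTop, Sm (PH ε Y r) q := by
  classical
  have hpi := Real.pi_pos
  have hpi3 := Real.pi_gt_three
  have hC := C1_pos
  set e : ℝ := ε / (16 * C1 + 16) with he
  have he0 : 0 < e := by positivity
  have heε : (8 * C1 + 8) * e = ε / 2 := by rw [he]; field_simp; ring
  have he16 : e ≤ ε / 16 := by
    rw [he]
    apply div_le_div_of_nonneg_left hε.le (by norm_num) (by linarith)
  have he1 : e ≤ 1 / 16 := he16.trans (by linarith)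
  set A : ℝ := 1 / e with hA
  have hA1 : 1 ≤ A := by rw [hA, le_div_iff₀ he0]; linarith
  set J : ℕ := ⌈16 * Real.exp 3 / e ^ 2⌉₊ + 1 with hJ
  have hJ1 : 1 ≤ J := by omega
  have hJr : 16 * Real.exp 3 / e ^ 2 ≤ (J : ℝ) + 2 := by
    have := Nat.le_ceil (16 * Real.exp 3 / e ^ 2)
    rw [hJ]
    push_cast
    linarith
  have hJ0 : (0 : ℝ) < (J : ℝ) + 2 := by positivity
  have hJe : 2 / ((J : ℝ) + 2) ≤ e := by
    rw [div_le_iff₀ (by positivity)] at hJr
    rw [div_le_iff₀ hJ0]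
    have h3 : 1 ≤ Real.exp 3 := Real.one_le_exp (by norm_num)
    nlinarith
  have hce : 4 * (4 / ((J : ℝ) + 2)) * Real.exp 3 ≤ e ^ 2 := by
    rw [div_le_iff₀ (by positivity)] at hJr
    rw [show 4 * (4 / ((J : ℝ) + 2)) * Real.exp 3 = 16 * Real.exp 3 / ((J : ℝ) + 2) by ring,
      div_le_iff₀ hJ0]
    linarith
  -- the size of the small terms
  have hnl : Tendsto (fun r : ℕ => Real.log (nq J r)) atTop atTop := nlog.comp (nq_tendsto J)
  have hw : ∀ᶠ r : ℕ in atTop, J * Real.sqrt (2 * (J + 1) * Real.log r) ≤ e * Real.log r := by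
    filter_upwards [nlog.eventually_ge_atTop (J ^ 2 * (2 * (J + 1)) / e ^ 2),
      nlog.eventually_ge_atTop 0] with r h1 h2
    rw [div_le_iff₀ (by positivity)] at h1
    have h3 : J * Real.sqrt (2 * (J + 1) * Real.log r) =
        Real.sqrt (J ^ 2 * (2 * (J + 1) * Real.log r)) := by
      rw [Real.sqrt_mul (by positivity : (0 : ℝ) ≤ (J : ℝ) ^ 2), Real.sqrt_sq (by positivity)]
    rw [h3, Real.sqrt_le_left (by positivity)]
    nlinarith
  have hq16 : 0 < q / 16 := by positivity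
  set cY : ℝ := (Y.card : ℝ) + 1 with hcY
  have hcY1 : 1 ≤ cY := by
    rw [hcY]
    have : (0 : ℝ) ≤ (Y.card : ℝ) := Nat.cast_nonneg _
    linarith
  have hcY0 : 0 < cY := by linarith
  -- the size of the lower bound
  have hsize : ∀ᶠ r : ℕ in atTop, J * Real.log 8 + J * Real.log (1 + Real.log r) + Real.log 4 ≤
      ε / 2 * Real.log r := by
    have h1 : ∀ᶠ ℓ : ℝ in atTop, Real.log (1 + ℓ) ≤ ε / (4 * (J + 1)) * ℓ := by
      have h2 := Real.isLittleO_log_id_atTop.def (by positivity : (0 : ℝ) < ε / (8 * (J + 1)))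
      have h3 : Tendsto (fun ℓ : ℝ => 1 + ℓ) atTop atTop := tendsto_atTop_add_const_left _ _ tendsto_id
      filter_upwards [h3.eventually h2, eventually_ge_atTop 1] with ℓ h4 h5
      simp only [id, Real.norm_eq_abs] at h4
      rw [abs_of_nonneg (Real.log_nonneg (by linarith)), abs_of_nonneg (by linarith)] at h4
      refine h4.trans ?_
      calc ε / (8 * ((J : ℝ) + 1)) * (1 + ℓ) ≤ ε / (8 * ((J : ℝ) + 1)) * (2 * ℓ) := by
            gcongr
            linarith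
        _ = ε / (4 * (J + 1)) * ℓ := by field_simp; ring
    filter_upwards [nlog.eventually h1, nlog.eventually_ge_atTop ((J * Real.log 8 + Real.log 4) /
      (ε / 4)), nlog.eventually_ge_atTop 0] with r h2 h3 h4
    rw [div_le_iff₀ (by positivity)] at h3
    have h5 : J * Real.log (1 + Real.log r) ≤ ε / 4 * Real.log r := by
      calc J * Real.log (1 + Real.log r) ≤ J * (ε / (4 * (J + 1)) * Real.log r) := by gcongr
        _ = ε / 4 * Real.log r * (J / (J + 1)) := by field_simp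
        _ ≤ ε / 4 * Real.log r * 1 := by
            gcongr
            rw [div_le_one (by positivity)]
            linarith
        _ = _ := mul_one _
    linarith
  have hlev : ∀ᶠ r : ℕ in atTop, ∀ y ∈ Y, ∀ l, Good l (1 / (4 * Real.log r)) →
      kv l ≤ 1 / (2 * Real.pi ^ 2) * Real.log r →
      Sm (fun T t => |stt l (1 / (4 * Real.log r)) T t| < (y / Real.pi + e) * Real.log r)
        (Real.exp (-(y ^ 2 * Real.log r))) :=
    (eventually_all_finset Y).2 fun y hy => main_level hRH (hY y hy).1 (hY y hy).2 he0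
  filter_upwards [(nq_tendsto J).eventually (band_count hRH (J := J) he0 (by linarith : e ≤ 1)
      (q := q / (16 * cY)) (by positivity)), main_stats hRH he0 hq16,
    rem_stats hRH (c := 4 / ((J : ℝ) + 2)) (by positivity) he0 hce,
    small_stats hRH (κ := 1 + Real.log (4 * A)) hA1
      (by have := Real.log_nonneg (by linarith : 1 ≤ 4 * A); linarith) he0,
    reml_par (J := J), hw, nlog.eventually_ge_atTop (max (max 8 A) (J / e)),
    nlog.eventually_ge_atTop (max (1 / e) (2 * Real.exp 1 / e ^ 2 / (q / 16) + 1)),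
    eventually_ge_atTop (⌈64 / q⌉₊ + 10), hnl.eventually_ge_atTop 1, hsize, hlev,
    nlog.eventually_ge_atTop (64 * cY / q / ε)] with
    r hlow hmain hrem hsmall hpar hwr hl1 hl2 hr10 hnl1 hsize hlev hlY
  obtain ⟨hn1, hn4, hnlog, hbJ, hδ1, hkvrem⟩ := hpar
  set n := nq J r with hn
  set ℓ := Real.log r with hℓ
  have hℓ8 : 8 ≤ ℓ := (le_max_left _ _).trans ((le_max_left _ _).trans hl1)
  have hℓA : A ≤ ℓ := (le_max_right _ _).trans ((le_max_left _ _).trans hl1)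
  have hℓJ : J / e ≤ ℓ := (le_max_right _ _).trans hl1
  have hℓe : 1 / e ≤ ℓ := (le_max_left _ _).trans hl2
  have hℓq : 2 * Real.exp 1 / e ^ 2 / (q / 16) + 1 ≤ ℓ := (le_max_right _ _).trans hl2
  have hℓ0 : 0 < ℓ := by linarith
  have hr0 : (0 : ℝ) < r := by exact_mod_cast (by omega : 0 < r)
  have hrq : 64 / q ≤ r := by
    have h1 := Nat.le_ceil (64 / q)
    have h2 : ((⌈64 / q⌉₊ + 10 : ℕ) : ℝ) ≤ r := by exact_mod_cast hr10
    push_cast at h2
    linarith
  have hr10' : (10 : ℝ) ≤ r := by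
    have h2 : ((⌈64 / q⌉₊ + 10 : ℕ) : ℝ) ≤ r := by exact_mod_cast hr10
    push_cast at h2
    have : (0 : ℝ) ≤ (⌈64 / q⌉₊ : ℝ) := Nat.cast_nonneg _
    linarith
  set b := bq J n with hb
  have hb0 : 0 < b 0 := bq_pos hn1 0
  have hbm : StrictMono b := bq_mono hn1
  set δ : ℝ := 1 / (4 * ℓ) with hδ
  set δ' : ℝ := A / ℓ with hδ'
  have hδ0 : 0 < δ := by positivity
  have hδ'0 : 0 < δ' := by positivity
  have hδδ : δ ≤ δ' := by
    rw [hδ, hδ', div_le_div_iff₀ (by positivity) hℓ0]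
    nlinarith
  have hδ'1 : δ' ≤ 1 := by rw [hδ', div_le_one hℓ0]; exact hℓA
  have heℓ : 1 ≤ e * ℓ := by
    rw [div_le_iff₀ he0] at hℓe
    linarith
  have h4δ : 4 / δ' ≤ 4 * (e * ℓ) := by
    rw [hδ', hA]
    apply le_of_eq
    field_simp
  have hκ1 : 1 ≤ 1 + Real.log (4 * A) := by
    have := Real.log_nonneg (by linarith : 1 ≤ 4 * A); linarith
  have hratio : δ' / δ = 4 * A := by rw [hδ', hδ]; field_simp
  have hbJ1 : b J ≤ 1 := hbJ.trans hδ1
  have hnlogr : Real.log n ≤ ℓ / (J + 2) := nq_log_le (by omega)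
  have hnlogr2 : ℓ / (J + 2) - Real.log 2 ≤ Real.log n := nq_log_ge (by omega)
  have hnlogℓ : Real.log n ≤ ℓ := by
    refine hnlogr.trans (div_le_self hℓ0.le ?_)
    have : (0 : ℝ) ≤ J := Nat.cast_nonneg _
    linarith
  have hkvX : ∀ x : ℝ, kv (sumX J b x) ≤ 1 / (2 * Real.pi ^ 2) * ℓ := by
    intro x
    refine (sumX_kv hn1 hbJ1 x).trans ?_
    apply mul_le_mul_of_nonneg_left _ (by positivity)
    calc (J : ℝ) * Real.log n ≤ J * (ℓ / (J + 2)) := by gcongr
      _ = J / (J + 2) * ℓ := by ring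
      _ ≤ 1 * ℓ := by
          gcongr
          rw [div_le_one hJ0]
          linarith
      _ = ℓ := one_mul _
  -- the events
  have S1 : ∀ x ∈ Finset.Icc 1 (2 * r), Sm (EvX J b δ δ' e ℓ x)
      (q / 16 / r + (1 / (r : ℝ) ^ 2 + (1 / (r : ℝ) ^ 2 + (1 / (r : ℝ) ^ 2 + 1 / (r : ℝ) ^ 2)))) := by
    intro x hx
    rw [Finset.mem_Icc] at hx
    have hx0 : (0 : ℝ) < x := by exact_mod_cast hx.1
    have s1 := hmain (sumX J b x) (sumX_good hb0 hbm hbJ x) (hkvX x)
    have s2 := hrem (reml J b δ x) (reml_good hb0 hbm hδ0 hδ1 hbJ hx0) (hkvrem x hx.1 hx.2)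
    have s3 := hsmall (midl δ δ' x) (midl_good hδ0 hδδ hδ'1 hx0) (by
      have := midl_kv hδ0 hδδ hδ'1 hx0
      rwa [hratio] at this)
    have s4 := hsmall (tril δ' x) (tril_good hδ'0 hδ'1 x) ((tril_kv hδ'0 hδ'1 x).trans hκ1)
    have s5 := hsmall (tril δ' (x - 1 / (2 * δ'))) (tril_good hδ'0 hδ'1 _)
      ((tril_kv hδ'0 hδ'1 _).trans hκ1)
    exact s1.and (s2.and (s3.and (s4.and s5 (by positivity) (by positivity)) (by positivity)
      (by positivity)) (by positivity) (by positivity)) (by positivity) (by positivity)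
  have S1' := Sm.all (Finset.Icc 1 (2 * r)) (by positivity) S1
  have S0 : Sm (Ev0 J b δ δ' e ℓ)
      (q / 16 + (1 / (r : ℝ) ^ 2 + (1 / (r : ℝ) ^ 2 + 1 / (r : ℝ) ^ 2))) := by
    have s1 : Sm (fun T t => |stt (sumX J b 0) δ T t| < e * ℓ) (q / 16) := by
      refine tail' (k := 1) (ρ := 1 / (e ^ 2 * ℓ)) (κ := 1 / (2 * Real.pi ^ 2) * ℓ) hRH
        (sumX_good hb0 hbm hbJ 0) hδ0 le_rfl ?_ (by positivity) (hkvX 0) ?_ ?_
      · rw [hδ]
        push_cast
        rw [mul_one, ← mul_div_assoc, mul_one, div_lt_one (by positivity)]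
        linarith
      · have e5 : Real.exp 1 * (1 / (e ^ 2 * ℓ)) * (e * ℓ) ^ 2 = Real.exp 1 * ℓ := by field_simp
        rw [e5]
        have e6 : 2 * ((1 : ℕ) : ℝ) * (1 / (2 * Real.pi ^ 2) * ℓ) = 1 / Real.pi ^ 2 * ℓ := by
          push_cast; field_simp
        rw [e6]
        have e7 : 1 / Real.pi ^ 2 ≤ 1 := by rw [div_le_one (by positivity)]; nlinarith
        have e8 : (1 : ℝ) ≤ Real.exp 1 := Real.one_le_exp (by norm_num)
        exact mul_le_mul_of_nonneg_right (e7.trans e8) hℓ0.le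
      · rw [pow_one]
        push_cast
        have e5 : 2 * Real.exp 1 / e ^ 2 / (q / 16) < ℓ := by linarith
        rw [div_lt_iff₀ (by positivity)] at e5
        rw [show 2 * Real.exp 1 * 1 * (1 / (e ^ 2 * ℓ)) = (2 * Real.exp 1 / e ^ 2) / ℓ by field_simp,
          div_lt_iff₀ hℓ0]
        linarith
    have s2 := hsmall (tril δ' 0) (tril_good hδ'0 hδ'1 0) ((tril_kv hδ'0 hδ'1 0).trans hκ1)
    have s3 := hsmall (tril δ' (-(1 / (2 * δ')))) (tril_good hδ'0 hδ'1 _)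
      ((tril_kv hδ'0 hδ'1 _).trans hκ1)
    have s4 := hsmall (cntl δ' 1) (cntl_good hδ'0 hδ'1 one_pos) ((cntl_kv_one hδ'0 hδ'1).trans hκ1)
    exact s1.and (s2.and (s3.and s4 (by positivity) (by positivity)) (by positivity) (by positivity))
      (by positivity) (by positivity)
  have hlogn0 : 0 < Real.log n := by linarith
  have hy01 : ∀ y ∈ Y, 0 ≤ (1 - e) * y * (Real.log n / Real.pi) ∧
      (1 - e) * y * (Real.log n / Real.pi) ≤ (1 - e) * (Real.log n / Real.pi) := by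
    intro y hy
    obtain ⟨h0, h1⟩ := hY y hy
    have h2 : 0 ≤ 1 - e := by linarith
    have h3 : 0 ≤ Real.log n / Real.pi := by positivity
    refine ⟨by positivity, ?_⟩
    have : (1 - e) * y ≤ (1 - e) * 1 := by gcongr
    calc (1 - e) * y * (Real.log n / Real.pi) ≤ (1 - e) * 1 * (Real.log n / Real.pi) := by gcongr
      _ = _ := by ring
  have L1 := Sm.all Y (by positivity) fun y hy => hlow (-((1 - e) * y * (Real.log n / Real.pi)))
    (by rw [abs_neg, abs_of_nonneg (hy01 y hy).1]; exact (hy01 y hy).2)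
  have L2 := Sm.all Y (by positivity) fun y hy => hlow ((1 - e) * y * (Real.log n / Real.pi))
    (by rw [abs_of_nonneg (hy01 y hy).1]; exact (hy01 y hy).2)
  have hcard : ((Finset.Icc 1 (2 * r)).card : ℝ) = 2 * r := by
    rw [Nat.card_Icc]; push_cast [Nat.add_sub_cancel]; ring
  have hsmallY : 2 * Real.exp (-(ε * ℓ)) ≤ q / (16 * cY) := by
    have h1 : 64 * cY / q ≤ ε * ℓ := by
      rw [div_le_iff₀ hε] at hlY
      linarith
    have h2 := Real.add_one_le_exp (ε * ℓ)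
    rw [Real.exp_neg, ← div_eq_mul_inv, div_le_div_iff₀ (Real.exp_pos _) (by positivity)]
    rw [div_le_iff₀ hq] at h1
    nlinarith
  have L3 := Sm.all Y (q := q / (16 * cY)) (by positivity) fun y hy => by
    have h1 := Sm_count (Finset.Icc 1 (2 * r)) (P := fun (x : ℕ) T t =>
      |stt (sumX J b x) δ T t| < (y / Real.pi + e) * ℓ) (q := Real.exp (-(y ^ 2 * ℓ)))
      (K := Real.exp ((1 - y ^ 2 + ε) * ℓ)) (Real.exp_pos _).le (Real.exp_pos _)
      (fun x _ => hlev y hy (sumX J b x) (sumX_good hb0 hbm hbJ x) (hkvX x))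
    exact h1.weaken (q' := q / (16 * cY)) (by
      refine le_trans (le_of_eq ?_) hsmallY
      have hrexp : (r : ℝ) = Real.exp ℓ := by rw [hℓ, Real.exp_log hr0]
      rw [hcard, hrexp, mul_assoc, mul_div_assoc, ← Real.exp_add, ← Real.exp_sub]
      congr 2
      ring)
  have hall := (((L1.and L2 (by positivity) (by positivity)).and L3 (by positivity)
    (by positivity)).and (S1'.and S0 (by positivity) (by positivity)) (by positivity)
      (by positivity)).weaken (q' := q) (by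
      rw [hcard]
      have h1 : 2 * (r : ℝ) * (q / 16 / r + (1 / (r : ℝ) ^ 2 + (1 / (r : ℝ) ^ 2 +
        (1 / (r : ℝ) ^ 2 + 1 / (r : ℝ) ^ 2)))) = q / 8 + 8 / r := by field_simp; ring
      rw [h1]
      have h2 : 8 / (r : ℝ) ≤ q / 8 := by
        rw [div_le_iff₀ hr0]
        rw [div_le_iff₀ hq] at hrq
        nlinarith
      have h3 : 1 / (r : ℝ) ^ 2 ≤ q / 64 := by
        rw [div_le_iff₀ (by positivity)]
        rw [div_le_iff₀ hq] at hrq
        nlinarith
      have h4 : (Y.card : ℝ) * (q / (16 * cY)) ≤ q / 16 := by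
        rw [← mul_div_assoc, div_le_div_iff₀ (by positivity) (by norm_num)]
        have : (Y.card : ℝ) ≤ cY := by rw [hcY]; linarith
        nlinarith
      linarith)
  refine hall.mono ?_
  have hnear : ∀ᶠ T : ℝ in atTop, ∀ x ∈ Finset.Icc 1 (2 * r), ∀ t : ℝ,
      |nc T t x - XX (psb δ' x) δ' T (t + Real.pi * x / Real.log T)| ≤
      C1 * (4 / δ' + (stt (tril δ' 0) δ' T t + stt (tril δ' (-(1 / (2 * δ')))) δ' T t +
        stt (tril δ' x) δ' T t + stt (tril δ' (x - 1 / (2 * δ'))) δ' T t)) + 1 := by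
    refine (eventually_all_finset _).2 fun x hx => ?_
    rw [Finset.mem_Icc] at hx
    exact nc_near hδ'0 (by exact_mod_cast hx.1) one_pos
  filter_upwards [hnear, eventually_ge_atTop 1] with T hnearT hT1
  rintro t - - ⟨⟨⟨l1, l2⟩, l3⟩, ⟨ex, e0⟩⟩
  have hdet : ∀ x : ℕ, 1 ≤ x → x ≤ 2 * r →
      |nc T t x - x + ∑ j : Fin J, Xs (b j) (b (j + 1)) x δ T t| ≤ (8 * C1 + 4) * (e * ℓ) :=
    fun x hx1 hx2 => det_main hδ0 hδδ hδ'1 hT1 hx1 h4δ heℓ
      (ex x (Finset.mem_Icc.2 ⟨hx1, hx2⟩)) e0 (hnearT x (Finset.mem_Icc.2 ⟨hx1, hx2⟩) t)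
  have hdet' : ∀ x : ℕ, 1 ≤ x → x ≤ 2 * r →
      |nc T t x - x + ∑ j : Fin J, Xs (b j) (b (j + 1)) x δ T t| ≤ ε / 2 * ℓ := by
    intro x hx1 hx2
    refine (hdet x hx1 hx2).trans ?_
    have : (8 * C1 + 4) * (e * ℓ) ≤ (8 * C1 + 8) * (e * ℓ) := by gcongr; norm_num
    refine this.trans ?_
    rw [← heε, mul_assoc]
  have hband : ∀ (x : ℝ) (j : Fin J), Xs (b j) (b (j + 1)) x δ T t =
      Xs (b j) (b (j + 1)) x (mq n) T t := by
    intro x j
    have hμ : mq n ≤ δ := by rw [← bq_top (J := J) (by omega)]; exact hbJ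
    have hj : b (j + 1) ≤ mq n := by
      rw [← bq_top (J := J) (by omega)]
      exact hbm.monotone (by omega : (j : ℕ) + 1 ≤ J)
    exact Xs_band (bq_pos hn1 _) (hbm (Nat.lt_succ_self _)) hj hμ x hT1 t
  -- the value of the levels
  have hJℓ : ℓ - 2 * (e * ℓ) ≤ J * Real.log n := by
    have hlog2 : Real.log 2 ≤ 1 := by have := Real.log_two_lt_d9; linarith
    have hJ0' : (0 : ℝ) ≤ J := Nat.cast_nonneg _
    have h2 : ℓ / (J + 2) - 1 ≤ Real.log n := by linarith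
    have h3 : J ≤ e * ℓ := by
      rw [div_le_iff₀ he0] at hℓJ
      linarith
    have h4 : J * (ℓ / (J + 2)) = ℓ - 2 / (J + 2) * ℓ := by field_simp; ring
    have h5 : 2 / ((J : ℝ) + 2) * ℓ ≤ e * ℓ := by gcongr
    have h6 : J * (ℓ / (J + 2) - 1) ≤ J * Real.log n := by gcongr
    have h7 : J * (ℓ / (J + 2) - 1) = J * (ℓ / (J + 2)) - J := by ring
    linarith
  have hJw : J * Real.sqrt (2 * (J + 1) * Real.log n) ≤ e * ℓ := by
    refine le_trans ?_ hwr
    gcongr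
  have h2e : 2 * (e * ℓ) ≤ ε / 2 * ℓ := by
    have h1 : 2 * e ≤ ε / 2 := by linarith
    calc 2 * (e * ℓ) = 2 * e * ℓ := by ring
      _ ≤ ε / 2 * ℓ := mul_le_mul_of_nonneg_right h1 hℓ0.le
  have heℓ0 : 0 ≤ e * ℓ := by linarith
  have hlev2 : ∀ y ∈ Y, (y / Real.pi - ε / 2) * ℓ ≤ J * ((1 - e) * y * (Real.log n / Real.pi)) -
      J * Real.sqrt (2 * (J + 1) * Real.log n) := fun y hy =>
    lev_aux (hY y hy).1 (hY y hy).2 he0 he1 hℓ0 hJℓ h2e hJw
  have hcnt : ∀ y ∈ Y, ∀ a' : ℝ, a' ^ 2 = ((1 - e) * y * (Real.log n / Real.pi)) ^ 2 →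
      Real.exp ((1 - y ^ 2 - ε) * ℓ) ≤ ((n / 4 : ℕ) : ℝ) ^ J *
      (Real.exp (-(a' ^ 2 * Real.pi ^ 2 / Real.log n)) / (1 + Real.log n)) ^ J / 4 := by
    intro y hy a' ha'
    obtain ⟨hy0, hy1⟩ := hY y hy
    have h1 : a' ^ 2 * Real.pi ^ 2 / Real.log n ≤ y ^ 2 * Real.log n := by
      rw [ha', div_le_iff₀ hlogn0]
      have : ((1 - e) * y * (Real.log n / Real.pi)) ^ 2 * Real.pi ^ 2 =
        (1 - e) ^ 2 * (y ^ 2 * Real.log n * Real.log n) := by field_simp
      rw [this]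
      have h2 : (1 - e) ^ 2 ≤ 1 := by nlinarith
      have h3 : 0 ≤ y ^ 2 * Real.log n * Real.log n := by positivity
      nlinarith
    have hn0 : (0 : ℝ) < n := by exact_mod_cast (by omega : 0 < n)
    have h2 : (n : ℝ) / 8 ≤ ((n / 4 : ℕ) : ℝ) := by
      have : n ≤ 8 * (n / 4) := by omega
      have : (n : ℝ) ≤ 8 * ((n / 4 : ℕ) : ℝ) := by exact_mod_cast this
      linarith
    have h3 : Real.exp (Real.log n - Real.log 8) ≤ ((n / 4 : ℕ) : ℝ) := by
      rw [Real.exp_sub, Real.exp_log hn0, Real.exp_log (by norm_num)]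
      exact h2
    have h4 : Real.exp (-(y ^ 2 * Real.log n) - Real.log (1 + ℓ)) ≤
        Real.exp (-(a' ^ 2 * Real.pi ^ 2 / Real.log n)) / (1 + Real.log n) := by
      rw [Real.exp_sub, Real.exp_log (by linarith)]
      gcongr
    calc Real.exp ((1 - y ^ 2 - ε) * ℓ) ≤ Real.exp (Real.log n - Real.log 8) ^ J *
        Real.exp (-(y ^ 2 * Real.log n) - Real.log (1 + ℓ)) ^ J / 4 := by
          rw [← Real.exp_nat_mul, ← Real.exp_nat_mul, ← Real.exp_add,
            show (4 : ℝ) = Real.exp (Real.log 4) from (Real.exp_log (by norm_num)).symm, ← Real.exp_sub]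
          apply Real.exp_le_exp.2
          exact size_aux hy0 hy1 hJℓ h2e heℓ0 hsize
      _ ≤ _ := by gcongr
  have hxq : ∀ p : Fin J → Fin (n / 4), 1 ≤ xq J n p ∧ 2 * xq J n p ≤ r := by
    intro p
    refine ⟨xq_pos hJ1 (by omega) p, ?_⟩
    refine (xq_le (by omega) (by omega) p).trans ?_
    rw [hn]
    exact nq_pow (by omega)
  have hsumband : ∀ p : Fin J → Fin (n / 4), ∀ a' : ℝ,
      (∀ j : Fin J, |Xs (b j) (b (j + 1)) (xq J n p) (mq n) T t - a'| ≤
        Real.sqrt (2 * (J + 1) * Real.log n)) →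
      |(∑ j : Fin J, Xs (b j) (b (j + 1)) (xq J n p) δ T t) - J * a'| ≤
        J * Real.sqrt (2 * (J + 1) * Real.log n) := by
    intro p a' h
    have e1 : (∑ j : Fin J, Xs (b j) (b (j + 1)) (xq J n p) δ T t) - J * a' =
        ∑ j : Fin J, (Xs (b j) (b (j + 1)) (xq J n p) (mq n) T t - a') := by
      rw [Finset.sum_sub_distrib, Finset.sum_const, Finset.card_univ, Fintype.card_fin, nsmul_eq_mul]
      congr 1
      exact Finset.sum_congr rfl fun j _ => hband _ j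
    rw [e1]
    refine (Finset.abs_sum_le_sum_abs _ _).trans ?_
    refine (Finset.sum_le_sum fun j _ => h j).trans ?_
    rw [Finset.sum_const, Finset.card_univ, Fintype.card_fin, nsmul_eq_mul]
  have hinj := xq_inj (J := J) (n := n) (n' := n / 4) (by omega) (by omega)
  refine ⟨?_, ?_, ?_⟩
  · intro x hx1 hx2
    have h1 := hdet' x hx1 hx2
    have h2 := (ex x (Finset.mem_Icc.2 ⟨hx1, hx2⟩)).1
    rw [sumX_stt] at h2
    rw [abs_le] at h1 ⊢
    rw [abs_lt] at h2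
    have h3 : e * ℓ ≤ ε / 2 * ℓ := by
      have : e ≤ ε / 2 := by linarith
      gcongr
    have h4 : (1 / Real.pi + ε) * ℓ = 1 / Real.pi * ℓ + ε / 2 * ℓ + ε / 2 * ℓ := by ring
    rw [h4]
    rw [add_mul] at h2
    constructor <;> linarith [h1.1, h1.2, h2.1, h2.2]
  · have hx1 : (1 : ℕ) ∈ Finset.Icc 1 (2 * r) := Finset.mem_Icc.2 ⟨le_rfl, by omega⟩
    have h1 := hnearT 1 hx1 t
    have e1 := (ex 1 hx1).2.2.2
    have e2 := cntl_stt δ' 1 δ' T t
    push_cast at h1 e1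
    have z := e0
    obtain ⟨z1, z2, z3, z4⟩ := z
    rw [e2] at z4
    have b1 := (abs_lt.1 z2).2
    have b2 := (abs_lt.1 z3).2
    have b3 := (abs_lt.1 e1.1).2
    have b4 := (abs_lt.1 e1.2).2
    have b5 := (abs_lt.1 z4).2
    have h2 := (abs_le.1 h1).2
    have h3 : C1 * (4 / δ' + (stt (tril δ' 0) δ' T t + stt (tril δ' (-(1 / (2 * δ')))) δ' T t +
        stt (tril δ' 1) δ' T t + stt (tril δ' (1 - 1 / (2 * δ'))) δ' T t)) ≤
        C1 * (8 * (e * ℓ)) := by
      apply mul_le_mul_of_nonneg_left _ hC.le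
      linarith
    have h4 : (8 * C1 + 8) * (e * ℓ) = ε / 2 * ℓ := by rw [← mul_assoc, heε]
    have h5 : ε / 2 * ℓ ≤ ε * ℓ := by
      have : ε / 2 ≤ ε := by linarith
      gcongr
    have h6 : (8 * C1 + 8) * (e * ℓ) = C1 * (8 * (e * ℓ)) + 8 * (e * ℓ) := by ring
    rw [h6] at h4
    linarith

  · intro y hy
    obtain ⟨hy0, hy1⟩ := hY y hy
    refine ⟨?_, ?_, ?_⟩
    · refine le_trans ?_ (l3 y hy)
      refine Nat.cast_le.2 (Finset.card_le_card fun x hx => ?_)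
      rw [Finset.mem_filter] at hx ⊢
      refine ⟨hx.1, ?_⟩
      rw [Finset.mem_Icc] at hx
      have h1 := hdet' x hx.1.1 hx.1.2
      rw [← sumX_stt] at h1
      push Not
      have h2 := hx.2
      have h3 : |nc T t x - x| ≤ |stt (sumX J b x) δ T t| + ε / 2 * ℓ := by
        calc |nc T t x - x| = |(nc T t x - x + stt (sumX J b x) δ T t) - stt (sumX J b x) δ T t| := by
              congr 1; ring
          _ ≤ |nc T t x - x + stt (sumX J b x) δ T t| + |stt (sumX J b x) δ T t| := abs_sub _ _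
          _ ≤ _ := by linarith
      have h4 : e * ℓ ≤ ε / 2 * ℓ := by
        have : e ≤ ε / 2 := by linarith
        gcongr
      rw [add_mul] at h2 ⊢
      have h5 : ε * ℓ = ε / 2 * ℓ + ε / 2 * ℓ := by ring
      linarith
    · refine (hcnt y hy _ (neg_sq _)).trans ((l1 y hy).trans ?_)
      refine Nat.cast_le.2 (Finset.card_le_card_of_injOn (fun p => xq J n p) (fun p hp => ?_)
        (hinj.injOn))
      have hp' := (Finset.mem_filter.1 (Finset.mem_coe.1 hp)).2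
      have hxp := hxq p
      rw [Finset.mem_coe, Finset.mem_filter, Finset.mem_Icc]
      refine ⟨⟨hxp.1, hxp.2.trans' (by show xq J n p ≤ 2 * xq J n p; omega) |>.trans (by omega)⟩, hxp.2, ?_⟩
      have h1 := hdet' (xq J n p) hxp.1 (by omega)
      have h2 := hsumband p _ hp'
      have h6 := hlev2 y hy
      rw [abs_le] at h1 h2
      have h3 := h2.2
      have h4 := h1.1
      have h5 : (y / Real.pi - ε) * ℓ = (y / Real.pi - ε / 2) * ℓ - ε / 2 * ℓ := by ring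
      rw [h5]
      linarith
    · refine (hcnt y hy _ rfl).trans ((l2 y hy).trans ?_)
      refine Nat.cast_le.2 (Finset.card_le_card_of_injOn (fun p => xq J n p) (fun p hp => ?_)
        (hinj.injOn))
      have hp' := (Finset.mem_filter.1 (Finset.mem_coe.1 hp)).2
      have hxp := hxq p
      rw [Finset.mem_coe, Finset.mem_filter, Finset.mem_Icc]
      refine ⟨⟨hxp.1, hxp.2.trans' (by show xq J n p ≤ 2 * xq J n p; omega) |>.trans (by omega)⟩, hxp.2, ?_⟩
      have h1 := hdet' (xq J n p) hxp.1 (by omega)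
      have h2 := hsumband p _ hp'
      have h6 := hlev2 y hy
      rw [abs_le] at h1 h2
      have h3 := h2.1
      have h4 := h1.2
      have h5 : (y / Real.pi - ε) * ℓ = (y / Real.pi - ε / 2) * ℓ - ε / 2 * ℓ := by ring
      rw [h5]
      linarith

end Pool.Agent.H478.HP
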