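import Pool.Agent.H478.HP3

/-! High points: from heights to indices. -/

open Finset Complex MeasureTheory Filter Topology ProbabilityTheory

namespace Pool.Agent.H478.HP

open Pool.Agent.H478.CW
open Pool.Agent.H478.EX
open Pool.Agent.R321.FA
open SP (ZZ mu Mk RHs)
open SG (ord NZ zmult ZS)
open Pool.Agent.TH800.LD (ZZf)
open TH800.MS (dlt)

/-- counting through a map which moves points by a bounded amount -/
lemma card_fib {s t : Finset ℕ} {f : ℕ → ℕ} (hf : ∀ x ∈ s, f x ∈ t) {C : ℝ} (hC : 0 ≤ C)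
    (h : ∀ x ∈ s, |(x : ℝ) - f x| ≤ C) : (s.card : ℝ) ≤ (2 * C + 1) * t.card := by
  classical
  have h1 : s.card ≤ (2 * ⌊C⌋₊ + 1) * (s.image f).card := by
    apply Finset.card_le_mul_card_image
    intro b _
    have h2 : (s.filter fun a => f a = b) ⊆ Finset.Icc (b - ⌊C⌋₊) (b + ⌊C⌋₊) := by
      intro a ha
      rw [Finset.mem_filter] at ha
      obtain ⟨ha, hab⟩ := ha
      have h3 := h a ha
      rw [hab] at h3
      rw [Finset.mem_Icc]
      have h4 : ((max a b - min a b : ℕ) : ℝ) ≤ C := by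
        rcases le_total a b with hle | hle
        · rw [max_eq_right hle, min_eq_left hle]
          push_cast [Nat.cast_sub hle]
          have := neg_le_abs ((a : ℝ) - b)
          linarith
        · rw [max_eq_left hle, min_eq_right hle]
          push_cast [Nat.cast_sub hle]
          have := le_abs_self ((a : ℝ) - b)
          linarith
      have h5 : max a b - min a b ≤ ⌊C⌋₊ := Nat.le_floor h4
      omega
    refine (Finset.card_le_card h2).trans ?_
    rw [Nat.card_Icc]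
    omega
  have h2 : (s.image f).card ≤ t.card := by
    apply Finset.card_le_card
    intro b hb
    obtain ⟨a, ha, rfl⟩ := Finset.mem_image.1 hb
    exact hf a ha
  have h3 : ((s.card : ℕ) : ℝ) ≤ (((2 * ⌊C⌋₊ + 1) * t.card : ℕ) : ℝ) := by
    exact_mod_cast h1.trans (Nat.mul_le_mul_left _ h2)
  refine h3.trans ?_
  push_cast
  have h4 : (⌊C⌋₊ : ℝ) ≤ C := Nat.floor_le hC
  gcongr

/-- the centred sum of `k` consecutive gaps -/
noncomputable def Wn (n k : ℕ) : ℝ := (∑ i ∈ Finset.range k, dlt (n + i)) - k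

open Classical in
/-- the property of the index -/
def FH (ε : ℝ) (Y : Finset ℝ) (r n : ℕ) : Prop :=
  (∀ k ≤ r, |Wn n k| ≤ (1 / Real.pi + ε) * Real.log r) ∧
  ∀ y ∈ Y,
    (((Finset.range (r + 1)).filter fun k =>
      (y / Real.pi + ε) * Real.log r ≤ |Wn n k|).card : ℝ) ≤
        Real.exp ((1 - y ^ 2 + ε) * Real.log r) ∧
    Real.exp ((1 - y ^ 2 - ε) * Real.log r) ≤ (((Finset.range (r + 1)).filter fun k =>
      (y / Real.pi - ε) * Real.log r ≤ Wn n k).card : ℝ) ∧
    Real.exp ((1 - y ^ 2 - ε) * Real.log r) ≤ (((Finset.range (r + 1)).filter fun k =>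
      Wn n k ≤ -((y / Real.pi - ε) * Real.log r)).card : ℝ)

/-- a logarithm against a power -/
lemma log_pow {c : ℝ} (hc : 0 < c) : ∀ᶠ r : ℕ in atTop, 4 * Real.log r ≤ Real.exp (c * Real.log r) := by
  have h1 : Tendsto (fun r : ℕ => c * Real.log r) atTop atTop := nlog.const_mul_atTop hc
  have h2 := (Real.tendsto_pow_mul_exp_neg_atTop_nhds_zero 1).comp h1
  filter_upwards [h2.eventually (ge_mem_nhds (show (0 : ℝ) < c / 4 by positivity))] with r hr
  simp only [Function.comp_apply, pow_one] at hr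
  rw [Real.exp_neg, ← div_eq_mul_inv, div_le_iff₀ (Real.exp_pos _)] at hr
  have h3 : c * (4 * Real.log r) ≤ c * Real.exp (c * Real.log r) := by linarith
  exact le_of_mul_le_mul_left h3 hc

/-- **from heights to indices** -/
theorem transfer2 (RH : RiemannHypothesis) {ε : ℝ} (hε : 0 < ε) (hε1 : ε ≤ 1 / 8) (Y : Finset ℝ)
    (hY : ∀ y ∈ Y, 0 ≤ y ∧ y ≤ 1) : ∀ᶠ r : ℕ in atTop,
    ∀ᶠ T : ℝ in atTop, ∀ t, PH (ε / 8) Y r T t → ∀ n ∈ Ib T, ord n ≤ 2 * T - 1 → t < ord n →
      ord n ≤ t + 2 * Real.pi / Real.log T → FH ε Y r n := by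
  classical
  have hpi := Real.pi_pos
  have hpi3 := Real.pi_gt_three
  filter_upwards [nlog.eventually_ge_atTop (max 8 (8 / ε)), log_small 16,
    log_pow (by positivity : 0 < 7 * ε / 8)] with r hl hlr hlp
  set ℓ := Real.log r with hℓ
  have hℓ8 : 8 ≤ ℓ := (le_max_left _ _).trans hl
  have hℓε : 8 ≤ ε * ℓ := by
    have := (le_max_right _ _).trans hl
    rw [div_le_iff₀ hε] at this
    linarith
  have hℓ0 : 0 < ℓ := by linarith
  set e := ε / 8 with he
  have he0 : 0 < e := by positivity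
  have heℓ : 1 ≤ e * ℓ := by
    have : e * ℓ = ε * ℓ / 8 := by rw [he]; ring
    rw [this]; linarith
  have heℓ2 : e * ℓ ≤ ℓ / 64 := by
    have : e ≤ 1 / 64 := by rw [he]; linarith
    nlinarith
  have hεe : ε * ℓ = 8 * (e * ℓ) := by rw [he]; ring
  have hπ0 : 0 < 1 / Real.pi * ℓ := by positivity
  have hπℓ : 1 / Real.pi * ℓ ≤ ℓ / 3 := by
    rw [one_div, inv_mul_le_iff₀ hpi]
    nlinarith
  have hεℓ : ε * ℓ ≤ ℓ / 8 := by nlinarith
  filter_upwards [eventually_ge_atTop 10, Real.tendsto_log_atTop.eventually_ge_atTop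
    (2 * Real.pi * (2 * r))] with T hT10 hL
  intro t hP n hn hn2 ht1 ht2
  obtain ⟨p1, p4, p5⟩ := hP
  have hT1 : 1 ≤ T := by linarith
  have hL1 := log_one_le hT10
  set L := Real.log T with hLdef
  have hL0 : 0 < L := by linarith
  set γ := ord n with hγ
  have hr0 : (0 : ℝ) < r := by linarith
  -- windows up to length 2r
  have hwin : ∀ y : ℝ, 0 ≤ y → y ≤ 2 * r → 0 ≤ 2 * Real.pi * y / L ∧ 2 * Real.pi * y / L ≤ 1 := by
    intro y h0 h1
    refine ⟨by positivity, ?_⟩
    rw [div_le_one hL0]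
    have : 2 * Real.pi * y ≤ 2 * Real.pi * (2 * r) := by gcongr
    linarith
  have h6y : ∀ y : ℝ, y ≤ 2 * r → 6 * y ≤ L := by
    intro y h1
    nlinarith
  have hmu : (mu (zo γ) : ℝ) ≤ e * ℓ := by
    refine le_trans ?_ p4
    have hzo : zo γ ∈ ZZ T := by
      obtain ⟨q1, q2, q3⟩ := mem_Ib.1 hn
      have hb : n ∈ W200.HW.Ix (2 * T) := W200.HW.mem_Ix.2 ⟨q1, q3⟩
      obtain ⟨s0, s1, s2, s3, s4⟩ := W200.HW.zero_at RH hb
      exact ⟨s1, s2, by rw [zo_im]; exact q2, by rw [zo_im]; exact q3, s0⟩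
    exact mu_le_nc hT1 hzo (by rw [zo_im]; exact ht1) (by rw [zo_im, mul_one]; exact ht2)
  have hmu0 : (0 : ℝ) ≤ mu (zo γ) := Nat.cast_nonneg _
  set lam1 : ℝ := (1 / Real.pi + e) * ℓ with hlam1
  have hl1 : lam1 = 1 / Real.pi * ℓ + e * ℓ := by rw [hlam1]; ring
  have hle : (1 / Real.pi + ε) * ℓ = 1 / Real.pi * ℓ + 8 * (e * ℓ) := by rw [add_mul, hεe]
  -- upper and lower bounds for the counts at the zero
  have hup : ∀ y : ℝ, 0 ≤ y → y ≤ 2 * r - 2 → nc T γ y ≤ y + lam1 + 2 := by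
    intro y h0 h1
    have a1 := nc_up hT10 ht1.le ht2 y
    have a2 : nc T t (y + 1) ≤ nc T t ((⌈y⌉₊ + 1 : ℕ) : ℝ) := by
      apply nc_mono hT10
      push_cast
      linarith [Nat.le_ceil y]
    have a3 : (⌈y⌉₊ : ℝ) < y + 1 := Nat.ceil_lt_add_one h0
    have a4 : ⌈y⌉₊ + 1 ≤ 2 * r := by
      have : ((⌈y⌉₊ + 1 : ℕ) : ℝ) < 2 * r := by push_cast; linarith
      exact_mod_cast this.le
    have a5 := (abs_le.1 (p1 (⌈y⌉₊ + 1) (by omega) a4)).2
    push_cast at a5 a2
    linarith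
  have hlo : ∀ y : ℝ, 0 ≤ y → y ≤ 2 * r → y - lam1 - e * ℓ - 1 ≤ nc T γ y := by
    intro y h0 h1
    have a1 := nc_low hT10 ht1.le ht2 y
    have a2 : nc T t (⌊y⌋₊ : ℝ) ≤ nc T t y := nc_mono hT10 t (Nat.floor_le h0)
    have a3 : y < ⌊y⌋₊ + 1 := Nat.lt_floor_add_one y
    rcases Nat.eq_zero_or_pos ⌊y⌋₊ with h2 | h2
    · rw [h2] at a3
      have := nc_nonneg hT1 γ y
      push_cast at a3
      linarith
    · have a4 : ⌊y⌋₊ ≤ 2 * r := by
        have : (⌊y⌋₊ : ℝ) ≤ 2 * r := (Nat.floor_le h0).trans h1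
        exact_mod_cast this
      have a5 := (abs_le.1 (p1 ⌊y⌋₊ h2 a4)).1
      linarith
  have hall : ∀ k ≤ r, |Wn n k| ≤ (1 / Real.pi + ε) * ℓ := by
    intro k hk
    unfold Wn
    have hkr : (k : ℝ) ≤ r := by exact_mod_cast hk
    have hk0 : (0 : ℝ) ≤ k := Nat.cast_nonneg _
    rw [hle, abs_le]
    constructor
    · by_contra hcon
      push Not at hcon
      set y := (k : ℝ) - (1 / Real.pi * ℓ + 8 * (e * ℓ)) with hy
      have hS0 := sum_dlt_nonneg hT10 hn k
      have hSy : ∑ i ∈ Finset.range k, dlt (n + i) ≤ y := by linarith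
      have hy0 : 0 ≤ y := hS0.trans hSy
      have hyr : y ≤ 2 * r - 2 := by linarith
      obtain ⟨w1, w2⟩ := hwin y hy0 (by linarith)
      have c1 := ord_of_S hT10 hn hSy
      have c2 := nc_of_ord RH hT1 hn (by linarith) w1 c1
      have c3 := hup y hy0 hyr
      rw [← hγ] at c2
      linarith
    · by_contra hcon
      push Not at hcon
      set y := (k : ℝ) + (1 / Real.pi * ℓ + 8 * (e * ℓ)) - 1 with hy
      have hy0 : 0 ≤ y := by linarith
      have hyr : y ≤ 2 * r := by linarith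
      obtain ⟨w1, w2⟩ := hwin y hy0 hyr
      have c3 := hlo y hy0 hyr
      have c1 := ord_of_nc RH hT1 hn (k := k) (x := y) (by linarith) w1 (by rw [← hγ]; linarith)
      have c2 := S_of_ord hT10 hn hy0 (h6y y hyr) (by linarith) c1
      linarith
  refine ⟨hall, fun y hy => ?_⟩
  obtain ⟨hy0, hy1⟩ := hY y hy
  obtain ⟨b0, b1, b2⟩ := p5 y hy
  have hyπ0 : 0 ≤ y / Real.pi * ℓ := by positivity
  have hC0 : 0 ≤ ℓ - 1 := by linarith
  have hC2 : 2 * (ℓ - 1) + 1 ≤ 2 * ℓ := by linarith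
  refine ⟨?_, ?_, ?_⟩
  · -- the upper bound
    set B := (Finset.Icc 1 (2 * r)).filter fun x : ℕ =>
      (y / Real.pi + e) * ℓ ≤ |nc T t x - x| with hB
    set A1 := (Finset.range (r + 1)).filter fun k => (y / Real.pi + ε) * ℓ ≤ Wn n k with hA1
    set A2 := (Finset.range (r + 1)).filter fun k => Wn n k ≤ -((y / Real.pi + ε) * ℓ) with hA2
    have hsplit : (Finset.range (r + 1)).filter (fun k => (y / Real.pi + ε) * ℓ ≤ |Wn n k|) ⊆
        A1 ∪ A2 := by
      intro k hk
      rw [Finset.mem_filter] at hk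
      rw [Finset.mem_union, hA1, hA2, Finset.mem_filter, Finset.mem_filter]
      rcases le_abs.1 hk.2 with h | h
      · exact Or.inl ⟨hk.1, h⟩
      · exact Or.inr ⟨hk.1, by linarith⟩
    have c1 : (A1.card : ℝ) ≤ (2 * (ℓ - 1) + 1) * B.card := by
      apply card_fib (f := fun k => ⌊(∑ i ∈ Finset.range k, dlt (n + i)) - 3 / 2⌋₊) _ hC0 _
      · intro k hk
        rw [hA1, Finset.mem_filter, Finset.mem_range] at hk
        obtain ⟨hkr, hk⟩ := hk
        have hkr' : (k : ℝ) ≤ r := by exact_mod_cast (by omega : k ≤ r)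
        have hk0 : (0 : ℝ) ≤ k := Nat.cast_nonneg _
        have hW := (abs_le.1 (hall k (by omega))).2
        unfold Wn at hk hW
        set S := ∑ i ∈ Finset.range k, dlt (n + i) with hS
        rw [hle] at hW
        rw [add_mul, hεe] at hk
        have hS1 : 5 / 2 ≤ S := by linarith
        have hf1 : (1 : ℕ) ≤ ⌊S - 3 / 2⌋₊ := Nat.le_floor (by push_cast; linarith)
        have hf2 : (⌊S - 3 / 2⌋₊ : ℝ) ≤ S - 3 / 2 := Nat.floor_le (by linarith)
        have hf3 : S - 3 / 2 < ⌊S - 3 / 2⌋₊ + 1 := Nat.lt_floor_add_one _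
        have hSr : S - 3 / 2 ≤ 2 * r := by linarith
        obtain ⟨w1, w2⟩ := hwin (S - 3 / 2) (by linarith) hSr
        have hlt : nc T γ (S - 3 / 2) < k := by
          by_contra hcon
          push Not at hcon
          have d1 := ord_of_nc RH hT1 hn (k := k) (x := S - 3 / 2) (by linarith) w1
            (by rw [← hγ]; exact hcon)
          have d2 := S_of_ord hT10 hn (by linarith) (h6y _ hSr) (by linarith) d1
          rw [← hS] at d2
          linarith
        have a1 := nc_low hT10 ht1.le ht2 (⌊S - 3 / 2⌋₊ : ℝ)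
        have a2 : nc T γ (⌊S - 3 / 2⌋₊ : ℝ) ≤ nc T γ (S - 3 / 2) := nc_mono hT10 γ hf2
        rw [hB, Finset.mem_filter, Finset.mem_Icc]
        refine ⟨⟨hf1, ?_⟩, ?_⟩
        · have : (⌊S - 3 / 2⌋₊ : ℝ) ≤ 2 * r := hf2.trans hSr
          exact_mod_cast this
        · refine le_trans ?_ (neg_le_abs _)
          rw [add_mul]
          linarith
      · intro k hk
        rw [hA1, Finset.mem_filter, Finset.mem_range] at hk
        obtain ⟨hkr, hk⟩ := hk
        have hW := (abs_le.1 (hall k (by omega))).2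
        unfold Wn at hk hW
        show |(k : ℝ) - (⌊(∑ i ∈ Finset.range k, dlt (n + i)) - 3 / 2⌋₊ : ℝ)| ≤ ℓ - 1
        set S := ∑ i ∈ Finset.range k, dlt (n + i) with hS
        rw [hle] at hW
        rw [add_mul, hεe] at hk
        have hk0 : (0 : ℝ) ≤ k := Nat.cast_nonneg _
        have hf2 : (⌊S - 3 / 2⌋₊ : ℝ) ≤ S - 3 / 2 := Nat.floor_le (by linarith)
        have hf3 : S - 3 / 2 < ⌊S - 3 / 2⌋₊ + 1 := Nat.lt_floor_add_one _
        rw [abs_le]
        constructor <;> linarith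
    have c2 : (A2.card : ℝ) ≤ (2 * (ℓ - 1) + 1) * B.card := by
      apply card_fib (f := fun k => ⌈∑ i ∈ Finset.range k, dlt (n + i)⌉₊ + 1) _ hC0 _
      · intro k hk
        rw [hA2, Finset.mem_filter, Finset.mem_range] at hk
        obtain ⟨hkr, hk⟩ := hk
        have hkr' : (k : ℝ) ≤ r := by exact_mod_cast (by omega : k ≤ r)
        have hS0 := sum_dlt_nonneg hT10 hn k
        unfold Wn at hk
        set S := ∑ i ∈ Finset.range k, dlt (n + i) with hS
        rw [add_mul, hεe] at hk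
        have hf2 : S ≤ ⌈S⌉₊ := Nat.le_ceil S
        have hf3 : (⌈S⌉₊ : ℝ) < S + 1 := Nat.ceil_lt_add_one hS0
        have hSr : S ≤ 2 * r := by linarith
        obtain ⟨w1, w2⟩ := hwin S hS0 hSr
        have d1 := ord_of_S hT10 hn (k := k) (x := S) le_rfl
        have d2 := nc_of_ord RH hT1 hn (by linarith) w1 d1
        rw [← hγ] at d2
        have a1 := nc_up hT10 ht1.le ht2 S
        have a2 : nc T t (S + 1) ≤ nc T t ((⌈S⌉₊ + 1 : ℕ) : ℝ) := by
          apply nc_mono hT10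
          push_cast
          linarith
        rw [hB, Finset.mem_filter, Finset.mem_Icc]
        refine ⟨⟨by omega, ?_⟩, ?_⟩
        · have : ((⌈S⌉₊ + 1 : ℕ) : ℝ) ≤ 2 * r := by push_cast; linarith
          exact_mod_cast this
        · refine le_trans ?_ (le_abs_self _)
          rw [add_mul]
          push_cast at a2 ⊢
          linarith
      · intro k hk
        rw [hA2, Finset.mem_filter, Finset.mem_range] at hk
        obtain ⟨hkr, hk⟩ := hk
        have hW := (abs_le.1 (hall k (by omega))).1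
        have hS0 := sum_dlt_nonneg hT10 hn k
        unfold Wn at hk hW
        show |(k : ℝ) - ((⌈∑ i ∈ Finset.range k, dlt (n + i)⌉₊ + 1 : ℕ) : ℝ)| ≤ ℓ - 1
        set S := ∑ i ∈ Finset.range k, dlt (n + i) with hS
        rw [hle] at hW
        rw [add_mul, hεe] at hk
        have hf2 : S ≤ ⌈S⌉₊ := Nat.le_ceil S
        have hf3 : (⌈S⌉₊ : ℝ) < S + 1 := Nat.ceil_lt_add_one hS0
        push_cast
        rw [abs_le]
        constructor <;> linarith
    have c3 : (((Finset.range (r + 1)).filter fun k =>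
        (y / Real.pi + ε) * ℓ ≤ |Wn n k|).card : ℝ) ≤ A1.card + A2.card := by
      exact_mod_cast (Finset.card_le_card hsplit).trans (Finset.card_union_le _ _)
    have hB0 : (0 : ℝ) ≤ B.card := Nat.cast_nonneg _
    have c4 : (A1.card : ℝ) + A2.card ≤ 4 * ℓ * B.card := by
      have : (2 * (ℓ - 1) + 1) * (B.card : ℝ) ≤ 2 * ℓ * B.card := by gcongr
      linarith
    calc _ ≤ (A1.card : ℝ) + A2.card := c3
      _ ≤ 4 * ℓ * B.card := c4
      _ ≤ Real.exp (7 * ε / 8 * ℓ) * Real.exp ((1 - y ^ 2 + e) * ℓ) := by gcongr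
      _ = _ := by rw [← Real.exp_add]; congr 1; rw [he]; ring
  · -- large sums
    set A := (Finset.range (r + 1)).filter fun k => (y / Real.pi - ε) * ℓ ≤ Wn n k with hA
    have c1 := card_fib (s := (Finset.Icc 1 (2 * r)).filter fun x : ℕ =>
      2 * x ≤ r ∧ nc T t x - x ≤ -((y / Real.pi - e) * ℓ)) (t := A)
      (f := fun x => ⌊nc T γ ((x : ℝ) - 1) + mu (zo γ)⌋₊ + 1) (C := ℓ - 1) (by
        intro x hx
        rw [Finset.mem_filter, Finset.mem_Icc] at hx
        obtain ⟨⟨hx1, hx2⟩, hx3, hx4⟩ := hx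
        have hx1' : (1 : ℝ) ≤ x := by exact_mod_cast hx1
        have hx3' : 2 * (x : ℝ) ≤ r := by exact_mod_cast hx3
        have hyr : (x : ℝ) - 1 ≤ 2 * r := by linarith
        obtain ⟨w1, w2⟩ := hwin ((x : ℝ) - 1) (by linarith) hyr
        have a1 := nc_up hT10 ht1.le ht2 ((x : ℝ) - 1)
        rw [sub_add_cancel] at a1
        have a5 := (abs_le.1 (p1 x hx1 hx2)).2
        have hN0 := nc_nonneg hT1 γ ((x : ℝ) - 1)
        set N := nc T γ ((x : ℝ) - 1) with hN
        have hk1 : N + mu (zo γ) < ((⌊N + mu (zo γ)⌋₊ + 1 : ℕ) : ℝ) := by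
          push_cast; exact Nat.lt_floor_add_one _
        have hk2 : ((⌊N + mu (zo γ)⌋₊ + 1 : ℕ) : ℝ) ≤ N + mu (zo γ) + 1 := by
          push_cast
          have : (⌊N + mu (zo γ)⌋₊ : ℝ) ≤ N + mu (zo γ) := Nat.floor_le (by positivity)
          linarith
        set k := ⌊N + mu (zo γ)⌋₊ + 1 with hk
        rw [hA, Finset.mem_filter, Finset.mem_range]
        constructor
        · have : (k : ℝ) ≤ r := by linarith
          have : k ≤ r := by exact_mod_cast this
          omega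
        · unfold Wn
          by_contra hcon
          push Not at hcon
          rw [sub_mul] at hcon hx4
          have hSy : ∑ i ∈ Finset.range k, dlt (n + i) ≤ (x : ℝ) - 1 := by linarith
          have d1 := ord_of_S hT10 hn hSy
          have d2 := nc_of_ord RH hT1 hn (by linarith) w1 d1
          rw [← hγ, ← hN] at d2
          linarith) hC0 (by
        intro x hx
        rw [Finset.mem_filter, Finset.mem_Icc] at hx
        obtain ⟨⟨hx1, hx2⟩, hx3, hx4⟩ := hx
        have hx1' : (1 : ℝ) ≤ x := by exact_mod_cast hx1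
        have hx3' : 2 * (x : ℝ) ≤ r := by exact_mod_cast hx3
        have a1 := hup ((x : ℝ) - 1) (by linarith) (by linarith)
        have a2 := hlo ((x : ℝ) - 1) (by linarith) (by linarith)
        have hN0 := nc_nonneg hT1 γ ((x : ℝ) - 1)
        show |(x : ℝ) - ((⌊nc T γ ((x : ℝ) - 1) + mu (zo γ)⌋₊ + 1 : ℕ) : ℝ)| ≤ ℓ - 1
        set N := nc T γ ((x : ℝ) - 1) with hN
        have hk1 : N + mu (zo γ) < ((⌊N + mu (zo γ)⌋₊ + 1 : ℕ) : ℝ) := by
          push_cast; exact Nat.lt_floor_add_one _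
        have hk2 : ((⌊N + mu (zo γ)⌋₊ + 1 : ℕ) : ℝ) ≤ N + mu (zo γ) + 1 := by
          push_cast
          have : (⌊N + mu (zo γ)⌋₊ : ℝ) ≤ N + mu (zo γ) := Nat.floor_le (by positivity)
          linarith
        rw [abs_le]
        constructor <;> linarith)
    have hA0 : (0 : ℝ) ≤ A.card := Nat.cast_nonneg _
    have c2 : Real.exp ((1 - y ^ 2 - e) * ℓ) ≤ 4 * ℓ * A.card := by
      refine b2.trans (c1.trans ?_)
      have : (2 * (ℓ - 1) + 1) * (A.card : ℝ) ≤ 4 * ℓ * A.card := by gcongr; linarith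
      exact this
    have c3 : Real.exp ((1 - y ^ 2 - e) * ℓ) ≤ Real.exp (7 * ε / 8 * ℓ) * A.card :=
      c2.trans (by gcongr)
    have c4 : Real.exp ((1 - y ^ 2 - e) * ℓ) = Real.exp (7 * ε / 8 * ℓ) *
        Real.exp ((1 - y ^ 2 - ε) * ℓ) := by
      rw [← Real.exp_add]; congr 1; rw [he]; ring
    rw [c4] at c3
    exact le_of_mul_le_mul_left c3 (Real.exp_pos _)
  · -- small sums
    set A := (Finset.range (r + 1)).filter fun k => Wn n k ≤ -((y / Real.pi - ε) * ℓ) with hA
    have c1 := card_fib (s := (Finset.Icc 1 (2 * r)).filter fun x : ℕ =>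
      2 * x ≤ r ∧ (y / Real.pi - e) * ℓ ≤ nc T t x - x) (t := A)
      (f := fun x => ⌊nc T γ (x : ℝ)⌋₊) (C := ℓ - 1) (by
        intro x hx
        rw [Finset.mem_filter, Finset.mem_Icc] at hx
        obtain ⟨⟨hx1, hx2⟩, hx3, hx4⟩ := hx
        have hx1' : (1 : ℝ) ≤ x := by exact_mod_cast hx1
        have hx3' : 2 * (x : ℝ) ≤ r := by exact_mod_cast hx3
        have hyr : (x : ℝ) ≤ 2 * r := by linarith
        obtain ⟨w1, w2⟩ := hwin (x : ℝ) (by linarith) hyr
        have a1 := nc_low hT10 ht1.le ht2 (x : ℝ)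
        have a5 := hup (x : ℝ) (by linarith) (by linarith)
        have hN0 := nc_nonneg hT1 γ (x : ℝ)
        show ⌊nc T γ (x : ℝ)⌋₊ ∈ A
        set N := nc T γ (x : ℝ) with hN
        have hk1 : (⌊N⌋₊ : ℝ) ≤ N := Nat.floor_le hN0
        have hk2 : N < ⌊N⌋₊ + 1 := Nat.lt_floor_add_one _
        set k := ⌊N⌋₊ with hk
        rw [hA, Finset.mem_filter, Finset.mem_range]
        constructor
        · have : (k : ℝ) ≤ r := by linarith
          have : k ≤ r := by exact_mod_cast this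
          omega
        · unfold Wn
          have d1 := ord_of_nc RH hT1 hn (k := k) (x := x) (by linarith) w1
            (by rw [← hγ, ← hN]; exact hk1)
          have d2 := S_of_ord hT10 hn (by linarith) (h6y _ hyr) (by linarith) d1
          rw [sub_mul] at hx4 ⊢
          linarith) hC0 (by
        intro x hx
        rw [Finset.mem_filter, Finset.mem_Icc] at hx
        obtain ⟨⟨hx1, hx2⟩, hx3, hx4⟩ := hx
        have hx1' : (1 : ℝ) ≤ x := by exact_mod_cast hx1
        have hx3' : 2 * (x : ℝ) ≤ r := by exact_mod_cast hx3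
        have a1 := hup (x : ℝ) (by linarith) (by linarith)
        have a2 := hlo (x : ℝ) (by linarith) (by linarith)
        have hN0 := nc_nonneg hT1 γ (x : ℝ)
        show |(x : ℝ) - (⌊nc T γ (x : ℝ)⌋₊ : ℝ)| ≤ ℓ - 1
        set N := nc T γ (x : ℝ) with hN
        have hk1 : (⌊N⌋₊ : ℝ) ≤ N := Nat.floor_le hN0
        have hk2 : N < ⌊N⌋₊ + 1 := Nat.lt_floor_add_one _
        rw [abs_le]
        constructor <;> linarith)
    have hA0 : (0 : ℝ) ≤ A.card := Nat.cast_nonneg _
    have c2 : Real.exp ((1 - y ^ 2 - e) * ℓ) ≤ 4 * ℓ * A.card := by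
      refine b1.trans (c1.trans ?_)
      have : (2 * (ℓ - 1) + 1) * (A.card : ℝ) ≤ 4 * ℓ * A.card := by gcongr; linarith
      exact this
    have c3 : Real.exp ((1 - y ^ 2 - e) * ℓ) ≤ Real.exp (7 * ε / 8 * ℓ) * A.card :=
      c2.trans (by gcongr)
    have c4 : Real.exp ((1 - y ^ 2 - e) * ℓ) = Real.exp (7 * ε / 8 * ℓ) *
        Real.exp ((1 - y ^ 2 - ε) * ℓ) := by
      rw [← Real.exp_add]; congr 1; rw [he]; ring
    rw [c4] at c3
    exact le_of_mul_le_mul_left c3 (Real.exp_pos _)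

end Pool.Agent.H478.HP
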