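import Pool.Agent.H478.HP4
import Pool.Agent.H478.EX18

/-! High points: most indices. -/

open Finset Complex MeasureTheory Filter Topology ProbabilityTheory

namespace Pool.Agent.H478.HP

open Pool.Agent.H478.CW
open Pool.Agent.H478.EX
open Pool.Agent.R321.FA
open SP (ZZ mu Mk RHs)
open SG (ord NZ zmult ZS)
open Pool.Agent.TH800.LD (ZZf)
open TH800.MS (dlt)

lemma FH_mono {e ε : ℝ} (h : e ≤ ε) {Y : Finset ℝ} {r n : ℕ}
    (hF : FH e Y r n) : FH ε Y r n := by
  classical
  obtain ⟨a1, a2⟩ := hF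
  refine ⟨fun k hk => (a1 k hk).trans ?_, fun y hy => ?_⟩
  · gcongr
  · obtain ⟨b1, b2, b3⟩ := a2 y hy
    refine ⟨?_, ?_, ?_⟩
    · refine le_trans ?_ (b1.trans ?_)
      · norm_cast
        apply Finset.card_le_card
        intro k hk
        rw [Finset.mem_filter] at hk ⊢
        refine ⟨hk.1, le_trans ?_ hk.2⟩
        gcongr
      · gcongr
    · refine le_trans ?_ (b2.trans ?_)
      · gcongr
      · norm_cast
        apply Finset.card_le_card
        intro k hk
        rw [Finset.mem_filter] at hk ⊢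
        refine ⟨hk.1, le_trans ?_ hk.2⟩
        gcongr
    · refine le_trans ?_ (b3.trans ?_)
      · gcongr
      · norm_cast
        apply Finset.card_le_card
        intro k hk
        rw [Finset.mem_filter] at hk ⊢
        refine ⟨hk.1, le_trans hk.2 ?_⟩
        apply neg_le_neg
        gcongr

/-- **high points for most indices** -/
theorem high (RH : RiemannHypothesis) {ε : ℝ} (hε : 0 < ε) (Y : Finset ℝ)
    (hY : ∀ y ∈ Y, 0 ≤ y ∧ y ≤ 1) : ∀ᶠ r : ℕ in atTop,
    ∀ᶠ N : ℕ in atTop, (({n : ℕ | 1 ≤ n ∧ n ≤ N ∧ ¬ FH ε Y r n}.ncard : ℕ) : ℝ) ≤ ε * N := by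
  obtain ⟨C, hC, hbad⟩ := bad_count RH
  set e := min ε (1 / 8) with he
  have he0 : 0 < e := lt_min hε (by norm_num)
  have heε : e ≤ ε := min_le_left _ _
  have he8 : e ≤ 1 / 8 := min_le_right _ _
  set q := ε / (64 * C) with hq
  have hq0 : 0 < q := by positivity
  filter_upwards [leb2 (rhs_of RH) (by positivity : 0 < e / 8) (by linarith)
    (by positivity : 0 < q ^ 2) Y hY, transfer2 RH he0 he8 Y hY]
    with r h1 h2
  apply all_bad hε
  have h4 := hbad q hq0 (PH (e / 8) Y r) h1 (FH e Y r) h2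
  filter_upwards [h4, eventually_ge_atTop 1] with T h5 hT1
  have e1 : C * q = ε / 64 := by rw [hq]; field_simp
  rw [e1] at h5
  refine le_trans (Finset.sum_le_sum fun n _ => ?_) h5
  unfold idc
  by_cases hF : FH e Y r n
  · have hF' : FH ε Y r n := FH_mono heε hF
    rw [if_neg (not_not.2 hF'), if_neg (not_not.2 hF)]
  · rw [if_pos hF]
    split_ifs <;> norm_num

end Pool.Agent.H478.HP
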