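import Pool.Agent.H478.HP5

/-! High points: all levels at once and the free energy. -/

open Finset MeasureTheory Filter Topology

namespace Pool.Agent.H478.HP

/-- the limiting free energy -/
noncomputable def frz (β : ℝ) : ℝ := if |β| ≤ 2 then 1 + β ^ 2 / 4 else |β|

lemma frz_neg (β : ℝ) : frz (-β) = frz β := by
  unfold frz
  rw [abs_neg, neg_sq]

lemma frz_ge {β y : ℝ} (hβ : 0 ≤ β) (hy1 : y ≤ 1) : 1 - y ^ 2 + β * y ≤ frz β := by
  unfold frz
  rw [abs_of_nonneg hβ]
  split_ifs with h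
  · nlinarith [sq_nonneg (β / 2 - y)]
  · push Not at h
    nlinarith [sq_nonneg (1 - y)]

lemma frz_eq {β : ℝ} (hβ : 0 ≤ β) :
    frz β = 1 - (min (β / 2) 1) ^ 2 + β * min (β / 2) 1 := by
  unfold frz
  rw [abs_of_nonneg hβ]
  split_ifs with h
  · rw [min_eq_left (by linarith)]
    ring
  · push Not at h
    rw [min_eq_right (by linarith)]
    ring

open Classical in
/-- the high points of a sequence of numbers, at finitely many levels -/
def FW (ε : ℝ) (Y : Finset ℝ) (r : ℕ) (w : ℕ → ℝ) : Prop :=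
  (∀ k ≤ r, |w k| ≤ (1 / Real.pi + ε) * Real.log r) ∧
  ∀ y ∈ Y,
    (((Finset.range (r + 1)).filter fun k =>
      (y / Real.pi + ε) * Real.log r ≤ |w k|).card : ℝ) ≤
        Real.exp ((1 - y ^ 2 + ε) * Real.log r) ∧
    Real.exp ((1 - y ^ 2 - ε) * Real.log r) ≤ (((Finset.range (r + 1)).filter fun k =>
      (y / Real.pi - ε) * Real.log r ≤ w k).card : ℝ) ∧
    Real.exp ((1 - y ^ 2 - ε) * Real.log r) ≤ (((Finset.range (r + 1)).filter fun k =>
      w k ≤ -((y / Real.pi - ε) * Real.log r)).card : ℝ)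

lemma FW_neg {ε : ℝ} {Y : Finset ℝ} {r : ℕ} {w : ℕ → ℝ} (h : FW ε Y r w) :
    FW ε Y r (fun k => - w k) := by
  obtain ⟨a1, a2⟩ := h
  refine ⟨fun k hk => by rw [abs_neg]; exact a1 k hk, fun y hy => ?_⟩
  obtain ⟨b1, b2, b3⟩ := a2 y hy
  refine ⟨?_, ?_, ?_⟩
  · simpa only [abs_neg] using b1
  · have e1 : ∀ k, ((y / Real.pi - ε) * Real.log r ≤ - w k) =
        (w k ≤ -((y / Real.pi - ε) * Real.log r)) := fun k => propext le_neg
    simp only [e1]
    exact b3
  · simp only [neg_le_neg_iff]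
    exact b2

open Classical in
/-- the high points of a sequence of numbers, at all levels -/
def GW (ε B : ℝ) (r : ℕ) (w : ℕ → ℝ) : Prop :=
  (∀ k ≤ r, |w k| ≤ (1 / Real.pi + ε) * Real.log r) ∧
  (∀ y, 0 ≤ y → y ≤ 1 → (((Finset.range (r + 1)).filter fun k =>
      y / Real.pi * Real.log r ≤ |w k|).card : ℝ) ≤ Real.exp ((1 - y ^ 2 + ε) * Real.log r)) ∧
  (∀ y, 0 ≤ y → y ≤ 1 - ε →
    Real.exp ((1 - y ^ 2 - ε) * Real.log r) ≤ (((Finset.range (r + 1)).filter fun k =>
      y / Real.pi * Real.log r ≤ w k).card : ℝ) ∧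
    Real.exp ((1 - y ^ 2 - ε) * Real.log r) ≤ (((Finset.range (r + 1)).filter fun k =>
      w k ≤ -(y / Real.pi * Real.log r)).card : ℝ)) ∧
  (∀ β, |β| ≤ B → |Real.log (∑ k ∈ Finset.range (r + 1), Real.exp (β * Real.pi * w k))
    - frz β * Real.log r| ≤ ε * Real.log r)

/-- the levels -/
noncomputable def net (m : ℕ) : Finset ℝ := (Finset.range (m + 1)).image fun i : ℕ => (i : ℝ) / m

lemma mem_net {m i : ℕ} (h : i ≤ m) : (i : ℝ) / m ∈ net m :=
  Finset.mem_image.2 ⟨i, Finset.mem_range.2 (by omega), rfl⟩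

lemma net_unit {m : ℕ} (hm : 0 < m) : ∀ y ∈ net m, 0 ≤ y ∧ y ≤ 1 := by
  intro y hy
  obtain ⟨i, hi, rfl⟩ := Finset.mem_image.1 hy
  rw [Finset.mem_range] at hi
  have hm' : (0 : ℝ) < m := by exact_mod_cast hm
  refine ⟨by positivity, ?_⟩
  rw [div_le_one hm']
  exact_mod_cast (by omega : i ≤ m)

lemma up_level {m : ℕ} {e ε ℓ : ℝ} {r : ℕ} {w : ℕ → ℝ} (hm : 0 < m) (hl : 0 < ℓ) (he0 : 0 < e)
    (heπ : Real.pi * e ≤ 1 / m) (hmε : 16 / m ≤ ε) (heε : e ≤ ε / 16) (hε1 : ε ≤ 1)
    (hℓ : ℓ = Real.log r) (hr : (r : ℝ) + 1 ≤ Real.exp ((1 + ε / 2) * ℓ))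
    (h : FW e (net m) r w) {y : ℝ} (hy0 : 0 ≤ y) (hy1 : y ≤ 1) :
    (open Classical in (((Finset.range (r + 1)).filter fun k =>
      y / Real.pi * ℓ ≤ |w k|).card : ℝ)) ≤ Real.exp ((1 - y ^ 2 + ε) * ℓ) := by
  classical
  have hpi := Real.pi_pos
  have hm' : (0 : ℝ) < m := by exact_mod_cast hm
  have hmi : (0 : ℝ) < 1 / m := by positivity
  have hm16 : 16 * (1 / (m : ℝ)) ≤ ε := by rw [mul_one_div]; exact hmε
  set μ : ℝ := 1 / m with hμ
  rcases lt_or_ge y (2 * μ) with h1 | h1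
  · have h2 : (((Finset.range (r + 1)).filter fun k => y / Real.pi * ℓ ≤ |w k|).card : ℝ) ≤ r + 1 := by
      have := Finset.card_filter_le (Finset.range (r + 1)) (fun k => y / Real.pi * ℓ ≤ |w k|)
      rw [Finset.card_range] at this
      exact_mod_cast this
    refine h2.trans (hr.trans ?_)
    have : y ^ 2 ≤ ε / 2 := by nlinarith
    exact Real.exp_le_exp.2 (mul_le_mul_of_nonneg_right (by linarith) hl.le)
  · have hfl : 1 ≤ ⌊y * m⌋₊ := by
      apply Nat.le_floor
      push_cast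
      have : 2 * μ * m ≤ y * m := by gcongr
      have h3 : 2 * μ * m = 2 := by rw [hμ]; field_simp
      linarith
    set i := ⌊y * m⌋₊ - 1 with hi
    have hic : (i : ℝ) = ⌊y * m⌋₊ - 1 := by rw [hi]; push_cast [Nat.cast_sub hfl]; ring
    have hym : 0 ≤ y * m := by positivity
    have hf1 : (⌊y * m⌋₊ : ℝ) ≤ y * m := Nat.floor_le hym
    have hf2 : y * m < ⌊y * m⌋₊ + 1 := Nat.lt_floor_add_one _
    have him : i ≤ m := by
      have : (i : ℝ) ≤ m := by rw [hic]; nlinarith
      exact_mod_cast this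
    have e1 : (i : ℝ) / m ≤ y - μ := by
      rw [div_le_iff₀ hm', hic, sub_mul]
      have : μ * m = 1 := by rw [hμ]; field_simp
      linarith
    have e2 : y - 2 * μ ≤ (i : ℝ) / m := by
      rw [le_div_iff₀ hm', hic, sub_mul]
      have : 2 * μ * m = 2 := by rw [hμ]; field_simp
      linarith
    obtain ⟨b1, -, -⟩ := h.2 _ (mem_net him)
    set y' := (i : ℝ) / m with hy'
    have hy'0 : 0 ≤ y' := by positivity
    have e3 : y' / Real.pi + e ≤ y / Real.pi := by
      rw [div_add' _ _ _ hpi.ne', div_le_div_iff_of_pos_right hpi]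
      linarith
    rw [← hℓ] at b1
    refine le_trans ?_ (b1.trans ?_)
    · norm_cast
      apply Finset.card_le_card
      intro k hk
      rw [Finset.mem_filter] at hk ⊢
      refine ⟨hk.1, le_trans ?_ hk.2⟩
      gcongr
    · have : y ^ 2 - y' ^ 2 ≤ 4 * μ := by nlinarith
      exact Real.exp_le_exp.2 (mul_le_mul_of_nonneg_right (by linarith) hl.le)

lemma low_level {m : ℕ} {e ε ℓ : ℝ} {r : ℕ} {w : ℕ → ℝ} (hm : 0 < m) (hl : 0 < ℓ) (he0 : 0 < e)
    (heπ : Real.pi * e ≤ 1 / m) (hmε : 16 / m ≤ ε) (heε : e ≤ ε / 16) (hε1 : ε ≤ 1)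
    (hℓ : ℓ = Real.log r)
    (h : FW e (net m) r w) {y : ℝ} (hy0 : 0 ≤ y) (hy1 : y ≤ 1 - ε) :
    Real.exp ((1 - y ^ 2 - ε) * ℓ) ≤
    (open Classical in (((Finset.range (r + 1)).filter fun k =>
      y / Real.pi * ℓ ≤ w k).card : ℝ)) := by
  classical
  have hpi := Real.pi_pos
  have hm' : (0 : ℝ) < m := by exact_mod_cast hm
  have hmi : (0 : ℝ) < 1 / m := by positivity
  have hm16 : 16 * (1 / (m : ℝ)) ≤ ε := by rw [mul_one_div]; exact hmε
  set μ : ℝ := 1 / m with hμ
  have hμm : μ * m = 1 := by rw [hμ]; field_simp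
  set i := ⌊y * m⌋₊ + 2 with hi
  have hic : (i : ℝ) = ⌊y * m⌋₊ + 2 := by rw [hi]; push_cast; ring
  have hym : 0 ≤ y * m := by positivity
  have hf1 : (⌊y * m⌋₊ : ℝ) ≤ y * m := Nat.floor_le hym
  have hf2 : y * m < ⌊y * m⌋₊ + 1 := Nat.lt_floor_add_one _
  have him : i ≤ m := by
    have h1 : y * m ≤ (1 - ε) * m := by gcongr
    have h2 : 16 * μ * m ≤ ε * m := by gcongr
    have : (i : ℝ) ≤ m := by rw [hic]; nlinarith
    exact_mod_cast this
  have e1 : y + μ ≤ (i : ℝ) / m := by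
    rw [le_div_iff₀ hm', hic, add_mul, hμm]
    linarith
  have e2 : (i : ℝ) / m ≤ y + 2 * μ := by
    rw [div_le_iff₀ hm', hic, add_mul]
    have : 2 * μ * m = 2 := by rw [mul_assoc, hμm]; norm_num
    linarith
  obtain ⟨-, b2, -⟩ := h.2 _ (mem_net him)
  have hy'1 : (i : ℝ) / m ≤ 1 := by
    rw [div_le_one hm']; exact_mod_cast him
  set y' := (i : ℝ) / m with hy'
  have e3 : y / Real.pi ≤ y' / Real.pi - e := by
    rw [le_sub_iff_add_le, div_add' _ _ _ hpi.ne', div_le_div_iff_of_pos_right hpi]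
    linarith
  rw [← hℓ] at b2
  refine le_trans ?_ (b2.trans ?_)
  · have : y' ^ 2 - y ^ 2 ≤ 4 * μ := by nlinarith
    exact Real.exp_le_exp.2 (mul_le_mul_of_nonneg_right (by linarith) hl.le)
  · norm_cast
    apply Finset.card_le_card
    intro k hk
    rw [Finset.mem_filter] at hk ⊢
    refine ⟨hk.1, le_trans ?_ hk.2⟩
    gcongr

/-- the upper bound for the exponential sum -/
lemma frz_up {m : ℕ} {e ε ℓ B : ℝ} {r : ℕ} {w : ℕ → ℝ} (hm : 0 < m) (hl : 0 < ℓ) (he0 : 0 < e)
    (heπ : Real.pi * e ≤ 1 / m) (hmε : 16 * (B + 1) / m ≤ ε) (heε : e ≤ ε / 16)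
    (hℓ : ℓ = Real.log r) (hr : (r : ℝ) + 1 ≤ Real.exp ((1 + e) * ℓ)) (hr2 : Real.log (m + 2) ≤ ε / 2 * ℓ)
    (h : FW e (net m) r w) {β : ℝ} (hβ0 : 0 ≤ β) (hβ : β ≤ B) :
    Real.log (∑ k ∈ Finset.range (r + 1), Real.exp (β * Real.pi * w k)) ≤ (frz β + ε) * ℓ := by
  classical
  have hpi := Real.pi_pos
  have hm' : (0 : ℝ) < m := by exact_mod_cast hm
  have hmi : (0 : ℝ) < 1 / m := by positivity
  set μ : ℝ := 1 / m with hμ
  have hm16 : 16 * (B + 1) * μ ≤ ε := by rw [hμ, mul_one_div]; exact hmε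
  have hμm : μ * m = 1 := by rw [hμ]; field_simp
  have hB0 : 0 ≤ B := hβ0.trans hβ
  have hμB : μ * B ≤ ε / 16 := by nlinarith
  have hμ1 : 0 ≤ μ * B := by positivity
  set F := frz β + e + 2 * (μ * B) with hF
  -- pointwise
  have hpt : ∀ k ∈ Finset.range (r + 1), Real.exp (β * Real.pi * w k) ≤
      Real.exp (β * (2 * μ) * ℓ) + ∑ i ∈ Finset.range (m + 1),
        (if ((i : ℝ) / m / Real.pi + e) * ℓ ≤ |w k| then Real.exp (β * ((i : ℝ) / m + 2 * μ) * ℓ) else 0) := by
    intro k hk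
    have hk' : k ≤ r := by rw [Finset.mem_range] at hk; omega
    have h1 := h.1 k hk'
    rw [← hℓ] at h1
    have hle : β * Real.pi * w k ≤ β * (Real.pi * |w k|) := by
      have : w k ≤ |w k| := le_abs_self _
      rw [mul_assoc]
      gcongr
    have hnn : ∀ i ∈ Finset.range (m + 1), (0 : ℝ) ≤ (if ((i : ℝ) / m / Real.pi + e) * ℓ ≤ |w k| then
        Real.exp (β * ((i : ℝ) / m + 2 * μ) * ℓ) else 0) := by
      intro i _
      split_ifs <;> positivity
    have hpe : Real.pi * (1 / Real.pi + e) = 1 + Real.pi * e := by field_simp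
    rcases lt_or_ge (Real.pi * |w k|) (Real.pi * e * ℓ) with h2 | h2
    · have h3 : Real.exp (β * Real.pi * w k) ≤ Real.exp (β * (2 * μ) * ℓ) := by
        apply Real.exp_le_exp.2
        refine hle.trans ?_
        rw [mul_assoc]
        apply mul_le_mul_of_nonneg_left _ hβ0
        have : Real.pi * e * ℓ ≤ 2 * μ * ℓ := mul_le_mul_of_nonneg_right (by linarith) hl.le
        linarith
      have := Finset.sum_nonneg hnn
      linarith
    · set x := Real.pi * |w k| / ℓ - Real.pi * e with hx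
      have hx0 : 0 ≤ x := by
        rw [hx, sub_nonneg, le_div_iff₀ hl]
        exact h2
      have hx1 : x ≤ 1 := by
        rw [hx, sub_le_iff_le_add, div_le_iff₀ hl, ← hpe, mul_assoc]
        exact mul_le_mul_of_nonneg_left h1 hpi.le
      have hxl : (x + Real.pi * e) * ℓ = Real.pi * |w k| := by
        rw [hx]; field_simp; ring
      have hf0 : 0 ≤ x * m := by positivity
      have hf1 : (⌊x * m⌋₊ : ℝ) ≤ x * m := Nat.floor_le hf0
      have hf2 : x * m < ⌊x * m⌋₊ + 1 := Nat.lt_floor_add_one _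
      set i := ⌊x * m⌋₊ with hi
      have him : i ≤ m := by
        have : (i : ℝ) ≤ m := by nlinarith
        exact_mod_cast this
      have e1 : (i : ℝ) / m ≤ x := by
        rw [div_le_iff₀ hm']; exact hf1
      have e2 : x ≤ (i : ℝ) / m + μ := by
        rw [hμ, ← add_div, le_div_iff₀ hm']; exact hf2.le
      have hc : ((i : ℝ) / m / Real.pi + e) * ℓ ≤ |w k| := by
        have h3 : Real.pi * (((i : ℝ) / m / Real.pi + e) * ℓ) ≤ Real.pi * |w k| := by
          rw [← hxl]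
          have : Real.pi * (((i : ℝ) / m / Real.pi + e) * ℓ) = ((i : ℝ) / m + Real.pi * e) * ℓ := by
            field_simp
          rw [this]
          exact mul_le_mul_of_nonneg_right (by linarith) hl.le
        exact le_of_mul_le_mul_left h3 hpi
      have h4 := Finset.single_le_sum hnn (Finset.mem_range.2 (by omega : i < m + 1))
      rw [if_pos hc] at h4
      have h5 : Real.exp (β * Real.pi * w k) ≤ Real.exp (β * ((i : ℝ) / m + 2 * μ) * ℓ) := by
        apply Real.exp_le_exp.2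
        refine hle.trans ?_
        rw [mul_assoc, ← hxl]
        apply mul_le_mul_of_nonneg_left _ hβ0
        exact mul_le_mul_of_nonneg_right (by linarith) hl.le
      have h6 := Real.exp_pos (β * (2 * μ) * ℓ)
      linarith
  have hsum : ∑ k ∈ Finset.range (r + 1), Real.exp (β * Real.pi * w k) ≤
      (m + 2) * Real.exp (F * ℓ) := by
    refine (Finset.sum_le_sum hpt).trans ?_
    rw [Finset.sum_add_distrib, Finset.sum_comm, Finset.sum_const, Finset.card_range, nsmul_eq_mul]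
    have h1 : ((r + 1 : ℕ) : ℝ) * Real.exp (β * (2 * μ) * ℓ) ≤ Real.exp (F * ℓ) := by
      push_cast
      refine (mul_le_mul_of_nonneg_right hr (Real.exp_pos _).le).trans ?_
      rw [← Real.exp_add]
      apply Real.exp_le_exp.2
      rw [← add_mul]
      apply mul_le_mul_of_nonneg_right _ hl.le
      have h2 := frz_ge hβ0 (y := 0) zero_le_one
      have h3 : β * μ ≤ B * μ := by gcongr
      rw [hF]
      nlinarith
    have h2 : ∀ i ∈ Finset.range (m + 1), ∑ k ∈ Finset.range (r + 1),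
        (if ((i : ℝ) / m / Real.pi + e) * ℓ ≤ |w k| then Real.exp (β * ((i : ℝ) / m + 2 * μ) * ℓ) else 0) ≤
        Real.exp (F * ℓ) := by
      intro i hi
      have him : i ≤ m := by rw [Finset.mem_range] at hi; omega
      obtain ⟨b1, -, -⟩ := h.2 _ (mem_net him)
      have hy1 : (i : ℝ) / m ≤ 1 := by
        rw [div_le_one hm']; exact_mod_cast him
      rw [← hℓ] at b1
      rw [← Finset.sum_filter, Finset.sum_const, nsmul_eq_mul]
      refine (mul_le_mul_of_nonneg_right b1 (Real.exp_pos _).le).trans ?_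
      rw [← Real.exp_add]
      apply Real.exp_le_exp.2
      rw [← add_mul]
      apply mul_le_mul_of_nonneg_right _ hl.le
      have h2 := frz_ge hβ0 hy1
      have h3 : β * μ ≤ B * μ := by gcongr
      rw [hF]
      nlinarith
    have h3 := Finset.sum_le_sum h2
    rw [Finset.sum_const, Finset.card_range, nsmul_eq_mul] at h3
    push_cast at h1 h3 ⊢
    linarith
  have hpos : 0 < ∑ k ∈ Finset.range (r + 1), Real.exp (β * Real.pi * w k) :=
    Finset.sum_pos (fun _ _ => Real.exp_pos _) ⟨0, by simp⟩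
  refine (Real.log_le_log hpos hsum).trans ?_
  rw [Real.log_mul (by positivity) (Real.exp_pos _).ne', Real.log_exp]
  have h1 : F ≤ frz β + ε / 2 := by rw [hF]; linarith
  have h2 : F * ℓ ≤ (frz β + ε / 2) * ℓ := mul_le_mul_of_nonneg_right h1 hl.le
  have h3 : (frz β + ε) * ℓ = (frz β + ε / 2) * ℓ + ε / 2 * ℓ := by ring
  linarith

/-- the lower bound for the exponential sum -/
lemma frz_low {m : ℕ} {e ε ℓ B : ℝ} {r : ℕ} {w : ℕ → ℝ} (hm : 0 < m) (hl : 0 < ℓ) (he0 : 0 < e)
    (heπ : Real.pi * e ≤ 1 / m) (hmε : 16 * (B + 1) / m ≤ ε) (heε : e ≤ ε / 16)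
    (hℓ : ℓ = Real.log r)
    (h : FW e (net m) r w) {β : ℝ} (hβ0 : 0 ≤ β) (hβ : β ≤ B) :
    (frz β - ε) * ℓ ≤ Real.log (∑ k ∈ Finset.range (r + 1), Real.exp (β * Real.pi * w k)) := by
  classical
  have hpi := Real.pi_pos
  have hm' : (0 : ℝ) < m := by exact_mod_cast hm
  have hmi : (0 : ℝ) < 1 / m := by positivity
  set μ : ℝ := 1 / m with hμ
  have hm16 : 16 * (B + 1) * μ ≤ ε := by rw [hμ, mul_one_div]; exact hmε
  have hμm : μ * m = 1 := by rw [hμ]; field_simp
  have hB0 : 0 ≤ B := hβ0.trans hβ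
  have hμB : B * μ ≤ ε / 16 := by nlinarith
  set z := min (β / 2) 1 with hz
  have hz0 : 0 ≤ z := le_min (by linarith) zero_le_one
  have hz1 : z ≤ 1 := min_le_right _ _
  have hf0 : 0 ≤ z * m := by positivity
  have hf1 : (⌊z * m⌋₊ : ℝ) ≤ z * m := Nat.floor_le hf0
  have hf2 : z * m < ⌊z * m⌋₊ + 1 := Nat.lt_floor_add_one _
  set i := ⌊z * m⌋₊ with hi
  have him : i ≤ m := by
    have : (i : ℝ) ≤ m := by nlinarith
    exact_mod_cast this
  have e1 : (i : ℝ) / m ≤ z := by
    rw [div_le_iff₀ hm']; exact hf1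
  have e2 : z ≤ (i : ℝ) / m + μ := by
    rw [hμ, ← add_div, le_div_iff₀ hm']; exact hf2.le
  obtain ⟨-, b2, -⟩ := h.2 _ (mem_net him)
  rw [← hℓ] at b2
  set y := (i : ℝ) / m with hy
  have hy0 : 0 ≤ y := by positivity
  have hsum : Real.exp ((frz β - ε) * ℓ) ≤
      ∑ k ∈ Finset.range (r + 1), Real.exp (β * Real.pi * w k) := by
    calc Real.exp ((frz β - ε) * ℓ) ≤ Real.exp ((1 - y ^ 2 - e) * ℓ) *
          Real.exp (β * (y - Real.pi * e) * ℓ) := by
          rw [← Real.exp_add]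
          apply Real.exp_le_exp.2
          rw [← add_mul]
          apply mul_le_mul_of_nonneg_right _ hl.le
          rw [frz_eq hβ0, ← hz]
          have a1 : y ^ 2 ≤ z ^ 2 := by gcongr
          have a2 : β * (z - y) ≤ B * μ := by
            have : z - y ≤ μ := by linarith
            have : 0 ≤ z - y := by linarith
            gcongr
          have a3 : β * (Real.pi * e) ≤ B * μ := by gcongr
          nlinarith
      _ ≤ (((Finset.range (r + 1)).filter fun k => (y / Real.pi - e) * ℓ ≤ w k).card : ℝ) *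
          Real.exp (β * (y - Real.pi * e) * ℓ) :=
          mul_le_mul_of_nonneg_right b2 (Real.exp_pos _).le
      _ = ∑ k ∈ (Finset.range (r + 1)).filter fun k => (y / Real.pi - e) * ℓ ≤ w k,
          Real.exp (β * (y - Real.pi * e) * ℓ) := by rw [Finset.sum_const, nsmul_eq_mul]
      _ ≤ ∑ k ∈ (Finset.range (r + 1)).filter fun k => (y / Real.pi - e) * ℓ ≤ w k,
          Real.exp (β * Real.pi * w k) := by
          apply Finset.sum_le_sum
          intro k hk
          rw [Finset.mem_filter] at hk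
          apply Real.exp_le_exp.2
          have h1 : Real.pi * ((y / Real.pi - e) * ℓ) ≤ Real.pi * w k :=
            mul_le_mul_of_nonneg_left hk.2 hpi.le
          have h2 : Real.pi * ((y / Real.pi - e) * ℓ) = (y - Real.pi * e) * ℓ := by field_simp
          rw [h2] at h1
          rw [mul_assoc, mul_assoc]
          exact mul_le_mul_of_nonneg_left h1 hβ0
      _ ≤ _ := Finset.sum_le_sum_of_subset_of_nonneg (Finset.filter_subset _ _)
          (fun _ _ _ => (Real.exp_pos _).le)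
  have h2 := Real.log_le_log (Real.exp_pos _) hsum
  rwa [Real.log_exp] at h2

end Pool.Agent.H478.HP
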