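import Pool.Agent.H478.HP6

/-! High points: the final theorem. -/

open Finset MeasureTheory Filter Topology

namespace Pool.Agent.H478.HP

open Pool.Agent.H478.EX

lemma GW_mono {e ε B : ℝ} (h : e ≤ ε) {r : ℕ} {w : ℕ → ℝ}
    (hF : GW e B r w) : GW ε B r w := by
  classical
  obtain ⟨a1, a2, a3, a4⟩ := hF
  refine ⟨fun k hk => (a1 k hk).trans ?_, fun y h0 h1 => (a2 y h0 h1).trans ?_,
    fun y h0 h1 => ?_, fun β hβ => (a4 β hβ).trans ?_⟩
  · gcongr
  · gcongr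
  · obtain ⟨b1, b2⟩ := a3 y h0 (by linarith)
    have h2 : Real.exp ((1 - y ^ 2 - ε) * Real.log r) ≤ Real.exp ((1 - y ^ 2 - e) * Real.log r) := by
      gcongr
    exact ⟨h2.trans b1, h2.trans b2⟩
  · gcongr

lemma det {ε B : ℝ} (hε : 0 < ε) (hε1 : ε ≤ 1) (hB : 0 ≤ B) : ∃ m : ℕ, ∃ e : ℝ, 0 < m ∧ 0 < e ∧
    ∀ᶠ r : ℕ in atTop, ∀ w : ℕ → ℝ, FW e (net m) r w → GW ε B r w := by
  classical
  have hpi := Real.pi_pos
  have hpi4 := Real.pi_le_four
  obtain ⟨m, hm⟩ := exists_nat_gt (16 * (B + 1) / ε)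
  have hm' : (0 : ℝ) < m := lt_of_le_of_lt (by positivity) hm
  have hm0 : 0 < m := by exact_mod_cast hm'
  have hmε : 16 * (B + 1) / m ≤ ε := by
    rw [div_le_iff₀ hm']
    rw [div_lt_iff₀ hε] at hm
    linarith
  have hmε' : 16 / (m : ℝ) ≤ ε := by
    refine le_trans ?_ hmε
    gcongr
    linarith
  set e : ℝ := 1 / (4 * m) with he
  have he0 : 0 < e := by positivity
  have heπ : Real.pi * e ≤ 1 / m := by
    rw [he, mul_one_div, div_le_div_iff₀ (by positivity) hm']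
    nlinarith
  have heε : e ≤ ε / 16 := by
    have h1 : e = 16 / (m : ℝ) / 64 := by rw [he]; field_simp; norm_num
    rw [h1]
    linarith
  refine ⟨m, e, hm0, he0, ?_⟩
  filter_upwards [nlog.eventually_ge_atTop (max 1 (max (2 / e) (2 * Real.log (m + 2) / ε))),
    eventually_ge_atTop 1] with r hl hr1 w hw
  have hl1 : 1 ≤ Real.log r := (le_max_left _ _).trans hl
  have hl2 : 2 / e ≤ Real.log r := (le_max_left _ _).trans ((le_max_right _ _).trans hl)
  have hl3 : 2 * Real.log (m + 2) / ε ≤ Real.log r := (le_max_right _ _).trans ((le_max_right _ _).trans hl)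
  have hl0 : 0 < Real.log r := by linarith
  have hr0 : (0 : ℝ) < r := by exact_mod_cast hr1
  rw [div_le_iff₀ he0] at hl2
  rw [div_le_iff₀ hε] at hl3
  have hrr : (r : ℝ) + 1 ≤ Real.exp ((1 + e) * Real.log r) := by
    have h1 : (1 + e) * Real.log r = Real.log r + Real.log r * e := by ring
    rw [h1, Real.exp_add, Real.exp_log hr0]
    have h2 : (2 : ℝ) ≤ Real.exp (Real.log r * e) := by
      have := Real.add_one_le_exp (Real.log r * e)
      linarith
    have h3 : (1 : ℝ) ≤ r := by exact_mod_cast hr1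
    nlinarith
  have hrr' : (r : ℝ) + 1 ≤ Real.exp ((1 + ε / 2) * Real.log r) := by
    refine hrr.trans (Real.exp_le_exp.2 (mul_le_mul_of_nonneg_right ?_ hl0.le))
    linarith
  have hr2 : Real.log (m + 2) ≤ ε / 2 * Real.log r := by linarith
  refine ⟨fun k hk => (hw.1 k hk).trans ?_, fun y h0 h1 => ?_, fun y h0 h1 => ⟨?_, ?_⟩,
    fun β hβ => ?_⟩
  · have : e ≤ ε := by linarith
    gcongr
  · exact up_level hm0 hl0 he0 heπ hmε' heε hε1 rfl hrr' hw h0 h1
  · exact low_level hm0 hl0 he0 heπ hmε' heε hε1 rfl hw h0 h1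
  · have h2 := low_level hm0 hl0 he0 heπ hmε' heε hε1 rfl (FW_neg hw) h0 h1
    have e1 : ∀ k, (y / Real.pi * Real.log r ≤ - w k) =
        (w k ≤ -(y / Real.pi * Real.log r)) := fun k => propext le_neg
    simp only [e1] at h2
    exact h2
  · rcases le_total 0 β with h2 | h2
    · rw [abs_of_nonneg h2] at hβ
      have h3 := frz_up hm0 hl0 he0 heπ hmε heε rfl hrr hr2 hw h2 hβ
      have h4 := frz_low hm0 hl0 he0 heπ hmε heε rfl hw h2 hβ
      rw [abs_le]
      constructor <;> linarith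
    · rw [abs_of_nonpos h2] at hβ
      have h3 := frz_up hm0 hl0 he0 heπ hmε heε rfl hrr hr2 (FW_neg hw) (neg_nonneg.2 h2) hβ
      have h4 := frz_low hm0 hl0 he0 heπ hmε heε rfl (FW_neg hw) (neg_nonneg.2 h2) hβ
      have e1 : ∀ k, -β * Real.pi * (- w k) = β * Real.pi * w k := fun k => by ring
      simp only [e1, frz_neg] at h3 h4
      rw [abs_le]
      constructor <;> linarith

/-- **the high points and the free energy of the partial sums, for most indices** -/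
theorem all_levels (RH : RiemannHypothesis) {ε B : ℝ} (hε : 0 < ε) (hB : 0 ≤ B) :
    ∀ᶠ r : ℕ in atTop, ∀ᶠ N : ℕ in atTop,
      (({n : ℕ | 1 ≤ n ∧ n ≤ N ∧ ¬ GW ε B r (Wn n)}.ncard : ℕ) : ℝ) ≤ ε * N := by
  classical
  set ε0 := min ε 1 with hε0
  have h0 : 0 < ε0 := lt_min hε one_pos
  obtain ⟨m, e, hm, he, hdet⟩ := det h0 (min_le_right _ _) hB
  set e' := min e ε with he'
  have he'0 : 0 < e' := lt_min he hε
  filter_upwards [high RH he'0 (net m) (net_unit hm), hdet] with r h1 h2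
  filter_upwards [h1] with N h4
  have hsub : {n : ℕ | 1 ≤ n ∧ n ≤ N ∧ ¬ GW ε B r (Wn n)} ⊆
      {n : ℕ | 1 ≤ n ∧ n ≤ N ∧ ¬ FH e' (net m) r n} := by
    rintro n ⟨a, b, c⟩
    refine ⟨a, b, fun hF => c ?_⟩
    exact GW_mono (min_le_left _ _) (h2 (Wn n) (FH_mono (min_le_left _ _) hF))
  have hfin : {n : ℕ | 1 ≤ n ∧ n ≤ N ∧ ¬ FH e' (net m) r n}.Finite :=
    (Set.finite_Icc 1 N).subset fun n hn => ⟨hn.1, hn.2.1⟩
  have h5 : (({n : ℕ | 1 ≤ n ∧ n ≤ N ∧ ¬ GW ε B r (Wn n)}.ncard : ℕ) : ℝ) ≤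
      (({n : ℕ | 1 ≤ n ∧ n ≤ N ∧ ¬ FH e' (net m) r n}.ncard : ℕ) : ℝ) := by
    exact_mod_cast Set.ncard_le_ncard hsub hfin
  have h6 : e' * (N : ℝ) ≤ ε * N := mul_le_mul_of_nonneg_right (min_le_right _ _) (Nat.cast_nonneg _)
  linarith

end Pool.Agent.H478.HP
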