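import Pool.Agent.H478.EX18

/-! Large deviations: the weight of Gaussian shape for one statistic. -/

open Finset Complex MeasureTheory Filter Topology ProbabilityTheory

namespace Pool.Agent.H478.LD

open Pool.Agent.H478.CW
open Pool.Agent.H478.EX
open Pool.Agent.R321.FA
open SP (ZZ mu Mk RHs)

/-- **the average of the weight** for one statistic -/
theorem one_lim (hRH : RHs) {l : List Ent} {μ : ℝ} (hl : Good l μ) (hμ : 0 < μ) (a : ℝ) (k : ℕ)
    (hk : 2 * k * μ < 1) {R : ℝ} (hR : 0 ≤ R) {η : ℝ} (hη : 0 < η) : ∀ᶠ T : ℝ in atTop,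
    |1 / T * (∫ t in Va T..Vb T, wt1 a (stt l μ T t)) - P1 a (kv l)| ≤
      2 * ((kv l / 2 * R) ^ k / k.factorial) + 4 * Real.exp (-(R / 4)) + η := by
  have hV0 := kv_nonneg l
  have hQc : Continuous fun ω : ℝ => kv (scl ω l) := by
    simp only [kv_scl]
    fun_prop
  have hmain := avg_lim hRH gam (fun ω : ℝ => scl ω l) (fun ω : ℝ => cexp (((-(a * ω) : ℝ) : ℂ) * I))
    hμ (fun ω => hl.scl ω) (by fun_prop) (fun ω => by rw [Complex.norm_exp_ofReal_mul_I])
    hQc (by
      intro T hT
      simp only [stt_scl]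
      have h1 : Continuous fun p : ℝ × ℝ => stt l μ T p.2 := (stt_cont hl hT).comp continuous_snd
      exact continuous_fst.mul h1) k hk hη
  filter_upwards [hmain, eventually_ge_atTop 1] with T hT hT1
  have e1 : (∫ t in Va T..Vb T, ∫ ω : ℝ, cexp (((-(a * ω) : ℝ) : ℂ) * I) *
      cexp (((stt (scl ω l) μ T t : ℝ) : ℂ) * I) ∂gam) =
      ((∫ t in Va T..Vb T, wt1 a (stt l μ T t) : ℝ) : ℂ) := by
    rw [← intervalIntegral.integral_ofReal]
    congr 1
    funext t
    have h1 := rep1 (stt l μ T t - a)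
    unfold wt1
    rw [← h1]
    congr 1
    funext ω
    rw [← Complex.exp_add, stt_scl]
    congr 1
    push_cast
    ring
  have e2 : ∫ ω : ℝ, cexp (((-(a * ω) : ℝ) : ℂ) * I) * cexp (-((kv (scl ω l) : ℝ) : ℂ) / 2) ∂gam =
      ((P1 a (kv l) : ℝ) : ℂ) := by
    have e3 : (fun ω : ℝ => cexp (((-(a * ω) : ℝ) : ℂ) * I) * cexp (-((kv (scl ω l) : ℝ) : ℂ) / 2)) =
        fun ω : ℝ => cexp (-((kv l : ℝ) : ℂ) / 2 * (ω : ℂ) ^ 2 + (-(a * I)) * ω) := by
      funext ω
      rw [← Complex.exp_add, kv_scl]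
      congr 1
      push_cast
      ring
    rw [e3, gint (by linarith)]
    unfold P1
    rw [Complex.ofReal_mul]
    congr 1
    rw [Complex.ofReal_exp]
    congr 1
    rw [neg_sq, mul_pow, Complex.I_sq]
    push_cast
    ring
  rw [e1, e2, ← Complex.ofReal_mul, ← Complex.ofReal_sub, Complex.norm_real,
    Real.norm_eq_abs] at hT
  refine hT.trans ?_
  obtain ⟨hi, hv⟩ := exp_quarter
  have hmin : ∫ ω : ℝ, min 2 (2 * ((kv (scl ω l) / 2) ^ k / k.factorial)) ∂gam ≤
      2 * ((kv l / 2 * R) ^ k / k.factorial) + 4 * Real.exp (-(R / 4)) := by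
    have i1 : Integrable (fun ω : ℝ => 2 * ((kv l / 2 * R) ^ k / k.factorial) +
        2 * Real.exp (-(R / 4)) * Real.exp (ω ^ 2 / 4)) gam :=
      (integrable_const _).add (hi.const_mul _)
    calc ∫ ω : ℝ, min 2 (2 * ((kv (scl ω l) / 2) ^ k / k.factorial)) ∂gam ≤
        ∫ ω : ℝ, (2 * ((kv l / 2 * R) ^ k / k.factorial) +
          2 * Real.exp (-(R / 4)) * Real.exp (ω ^ 2 / 4)) ∂gam := by
          apply integral_mono _ i1
          · intro ω
            show min 2 (2 * ((kv (scl ω l) / 2) ^ k / k.factorial)) ≤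
              2 * ((kv l / 2 * R) ^ k / k.factorial) + 2 * Real.exp (-(R / 4)) * Real.exp (ω ^ 2 / 4)
            rw [kv_scl]
            rcases le_or_gt (ω ^ 2) R with h | h
            · have h1 : ω ^ 2 * kv l / 2 ≤ kv l / 2 * R := by
                have : ω ^ 2 * kv l / 2 = kv l / 2 * ω ^ 2 := by ring
                rw [this]
                gcongr
              have h2 : 2 * ((ω ^ 2 * kv l / 2) ^ k / k.factorial) ≤
                  2 * ((kv l / 2 * R) ^ k / k.factorial) := by gcongr
              have h3 : 0 ≤ 2 * Real.exp (-(R / 4)) * Real.exp (ω ^ 2 / 4) := by positivity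
              exact (min_le_right _ _).trans (by linarith)
            · have h1 : 2 ≤ 2 * Real.exp (-(R / 4)) * Real.exp (ω ^ 2 / 4) := by
                rw [mul_assoc, ← Real.exp_add]
                have : 1 ≤ Real.exp (-(R / 4) + ω ^ 2 / 4) := by
                  exact Real.one_le_exp (by linarith)
                linarith
              have h3 : 0 ≤ 2 * ((kv l / 2 * R) ^ k / k.factorial) := by positivity
              exact (min_le_left _ _).trans (by linarith)
          · refine Integrable.of_bound (C := 2) ?_ (Eventually.of_forall fun ω => ?_)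
            · apply Continuous.aestronglyMeasurable
              fun_prop
            · have hk0 : 0 ≤ kv (scl ω l) := kv_nonneg _
              rw [Real.norm_of_nonneg (by positivity)]
              exact min_le_left _ _
      _ = 2 * ((kv l / 2 * R) ^ k / k.factorial) + 2 * Real.exp (-(R / 4)) * Real.sqrt 2 := by
          rw [integral_add (integrable_const _) (hi.const_mul _), integral_const,
            integral_const_mul (2 * Real.exp (-(R / 4))) (fun ω : ℝ => Real.exp (ω ^ 2 / 4)), hv]
          simp only [probReal_univ, one_smul]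
      _ ≤ _ := by
          have h2 : Real.sqrt 2 ≤ 2 := by
            rw [Real.sqrt_le_left (by norm_num)]; norm_num
          have h3 : 0 < Real.exp (-(R / 4)) := Real.exp_pos _
          nlinarith
  linarith

/-! ### large sets -/

/-- `P` holds on a set of proportion at least `q` -/
def Lg (P : ℝ → ℝ → Prop) (q : ℝ) : Prop :=
  ∀ᶠ T : ℝ in atTop, ENNReal.ofReal (q * T) ≤ volume {t : ℝ | Va T ≤ t ∧ t ≤ Vb T ∧ P T t}

lemma Lg.mono {P Q : ℝ → ℝ → Prop} {q : ℝ} (h : Lg P q)
    (hPQ : ∀ᶠ T : ℝ in atTop, ∀ t, Va T ≤ t → t ≤ Vb T → P T t → Q T t) : Lg Q q := by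
  unfold Lg at *
  filter_upwards [h, hPQ] with T h1 h2
  refine h1.trans (measure_mono ?_)
  rintro t ⟨a, b, c⟩
  exact ⟨a, b, h2 t a b c⟩

lemma Lg.weaken {P : ℝ → ℝ → Prop} {q q' : ℝ} (h : Lg P q) (hq : q' ≤ q) : Lg P q' := by
  unfold Lg at *
  filter_upwards [h, eventually_ge_atTop 0] with T h1 h2
  refine le_trans (ENNReal.ofReal_le_ofReal ?_) h1
  gcongr

lemma Lg.and {P Q : ℝ → ℝ → Prop} {q q' : ℝ} (h : Lg P q) (h' : Sm Q q') (hq' : 0 ≤ q') :
    Lg (fun T t => P T t ∧ Q T t) (q - q') := by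
  unfold Lg at *
  unfold Sm at h'
  filter_upwards [h, h', eventually_ge_atTop 0] with T h1 h2 h3
  have hsub : {t : ℝ | Va T ≤ t ∧ t ≤ Vb T ∧ P T t} ⊆
      {t : ℝ | Va T ≤ t ∧ t ≤ Vb T ∧ (P T t ∧ Q T t)} ∪
        {t : ℝ | Va T ≤ t ∧ t ≤ Vb T ∧ ¬ Q T t} := by
    rintro t ⟨a, b, c⟩
    by_cases hQ : Q T t
    · exact Or.inl ⟨a, b, c, hQ⟩
    · exact Or.inr ⟨a, b, hQ⟩
  have h4 : ENNReal.ofReal (q * T) ≤ volume {t : ℝ | Va T ≤ t ∧ t ≤ Vb T ∧ (P T t ∧ Q T t)} +
      ENNReal.ofReal (q' * T) :=
    (h1.trans (measure_mono hsub)).trans ((measure_union_le _ _).trans (by gcongr))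
  rw [sub_mul, ENNReal.ofReal_sub _ (by positivity)]
  exact tsub_le_iff_right.2 h4

/-- from the average of the weight to the size of the set -/
lemma lg_of_avg (hRH : RHs) {l : List Ent} {μ : ℝ} (hl : Good l μ) (hμ : 0 < μ) (a : ℝ) (k : ℕ)
    (hk : 2 * k * μ < 1) {R : ℝ} (hR : 0 ≤ R) {w q : ℝ} (hw : 0 ≤ w)
    (hq : q + Real.exp (-(w ^ 2 / 2)) + 2 * ((kv l / 2 * R) ^ k / k.factorial) +
      4 * Real.exp (-(R / 4)) < P1 a (kv l)) :
    Lg (fun T t => |stt l μ T t - a| ≤ w) q := by
  obtain ⟨η, hη, hqη⟩ : ∃ η : ℝ, 0 < η ∧ q + Real.exp (-(w ^ 2 / 2)) +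
      2 * ((kv l / 2 * R) ^ k / k.factorial) + 4 * Real.exp (-(R / 4)) + η ≤ P1 a (kv l) :=
    ⟨P1 a (kv l) - (q + Real.exp (-(w ^ 2 / 2)) + 2 * ((kv l / 2 * R) ^ k / k.factorial) +
      4 * Real.exp (-(R / 4))), by linarith, by linarith⟩
  unfold Lg
  filter_upwards [one_lim hRH hl hμ a k hk hR hη, V_ord, eventually_ge_atTop 1] with T h1 h2 h3
  obtain ⟨h10, hV, hVT⟩ := h2
  have hT0 : 0 < T := by linarith
  set S := {t : ℝ | |stt l μ T t - a| ≤ w} with hS
  have hc := stt_cont hl h3
  have hSm : MeasurableSet S := (isClosed_le (hc.sub continuous_const).abs continuous_const).measurableSet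
  have hset : {t : ℝ | Va T ≤ t ∧ t ≤ Vb T ∧ |stt l μ T t - a| ≤ w} = S ∩ Set.Icc (Va T) (Vb T) := by
    ext t
    simp only [hS, Set.mem_ofPred_eq, Set.mem_inter_iff, Set.mem_Icc]
    tauto
  rw [hset]
  have h4 := (abs_le.1 h1).1
  have hup : ∫ t in Va T..Vb T, wt1 a (stt l μ T t) ≤
      (volume (S ∩ Set.Icc (Va T) (Vb T))).toReal + Real.exp (-(w ^ 2 / 2)) * T := by
    have hfin : volume (S ∩ Set.Icc (Va T) (Vb T)) ≠ ⊤ :=
      ne_top_of_le_ne_top (by simp) (measure_mono Set.inter_subset_right)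
    have i1 : IntervalIntegrable (fun t => wt1 a (stt l μ T t)) volume (Va T) (Vb T) := by
      apply Continuous.intervalIntegrable
      unfold wt1
      fun_prop
    have i2 : IntervalIntegrable (fun t => S.indicator (fun _ => (1 : ℝ)) t) volume (Va T) (Vb T) := by
      refine (intervalIntegrable_const (c := (1 : ℝ))).mono_fun
        (measurable_const.indicator hSm).aestronglyMeasurable ?_
      refine Eventually.of_forall fun t => ?_
      show ‖S.indicator (fun _ => (1 : ℝ)) t‖ ≤ ‖(1 : ℝ)‖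
      rw [Real.norm_of_nonneg (Set.indicator_nonneg (fun _ _ => zero_le_one) t), norm_one]
      unfold Set.indicator
      split_ifs <;> norm_num
    calc ∫ t in Va T..Vb T, wt1 a (stt l μ T t) ≤
        ∫ t in Va T..Vb T, (S.indicator (fun _ => (1 : ℝ)) t + Real.exp (-(w ^ 2 / 2))) := by
          apply intervalIntegral.integral_mono_on hV i1 (i2.add intervalIntegrable_const)
          intro t _
          by_cases ht : t ∈ S
          · rw [Set.indicator_of_mem ht]
            have := wt1_le a (stt l μ T t)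
            have := Real.exp_pos (-(w ^ 2 / 2))
            linarith
          · rw [Set.indicator_of_notMem ht, zero_add]
            unfold wt1
            apply Real.exp_le_exp.2
            have hlt : w < |stt l μ T t - a| := by
              by_contra hcon
              push Not at hcon
              exact ht hcon
            have : w ^ 2 ≤ (stt l μ T t - a) ^ 2 := by
              rw [← sq_abs (stt l μ T t - a)]
              exact pow_le_pow_left₀ hw hlt.le 2
            linarith
      _ = (∫ t in Va T..Vb T, S.indicator (fun _ => (1 : ℝ)) t) +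
          Real.exp (-(w ^ 2 / 2)) * (Vb T - Va T) := by
          rw [intervalIntegral.integral_add i2 intervalIntegrable_const,
            intervalIntegral.integral_const, smul_eq_mul]
          ring
      _ ≤ _ := by
          have h5 : ∫ t in Va T..Vb T, S.indicator (fun _ => (1 : ℝ)) t ≤
              (volume (S ∩ Set.Icc (Va T) (Vb T))).toReal := by
            rw [intervalIntegral.integral_of_le hV, integral_indicator hSm, setIntegral_const,
              smul_eq_mul, mul_one, measureReal_restrict_apply hSm]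
            unfold Measure.real
            apply ENNReal.toReal_mono hfin
            apply measure_mono
            exact Set.inter_subset_inter_right _ Set.Ioc_subset_Icc_self
          have h6 : Real.exp (-(w ^ 2 / 2)) * (Vb T - Va T) ≤ Real.exp (-(w ^ 2 / 2)) * T := by
            gcongr
          linarith
  have h7 : q * T ≤ (volume (S ∩ Set.Icc (Va T) (Vb T))).toReal := by
    have h8 : (P1 a (kv l) - (2 * ((kv l / 2 * R) ^ k / k.factorial) + 4 * Real.exp (-(R / 4)) + η)) *
        T ≤ ∫ t in Va T..Vb T, wt1 a (stt l μ T t) := by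
      have h9 : P1 a (kv l) - (2 * ((kv l / 2 * R) ^ k / k.factorial) + 4 * Real.exp (-(R / 4)) + η) ≤
          1 / T * ∫ t in Va T..Vb T, wt1 a (stt l μ T t) := by linarith
      rwa [one_div, inv_mul_eq_div, le_div_iff₀ hT0] at h9
    have h9 : (q + Real.exp (-(w ^ 2 / 2))) * T ≤ (P1 a (kv l) -
        (2 * ((kv l / 2 * R) ^ k / k.factorial) + 4 * Real.exp (-(R / 4)) + η)) * T := by
      gcongr
      linarith
    linarith
  exact ENNReal.ofReal_le_of_le_toReal h7

end Pool.Agent.H478.LD
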