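import Pool.Agent.H478.LD9

/-! Uniformity in the deviation, and other normalisations of the gaps. -/

open Finset Complex MeasureTheory Filter Topology ProbabilityTheory

namespace Pool.Agent.H478.LD

open Pool.Agent.H478.CW
open Pool.Agent.H478.EX
open Pool.Agent.R321.FA
open SP (ZZ mu Mk RHs)
open SG (ord NZ zmult ZS)
open Pool.Agent.TH800.LD (ZZf)
open TH800.MS (dlt)

/-- the number of `n ≤ N` with the property `Q` -/
noncomputable def cnt (Q : ℕ → Prop) (N : ℕ) : ℝ := (({n : ℕ | 1 ≤ n ∧ n ≤ N ∧ Q n}.ncard : ℕ) : ℝ)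

lemma cnt_fin (Q : ℕ → Prop) (N : ℕ) : {n : ℕ | 1 ≤ n ∧ n ≤ N ∧ Q n}.Finite :=
  (Set.finite_Iic N).subset fun _ h => h.2.1

lemma cnt_nonneg (Q : ℕ → Prop) (N : ℕ) : 0 ≤ cnt Q N := Nat.cast_nonneg _

lemma cnt_mono {Q Q' : ℕ → Prop} (h : ∀ n, Q n → Q' n) (N : ℕ) : cnt Q N ≤ cnt Q' N := by
  unfold cnt
  have h1 : {n : ℕ | 1 ≤ n ∧ n ≤ N ∧ Q n} ⊆ {n : ℕ | 1 ≤ n ∧ n ≤ N ∧ Q' n} :=
    fun n hn => ⟨hn.1, hn.2.1, h n hn.2.2⟩
  exact_mod_cast Set.ncard_le_ncard h1 (cnt_fin Q' N)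

lemma cnt_le_add {Q Q' : ℕ → Prop} {n0 : ℕ} (h : ∀ n, n0 ≤ n → Q n → Q' n) (N : ℕ) :
    cnt Q N ≤ n0 + cnt Q' N := by
  unfold cnt
  have h1 : {n : ℕ | 1 ≤ n ∧ n ≤ N ∧ Q n} ⊆ {n : ℕ | n < n0} ∪ {n : ℕ | 1 ≤ n ∧ n ≤ N ∧ Q' n} := by
    intro n hn
    rcases lt_or_ge n n0 with h2 | h2
    · exact Or.inl h2
    · exact Or.inr ⟨hn.1, hn.2.1, h n h2 hn.2.2⟩
  have h2 : {n : ℕ | n < n0} = ((Finset.range n0 : Finset ℕ) : Set ℕ) := by ext n; simp
  have h3 := (Set.ncard_le_ncard h1 ((Set.finite_lt_nat n0).union (cnt_fin Q' N))).trans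
    (Set.ncard_union_le _ _)
  rw [h2, Set.ncard_coe_finset, Finset.card_range] at h3
  exact_mod_cast h3

/-- `S` is asymptotically the sum of `r` consecutive gaps -/
def Cmp (r : ℕ) (S : ℕ → ℝ) : Prop := ∀ R : ℝ, ∀ᶠ n : ℕ in atTop,
  (S n ≤ R ∨ ∑ i ∈ Finset.range r, dlt (n + i) ≤ R) →
    |∑ i ∈ Finset.range r, dlt (n + i) - S n| ≤ 1

lemma cmp_self (r : ℕ) : Cmp r fun n => ∑ i ∈ Finset.range r, dlt (n + i) := by
  intro R
  filter_upwards with n _
  simp

/-- the two sided bounds at one deviation -/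
def Bds (ε : ℝ) (r : ℕ) (S : ℕ → ℝ) (z : ℝ) (N : ℕ) : Prop :=
  Real.exp (-((1 + ε) * Gx (Real.log r) z)) * N ≤ cnt (fun n => r + z ≤ S n) N ∧
  Real.exp (-((1 + ε) * Gx (Real.log r) z)) * N ≤ cnt (fun n => S n ≤ r - z) N ∧
  cnt (fun n => r + z ≤ S n ∨ S n ≤ r - z) N ≤ Real.exp (-((1 - ε) * Gx (Real.log r) z)) * N

/-- a constant against a multiple of `N` -/
lemma add_const {p q : ℝ} (hpq : p < q) (n0 : ℕ) : ∀ᶠ N : ℕ in atTop, (n0 : ℝ) + p * N ≤ q * N := by
  have : Tendsto (fun N : ℕ => (q - p) * (N : ℝ)) atTop atTop :=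
    tendsto_natCast_atTop_atTop.const_mul_atTop (by linarith)
  filter_upwards [this.eventually_ge_atTop (n0 : ℝ)] with N hN
  linarith

/-- **one deviation**, general normalisation -/
theorem one_dev (RH : RiemannHypothesis) {ε : ℝ} (hε : 0 < ε) (hε1 : ε ≤ 1) : ∃ K c : ℝ, 1 ≤ K ∧
    0 < c ∧ ∀ᶠ r : ℕ in atTop, ∀ S, Cmp r S → ∀ z, K * Real.sqrt (Real.log r) ≤ z →
      z ≤ c * Real.log r * Real.log (Real.log r) → ∀ᶠ N : ℕ in atTop, Bds ε r S z N := by
  obtain ⟨K1, c1, hK1, hc1, hc11, hup⟩ := idx_up RH (by linarith : 0 < ε / 4) (by linarith)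
  obtain ⟨K2, c2, hK2, hc2, hc22, hlow⟩ := idx_low RH (by linarith : 0 < ε / 4) (by linarith)
  refine ⟨2 * K1 + K2, min c1 (c2 / 2), by linarith, lt_min hc1 (by positivity), ?_⟩
  filter_upwards [hup, hlow, range_facts ((min_le_left _ _).trans hc11 : min c1 (c2 / 2) ≤ 1),
    nlog.eventually (Real.tendsto_sqrt_atTop.eventually_ge_atTop (32 / ε))] with r hup hlow hfacts hsq
  obtain ⟨hℓ1, hexp, hll0, hzr⟩ := hfacts
  intro S hS z hz1 hz2
  set ℓ := Real.log r with hℓ
  have hℓ0 : 0 < ℓ := by linarith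
  have hs0 : 0 < Real.sqrt ℓ := Real.sqrt_pos.2 hℓ0
  have hzs : Real.sqrt ℓ ≤ z := by nlinarith
  have hz32 : 32 ≤ ε * z := by
    rw [div_le_iff₀ hε] at hsq
    nlinarith
  have hz0 : 0 < z := by linarith
  have hz3 : 32 ≤ z := by nlinarith
  have hzc1 : z ≤ c1 * ℓ * Real.log ℓ := by
    refine hz2.trans ?_
    have : min c1 (c2 / 2) ≤ c1 := min_le_left _ _
    gcongr
  have hzc2 : 2 * z ≤ c2 * ℓ * Real.log ℓ := by
    have : min c1 (c2 / 2) ≤ c2 / 2 := min_le_right _ _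
    have h1 : z ≤ c2 / 2 * ℓ * Real.log ℓ := hz2.trans (by gcongr)
    linarith
  have hG := Gx_ge hℓ0 (by linarith) hz1
  have hG0 : 0 < Gx ℓ z := by nlinarith
  have u := hup (z - 1) (by nlinarith) (by linarith)
  have l := hlow (z + 1) (by nlinarith) (by linarith)
  have hup1 : Real.exp (-((1 - ε / 4) * Gx ℓ (z - 1))) < Real.exp (-((1 - ε) * Gx ℓ z)) := by
    apply Real.exp_lt_exp.2
    have e1 : Gx ℓ (z - 1) = ((z - 1) / z) ^ 2 * Gx ℓ z := by
      rw [← Gx_scale]; congr 1; field_simp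
    have e2 : 1 - ε / 8 ≤ ((z - 1) / z) ^ 2 := by
      have a1 : 1 - ε / 32 ≤ (z - 1) / z := by
        rw [le_div_iff₀ hz0]
        nlinarith
      have a2 : (1 - ε / 32) ^ 2 ≤ ((z - 1) / z) ^ 2 := pow_le_pow_left₀ (by linarith) a1 2
      nlinarith
    have e3 : 1 - ε < (1 - ε / 4) * ((z - 1) / z) ^ 2 := by nlinarith
    rw [e1]
    nlinarith
  have hlow1 : Real.exp (-((1 + ε) * Gx ℓ z)) < Real.exp (-((1 + ε / 4) * Gx ℓ (z + 1))) := by
    apply Real.exp_lt_exp.2
    have e1 : Gx ℓ (z + 1) = ((z + 1) / z) ^ 2 * Gx ℓ z := by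
      rw [← Gx_scale]; congr 1; field_simp
    have e2 : ((z + 1) / z) ^ 2 ≤ 1 + ε / 8 := by
      have a1 : (z + 1) / z ≤ 1 + ε / 32 := by
        rw [div_le_iff₀ hz0]
        nlinarith
      have a2 : ((z + 1) / z) ^ 2 ≤ (1 + ε / 32) ^ 2 := pow_le_pow_left₀ (by positivity) a1 2
      nlinarith
    have e3 : (1 + ε / 4) * ((z + 1) / z) ^ 2 < 1 + ε := by nlinarith
    rw [e1]
    nlinarith
  obtain ⟨n0, hn0⟩ := eventually_atTop.1 (hS (r + z + 1))
  filter_upwards [u, l, add_const hup1 n0, add_const hlow1 n0] with N h1 h2 h3 h4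
  have hc := cnt_nonneg
  refine ⟨?_, ?_, ?_⟩
  · have a1 := cnt_le_add (Q := fun n => r + (z + 1) ≤ ∑ i ∈ Finset.range r, dlt (n + i))
      (Q' := fun n => r + z ≤ S n) (n0 := n0) (fun n hn hQ => by
        rcases le_or_gt (S n) (r + z + 1) with h | h
        · have := (abs_le.1 (hn0 n hn (Or.inl h))).2
          linarith
        · linarith) N
    have a2 : Real.exp (-((1 + ε / 4) * Gx ℓ (z + 1))) * N ≤
      cnt (fun n => r + (z + 1) ≤ ∑ i ∈ Finset.range r, dlt (n + i)) N := h2.1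
    linarith
  · have a1 := cnt_le_add (Q := fun n => ∑ i ∈ Finset.range r, dlt (n + i) ≤ r - (z + 1))
      (Q' := fun n => S n ≤ r - z) (n0 := n0) (fun n hn hQ => by
        have := (abs_le.1 (hn0 n hn (Or.inr (by linarith)))).1
        linarith) N
    have a2 : Real.exp (-((1 + ε / 4) * Gx ℓ (z + 1))) * N ≤
      cnt (fun n => ∑ i ∈ Finset.range r, dlt (n + i) ≤ r - (z + 1)) N := h2.2
    linarith
  · have a1 := cnt_le_add (Q := fun n => r + z ≤ S n ∨ S n ≤ r - z)
      (Q' := fun n => (r + (z - 1) ≤ ∑ i ∈ Finset.range r, dlt (n + i) ∨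
        ∑ i ∈ Finset.range r, dlt (n + i) ≤ r - (z - 1))) (n0 := n0) (fun n hn hQ => by
        rcases hQ with h | h
        · left
          rcases le_or_gt (∑ i ∈ Finset.range r, dlt (n + i)) (r + z + 1) with h' | h'
          · have := (abs_le.1 (hn0 n hn (Or.inr h'))).1
            linarith
          · linarith
        · right
          have := (abs_le.1 (hn0 n hn (Or.inl (by linarith)))).2
          linarith) N
    have a2 : cnt (fun n => (r + (z - 1) ≤ ∑ i ∈ Finset.range r, dlt (n + i) ∨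
        ∑ i ∈ Finset.range r, dlt (n + i) ≤ r - (z - 1))) N ≤
        Real.exp (-((1 - ε / 4) * Gx ℓ (z - 1))) * N := h1
    linarith

/-- **moderate and large deviations**, uniformly in the deviation -/
theorem unif (RH : RiemannHypothesis) {ε : ℝ} (hε : 0 < ε) (hε1 : ε ≤ 1) : ∃ K c : ℝ, 1 ≤ K ∧
    0 < c ∧ ∀ᶠ r : ℕ in atTop, ∀ S, Cmp r S → ∀ᶠ N : ℕ in atTop,
      ∀ z, K * Real.sqrt (Real.log r) ≤ z →
      z ≤ c * Real.log r * Real.log (Real.log r) → Bds ε r S z N := by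
  obtain ⟨K, c, hK, hc, hone⟩ := one_dev RH (by linarith : 0 < ε / 4) (by linarith)
  refine ⟨K, c / 2, hK, by positivity, ?_⟩
  filter_upwards [hone, nlog.eventually_ge_atTop 1] with r hr hℓ1
  intro S hS
  set ℓ := Real.log r with hℓ
  have hℓ0 : 0 < ℓ := by linarith
  have hll0 : 0 ≤ Real.log ℓ := Real.log_nonneg hℓ1
  have hs0 : 0 < Real.sqrt ℓ := Real.sqrt_pos.2 hℓ0
  set η := ε / 8 with hη
  have hη0 : 0 < η := by positivity
  have hη1 : η ≤ 1 / 8 := by rw [hη]; linarith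
  have h1η : 1 < 1 + η := by linarith
  obtain ⟨m, hm⟩ := pow_unbounded_of_one_lt (c / 2 * ℓ * Real.log ℓ / (K * Real.sqrt ℓ)) h1η
  have hev : ∀ᶠ N : ℕ in atTop, ∀ j ∈ Finset.range (m + 1),
      K * Real.sqrt ℓ * (1 + η) ^ j ≤ c * ℓ * Real.log ℓ → Bds (ε / 4) r S (K * Real.sqrt ℓ * (1 + η) ^ j) N := by
    refine (eventually_all_finset _).2 fun j _ => ?_
    by_cases h : K * Real.sqrt ℓ * (1 + η) ^ j ≤ c * ℓ * Real.log ℓ
    · have h1 : K * Real.sqrt ℓ ≤ K * Real.sqrt ℓ * (1 + η) ^ j :=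
        le_mul_of_one_le_right (by positivity) (one_le_pow₀ h1η.le)
      filter_upwards [hr S hS _ h1 h] with N hN _
      exact hN
    · filter_upwards with N hN
      exact absurd hN h
  filter_upwards [hev] with N hN
  intro z hz1 hz2
  have hz0 : 0 < z := lt_of_lt_of_le (by positivity) hz1
  have hx1 : 1 ≤ z / (K * Real.sqrt ℓ) := by rwa [le_div_iff₀ (by positivity), one_mul]
  obtain ⟨j, hj1, hj2⟩ := exists_nat_pow_near hx1 h1η
  have hjm : j < m := by
    have h3 : (1 + η) ^ j < (1 + η) ^ m := by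
      refine lt_of_le_of_lt hj1 (lt_of_le_of_lt ?_ hm)
      gcongr
    exact (pow_lt_pow_iff_right₀ h1η).1 h3
  rw [le_div_iff₀ (by positivity)] at hj1
  rw [div_lt_iff₀ (by positivity)] at hj2
  have hcz : 2 * z ≤ c * ℓ * Real.log ℓ := by linarith
  have g1 := hN j (Finset.mem_range.2 (by omega)) (by nlinarith)
  have hnext : K * Real.sqrt ℓ * (1 + η) ^ (j + 1) ≤ (1 + η) * z := by
    rw [pow_succ]
    nlinarith
  have g2 := hN (j + 1) (Finset.mem_range.2 (by omega)) (by nlinarith)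
  set z1 := K * Real.sqrt ℓ * (1 + η) ^ j with hz1'
  set z2 := K * Real.sqrt ℓ * (1 + η) ^ (j + 1) with hz2'
  have hz12 : z2 = (1 + η) * z1 := by rw [hz1', hz2', pow_succ]; ring
  have hz1z : z1 ≤ z := by linarith
  have hzz2 : z < z2 := by linarith
  have hz10 : 0 < z1 := by positivity
  have hGz0 : 0 ≤ Gx ℓ z := Gx_nonneg hℓ0
  have hNn : (0 : ℝ) ≤ N := Nat.cast_nonneg _
  have hlow : Real.exp (-((1 + ε) * Gx ℓ z)) ≤ Real.exp (-((1 + ε / 4) * Gx ℓ z2)) := by
    apply Real.exp_le_exp.2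
    have e1 : Gx ℓ z2 ≤ (1 + η) ^ 2 * Gx ℓ z := by
      rw [← Gx_scale]
      unfold Gx
      gcongr
    have e2 : (1 + ε / 4) * (1 + η) ^ 2 ≤ 1 + ε := by
      have a1 : (1 + η) ^ 2 ≤ 1 + 3 * η := by nlinarith
      calc (1 + ε / 4) * (1 + η) ^ 2 ≤ (1 + ε / 4) * (1 + 3 * η) := by gcongr
        _ ≤ 1 + ε := by rw [hη]; nlinarith
    nlinarith
  have hup : Real.exp (-((1 - ε / 4) * Gx ℓ z1)) ≤ Real.exp (-((1 - ε) * Gx ℓ z)) := by
    apply Real.exp_le_exp.2
    have e1 : (1 - 2 * η) * Gx ℓ z ≤ Gx ℓ z1 := by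
      have e3 : (1 - η) * z ≤ z1 := by
        have : z ≤ (1 + η) * z1 := by linarith
        nlinarith
      have e4 : Gx ℓ ((1 - η) * z) ≤ Gx ℓ z1 := by
        unfold Gx
        have : 0 ≤ (1 - η) * z := by nlinarith
        gcongr
      rw [Gx_scale] at e4
      nlinarith [sq_nonneg η]
    have e2 : 1 - ε ≤ (1 - ε / 4) * (1 - 2 * η) := by rw [hη]; nlinarith
    have e5 : (1 - ε / 4) * ((1 - 2 * η) * Gx ℓ z) ≤ (1 - ε / 4) * Gx ℓ z1 := by
      apply mul_le_mul_of_nonneg_left e1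
      linarith
    nlinarith
  refine ⟨?_, ?_, ?_⟩
  · calc Real.exp (-((1 + ε) * Gx ℓ z)) * N ≤ Real.exp (-((1 + ε / 4) * Gx ℓ z2)) * N := by gcongr
      _ ≤ _ := g2.1
      _ ≤ _ := cnt_mono (fun n h => by linarith) N
  · calc Real.exp (-((1 + ε) * Gx ℓ z)) * N ≤ Real.exp (-((1 + ε / 4) * Gx ℓ z2)) * N := by gcongr
      _ ≤ _ := g2.2.1
      _ ≤ _ := cnt_mono (fun n h => by linarith) N
  · calc _ ≤ _ := cnt_mono (fun n h => by
          rcases h with h | h
          · exact Or.inl (by linarith)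
          · exact Or.inr (by linarith)) N
      _ ≤ _ := g1.2.2
      _ ≤ _ := by gcongr

/-- the sum of the gaps normalised by `(1/2π) log (γ/2π)` -/
noncomputable def Sd (r n : ℕ) : ℝ := ∑ i ∈ Finset.range r,
  (ord (n + i + 1) - ord (n + i)) / (2 * Real.pi) * Real.log (ord (n + i) / (2 * Real.pi))

lemma ord_tele (n r : ℕ) : ∑ i ∈ Finset.range r, (ord (n + i + 1) - ord (n + i)) =
    ord (n + r) - ord n := by
  have := Finset.sum_range_sub (fun i => ord (n + i)) r
  simpa [add_assoc] using this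

lemma cmp_Sd (r : ℕ) : Cmp r (Sd r) := by
  intro R
  have hpi := Real.pi_pos
  have hpi3 := Real.pi_gt_three
  have h1 : Tendsto (fun n => Real.log (ord n / (2 * Real.pi))) atTop atTop :=
    Real.tendsto_log_atTop.comp (SG.ord_tendsto.atTop_div_const (by positivity))
  filter_upwards [h1.eventually_ge_atTop (max 1 (4 * Real.pi * |R|)),
    SG.ord_tendsto.eventually_ge_atTop 10, eventually_ge_atTop 1] with n hlog hord hn1
  intro hor
  have hl1 : 1 ≤ Real.log (ord n / (2 * Real.pi)) := (le_max_left _ _).trans hlog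
  have hl2 : 4 * Real.pi * |R| ≤ Real.log (ord n / (2 * Real.pi)) := (le_max_right _ _).trans hlog
  set g0 := ord n with hg0
  set g1 := ord (n + r) with hg1
  set h := g1 - g0 with hh
  have h0 : 0 ≤ h := by
    have := SG.ord_mono hn1 (Nat.le_add_right n r)
    linarith
  have hg00 : 0 < g0 := by linarith
  have hlg0 : Real.log (g0 / (2 * Real.pi)) = Real.log g0 - Real.log (2 * Real.pi) :=
    Real.log_div hg00.ne' (by positivity)
  have hlg1 : Real.log (g1 / (2 * Real.pi)) = Real.log g1 - Real.log (2 * Real.pi) :=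
    Real.log_div (by linarith) (by positivity)
  have h2pi : 0 ≤ Real.log (2 * Real.pi) ∧ Real.log (2 * Real.pi) ≤ 2 := by
    constructor
    · exact Real.log_nonneg (by linarith)
    · rw [Real.log_le_iff_le_exp (by positivity)]
      have h9 : Real.exp 2 = Real.exp 1 * Real.exp 1 := by rw [← Real.exp_add]; norm_num
      have h10 := Real.exp_one_gt_d9
      have h11 := Real.pi_lt_d2
      nlinarith
  have hSlow : h / (2 * Real.pi) * Real.log (g0 / (2 * Real.pi)) ≤ Sd r n := by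
    unfold Sd
    rw [hh, hg1, hg0, ← ord_tele, Finset.sum_div, Finset.sum_mul]
    refine Finset.sum_le_sum fun i _ => ?_
    have a1 := SG.ord_mono (by omega : 1 ≤ n + i) (Nat.le_succ (n + i))
    have a2 := SG.ord_mono hn1 (Nat.le_add_right n i)
    have a3 : 0 ≤ (ord (n + i + 1) - ord (n + i)) / (2 * Real.pi) := by
      apply div_nonneg _ (by positivity)
      have : ord (n + i) ≤ ord (n + i + 1) := a1
      linarith
    gcongr
  have hSup : Sd r n ≤ h / (2 * Real.pi) * Real.log (g1 / (2 * Real.pi)) := by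
    unfold Sd
    rw [hh, hg1, hg0, ← ord_tele, Finset.sum_div, Finset.sum_mul]
    refine Finset.sum_le_sum fun i hi => ?_
    have a1 := SG.ord_mono (by omega : 1 ≤ n + i) (Nat.le_succ (n + i))
    have a2 := SG.ord_mono (by omega : 1 ≤ n + i)
      (by have := Finset.mem_range.1 hi; omega : n + i ≤ n + r)
    have a4 := SG.ord_pos (by omega : 1 ≤ n + i)
    have a3 : 0 ≤ (ord (n + i + 1) - ord (n + i)) / (2 * Real.pi) := by
      apply div_nonneg _ (by positivity)
      have : ord (n + i) ≤ ord (n + i + 1) := a1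
      linarith
    gcongr
  have hDlow : h / (2 * Real.pi) * (Real.log g0 + 1) ≤ ∑ i ∈ Finset.range r, dlt (n + i) := by
    rw [dlt_sum, div_mul_eq_mul_div]
    apply div_le_div_of_nonneg_right _ (by positivity)
    have := xlogx_low hg00 (by linarith : g0 ≤ g1)
    linarith
  have hDup : ∑ i ∈ Finset.range r, dlt (n + i) ≤ h / (2 * Real.pi) * (Real.log g1 + 1) := by
    rw [dlt_sum, div_mul_eq_mul_div]
    apply div_le_div_of_nonneg_right _ (by positivity)
    have h5 : Real.log g0 ≥ Real.log g1 - h / g0 := by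
      have h6 : Real.log g1 - Real.log g0 = Real.log (g1 / g0) := by
        rw [Real.log_div (by linarith) hg00.ne']
      have h7 : Real.log (g1 / g0) ≤ g1 / g0 - 1 := Real.log_le_sub_one_of_pos (by
        apply div_pos _ hg00; linarith)
      have h8 : g1 / g0 - 1 = h / g0 := by rw [hh]; field_simp
      linarith
    have h9 : g0 * (h / g0) = h := by field_simp
    have h10 : g0 * Real.log g0 ≥ g0 * Real.log g1 - h := by
      have := mul_le_mul_of_nonneg_left h5.le hg00.le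
      rw [mul_sub, h9] at this
      exact this
    have : g1 = g0 + h := by rw [hh]; ring
    rw [← hg1, ← hg0]
    nlinarith
  have hsmall : h ≤ 1 := by
    have key : h / (2 * Real.pi) * Real.log (g0 / (2 * Real.pi)) ≤ |R| := by
      rcases hor with h3 | h3
      · exact hSlow.trans (h3.trans (le_abs_self R))
      · have : h / (2 * Real.pi) * Real.log (g0 / (2 * Real.pi)) ≤
            h / (2 * Real.pi) * (Real.log g0 + 1) := by
          apply mul_le_mul_of_nonneg_left _ (by positivity)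
          linarith [h2pi.1]
        exact this.trans (hDlow.trans (h3.trans (le_abs_self R)))
    by_contra hcon
    push Not at hcon
    rw [div_mul_eq_mul_div, div_le_iff₀ (by positivity)] at key
    set Λ := Real.log (g0 / (2 * Real.pi)) with hΛ
    have h4 : Λ < h * Λ := by nlinarith
    have h5 : |R| * (2 * Real.pi) ≤ Λ / 2 := by linarith
    linarith
  have hratio : Real.log g1 - Real.log g0 ≤ 1 := by
    have h6 : Real.log g1 - Real.log g0 = Real.log (g1 / g0) := by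
      rw [Real.log_div (by linarith) hg00.ne']
    have h7 : Real.log (g1 / g0) ≤ g1 / g0 - 1 := Real.log_le_sub_one_of_pos (by
      apply div_pos _ hg00; linarith)
    have h8 : g1 / g0 - 1 = h / g0 := by rw [hh]; field_simp
    have h9 : h / g0 ≤ 1 := by rw [div_le_one hg00]; linarith
    linarith
  have hh2 : h / (2 * Real.pi) ≤ 1 / 6 := by
    rw [div_le_div_iff₀ (by positivity) (by norm_num)]
    nlinarith
  have hh3 : 0 ≤ h / (2 * Real.pi) := by positivity
  rw [abs_le]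
  rw [hlg0] at hSlow
  rw [hlg1] at hSup
  constructor
  · have : h / (2 * Real.pi) * (Real.log g1 - Real.log (2 * Real.pi)) -
        h / (2 * Real.pi) * (Real.log g0 + 1) ≤ 1 := by
      have e1 : h / (2 * Real.pi) * (Real.log g1 - Real.log (2 * Real.pi)) -
        h / (2 * Real.pi) * (Real.log g0 + 1) = h / (2 * Real.pi) *
          (Real.log g1 - Real.log g0 - Real.log (2 * Real.pi) - 1) := by ring
      rw [e1]
      nlinarith [h2pi.1]
    linarith
  · have : h / (2 * Real.pi) * (Real.log g1 + 1) -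
        h / (2 * Real.pi) * (Real.log g0 - Real.log (2 * Real.pi)) ≤ 1 := by
      have e1 : h / (2 * Real.pi) * (Real.log g1 + 1) -
        h / (2 * Real.pi) * (Real.log g0 - Real.log (2 * Real.pi)) = h / (2 * Real.pi) *
          (Real.log g1 - Real.log g0 + Real.log (2 * Real.pi) + 1) := by ring
      rw [e1]
      have e2 : Real.log g1 - Real.log g0 + Real.log (2 * Real.pi) + 1 ≤ 4 := by linarith [h2pi.2]
      calc h / (2 * Real.pi) * (Real.log g1 - Real.log g0 + Real.log (2 * Real.pi) + 1) ≤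
          h / (2 * Real.pi) * 4 := by gcongr
        _ ≤ 1 / 6 * 4 := by gcongr
        _ ≤ 1 := by norm_num
    linarith

end Pool.Agent.H478.LD
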