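import Pool.Agent.H478.LD10

/-! Moderate and large deviations of the number of zeros in an interval. -/

open Finset Complex MeasureTheory Filter Topology ProbabilityTheory

namespace Pool.Agent.H478.LD

open Pool.Agent.H478.CW
open Pool.Agent.H478.EX
open Pool.Agent.R321.FA
open SP (ZZ mu Mk RHs)
open SG (ord NZ zmult ZS)

/-- the number of zeros in `(t, t + 2π r / log T]` -/
noncomputable def win (r : ℕ) (T t : ℝ) : ℝ := (NZ (t + 2 * Real.pi * r / Real.log T) : ℝ) - NZ t

lemma log_lin' {c : ℝ} (hc : 0 < c) : ∀ᶠ T : ℝ in atTop, 16 * Real.log T ≤ c * T := by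
  have h := Real.isLittleO_log_id_atTop.def (by positivity : (0 : ℝ) < c / 16)
  filter_upwards [h, eventually_ge_atTop 1] with T h1 h2
  simp only [id, Real.norm_eq_abs] at h1
  rw [abs_of_nonneg (Real.log_nonneg h2), abs_of_nonneg (by linarith)] at h1
  linarith

/-- **deviations of the number of zeros in an interval** -/
theorem win_dev (RH : RiemannHypothesis) {ε : ℝ} (hε : 0 < ε) (hε1 : ε ≤ 1) : ∃ K c : ℝ, 1 ≤ K ∧
    0 < c ∧ ∀ᶠ r : ℕ in atTop, ∀ z, K * Real.sqrt (Real.log r) ≤ z →
      z ≤ c * Real.log r * Real.log (Real.log r) → ∀ᶠ T : ℝ in atTop,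
      ENNReal.ofReal (Real.exp (-((1 + ε) * Gx (Real.log r) z)) * T) ≤
        volume {t : ℝ | T ≤ t ∧ t ≤ 2 * T ∧ r + z ≤ win r T t} ∧
      ENNReal.ofReal (Real.exp (-((1 + ε) * Gx (Real.log r) z)) * T) ≤
        volume {t : ℝ | T ≤ t ∧ t ≤ 2 * T ∧ win r T t ≤ r - z} ∧
      volume {t : ℝ | T ≤ t ∧ t ≤ 2 * T ∧ (r + z ≤ win r T t ∨ win r T t ≤ r - z)} ≤
        ENNReal.ofReal (Real.exp (-((1 - ε) * Gx (Real.log r) z)) * T) := by
  have hRH := rhs_of RH
  have hpi := Real.pi_pos
  obtain ⟨K1, c1, hK1, hc1, hup⟩ := height_up hRH (by linarith : 0 < ε / 2) (by linarith)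
  set e := ε / 16 with he
  have he0 : 0 < e := by positivity
  have he1 : e ≤ 1 / 16 := by rw [he]; linarith
  obtain ⟨K2, c2, hK2, hc2, hlow⟩ := height_low hRH (by linarith : 0 < ε / 2) (by linarith)
    (by linarith : 0 < e / 2) (by linarith)
  refine ⟨K1 + K2, min (min 1 c1) (c2 / 2), by linarith, lt_min (lt_min one_pos hc1) (by positivity), ?_⟩
  filter_upwards [nlog.eventually hup, nlog.eventually hlow,
    range_facts ((min_le_left _ _).trans (min_le_left _ _) : min (min 1 c1) (c2 / 2) ≤ 1)] with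
    r hup hlow hfacts
  obtain ⟨hℓ1, hexp, hll0, hzr⟩ := hfacts
  intro z hz1 hz2
  set ℓ := Real.log r with hℓ
  have hℓ0 : 0 < ℓ := by linarith
  have hs0 : 0 < Real.sqrt ℓ := Real.sqrt_pos.2 hℓ0
  have hz0 : 0 < z := lt_of_lt_of_le (by positivity) hz1
  have h8 := hzr z hz2
  have hr0 : (0 : ℝ) < r := by linarith
  have hzc1 : z ≤ c1 * ℓ * Real.log ℓ := by
    refine hz2.trans ?_
    have : min (min 1 c1) (c2 / 2) ≤ c1 := (min_le_left _ _).trans (min_le_right _ _)
    gcongr
  have hzc2 : 2 * z ≤ c2 * ℓ * Real.log ℓ := by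
    have : min (min 1 c1) (c2 / 2) ≤ c2 / 2 := min_le_right _ _
    have h1 : z ≤ c2 / 2 * ℓ * Real.log ℓ := hz2.trans (by gcongr)
    linarith
  have hG := Gx_ge hℓ0 (by linarith) hz1
  have hsc : Gx ℓ ((1 + e) * z) = (1 + e) ^ 2 * Gx ℓ z := Gx_scale
  have hG0 : 0 < Gx ℓ z := by nlinarith
  set G := Gx ℓ z with hGdef
  have u := hup z (by nlinarith) hzc1 r (by rw [hexp]; linarith) (by rw [hexp]; linarith)
  have hz'1 : z ≤ (1 + e) * z := by nlinarith
  have hz'2 : (1 + e) * z ≤ 2 * z := by nlinarith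
  have l1 := hlow ((1 + e) * z) (by nlinarith) (hz'2.trans hzc2) r (by rw [hexp]; linarith)
    (by rw [hexp]; linarith) ((1 + e) * z) (by rw [abs_of_pos (by linarith)])
  have l2 := hlow ((1 + e) * z) (by nlinarith) (hz'2.trans hzc2) r (by rw [hexp]; linarith)
    (by rw [hexp]; linarith) (-((1 + e) * z)) (by rw [abs_neg, abs_of_pos (by linarith)])
  rw [hsc] at l1 l2
  rw [← hGdef] at u
  have hlt : Real.exp (-((1 - ε / 2) * G)) < Real.exp (-((1 - ε) * G)) := by
    apply Real.exp_lt_exp.2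
    nlinarith
  have hle : Real.exp (-((1 + ε) * G)) ≤ Real.exp (-((1 + ε / 2) * ((1 + e) ^ 2 * G))) := by
    apply Real.exp_le_exp.2
    have : (1 + ε / 2) * (1 + e) ^ 2 ≤ 1 + ε := by
      have a1 : (1 + e) ^ 2 ≤ 1 + 3 * e := by nlinarith
      calc (1 + ε / 2) * (1 + e) ^ 2 ≤ (1 + ε / 2) * (1 + 3 * e) := by gcongr
        _ ≤ _ := by rw [he]; nlinarith
    nlinarith
  unfold Sm at u
  unfold Lg at l1 l2
  filter_upwards [u, l1, l2, V_ord, log_lin' (sub_pos.2 hlt),
    Real.tendsto_log_atTop.eventually_ge_atTop (2 * Real.pi * r)] with T u l1 l2 hV hedge hL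
  obtain ⟨hT10, hVV, hVT⟩ := hV
  have hT1 : 1 ≤ T := by linarith
  have hL1 := log_one_le hT10
  have hL0 : 0 < Real.log T := by linarith
  have hwin : ∀ t, Va T ≤ t → t ≤ Vb T → nc T t r = win r T t := by
    intro t h1 h2
    unfold Va at h1
    unfold Vb at h2
    have h3 : 2 * Real.pi * r / Real.log T ≤ 1 := by rw [div_le_one hL0]; exact hL
    have h4 := nc_NZ RH hT1 (t := t) (x := r) (by linarith) (by linarith) (by positivity)
    unfold win
    linarith
  have hsub : ∀ t, Va T ≤ t → t ≤ Vb T → T ≤ t ∧ t ≤ 2 * T := by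
    intro t h1 h2
    unfold Va at h1
    unfold Vb at h2
    constructor <;> linarith
  have hezz : e / 2 * ((1 + e) * z) ≤ e * z := by nlinarith
  refine ⟨?_, ?_, ?_⟩
  · refine le_trans (ENNReal.ofReal_le_ofReal ?_) (l1.trans (measure_mono ?_))
    · gcongr
    · rintro t ⟨h1, h2, h3⟩
      refine ⟨(hsub t h1 h2).1, (hsub t h1 h2).2, ?_⟩
      rw [← hwin t h1 h2]
      have := (abs_le.1 h3).1
      linarith
  · refine le_trans (ENNReal.ofReal_le_ofReal ?_) (l2.trans (measure_mono ?_))
    · gcongr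
    · rintro t ⟨h1, h2, h3⟩
      refine ⟨(hsub t h1 h2).1, (hsub t h1 h2).2, ?_⟩
      rw [← hwin t h1 h2]
      have := (abs_le.1 h3).2
      linarith
  · have hcov : {t : ℝ | T ≤ t ∧ t ≤ 2 * T ∧ (r + z ≤ win r T t ∨ win r T t ≤ r - z)} ⊆
        {t : ℝ | Va T ≤ t ∧ t ≤ Vb T ∧ ¬ |nc T t r - r| < z} ∪
          (Set.Icc T (Va T) ∪ Set.Icc (Vb T) (2 * T)) := by
      rintro t ⟨h1, h2, h3⟩
      rcases le_or_gt (Va T) t with h4 | h4
      · rcases le_or_gt t (Vb T) with h5 | h5
        · left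
          refine ⟨h4, h5, ?_⟩
          rw [hwin t h4 h5, abs_lt, not_and_or]
          rcases h3 with h3 | h3
          · right; linarith
          · left; linarith
        · right; right; exact ⟨h5.le, h2⟩
      · right; left; exact ⟨h1, h4.le⟩
    refine (measure_mono hcov).trans ((measure_union_le _ _).trans
      ((add_le_add u (measure_union_le _ _)).trans ?_))
    rw [Real.volume_Icc, Real.volume_Icc]
    have e1 : Va T - T = 8 * Real.log T := by unfold Va; ring
    have e2 : 2 * T - Vb T = 8 * Real.log T := by unfold Vb; ring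
    rw [e1, e2, ← ENNReal.ofReal_add (by positivity) (by positivity),
      ← ENNReal.ofReal_add (by positivity) (by positivity)]
    apply ENNReal.ofReal_le_ofReal
    rw [sub_mul] at hedge
    linarith

/-- the distance to the `r`-th following zero, in mean spacings -/
noncomputable def Sp (r n : ℕ) : ℝ := (ord (n + r) - ord n) * Real.log (ord n) / (2 * Real.pi)

lemma cmp_Sp (r : ℕ) : Cmp r (Sp r) := by
  intro R
  have hpi := Real.pi_pos
  have hpi3 := Real.pi_gt_three
  have h1 : Tendsto (fun n => Real.log (ord n)) atTop atTop :=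
    Real.tendsto_log_atTop.comp SG.ord_tendsto
  filter_upwards [h1.eventually_ge_atTop (max 1 (4 * Real.pi * |R|)),
    SG.ord_tendsto.eventually_ge_atTop 10, eventually_ge_atTop 1] with n hlog hord hn1
  intro hor
  have hl1 : 1 ≤ Real.log (ord n) := (le_max_left _ _).trans hlog
  have hl2 : 4 * Real.pi * |R| ≤ Real.log (ord n) := (le_max_right _ _).trans hlog
  set g0 := ord n with hg0
  set g1 := ord (n + r) with hg1
  set h := g1 - g0 with hh
  have h0 : 0 ≤ h := by
    have := SG.ord_mono hn1 (Nat.le_add_right n r)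
    linarith
  have hg00 : 0 < g0 := by linarith
  have hDlow : h * (Real.log g0 + 1) / (2 * Real.pi) ≤ ∑ i ∈ Finset.range r, TH800.MS.dlt (n + i) := by
    rw [dlt_sum]
    apply div_le_div_of_nonneg_right _ (by positivity)
    exact xlogx_low hg00 (by linarith : g0 ≤ g1)
  have hDup : ∑ i ∈ Finset.range r, TH800.MS.dlt (n + i) ≤ h * (Real.log g1 + 1) / (2 * Real.pi) := by
    rw [dlt_sum]
    apply div_le_div_of_nonneg_right _ (by positivity)
    exact xlogx_up hg00 (by linarith : g0 ≤ g1)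
  have hS : Sp r n = h * Real.log g0 / (2 * Real.pi) := rfl
  have hsmall : h ≤ 1 := by
    have key : h * Real.log g0 / (2 * Real.pi) ≤ |R| := by
      rcases hor with h3 | h3
      · rw [← hS]; exact h3.trans (le_abs_self R)
      · have : h * Real.log g0 / (2 * Real.pi) ≤ h * (Real.log g0 + 1) / (2 * Real.pi) := by
          gcongr
          linarith
        exact this.trans (hDlow.trans (h3.trans (le_abs_self R)))
    by_contra hcon
    push Not at hcon
    rw [div_le_iff₀ (by positivity)] at key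
    set Λ := Real.log g0 with hΛ
    have h4 : Λ < h * Λ := by nlinarith
    have h5 : |R| * (2 * Real.pi) ≤ Λ / 2 := by linarith
    linarith
  have hratio : Real.log g1 - Real.log g0 ≤ 1 := by
    have h6 : Real.log g1 - Real.log g0 = Real.log (g1 / g0) := by
      rw [Real.log_div (by linarith) hg00.ne']
    have h7 : Real.log (g1 / g0) ≤ g1 / g0 - 1 := Real.log_le_sub_one_of_pos (by
      apply div_pos _ hg00; linarith)
    have h8 : g1 / g0 - 1 = h / g0 := by rw [hh]; field_simp
    have h9 : h / g0 ≤ 1 := by rw [div_le_one hg00]; linarith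
    linarith
  rw [hS, abs_le]
  constructor
  · have : h * Real.log g0 / (2 * Real.pi) ≤ h * (Real.log g0 + 1) / (2 * Real.pi) := by
      gcongr
      linarith
    linarith
  · have : h * (Real.log g1 + 1) / (2 * Real.pi) - h * Real.log g0 / (2 * Real.pi) ≤ 1 := by
      rw [← sub_div, ← mul_sub, div_le_one (by positivity)]
      have : h * (Real.log g1 + 1 - Real.log g0) ≤ 1 * 2 := by
        apply mul_le_mul hsmall (by linarith) _ (by norm_num)
        have := Real.log_le_log hg00 (by linarith : g0 ≤ g1)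
        linarith
      linarith
    linarith

end Pool.Agent.H478.LD
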