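import Pool.Agent.H478.LD1

/-! Large deviations: the parameters. -/

open Finset Complex MeasureTheory Filter Topology ProbabilityTheory

namespace Pool.Agent.H478.LD

open Pool.Agent.H478.CW
open Pool.Agent.H478.EX
open Pool.Agent.R321.FA
open SP (ZZ mu Mk RHs)

/-- polynomial against exponential growth -/
lemma lin_exp (a b : ℝ) {c : ℝ} (hc : 0 < c) : ∀ᶠ ℓ : ℝ in atTop, a * ℓ + b < Real.exp (c * ℓ) := by
  have h1 : Tendsto (fun ℓ : ℝ => (a * ℓ + b) / Real.exp (c * ℓ)) atTop (𝓝 0) := by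
    have t1 : Tendsto (fun ℓ : ℝ => ℓ ^ 1 * Real.exp (-(c * ℓ))) atTop (𝓝 0) := by
      have h := (Real.tendsto_pow_mul_exp_neg_atTop_nhds_zero 1).comp
        (tendsto_id.const_mul_atTop hc)
      have h2 := h.const_mul (1 / c)
      rw [mul_zero] at h2
      refine h2.congr fun ℓ => ?_
      simp only [Function.comp_apply, id, pow_one]
      field_simp
    have t0 : Tendsto (fun ℓ : ℝ => Real.exp (-(c * ℓ))) atTop (𝓝 0) :=
      Real.tendsto_exp_neg_atTop_nhds_zero.comp (tendsto_id.const_mul_atTop hc)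
    have t2 := (t1.const_mul a).add (t0.const_mul b)
    rw [mul_zero, mul_zero, add_zero] at t2
    refine t2.congr fun ℓ => ?_
    rw [Real.exp_neg, div_eq_mul_inv]
    ring
  filter_upwards [h1.eventually (gt_mem_nhds one_pos)] with ℓ h2
  rwa [div_lt_one (Real.exp_pos _)] at h2

/-- statistics of small variance -/
lemma nice_stats (hRH : RHs) {A e C : ℝ} (hA : 1 ≤ A) (he : 0 < e) (hC : 0 < C) :
    ∀ᶠ ℓ : ℝ in atTop, ∀ l, Good l (A / ℓ) → kv l ≤ Real.sqrt ℓ →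
      Sm (fun T t => |stt l (A / ℓ) T t| < e * ℓ) (Real.exp (-(C * ℓ))) := by
  have hA0 : 0 < A := by linarith
  set ν := 8 * A * (C + 1) with hν
  have hsq : Tendsto (fun ℓ : ℝ => Real.sqrt ℓ) atTop atTop := Real.tendsto_sqrt_atTop
  filter_upwards [eventually_ge_atTop (8 * A + 1), hsq.eventually_ge_atTop (1 / (e ^ 2 * Real.exp (-ν))),
    lin_exp (2 * Real.exp 1) 0 one_pos] with ℓ h1 h2 h3
  intro l hl hkv
  have hℓ0 : 0 < ℓ := by linarith
  set k := ⌊ℓ / (4 * A)⌋₊ with hk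
  have hk1 : (k : ℝ) ≤ ℓ / (4 * A) := Nat.floor_le (by positivity)
  have hk2 : ℓ / (4 * A) - 1 < k := by
    have := Nat.lt_floor_add_one (ℓ / (4 * A))
    linarith
  have hk3 : ℓ / (8 * A) ≤ k := by
    have h4 : 1 ≤ ℓ / (8 * A) := by rw [le_div_iff₀ (by positivity)]; linarith
    have h5 : ℓ / (4 * A) = 2 * (ℓ / (8 * A)) := by field_simp; ring
    linarith
  have hk4 : 1 ≤ k := by
    have h4 : 1 < ℓ / (8 * A) := by rw [lt_div_iff₀ (by positivity)]; linarith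
    have : (0 : ℝ) < k := by linarith
    exact_mod_cast this
  have hkℓ : 2 * (k : ℝ) ≤ ℓ := by
    have : ℓ / (4 * A) ≤ ℓ / 2 := by
      apply div_le_div_of_nonneg_left hℓ0.le (by norm_num) (by linarith)
    linarith
  refine tail' (ρ := Real.exp (-ν)) (κ := Real.sqrt ℓ) hRH hl (by positivity) hk4 ?_ (by positivity)
    hkv ?_ ?_
  · calc 2 * (k : ℝ) * (A / ℓ) ≤ 2 * (ℓ / (4 * A)) * (A / ℓ) := by gcongr
      _ = 1 / 2 := by field_simp; norm_num
      _ < 1 := by norm_num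
  · have h4 : 1 ≤ e ^ 2 * Real.exp (-ν) * Real.sqrt ℓ := by
      rw [div_le_iff₀ (by positivity)] at h2
      linarith
    have h5 : ℓ = Real.sqrt ℓ * Real.sqrt ℓ := (Real.mul_self_sqrt hℓ0.le).symm
    have h6 : (1 : ℝ) ≤ Real.exp 1 := Real.one_le_exp (by norm_num)
    have hs0 := Real.sqrt_nonneg ℓ
    calc 2 * (k : ℝ) * Real.sqrt ℓ ≤ ℓ * Real.sqrt ℓ := by gcongr
      _ = ℓ * Real.sqrt ℓ * 1 := by ring
      _ ≤ ℓ * Real.sqrt ℓ * (e ^ 2 * Real.exp (-ν) * Real.sqrt ℓ) := by gcongr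
      _ = e ^ 2 * Real.exp (-ν) * ℓ * (Real.sqrt ℓ * Real.sqrt ℓ) := by ring
      _ = 1 * (Real.exp (-ν) * (e * ℓ) ^ 2) := by rw [← h5]; ring
      _ ≤ Real.exp 1 * (Real.exp (-ν) * (e * ℓ) ^ 2) := by gcongr
      _ = _ := by ring
  · have h4 : Real.exp (-ν) ^ k ≤ Real.exp (-((C + 1) * ℓ)) := by
      rw [← Real.exp_nat_mul]
      apply Real.exp_le_exp.2
      have h5 : ν * (ℓ / (8 * A)) = (C + 1) * ℓ := by rw [hν]; field_simp
      have h6 : ν * (ℓ / (8 * A)) ≤ ν * k := by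
        apply mul_le_mul_of_nonneg_left hk3
        positivity
      linarith
    have h7 : 2 * Real.exp 1 * (k : ℝ) ≤ 2 * Real.exp 1 * ℓ := by
      have : (k : ℝ) ≤ ℓ := by linarith [Nat.cast_nonneg (α := ℝ) k]
      gcongr
    rw [add_zero, one_mul] at h3
    calc 2 * Real.exp 1 * (k : ℝ) * Real.exp (-ν) ^ k ≤
        2 * Real.exp 1 * ℓ * Real.exp (-((C + 1) * ℓ)) := by gcongr
      _ < Real.exp ℓ * Real.exp (-((C + 1) * ℓ)) := by gcongr
      _ = Real.exp (-(C * ℓ)) := by rw [← Real.exp_add]; congr 1; ring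

/-- **the upper bound** for the main statistic -/
lemma main_upper (hRH : RHs) {lam η : ℝ} (hlam : 0 < lam) (hη : 0 < η) : ∃ ι : ℝ, 0 < ι ∧
    ∀ᶠ ℓ : ℝ in atTop, ∀ l, Good l (1 / ℓ ^ 3) → kv l ≤ (1 + ι) / Real.pi ^ 2 * ℓ →
      Sm (fun T t => |stt l (1 / ℓ ^ 3) T t| < lam * ℓ)
        (Real.exp (-((Real.pi ^ 2 * lam ^ 2 / 2 - η) * ℓ))) := by
  have hpi := Real.pi_pos
  set G := Real.pi ^ 2 * lam ^ 2 / 2 with hG
  have hG0 : 0 < G := by positivity
  set ι := η / (2 * G) with hι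
  have hι0 : 0 < ι := by positivity
  refine ⟨ι, hι0, ?_⟩
  set g := G / (1 + ι) with hg
  have hg0 : 0 < g := by positivity
  have hgG : g ≤ G := div_le_self hG0.le (by linarith)
  have hg2 : G - η / 2 ≤ g := by
    rw [hg, le_div_iff₀ (by positivity)]
    have : G * ι = η / 2 := by rw [hι]; field_simp
    nlinarith
  filter_upwards [eventually_ge_atTop (2 / g), eventually_ge_atTop (2 * (2 * G + 3)), eventually_ge_atTop 1,
    lin_exp (2 * Real.exp 1 * Real.exp 2 * G) (2 * Real.exp 1 * Real.exp 2) (by positivity : 0 < η / 2)]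
    with ℓ h1 h2 h3 h4
  intro l hl hkv
  have hℓ0 : 0 < ℓ := by linarith
  have hk0 : 2 ≤ g * ℓ := by rw [div_le_iff₀ hg0] at h1; linarith
  set k := ⌈g * ℓ⌉₊ with hk
  have hk1 : g * ℓ ≤ k := Nat.le_ceil _
  have hk2 : (k : ℝ) < g * ℓ + 1 := Nat.ceil_lt_add_one (by positivity)
  have hk4 : 1 ≤ k := by
    have : (0 : ℝ) < k := by linarith
    exact_mod_cast this
  refine tail' (ρ := (1 + 1 / (g * ℓ)) * Real.exp (-1)) (κ := (1 + ι) / Real.pi ^ 2 * ℓ) hRH hl
    (by positivity) hk4 ?_ (by positivity) hkv ?_ ?_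
  · rw [← mul_div_assoc, mul_one, div_lt_one (by positivity)]
    have h5 : g * ℓ ≤ G * ℓ := by gcongr
    have h6 : (2 * G + 3) * ℓ ≤ ℓ ^ 3 := by
      have : 2 * G + 3 ≤ ℓ * ℓ := by nlinarith
      calc (2 * G + 3) * ℓ ≤ ℓ * ℓ * ℓ := by gcongr
        _ = ℓ ^ 3 := by ring
    nlinarith
  · have h5 : Real.exp 1 * ((1 + 1 / (g * ℓ)) * Real.exp (-1)) * (lam * ℓ) ^ 2 =
        (1 + 1 / (g * ℓ)) * (lam * ℓ) ^ 2 := by
      rw [Real.exp_neg]
      field_simp
    rw [h5]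
    have h6 : (1 + ι) / Real.pi ^ 2 * ℓ = (lam * ℓ) ^ 2 / (2 * (g * ℓ)) := by
      rw [hg, hG]; field_simp
    rw [h6]
    calc 2 * (k : ℝ) * ((lam * ℓ) ^ 2 / (2 * (g * ℓ))) ≤
        2 * (g * ℓ + 1) * ((lam * ℓ) ^ 2 / (2 * (g * ℓ))) := by gcongr
      _ = (1 + 1 / (g * ℓ)) * (lam * ℓ) ^ 2 := by field_simp
  · have h5 : ((1 + 1 / (g * ℓ)) * Real.exp (-1)) ^ k ≤ Real.exp 2 * Real.exp (-(g * ℓ)) := by
      rw [mul_pow]
      have h6 : (1 + 1 / (g * ℓ)) ^ k ≤ Real.exp 2 := by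
        have h7 : 1 + 1 / (g * ℓ) ≤ Real.exp (1 / (g * ℓ)) := by
          have := Real.add_one_le_exp (1 / (g * ℓ))
          linarith
        calc (1 + 1 / (g * ℓ)) ^ k ≤ Real.exp (1 / (g * ℓ)) ^ k :=
              pow_le_pow_left₀ (by positivity) h7 k
          _ = Real.exp (k * (1 / (g * ℓ))) := by rw [← Real.exp_nat_mul]
          _ ≤ Real.exp 2 := by
              apply Real.exp_le_exp.2
              rw [mul_one_div, div_le_iff₀ (by positivity)]
              linarith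
      have h7 : Real.exp (-1) ^ k ≤ Real.exp (-(g * ℓ)) := by
        rw [← Real.exp_nat_mul]
        apply Real.exp_le_exp.2
        linarith
      gcongr
    calc 2 * Real.exp 1 * (k : ℝ) * ((1 + 1 / (g * ℓ)) * Real.exp (-1)) ^ k ≤
        2 * Real.exp 1 * (G * ℓ + 1) * (Real.exp 2 * Real.exp (-(g * ℓ))) := by
          have : (k : ℝ) ≤ G * ℓ + 1 := by
            have : g * ℓ ≤ G * ℓ := by gcongr
            linarith
          gcongr
      _ = (2 * Real.exp 1 * Real.exp 2 * G * ℓ + 2 * Real.exp 1 * Real.exp 2) *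
          Real.exp (-(g * ℓ)) := by ring
      _ < Real.exp (η / 2 * ℓ) * Real.exp (-(g * ℓ)) := by gcongr
      _ ≤ _ := by
          rw [← Real.exp_add]
          apply Real.exp_le_exp.2
          nlinarith

/-- **the lower bound** for the main statistic -/
lemma main_lower (hRH : RHs) {lam η e : ℝ} (hlam : 0 < lam) (hη : 0 < η) (he : 0 < e) :
    ∃ ι : ℝ, 0 < ι ∧ ι ≤ 1 / 2 ∧ ∀ᶠ ℓ : ℝ in atTop, ∀ l, Good l (1 / ℓ ^ 3) →
      (1 - ι) / Real.pi ^ 2 * ℓ ≤ kv l → kv l ≤ ℓ → ∀ a, |a| ≤ lam * ℓ →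
      Lg (fun T t => |stt l (1 / ℓ ^ 3) T t - a| ≤ e * ℓ)
        (Real.exp (-((Real.pi ^ 2 * lam ^ 2 / 2 + η) * ℓ))) := by
  have hpi := Real.pi_pos
  set G := Real.pi ^ 2 * lam ^ 2 / 2 with hG
  have hG0 : 0 < G := by positivity
  set ι := min (1 / 2) (η / (4 * G)) with hι
  have hι0 : 0 < ι := lt_min (by norm_num) (by positivity)
  have hι1 : ι ≤ 1 / 2 := min_le_left _ _
  have hι2 : ι ≤ η / (4 * G) := min_le_right _ _
  refine ⟨ι, hι0, hι1, ?_⟩
  filter_upwards [eventually_ge_atTop 10, eventually_ge_atTop (2 * (G + η) / e ^ 2),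
    eventually_ge_atTop (16 * Real.exp 2 * (G + η + 1)),
    eventually_ge_atTop (8 * (G + η) + 8), lin_exp 4 4 (by positivity : 0 < η / 2),
    lin_exp 0 4 one_pos] with ℓ h1 h2 h3 h4 h5 h6
  intro l hl hkv1 hkv2 a ha
  have hℓ0 : 0 < ℓ := by linarith
  have hV0 := kv_nonneg l
  set V := kv l with hV
  set q := Real.exp (-((G + η) * ℓ)) with hq
  have hq0 : 0 < q := Real.exp_pos _
  set k := ⌊ℓ ^ 3 / 4⌋₊ with hk
  have hk1 : (k : ℝ) ≤ ℓ ^ 3 / 4 := Nat.floor_le (by positivity)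
  have hk2 : ℓ ^ 3 / 4 - 1 < k := by
    have := Nat.lt_floor_add_one (ℓ ^ 3 / 4)
    linarith
  have hℓ3 : 100 * ℓ ≤ ℓ ^ 3 := by
    have : 100 ≤ ℓ * ℓ := by nlinarith
    calc 100 * ℓ ≤ ℓ * ℓ * ℓ := by gcongr
      _ = ℓ ^ 3 := by ring
  have hk3 : ℓ ^ 3 / 8 ≤ k := by linarith
  have hkpos : (0 : ℝ) < k := by nlinarith
  have hR0 : 0 ≤ 4 * (G + η + 1) * ℓ := by positivity
  apply lg_of_avg hRH hl (by positivity) a k _ hR0 (by positivity : 0 ≤ e * ℓ)
  · -- the four errors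
    have e1 : Real.exp (-((e * ℓ) ^ 2 / 2)) ≤ q := by
      rw [hq]
      apply Real.exp_le_exp.2
      rw [div_le_iff₀ (by positivity)] at h2
      have : (G + η) * ℓ ≤ (e * ℓ) ^ 2 / 2 := by
        have h7 : 2 * (G + η) * ℓ ≤ ℓ * e ^ 2 * ℓ := by gcongr
        nlinarith
      linarith
    have e2 : 4 * Real.exp (-(4 * (G + η + 1) * ℓ / 4)) ≤ q := by
      have h7 : Real.exp (-(4 * (G + η + 1) * ℓ / 4)) = Real.exp (-ℓ) * q := by
        rw [hq, ← Real.exp_add]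
        congr 1
        ring
      rw [h7]
      have h8 : 4 * Real.exp (-ℓ) ≤ 1 := by
        rw [Real.exp_neg, ← div_eq_mul_inv, div_le_one (Real.exp_pos _)]
        rw [zero_mul, zero_add, one_mul] at h6
        exact h6.le
      nlinarith
    have e3 : 2 * ((V / 2 * (4 * (G + η + 1) * ℓ)) ^ k / k.factorial) ≤ q := by
      have h7 : V / 2 * (4 * (G + η + 1) * ℓ) ≤ 2 * (G + η + 1) * ℓ ^ 2 := by
        calc V / 2 * (4 * (G + η + 1) * ℓ) ≤ ℓ / 2 * (4 * (G + η + 1) * ℓ) := by gcongr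
          _ = _ := by ring
      have h8 : 2 * (G + η + 1) * ℓ ^ 2 ≤ Real.exp (-1) * ((k : ℝ) / Real.exp 1) := by
        have h9 : Real.exp (-1) * ((k : ℝ) / Real.exp 1) = k / Real.exp 2 := by
          have h9a : Real.exp 2 = Real.exp 1 * Real.exp 1 := by
            rw [← Real.exp_add]
            norm_num
          rw [h9a, Real.exp_neg, div_eq_mul_inv, div_eq_mul_inv, mul_inv]
          ring
        rw [h9, le_div_iff₀ (Real.exp_pos _)]
        calc 2 * (G + η + 1) * ℓ ^ 2 * Real.exp 2 = (16 * Real.exp 2 * (G + η + 1)) * ℓ ^ 2 / 8 := by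
              ring
          _ ≤ ℓ * ℓ ^ 2 / 8 := by gcongr
          _ = ℓ ^ 3 / 8 := by ring
          _ ≤ k := hk3
      have h9 : (V / 2 * (4 * (G + η + 1) * ℓ)) ^ k / k.factorial ≤ Real.exp (-1) ^ k := by
        rw [div_le_iff₀ (by positivity)]
        calc (V / 2 * (4 * (G + η + 1) * ℓ)) ^ k ≤ (Real.exp (-1) * ((k : ℝ) / Real.exp 1)) ^ k :=
              pow_le_pow_left₀ (by positivity) (h7.trans h8) k
          _ = Real.exp (-1) ^ k * ((k : ℝ) / Real.exp 1) ^ k := mul_pow _ _ _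
          _ ≤ Real.exp (-1) ^ k * k.factorial := by
              gcongr
              exact fac_lower k
      have h10 : Real.exp (-1) ^ k ≤ Real.exp (-1) * q := by
        rw [hq, ← Real.exp_nat_mul, ← Real.exp_add]
        apply Real.exp_le_exp.2
        have h11 : (8 * (G + η) + 8) * ℓ ≤ ℓ ^ 3 := by
          calc (8 * (G + η) + 8) * ℓ ≤ ℓ * ℓ := by gcongr
            _ ≤ ℓ ^ 3 := by nlinarith
        nlinarith
      have h12 : 2 * Real.exp (-1) ≤ 1 := by
        rw [Real.exp_neg, ← div_eq_mul_inv, div_le_one (Real.exp_pos _)]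
        have := Real.exp_one_gt_d9
        linarith
      calc 2 * ((V / 2 * (4 * (G + η + 1) * ℓ)) ^ k / k.factorial) ≤ 2 * (Real.exp (-1) * q) := by
            linarith
        _ = 2 * Real.exp (-1) * q := by ring
        _ ≤ 1 * q := by gcongr
        _ = q := one_mul q
    have e4 : 4 * q < P1 a V := by
      unfold P1
      have hV1 : 0 < 1 + V := by linarith
      have h7 : a ^ 2 / (2 * (1 + V)) ≤ (G + η / 2) * ℓ := by
        rw [div_le_iff₀ (by positivity)]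
        have h8 : a ^ 2 ≤ (lam * ℓ) ^ 2 := by
          rw [← sq_abs]; exact pow_le_pow_left₀ (abs_nonneg _) ha 2
        have h9 : (lam * ℓ) ^ 2 = 2 * G / Real.pi ^ 2 * ℓ ^ 2 := by rw [hG]; field_simp
        have h10 : G ≤ (G + η / 2) * (1 - ι) := by
          have h11 : G * ι ≤ η / 4 := by
            calc G * ι ≤ G * (η / (4 * G)) := by gcongr
              _ = η / 4 := by field_simp
          nlinarith
        calc a ^ 2 ≤ 2 * G / Real.pi ^ 2 * ℓ ^ 2 := by rw [← h9]; exact h8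
          _ ≤ 2 * ((G + η / 2) * (1 - ι)) / Real.pi ^ 2 * ℓ ^ 2 := by gcongr
          _ = (G + η / 2) * ℓ * (2 * ((1 - ι) / Real.pi ^ 2 * ℓ)) := by ring
          _ ≤ (G + η / 2) * ℓ * (2 * (1 + V)) := by
              gcongr
              linarith
      have h8 : Real.exp (-((G + η / 2) * ℓ)) ≤ Real.exp (-(a ^ 2 / (2 * (1 + V)))) :=
        Real.exp_le_exp.2 (by linarith)
      have h9 : 1 / (1 + ℓ) ≤ 1 / Real.sqrt (1 + V) := by
        apply one_div_le_one_div_of_le (Real.sqrt_pos.2 hV1)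
        rw [Real.sqrt_le_left (by linarith)]
        nlinarith
      have h10 : Real.exp (-((G + η / 2) * ℓ)) = Real.exp (η / 2 * ℓ) * q := by
        rw [hq, ← Real.exp_add]
        congr 1
        ring
      calc 4 * q = 1 / (1 + ℓ) * ((4 * ℓ + 4) * q) := by
            field_simp
            ring
        _ < 1 / (1 + ℓ) * (Real.exp (η / 2 * ℓ) * q) := by gcongr
        _ = 1 / (1 + ℓ) * Real.exp (-((G + η / 2) * ℓ)) := by rw [h10]
        _ ≤ 1 / Real.sqrt (1 + V) * Real.exp (-(a ^ 2 / (2 * (1 + V)))) := by gcongr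
    linarith
  · rw [← mul_div_assoc, mul_one, div_lt_one (by positivity)]
    nlinarith

end Pool.Agent.H478.LD
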