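import Pool.Agent.H478.LD2

/-! Moderate and large deviations: the parameters, uniformly in the size of the deviation. -/

open Finset Complex MeasureTheory Filter Topology ProbabilityTheory

namespace Pool.Agent.H478.LD

open Pool.Agent.H478.CW
open Pool.Agent.H478.EX
open Pool.Agent.R321.FA
open SP (ZZ mu Mk RHs)

/-- the exponent -/
noncomputable def Gx (ℓ z : ℝ) : ℝ := Real.pi ^ 2 * z ^ 2 / (2 * ℓ)

lemma Gx_nonneg {ℓ z : ℝ} (hℓ : 0 < ℓ) : 0 ≤ Gx ℓ z := by unfold Gx; positivity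

lemma Gx_ge {ℓ z K : ℝ} (hℓ : 0 < ℓ) (hK : 0 ≤ K) (hz : K * Real.sqrt ℓ ≤ z) : 4 * K ^ 2 ≤ Gx ℓ z := by
  have hpi3 := Real.pi_gt_three
  have h1 : K ^ 2 * ℓ ≤ z ^ 2 := by
    have h2 : (K * Real.sqrt ℓ) ^ 2 ≤ z ^ 2 := pow_le_pow_left₀ (by positivity) hz 2
    rwa [mul_pow, Real.sq_sqrt hℓ.le] at h2
  unfold Gx
  rw [le_div_iff₀ (by positivity)]
  have h3 : 9 ≤ Real.pi ^ 2 := by nlinarith
  calc 4 * K ^ 2 * (2 * ℓ) = 8 * (K ^ 2 * ℓ) := by ring
    _ ≤ 9 * z ^ 2 := by nlinarith [sq_nonneg z]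
    _ ≤ Real.pi ^ 2 * z ^ 2 := by gcongr

lemma pi_sq_le : Real.pi ^ 2 ≤ 10 := by
  have h1 := Real.pi_lt_d2
  have h2 := Real.pi_pos
  nlinarith

lemma Gx_le {ℓ z : ℝ} (hℓ : 0 < ℓ) : Gx ℓ z ≤ 5 * (z ^ 2 / ℓ) := by
  unfold Gx
  have h := pi_sq_le
  have h1 : 0 ≤ z ^ 2 / ℓ := by positivity
  calc Real.pi ^ 2 * z ^ 2 / (2 * ℓ) = Real.pi ^ 2 / 2 * (z ^ 2 / ℓ) := by field_simp
    _ ≤ 5 * (z ^ 2 / ℓ) := by nlinarith

lemma sq_log : ∀ᶠ ℓ : ℝ in atTop, Real.log ℓ ^ 2 ≤ ℓ := by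
  have h := (Real.isLittleO_pow_log_id_atTop (n := 2)).def one_pos
  filter_upwards [h, eventually_ge_atTop 1] with ℓ h1 h2
  simp only [id, Real.norm_eq_abs, one_mul] at h1
  rw [abs_of_nonneg (by positivity : (0 : ℝ) ≤ ℓ)] at h1
  exact (le_abs_self _).trans h1

/-- statistics of small variance at the scale of the deviation -/
lemma small_tail (hRH : RHs) {e C : ℝ} (he : 0 < e) (hC : 0 < C) :
    ∀ᶠ ℓ : ℝ in atTop, ∀ z, Real.sqrt ℓ ≤ z → z ≤ e / (512 * C) * ℓ * Real.log ℓ →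
      ∀ l, Good l (4 / (e * z)) → kv l ≤ 1 + 4 * Real.log ℓ →
      Sm (fun T t => |stt l (4 / (e * z)) T t| < e * z) (Real.exp (-(C * (z ^ 2 / ℓ)))) := by
  filter_upwards [Real.tendsto_log_atTop.eventually_ge_atTop 128,
    Real.tendsto_sqrt_atTop.eventually_ge_atTop (32 / e), eventually_ge_atTop 1,
    Real.tendsto_log_atTop.eventually (lin_exp (4 / (8 * e)) (1 / (8 * e))
      (by norm_num : (0 : ℝ) < 1 / 4))] with ℓ hu hsq h1 hlin
  intro z hz1 hz2 l hl hkv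
  have hℓ0 : 0 < ℓ := by linarith
  set u := Real.log ℓ with hu_def
  have hs0 : 0 < Real.sqrt ℓ := Real.sqrt_pos.2 hℓ0
  have hz0 : 0 < z := by linarith
  have hez : 32 ≤ e * z := by
    rw [div_le_iff₀ he] at hsq
    nlinarith
  set k := ⌊e * z / 16⌋₊ with hk
  have hk1 : (k : ℝ) ≤ e * z / 16 := Nat.floor_le (by positivity)
  have hk2 : e * z / 16 - 1 < k := by
    have := Nat.lt_floor_add_one (e * z / 16)
    linarith
  have hk3 : e * z / 32 ≤ k := by linarith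
  have hk4 : 1 ≤ k := by
    have : (0 : ℝ) < k := by linarith
    exact_mod_cast this
  have hexpu : Real.exp (u / 2) = Real.sqrt ℓ := by
    rw [hu_def, Real.exp_half, Real.exp_log hℓ0]
  refine tail' (ρ := Real.exp (-(u / 4))) (κ := 1 + 4 * u) hRH hl (by positivity) hk4 ?_
    (by positivity) hkv ?_ ?_
  · calc 2 * (k : ℝ) * (4 / (e * z)) ≤ 2 * (e * z / 16) * (4 / (e * z)) := by gcongr
      _ = 1 / 2 := by field_simp; norm_num
      _ < 1 := by norm_num
  · have h2 : (1 + 4 * u) / (8 * e) ≤ Real.exp (u / 4) := by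
      have : 4 / (8 * e) * u + 1 / (8 * e) = (1 + 4 * u) / (8 * e) := by ring
      rw [this, show 1 / 4 * u = u / 4 by ring] at hlin
      exact hlin.le
    rw [div_le_iff₀ (by positivity)] at h2
    have h3 : Real.exp (u / 4) = Real.exp (-(u / 4)) * Real.exp (u / 2) := by
      rw [← Real.exp_add]; congr 1; ring
    have h6 : (1 : ℝ) ≤ Real.exp 1 := Real.one_le_exp (by norm_num)
    calc 2 * (k : ℝ) * (1 + 4 * u) ≤ 2 * (e * z / 16) * (Real.exp (u / 4) * (8 * e)) := by gcongr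
      _ = e * z * e * (Real.exp (-(u / 4)) * Real.exp (u / 2)) := by rw [h3]; ring
      _ ≤ e * z * e * (Real.exp (-(u / 4)) * z) := by rw [hexpu]; gcongr
      _ = 1 * (Real.exp (-(u / 4)) * (e * z) ^ 2) := by ring
      _ ≤ Real.exp 1 * (Real.exp (-(u / 4)) * (e * z) ^ 2) := by gcongr
      _ = _ := by ring
  · have h2 : C * (z ^ 2 / ℓ) ≤ e * z * u / 512 := by
      rw [mul_div_assoc', div_le_iff₀ hℓ0]
      have : z * z ≤ z * (e / (512 * C) * ℓ * u) := by gcongr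
      calc C * z ^ 2 = C * (z * z) := by ring
        _ ≤ C * (z * (e / (512 * C) * ℓ * u)) := by gcongr
        _ = e * z * u / 512 * ℓ := by field_simp
    have h3 : Real.exp (-(u / 4)) ^ k ≤ Real.exp (-(e * z * u / 128)) := by
      rw [← Real.exp_nat_mul]
      apply Real.exp_le_exp.2
      have : e * z / 32 * (u / 4) ≤ k * (u / 4) := by gcongr
      have e2 : e * z / 32 * (u / 4) = e * z * u / 128 := by ring
      linarith
    have h4 : 2 * Real.exp 1 * (k : ℝ) < Real.exp (e * z * u / 256) := by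
      have a1 : Real.exp 1 < 3 := by have := Real.exp_one_lt_d9; linarith
      have a2 : 2 * Real.exp 1 * (k : ℝ) ≤ 2 * 3 * (e * z / 16) := by gcongr
      have a3 : e * z / 2 < Real.exp (e * z / 2) := by
        have := Real.add_one_le_exp (e * z / 2)
        linarith
      have a4 : e * z / 2 ≤ e * z * u / 256 := by nlinarith
      have a5 := Real.exp_le_exp.2 a4
      linarith
    calc 2 * Real.exp 1 * (k : ℝ) * Real.exp (-(u / 4)) ^ k ≤
        2 * Real.exp 1 * (k : ℝ) * Real.exp (-(e * z * u / 128)) := by gcongr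
      _ < Real.exp (e * z * u / 256) * Real.exp (-(e * z * u / 128)) := by gcongr
      _ = Real.exp (-(e * z * u / 256)) := by rw [← Real.exp_add]; congr 1; ring
      _ ≤ _ := by
          apply Real.exp_le_exp.2
          have : 0 ≤ e * z * u := by positivity
          linarith

/-- **the upper bound** for the main statistic, uniformly in the deviation -/
lemma up_tail (hRH : RHs) {ε : ℝ} (hε : 0 < ε) (hε1 : ε ≤ 1) : ∃ K : ℝ, 1 ≤ K ∧
    ∀ᶠ ℓ : ℝ in atTop, ∀ z, K * Real.sqrt ℓ ≤ z → z ≤ ℓ * Real.log ℓ →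
      ∀ l, Good l (1 / ℓ ^ 3) → kv l ≤ (1 + ε / 4) / Real.pi ^ 2 * ℓ →
      Sm (fun T t => |stt l (1 / ℓ ^ 3) T t| < z) (Real.exp (-((1 - ε) * Gx ℓ z))) := by
  have hpi := Real.pi_pos
  obtain ⟨g0, hg0⟩ := eventually_atTop.1 (lin_exp (2 * Real.exp 3) (2 * Real.exp 3)
    (by positivity : 0 < 3 * ε / 4))
  refine ⟨max 1 g0, le_max_left _ _, ?_⟩
  filter_upwards [sq_log, eventually_ge_atTop 12] with ℓ hlog h12
  intro z hz1 hz2 l hl hkv
  have hℓ0 : 0 < ℓ := by linarith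
  have hK1 : 1 ≤ max 1 g0 := le_max_left _ _
  have hs0 : 0 < Real.sqrt ℓ := Real.sqrt_pos.2 hℓ0
  have hz0 : 0 < z := by nlinarith
  have hG := Gx_ge hℓ0 (by linarith) hz1
  have hG2 := Gx_le (z := z) hℓ0
  set G := Gx ℓ z with hGdef
  have hG0 : 0 < G := by nlinarith
  set κ := (1 + ε / 4) / Real.pi ^ 2 * ℓ with hκ
  have hκ0 : 0 < κ := by positivity
  set g := z ^ 2 / (2 * κ) with hg
  have hgG : G = (1 + ε / 4) * g := by
    rw [hg, hκ, hGdef]; unfold Gx; field_simp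
  have hgpos : 0 < g := by positivity
  have hgle : g ≤ G := by nlinarith
  have hgK : max 1 g0 ≤ g := by
    have h1 : G ≤ 5 / 4 * g := by nlinarith
    nlinarith
  have hg1 : 1 ≤ g := hK1.trans hgK
  have hz3 : z ^ 2 / ℓ ≤ ℓ ^ 2 := by
    rw [div_le_iff₀ hℓ0]
    have h1 : z ^ 2 ≤ (ℓ * Real.log ℓ) ^ 2 := pow_le_pow_left₀ hz0.le hz2 2
    calc z ^ 2 ≤ ℓ ^ 2 * Real.log ℓ ^ 2 := by rw [← mul_pow]; exact h1
      _ ≤ ℓ ^ 2 * ℓ := by gcongr
  set k := ⌈g⌉₊ with hk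
  have hk1 : g ≤ k := Nat.le_ceil _
  have hk2 : (k : ℝ) < g + 1 := Nat.ceil_lt_add_one hgpos.le
  have hk4 : 1 ≤ k := by
    have : (0 : ℝ) < k := by linarith
    exact_mod_cast this
  refine tail' (ρ := (1 + 1 / g) * Real.exp (-1)) (κ := κ) hRH hl
    (by positivity) hk4 ?_ hz0 hkv ?_ ?_
  · rw [← mul_div_assoc, mul_one, div_lt_one (by positivity)]
    have h1 : 2 * (k : ℝ) < 2 * (5 * ℓ ^ 2 + 1) := by linarith
    have h2 : 2 * (5 * ℓ ^ 2 + 1) ≤ ℓ ^ 3 := by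
      have : 12 * ℓ ^ 2 ≤ ℓ ^ 3 := by
        calc 12 * ℓ ^ 2 ≤ ℓ * ℓ ^ 2 := by gcongr
          _ = ℓ ^ 3 := by ring
      nlinarith
    linarith
  · have h5 : Real.exp 1 * ((1 + 1 / g) * Real.exp (-1)) * z ^ 2 = (1 + 1 / g) * z ^ 2 := by
      rw [Real.exp_neg]
      field_simp
    rw [h5]
    have h6 : 2 * g * κ = z ^ 2 := by rw [hg]; field_simp
    calc 2 * (k : ℝ) * κ ≤ 2 * (g + 1) * κ := by gcongr
      _ = (1 + 1 / g) * (2 * g * κ) := by field_simp
      _ = (1 + 1 / g) * z ^ 2 := by rw [h6]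
  · have h5 : ((1 + 1 / g) * Real.exp (-1)) ^ k ≤ Real.exp 2 * Real.exp (-g) := by
      rw [mul_pow]
      have h6 : (1 + 1 / g) ^ k ≤ Real.exp 2 := by
        have h7 : 1 + 1 / g ≤ Real.exp (1 / g) := by
          have := Real.add_one_le_exp (1 / g)
          linarith
        calc (1 + 1 / g) ^ k ≤ Real.exp (1 / g) ^ k :=
              pow_le_pow_left₀ (by positivity) h7 k
          _ = Real.exp (k * (1 / g)) := by rw [← Real.exp_nat_mul]
          _ ≤ Real.exp 2 := by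
              apply Real.exp_le_exp.2
              rw [mul_one_div, div_le_iff₀ (by positivity)]
              linarith
      have h7 : Real.exp (-1) ^ k ≤ Real.exp (-g) := by
        rw [← Real.exp_nat_mul]
        apply Real.exp_le_exp.2
        linarith
      gcongr
    have h3 : Real.exp 3 = Real.exp 1 * Real.exp 2 := by
      rw [← Real.exp_add]; norm_num
    have h4 := hg0 g ((le_max_right _ _).trans hgK)
    calc 2 * Real.exp 1 * (k : ℝ) * ((1 + 1 / g) * Real.exp (-1)) ^ k ≤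
        2 * Real.exp 1 * (g + 1) * (Real.exp 2 * Real.exp (-g)) := by gcongr
      _ = (2 * Real.exp 3 * g + 2 * Real.exp 3) * Real.exp (-g) := by rw [h3]; ring
      _ < Real.exp (3 * ε / 4 * g) * Real.exp (-g) := by gcongr
      _ ≤ _ := by
          rw [← Real.exp_add]
          apply Real.exp_le_exp.2
          rw [hgG]
          nlinarith

/-- **the lower bound** for the main statistic, uniformly in the deviation -/
lemma low_tail (hRH : RHs) {ε e : ℝ} (hε : 0 < ε) (hε1 : ε ≤ 1) (he : 0 < e) (he1 : e ≤ 1) :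
    ∃ K : ℝ, 1 ≤ K ∧ ∀ᶠ ℓ : ℝ in atTop, ∀ z, K * Real.sqrt ℓ ≤ z → z ≤ ℓ * Real.log ℓ →
      ∀ l, Good l (1 / ℓ ^ 3) → (1 - ε / 4) / Real.pi ^ 2 * ℓ ≤ kv l → kv l ≤ ℓ → ∀ a, |a| ≤ z →
      Lg (fun T t => |stt l (1 / ℓ ^ 3) T t - a| ≤ e * z) (Real.exp (-((1 + ε) * Gx ℓ z))) := by
  have hpi := Real.pi_pos
  have hpi2 := pi_sq_le
  refine ⟨1 + 104 / (e ^ 2 * ε), by
    have : 0 ≤ 104 / (e ^ 2 * ε) := by positivity
    linarith, ?_⟩
  filter_upwards [sq_log, eventually_ge_atTop 88,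
    eventually_ge_atTop (600 * 8 * Real.exp 2 / e ^ 2)] with ℓ hlog h88 hbig
  intro z hz1 hz2 l hl hkv1 hkv2 a ha
  have hℓ0 : 0 < ℓ := by linarith
  have hK0 : 0 < 104 / (e ^ 2 * ε) := by positivity
  set K := 1 + 104 / (e ^ 2 * ε) with hK
  have hK1 : 1 ≤ K := by linarith
  have hs0 : 0 < Real.sqrt ℓ := Real.sqrt_pos.2 hℓ0
  have hz0 : 0 < z := by nlinarith
  have hG := Gx_ge hℓ0 (by linarith) hz1
  have hG2 := Gx_le (z := z) hℓ0
  set G := Gx ℓ z with hGdef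
  have hG0 : 0 < G := by nlinarith
  have hV0 := kv_nonneg l
  set V := kv l with hV
  set q := Real.exp (-((1 + ε) * G)) with hq
  have hq0 : 0 < q := Real.exp_pos _
  have hz3 : z ^ 2 / ℓ ≤ ℓ ^ 2 := by
    rw [div_le_iff₀ hℓ0]
    have h1 : z ^ 2 ≤ (ℓ * Real.log ℓ) ^ 2 := pow_le_pow_left₀ hz0.le hz2 2
    calc z ^ 2 ≤ ℓ ^ 2 * Real.log ℓ ^ 2 := by rw [← mul_pow]; exact h1
      _ ≤ ℓ ^ 2 * ℓ := by gcongr
  have hGℓ : G ≤ 5 * ℓ ^ 2 := hG2.trans (by linarith)
  set σ := e / 5 * Real.sqrt ℓ with hσ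
  have hσ0 : 0 < σ := by positivity
  have hσ2 : σ ^ 2 = e ^ 2 / 25 * ℓ := by
    rw [hσ, mul_pow, Real.sq_sqrt hℓ0.le]; ring
  set k := ⌊ℓ ^ 3 / 4⌋₊ with hk
  have hk1 : (k : ℝ) ≤ ℓ ^ 3 / 4 := Nat.floor_le (by positivity)
  have hk2 : ℓ ^ 3 / 4 - 1 < k := by
    have := Nat.lt_floor_add_one (ℓ ^ 3 / 4)
    linarith
  have hℓ3 : 88 * ℓ ^ 2 ≤ ℓ ^ 3 := by
    calc 88 * ℓ ^ 2 ≤ ℓ * ℓ ^ 2 := by gcongr
      _ = ℓ ^ 3 := by ring
  have hℓ2 : 1 ≤ ℓ ^ 2 := by nlinarith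
  have hk3 : ℓ ^ 3 / 8 ≤ k := by linarith
  have hkpos : (0 : ℝ) < k := by nlinarith
  have hV'0 : 0 ≤ V / σ ^ 2 := by positivity
  have hkvs : kv (scl (1 / σ) l) = V / σ ^ 2 := by rw [kv_scl, ← hV]; field_simp
  have hV' : V / σ ^ 2 ≤ 25 / e ^ 2 := by
    rw [hσ2, div_le_div_iff₀ (by positivity) (by positivity)]
    calc V * e ^ 2 ≤ ℓ * e ^ 2 := by gcongr
      _ = 25 * (e ^ 2 / 25 * ℓ) := by ring
  have hR0 : 0 ≤ 4 * ((1 + ε) * G + 2) := by positivity
  have hmain := lg_of_avg hRH (hl.scl (1 / σ)) (by positivity : 0 < 1 / ℓ ^ 3) (a / σ) k (by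
      rw [← mul_div_assoc, mul_one, div_lt_one (by positivity)]
      have : 0 < ℓ ^ 3 := by positivity
      linarith) hR0 (by positivity : 0 ≤ e * z / σ) (q := q) (by
    rw [hkvs]
    have e1 : Real.exp (-((e * z / σ) ^ 2 / 2)) ≤ q := by
      rw [hq]
      apply Real.exp_le_exp.2
      have h1 : (e * z / σ) ^ 2 / 2 = 25 * z ^ 2 / (2 * ℓ) := by
        rw [div_pow, hσ2]; field_simp
      have h2 : (1 + ε) * G ≤ 25 * z ^ 2 / (2 * ℓ) := by
        rw [hGdef]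
        unfold Gx
        rw [← mul_div_assoc]
        apply div_le_div_of_nonneg_right _ (by positivity)
        have h3 : (1 + ε) * Real.pi ^ 2 ≤ 2 * 10 := by gcongr; linarith
        have h4 : 0 ≤ z ^ 2 := sq_nonneg z
        nlinarith
      linarith
    have e2 : 4 * Real.exp (-(4 * ((1 + ε) * G + 2) / 4)) ≤ q := by
      have h7 : Real.exp (-(4 * ((1 + ε) * G + 2) / 4)) = Real.exp (-2) * q := by
        rw [hq, ← Real.exp_add]
        congr 1
        ring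
      rw [h7]
      have h8 : 4 * Real.exp (-2) ≤ 1 := by
        rw [Real.exp_neg, ← div_eq_mul_inv, div_le_one (Real.exp_pos _)]
        have h9 : Real.exp 2 = Real.exp 1 * Real.exp 1 := by rw [← Real.exp_add]; norm_num
        have h10 := Real.exp_one_gt_d9
        rw [h9]
        nlinarith
      nlinarith
    have e3 : 2 * ((V / σ ^ 2 / 2 * (4 * ((1 + ε) * G + 2))) ^ k / k.factorial) ≤ q := by
      have h7 : V / σ ^ 2 / 2 * (4 * ((1 + ε) * G + 2)) ≤ 600 / e ^ 2 * ℓ ^ 2 := by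
        have h8 : (1 + ε) * G + 2 ≤ 12 * ℓ ^ 2 := by nlinarith
        calc V / σ ^ 2 / 2 * (4 * ((1 + ε) * G + 2)) ≤ 25 / e ^ 2 / 2 * (4 * (12 * ℓ ^ 2)) := by gcongr
          _ = _ := by ring
      have h8 : 600 / e ^ 2 * ℓ ^ 2 ≤ Real.exp (-1) * ((k : ℝ) / Real.exp 1) := by
        have h9 : Real.exp (-1) * ((k : ℝ) / Real.exp 1) = k / Real.exp 2 := by
          have h9a : Real.exp 2 = Real.exp 1 * Real.exp 1 := by
            rw [← Real.exp_add]
            norm_num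
          rw [h9a, Real.exp_neg, div_eq_mul_inv, div_eq_mul_inv, mul_inv]
          ring
        rw [h9, le_div_iff₀ (Real.exp_pos _)]
        calc 600 / e ^ 2 * ℓ ^ 2 * Real.exp 2 = (600 * 8 * Real.exp 2 / e ^ 2) * ℓ ^ 2 / 8 := by
              ring
          _ ≤ ℓ * ℓ ^ 2 / 8 := by gcongr
          _ = ℓ ^ 3 / 8 := by ring
          _ ≤ k := hk3
      have h9 : (V / σ ^ 2 / 2 * (4 * ((1 + ε) * G + 2))) ^ k / k.factorial ≤ Real.exp (-1) ^ k := by
        rw [div_le_iff₀ (by positivity)]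
        calc (V / σ ^ 2 / 2 * (4 * ((1 + ε) * G + 2))) ^ k ≤
            (Real.exp (-1) * ((k : ℝ) / Real.exp 1)) ^ k :=
              pow_le_pow_left₀ (by positivity) (h7.trans h8) k
          _ = Real.exp (-1) ^ k * ((k : ℝ) / Real.exp 1) ^ k := mul_pow _ _ _
          _ ≤ Real.exp (-1) ^ k * k.factorial := by
              gcongr
              exact fac_lower k
      have h10 : Real.exp (-1) ^ k ≤ Real.exp (-1) * q := by
        rw [hq, ← Real.exp_nat_mul, ← Real.exp_add]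
        apply Real.exp_le_exp.2
        have h11 : (1 + ε) * G ≤ 10 * ℓ ^ 2 := by nlinarith
        linarith
      have h12 : 2 * Real.exp (-1) ≤ 1 := by
        rw [Real.exp_neg, ← div_eq_mul_inv, div_le_one (Real.exp_pos _)]
        have := Real.exp_one_gt_d9
        linarith
      calc 2 * ((V / σ ^ 2 / 2 * (4 * ((1 + ε) * G + 2))) ^ k / k.factorial) ≤
          2 * (Real.exp (-1) * q) := by linarith
        _ = 2 * Real.exp (-1) * q := by ring
        _ ≤ 1 * q := by gcongr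
        _ = q := one_mul q
    have e4 : 4 * q < P1 (a / σ) (V / σ ^ 2) := by
      unfold P1
      have hV1 : 0 < 1 + V / σ ^ 2 := by linarith
      have h7 : (a / σ) ^ 2 / (2 * (1 + V / σ ^ 2)) ≤ (1 + ε / 2) * G := by
        have h8 : (a / σ) ^ 2 / (2 * (1 + V / σ ^ 2)) = a ^ 2 / (2 * (σ ^ 2 + V)) := by
          field_simp
        rw [h8, div_le_iff₀ (by positivity)]
        have h9 : a ^ 2 ≤ z ^ 2 := by
          rw [← sq_abs]; exact pow_le_pow_left₀ (abs_nonneg _) ha 2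
        have h10 : 1 ≤ (1 + ε / 2) * (1 - ε / 4) := by nlinarith
        have h11 : z ^ 2 = G * (2 * (1 / Real.pi ^ 2 * ℓ)) := by
          rw [hGdef]; unfold Gx; field_simp
        calc a ^ 2 ≤ z ^ 2 := h9
          _ = 1 * (G * (2 * (1 / Real.pi ^ 2 * ℓ))) := by rw [one_mul]; exact h11
          _ ≤ ((1 + ε / 2) * (1 - ε / 4)) * (G * (2 * (1 / Real.pi ^ 2 * ℓ))) := by gcongr
          _ = (1 + ε / 2) * G * (2 * ((1 - ε / 4) / Real.pi ^ 2 * ℓ)) := by ring
          _ ≤ (1 + ε / 2) * G * (2 * (σ ^ 2 + V)) := by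
              have : 0 ≤ σ ^ 2 := sq_nonneg σ
              gcongr
              linarith
      have h8 : Real.exp (-((1 + ε / 2) * G)) ≤ Real.exp (-((a / σ) ^ 2 / (2 * (1 + V / σ ^ 2)))) :=
        Real.exp_le_exp.2 (by linarith)
      have h9 : e ^ 2 / 26 ≤ 1 / Real.sqrt (1 + V / σ ^ 2) := by
        rw [le_div_iff₀ (Real.sqrt_pos.2 hV1)]
        have a1 : Real.sqrt (1 + V / σ ^ 2) ≤ 26 / e ^ 2 := by
          rw [Real.sqrt_le_left (by positivity)]
          have a2 : 1 + V / σ ^ 2 ≤ 26 / e ^ 2 := by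
            have : 1 ≤ 1 / e ^ 2 := by rw [le_div_iff₀ (by positivity)]; nlinarith
            have a3 : (26 : ℝ) / e ^ 2 = 25 / e ^ 2 + 1 / e ^ 2 := by ring
            linarith
          have a4 : 1 ≤ 26 / e ^ 2 := by linarith
          nlinarith
        calc e ^ 2 / 26 * Real.sqrt (1 + V / σ ^ 2) ≤ e ^ 2 / 26 * (26 / e ^ 2) := by gcongr
          _ = 1 := by field_simp
      have h10 : Real.exp (-((1 + ε / 2) * G)) = Real.exp (ε / 2 * G) * q := by
        rw [hq, ← Real.exp_add]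
        congr 1
        ring
      have h11 : 104 / e ^ 2 < Real.exp (ε / 2 * G) := by
        have a1 := Real.add_one_le_exp (ε / 2 * G)
        have a2 : 104 / e ^ 2 ≤ ε * K := by
          have : 104 / e ^ 2 = ε * (104 / (e ^ 2 * ε)) := by field_simp
          rw [this]
          have : 104 / (e ^ 2 * ε) ≤ K := by linarith
          gcongr
        have a3 : ε * K ≤ ε / 2 * G := by
          have : 2 * K ≤ G := by nlinarith
          calc ε * K = ε / 2 * (2 * K) := by ring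
            _ ≤ ε / 2 * G := by gcongr
        linarith
      calc 4 * q = e ^ 2 / 26 * (104 / e ^ 2 * q) := by field_simp; ring
        _ < e ^ 2 / 26 * (Real.exp (ε / 2 * G) * q) := by gcongr
        _ = e ^ 2 / 26 * Real.exp (-((1 + ε / 2) * G)) := by rw [h10]
        _ ≤ 1 / Real.sqrt (1 + V / σ ^ 2) * Real.exp (-((a / σ) ^ 2 / (2 * (1 + V / σ ^ 2)))) := by
            gcongr
    linarith)
  refine hmain.mono (Eventually.of_forall fun T t _ _ h => ?_)
  rw [stt_scl] at h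
  have h1 : 1 / σ * stt l (1 / ℓ ^ 3) T t - a / σ = (stt l (1 / ℓ ^ 3) T t - a) / σ := by ring
  rw [h1, abs_div, abs_of_pos hσ0, div_le_div_iff_of_pos_right hσ0] at h
  exact h

end Pool.Agent.H478.LD
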