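import Pool.Agent.H478.LD3

/-! The variance of the smooth count; the number of zeros in windows of length `K`. -/

open Finset Complex MeasureTheory Filter Topology ProbabilityTheory

namespace Pool.Agent.H478.LD

open Pool.Agent.H478.CW
open Pool.Agent.H478.EX
open Pool.Agent.R321.FA
open SP (ZZ mu Mk RHs)

/-- **the variance of the smooth count** -/
lemma cntl_kv {δ x : ℝ} : kv (cntl δ x) = Wf δ x / Real.pi ^ 2 := by
  have hpi := Real.pi_pos
  have e0 : kv (cntl δ x) = ∫ v in (0 : ℝ)..1, 2 * (v * ‖tf (cntl δ x) v‖ ^ 2) := by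
    unfold kv
    rw [intervalIntegral.integral_const_mul]
  rw [e0]
  unfold Wf
  rw [← intervalIntegral.integral_div, intervalIntegral.integral_of_le zero_le_one,
    intervalIntegral.integral_of_le zero_le_one]
  refine setIntegral_congr_fun measurableSet_Ioc fun v hv => ?_
  have hv0 : 0 < v := hv.1
  show 2 * (v * ‖tf (cntl δ x) v‖ ^ 2) = fb (v / δ) ^ 2 * gc (2 * Real.pi * x) v / Real.pi ^ 2
  have e1 : tf (cntl δ x) v = (cexp (((2 * Real.pi * x * v : ℝ) : ℂ) * I) - 1) *
      (-I * ((fb (v / δ) * (1 / (2 * Real.pi * v)) : ℝ) : ℂ)) := by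
    rw [cntl_tf hv0]
    push_cast
    ring
  rw [e1, norm_mul, norm_mul, norm_neg, Complex.norm_I, one_mul, Complex.norm_real, mul_pow,
    norm_e1, Real.norm_eq_abs, sq_abs]
  unfold gc
  field_simp

lemma Wf_small {δ x : ℝ} (hδ : 0 < δ) (hδ1 : δ ≤ 1) : Wf δ x ≤ Real.pi ^ 2 * x ^ 2 * δ ^ 2 := by
  have hpi := Real.pi_pos
  unfold Wf
  rw [← intervalIntegral.integral_add_adjacent_intervals (Wf_int δ x 0 δ) (Wf_int δ x δ 1)]
  have h3 : ∫ v in δ..1, fb (v / δ) ^ 2 * gc (2 * Real.pi * x) v = 0 := by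
    rw [← intervalIntegral.integral_zero (a := δ) (b := 1) (μ := volume)]
    apply intervalIntegral.integral_congr
    intro v hv
    rw [Set.uIcc_of_le hδ1] at hv
    show fb (v / δ) ^ 2 * _ = 0
    rw [pf_zero hδ v (by rw [abs_of_nonneg (hδ.le.trans hv.1)]; exact hv.1)]
    ring
  rw [h3, add_zero]
  calc ∫ v in (0 : ℝ)..δ, fb (v / δ) ^ 2 * gc (2 * Real.pi * x) v ≤
      ∫ v in (0 : ℝ)..δ, 2 * Real.pi ^ 2 * x ^ 2 * v := by
        apply intervalIntegral.integral_mono_on hδ.le (Wf_int δ x 0 δ)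
          ((by fun_prop : Continuous fun v : ℝ => 2 * Real.pi ^ 2 * x ^ 2 * v).intervalIntegrable _ _)
        intro v hv
        have a1 := gc_le (2 * Real.pi * x) hv.1
        have a2 : fb (v / δ) ^ 2 ≤ 1 := pow_le_one₀ (fb_nonneg _) (fb_le _)
        have a3 := gc_nonneg (2 * Real.pi * x) hv.1
        calc fb (v / δ) ^ 2 * gc (2 * Real.pi * x) v ≤ 1 * ((2 * Real.pi * x) ^ 2 * v / 2) := by
              gcongr
          _ = _ := by ring
    _ = Real.pi ^ 2 * x ^ 2 * δ ^ 2 := by
        rw [intervalIntegral.integral_const_mul, integral_id]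
        ring

/-- statistics of variance at most `A ^ 2` and band `A / K` -/
lemma quarter_tail (hRH : RHs) {A : ℝ} (hA : 1 ≤ A) : ∀ᶠ K : ℝ in atTop, ∀ l, Good l (A / K) →
    kv l ≤ A ^ 2 → Sm (fun T t => |stt l (A / K) T t| < K / A)
      (Real.exp (-(K * Real.log K / (32 * A)))) := by
  have hA0 : 0 < A := by linarith
  filter_upwards [eventually_ge_atTop (16 * A), eventually_ge_atTop (A ^ 6),
    Real.tendsto_log_atTop.eventually_ge_atTop (64 * A), eventually_gt_atTop 0] with K h1 h2 h3 hK0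
  intro l hl hkv
  set k := ⌊K / (4 * A)⌋₊ with hk
  have hk1 : (k : ℝ) ≤ K / (4 * A) := Nat.floor_le (by positivity)
  have hk2 : K / (4 * A) - 1 < k := by
    have := Nat.lt_floor_add_one (K / (4 * A))
    linarith
  have h4 : 2 ≤ K / (8 * A) := by rw [le_div_iff₀ (by positivity)]; linarith
  have h5 : K / (4 * A) = 2 * (K / (8 * A)) := by field_simp; ring
  have hk3 : K / (8 * A) ≤ k := by linarith
  have hk4 : 1 ≤ k := by
    have : (0 : ℝ) < k := by linarith
    exact_mod_cast this
  refine tail' (ρ := A ^ 3 / K) (κ := A ^ 2) hRH hl (by positivity) hk4 ?_ (by positivity) hkv ?_ ?_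
  · calc 2 * (k : ℝ) * (A / K) ≤ 2 * (K / (4 * A)) * (A / K) := by gcongr
      _ = 1 / 2 := by field_simp; norm_num
      _ < 1 := by norm_num
  · have h6 : (1 : ℝ) ≤ Real.exp 1 := Real.one_le_exp (by norm_num)
    calc 2 * (k : ℝ) * A ^ 2 ≤ 2 * (K / (4 * A)) * A ^ 2 := by gcongr
      _ = 1 / 2 * (A * K) := by field_simp; ring
      _ ≤ Real.exp 1 * (A * K) := by gcongr; linarith
      _ = _ := by field_simp
  · have h6 : (A ^ 3 / K) ≤ Real.exp (-(Real.log K / 2)) := by
      have a1 : Real.exp (Real.log K / 2) = Real.sqrt K := by rw [Real.exp_half, Real.exp_log hK0]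
      have a2 : A ^ 3 ≤ Real.sqrt K := by
        apply Real.le_sqrt_of_sq_le
        calc (A ^ 3) ^ 2 = A ^ 6 := by ring
          _ ≤ K := h2
      rw [Real.exp_neg, a1, div_le_iff₀ hK0]
      have a3 : 0 < Real.sqrt K := Real.sqrt_pos.2 hK0
      have a4 : (Real.sqrt K)⁻¹ * K = Real.sqrt K := by
        field_simp
        exact (Real.sq_sqrt hK0.le).symm
      rw [a4]; exact a2
    have h7 : (A ^ 3 / K) ^ k ≤ Real.exp (-(K * Real.log K / (16 * A))) := by
      calc (A ^ 3 / K) ^ k ≤ Real.exp (-(Real.log K / 2)) ^ k :=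
            pow_le_pow_left₀ (by positivity) h6 k
        _ = Real.exp (k * -(Real.log K / 2)) := by rw [← Real.exp_nat_mul]
        _ ≤ _ := by
            apply Real.exp_le_exp.2
            have hlog : 0 ≤ Real.log K := by nlinarith
            have : K / (8 * A) * (Real.log K / 2) ≤ k * (Real.log K / 2) := by gcongr
            have e2 : K / (8 * A) * (Real.log K / 2) = K * Real.log K / (16 * A) := by
              field_simp
              ring
            linarith
    have h8 : 2 * Real.exp 1 * (k : ℝ) < Real.exp (K * Real.log K / (32 * A)) := by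
      have a1 : Real.exp 1 < 3 := by have := Real.exp_one_lt_d9; linarith
      have a2 : 2 * Real.exp 1 * (k : ℝ) ≤ 2 * 3 * (K / (4 * A)) := by gcongr
      have a3 : K / (4 * A) ≤ K / 4 := by
        apply div_le_div_of_nonneg_left hK0.le (by norm_num) (by linarith)
      have a4 : 2 * K < Real.exp (2 * K) := by
        have := Real.add_one_le_exp (2 * K)
        linarith
      have a5 : 2 * K ≤ K * Real.log K / (32 * A) := by
        rw [le_div_iff₀ (by positivity)]
        calc 2 * K * (32 * A) = K * (64 * A) := by ring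
          _ ≤ K * Real.log K := by gcongr
      have a6 := Real.exp_le_exp.2 a5
      linarith
    calc 2 * Real.exp 1 * (k : ℝ) * (A ^ 3 / K) ^ k ≤
        2 * Real.exp 1 * (k : ℝ) * Real.exp (-(K * Real.log K / (16 * A))) := by gcongr
      _ < Real.exp (K * Real.log K / (32 * A)) * Real.exp (-(K * Real.log K / (16 * A))) := by gcongr
      _ = _ := by rw [← Real.exp_add]; congr 1; field_simp; ring

/-- **windows of length `K`** contain between `K / 2` and `3 K / 2` zeros, outside a very small set -/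
theorem nc_half (hRH : RHs) : ∃ c : ℝ, 0 < c ∧ ∀ᶠ K : ℝ in atTop,
    Sm (fun T t => |nc T t K - K| ≤ K / 2) (Real.exp (-(c * (K * Real.log K)))) := by
  have hC := C1_pos
  set A : ℝ := 32 * C1 + 8 with hA
  have hA8 : 8 ≤ A := by linarith
  have hA0 : 0 < A := by linarith
  refine ⟨1 / (64 * A), by positivity, ?_⟩
  filter_upwards [quarter_tail hRH (by linarith : 1 ≤ A), eventually_ge_atTop (max A 8),
    Real.tendsto_log_atTop.eventually_ge_atTop (64 * A * 5)] with K hq hKA hlog
  have hKA' : A ≤ K := (le_max_left _ _).trans hKA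
  have hK8 : 8 ≤ K := (le_max_right _ _).trans hKA
  have hK0 : 0 < K := by linarith
  set δ := A / K with hδ
  have hδ0 : 0 < δ := by positivity
  have hδ1 : δ ≤ 1 := by rw [hδ, div_le_one hK0]; exact hKA'
  have hA2 : 1 ≤ A ^ 2 := by nlinarith
  set p := Real.exp (-(K * Real.log K / (32 * A))) with hp
  have hp0 : 0 ≤ p := (Real.exp_pos _).le
  have s0 := hq (cntl δ K) (cntl_good hδ0 hδ1 hK0) (by
    rw [cntl_kv, div_le_iff₀ (by positivity)]
    refine (Wf_small hδ0 hδ1).trans (le_of_eq ?_)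
    rw [hδ]; field_simp)
  have s1 := hq (tril δ 0) (tril_good hδ0 hδ1 _) ((tril_kv hδ0 hδ1 _).trans hA2)
  have s2 := hq (tril δ (-(1 / (2 * δ)))) (tril_good hδ0 hδ1 _) ((tril_kv hδ0 hδ1 _).trans hA2)
  have s3 := hq (tril δ K) (tril_good hδ0 hδ1 _) ((tril_kv hδ0 hδ1 _).trans hA2)
  have s4 := hq (tril δ (K - 1 / (2 * δ))) (tril_good hδ0 hδ1 _) ((tril_kv hδ0 hδ1 _).trans hA2)
  have hall := (s0.and (s1.and (s2.and (s3.and s4 hp0 hp0) hp0 (by positivity)) hp0 (by positivity))
    hp0 (by positivity))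
  have hfin := hall.mono (Q := fun T t => |nc T t K - K| ≤ K / 2) (by
    filter_upwards [nc_near hδ0 hK0 one_pos] with T hT
    intro t _ _ h
    obtain ⟨a0, a1, a2, a3, a4⟩ := h
    have h1 := hT t
    have e1 := cntl_stt δ K δ T t
    set X := XX (psb δ K) δ T (t + Real.pi * K / Real.log T) with hX
    have hKA2 : C1 * (K / A) ≤ K / 32 := by
      rw [mul_div_assoc', div_le_iff₀ hA0]
      nlinarith
    have hKA3 : K / A ≤ K / 8 := div_le_div_of_nonneg_left hK0.le (by norm_num) hA8
    have hb : C1 * (4 / δ + (stt (tril δ 0) δ T t + stt (tril δ (-(1 / (2 * δ)))) δ T t +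
        stt (tril δ K) δ T t + stt (tril δ (K - 1 / (2 * δ))) δ T t)) ≤ K / 4 := by
      have e2 : 4 / δ = 4 * (K / A) := by rw [hδ]; field_simp
      have h2 : 4 / δ + (stt (tril δ 0) δ T t + stt (tril δ (-(1 / (2 * δ)))) δ T t +
        stt (tril δ K) δ T t + stt (tril δ (K - 1 / (2 * δ))) δ T t) ≤ 8 * (K / A) := by
        have b1 := (abs_lt.1 a1).2
        have b2 := (abs_lt.1 a2).2
        have b3 := (abs_lt.1 a3).2
        have b4 := (abs_lt.1 a4).2
        linarith
      calc _ ≤ C1 * (8 * (K / A)) := by gcongr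
        _ = 8 * (C1 * (K / A)) := by ring
        _ ≤ 8 * (K / 32) := by gcongr
        _ = K / 4 := by ring
    have h3 := h1.trans (add_le_add_left hb 1)
    rw [abs_le] at h3 ⊢
    rw [e1] at a0
    rw [abs_lt] at a0
    constructor <;> linarith [h3.1, h3.2, a0.1, a0.2])
  refine hfin.weaken ?_
  have h1 : p + (p + (p + (p + p))) = 5 * p := by ring
  rw [h1]
  have h2 : (5 : ℝ) ≤ Real.exp (K * Real.log K / (64 * A)) := by
    have a1 : 5 ≤ K * Real.log K / (64 * A) := by
      rw [le_div_iff₀ (by positivity)]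
      nlinarith
    have := Real.add_one_le_exp (K * Real.log K / (64 * A))
    linarith
  calc 5 * p ≤ Real.exp (K * Real.log K / (64 * A)) * p := by gcongr
    _ = _ := by rw [hp, ← Real.exp_add]; congr 1; field_simp; ring

end Pool.Agent.H478.LD
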