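import Pool.Agent.H478.LD4

/-! The counts at typical heights: moderate and large deviations. -/

open Finset Complex MeasureTheory Filter Topology ProbabilityTheory

namespace Pool.Agent.H478.LD

open Pool.Agent.H478.CW
open Pool.Agent.H478.EX
open Pool.Agent.R321.FA
open SP (ZZ mu Mk RHs)

/-- a power against an exponential -/
lemma pow_exp (a : ℝ) (n : ℕ) : ∀ᶠ ℓ : ℝ in atTop, a * ℓ ^ n ≤ Real.exp ℓ := by
  have h1 := (Real.tendsto_pow_mul_exp_neg_atTop_nhds_zero n).const_mul a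
  rw [mul_zero] at h1
  filter_upwards [h1.eventually (gt_mem_nhds one_pos)] with ℓ h2
  rw [Real.exp_neg, ← mul_assoc, ← div_eq_mul_inv, div_lt_one (Real.exp_pos _)] at h2
  exact h2.le

/-- **the variance of the main statistic** -/
lemma var_main {ε : ℝ} (hε : 0 < ε) : ∀ᶠ ℓ : ℝ in atTop, ∀ y, Real.exp ℓ / 2 ≤ y →
    y ≤ 2 * Real.exp ℓ → (1 - ε) / Real.pi ^ 2 * ℓ ≤ kv (cntl (1 / ℓ ^ 3) y) ∧
      kv (cntl (1 / ℓ ^ 3) y) ≤ (1 + ε) / Real.pi ^ 2 * ℓ := by
  have hpi := Real.pi_pos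
  have h0 := Real.isLittleO_log_id_atTop.def (by positivity : (0 : ℝ) < ε / 6)
  filter_upwards [h0, eventually_ge_atTop (max 1 (60 / ε)), pow_exp 2 3] with ℓ hlog hℓ hpe
  intro y hy1 hy2
  have hℓ1 : 1 ≤ ℓ := (le_max_left _ _).trans hℓ
  have hℓ2 : 60 / ε ≤ ℓ := (le_max_right _ _).trans hℓ
  have hℓ0 : 0 < ℓ := by linarith
  simp only [id, Real.norm_eq_abs] at hlog
  rw [abs_of_pos hℓ0, abs_of_nonneg (Real.log_nonneg hℓ1)] at hlog
  have hδ0 : 0 < 1 / ℓ ^ 3 := by positivity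
  have hδ1 : 1 / ℓ ^ 3 ≤ 1 := by
    rw [div_le_one (by positivity)]
    exact one_le_pow₀ hℓ1
  have h1 := Wf_log (x := y) hδ0 hδ1 (by
    rw [one_div_one_div]
    linarith)
  have e1 : Real.log (1 / ℓ ^ 3) = -(3 * Real.log ℓ) := by
    rw [one_div, Real.log_inv, Real.log_pow]; push_cast; ring
  rw [e1] at h1
  have hexp := Real.exp_pos ℓ
  have hy0 : 0 < y := by linarith
  have h2 : Real.log y ≤ ℓ + 1 := by
    rw [Real.log_le_iff_le_exp hy0, Real.exp_add]
    have := Real.exp_one_gt_d9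
    nlinarith
  have h3 : ℓ - 1 ≤ Real.log y := by
    rw [Real.le_log_iff_exp_le hy0, Real.exp_sub, div_le_iff₀ (Real.exp_pos 1)]
    have := Real.exp_one_gt_d9
    nlinarith
  have h4 : 30 ≤ ε / 2 * ℓ := by
    rw [div_le_iff₀ hε] at hℓ2
    linarith
  rw [abs_le] at h1
  rw [cntl_kv]
  constructor
  · rw [le_div_iff₀ (by positivity)]
    have : (1 - ε) / Real.pi ^ 2 * ℓ * Real.pi ^ 2 = (1 - ε) * ℓ := by field_simp
    rw [this]
    linarith [h1.1]
  · rw [div_le_iff₀ (by positivity)]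
    have : (1 + ε) / Real.pi ^ 2 * ℓ * Real.pi ^ 2 = (1 + ε) * ℓ := by field_simp
    rw [this]
    linarith [h1.2]

/-- **the sharp count is the main statistic** up to a small multiple of the deviation -/
theorem near_main (hRH : RHs) {e C : ℝ} (he : 0 < e) (hC : 0 < C) : ∃ c : ℝ, 0 < c ∧
    ∀ᶠ ℓ : ℝ in atTop, ∀ z, Real.sqrt ℓ ≤ z → z ≤ c * ℓ * Real.log ℓ → ∀ y, 0 < y →
      Sm (fun T t => |nc T t y - y - stt (cntl (1 / ℓ ^ 3) y) (1 / ℓ ^ 3) T t| ≤
        (5 * C1 + 2) * (e * z)) (Real.exp (-(C * (z ^ 2 / ℓ)))) := by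
  have hC1 := C1_pos
  set c := min 1 (e / (512 * (C + 2))) with hc
  have hc0 : 0 < c := lt_min one_pos (by positivity)
  refine ⟨c, hc0, ?_⟩
  filter_upwards [small_tail hRH he (by linarith : 0 < C + 2), sq_log, eventually_ge_atTop 1,
    Real.tendsto_sqrt_atTop.eventually_ge_atTop (4 / e), eventually_ge_atTop e,
    Real.tendsto_log_atTop.eventually_ge_atTop 0] with ℓ hst hlog h1 hsq hℓe hlog0
  intro z hz1 hz2 y hy
  have hℓ0 : 0 < ℓ := by linarith
  have hs0 : 0 < Real.sqrt ℓ := Real.sqrt_pos.2 hℓ0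
  have hz0 : 0 < z := by linarith
  have hez : 4 ≤ e * z := by
    rw [div_le_iff₀ he] at hsq
    nlinarith
  have hz2' : z ≤ e / (512 * (C + 2)) * ℓ * Real.log ℓ := by
    refine hz2.trans ?_
    have : c ≤ e / (512 * (C + 2)) := min_le_right _ _
    gcongr
  have hz3 : z ≤ ℓ * Real.log ℓ := by
    refine hz2.trans ?_
    have : c ≤ 1 := min_le_left _ _
    calc c * ℓ * Real.log ℓ ≤ 1 * ℓ * Real.log ℓ := by gcongr
      _ = _ := by ring
  set δ := 1 / ℓ ^ 3 with hδ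
  set δ' := 4 / (e * z) with hδ'
  have hδ0 : 0 < δ := by positivity
  have hδ'0 : 0 < δ' := by positivity
  have hδ'1 : δ' ≤ 1 := by rw [hδ', div_le_one (by positivity)]; exact hez
  have hδδ : δ ≤ δ' := by
    rw [hδ, hδ', div_le_div_iff₀ (by positivity) (by positivity)]
    have a1 : Real.log ℓ ≤ ℓ := Real.log_le_self hℓ0.le
    have a2 : e * z ≤ ℓ * (ℓ * ℓ) := by
      have : z ≤ ℓ * ℓ := hz3.trans (by gcongr)
      gcongr
    nlinarith [pow_pos hℓ0 3]
  have hratio : 1 + Real.log (δ' / δ) ≤ 1 + 4 * Real.log ℓ := by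
    have a1 : δ' / δ ≤ ℓ ^ 3 := by
      rw [hδ, div_le_iff₀ (by positivity), mul_one_div, div_self (by positivity)]
      exact hδ'1
    have a2 : Real.log (δ' / δ) ≤ 3 * Real.log ℓ := by
      have := Real.log_le_log (by positivity) a1
      rw [Real.log_pow] at this
      push_cast at this
      exact this
    linarith
  have hone : (1 : ℝ) ≤ 1 + 4 * Real.log ℓ := by linarith
  have s1 := hst z hz1 hz2' (midl δ δ' y) (midl_good hδ0 hδδ hδ'1 hy)
    ((midl_kv hδ0 hδδ hδ'1 hy).trans hratio)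
  have s2 := hst z hz1 hz2' (tril δ' 0) (tril_good hδ'0 hδ'1 _) ((tril_kv hδ'0 hδ'1 _).trans hone)
  have s3 := hst z hz1 hz2' (tril δ' (-(1 / (2 * δ')))) (tril_good hδ'0 hδ'1 _)
    ((tril_kv hδ'0 hδ'1 _).trans hone)
  have s4 := hst z hz1 hz2' (tril δ' y) (tril_good hδ'0 hδ'1 _) ((tril_kv hδ'0 hδ'1 _).trans hone)
  have s5 := hst z hz1 hz2' (tril δ' (y - 1 / (2 * δ'))) (tril_good hδ'0 hδ'1 _)
    ((tril_kv hδ'0 hδ'1 _).trans hone)
  set p := Real.exp (-((C + 2) * (z ^ 2 / ℓ))) with hp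
  have hp0 : 0 ≤ p := (Real.exp_pos _).le
  have hall := s1.and (s2.and (s3.and (s4.and s5 hp0 hp0) hp0 (by positivity)) hp0 (by positivity))
    hp0 (by positivity)
  have hfin := hall.mono (Q := fun T t => |nc T t y - y - stt (cntl δ y) δ T t| ≤
      (5 * C1 + 2) * (e * z)) (by
    filter_upwards [nc_near hδ'0 hy one_pos, eventually_ge_atTop 1] with T hT hT1
    intro t _ _ h
    obtain ⟨a1, a2, a3, a4, a5⟩ := h
    have e1 : stt (midl δ δ' y) δ' T t = stt (cntl δ' y) δ' T t - stt (cntl δ y) δ T t := by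
      unfold midl
      rw [stt_append, stt_scl, stt_band (cntl_good hδ0 (hδδ.trans hδ'1) hy) hδ0.le hδδ hT1]
      ring
    have e3 := cntl_stt δ' y δ' T t
    have hn := hT t
    have h4δ : 4 / δ' = e * z := by rw [hδ']; field_simp
    have hmain : |nc T t y - XX (psb δ' y) δ' T (t + Real.pi * y / Real.log T)| ≤
        5 * C1 * (e * z) + 1 := by
      refine hn.trans ?_
      have b1 := (abs_lt.1 a2).2
      have b2 := (abs_lt.1 a3).2
      have b3 := (abs_lt.1 a4).2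
      have b4 := (abs_lt.1 a5).2
      have : C1 * (4 / δ' + (stt (tril δ' 0) δ' T t + stt (tril δ' (-(1 / (2 * δ')))) δ' T t +
          stt (tril δ' y) δ' T t + stt (tril δ' (y - 1 / (2 * δ'))) δ' T t)) ≤
          C1 * (5 * (e * z)) := by
        apply mul_le_mul_of_nonneg_left _ hC1.le
        rw [h4δ]
        linarith
      linarith
    have hid : nc T t y - y - stt (cntl δ y) δ T t =
        (nc T t y - XX (psb δ' y) δ' T (t + Real.pi * y / Real.log T)) +
        stt (midl δ δ' y) δ' T t := by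
      rw [e1, e3]
      ring
    rw [hid]
    rw [abs_le] at hmain ⊢
    rw [abs_lt] at a1
    have e5 : (5 * C1 + 2) * (e * z) = 5 * C1 * (e * z) + 2 * (e * z) := by ring
    rw [e5]
    constructor <;> linarith [hmain.1, hmain.2, a1.1, a1.2])
  refine hfin.weaken ?_
  have h2 : p + (p + (p + (p + p))) = 5 * p := by ring
  rw [h2]
  have hz4 : 1 ≤ z ^ 2 / ℓ := by
    rw [le_div_iff₀ hℓ0, one_mul]
    calc ℓ = Real.sqrt ℓ ^ 2 := (Real.sq_sqrt hℓ0.le).symm
      _ ≤ z ^ 2 := by gcongr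
  have h3 : (5 : ℝ) ≤ Real.exp (2 * (z ^ 2 / ℓ)) := by
    have a1 : Real.exp 2 ≤ Real.exp (2 * (z ^ 2 / ℓ)) := Real.exp_le_exp.2 (by linarith)
    have h9 : Real.exp 2 = Real.exp 1 * Real.exp 1 := by rw [← Real.exp_add]; norm_num
    have h10 := Real.exp_one_gt_d9
    nlinarith
  calc 5 * p ≤ Real.exp (2 * (z ^ 2 / ℓ)) * p := by gcongr
    _ = _ := by rw [hp, ← Real.exp_add]; congr 1; ring

end Pool.Agent.H478.LD
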