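import Pool.Agent.H478.LD5

/-! Moderate and large deviations of the counts at typical heights. -/

open Finset Complex MeasureTheory Filter Topology ProbabilityTheory

namespace Pool.Agent.H478.LD

open Pool.Agent.H478.CW
open Pool.Agent.H478.EX
open Pool.Agent.R321.FA
open SP (ZZ mu Mk RHs)

lemma Gx_scale {ℓ z s : ℝ} : Gx ℓ (s * z) = s ^ 2 * Gx ℓ z := by unfold Gx; ring

lemma sq_ge_one {K ℓ z : ℝ} (hK : 1 ≤ K) (hℓ : 0 < ℓ) (hz : K * Real.sqrt ℓ ≤ z) :
    1 ≤ z ^ 2 / ℓ := by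
  have hs0 : 0 < Real.sqrt ℓ := Real.sqrt_pos.2 hℓ
  have h1 : Real.sqrt ℓ ≤ z := by nlinarith
  rw [le_div_iff₀ hℓ, one_mul]
  calc ℓ = Real.sqrt ℓ ^ 2 := (Real.sq_sqrt hℓ.le).symm
    _ ≤ z ^ 2 := by gcongr

/-- **upper bound** for the probability of a deviation -/
theorem height_up (hRH : RHs) {ε : ℝ} (hε : 0 < ε) (hε1 : ε ≤ 1) : ∃ K c : ℝ, 1 ≤ K ∧ 0 < c ∧
    ∀ᶠ ℓ : ℝ in atTop, ∀ z, K * Real.sqrt ℓ ≤ z → z ≤ c * ℓ * Real.log ℓ →
      ∀ y, Real.exp ℓ / 2 ≤ y → y ≤ 2 * Real.exp ℓ →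
      Sm (fun T t => |nc T t y - y| < z) (Real.exp (-((1 - ε) * Gx ℓ z))) := by
  have hC1 := C1_pos
  set e' := ε / 16 with he'
  have he'0 : 0 < e' := by positivity
  have he'1 : e' ≤ 1 / 16 := by rw [he']; linarith
  set e := e' / (5 * C1 + 2) with he
  have he0 : 0 < e := by positivity
  obtain ⟨K1, hK1, hup⟩ := up_tail hRH (by linarith : 0 < ε / 4) (by linarith)
  obtain ⟨c1, hc1, hnear⟩ := near_main hRH (C := 10) he0 (by norm_num)
  refine ⟨2 * K1 + 2 / ε, min 1 c1, by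
    have : 0 < 2 / ε := by positivity
    linarith, lt_min one_pos hc1, ?_⟩
  filter_upwards [hup, hnear, eventually_ge_atTop 1, Real.tendsto_log_atTop.eventually_ge_atTop 0,
    var_main (by positivity : 0 < ε / 16)] with ℓ h1 h2 hℓ1 hlog0 hvar
  intro z hz1 hz2 y hy1 hy2
  have hℓ0 : 0 < ℓ := by linarith
  have hs0 : 0 < Real.sqrt ℓ := Real.sqrt_pos.2 hℓ0
  have h2ε : 0 < 2 / ε := by positivity
  have hz0 : 0 < z := lt_of_lt_of_le (by positivity) hz1
  have hexp := Real.exp_pos ℓ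
  have hy0 : 0 < y := by linarith
  have hK1' : K1 * Real.sqrt ℓ ≤ (1 - e') * z := by
    have a1 : K1 * Real.sqrt ℓ * 2 ≤ z := by nlinarith
    nlinarith
  have hz3 : z ≤ c1 * ℓ * Real.log ℓ := by
    refine hz2.trans ?_
    have : min 1 c1 ≤ c1 := min_le_right _ _
    gcongr
  have hz4 : z ≤ ℓ * Real.log ℓ := by
    refine hz2.trans ?_
    have : min 1 c1 ≤ 1 := min_le_left _ _
    calc min 1 c1 * ℓ * Real.log ℓ ≤ 1 * ℓ * Real.log ℓ := by gcongr
      _ = _ := by ring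
  have hδ0 : 0 < 1 / ℓ ^ 3 := by positivity
  have hδ1 : 1 / ℓ ^ 3 ≤ 1 := by
    rw [div_le_one (by positivity)]
    exact one_le_pow₀ hℓ1
  have s1 := h1 ((1 - e') * z) hK1' (by nlinarith) (cntl (1 / ℓ ^ 3) y) (cntl_good hδ0 hδ1 hy0) (by
    have := (hvar y hy1 hy2).2
    rw [show ε / 4 / 4 = ε / 16 by ring]
    exact this)
  have hz5 : Real.sqrt ℓ ≤ z := by nlinarith
  have s2 := h2 z hz5 hz3 y hy0
  have hs := (s1.and s2 (Real.exp_pos _).le (Real.exp_pos _).le).mono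
    (Q := fun T t => |nc T t y - y| < z) (Eventually.of_forall fun T t _ _ h => by
      obtain ⟨a1, a2⟩ := h
      have e1 : (5 * C1 + 2) * (e * z) = e' * z := by rw [he]; field_simp
      rw [e1, abs_le] at a2
      rw [abs_lt] at a1 ⊢
      constructor <;> linarith [a1.1, a1.2, a2.1, a2.2])
  refine hs.weaken ?_
  have hK : 0 ≤ 2 * K1 + 2 / ε := by positivity
  have hG := Gx_ge hℓ0 hK hz1
  have hG2 := Gx_le (z := z) hℓ0
  rw [Gx_scale]
  set G := Gx ℓ z with hGdef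
  have hG3 : 2 / ε ≤ G := by
    have a1 : (2 : ℝ) ≤ 2 * K1 + 2 / ε := by linarith
    nlinarith
  have hG0 : 0 < G := lt_of_lt_of_le h2ε hG3
  have b1 : Real.exp (-((1 - ε / 4) * ((1 - e') ^ 2 * G))) ≤ Real.exp (-((1 - ε / 2) * G)) := by
    apply Real.exp_le_exp.2
    have : 1 - ε / 2 ≤ (1 - ε / 4) * (1 - e') ^ 2 := by
      have a1 : 1 - 2 * e' ≤ (1 - e') ^ 2 := by nlinarith
      calc 1 - ε / 2 ≤ (1 - ε / 4) * (1 - 2 * e') := by rw [he']; nlinarith
        _ ≤ _ := by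
            apply mul_le_mul_of_nonneg_left a1
            linarith
    nlinarith
  have b2 : Real.exp (-(10 * (z ^ 2 / ℓ))) ≤ Real.exp (-((1 - ε / 2) * G)) := by
    apply Real.exp_le_exp.2
    nlinarith
  have b3 : (2 : ℝ) ≤ Real.exp (ε / 2 * G) := by
    have a1 := Real.add_one_le_exp (ε / 2 * G)
    have a2 : 1 ≤ ε / 2 * G := by
      rw [div_le_iff₀ hε] at hG3
      linarith
    linarith
  calc _ ≤ 2 * Real.exp (-((1 - ε / 2) * G)) := by linarith
    _ ≤ Real.exp (ε / 2 * G) * Real.exp (-((1 - ε / 2) * G)) := by gcongr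
    _ = _ := by rw [← Real.exp_add]; congr 1; ring

/-- **lower bound** for the probability of a deviation -/
theorem height_low (hRH : RHs) {ε e : ℝ} (hε : 0 < ε) (hε1 : ε ≤ 1) (he : 0 < e) (he1 : e ≤ 1) :
    ∃ K c : ℝ, 1 ≤ K ∧ 0 < c ∧
    ∀ᶠ ℓ : ℝ in atTop, ∀ z, K * Real.sqrt ℓ ≤ z → z ≤ c * ℓ * Real.log ℓ →
      ∀ y, Real.exp ℓ / 2 ≤ y → y ≤ 2 * Real.exp ℓ → ∀ a, |a| ≤ z →
      Lg (fun T t => |nc T t y - y - a| ≤ e * z) (Real.exp (-((1 + ε) * Gx ℓ z))) := by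
  have hC1 := C1_pos
  set e' := e / 2 / (5 * C1 + 2) with he'
  have he'0 : 0 < e' := by positivity
  obtain ⟨K1, hK1, hlow⟩ := low_tail hRH (by linarith : 0 < ε / 2) (by linarith)
    (by linarith : 0 < e / 2) (by linarith)
  obtain ⟨c1, hc1, hnear⟩ := near_main hRH (C := 15) he'0 (by norm_num)
  refine ⟨K1 + 2 / ε, min 1 c1, by
    have : 0 < 2 / ε := by positivity
    linarith, lt_min one_pos hc1, ?_⟩
  filter_upwards [hlow, hnear, eventually_ge_atTop 1, Real.tendsto_log_atTop.eventually_ge_atTop 0,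
    var_main (by positivity : 0 < ε / 2 / 4)] with ℓ h1 h2 hℓ1 hlog0 hvar
  intro z hz1 hz2 y hy1 hy2 a ha
  have hpi := Real.pi_pos
  have hℓ0 : 0 < ℓ := by linarith
  have hs0 : 0 < Real.sqrt ℓ := Real.sqrt_pos.2 hℓ0
  have h2ε : 0 < 2 / ε := by positivity
  have hz0 : 0 < z := lt_of_lt_of_le (by positivity) hz1
  have hexp := Real.exp_pos ℓ
  have hy0 : 0 < y := by linarith
  have hK1' : K1 * Real.sqrt ℓ ≤ z := by nlinarith
  have hz3 : z ≤ c1 * ℓ * Real.log ℓ := by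
    refine hz2.trans ?_
    have : min 1 c1 ≤ c1 := min_le_right _ _
    gcongr
  have hz4 : z ≤ ℓ * Real.log ℓ := by
    refine hz2.trans ?_
    have : min 1 c1 ≤ 1 := min_le_left _ _
    calc min 1 c1 * ℓ * Real.log ℓ ≤ 1 * ℓ * Real.log ℓ := by gcongr
      _ = _ := by ring
  have hδ0 : 0 < 1 / ℓ ^ 3 := by positivity
  have hδ1 : 1 / ℓ ^ 3 ≤ 1 := by
    rw [div_le_one (by positivity)]
    exact one_le_pow₀ hℓ1
  obtain ⟨v1, v2⟩ := hvar y hy1 hy2
  have s1 := h1 z hK1' hz4 (cntl (1 / ℓ ^ 3) y) (cntl_good hδ0 hδ1 hy0) v1 (by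
    refine v2.trans ?_
    have hpi3 := Real.pi_gt_three
    have : (1 + ε / 2 / 4) / Real.pi ^ 2 ≤ 1 := by
      rw [div_le_one (by positivity)]
      nlinarith
    nlinarith) a ha
  have hz5 : Real.sqrt ℓ ≤ z := by nlinarith
  have s2 := h2 z hz5 hz3 y hy0
  have hs := (s1.and s2 (Real.exp_pos _).le).mono
    (Q := fun T t => |nc T t y - y - a| ≤ e * z) (Eventually.of_forall fun T t _ _ h => by
      obtain ⟨a1, a2⟩ := h
      have e1 : (5 * C1 + 2) * (e' * z) = e / 2 * z := by rw [he']; field_simp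
      rw [e1, abs_le] at a2
      rw [abs_le] at a1 ⊢
      constructor <;> linarith [a1.1, a1.2, a2.1, a2.2])
  refine hs.weaken ?_
  have hK : 0 ≤ K1 + 2 / ε := by positivity
  have hG := Gx_ge hℓ0 hK hz1
  have hG2 := Gx_le (z := z) hℓ0
  set G := Gx ℓ z with hGdef
  have hG3 : 2 / ε ≤ G := by
    have a1 : (1 : ℝ) ≤ K1 + 2 / ε := by linarith
    nlinarith
  have hG0 : 0 < G := lt_of_lt_of_le h2ε hG3
  have b2 : Real.exp (-(15 * (z ^ 2 / ℓ))) ≤ Real.exp (-((1 + ε) * G)) := by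
    apply Real.exp_le_exp.2
    nlinarith
  have b3 : (2 : ℝ) ≤ Real.exp (ε / 2 * G) := by
    have a1 := Real.add_one_le_exp (ε / 2 * G)
    have a2 : 1 ≤ ε / 2 * G := by
      rw [div_le_iff₀ hε] at hG3
      linarith
    linarith
  have b4 : 2 * Real.exp (-((1 + ε) * G)) ≤ Real.exp (-((1 + ε / 2) * G)) := by
    calc 2 * Real.exp (-((1 + ε) * G)) ≤ Real.exp (ε / 2 * G) * Real.exp (-((1 + ε) * G)) := by
          gcongr
      _ = _ := by rw [← Real.exp_add]; congr 1; ring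
  linarith

/-- the length of the initial window -/
noncomputable def Kw (M e ℓ z : ℝ) : ℝ := min (M * (z ^ 2 / ℓ)) (e * z)

/-- **the initial window** contains between `K / 2` and `3 K / 2` zeros -/
theorem height_win (hRH : RHs) {e C : ℝ} (he : 0 < e) (hC : 0 < C) : ∃ M c : ℝ, 1 ≤ M ∧ 0 < c ∧
    ∀ᶠ ℓ : ℝ in atTop, ∀ z, Real.sqrt ℓ ≤ z → z ≤ c * ℓ * Real.log ℓ →
      2 ≤ Kw M e ℓ z ∧ Sm (fun T t => |nc T t (Kw M e ℓ z) - Kw M e ℓ z| ≤ Kw M e ℓ z / 2)
        (Real.exp (-(C * (z ^ 2 / ℓ)))) := by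
  obtain ⟨c0, hc0, hK⟩ := nc_half hRH
  obtain ⟨K0, hK0⟩ := eventually_atTop.1 hK
  set M := max (max 3 K0) (C / c0) with hM
  have hM3 : 3 ≤ M := (le_max_left _ _).trans (le_max_left _ _)
  have hMK : K0 ≤ M := (le_max_right _ _).trans (le_max_left _ _)
  have hMC : C / c0 ≤ M := le_max_right _ _
  have hM0 : 0 < M := by linarith
  refine ⟨M, c0 * e / (2 * C), by linarith, by positivity, ?_⟩
  filter_upwards [eventually_ge_atTop 1, Real.tendsto_sqrt_atTop.eventually_ge_atTop (max 2 K0 / e),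
    Real.tendsto_sqrt_atTop.eventually_ge_atTop (M / e ^ 2),
    Real.tendsto_log_atTop.eventually_ge_atTop 0] with ℓ hℓ1 hsq hsq2 hlog0
  intro z hz1 hz2
  have hℓ0 : 0 < ℓ := by linarith
  have hs0 : 0 < Real.sqrt ℓ := Real.sqrt_pos.2 hℓ0
  have hz0 : 0 < z := by linarith
  have hz4 : 1 ≤ z ^ 2 / ℓ := sq_ge_one le_rfl hℓ0 (by rwa [one_mul])
  have hez : max 2 K0 ≤ e * z := by
    rw [div_le_iff₀ he] at hsq
    nlinarith
  have h2 : 2 ≤ e * z := (le_max_left _ _).trans hez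
  have hK0z : K0 ≤ e * z := (le_max_right _ _).trans hez
  have hMz : M ≤ M * (z ^ 2 / ℓ) := by nlinarith
  have hk2 : 2 ≤ Kw M e ℓ z := le_min (by linarith) h2
  have hkK : K0 ≤ Kw M e ℓ z := le_min (by linarith) hK0z
  refine ⟨hk2, (hK0 _ hkK).weaken ?_⟩
  apply Real.exp_le_exp.2
  have hgoal : C * (z ^ 2 / ℓ) ≤ c0 * (Kw M e ℓ z * Real.log (Kw M e ℓ z)) := by
    rcases le_total (M * (z ^ 2 / ℓ)) (e * z) with h | h
    · have e1 : Kw M e ℓ z = M * (z ^ 2 / ℓ) := min_eq_left h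
      rw [e1]
      have a1 : 1 ≤ Real.log (M * (z ^ 2 / ℓ)) := by
        rw [Real.le_log_iff_exp_le (by positivity)]
        have := Real.exp_one_lt_d9
        linarith
      have a2 : C ≤ c0 * M := by
        rw [div_le_iff₀ hc0] at hMC
        linarith
      calc C * (z ^ 2 / ℓ) ≤ c0 * M * (z ^ 2 / ℓ) := by gcongr
        _ = c0 * (M * (z ^ 2 / ℓ) * 1) := by ring
        _ ≤ _ := by gcongr
    · have e1 : Kw M e ℓ z = e * z := min_eq_right h
      rw [e1]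
      have a0 : e * ℓ ≤ M * z := by
        have : e * z * ℓ ≤ M * z ^ 2 := by
          rw [mul_div_assoc', le_div_iff₀ hℓ0] at h
          exact h
        have h5 : (e * ℓ) * z ≤ (M * z) * z := by nlinarith
        exact le_of_mul_le_mul_right h5 hz0
      have a1 : Real.sqrt ℓ ≤ e * z := by
        have h5 : M ≤ Real.sqrt ℓ * e ^ 2 := by
          rw [div_le_iff₀ (by positivity)] at hsq2
          exact hsq2
        have h6 : e * ℓ * e ≤ M * (e * z) := by nlinarith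
        have h7 : e * ℓ * e = Real.sqrt ℓ * (Real.sqrt ℓ * e ^ 2) := by
          have := Real.mul_self_sqrt hℓ0.le
          calc e * ℓ * e = e ^ 2 * ℓ := by ring
            _ = e ^ 2 * (Real.sqrt ℓ * Real.sqrt ℓ) := by rw [this]
            _ = _ := by ring
        have h8 : Real.sqrt ℓ * M ≤ M * (e * z) := by
          calc Real.sqrt ℓ * M ≤ Real.sqrt ℓ * (Real.sqrt ℓ * e ^ 2) := by gcongr
            _ = e * ℓ * e := h7.symm
            _ ≤ _ := h6
        have h9 : M * Real.sqrt ℓ ≤ M * (e * z) := by linarith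
        exact le_of_mul_le_mul_left h9 hM0
      have a2 : Real.log ℓ / 2 ≤ Real.log (e * z) := by
        have := Real.log_le_log hs0 a1
        rwa [Real.log_sqrt hℓ0.le] at this
      calc C * (z ^ 2 / ℓ) = C * (z * z) / ℓ := by ring
        _ ≤ C * (z * (c0 * e / (2 * C) * ℓ * Real.log ℓ)) / ℓ := by gcongr
        _ = c0 * (e * z * (Real.log ℓ / 2)) := by field_simp
        _ ≤ _ := by gcongr
  linarith

end Pool.Agent.H478.LD
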