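import Pool.Agent.H478.LD6

/-! Counting indices: upper and lower bounds without loss. -/

open Finset Complex MeasureTheory Filter Topology ProbabilityTheory

namespace Pool.Agent.H478.LD

open Pool.Agent.H478.CW
open Pool.Agent.H478.EX
open Pool.Agent.R321.FA
open SP (ZZ mu Mk RHs)
open SG (ord NZ zmult ZS)
open Pool.Agent.TH800.LD (ZZf)
open TH800.MS (dlt)

/-- the indicator of a measurable set containing a small set -/
lemma bad_ind {P : ℝ → ℝ → Prop} {q T : ℝ} (hq : 0 ≤ q) (hT : 0 < T) (hVV : Va T ≤ Vb T)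
    (hP : volume {t : ℝ | Va T ≤ t ∧ t ≤ Vb T ∧ ¬ P T t} ≤ ENNReal.ofReal (q * T)) :
    ∃ g : ℝ → ℝ, Measurable g ∧ (∀ t, 0 ≤ g t) ∧ (∀ t, g t ≤ 1) ∧
      (∀ t, Va T ≤ t → t ≤ Vb T → ¬ P T t → g t = 1) ∧ ∫ t in Va T..Vb T, g t ≤ q * T := by
  set B := {t : ℝ | Va T ≤ t ∧ t ≤ Vb T ∧ ¬ P T t} with hBdef
  set B' := toMeasurable volume B with hB'
  have hB'm : MeasurableSet B' := measurableSet_toMeasurable _ _
  have hB'v : volume B' ≤ ENNReal.ofReal (q * T) := by
    rw [hB', measure_toMeasurable]; exact hP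
  have hBB : B ⊆ B' := subset_toMeasurable _ _
  refine ⟨Set.indicator B' fun _ => 1, measurable_const.indicator hB'm,
    fun t => Set.indicator_nonneg (fun _ _ => zero_le_one) t, fun t => by
      unfold Set.indicator; split_ifs <;> norm_num, fun t h1 h2 h3 => ?_, ?_⟩
  · rw [Set.indicator_of_mem (hBB ⟨h1, h2, h3⟩)]
  · rw [intervalIntegral.integral_of_le hVV, integral_indicator hB'm, setIntegral_const,
      smul_eq_mul, mul_one, measureReal_restrict_apply hB'm]
    have h1 : volume (B' ∩ Set.Ioc (Va T) (Vb T)) ≤ ENNReal.ofReal (q * T) :=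
      (measure_mono Set.inter_subset_left).trans hB'v
    unfold Measure.real
    exact ENNReal.toReal_le_of_le_ofReal (by positivity) h1

/-- **exceptional indices from exceptional heights**, almost without loss -/
theorem two_count (RH : RiemannHypothesis) : ∃ C : ℝ, 1 ≤ C ∧ ∀ q1 q2 B : ℝ, 0 < q1 → 0 < q2 →
    0 ≤ B → ∀ P1 P2 : ℝ → ℝ → Prop, Sm P1 q1 → Sm P2 (q2 ^ 2) →
    (∀ᶠ T : ℝ in atTop, ∀ t, P2 T t → nc T t 1 ≤ B) → ∀ Q : ℕ → Prop,
    (∀ᶠ T : ℝ in atTop, ∀ t, P1 T t → P2 T t → ∀ n ∈ Ib T, ord n ≤ 2 * T - 1 → t < ord n →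
      ord n ≤ t + 2 * Real.pi / Real.log T → Q n) →
    ∀ᶠ T : ℝ in atTop, ∑ n ∈ Ib T, idc (fun n => ¬ Q n) n ≤ (C * q2 + B * q1) * (T * Real.log T) := by
  classical
  have hpi := Real.pi_pos
  obtain ⟨C0, T0, hC0, hT0, hM⟩ := Mp_shift (rhs_of RH)
  have hcK : 0 < cK 1 := cK_pos zero_le_one
  refine ⟨cK 1 * (C0 + 1) + 1, by nlinarith, fun q1 q2 B hq1 hq2 hB0 P1 P2 hP1 hP2 hPB Q hPQ => ?_⟩
  filter_upwards [hP1, hP2, hPB, hPQ, edg_small RH hq2, V_ord, eventually_ge_atTop T0,
    Real.tendsto_log_atTop.eventually_ge_atTop (2 * Real.pi)] with T hB1 hB2 hBB hPQT hedge hV hTT0 hL2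
  obtain ⟨hT10, hVV, hVT⟩ := hV
  have hT1 : 1 ≤ T := by linarith
  have hTp : 0 < T := by linarith
  have hL1 := log_one_le hT10
  set L := Real.log T with hLdef
  have hL0 : 0 < L := by linarith
  set w := 2 * Real.pi / L with hw
  have hw0 : 0 < w := by positivity
  have hw1 : w ≤ 1 := by rw [hw, div_le_one hL0]; exact hL2
  obtain ⟨g1, g1m, g10, g11, g1b, g1v⟩ := bad_ind hq1.le hTp hVV hB1
  obtain ⟨g, hgm, hg0, hg1, hgb, hgV⟩ := bad_ind (by positivity : 0 ≤ q2 ^ 2) hTp hVV hB2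
  have hgint : ∀ (f : ℝ → ℝ), Measurable f → (∀ t, 0 ≤ f t) → (∀ t, f t ≤ 1) →
      ∀ a b : ℝ, IntervalIntegrable f volume a b := by
    intro f hf h0 h1 a b
    refine (intervalIntegrable_const (c := (1 : ℝ))).mono_fun hf.aestronglyMeasurable ?_
    refine Eventually.of_forall fun t => ?_
    show ‖f t‖ ≤ ‖(1 : ℝ)‖
    rw [Real.norm_of_nonneg (h0 t), norm_one]
    exact h1 t
  -- the bad indices
  set S := (Ib T).filter fun n => ¬ Q n ∧ ¬ (ord n ≤ T + 8 * L + 1 ∨ 2 * T - 8 * L - 1 < ord n)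
    with hS
  have hsplit : ∑ n ∈ Ib T, idc (fun n => ¬ Q n) n ≤ (S.card : ℝ) + ∑ n ∈ Ib T, edg T n := by
    have e1 : (S.card : ℝ) = ∑ n ∈ Ib T, (if ¬ Q n ∧
        ¬ (ord n ≤ T + 8 * L + 1 ∨ 2 * T - 8 * L - 1 < ord n) then (1 : ℝ) else 0) := by
      rw [hS, Finset.card_filter]; push_cast; rfl
    rw [e1, ← Finset.sum_add_distrib]
    refine Finset.sum_le_sum fun n _ => ?_
    have a1 : (0 : ℝ) ≤ (if ¬ Q n ∧
      ¬ (ord n ≤ T + 8 * L + 1 ∨ 2 * T - 8 * L - 1 < ord n) then (1 : ℝ) else 0) := by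
      split_ifs <;> norm_num
    have a2 : (0 : ℝ) ≤ edg T n := by unfold edg; exact idc_nonneg _ _
    by_cases h1 : ¬ Q n
    · have a3 : idc (fun n => ¬ Q n) n = 1 := by unfold idc; rw [if_pos h1]
      by_cases h2 : ord n ≤ T + 8 * L + 1 ∨ 2 * T - 8 * L - 1 < ord n
      · have a4 : edg T n = 1 := by unfold edg idc; rw [if_pos h2]
        linarith
      · rw [if_pos ⟨h1, h2⟩]
        linarith
    · have a3 : idc (fun n => ¬ Q n) n = 0 := by unfold idc; rw [if_neg h1]
      linarith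
  have hJint : ∀ n ∈ S, ∫ t in Va T..Vb T, JI t w (ord n) = w := by
    intro n hn
    rw [hS, Finset.mem_filter] at hn
    obtain ⟨hnI, hnQ, hnE⟩ := hn
    push Not at hnE
    apply JI_int_eq hw0.le
    · unfold Va; rw [← hLdef]; linarith [hnE.1]
    · unfold Vb; rw [← hLdef]; linarith [hnE.2]
  have hMc : Continuous fun t => 1 + Mp T t := by
    have := Mp_cont hT1
    fun_prop
  have hcount : ∀ t, ∑ n ∈ S, JI t w (ord n) ≤ nc T t 1 := by
    intro t
    have h2 := AW_idx RH hT1 1 (fun _ => 1) t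
    have h3 : AW T 1 (fun _ => 1) t = nc T t 1 := by
      rw [AW_eq hT1, nc_JI hT1]
      refine Finset.sum_congr rfl fun s _ => ?_
      rw [mul_one]
    rw [h3] at h2
    rw [h2]
    simp only [mul_one]
    exact Finset.sum_le_sum_of_subset_of_nonneg (Finset.filter_subset _ _)
      (fun n _ _ => JI_nonneg _ _ _)
  have hpt : ∀ t, ∑ n ∈ S, JI t w (ord n) ≤ B * g1 t + cK 1 * (q2 * (1 + Mp T t) ^ 2 + 1 / q2 * g t) := by
    intro t
    have h4 : 0 ≤ Mp T t := Mp_nonneg hT1 t
    have hr1 : 0 ≤ B * g1 t := mul_nonneg hB0 (g10 t)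
    have hr2 : 0 ≤ cK 1 * (q2 * (1 + Mp T t) ^ 2 + 1 / q2 * g t) := by
      have := hg0 t
      positivity
    by_cases hex : ∃ n ∈ S, t < ord n ∧ ord n ≤ t + w
    · obtain ⟨n, hn, hJ⟩ := hex
      rw [hS, Finset.mem_filter] at hn
      obtain ⟨hnI, hnQ, hnE⟩ := hn
      push Not at hnE
      have hVa : Va T ≤ t := by unfold Va; rw [← hLdef]; linarith [hnE.1, hJ.2]
      have hVb : t ≤ Vb T := by unfold Vb; rw [← hLdef]; linarith [hnE.2, hJ.1]
      have hnP : ¬ (P1 T t ∧ P2 T t) := fun hPt =>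
        hnQ (hPQT t hPt.1 hPt.2 n hnI (by linarith [hnE.2]) hJ.1 hJ.2)
      by_cases h2 : P2 T t
      · have h1 : ¬ P1 T t := fun h => hnP ⟨h, h2⟩
        have e1 := g1b t hVa hVb h1
        have e2 := hBB t h2
        have := hcount t
        rw [e1, mul_one]
        linarith
      · have e1 := hgb t hVa hVb h2
        have e2 := nc_le hT10 zero_le_one (by rw [mul_one]; exact hL2) t
        have h5 : Mp T t ≤ q2 * (1 + Mp T t) ^ 2 + 1 / q2 * g t := by
          rw [e1, mul_one]
          rcases le_or_gt (Mp T t * q2) 1 with h6 | h6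
          · have h7 : Mp T t ≤ 1 / q2 := by rw [le_div_iff₀ hq2]; exact h6
            have : 0 ≤ q2 * (1 + Mp T t) ^ 2 := by positivity
            linarith
          · have h8 : Mp T t ≤ q2 * (1 + Mp T t) ^ 2 := by nlinarith
            have : 0 ≤ 1 / q2 := by positivity
            linarith
        have h6 : cK 1 * Mp T t ≤ cK 1 * (q2 * (1 + Mp T t) ^ 2 + 1 / q2 * g t) := by gcongr
        have := hcount t
        linarith
    · push Not at hex
      have h0 : ∑ n ∈ S, JI t w (ord n) = 0 := by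
        apply Finset.sum_eq_zero
        intro n hn
        unfold JI
        rw [if_neg]
        rintro ⟨h1, h2⟩
        exact absurd h2 (not_le.2 (hex n hn h1))
      rw [h0]
      linarith
  have hmain : (S.card : ℝ) * w ≤ (cK 1 * (C0 + 1) * q2 + B * q1) * T := by
    have i0 : IntervalIntegrable (fun t => q2 * (1 + Mp T t) ^ 2) volume (Va T) (Vb T) :=
      ((hMc.pow 2).const_mul q2).intervalIntegrable _ _
    have i1 : IntervalIntegrable (fun t => 1 / q2 * g t) volume (Va T) (Vb T) :=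
      (hgint g hgm hg0 hg1 _ _).const_mul _
    have i2 : IntervalIntegrable (fun t => B * g1 t) volume (Va T) (Vb T) :=
      (hgint g1 g1m g10 g11 _ _).const_mul _
    calc (S.card : ℝ) * w = ∑ n ∈ S, ∫ t in Va T..Vb T, JI t w (ord n) := by
          rw [Finset.sum_congr rfl hJint, Finset.sum_const, nsmul_eq_mul]
      _ = ∫ t in Va T..Vb T, ∑ n ∈ S, JI t w (ord n) := by
          rw [intervalIntegral.integral_finsetSum fun n _ => JI_intble' _ _ _ _]
      _ ≤ ∫ t in Va T..Vb T, (B * g1 t + cK 1 * (q2 * (1 + Mp T t) ^ 2 + 1 / q2 * g t)) := by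
          apply intervalIntegral.integral_mono_on hVV
          · exact (IntervalIntegrable.sum S fun n _ => JI_intble' w (ord n) _ _).congr (by
              intro t _
              simp)
          · exact i2.add ((i0.add i1).const_mul _)
          · intro t _
            exact hpt t
      _ = B * (∫ t in Va T..Vb T, g1 t) + cK 1 * (q2 * (∫ t in Va T..Vb T, (1 + Mp T t) ^ 2) +
          1 / q2 * ∫ t in Va T..Vb T, g t) := by
          rw [intervalIntegral.integral_add i2 ((i0.add i1).const_mul _),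
            intervalIntegral.integral_const_mul, intervalIntegral.integral_const_mul,
            intervalIntegral.integral_add i0 i1, intervalIntegral.integral_const_mul,
            intervalIntegral.integral_const_mul]
      _ ≤ B * (q1 * T) + cK 1 * (q2 * (C0 * T) + 1 / q2 * (q2 ^ 2 * T)) := by
          have h1 := hM T hTT0 0 (by norm_num) hVV
          simp only [add_zero] at h1
          gcongr
          exact h1
      _ = _ := by field_simp; ring
  have hS2 : (S.card : ℝ) ≤ (cK 1 * (C0 + 1) * q2 + B * q1) * (T * L) := by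
    rw [hw, ← mul_div_assoc, div_le_iff₀ hL0] at hmain
    have h1 : (S.card : ℝ) ≤ S.card * (2 * Real.pi) :=
      le_mul_of_one_le_right (Nat.cast_nonneg _) (by nlinarith [Real.pi_gt_three])
    calc (S.card : ℝ) ≤ S.card * (2 * Real.pi) := h1
      _ ≤ (cK 1 * (C0 + 1) * q2 + B * q1) * T * L := hmain
      _ = _ := by ring
  have hfin : ((cK 1 * (C0 + 1) + 1) * q2 + B * q1) * (T * L) =
      (cK 1 * (C0 + 1) * q2 + B * q1) * (T * L) + q2 * (T * L) := by
    ring
  rw [hfin]
  linarith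

/-- **indices from heights**: the lower bound -/
theorem low_count (RH : RiemannHypothesis) {q K : ℝ} (hq : 0 < q) (hK : 0 < K) {P : ℝ → ℝ → Prop}
    (hP : Lg P q) {Q : ℕ → Prop} (hnc : ∀ᶠ T : ℝ in atTop, ∀ t, P T t → 1 ≤ nc T t K)
    (hPQ : ∀ᶠ T : ℝ in atTop, ∀ t, P T t → ∀ n ∈ Ib T, ord n ≤ 2 * T - 1 → t < ord n →
      ord n ≤ t + 2 * Real.pi * K / Real.log T → Q n) :
    ∀ᶠ T : ℝ in atTop, q / (2 * Real.pi * K) * (T * Real.log T) ≤ ∑ n ∈ Ib T, idc Q n := by
  classical
  have hpi := Real.pi_pos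
  filter_upwards [hP, hnc, hPQ, V_ord, Real.tendsto_log_atTop.eventually_ge_atTop
    (2 * Real.pi * K)] with T hP hnc hPQ hV hL2
  obtain ⟨hT10, hVV, hVT⟩ := hV
  have hT1 : 1 ≤ T := by linarith
  have hTp : 0 < T := by linarith
  have hL1 := log_one_le hT10
  set L := Real.log T with hLdef
  have hL0 : 0 < L := by linarith
  set w := 2 * Real.pi * K / L with hw
  have hw0 : 0 < w := by positivity
  have hw1 : w ≤ 1 := by rw [hw, div_le_one hL0]; exact hL2
  set S := (Ib T).filter Q with hS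
  set F : ℝ → ℝ := fun t => ∑ n ∈ S, JI t w (ord n) with hF
  have hF0 : ∀ t, 0 ≤ F t := fun t => Finset.sum_nonneg fun n _ => JI_nonneg _ _ _
  have hFm : Measurable F := by
    apply Finset.measurable_fun_sum
    intro n _
    rw [JI_set']
    exact measurable_const.indicator measurableSet_Ico
  have hFi : IntervalIntegrable F volume (Va T) (Vb T) :=
    (IntervalIntegrable.sum S fun n _ => JI_intble' w (ord n) _ _).congr (by
      intro t _
      simp [hF])
  set A := {t : ℝ | 1 ≤ F t} with hA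
  have hAm : MeasurableSet A := measurableSet_le measurable_const hFm
  have hPA : {t : ℝ | Va T ≤ t ∧ t ≤ Vb T ∧ P T t} ⊆ A ∩ Set.Icc (Va T) (Vb T) := by
    rintro t ⟨h1, h2, h3⟩
    refine ⟨?_, h1, h2⟩
    have h4 := hnc t h3
    have h5 := AW_idx RH hT1 K (fun _ => 1) t
    have h6 : AW T K (fun _ => 1) t = nc T t K := by
      rw [AW_eq hT1, nc_JI hT1]
      refine Finset.sum_congr rfl fun s _ => ?_
      rw [mul_one]
    rw [h6] at h5
    simp only [mul_one] at h5
    show 1 ≤ ∑ n ∈ S, JI t w (ord n)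
    refine h4.trans (le_of_eq ?_)
    rw [h5]
    symm
    apply Finset.sum_subset (Finset.filter_subset _ _)
    intro n hn hnS
    unfold JI
    rw [if_neg]
    rintro ⟨a1, a2⟩
    apply hnS
    rw [Finset.mem_filter]
    refine ⟨hn, hPQ t h3 n hn ?_ a1 a2⟩
    have : t ≤ 2 * T - 8 * L := by
      have := h2
      unfold Vb at this
      exact this
    have a3 : ord n ≤ t + w := a2
    linarith
  have hmeas : q * T ≤ (volume (A ∩ Set.Icc (Va T) (Vb T))).toReal := by
    have h1 := hP.trans (measure_mono hPA)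
    exact (ENNReal.ofReal_le_iff_le_toReal (ne_top_of_le_ne_top (by simp)
      (measure_mono Set.inter_subset_right))).1 h1
  have hint : (volume (A ∩ Set.Icc (Va T) (Vb T))).toReal ≤ ∫ t in Va T..Vb T, F t := by
    have i2 : IntervalIntegrable (fun t => A.indicator (fun _ => (1 : ℝ)) t) volume (Va T) (Vb T) := by
      refine (intervalIntegrable_const (c := (1 : ℝ))).mono_fun
        (measurable_const.indicator hAm).aestronglyMeasurable ?_
      refine Eventually.of_forall fun t => ?_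
      show ‖A.indicator (fun _ => (1 : ℝ)) t‖ ≤ ‖(1 : ℝ)‖
      rw [Real.norm_of_nonneg (Set.indicator_nonneg (fun _ _ => zero_le_one) t), norm_one]
      unfold Set.indicator
      split_ifs <;> norm_num
    have h1 : ∫ t in Va T..Vb T, A.indicator (fun _ => (1 : ℝ)) t =
        (volume (A ∩ Set.Icc (Va T) (Vb T))).toReal := by
      rw [intervalIntegral.integral_of_le hVV, ← integral_Icc_eq_integral_Ioc,
        integral_indicator hAm, setIntegral_const, smul_eq_mul, mul_one,
        measureReal_restrict_apply hAm]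
      rfl
    rw [← h1]
    apply intervalIntegral.integral_mono_on hVV i2 hFi
    intro t _
    unfold Set.indicator
    split_ifs with h
    · exact h
    · exact hF0 t
  have hup : ∫ t in Va T..Vb T, F t ≤ (S.card : ℝ) * w := by
    calc ∫ t in Va T..Vb T, F t = ∑ n ∈ S, ∫ t in Va T..Vb T, JI t w (ord n) := by
          rw [hF, intervalIntegral.integral_finsetSum fun n _ => JI_intble' _ _ _ _]
      _ ≤ ∑ n ∈ S, w := Finset.sum_le_sum fun n _ => JI_int_le hw0.le hVV
      _ = _ := by rw [Finset.sum_const, nsmul_eq_mul]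
  have hcard : (S.card : ℝ) = ∑ n ∈ Ib T, idc Q n := by
    rw [hS, Finset.card_filter]
    push_cast
    unfold idc
    rfl
  rw [← hcard]
  have h1 : q * T ≤ S.card * w := hmeas.trans (hint.trans hup)
  rw [hw, mul_div_assoc', le_div_iff₀ hL0] at h1
  rw [div_mul_eq_mul_div, div_le_iff₀ (by positivity)]
  linarith

/-- many indices up to `N` -/
theorem all_low (RH : RiemannHypothesis) : ∃ c : ℝ, 0 < c ∧ ∀ (Q : ℕ → Prop) (κ : ℝ), 0 < κ →
    (∀ᶠ T : ℝ in atTop, κ * (T * Real.log T) ≤ ∑ n ∈ Ib T, idc Q n) →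
    ∀ᶠ N : ℕ in atTop, c * κ * N ≤ (({n : ℕ | 1 ≤ n ∧ n ≤ N ∧ Q n}.ncard : ℕ) : ℝ) := by
  classical
  obtain ⟨L, hL, hNZ⟩ := W249.TCF.NZ_crude RH
  refine ⟨1 / (12 * L), by positivity, fun Q κ hκ h => ?_⟩
  have h3 : Tendsto (fun N : ℕ => ord N / 3) atTop atTop :=
    SG.ord_tendsto.atTop_div_const (by norm_num)
  filter_upwards [h3.eventually h, SG.ord_tendsto.eventually_ge_atTop 9, eventually_ge_atTop 1]
    with N h1 h2 hN1
  set x := ord N with hx
  have hx0 : 0 < x := by linarith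
  have hlx : 0 < Real.log x := Real.log_pos (by linarith)
  have hl3 : Real.log 3 ≤ Real.log x / 2 := by
    have : Real.log 9 ≤ Real.log x := Real.log_le_log (by norm_num) h2
    have e : Real.log 9 = 2 * Real.log 3 := by
      rw [show (9 : ℝ) = 3 ^ 2 by norm_num, Real.log_pow]; push_cast; ring
    linarith
  have h4 : x * Real.log x / 6 ≤ x / 3 * Real.log (x / 3) := by
    rw [Real.log_div hx0.ne' (by norm_num)]
    nlinarith
  have h5 : (N : ℝ) ≤ 2 * L * (x * Real.log x) := by
    have a1 : (N : ℝ) ≤ NZ x := by exact_mod_cast SG.le_NZ_ord hN1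
    have a2 := hNZ x (by linarith) x hx0.le le_rfl
    have a3 : L * Real.log x * (x + 1) ≤ L * Real.log x * (2 * x) := by
      gcongr
      linarith
    linarith
  have e : {n : ℕ | 1 ≤ n ∧ n ≤ N ∧ Q n} =
      (((Finset.Ioc 0 N).filter (fun n => Q n) : Finset ℕ) : Set ℕ) := by
    ext n
    rw [Finset.coe_filter]
    simp only [Set.mem_ofPred_eq, Finset.mem_Ioc]
    constructor
    · rintro ⟨a, b, c⟩; exact ⟨⟨by omega, b⟩, c⟩
    · rintro ⟨⟨a, b⟩, c⟩; exact ⟨by omega, b, c⟩
  rw [e, Set.ncard_coe_finset, Finset.card_filter]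
  push_cast
  have k0 : ∑ n ∈ Ib (x / 3), idc Q n ≤ ∑ n ∈ Finset.Ioc 0 N, (if Q n then (1 : ℝ) else 0) := by
    unfold idc
    apply Finset.sum_le_sum_of_subset_of_nonneg
    · intro n hn
      obtain ⟨a1, a2, a3⟩ := mem_Ib.1 hn
      rw [Finset.mem_Ioc]
      refine ⟨by omega, ?_⟩
      by_contra hcon
      push Not at hcon
      have := SG.ord_mono hN1 hcon.le
      rw [← hx] at this
      linarith
    · intro n _ _
      split_ifs <;> norm_num
  refine le_trans ?_ k0
  refine le_trans ?_ h1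
  calc 1 / (12 * L) * κ * N ≤ 1 / (12 * L) * κ * (2 * L * (x * Real.log x)) := by gcongr
    _ = κ * (x * Real.log x / 6) := by field_simp; ring
    _ ≤ κ * (x / 3 * Real.log (x / 3)) := by gcongr

end Pool.Agent.H478.LD
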