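import Pool.Agent.H478.LD7

/-! From heights to indices. -/

open Finset Complex MeasureTheory Filter Topology ProbabilityTheory

namespace Pool.Agent.H478.LD

open Pool.Agent.H478.CW
open Pool.Agent.H478.EX
open Pool.Agent.R321.FA
open SP (ZZ mu Mk RHs)
open SG (ord NZ zmult ZS)
open Pool.Agent.TH800.LD (ZZf)
open TH800.MS (dlt)

lemma nc_up' {T : ℝ} {K : ℝ} (hT : 10 ≤ T) {t γ : ℝ} (h1 : t ≤ γ)
    (h2 : γ ≤ t + 2 * Real.pi * K / Real.log T) (y : ℝ) : nc T γ y ≤ nc T t (y + K) := by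
  have hL := log_one_le hT
  apply nc_sub (by linarith)
  intro s h3 h4
  refine ⟨by linarith, ?_⟩
  have e : 2 * Real.pi * (y + K) / Real.log T = 2 * Real.pi * y / Real.log T +
      2 * Real.pi * K / Real.log T := by ring
  rw [e]; linarith

lemma nc_low' {T : ℝ} {K : ℝ} (hT : 10 ≤ T) {t γ : ℝ} (h1 : t ≤ γ)
    (h2 : γ ≤ t + 2 * Real.pi * K / Real.log T) (y : ℝ) : nc T t y ≤ nc T t K + nc T γ y := by
  have hT1 : 1 ≤ T := by linarith
  rw [nc_eq hT1, nc_eq hT1, nc_eq hT1, ← Finset.sum_add_distrib]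
  refine Finset.sum_le_sum fun s _ => ?_
  rw [← mul_add]
  apply mul_le_mul_of_nonneg_left _ (Nat.cast_nonneg _)
  by_cases hs : t < s.im ∧ s.im ≤ t + 2 * Real.pi * y / Real.log T
  · rw [if_pos hs]
    by_cases h3 : s.im ≤ γ
    · rw [if_pos ⟨hs.1, by linarith⟩]
      split_ifs <;> norm_num
    · push Not at h3
      have h4 : γ < s.im ∧ s.im ≤ γ + 2 * Real.pi * y / Real.log T := ⟨h3, by linarith [hs.2]⟩
      rw [if_pos h4]
      split_ifs <;> norm_num
  · rw [if_neg hs]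
    split_ifs <;> norm_num

/-- windows are short -/
lemma win_short (Y : ℝ) : ∀ᶠ T : ℝ in atTop, 10 ≤ T ∧ 1 ≤ Real.log T ∧
    ∀ y : ℝ, 0 ≤ y → y ≤ Y → 0 ≤ 2 * Real.pi * y / Real.log T ∧ 2 * Real.pi * y / Real.log T ≤ 1 ∧
      6 * y ≤ Real.log T := by
  have hpi := Real.pi_pos
  have hpi3 := Real.pi_gt_three
  filter_upwards [eventually_ge_atTop 10, Real.tendsto_log_atTop.eventually_ge_atTop
    (2 * Real.pi * |Y|)] with T hT hL
  have hL1 := log_one_le hT
  have hL0 : 0 < Real.log T := by linarith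
  refine ⟨hT, hL1, fun y h0 h1 => ?_⟩
  have h2 : y ≤ |Y| := h1.trans (le_abs_self _)
  have h3 : 2 * Real.pi * y ≤ 2 * Real.pi * |Y| := by gcongr
  refine ⟨by positivity, ?_, by nlinarith⟩
  rw [div_le_one hL0]
  linarith

/-- **if the counts are regular then the sum of gaps is** -/
lemma det_up (RH : RiemannHypothesis) {r : ℕ} {z b : ℝ} (hz : 2 ≤ z) (hzr : z ≤ r) :
    ∀ᶠ T : ℝ in atTop, ∀ t, ∀ n ∈ Ib T, ord n ≤ 2 * T - 1 → t < ord n →
      ord n ≤ t + 2 * Real.pi / Real.log T → nc T t 1 ≤ b →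
      |nc T t (r + z - 2) - (r + z - 2)| < z - 2 - b →
      |nc T t (r - z + 1) - (r - z + 1)| < z - 1 - b →
      ¬ (r + z ≤ ∑ i ∈ Finset.range r, dlt (n + i)) ∧
      ¬ (∑ i ∈ Finset.range r, dlt (n + i) ≤ r - z) := by
  filter_upwards [win_short (r + z)] with T hw
  obtain ⟨hT10, hL1, hwin⟩ := hw
  intro t n hn hn2 ht1 ht2 hb h1 h2
  have hT1 : 1 ≤ T := by linarith
  set L := Real.log T with hLdef
  have hL0 : 0 < L := by linarith
  set γ := ord n with hγ
  have hr0 : (0 : ℝ) ≤ r := Nat.cast_nonneg _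
  have hmu : (mu (zo γ) : ℝ) ≤ b := by
    refine le_trans ?_ hb
    have hzo : zo γ ∈ ZZ T := by
      obtain ⟨q1, q2, q3⟩ := mem_Ib.1 hn
      have hb : n ∈ W200.HW.Ix (2 * T) := W200.HW.mem_Ix.2 ⟨q1, q3⟩
      obtain ⟨s0, s1, s2, s3, s4⟩ := W200.HW.zero_at RH hb
      exact ⟨s1, s2, by rw [zo_im]; exact q2, by rw [zo_im]; exact q3, s0⟩
    exact mu_le_nc hT1 hzo (by rw [zo_im]; exact ht1) (by rw [zo_im, mul_one]; exact ht2)
  constructor
  · intro hS
    set y : ℝ := r + z - 2 with hy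
    have hy0 : 0 ≤ y := by linarith
    obtain ⟨w1, w2, w3⟩ := hwin y hy0 (by linarith)
    have hlt : nc T γ y < r := by
      by_contra hcon
      push Not at hcon
      have c1 := ord_of_nc RH hT1 hn (k := r) (x := y) (by linarith) w1 (by rw [← hγ]; exact hcon)
      have c2 := S_of_ord hT10 hn hy0 w3 (by linarith) c1
      linarith
    have a1 := nc_low hT10 ht1.le ht2 y
    rw [abs_lt] at h1
    linarith [h1.1]
  · intro hS
    set y : ℝ := r - z with hy
    have hy0 : 0 ≤ y := by linarith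
    obtain ⟨w1, w2, w3⟩ := hwin y hy0 (by linarith)
    have c1 := ord_of_S hT10 hn hS
    have c2 := nc_of_ord RH hT1 hn (by linarith) w1 c1
    rw [← hγ] at c2
    have a1 := nc_up hT10 ht1.le ht2 y
    rw [abs_lt] at h2
    linarith [h2.2]

/-- **if the count is irregular then the sum of gaps is** -/
lemma det_low (RH : RiemannHypothesis) {r : ℕ} {z K b : ℝ} (hz : 0 ≤ z) (hzr : z + 1 ≤ r)
    (hK : 0 ≤ K) :
    ∀ᶠ T : ℝ in atTop, ∀ t, ∀ n ∈ Ib T, ord n ≤ 2 * T - 1 → t < ord n →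
      ord n ≤ t + 2 * Real.pi * K / Real.log T → nc T t K ≤ b →
      (nc T t (r + z + K) - (r + z + K) < -(z + K + b) →
        r + z ≤ ∑ i ∈ Finset.range r, dlt (n + i)) ∧
      (z + 1 + b ≤ nc T t (r - z - 1) - (r - z - 1) →
        ∑ i ∈ Finset.range r, dlt (n + i) ≤ r - z) := by
  filter_upwards [win_short (r + z + K)] with T hw
  obtain ⟨hT10, hL1, hwin⟩ := hw
  intro t n hn hn2 ht1 ht2 hb
  have hT1 : 1 ≤ T := by linarith
  set L := Real.log T with hLdef
  have hL0 : 0 < L := by linarith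
  set γ := ord n with hγ
  have hr0 : (0 : ℝ) ≤ r := Nat.cast_nonneg _
  have hmu : (mu (zo γ) : ℝ) ≤ b := by
    refine le_trans ?_ hb
    have hzo : zo γ ∈ ZZ T := by
      obtain ⟨q1, q2, q3⟩ := mem_Ib.1 hn
      have hb : n ∈ W200.HW.Ix (2 * T) := W200.HW.mem_Ix.2 ⟨q1, q3⟩
      obtain ⟨s0, s1, s2, s3, s4⟩ := W200.HW.zero_at RH hb
      exact ⟨s1, s2, by rw [zo_im]; exact q2, by rw [zo_im]; exact q3, s0⟩
    exact mu_le_nc hT1 hzo (by rw [zo_im]; exact ht1) (by rw [zo_im]; exact ht2)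
  constructor
  · intro h1
    by_contra hcon
    push Not at hcon
    set y : ℝ := r + z with hy
    have hy0 : 0 ≤ y := by linarith
    obtain ⟨w1, w2, w3⟩ := hwin y hy0 (by linarith)
    have c1 := ord_of_S hT10 hn hcon.le
    have c2 := nc_of_ord RH hT1 hn (by linarith) w1 c1
    rw [← hγ] at c2
    have a1 := nc_up' hT10 ht1.le ht2 y
    linarith
  · intro h1
    set y : ℝ := r - z - 1 with hy
    have hy0 : 0 ≤ y := by linarith
    obtain ⟨w1, w2, w3⟩ := hwin y hy0 (by linarith)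
    have a1 := nc_low' hT10 ht1.le ht2 y
    have c1 := ord_of_nc RH hT1 hn (k := r) (x := y) (by linarith) w1 (by rw [← hγ]; linarith)
    have c2 := S_of_ord hT10 hn hy0 w3 (by linarith) c1
    linarith

end Pool.Agent.H478.LD
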