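import Pool.Agent.H478.LD8

/-! Moderate and large deviations of the sums of consecutive gaps. -/

open Finset Complex MeasureTheory Filter Topology ProbabilityTheory

namespace Pool.Agent.H478.LD

open Pool.Agent.H478.CW
open Pool.Agent.H478.EX
open Pool.Agent.R321.FA
open SP (ZZ mu Mk RHs)
open SG (ord NZ zmult ZS)
open Pool.Agent.TH800.LD (ZZf)
open TH800.MS (dlt)

lemma Gx_ge' {ℓ z : ℝ} (hℓ : 0 < ℓ) : z ^ 2 / ℓ ≤ Gx ℓ z := by
  unfold Gx
  have hpi3 := Real.pi_gt_three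
  rw [div_le_div_iff₀ hℓ (by positivity)]
  have h3 : 2 ≤ Real.pi ^ 2 := by nlinarith
  calc z ^ 2 * (2 * ℓ) = 2 * z ^ 2 * ℓ := by ring
    _ ≤ Real.pi ^ 2 * z ^ 2 * ℓ := by gcongr

/-- common facts about the range -/
lemma range_facts {c : ℝ} (hc1 : c ≤ 1) : ∀ᶠ r : ℕ in atTop, 1 ≤ Real.log r ∧
    Real.exp (Real.log r) = r ∧ 0 ≤ Real.log (Real.log r) ∧
    ∀ z, z ≤ c * Real.log r * Real.log (Real.log r) → 8 * z + 8 ≤ r := by
  filter_upwards [nlog.eventually (pow_exp 16 2), nlog.eventually_ge_atTop 1,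
    eventually_ge_atTop 1] with r h1 h2 h3
  have hr0 : (0 : ℝ) < r := by exact_mod_cast h3
  have he : Real.exp (Real.log r) = r := Real.exp_log hr0
  refine ⟨h2, he, Real.log_nonneg h2, fun z hz => ?_⟩
  rw [he] at h1
  have h4 : Real.log (Real.log r) ≤ Real.log r := Real.log_le_self (by linarith)
  have h5 := Real.log_nonneg h2
  have h6 : c * Real.log r * Real.log (Real.log r) ≤ 1 * Real.log r * Real.log r := by
    have h7 : 0 ≤ Real.log r * Real.log (Real.log r) := by positivity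
    nlinarith
  nlinarith

/-- **upper bound** -/
theorem idx_up (RH : RiemannHypothesis) {ε : ℝ} (hε : 0 < ε) (hε1 : ε ≤ 1) : ∃ K c : ℝ, 1 ≤ K ∧
    0 < c ∧ c ≤ 1 ∧ ∀ᶠ r : ℕ in atTop, ∀ z, K * Real.sqrt (Real.log r) ≤ z →
      z ≤ c * Real.log r * Real.log (Real.log r) →
      ∀ᶠ N : ℕ in atTop, (({n : ℕ | 1 ≤ n ∧ n ≤ N ∧ (r + z ≤ ∑ i ∈ Finset.range r, dlt (n + i) ∨
        ∑ i ∈ Finset.range r, dlt (n + i) ≤ r - z)}.ncard : ℕ) : ℝ) ≤
        Real.exp (-((1 - ε) * Gx (Real.log r) z)) * N := by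
  have hRH := rhs_of RH
  set e := ε / 64 with he
  have he0 : 0 < e := by positivity
  have he1 : e ≤ 1 / 64 := by rw [he]; linarith
  obtain ⟨K1, c1, hK1, hc1, hup⟩ := height_up hRH (by linarith : 0 < ε / 4) (by linarith)
  obtain ⟨M, c2, hM1, hc2, hwin⟩ := height_win hRH he0 (by norm_num : (0 : ℝ) < 20)
  obtain ⟨C, hC1, hcount⟩ := two_count RH
  obtain ⟨g0, hg0⟩ := eventually_atTop.1 (lin_exp (64 * (9 / 2) * M) (64 * C)
    (by positivity : 0 < ε / 2))
  refine ⟨2 * K1 + max 1 g0, min (min 1 c1) c2, by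
    have : 1 ≤ max 1 g0 := le_max_left _ _
    linarith, lt_min (lt_min one_pos hc1) hc2, (min_le_left _ _).trans (min_le_left _ _), ?_⟩
  filter_upwards [nlog.eventually hup, nlog.eventually hwin,
    range_facts ((min_le_left _ _).trans (min_le_left _ _) : min (min 1 c1) c2 ≤ 1),
    nlog.eventually (Real.tendsto_sqrt_atTop.eventually_ge_atTop (4 / e))] with
    r hup hwin hfacts hsq
  obtain ⟨hℓ1, hexp, hll0, hzr⟩ := hfacts
  intro z hz1 hz2
  set ℓ := Real.log r with hℓ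
  have hℓ0 : 0 < ℓ := by linarith
  have hs0 : 0 < Real.sqrt ℓ := Real.sqrt_pos.2 hℓ0
  have hmx : 1 ≤ max 1 g0 := le_max_left _ _
  have hK2 : 1 ≤ 2 * K1 + max 1 g0 := by linarith
  have hzs : Real.sqrt ℓ ≤ z := by nlinarith
  have hz0 : 0 < z := by linarith
  have h8 := hzr z hz2
  have hez : 4 ≤ e * z := by
    rw [div_le_iff₀ he0] at hsq
    nlinarith
  have hz4 : 4 ≤ z := by nlinarith
  have hzc1 : z ≤ c1 * ℓ * Real.log ℓ := by
    refine hz2.trans ?_
    have : min (min 1 c1) c2 ≤ c1 := (min_le_left _ _).trans (min_le_right _ _)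
    gcongr
  have hzc2 : z ≤ c2 * ℓ * Real.log ℓ := by
    refine hz2.trans ?_
    have : min (min 1 c1) c2 ≤ c2 := min_le_right _ _
    gcongr
  have hK1z : K1 * Real.sqrt ℓ ≤ (1 - 2 * e) * z := by
    have a1 : K1 * Real.sqrt ℓ * 2 ≤ z := by nlinarith
    nlinarith
  obtain ⟨hk2, hwin⟩ := hwin z hzs hzc2
  set K := Kw M e ℓ z with hK
  have hKe : K ≤ e * z := min_le_right _ _
  have hKM : K ≤ M * (z ^ 2 / ℓ) := min_le_left _ _
  have hG := Gx_ge hℓ0 (by linarith) hz1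
  have hG2 := Gx_le (z := z) hℓ0
  have hG3 := Gx_ge' (z := z) hℓ0
  have hsc : Gx ℓ ((1 - 2 * e) * z) = (1 - 2 * e) ^ 2 * Gx ℓ z := Gx_scale
  set G := Gx ℓ z with hGdef
  have hGg : g0 ≤ G := by
    have a1 : g0 ≤ max 1 g0 := le_max_right _ _
    nlinarith
  have hG0 : 0 < G := by nlinarith
  have hzz : (1 - 2 * e) * z ≤ z := by nlinarith
  have u1 := hup ((1 - 2 * e) * z) hK1z (hzz.trans hzc1) (r + z - 2)
    (by rw [hexp]; linarith) (by rw [hexp]; linarith)
  have u2 := hup ((1 - 2 * e) * z) hK1z (hzz.trans hzc1) (r - z + 1)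
    (by rw [hexp]; linarith) (by rw [hexp]; linarith)
  rw [hsc] at u1 u2
  set p := Real.exp (-((1 - ε / 4) * ((1 - 2 * e) ^ 2 * G))) with hp
  set w := Real.exp (-(20 * (z ^ 2 / ℓ))) with hw
  have hp0 : 0 < p := Real.exp_pos _
  have hw0 : 0 < w := Real.exp_pos _
  set q2 := Real.exp (-(10 * (z ^ 2 / ℓ))) with hq2
  have hq20 : 0 < q2 := Real.exp_pos _
  have hq2sq : q2 ^ 2 = w := by
    rw [hq2, hw, ← Real.exp_nat_mul]; congr 1; push_cast; ring
  have s1 := (u1.and u2 hp0.le hp0.le).and hwin (by positivity) hw0.le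
  have hB0 : 0 ≤ 3 / 2 * K := by linarith
  have hmain := hcount (p + p + w) q2 (3 / 2 * K) (by positivity) hq20 hB0 _ _ s1
    (by rw [hq2sq]; exact hwin) (by
      filter_upwards [eventually_ge_atTop 10] with T hT t h
      have a1 := nc_mono hT t (by linarith : (1 : ℝ) ≤ K)
      rw [abs_le] at h
      linarith [h.2])
    (fun n => ¬ (r + z ≤ ∑ i ∈ Finset.range r, dlt (n + i) ∨
        ∑ i ∈ Finset.range r, dlt (n + i) ≤ r - z)) (by
      filter_upwards [det_up RH (r := r) (z := z) (b := 3 / 2 * K) (by linarith) (by linarith),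
        eventually_ge_atTop 10] with T hT hT10
      intro t h1 _ n hn hn2 ht1 ht2
      obtain ⟨⟨a1, a2⟩, a3⟩ := h1
      have a4 := nc_mono hT10 t (by linarith : (1 : ℝ) ≤ K)
      rw [abs_le] at a3
      have hthr : (1 - 2 * e) * z ≤ z - 2 - 3 / 2 * K := by linarith
      obtain ⟨b1, b2⟩ := hT t n hn hn2 ht1 ht2 (by linarith [a3.2]) (a1.trans_le hthr)
        (a2.trans_le (by linarith))
      exact not_or.2 ⟨b1, b2⟩)
  apply all_bad (Real.exp_pos _)
  filter_upwards [hmain, eventually_ge_atTop 1] with T hT hT1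
  have hTL : 0 ≤ T * Real.log T := mul_nonneg (by linarith) (Real.log_nonneg hT1)
  simp only [not_not] at hT
  refine hT.trans ?_
  apply mul_le_mul_of_nonneg_right _ hTL
  have b1 : p ≤ Real.exp (-((1 - ε / 2) * G)) := by
    apply Real.exp_le_exp.2
    have : 1 - ε / 2 ≤ (1 - ε / 4) * (1 - 2 * e) ^ 2 := by
      have a1 : 1 - 4 * e ≤ (1 - 2 * e) ^ 2 := by nlinarith
      calc 1 - ε / 2 ≤ (1 - ε / 4) * (1 - 4 * e) := by rw [he]; nlinarith
        _ ≤ _ := by
            apply mul_le_mul_of_nonneg_left a1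
            linarith
    nlinarith
  have b2 : w ≤ Real.exp (-((1 - ε / 2) * G)) := by
    apply Real.exp_le_exp.2
    nlinarith
  have b3 : q2 ≤ Real.exp (-((1 - ε / 2) * G)) := by
    apply Real.exp_le_exp.2
    nlinarith
  set X := Real.exp (-((1 - ε / 2) * G)) with hX
  have hX0 : 0 < X := Real.exp_pos _
  have b4 := hg0 G hGg
  have b5 : Real.exp (-((1 - ε) * G)) = Real.exp (ε / 2 * G) * X := by
    rw [hX, ← Real.exp_add]; congr 1; ring
  rw [b5]
  have hKG : K ≤ M * G := hKM.trans (by gcongr)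
  calc C * q2 + 3 / 2 * K * (p + p + w) ≤ C * X + 3 / 2 * (M * G) * (X + X + X) := by
        gcongr
    _ = (64 * (9 / 2) * M * G + 64 * C) * X / 64 := by ring
    _ ≤ Real.exp (ε / 2 * G) * X / 64 := by gcongr

/-- **lower bounds** -/
theorem idx_low (RH : RiemannHypothesis) {ε : ℝ} (hε : 0 < ε) (hε1 : ε ≤ 1) : ∃ K c : ℝ, 1 ≤ K ∧
    0 < c ∧ c ≤ 1 ∧ ∀ᶠ r : ℕ in atTop, ∀ z, K * Real.sqrt (Real.log r) ≤ z →
      z ≤ c * Real.log r * Real.log (Real.log r) →
      ∀ᶠ N : ℕ in atTop,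
        Real.exp (-((1 + ε) * Gx (Real.log r) z)) * N ≤
          (({n : ℕ | 1 ≤ n ∧ n ≤ N ∧ r + z ≤ ∑ i ∈ Finset.range r, dlt (n + i)}.ncard : ℕ) : ℝ) ∧
        Real.exp (-((1 + ε) * Gx (Real.log r) z)) * N ≤
          (({n : ℕ | 1 ≤ n ∧ n ≤ N ∧ ∑ i ∈ Finset.range r, dlt (n + i) ≤ r - z}.ncard : ℕ) : ℝ) := by
  have hRH := rhs_of RH
  have hpi := Real.pi_pos
  set e := ε / 64 with he
  have he0 : 0 < e := by positivity
  have he1 : e ≤ 1 / 64 := by rw [he]; linarith
  obtain ⟨K1, c1, hK1, hc1, hlow⟩ := height_low hRH (by linarith : 0 < ε / 4) (by linarith)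
    (by linarith : 0 < e / 2) (by linarith)
  obtain ⟨M, c2, hM1, hc2, hwin⟩ := height_win hRH he0 (by norm_num : (0 : ℝ) < 20)
  obtain ⟨c0, hc0, hall⟩ := all_low RH
  obtain ⟨g0, hg0⟩ := eventually_atTop.1 (lin_exp (4 * Real.pi * M / c0) 0
    (by positivity : 0 < ε / 2))
  refine ⟨K1 + max 1 g0, min (min 1 (c1 / 2)) c2, by
    have : 1 ≤ max 1 g0 := le_max_left _ _
    linarith, lt_min (lt_min one_pos (by positivity)) hc2,
    (min_le_left _ _).trans (min_le_left _ _), ?_⟩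
  filter_upwards [nlog.eventually hlow, nlog.eventually hwin,
    range_facts ((min_le_left _ _).trans (min_le_left _ _) : min (min 1 (c1 / 2)) c2 ≤ 1),
    nlog.eventually (Real.tendsto_sqrt_atTop.eventually_ge_atTop (4 / e))] with
    r hlow hwin hfacts hsq
  obtain ⟨hℓ1, hexp, hll0, hzr⟩ := hfacts
  intro z hz1 hz2
  set ℓ := Real.log r with hℓ
  have hℓ0 : 0 < ℓ := by linarith
  have hs0 : 0 < Real.sqrt ℓ := Real.sqrt_pos.2 hℓ0
  have hmx : 1 ≤ max 1 g0 := le_max_left _ _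
  have hzs : Real.sqrt ℓ ≤ z := by nlinarith
  have hz0 : 0 < z := by linarith
  have h8 := hzr z hz2
  have hez : 4 ≤ e * z := by
    rw [div_le_iff₀ he0] at hsq
    nlinarith
  have hz4 : 4 ≤ z := by nlinarith
  have hzc1 : 2 * z ≤ c1 * ℓ * Real.log ℓ := by
    have : min (min 1 (c1 / 2)) c2 ≤ c1 / 2 := (min_le_left _ _).trans (min_le_right _ _)
    have h1 : z ≤ c1 / 2 * ℓ * Real.log ℓ := hz2.trans (by gcongr)
    linarith
  have hzc2 : z ≤ c2 * ℓ * Real.log ℓ := by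
    refine hz2.trans ?_
    have : min (min 1 (c1 / 2)) c2 ≤ c2 := min_le_right _ _
    gcongr
  obtain ⟨hk2, hwin⟩ := hwin z hzs hzc2
  set K := Kw M e ℓ z with hK
  have hKe : K ≤ e * z := min_le_right _ _
  have hKM : K ≤ M * (z ^ 2 / ℓ) := min_le_left _ _
  have hG := Gx_ge hℓ0 (by linarith) hz1
  have hG2 := Gx_le (z := z) hℓ0
  have hG3 := Gx_ge' (z := z) hℓ0
  have hsc : Gx ℓ ((1 + 4 * e) * z) = (1 + 4 * e) ^ 2 * Gx ℓ z := Gx_scale
  set G := Gx ℓ z with hGdef
  have hGg : g0 ≤ G := by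
    have a1 : g0 ≤ max 1 g0 := le_max_right _ _
    nlinarith
  have hG4 : 4 ≤ G := by nlinarith
  have hG0 : 0 < G := by nlinarith
  set z' := (1 + 4 * e) * z with hz'
  have hz'1 : z ≤ z' := by nlinarith
  have hz'2 : z' ≤ 2 * z := by nlinarith
  have hK1z : K1 * Real.sqrt ℓ ≤ z' := by nlinarith
  have hKpos : 0 < K := by linarith
  set p := Real.exp (-((1 + ε / 4) * ((1 + 4 * e) ^ 2 * G))) with hp
  set w := Real.exp (-(20 * (z ^ 2 / ℓ))) with hw
  have hp0 : 0 < p := Real.exp_pos _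
  have hw0 : 0 < w := Real.exp_pos _
  set X := Real.exp (-((1 + ε / 2) * G)) with hX
  have hX0 : 0 < X := Real.exp_pos _
  have hpw : 1 / 2 * X ≤ p - w := by
    have b1 : X ≤ p := by
      apply Real.exp_le_exp.2
      have : (1 + ε / 4) * (1 + 4 * e) ^ 2 ≤ 1 + ε / 2 := by
        have a1 : (1 + 4 * e) ^ 2 ≤ 1 + 9 * e := by nlinarith
        calc (1 + ε / 4) * (1 + 4 * e) ^ 2 ≤ (1 + ε / 4) * (1 + 9 * e) := by gcongr
          _ ≤ _ := by rw [he]; nlinarith
      nlinarith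
    have b2 : w ≤ 1 / 2 * X := by
      have a1 : w ≤ Real.exp (-1) * X := by
        rw [hw, hX, ← Real.exp_add]
        apply Real.exp_le_exp.2
        nlinarith
      have a2 : Real.exp (-1) ≤ 1 / 2 := by
        rw [Real.exp_neg, ← one_div]
        apply one_div_le_one_div_of_le (by norm_num)
        have := Real.exp_one_gt_d9
        linarith
      exact a1.trans (by gcongr)
    linarith
  have hfinal : Real.exp (-((1 + ε) * G)) ≤ c0 * ((1 / 2 * X) / (2 * Real.pi * K)) := by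
    have b4 := hg0 G hGg
    have b5 : X = Real.exp (ε / 2 * G) * Real.exp (-((1 + ε) * G)) := by
      rw [hX, ← Real.exp_add]; congr 1; ring
    rw [mul_div_assoc', le_div_iff₀ (by positivity)]
    have hKG : K ≤ M * G := hKM.trans (by gcongr)
    set Y := Real.exp (-((1 + ε) * G)) with hY
    have hY0 : 0 < Y := Real.exp_pos _
    rw [b5]
    calc Y * (2 * Real.pi * K) ≤ Y * (2 * Real.pi * (M * G)) := by gcongr
      _ = c0 * (1 / 2 * ((4 * Real.pi * M / c0 * G + 0) * Y)) := by field_simp; ring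
      _ ≤ c0 * (1 / 2 * (Real.exp (ε / 2 * G) * Y)) := by gcongr
  have hκ : 0 < 1 / 2 * X / (2 * Real.pi * K) := by positivity
  -- the two events
  have l1 := (hlow z' hK1z (hz'2.trans hzc1) (r + z + K) (by rw [hexp]; linarith)
    (by rw [hexp]; nlinarith) (-z') (by rw [abs_neg, abs_of_pos (by linarith)])).and hwin hw0.le
  have l2 := (hlow z' hK1z (hz'2.trans hzc1) (r - z - 1) (by rw [hexp]; linarith)
    (by rw [hexp]; linarith) z' (by rw [abs_of_pos (by linarith)])).and hwin hw0.le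
  rw [hsc] at l1 l2
  have hez' : e / 2 * z' ≤ e * z := by nlinarith
  have m1 := low_count RH (by positivity) hKpos (l1.weaken hpw)
    (Q := fun n => r + z ≤ ∑ i ∈ Finset.range r, dlt (n + i)) (Eventually.of_forall fun T t h => by
      have := (abs_le.1 h.2).1
      linarith) (by
      filter_upwards [det_low RH (r := r) (z := z) (K := K) (b := 3 / 2 * K) hz0.le (by linarith)
        hKpos.le] with T hT t h n hn hn2 ht1 ht2
      obtain ⟨a1, a2⟩ := h
      rw [abs_le] at a1 a2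
      refine (hT t n hn hn2 ht1 ht2 (by linarith [a2.2])).1 ?_
      have e1 : z' = z + 4 * (e * z) := by rw [hz']; ring
      linarith [a1.2])
  have m2 := low_count RH (by positivity) hKpos (l2.weaken hpw)
    (Q := fun n => ∑ i ∈ Finset.range r, dlt (n + i) ≤ r - z) (Eventually.of_forall fun T t h => by
      have := (abs_le.1 h.2).1
      linarith) (by
      filter_upwards [det_low RH (r := r) (z := z) (K := K) (b := 3 / 2 * K) hz0.le (by linarith)
        hKpos.le] with T hT t h n hn hn2 ht1 ht2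
      obtain ⟨a1, a2⟩ := h
      rw [abs_le] at a1 a2
      refine (hT t n hn hn2 ht1 ht2 (by linarith [a2.2])).2 ?_
      have e1 : z' = z + 4 * (e * z) := by rw [hz']; ring
      linarith [a1.1])
  filter_upwards [hall _ _ hκ m1, hall _ _ hκ m2] with N n1 n2
  have hN : Real.exp (-((1 + ε) * G)) * N ≤ c0 * (1 / 2 * X / (2 * Real.pi * K)) * N := by gcongr
  exact ⟨hN.trans n1, hN.trans n2⟩

end Pool.Agent.H478.LD
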