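import Pool.Agent.H478.EX18

/-! Number rigidity: the kernels. -/

open Finset Complex MeasureTheory Filter Topology ProbabilityTheory

namespace Pool.Agent.H478.RG

open Pool.Agent.H478.CW
open Pool.Agent.H478.EX
open Pool.Agent.R321.FA
open SP (ZZ mu Mk RHs)
open H370.A2 (RR evp evp_zero)
open Pool.Agent.TH800.LD (ZZf)

/-- the scales -/
noncomputable def sc (Y : ℝ) (i : ℕ) : ℝ := Y * 2 ^ i

lemma sc_pos {Y : ℝ} (hY : 0 < Y) (i : ℕ) : 0 < sc Y i := by unfold sc; positivity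

lemma sc_ge {Y : ℝ} (hY : 0 < Y) (i : ℕ) : Y ≤ sc Y i := by
  unfold sc
  have : (1 : ℝ) ≤ 2 ^ i := one_le_pow₀ (by norm_num)
  nlinarith

lemma sc_mono {Y : ℝ} (hY : 0 < Y) {i j : ℕ} (h : i ≤ j) : sc Y i ≤ sc Y j := by
  unfold sc
  have : (2 : ℝ) ^ i ≤ 2 ^ j := pow_le_pow_right₀ (by norm_num) h
  gcongr

/-- the kernel -/
noncomputable def kern (J : ℕ) (Y u : ℝ) : ℝ :=
  1 / J * ∑ i ∈ Finset.range J, Real.sinc (Real.pi * (u / (Y * 2 ^ i))) ^ 2

lemma kern_eq (J : ℕ) (Y u : ℝ) : kern J Y u = 1 / J * ∑ i ∈ Finset.range J, fej (1 / sc Y i * u) := by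
  unfold kern fej sc
  congr 1
  refine Finset.sum_congr rfl fun i _ => ?_
  congr 3
  ring

lemma kern_nonneg (J : ℕ) (Y u : ℝ) : 0 ≤ kern J Y u := by
  unfold kern
  exact mul_nonneg (by positivity) (Finset.sum_nonneg fun _ _ => sq_nonneg _)

lemma fej_le_one (y : ℝ) : fej y ≤ 1 := by
  unfold fej
  rw [← sq_abs]
  exact pow_le_one₀ (abs_nonneg _) (Real.abs_sinc_le_one _)

lemma avg_le {J : ℕ} (hJ : 0 < J) {g : ℕ → ℝ} {c : ℝ} (h : ∀ i < J, g i ≤ c) :
    1 / (J : ℝ) * ∑ i ∈ Finset.range J, g i ≤ c := by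
  have hJ0 : (0 : ℝ) < J := by exact_mod_cast hJ
  calc 1 / (J : ℝ) * ∑ i ∈ Finset.range J, g i ≤ 1 / (J : ℝ) * ∑ _i ∈ Finset.range J, c := by
        gcongr with i hi
        exact h i (Finset.mem_range.1 hi)
    _ = c := by rw [Finset.sum_const, Finset.card_range, nsmul_eq_mul]; field_simp

lemma avg_ge {J : ℕ} (hJ : 0 < J) {g : ℕ → ℝ} {c : ℝ} (h : ∀ i < J, c ≤ g i) :
    c ≤ 1 / (J : ℝ) * ∑ i ∈ Finset.range J, g i := by
  have hJ0 : (0 : ℝ) < J := by exact_mod_cast hJ
  calc c = 1 / (J : ℝ) * ∑ _i ∈ Finset.range J, c := by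
        rw [Finset.sum_const, Finset.card_range, nsmul_eq_mul]; field_simp
    _ ≤ _ := by
        gcongr with i hi
        exact h i (Finset.mem_range.1 hi)

lemma kern_le_one {J : ℕ} (hJ : 0 < J) (Y u : ℝ) : kern J Y u ≤ 1 := by
  rw [kern_eq]
  exact avg_le hJ fun i _ => fej_le_one _

/-- the kernel is near one on short windows -/
lemma kern_near {J : ℕ} (hJ : 0 < J) {Y : ℝ} (hY : 0 < Y) {u s : ℝ} (hu : |u| ≤ s) (hs : Real.pi * s ≤ Y) :
    1 - (Real.pi * s / Y) ^ 2 ≤ kern J Y u := by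
  have hpi := Real.pi_pos
  have hs0 : 0 ≤ s := (abs_nonneg u).trans hu
  rw [kern_eq]
  apply avg_ge hJ
  intro i _
  have hsc := sc_pos hY i
  set y := Real.pi * (1 / sc Y i * u) with hy
  have hyb : |y| ≤ Real.pi * s / Y := by
    rw [hy, abs_mul, abs_mul, abs_of_pos hpi, abs_of_pos (by positivity : 0 < 1 / sc Y i)]
    have h1 : 1 / sc Y i ≤ 1 / Y := one_div_le_one_div_of_le hY (sc_ge hY i)
    calc Real.pi * (1 / sc Y i * |u|) ≤ Real.pi * (1 / Y * s) := by gcongr
      _ = _ := by ring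
  have hy1 : |y| ≤ 1 := hyb.trans (by rw [div_le_one hY]; exact hs)
  have h2 : 1 - y ^ 2 ≤ Real.sinc y ^ 2 := by
    rcases eq_or_ne y 0 with h0 | h0
    · rw [h0]; simp
    · rw [Real.sinc_of_ne_zero h0, div_pow, le_div_iff₀ (by positivity)]
      -- reduce to positive y
      have h3 : ∀ z : ℝ, 0 < z → z ≤ 1 → (1 - z ^ 2) * z ^ 2 ≤ Real.sin z ^ 2 := by
        intro z hz hz1
        have h4 := Real.sin_gt_sub_cube hz
        have h5 : 0 ≤ z - z ^ 3 / 6 := by nlinarith [pow_le_one₀ (n := 2) hz.le hz1]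
        have h6 : (z - z ^ 3 / 6) ^ 2 ≤ Real.sin z ^ 2 := pow_le_pow_left₀ h5 h4.le 2
        nlinarith [pow_pos hz 4, pow_pos hz 6]
      rcases lt_or_gt_of_ne h0 with h | h
      · have := h3 (-y) (by linarith) (by rw [abs_of_neg h] at hy1; exact hy1)
        rw [Real.sin_neg, neg_sq, neg_sq] at this
        exact this
      · exact h3 y h (by rw [abs_of_pos h] at hy1; exact hy1)
  have h3 : y ^ 2 ≤ (Real.pi * s / Y) ^ 2 := by
    rw [← sq_abs]; exact pow_le_pow_left₀ (abs_nonneg _) hyb 2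
  unfold fej
  linarith

/-- the decay of the kernel -/
lemma kern_far {J : ℕ} (hJ : 0 < J) {Y : ℝ} (hY : 0 < Y) {u : ℝ} (hu : u ≠ 0) :
    kern J Y u ≤ sc Y J ^ 2 / u ^ 2 := by
  have hpi := Real.pi_pos
  have hpi3 := Real.pi_gt_three
  rw [kern_eq]
  apply avg_le hJ
  intro i hi
  have hsc := sc_pos hY i
  have hne : 1 / sc Y i * u ≠ 0 := by positivity
  rw [fej_formula hne]
  have h1 : Real.sin (Real.pi * (1 / sc Y i * u)) ^ 2 ≤ 1 := Real.sin_sq_le_one _
  have hu2 : 0 < u ^ 2 := by positivity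
  have h2 : (Real.pi * (1 / sc Y i * u)) ^ 2 = Real.pi ^ 2 * u ^ 2 / sc Y i ^ 2 := by
    field_simp
  rw [h2, div_div_eq_mul_div, div_le_div_iff₀ (by positivity) hu2]
  have h3 : sc Y i ^ 2 ≤ sc Y J ^ 2 := by
    have := sc_mono hY hi.le
    gcongr
  have h4 : Real.sin (Real.pi * (1 / sc Y i * u)) ^ 2 * sc Y i ^ 2 * u ^ 2 ≤ 1 * sc Y J ^ 2 * u ^ 2 := by
    gcongr
  have h5 : 1 * sc Y J ^ 2 * u ^ 2 ≤ sc Y J ^ 2 * (Real.pi ^ 2 * u ^ 2) := by
    have h6 : 0 ≤ sc Y J ^ 2 * u ^ 2 := by positivity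
    have h7 : 1 ≤ Real.pi ^ 2 := by nlinarith
    calc 1 * sc Y J ^ 2 * u ^ 2 = 1 * (sc Y J ^ 2 * u ^ 2) := by ring
      _ ≤ Real.pi ^ 2 * (sc Y J ^ 2 * u ^ 2) := by gcongr
      _ = _ := by ring
  linarith

/-- the Fejer kernel is Lipschitz -/
lemma fej_lip (x y : ℝ) : |fej x - fej y| ≤ 4 * Real.pi * |x - y| := by
  have hpi := Real.pi_pos
  have h1 := tri_RR one_pos x
  have h2 := tri_RR one_pos y
  rw [one_mul] at h1 h2
  rw [← h1, ← h2]
  unfold RR
  have ht := tri_cont 1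
  have hc : ∀ z : ℝ, Continuous fun α => tri 1 α * Real.cos (2 * Real.pi * α * z) := fun z => by
    fun_prop
  rw [← intervalIntegral.integral_sub ((hc x).intervalIntegrable _ _) ((hc y).intervalIntegrable _ _)]
  have h3 := intervalIntegral.norm_integral_le_of_norm_le_const (a := (-1 : ℝ)) (b := 1)
    (C := 2 * Real.pi * |x - y|)
    (f := fun α => tri 1 α * Real.cos (2 * Real.pi * α * x) - tri 1 α * Real.cos (2 * Real.pi * α * y))
    (by
      intro α hα
      rw [Set.uIoc_of_le (by norm_num)] at hα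
      have ha : |α| ≤ 1 := abs_le.2 ⟨hα.1.le, hα.2⟩
      have ht0 := tri_nonneg one_pos α
      have ht1 := tri_le one_pos α
      rw [one_div_one] at ht1
      rw [← mul_sub, Real.norm_eq_abs, abs_mul, abs_of_nonneg ht0]
      have h4 : |Real.cos (2 * Real.pi * α * x) - Real.cos (2 * Real.pi * α * y)| ≤
          |2 * Real.pi * α * x - 2 * Real.pi * α * y| := Real.abs_cos_sub_cos_le _ _
      have h5 : |2 * Real.pi * α * x - 2 * Real.pi * α * y| ≤ 2 * Real.pi * |x - y| := by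
        rw [← mul_sub, abs_mul, abs_mul, abs_of_pos (by positivity : 0 < 2 * Real.pi)]
        have := abs_nonneg (x - y)
        calc 2 * Real.pi * |α| * |x - y| ≤ 2 * Real.pi * 1 * |x - y| := by gcongr
          _ = _ := by ring
      calc tri 1 α * |Real.cos (2 * Real.pi * α * x) - Real.cos (2 * Real.pi * α * y)| ≤
          1 * (2 * Real.pi * |x - y|) := by
            apply mul_le_mul ht1 (h4.trans h5) (abs_nonneg _) zero_le_one
        _ = _ := one_mul _)
  rw [Real.norm_eq_abs] at h3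
  refine h3.trans (le_of_eq ?_)
  norm_num
  ring

lemma kern_lip {J : ℕ} (hJ : 0 < J) {Y : ℝ} (hY : 1 ≤ Y) (x y : ℝ) :
    |kern J Y x - kern J Y y| ≤ 4 * Real.pi * |x - y| := by
  have hpi := Real.pi_pos
  rw [kern_eq, kern_eq, ← mul_sub, ← Finset.sum_sub_distrib, abs_mul,
    abs_of_nonneg (by positivity : (0 : ℝ) ≤ 1 / J)]
  calc 1 / (J : ℝ) * |∑ i ∈ Finset.range J, (fej (1 / sc Y i * x) - fej (1 / sc Y i * y))| ≤
      1 / (J : ℝ) * ∑ i ∈ Finset.range J, |fej (1 / sc Y i * x) - fej (1 / sc Y i * y)| := by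
        gcongr
        exact Finset.abs_sum_le_sum_abs _ _
    _ ≤ _ := avg_le hJ fun i _ => by
        refine (fej_lip _ _).trans ?_
        have hsc := sc_ge (by linarith : 0 < Y) i
        rw [← mul_sub, abs_mul, abs_of_pos (by have := sc_pos (by linarith : 0 < Y) i; positivity)]
        have h1 : 1 / sc Y i ≤ 1 := by rw [div_le_one (by linarith)]; linarith
        have := abs_nonneg (x - y)
        calc 4 * Real.pi * (1 / sc Y i * |x - y|) ≤ 4 * Real.pi * (1 * |x - y|) := by gcongr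
          _ = _ := by rw [one_mul]

/-! ### the statistics -/

/-- the statistic of the kernel, shifted -/
noncomputable def rl (J : ℕ) (Y a : ℝ) : List Ent :=
  (List.range J).map fun i => ⟨1 / J, tri (1 / sc Y i), a⟩

lemma rl_good (J : ℕ) {Y : ℝ} (hY : 1 ≤ Y) (a : ℝ) : Good (rl J Y a) (1 / Y) := by
  intro e he
  simp only [rl, List.mem_map, List.mem_range] at he
  obtain ⟨i, _, rfl⟩ := he
  have hsc := sc_ge (by linarith : 0 < Y) i
  have h1 : 1 / sc Y i ≤ 1 / Y := one_div_le_one_div_of_le (by linarith) hsc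
  have h2 : 1 / sc Y i ≤ 1 := by rw [div_le_one (by linarith)]; linarith
  have h3 : 0 < 1 / sc Y i := by have := sc_pos (by linarith : 0 < Y) i; positivity
  exact (tri_adm h3 h2).wide h3.le h1

lemma listsum_range {M : Type*} [AddCommMonoid M] (J : ℕ) (f : ℕ → M) :
    ((List.range J).map f).sum = ∑ i ∈ Finset.range J, f i := by
  induction J with
  | zero => simp
  | succ J ih => rw [List.range_succ, List.map_append, List.sum_append, ih, Finset.sum_range_succ]; simp

/-- the mean -/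
noncomputable def cJ (J : ℕ) (Y : ℝ) : ℝ := 1 / J * ∑ i ∈ Finset.range J, sc Y i

lemma rl_stt {J : ℕ} {Y : ℝ} (hY : 1 ≤ Y) (a : ℝ) {T : ℝ} (hT : 1 ≤ T) (t : ℝ) :
    stt (rl J Y a) (1 / Y) T t = (∑ s ∈ (ZZf hT).toFinset, (mu s : ℝ) *
      (Real.exp (-(s.im - (t + 2 * Real.pi * a / Real.log T)) ^ 2 / 2) *
      kern J Y ((s.im - (t + 2 * Real.pi * a / Real.log T)) * Real.log T / (2 * Real.pi)))) -
      cJ J Y := by
  unfold stt rl
  rw [List.map_map, listsum_range]
  simp only [Function.comp_apply]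
  have e1 : ∀ i ∈ Finset.range J, 1 / (J : ℝ) * (XX (tri (1 / sc Y i)) (1 / Y) T
      (t + 2 * Real.pi * a / Real.log T) - tri (1 / sc Y i) 0) =
      1 / (J : ℝ) * (∑ s ∈ (ZZf hT).toFinset, (mu s : ℝ) *
      (Real.exp (-(s.im - (t + 2 * Real.pi * a / Real.log T)) ^ 2 / 2) *
      fej (1 / sc Y i * ((s.im - (t + 2 * Real.pi * a / Real.log T)) * Real.log T / (2 * Real.pi))))) -
      1 / (J : ℝ) * sc Y i := by
    intro i _
    have hsc := sc_ge (by linarith : 0 < Y) i
    have h1 : 1 / sc Y i ≤ 1 / Y := one_div_le_one_div_of_le (by linarith) hsc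
    have h2 : 1 / sc Y i ≤ 1 := by rw [div_le_one (by linarith)]; linarith
    have h3 : 0 < 1 / sc Y i := by have := sc_pos (by linarith : 0 < Y) i; positivity
    rw [XX_band (tri_cont _) h3.le h1 (tri_adm h3 h2).zero hT, tri_sum h3 hT, tri_zero_val,
      one_div_one_div, mul_sub]
  rw [Finset.sum_congr rfl e1, Finset.sum_sub_distrib, ← Finset.mul_sum, ← Finset.mul_sum]
  unfold cJ
  congr 1
  rw [Finset.sum_comm, Finset.mul_sum]
  refine Finset.sum_congr rfl fun s _ => ?_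
  rw [kern_eq, ← Finset.mul_sum, ← Finset.mul_sum]
  ring

/-- the sum of the triangles -/
lemma tri_tot {Y : ℝ} (hY : 0 < Y) {v : ℝ} (hv : 0 < v) (J : ℕ) :
    ∑ i ∈ Finset.range J, tri (1 / sc Y i) v ≤ min (2 / v) (sc Y J) := by
  have hterm : ∀ i, tri (1 / sc Y i) v ≤ sc Y i := fun i => by
    have := tri_le (by have := sc_pos hY i; positivity : 0 < 1 / sc Y i) v
    rwa [one_div_one_div] at this
  have hgeo : ∀ J, ∑ i ∈ Finset.range J, sc Y i ≤ sc Y J := by
    intro J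
    induction J with
    | zero => simp [(sc_pos hY 0).le]
    | succ J ih =>
      rw [Finset.sum_range_succ]
      have : sc Y (J + 1) = sc Y J + sc Y J := by unfold sc; rw [pow_succ]; ring
      rw [this]
      linarith
  have h2 : ∀ J, ∑ i ∈ Finset.range J, tri (1 / sc Y i) v ≤ sc Y J := fun J =>
    (Finset.sum_le_sum fun i _ => hterm i).trans (hgeo J)
  refine le_min ?_ (h2 J)
  induction J with
  | zero => simp; positivity
  | succ J ih =>
    rcases le_or_gt (sc Y J * v) 1 with h | h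
    · refine (h2 (J + 1)).trans ?_
      have : sc Y (J + 1) = 2 * sc Y J := by unfold sc; rw [pow_succ]; ring
      rw [this, le_div_iff₀ hv]
      linarith
    · rw [Finset.sum_range_succ]
      have h0 : tri (1 / sc Y J) v = 0 := by
        unfold tri
        rw [max_eq_left, zero_div]
        rw [abs_of_pos hv, div_div_eq_mul_div, div_one]
        linarith
      rw [h0, add_zero]
      exact ih

lemma rl_tf (J : ℕ) (Y a v : ℝ) : tf (rl J Y a) v =
    ((1 / J * ∑ i ∈ Finset.range J, tri (1 / sc Y i) v : ℝ) : ℂ) *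
      cexp (((2 * Real.pi * a * v : ℝ) : ℂ) * I) := by
  unfold tf rl
  rw [List.map_map, listsum_range]
  simp only [Function.comp_apply]
  rw [← Finset.sum_mul, Finset.mul_sum]
  push_cast
  rfl

lemma tot_nonneg {Y : ℝ} (hY : 0 < Y) (J : ℕ) (v : ℝ) :
    0 ≤ ∑ i ∈ Finset.range J, tri (1 / sc Y i) v :=
  Finset.sum_nonneg fun i _ => tri_nonneg (by have := sc_pos hY i; positivity) v

/-- the variance of the kernel statistic -/
lemma rl_kv {J : ℕ} (hJ : 0 < J) {Y : ℝ} (hY : 1 ≤ Y) (a : ℝ) : kv (rl J Y a) ≤ 9 / J := by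
  have hY0 : 0 < Y := by linarith
  have hJ0 : (0 : ℝ) < J := by exact_mod_cast hJ
  have hJ1 : (1 : ℝ) ≤ J := by exact_mod_cast hJ
  have hg := rl_good J hY a
  have hc : Continuous fun v => v * ‖tf (rl J Y a) v‖ ^ 2 := by
    have := tf_cont hg
    fun_prop
  have hn : ∀ v, ‖tf (rl J Y a) v‖ = 1 / J * ∑ i ∈ Finset.range J, tri (1 / sc Y i) v := by
    intro v
    rw [rl_tf, norm_mul, Complex.norm_exp_ofReal_mul_I, mul_one, Complex.norm_real, Real.norm_eq_abs,
      abs_of_nonneg (mul_nonneg (by positivity) (tot_nonneg hY0 J v))]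
  have hscJ := sc_pos hY0 J
  set v0 := 1 / sc Y J with hv0
  have hv00 : 0 < v0 := by positivity
  have hv0Y : v0 ≤ 1 / Y := one_div_le_one_div_of_le hY0 (sc_ge hY0 J)
  have hY1 : 1 / Y ≤ 1 := by rw [div_le_one hY0]; exact hY
  have i1 : ∫ v in (0 : ℝ)..v0, v * ‖tf (rl J Y a) v‖ ^ 2 ≤ 1 / (2 * J ^ 2) := by
    calc ∫ v in (0 : ℝ)..v0, v * ‖tf (rl J Y a) v‖ ^ 2 ≤
        ∫ v in (0 : ℝ)..v0, (sc Y J / J) ^ 2 * v := by
          apply intervalIntegral.integral_mono_on hv00.le (hc.intervalIntegrable _ _)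
            ((by fun_prop : Continuous fun v : ℝ => (sc Y J / J) ^ 2 * v).intervalIntegrable _ _)
          intro v hv
          rcases hv.1.eq_or_lt with h0 | h0
          · rw [← h0]; simp
          rw [hn]
          have h1 := (tri_tot hY0 h0 J).trans (min_le_right _ _)
          have h2 := tot_nonneg hY0 J v
          calc v * (1 / J * ∑ i ∈ Finset.range J, tri (1 / sc Y i) v) ^ 2 ≤
              v * (1 / J * sc Y J) ^ 2 := by gcongr
            _ = _ := by ring
      _ = 1 / (2 * J ^ 2) := by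
          rw [intervalIntegral.integral_const_mul, integral_id, hv0]
          field_simp
          ring
  have i2 : ∫ v in v0..(1 / Y), v * ‖tf (rl J Y a) v‖ ^ 2 ≤ 4 / J := by
    have hinv := inv_int hv00 hv0Y
    calc ∫ v in v0..(1 / Y), v * ‖tf (rl J Y a) v‖ ^ 2 ≤
        ∫ v in v0..(1 / Y), 4 / J ^ 2 * (1 / v) := by
          apply intervalIntegral.integral_mono_on hv0Y (hc.intervalIntegrable _ _)
            (hinv.const_mul _)
          intro v hv
          have h0 : 0 < v := hv00.trans_le hv.1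
          rw [hn]
          have h1 := (tri_tot hY0 h0 J).trans (min_le_left _ _)
          have h2 := tot_nonneg hY0 J v
          calc v * (1 / J * ∑ i ∈ Finset.range J, tri (1 / sc Y i) v) ^ 2 ≤
              v * (1 / J * (2 / v)) ^ 2 := by gcongr
            _ = _ := by field_simp; ring
      _ = 4 / J ^ 2 * Real.log ((1 / Y) / v0) := by
          rw [intervalIntegral.integral_const_mul, int_inv' hv00 hv0Y]
      _ ≤ 4 / J ^ 2 * J := by
          gcongr
          have e : (1 / Y) / v0 = 2 ^ J := by rw [hv0]; unfold sc; field_simp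
          rw [e, Real.log_pow]
          have := Real.log_two_lt_d9
          nlinarith
      _ = _ := by field_simp
  have i3 : ∫ v in (1 / Y)..1, v * ‖tf (rl J Y a) v‖ ^ 2 = 0 := by
    have : ∫ v in (1 / Y)..1, v * ‖tf (rl J Y a) v‖ ^ 2 = ∫ v in (1 / Y)..1, (0 : ℝ) := by
      apply intervalIntegral.integral_congr
      intro v hv
      rw [Set.uIcc_of_le hY1] at hv
      show v * ‖tf (rl J Y a) v‖ ^ 2 = 0
      have h0 : 0 ≤ v := le_trans (by positivity) hv.1
      rw [tf_zero hg (v := v) (by rw [abs_of_nonneg h0]; exact hv.1)]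
      simp
    rw [this]; simp
  unfold kv
  rw [← intervalIntegral.integral_add_adjacent_intervals (b := v0)
    (hc.intervalIntegrable 0 v0) (hc.intervalIntegrable v0 1),
    ← intervalIntegral.integral_add_adjacent_intervals (b := 1 / Y)
    (hc.intervalIntegrable v0 (1 / Y)) (hc.intervalIntegrable (1 / Y) 1), i3, add_zero]
  have h1 : 1 / (2 * (J : ℝ) ^ 2) ≤ 1 / (2 * J) := by
    apply one_div_le_one_div_of_le (by positivity)
    nlinarith
  calc 2 * ((∫ v in (0 : ℝ)..v0, v * ‖tf (rl J Y a) v‖ ^ 2) +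
      ∫ v in v0..(1 / Y), v * ‖tf (rl J Y a) v‖ ^ 2) ≤ 2 * (1 / (2 * J) + 4 / J) := by linarith
    _ = 9 / J := by field_simp; norm_num

/-- the increment -/
noncomputable def dl (J : ℕ) (Y a a' : ℝ) : List Ent := rl J Y a ++ scl (-1) (rl J Y a')

lemma dl_good (J : ℕ) {Y : ℝ} (hY : 1 ≤ Y) (a a' : ℝ) : Good (dl J Y a a') (1 / Y) :=
  (rl_good J hY a).append ((rl_good J hY a').scl _)

lemma dl_stt (J : ℕ) (Y a a' μ T t : ℝ) : stt (dl J Y a a') μ T t =
    stt (rl J Y a) μ T t - stt (rl J Y a') μ T t := by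
  unfold dl
  rw [stt_append, stt_scl]
  ring

/-- the variance of the increment -/
lemma dl_kv {J : ℕ} (hJ : 0 < J) {Y : ℝ} (hY : 1 ≤ Y) (a a' : ℝ) :
    kv (dl J Y a a') ≤ 16 * Real.pi ^ 2 * (a - a') ^ 2 / Y ^ 2 := by
  have hpi := Real.pi_pos
  have hY0 : 0 < Y := by linarith
  have hJ0 : (0 : ℝ) < J := by exact_mod_cast hJ
  have hJ1 : (1 : ℝ) ≤ J := by exact_mod_cast hJ
  have hg := dl_good J hY a a'
  have hc : Continuous fun v => v * ‖tf (dl J Y a a') v‖ ^ 2 := by
    have := tf_cont hg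
    fun_prop
  have hY1 : 1 / Y ≤ 1 := by rw [div_le_one hY0]; exact hY
  have hY0' : 0 < 1 / Y := by positivity
  have hn : ∀ v, 0 < v → v * ‖tf (dl J Y a a') v‖ ^ 2 ≤ 16 * Real.pi ^ 2 * (a - a') ^ 2 * v := by
    intro v hv
    have e1 : tf (dl J Y a a') v = ((1 / J * ∑ i ∈ Finset.range J, tri (1 / sc Y i) v : ℝ) : ℂ) *
        (cexp (((2 * Real.pi * a' * v : ℝ) : ℂ) * I) *
        (cexp (((2 * Real.pi * (a - a') * v : ℝ) : ℂ) * I) - 1)) := by
      unfold dl
      rw [tf_append, tf_scl, rl_tf, rl_tf, mul_sub, ← Complex.exp_add, mul_one]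
      have : ((2 * Real.pi * a' * v : ℝ) : ℂ) * I + ((2 * Real.pi * (a - a') * v : ℝ) : ℂ) * I =
          ((2 * Real.pi * a * v : ℝ) : ℂ) * I := by push_cast; ring
      rw [this]
      push_cast
      ring
    have h1 := (tri_tot hY0 hv J).trans (min_le_left _ _)
    have h2 := tot_nonneg hY0 J v
    rw [e1, norm_mul, norm_mul, Complex.norm_exp_ofReal_mul_I, one_mul, mul_pow, norm_e1,
      Complex.norm_real, Real.norm_eq_abs, sq_abs]
    have h3 : 2 - 2 * Real.cos (2 * Real.pi * (a - a') * v) ≤ (2 * Real.pi * (a - a') * v) ^ 2 := by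
      have := Real.one_sub_sq_div_two_le_cos (x := 2 * Real.pi * (a - a') * v)
      linarith
    have h4 : 1 / (J : ℝ) * ∑ i ∈ Finset.range J, tri (1 / sc Y i) v ≤ 2 / v := by
      calc 1 / (J : ℝ) * ∑ i ∈ Finset.range J, tri (1 / sc Y i) v ≤
          1 * ∑ i ∈ Finset.range J, tri (1 / sc Y i) v := by
            apply mul_le_mul_of_nonneg_right _ h2
            rw [div_le_one hJ0]; exact hJ1
        _ ≤ 2 / v := by rw [one_mul]; exact h1
    have h5 : 0 ≤ 1 / (J : ℝ) * ∑ i ∈ Finset.range J, tri (1 / sc Y i) v := by positivity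
    have h6 : 0 ≤ 2 - 2 * Real.cos (2 * Real.pi * (a - a') * v) := by
      linarith [Real.cos_le_one (2 * Real.pi * (a - a') * v)]
    calc v * ((1 / (J : ℝ) * ∑ i ∈ Finset.range J, tri (1 / sc Y i) v) ^ 2 *
        (2 - 2 * Real.cos (2 * Real.pi * (a - a') * v))) ≤
        v * ((2 / v) ^ 2 * (2 * Real.pi * (a - a') * v) ^ 2) := by gcongr
      _ = _ := by field_simp; ring
  have i3 : ∫ v in (1 / Y)..1, v * ‖tf (dl J Y a a') v‖ ^ 2 = 0 := by
    have : ∫ v in (1 / Y)..1, v * ‖tf (dl J Y a a') v‖ ^ 2 = ∫ v in (1 / Y)..1, (0 : ℝ) := by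
      apply intervalIntegral.integral_congr
      intro v hv
      rw [Set.uIcc_of_le hY1] at hv
      show v * ‖tf (dl J Y a a') v‖ ^ 2 = 0
      have h0 : 0 ≤ v := hY0'.le.trans hv.1
      rw [tf_zero hg (v := v) (by rw [abs_of_nonneg h0]; exact hv.1)]
      simp
    rw [this]; simp
  have i1 : ∫ v in (0 : ℝ)..(1 / Y), v * ‖tf (dl J Y a a') v‖ ^ 2 ≤
      8 * Real.pi ^ 2 * (a - a') ^ 2 / Y ^ 2 := by
    calc ∫ v in (0 : ℝ)..(1 / Y), v * ‖tf (dl J Y a a') v‖ ^ 2 ≤
        ∫ v in (0 : ℝ)..(1 / Y), 16 * Real.pi ^ 2 * (a - a') ^ 2 * v := by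
          apply intervalIntegral.integral_mono_on hY0'.le (hc.intervalIntegrable _ _)
            ((by fun_prop : Continuous fun v : ℝ =>
              16 * Real.pi ^ 2 * (a - a') ^ 2 * v).intervalIntegrable _ _)
          intro v hv
          rcases hv.1.eq_or_lt with h0 | h0
          · rw [← h0]; simp
          exact hn v h0
      _ = _ := by
          rw [intervalIntegral.integral_const_mul, integral_id]
          field_simp
          ring
  unfold kv
  rw [← intervalIntegral.integral_add_adjacent_intervals (b := 1 / Y)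
    (hc.intervalIntegrable 0 (1 / Y)) (hc.intervalIntegrable (1 / Y) 1), i3, add_zero]
  calc 2 * ∫ v in (0 : ℝ)..(1 / Y), v * ‖tf (dl J Y a a') v‖ ^ 2 ≤
      2 * (8 * Real.pi ^ 2 * (a - a') ^ 2 / Y ^ 2) := by linarith
    _ = _ := by ring

end Pool.Agent.H478.RG
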