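import Pool.Agent.H478.RG1

/-! Number rigidity: typical heights. -/

open Finset Complex MeasureTheory Filter Topology ProbabilityTheory

namespace Pool.Agent.H478.RG

open Pool.Agent.H478.CW
open Pool.Agent.H478.EX
open Pool.Agent.R321.FA
open SP (ZZ mu Mk RHs)
open H370.A2 (RR evp evp_zero)
open Pool.Agent.TH800.LD (ZZf)

lemma gm_two (κ : ℝ) : gm 0 κ 2 = κ := by
  have h := gm_rec κ 0
  simp only [Nat.cast_zero, zero_add, one_mul] at h
  rw [h]
  show κ * gm 0 κ 0 = κ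
  unfold gm
  ring

/-- tail bound for sums of squares -/
lemma ssq_tail (hRH : RHs) {M : ℕ} {l : ℕ → List Ent} {μ : ℝ} (h : ∀ j < M, Good (l j) μ)
    (hμ : 0 < μ) (hk : 2 * μ < 1) {z : ℝ} (hz : 0 < z) {q : ℝ}
    (hq : ∑ j ∈ Finset.range M, kv (l j) < z * q) :
    Sm (fun T t => ∑ j ∈ Finset.range M, stt (l j) μ T t ^ 2 < z) q := by
  have h1 : Tendsto (fun T : ℝ => ∑ j ∈ Finset.range M, 1 / T * ∫ t in Va T..Vb T, stt (l j) μ T t ^ 2)
      atTop (𝓝 (∑ j ∈ Finset.range M, kv (l j))) := by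
    apply tendsto_finsetSum
    intro j hj
    have h2 := mom_lim hRH (h j (Finset.mem_range.1 hj)) hμ 2 (by push_cast; exact hk)
    rwa [gm_two] at h2
  unfold Sm
  filter_upwards [h1.eventually (gt_mem_nhds hq), V_ord, eventually_ge_atTop 1] with T h3 h4 h5
  obtain ⟨h10, hV, -⟩ := h4
  have hT0 : 0 < T := by linarith
  have hc : ∀ j ∈ Finset.range M, Continuous fun t => stt (l j) μ T t ^ 2 := fun j hj =>
    (stt_cont (h j (Finset.mem_range.1 hj)) h5).pow _
  have hsc : Continuous fun t => ∑ j ∈ Finset.range M, stt (l j) μ T t ^ 2 :=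
    continuous_finsetSum _ hc
  have hm := markov (f := fun t => ∑ j ∈ Finset.range M, stt (l j) μ T t ^ 2) hsc
    (fun t => Finset.sum_nonneg fun j _ => sq_nonneg _) (c := z) (Q := q * T) hV hz (by
      rw [intervalIntegral.integral_finsetSum fun j hj => (hc j hj).intervalIntegrable _ _]
      have e : ∑ j ∈ Finset.range M, ∫ t in Va T..Vb T, stt (l j) μ T t ^ 2 =
          T * ∑ j ∈ Finset.range M, 1 / T * ∫ t in Va T..Vb T, stt (l j) μ T t ^ 2 := by
        rw [Finset.mul_sum]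
        refine Finset.sum_congr rfl fun j _ => ?_
        field_simp
      rw [e]
      nlinarith)
  refine (measure_mono ?_).trans hm
  rintro t ⟨a, b, c⟩
  push Not at c
  exact ⟨a, b, c⟩

/-- the majorant is bounded at typical heights -/
lemma Mp_typ (hRH : RHs) : ∃ C : ℝ, 1 ≤ C ∧ ∀ B : ℝ, 0 < B →
    Sm (fun T t => Mp T t < B) (C / B ^ 2) := by
  obtain ⟨C, T0, hC, hT0, hM⟩ := Mp_shift hRH
  refine ⟨C, hC, fun B hB => ?_⟩
  unfold Sm
  filter_upwards [V_ord, eventually_ge_atTop T0] with T h4 h5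
  obtain ⟨h10, hV, -⟩ := h4
  have hT1 : 1 ≤ T := by linarith
  have h1 := hM T h5 0 (by norm_num) hV
  simp only [add_zero] at h1
  have hc : Continuous fun t => (1 + Mp T t) ^ 2 := by
    have := Mp_cont hT1
    fun_prop
  have hm := markov hc (fun t => sq_nonneg _) (c := B ^ 2) (Q := C / B ^ 2 * T) hV (by positivity) (by
    have e : B ^ 2 * (C / B ^ 2 * T) = C * T := by field_simp
    rw [e]
    exact h1)
  refine (measure_mono ?_).trans hm
  rintro t ⟨a, b, c⟩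
  push Not at c
  refine ⟨a, b, ?_⟩
  show B ^ 2 ≤ (1 + Mp T t) ^ 2
  exact pow_le_pow_left₀ hB.le (by linarith) 2

/-- the typical event -/
def Ty (J M : ℕ) (Y e B : ℝ) (T t : ℝ) : Prop :=
  Va T ≤ t ∧ Mp T t < B ∧ ∀ i ≤ M, |stt (rl J Y (i / M)) (1 / Y) T t| ≤ 2 * e

/-- **typical heights** -/
theorem typ (hRH : RHs) : ∃ C : ℝ, 1 ≤ C ∧ ∀ (J M : ℕ) (Y e B q : ℝ), 0 < J → 0 < M → 3 ≤ Y → 0 < e →
    0 < B → 0 < q → 10 / (J * e ^ 2) ≤ q → 17 * Real.pi ^ 2 / (Y ^ 2 * e ^ 2) ≤ q → C / B ^ 2 ≤ q →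
    Sm (Ty J M Y e B) (3 * q) := by
  obtain ⟨C, hC, hM⟩ := Mp_typ hRH
  refine ⟨C, hC, fun J M Y e B q hJ hM0 hY he hB hq h1 h2 h3 => ?_⟩
  have hpi := Real.pi_pos
  have hJ0 : (0 : ℝ) < J := by exact_mod_cast hJ
  have hM0' : (0 : ℝ) < M := by exact_mod_cast hM0
  have hY0 : 0 < Y := by linarith
  have hY1 : 1 ≤ Y := by linarith
  have hμ : 0 < 1 / Y := by positivity
  have hμ2 : 2 * (1 / Y) < 1 := by rw [← mul_div_assoc, mul_one, div_lt_one hY0]; linarith
  have s1 : Sm (fun T t => |stt (rl J Y 0) (1 / Y) T t| < e) q := by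
    apply tail hRH (rl_good J hY1 0) hμ 1 (by push_cast; linarith) he
    rw [mul_one, gm_two]
    refine (rl_kv hJ hY1 0).trans_lt ?_
    have h4 : 9 / (J : ℝ) < 10 / J := by gcongr; norm_num
    refine h4.trans_le ?_
    rw [div_le_iff₀ (by positivity)] at h1
    rw [div_le_iff₀ hJ0]
    linarith
  have s2 : Sm (fun T t => ∑ j ∈ Finset.range M,
      stt (dl J Y ((j + 1 : ℕ) / M) (j / M)) (1 / Y) T t ^ 2 < e ^ 2 / M) q := by
    apply ssq_tail hRH (fun j _ => dl_good J hY1 _ _) hμ hμ2 (by positivity)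
    have h4 : ∀ j ∈ Finset.range M, kv (dl J Y ((j + 1 : ℕ) / M) (j / M)) ≤
        16 * Real.pi ^ 2 * (1 / (M : ℝ)) ^ 2 / Y ^ 2 := by
      intro j _
      refine (dl_kv hJ hY1 _ _).trans (le_of_eq ?_)
      congr 3
      push_cast
      field_simp
      ring
    calc ∑ j ∈ Finset.range M, kv (dl J Y ((j + 1 : ℕ) / M) (j / M)) ≤
        ∑ _j ∈ Finset.range M, 16 * Real.pi ^ 2 * (1 / (M : ℝ)) ^ 2 / Y ^ 2 := Finset.sum_le_sum h4
      _ = 16 * Real.pi ^ 2 / Y ^ 2 / M := by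
          rw [Finset.sum_const, Finset.card_range, nsmul_eq_mul]
          field_simp
      _ < 17 * Real.pi ^ 2 / Y ^ 2 / M := by gcongr; norm_num
      _ ≤ e ^ 2 / M * q := by
          rw [div_le_iff₀ (by positivity)] at h2
          rw [div_mul_eq_mul_div]
          gcongr
          rw [div_le_iff₀ (by positivity)]
          linarith
  have s3 := (hM B hB).weaken h3
  have h4 := (s1.and (s2.and s3 hq.le hq.le) hq.le (by positivity)).weaken (q' := 3 * q) (by linarith)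
  refine h4.mono ?_
  filter_upwards [eventually_ge_atTop 1] with T hT1
  rintro t hVa - ⟨p1, p2, p3⟩
  refine ⟨hVa, p3, fun i hi => ?_⟩
  have htel : stt (rl J Y (i / M)) (1 / Y) T t = stt (rl J Y 0) (1 / Y) T t +
      ∑ j ∈ Finset.range i, stt (dl J Y ((j + 1 : ℕ) / M) (j / M)) (1 / Y) T t := by
    simp only [dl_stt]
    rw [Finset.sum_range_sub (fun j : ℕ => stt (rl J Y ((j : ℕ) / M)) (1 / Y) T t)]
    simp
  rw [htel]
  have hcs : |∑ j ∈ Finset.range i, stt (dl J Y ((j + 1 : ℕ) / M) (j / M)) (1 / Y) T t| ≤ e := by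
    apply abs_le_of_sq_le_sq _ he.le
    have h5 := Finset.sum_mul_sq_le_sq_mul_sq (Finset.range i) (fun _ => (1 : ℝ))
      (fun j => stt (dl J Y ((j + 1 : ℕ) / M) (j / M)) (1 / Y) T t)
    simp only [one_mul, one_pow, Finset.sum_const, Finset.card_range, nsmul_eq_mul, mul_one] at h5
    refine h5.trans ?_
    have h6 : ∑ j ∈ Finset.range i, stt (dl J Y ((j + 1 : ℕ) / M) (j / M)) (1 / Y) T t ^ 2 ≤
        ∑ j ∈ Finset.range M, stt (dl J Y ((j + 1 : ℕ) / M) (j / M)) (1 / Y) T t ^ 2 := by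
      apply Finset.sum_le_sum_of_subset_of_nonneg
      · exact Finset.range_subset_range.2 hi
      · intro j _ _
        exact sq_nonneg _
    have h7 : (i : ℝ) ≤ M := by exact_mod_cast hi
    calc (i : ℝ) * ∑ j ∈ Finset.range i, stt (dl J Y ((j + 1 : ℕ) / M) (j / M)) (1 / Y) T t ^ 2 ≤
        M * (e ^ 2 / M) := by
          apply mul_le_mul h7 (h6.trans p2.le) (Finset.sum_nonneg fun j _ => sq_nonneg _) hM0'.le
      _ = e ^ 2 := by field_simp
  calc |stt (rl J Y 0) (1 / Y) T t + ∑ j ∈ Finset.range i,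
      stt (dl J Y ((j + 1 : ℕ) / M) (j / M)) (1 / Y) T t| ≤ |stt (rl J Y 0) (1 / Y) T t| +
      |∑ j ∈ Finset.range i, stt (dl J Y ((j + 1 : ℕ) / M) (j / M)) (1 / Y) T t| := abs_add_le _ _
    _ ≤ 2 * e := by linarith

end Pool.Agent.H478.RG
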