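import Pool.Agent.H478.RG2

/-! Number rigidity: comparison of sums over zeros. -/

open Finset Complex MeasureTheory Filter Topology ProbabilityTheory

namespace Pool.Agent.H478.RG

open Pool.Agent.H478.CW
open Pool.Agent.H478.EX
open Pool.Agent.R321.FA
open SP (ZZ mu Mk RHs)
open H370.A2 (RR evp evp_zero)
open Pool.Agent.TH800.LD (ZZf)

/-- the normalised difference -/
noncomputable def wd (a b : ℝ) : ℝ := (a * Real.log a - b * Real.log b) / (2 * Real.pi)

lemma wd_bounds {T a b : ℝ} (hT : 10 ≤ T) (ha : T ≤ a) (ha2 : a ≤ 2 * T) (hb : T ≤ b)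
    (hb2 : b ≤ 2 * T) : |(a - b) * Real.log T / (2 * Real.pi)| ≤ |wd a b| ∧
    |wd a b - (a - b) * Real.log T / (2 * Real.pi)| ≤
      2 / Real.log T * |(a - b) * Real.log T / (2 * Real.pi)| := by
  have hpi := Real.pi_pos
  have hL1 := log_one_le hT
  have hlog2 : Real.log 2 ≤ 1 := by have := Real.log_two_lt_d9; linarith
  have key : ∀ a b : ℝ, T ≤ a → a ≤ 2 * T → T ≤ b → b ≤ 2 * T → b ≤ a →
      |(a - b) * Real.log T / (2 * Real.pi)| ≤ |wd a b| ∧
      |wd a b - (a - b) * Real.log T / (2 * Real.pi)| ≤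
        2 / Real.log T * |(a - b) * Real.log T / (2 * Real.pi)| := by
    intro a b ha ha2 hb hb2 hba
    have h1 := xlogx_low (by linarith : 0 < b) hba
    have h2 := xlogx_up (by linarith : 0 < b) hba
    have h3 : Real.log T ≤ Real.log b := Real.log_le_log (by linarith) hb
    have h4 : Real.log a ≤ Real.log T + 1 := by
      have : Real.log a ≤ Real.log (2 * T) := Real.log_le_log (by linarith) ha2
      rw [Real.log_mul (by norm_num) (by linarith)] at this
      linarith
    have hab : 0 ≤ a - b := by linarith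
    have h5 : (a - b) * Real.log T ≤ a * Real.log a - b * Real.log b := by
      have : (a - b) * Real.log T ≤ (a - b) * (Real.log b + 1) := by gcongr; linarith
      linarith
    have h6 : a * Real.log a - b * Real.log b ≤ (a - b) * Real.log T + 2 * (a - b) := by
      have : (a - b) * (Real.log a + 1) ≤ (a - b) * (Real.log T + 2) :=
        mul_le_mul_of_nonneg_left (by linarith) hab
      linarith
    have h0 : 0 ≤ (a - b) * Real.log T / (2 * Real.pi) := by positivity
    have h7 : (a - b) * Real.log T / (2 * Real.pi) ≤ wd a b := by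
      unfold wd
      gcongr
    have h8 : wd a b ≤ (a - b) * Real.log T / (2 * Real.pi) + 2 * (a - b) / (2 * Real.pi) := by
      unfold wd
      rw [← add_div]
      gcongr
    rw [abs_of_nonneg h0, abs_of_nonneg (h0.trans h7), abs_of_nonneg (by linarith)]
    refine ⟨h7, ?_⟩
    have e : 2 / Real.log T * ((a - b) * Real.log T / (2 * Real.pi)) = 2 * (a - b) / (2 * Real.pi) := by
      field_simp
    rw [e]
    linarith
  rcases le_total b a with h | h
  · exact key a b ha ha2 hb hb2 h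
  · have h1 := key b a hb hb2 ha ha2 h
    have e1 : wd a b = -wd b a := by unfold wd; ring
    have e2 : (a - b) * Real.log T / (2 * Real.pi) = -((b - a) * Real.log T / (2 * Real.pi)) := by ring
    rw [e1, e2, abs_neg, abs_neg]
    refine ⟨h1.1, ?_⟩
    rw [← neg_add', abs_neg]
    have : wd b a + -((b - a) * Real.log T / (2 * Real.pi)) =
      wd b a - (b - a) * Real.log T / (2 * Real.pi) := by ring
    rw [this]
    exact h1.2

/-- decay against the majorant -/
lemma far_dp {U u : ℝ} (hU : 1 ≤ U) (h : U ≤ |u|) :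
    1 / u ^ 2 ≤ 16 / Real.sqrt U * dp (2 * Real.pi * u) := by
  have hpi := Real.pi_pos
  have hpi4 := Real.pi_lt_d2
  have hu1 : 1 ≤ |u| := hU.trans h
  have hu0 : 0 < |u| := by linarith
  have hsU : 0 < Real.sqrt U := Real.sqrt_pos.2 (by linarith)
  have h1 : |u| ^ (5 / 4 : ℝ) * Real.sqrt U ≤ u ^ 2 := by
    have e1 : u ^ 2 = |u| ^ (5 / 4 : ℝ) * |u| ^ (3 / 4 : ℝ) := by
      rw [← Real.rpow_add hu0, ← sq_abs, ← Real.rpow_natCast]
      norm_num
    rw [e1]
    apply mul_le_mul_of_nonneg_left _ (by positivity)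
    calc Real.sqrt U = U ^ (1 / 2 : ℝ) := Real.sqrt_eq_rpow U
      _ ≤ |u| ^ (1 / 2 : ℝ) := Real.rpow_le_rpow (by linarith) h (by norm_num)
      _ ≤ |u| ^ (3 / 4 : ℝ) := Real.rpow_le_rpow_of_exponent_le hu1 (by norm_num)
  have h2 : 1 ≤ 16 * dp (2 * Real.pi * u) * |u| ^ (5 / 4 : ℝ) := by
    unfold dp
    have h3 : 1 + |2 * Real.pi * u| ≤ 8 * |u| := by
      rw [abs_mul, abs_of_pos (by positivity : 0 < 2 * Real.pi)]
      nlinarith
    have h4 : (8 * |u|) ^ (-(5 / 4) : ℝ) ≤ (1 + |2 * Real.pi * u|) ^ (-(5 / 4) : ℝ) :=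
      Real.rpow_le_rpow_of_nonpos (by positivity) h3 (by norm_num)
    have h5 : (8 * |u|) ^ (-(5 / 4) : ℝ) * |u| ^ (5 / 4 : ℝ) = 8 ^ (-(5 / 4) : ℝ) := by
      rw [Real.mul_rpow (by norm_num) (abs_nonneg _), mul_assoc, ← Real.rpow_add hu0]
      norm_num
    have h6 : (1 : ℝ) ≤ 16 * 8 ^ (-(5 / 4) : ℝ) := by
      have e8 : (8 : ℝ) ^ (-(5 / 4) : ℝ) = 2 ^ (-(15 / 4) : ℝ) := by
        rw [show (8 : ℝ) = 2 ^ (3 : ℝ) by norm_num, ← Real.rpow_mul (by norm_num)]
        norm_num
      have e16 : (16 : ℝ) = 2 ^ (4 : ℝ) := by norm_num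
      rw [e8, e16, ← Real.rpow_add (by norm_num)]
      apply Real.one_le_rpow (by norm_num) (by norm_num)
    calc (1 : ℝ) ≤ 16 * 8 ^ (-(5 / 4) : ℝ) := h6
      _ = 16 * ((8 * |u|) ^ (-(5 / 4) : ℝ) * |u| ^ (5 / 4 : ℝ)) := by rw [h5]
      _ ≤ 16 * ((1 + |2 * Real.pi * u|) ^ (-(5 / 4) : ℝ) * |u| ^ (5 / 4 : ℝ)) := by gcongr
      _ = _ := by ring
  have hu2 : 0 < u ^ 2 := by rw [← sq_abs]; positivity
  rw [div_le_iff₀ hu2]
  have hdp := dp_pos (2 * Real.pi * u)
  calc (1 : ℝ) ≤ 16 * dp (2 * Real.pi * u) * |u| ^ (5 / 4 : ℝ) := h2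
    _ = 16 / Real.sqrt U * dp (2 * Real.pi * u) * (|u| ^ (5 / 4 : ℝ) * Real.sqrt U) := by
        field_simp
    _ ≤ 16 / Real.sqrt U * dp (2 * Real.pi * u) * u ^ 2 := by gcongr

/-- **the sum of the kernel over the zeros near a height** -/
theorem det_gen {J M : ℕ} (hJ : 0 < J) (hM : 0 < M) {Y : ℝ} (hY : 1 ≤ Y) {X : ℝ} (hX : 4 ≤ X)
    {η K : ℝ} (hK : 0 ≤ K) (hη : 0 < η) : ∀ᶠ T : ℝ in atTop, ∀ t γ g : ℝ, Va T ≤ t →
    (∀ i ≤ M, |stt (rl J Y (i / M)) (1 / Y) T t| ≤ g) →
    t < γ → γ ≤ t + 2 * Real.pi / Real.log T → ∀ w : ℝ → ℝ,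
    (∀ σ, T < σ → σ ≤ 2 * T → |w σ - (σ - γ) * Real.log T / (2 * Real.pi)| ≤
      K / Real.log T * |(σ - γ) * Real.log T / (2 * Real.pi)|) → ∀ hT : 1 ≤ T,
    |(∑ s ∈ (ZZf hT).toFinset, (mu s : ℝ) *
      (if |w s.im| ≤ X then kern J Y (w s.im) else 0)) - cJ J Y| ≤
      g + (4 * Real.pi / M * cK (X + 2) + 64 * Real.exp 2 * sc Y J ^ 2 / Real.sqrt (X - 2) + η) *
        Mp T t + η := by
  obtain ⟨C2, hC2, hgz⟩ := SP.gauss_zeros
  have hpi := Real.pi_pos
  have hpi4 := Real.pi_lt_d2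
  have hM0 : (0 : ℝ) < M := by exact_mod_cast hM
  have hY0 : 0 < Y := by linarith
  have hcK : 0 < cK (X + 2) := cK_pos (by linarith)
  set D := sc Y J ^ 2 with hD
  have hD0 : 0 < D := by have := sc_pos hY0 J; positivity
  -- smallness in T
  have hsmall : Tendsto (fun T : ℝ => (4 * Real.pi * (K * (X + 1)) / Real.log T +
      (2 * Real.pi * (X + 2)) ^ 2 / Real.log T ^ 2) * cK (X + 2)) atTop (𝓝 0) := by
    have hL := Real.tendsto_log_atTop
    have h1 := hL.const_div_atTop (4 * Real.pi * (K * (X + 1)))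
    have h2 := ((tendsto_pow_atTop (n := 2) (by norm_num)).comp hL).const_div_atTop
      ((2 * Real.pi * (X + 2)) ^ 2)
    have h4 := (h1.add h2).mul_const (cK (X + 2))
    simpa using h4
  have hsmall2 : Tendsto (fun T : ℝ => 16 * Real.pi ^ 2 * D * C2 / Real.log T) atTop (𝓝 0) :=
    Real.tendsto_log_atTop.const_div_atTop _
  filter_upwards [hsmall.eventually (ge_mem_nhds hη), hsmall2.eventually (ge_mem_nhds hη),
    eventually_ge_atTop 10,
    Real.tendsto_log_atTop.eventually_ge_atTop (2 * Real.pi * (X + 3)),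
    Real.tendsto_log_atTop.eventually_ge_atTop (K * (2 * X + 2))] with T hs hs2 hT10 hLX hLK
  intro t γ g hVa hst ht1 ht2 w hw0 hT1
  have hL1 := log_one_le hT10
  set L := Real.log T with hLdef
  have hL0 : 0 < L := by linarith
  have hKL0 : 0 ≤ K / L := by positivity
  have hKL : K / L * (2 * X + 2) ≤ 1 := by
    rw [div_mul_eq_mul_div, div_le_one hL0]; exact hLK
  have h2pL : 2 * Real.pi / L ≤ 1 := by
    rw [div_le_one hL0]
    exact (le_mul_of_one_le_right (by positivity) (by linarith : 1 ≤ X + 3)).trans hLX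
  have htT : T ≤ t := by unfold Va at hVa; rw [← hLdef] at hVa; linarith
  -- the grid point
  set i := ⌊(γ - t) * L / (2 * Real.pi) * M⌋₊ with hi
  have hx0 : 0 ≤ (γ - t) * L / (2 * Real.pi) := by
    have : 0 < γ - t := by linarith
    positivity
  have hx1 : (γ - t) * L / (2 * Real.pi) ≤ 1 := by
    rw [div_le_one (by positivity)]
    have : (γ - t) * L ≤ 2 * Real.pi / L * L := by gcongr; linarith
    rwa [div_mul_cancel₀ _ hL0.ne'] at this
  have hi1 : (i : ℝ) ≤ (γ - t) * L / (2 * Real.pi) * M := Nat.floor_le (by positivity)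
  have hi2 : (γ - t) * L / (2 * Real.pi) * M < i + 1 := Nat.lt_floor_add_one _
  have hiM : i ≤ M := by
    have : (i : ℝ) ≤ M := hi1.trans (mul_le_of_le_one_left hM0.le hx1)
    exact_mod_cast this
  have hiM' : (i : ℝ) / M ≤ 1 := by rw [div_le_one hM0]; exact_mod_cast hiM
  have hi0 : (0 : ℝ) ≤ (i : ℝ) / M := by positivity
  set ti := t + 2 * Real.pi * ((i : ℝ) / M) / L with hti
  have hgi := hst i hiM
  rw [rl_stt hY _ hT1, ← hLdef, ← hti] at hgi
  have hG := hgz T hT10 ti
  rw [finsum_mem_eq_finite_toFinset_sum _ (ZZf hT1)] at hG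
  have hMpE : ∑ s ∈ (ZZf hT1).toFinset, (mu s : ℝ) *
      (Real.exp (-(s.im - t) ^ 2 / 2) * dp (L * (s.im - t))) = Mp T t := by
    rw [Mp_eq hT1]
    refine Finset.sum_congr rfl fun s _ => ?_
    rw [← hLdef]; ring
  have hgiu : |(γ - ti) * L / (2 * Real.pi)| ≤ 1 / M := by
    have e1 : (γ - ti) * L / (2 * Real.pi) = (γ - t) * L / (2 * Real.pi) - (i : ℝ) / M := by
      rw [hti]; field_simp; ring
    rw [e1]
    have a1 : (i : ℝ) / M ≤ (γ - t) * L / (2 * Real.pi) := by rw [div_le_iff₀ hM0]; exact hi1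
    have a2 : (γ - t) * L / (2 * Real.pi) ≤ (i : ℝ) / M + 1 / M := by
      rw [← add_div, le_div_iff₀ hM0]; exact hi2.le
    rw [abs_of_nonneg (by linarith)]
    linarith
  set κ1 := 4 * Real.pi * (K / L * (X + 1) + 1 / M) + (2 * Real.pi * (X + 2) / L) ^ 2 with hκ1
  have hκ10 : 0 ≤ κ1 := by positivity
  have hsq : 0 < Real.sqrt (X - 2) := Real.sqrt_pos.2 (by linarith)
  -- the bound for one zero
  have key : ∀ s ∈ (ZZf hT1).toFinset,
      |(if |w s.im| ≤ X then kern J Y (w s.im) else 0) -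
        Real.exp (-(s.im - ti) ^ 2 / 2) * kern J Y ((s.im - ti) * L / (2 * Real.pi))| ≤
      (κ1 * cK (X + 2) + 64 * Real.exp 2 * D / Real.sqrt (X - 2)) *
        (Real.exp (-(s.im - t) ^ 2 / 2) * dp (L * (s.im - t))) +
      16 * Real.pi ^ 2 * D / L ^ 2 * Real.exp (-(s.im - ti) ^ 2 / 2) := by
    intro s hs
    have hsZ := (Set.Finite.mem_toFinset _).1 hs
    have hσ1 : T < s.im := hsZ.2.2.1
    have hσ2 : s.im ≤ 2 * T := hsZ.2.2.2.1
    set σ := s.im with hσ
    have w2 := hw0 σ hσ1 hσ2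
    set uγ := (σ - γ) * L / (2 * Real.pi) with huγ
    set ui := (σ - ti) * L / (2 * Real.pi) with hui
    set ut := (σ - t) * L / (2 * Real.pi) with hut
    set Et := Real.exp (-(σ - t) ^ 2 / 2) with hEt
    set Ei := Real.exp (-(σ - ti) ^ 2 / 2) with hEi
    have hEi0 : 0 < Ei := Real.exp_pos _
    have hEt0 : 0 < Et := Real.exp_pos _
    have hEi1 : Ei ≤ 1 := Real.exp_le_one_iff.2 (by
      have := sq_nonneg (σ - ti)
      linarith)
    have hdp := dp_pos (L * (σ - t))
    have d1 : |uγ - ui| ≤ 1 / M := by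
      have : uγ - ui = -((γ - ti) * L / (2 * Real.pi)) := by rw [huγ, hui]; ring
      rw [this, abs_neg]; exact hgiu
    have hM1 : 1 / (M : ℝ) ≤ 1 := by
      rw [div_le_one hM0]; exact_mod_cast hM
    have d2 : |uγ - ut| ≤ 1 := by
      have : uγ - ut = -((γ - t) * L / (2 * Real.pi)) := by rw [huγ, hut]; ring
      rw [this, abs_neg, abs_of_nonneg hx0]; exact hx1
    have d3 : |ui - ut| ≤ 1 := by
      have : ui - ut = -((i : ℝ) / M) := by rw [hui, hut, hti]; field_simp; ring
      rw [this, abs_neg, abs_of_nonneg hi0]; exact hiM'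
    have hk1 := kern_le_one hJ Y ui
    have hk0 := kern_nonneg J Y ui
    have hu3 : |σ - ti| = 2 * Real.pi / L * |ui| := by
      rw [hui, abs_div, abs_mul, abs_of_pos hL0, abs_of_pos (by positivity : 0 < 2 * Real.pi)]
      field_simp
    have hu4 : |σ - t| = 2 * Real.pi / L * |ut| := by
      rw [hut, abs_div, abs_mul, abs_of_pos hL0, abs_of_pos (by positivity : 0 < 2 * Real.pi)]
      field_simp
    by_cases hw : |w σ| ≤ X
    · rw [if_pos hw]
      have huγX : |uγ| ≤ X + 1 := by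
        by_contra hcon
        push Not at hcon
        have a1 : |uγ| - |w σ| ≤ K / L * |uγ| := by
          have := abs_sub_abs_le_abs_sub uγ (w σ)
          rw [abs_sub_comm uγ (w σ)] at this
          linarith
        have a2 : |uγ| * (1 - K / L) ≤ X := by linarith
        have a3 : K / L ≤ 1 / 2 := by
          have : K / L * 2 ≤ K / L * (2 * X + 2) :=
            mul_le_mul_of_nonneg_left (by linarith) hKL0
          linarith
        have a4 : (X + 1) * (1 - K / L) ≤ |uγ| * (1 - K / L) := by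
          apply mul_le_mul_of_nonneg_right hcon.le (by linarith)
        linarith
      have hutX : |ut| ≤ X + 2 := by
        have : |ut| ≤ |uγ| + |uγ - ut| := by
          have := abs_sub_abs_le_abs_sub ut uγ
          rw [abs_sub_comm ut uγ] at this
          linarith
        linarith
      have huiX : |ui| ≤ X + 2 := by
        have : |ui| ≤ |uγ| + |uγ - ui| := by
          have := abs_sub_abs_le_abs_sub ui uγ
          rw [abs_sub_comm ui uγ] at this
          linarith
        linarith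
      have hone := near_one hT10 (by linarith : 0 ≤ X + 2) (by rw [← hLdef]; linarith)
        (t := t) (γ := σ) (by
          rw [hu4, ← hLdef]
          calc 2 * Real.pi / L * |ut| ≤ 2 * Real.pi / L * (X + 2) := by gcongr
            _ = _ := by ring)
      rw [← hLdef, ← hEt] at hone
      have hlip : |kern J Y (w σ) - kern J Y ui| ≤ 4 * Real.pi * (K / L * (X + 1) + 1 / M) := by
        refine (kern_lip hJ hY _ _).trans ?_
        apply mul_le_mul_of_nonneg_left _ (by positivity)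
        calc |w σ - ui| = |(w σ - uγ) + (uγ - ui)| := by congr 1; ring
          _ ≤ |w σ - uγ| + |uγ - ui| := abs_add_le _ _
          _ ≤ K / L * (X + 1) + 1 / M := by
              apply add_le_add _ d1
              refine w2.trans ?_
              gcongr
      have hE : (1 - Ei) * kern J Y ui ≤ (2 * Real.pi * (X + 2) / L) ^ 2 := by
        have a1 : 1 - Ei ≤ (σ - ti) ^ 2 / 2 := by
          have := Real.add_one_le_exp (-(σ - ti) ^ 2 / 2)
          rw [hEi]; linarith
        have a2 : (σ - ti) ^ 2 ≤ (2 * Real.pi * (X + 2) / L) ^ 2 := by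
          rw [← sq_abs, hu3]
          apply pow_le_pow_left₀ (by positivity)
          calc 2 * Real.pi / L * |ui| ≤ 2 * Real.pi / L * (X + 2) := by gcongr
            _ = _ := by ring
        have a3 : 0 ≤ 1 - Ei := by linarith
        calc (1 - Ei) * kern J Y ui ≤ (1 - Ei) * 1 := by gcongr
          _ ≤ _ := by
            have := sq_nonneg (2 * Real.pi * (X + 2) / L)
            linarith
      have hT1' : |kern J Y (w σ) - Ei * kern J Y ui| ≤ κ1 := by
        have e1 : kern J Y (w σ) - Ei * kern J Y ui =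
            (kern J Y (w σ) - kern J Y ui) + (1 - Ei) * kern J Y ui := by ring
        rw [e1]
        refine (abs_add_le _ _).trans ?_
        rw [abs_of_nonneg (mul_nonneg (by linarith : 0 ≤ 1 - Ei) hk0)]
        rw [hκ1]
        exact add_le_add hlip hE
      have b1 : κ1 ≤ κ1 * (cK (X + 2) * (Et * dp (L * (σ - t)))) :=
        le_mul_of_one_le_right hκ10 hone
      have b2 : 0 ≤ 64 * Real.exp 2 * D / Real.sqrt (X - 2) * (Et * dp (L * (σ - t))) := by positivity
      have b3 : 0 ≤ 16 * Real.pi ^ 2 * D / L ^ 2 * Ei := by positivity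
      calc |kern J Y (w σ) - Ei * kern J Y ui| ≤ κ1 := hT1'
        _ ≤ κ1 * (cK (X + 2) * (Et * dp (L * (σ - t)))) := b1
        _ ≤ _ := by
            have e1 : (κ1 * cK (X + 2) + 64 * Real.exp 2 * D / Real.sqrt (X - 2)) *
              (Et * dp (L * (σ - t))) = κ1 * (cK (X + 2) * (Et * dp (L * (σ - t)))) +
              64 * Real.exp 2 * D / Real.sqrt (X - 2) * (Et * dp (L * (σ - t))) := by ring
            rw [e1]
            linarith
    · rw [if_neg hw, zero_sub, abs_neg, abs_of_nonneg (mul_nonneg hEi0.le hk0)]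
      push Not at hw
      have huγX : X - 1 < |uγ| := by
        by_contra hcon
        push Not at hcon
        have a1 : |w σ| ≤ |uγ| + K / L * |uγ| := by
          have := abs_sub_abs_le_abs_sub (w σ) uγ
          linarith
        have a2 : K / L * |uγ| ≤ 1 := by
          calc K / L * |uγ| ≤ K / L * (2 * X + 2) := by
                apply mul_le_mul_of_nonneg_left _ hKL0
                linarith
            _ ≤ 1 := hKL
        linarith
      have hutX : X - 2 < |ut| := by
        have := abs_sub_abs_le_abs_sub uγ ut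
        linarith
      have huiX : |ut| / 2 ≤ |ui| := by
        have := abs_sub_abs_le_abs_sub ut ui
        rw [abs_sub_comm ut ui] at this
        linarith
      have hut0 : 0 < |ut| := by linarith
      have hui0 : 0 < |ui| := by linarith
      have hk2 : kern J Y ui ≤ 4 * D * (1 / ut ^ 2) := by
        refine (kern_far hJ hY0 (abs_pos.1 hui0)).trans ?_
        rw [← hD, ← sq_abs ui, ← sq_abs ut]
        have h1 : (|ut| / 2) ^ 2 ≤ |ui| ^ 2 := pow_le_pow_left₀ (by positivity) huiX 2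
        calc D / |ui| ^ 2 ≤ D / (|ut| / 2) ^ 2 := by gcongr
          _ = _ := by field_simp; ring
      have b1 : 0 ≤ κ1 * cK (X + 2) * (Et * dp (L * (σ - t))) := by positivity
      rcases le_or_gt |σ - t| 1 with hb | hb
      · have h1 : Ei ≤ Real.exp 2 * Et := by
          rw [hEi, hEt, ← Real.exp_add]
          apply Real.exp_le_exp.2
          have h2 : (σ - t) ^ 2 ≤ 1 := by rw [← sq_abs]; exact pow_le_one₀ (abs_nonneg _) hb
          have := sq_nonneg (σ - ti)
          linarith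
        have h2 := far_dp (U := X - 2) (by linarith) hutX.le
        have e2 : 2 * Real.pi * ut = L * (σ - t) := by rw [hut]; field_simp
        rw [e2] at h2
        have b3 : 0 ≤ 16 * Real.pi ^ 2 * D / L ^ 2 * Ei := by positivity
        have h3 : Ei * kern J Y ui ≤ (Real.exp 2 * Et) * (4 * D * (16 / Real.sqrt (X - 2) *
            dp (L * (σ - t)))) := by
          apply mul_le_mul h1 _ hk0 (by positivity)
          refine hk2.trans ?_
          gcongr
        have e1 : (κ1 * cK (X + 2) + 64 * Real.exp 2 * D / Real.sqrt (X - 2)) *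
              (Et * dp (L * (σ - t))) = κ1 * cK (X + 2) * (Et * dp (L * (σ - t))) +
              (Real.exp 2 * Et) * (4 * D * (16 / Real.sqrt (X - 2) * dp (L * (σ - t)))) := by ring
        rw [e1]
        linarith
      · have h1 : 1 / ut ^ 2 ≤ 4 * Real.pi ^ 2 / L ^ 2 := by
          rw [hu4] at hb
          rw [← sq_abs ut, div_le_div_iff₀ (by positivity) (by positivity), one_mul]
          have h2 : L < 2 * Real.pi * |ut| := by
            rw [div_mul_eq_mul_div, lt_div_iff₀ hL0, one_mul] at hb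
            exact hb
          calc L ^ 2 ≤ (2 * Real.pi * |ut|) ^ 2 := pow_le_pow_left₀ hL0.le h2.le 2
            _ = _ := by ring
        have h3 : Ei * kern J Y ui ≤ Ei * (4 * D * (4 * Real.pi ^ 2 / L ^ 2)) := by
          apply mul_le_mul_of_nonneg_left _ hEi0.le
          refine hk2.trans ?_
          gcongr
        have b2 : 0 ≤ 64 * Real.exp 2 * D / Real.sqrt (X - 2) * (Et * dp (L * (σ - t))) := by
          positivity
        have e1 : (κ1 * cK (X + 2) + 64 * Real.exp 2 * D / Real.sqrt (X - 2)) *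
              (Et * dp (L * (σ - t))) = κ1 * cK (X + 2) * (Et * dp (L * (σ - t))) +
              64 * Real.exp 2 * D / Real.sqrt (X - 2) * (Et * dp (L * (σ - t))) := by ring
        have e2 : Ei * (4 * D * (4 * Real.pi ^ 2 / L ^ 2)) = 16 * Real.pi ^ 2 * D / L ^ 2 * Ei := by
          ring
        rw [e1]
        rw [e2] at h3
        linarith
  -- summation
  have hdiff : |(∑ s ∈ (ZZf hT1).toFinset, (mu s : ℝ) *
      (if |w s.im| ≤ X then kern J Y (w s.im) else 0)) -
      ∑ s ∈ (ZZf hT1).toFinset, (mu s : ℝ) * (Real.exp (-(s.im - ti) ^ 2 / 2) *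
        kern J Y ((s.im - ti) * L / (2 * Real.pi)))| ≤
      (κ1 * cK (X + 2) + 64 * Real.exp 2 * D / Real.sqrt (X - 2)) * Mp T t +
        16 * Real.pi ^ 2 * D / L ^ 2 * (C2 * L) := by
    rw [← Finset.sum_sub_distrib]
    refine (Finset.abs_sum_le_sum_abs _ _).trans ?_
    calc ∑ s ∈ (ZZf hT1).toFinset, |(mu s : ℝ) *
        (if |w s.im| ≤ X then kern J Y (w s.im) else 0) -
        (mu s : ℝ) * (Real.exp (-(s.im - ti) ^ 2 / 2) *
        kern J Y ((s.im - ti) * L / (2 * Real.pi)))| ≤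
        ∑ s ∈ (ZZf hT1).toFinset, ((κ1 * cK (X + 2) + 64 * Real.exp 2 * D / Real.sqrt (X - 2)) *
        ((mu s : ℝ) * (Real.exp (-(s.im - t) ^ 2 / 2) * dp (L * (s.im - t)))) +
        16 * Real.pi ^ 2 * D / L ^ 2 * ((mu s : ℝ) * Real.exp (-(s.im - ti) ^ 2 / 2))) := by
          refine Finset.sum_le_sum fun s hs => ?_
          have hm : (0 : ℝ) ≤ mu s := Nat.cast_nonneg _
          rw [← mul_sub, abs_mul, abs_of_nonneg hm]
          have h1 := mul_le_mul_of_nonneg_left (key s hs) hm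
          refine h1.trans (le_of_eq ?_)
          ring
      _ = (κ1 * cK (X + 2) + 64 * Real.exp 2 * D / Real.sqrt (X - 2)) *
          (∑ s ∈ (ZZf hT1).toFinset, (mu s : ℝ) *
            (Real.exp (-(s.im - t) ^ 2 / 2) * dp (L * (s.im - t)))) +
          16 * Real.pi ^ 2 * D / L ^ 2 *
            ∑ s ∈ (ZZf hT1).toFinset, (mu s : ℝ) * Real.exp (-(s.im - ti) ^ 2 / 2) := by
          rw [Finset.sum_add_distrib, ← Finset.mul_sum, ← Finset.mul_sum]
      _ ≤ _ := by rw [hMpE]; gcongr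
  set S1 := ∑ s ∈ (ZZf hT1).toFinset, (mu s : ℝ) *
      (if |w s.im| ≤ X then kern J Y (w s.im) else 0)
  set S2 := ∑ s ∈ (ZZf hT1).toFinset, (mu s : ℝ) * (Real.exp (-(s.im - ti) ^ 2 / 2) *
        kern J Y ((s.im - ti) * L / (2 * Real.pi)))
  have hfin : |S1 - cJ J Y| ≤ |S1 - S2| + |S2 - cJ J Y| := by
    have := abs_add_le (S1 - S2) (S2 - cJ J Y)
    rwa [sub_add_sub_cancel] at this
  have hκe : κ1 * cK (X + 2) = 4 * Real.pi / M * cK (X + 2) +
      (4 * Real.pi * (K * (X + 1)) / L + (2 * Real.pi * (X + 2)) ^ 2 / L ^ 2) * cK (X + 2) := by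
    rw [hκ1]; ring
  have e3 : 16 * Real.pi ^ 2 * D / L ^ 2 * (C2 * L) = 16 * Real.pi ^ 2 * D * C2 / L := by
    field_simp
  rw [e3] at hdiff
  have hMp0 : 0 ≤ Mp T t := Mp_nonneg hT1 t
  have e4 : (κ1 * cK (X + 2) + 64 * Real.exp 2 * D / Real.sqrt (X - 2)) * Mp T t ≤
      (4 * Real.pi / M * cK (X + 2) + 64 * Real.exp 2 * D / Real.sqrt (X - 2) + η) * Mp T t := by
    apply mul_le_mul_of_nonneg_right _ hMp0
    rw [hκe]
    linarith
  linarith

/-- the sum of the kernel over the zeros near a typical height -/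
theorem det_sum {J M : ℕ} (hJ : 0 < J) (hM : 0 < M) {Y : ℝ} (hY : 1 ≤ Y) {X : ℝ} (hX : 4 ≤ X)
    {e B η K : ℝ} (hK : 0 ≤ K) (hη : 0 < η) : ∀ᶠ T : ℝ in atTop, ∀ t γ : ℝ,
    Ty J M Y e B T t → t < γ → γ ≤ t + 2 * Real.pi / Real.log T → ∀ w : ℝ → ℝ,
    (∀ σ, T < σ → σ ≤ 2 * T → |w σ - (σ - γ) * Real.log T / (2 * Real.pi)| ≤
      K / Real.log T * |(σ - γ) * Real.log T / (2 * Real.pi)|) → ∀ hT : 1 ≤ T,
    |(∑ s ∈ (ZZf hT).toFinset, (mu s : ℝ) *
      (if |w s.im| ≤ X then kern J Y (w s.im) else 0)) - cJ J Y| ≤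
      2 * e + (4 * Real.pi / M * cK (X + 2) + 64 * Real.exp 2 * sc Y J ^ 2 / Real.sqrt (X - 2)) * B +
        η := by
  have hη' : 0 < η / (|B| + 1) := by have := abs_nonneg B; positivity
  filter_upwards [det_gen hJ hM hY hX hK hη'] with T h
  intro t γ hTy ht1 ht2 w hw hT1
  obtain ⟨hVa, hMp, hst⟩ := hTy
  have h1 := h t γ (2 * e) hVa hst ht1 ht2 w hw hT1
  have hpi := Real.pi_pos
  have hM0 : (0 : ℝ) < M := by exact_mod_cast hM
  have hcK : 0 < cK (X + 2) := cK_pos (by linarith)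
  have hMp0 : 0 ≤ Mp T t := Mp_nonneg hT1 t
  have hB0 : 0 < B := by linarith
  have h2 : (4 * Real.pi / M * cK (X + 2) + 64 * Real.exp 2 * sc Y J ^ 2 / Real.sqrt (X - 2) +
      η / (|B| + 1)) * Mp T t ≤ (4 * Real.pi / M * cK (X + 2) +
      64 * Real.exp 2 * sc Y J ^ 2 / Real.sqrt (X - 2) + η / (|B| + 1)) * B :=
    mul_le_mul_of_nonneg_left hMp.le (by positivity)
  have h3 : η / (|B| + 1) * B + η / (|B| + 1) = η := by
    rw [abs_of_pos hB0]; field_simp
  linarith

end Pool.Agent.H478.RG
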