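import Pool.Agent.H478.RG3

/-! Number rigidity: from heights to indices. -/

open Finset Complex MeasureTheory Filter Topology ProbabilityTheory

namespace Pool.Agent.H478.RG

open Pool.Agent.H478.CW
open Pool.Agent.H478.EX
open Pool.Agent.R321.FA
open SP (ZZ mu Mk RHs)
open SG (ord NZ zmult ZS)
open Pool.Agent.TH800.LD (ZZf)

/-- the property of the configuration `v` of the zeros seen from a zero -/
def Rg (v : ℕ → ℝ) (J : ℕ) (Y X s ε : ℝ) : Prop := ∀ A : Set ℝ, A ⊆ Set.Icc (-s) s →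
  |(({m : ℕ | 1 ≤ m ∧ v m ∈ A}.ncard : ℕ) : ℝ) - (cJ J Y -
    ∑ᶠ m ∈ {m : ℕ | 1 ≤ m ∧ |v m| ≤ X ∧ v m ∉ A}, kern J Y (v m))| ≤ ε

/-- normalisations of the distances to the `n`-th ordinate -/
def Nrm (K X : ℝ) (v : ℕ → ℝ → ℝ) : Prop := ∀ᶠ T : ℝ in atTop, ∀ n ∈ Ib T,
  T + 8 * Real.log T ≤ ord n → ord n ≤ 2 * T - 1 →
  (∀ σ, T < σ → σ ≤ 2 * T → |v n σ - (σ - ord n) * Real.log T / (2 * Real.pi)| ≤
    K / Real.log T * |(σ - ord n) * Real.log T / (2 * Real.pi)|) ∧
  (∀ m : ℕ, 1 ≤ m → |v n (ord m)| ≤ X → m ∈ Ib T)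

lemma vv_loc {T : ℝ} (hT : 10 ≤ T) {X : ℝ} (hX : 2 * Real.pi * X < Real.log T) {n : ℕ}
    (h1 : T + 8 * Real.log T ≤ ord n) (h2 : ord n ≤ 2 * T - 1) {m : ℕ}
    (hm : 1 ≤ m) (hv : |wd (ord m) (ord n)| ≤ X) : m ∈ Ib T := by
  have hpi := Real.pi_pos
  have hL1 := log_one_le hT
  have hpos := SG.ord_pos hm
  obtain ⟨v1, v2⟩ := abs_le.1 hv
  have e : wd (ord m) (ord n) * (2 * Real.pi) = ord m * Real.log (ord m) - ord n * Real.log (ord n) := by
    unfold wd; field_simp
  have w1 : -Real.log T < wd (ord m) (ord n) * (2 * Real.pi) := by nlinarith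
  have w2 : wd (ord m) (ord n) * (2 * Real.pi) < Real.log T := by nlinarith
  rw [e] at w1 w2
  refine mem_Ib.2 ⟨hm, ?_, ?_⟩
  · by_contra hcon
    push Not at hcon
    have h3 : ord m * Real.log (ord m) ≤ T * Real.log T := by
      rcases le_or_gt (ord m) 1 with h | h
      · have h4 := Real.log_nonpos hpos.le h
        have h5 : ord m * Real.log (ord m) ≤ 0 := mul_nonpos_of_nonneg_of_nonpos hpos.le h4
        have h6 : 0 ≤ T * Real.log T := by positivity
        linarith
      · have h4 : Real.log (ord m) ≤ Real.log T := Real.log_le_log hpos hcon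
        exact mul_le_mul hcon h4 (Real.log_nonneg h.le) (by linarith)
    have h4 := xlogx_low (by linarith : 0 < T) (by linarith : T ≤ ord n)
    have h5 : 8 * Real.log T * (Real.log T + 1) ≤ (ord n - T) * (Real.log T + 1) := by
      apply mul_le_mul_of_nonneg_right _ (by linarith)
      linarith
    nlinarith
  · by_contra hcon
    push Not at hcon
    have h4 := xlogx_low (by linarith : 0 < ord n) (by linarith : ord n ≤ ord m)
    have h5 : Real.log T ≤ Real.log (ord n) := Real.log_le_log (by linarith) (by linarith)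
    have h6 : 1 * (Real.log T + 1) ≤ (ord m - ord n) * (Real.log (ord n) + 1) := by
      apply mul_le_mul _ _ (by linarith) (by linarith)
      · linarith
      · linarith
    linarith

/-- the count near a typical height -/
lemma near_cnt {T : ℝ} (hT : 10 ≤ T) {s K : ℝ} (hs : 0 ≤ s) (hK : 0 ≤ K)
    (hsL : 2 * Real.pi * (s + 2) ≤ Real.log T) (hKL : K * (2 * s + 2) ≤ Real.log T)
    {t γ : ℝ} (h1 : t < γ) (h2 : γ ≤ t + 2 * Real.pi / Real.log T) {w : ℝ → ℝ}
    (hw : ∀ σ, T < σ → σ ≤ 2 * T → |w σ - (σ - γ) * Real.log T / (2 * Real.pi)| ≤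
      K / Real.log T * |(σ - γ) * Real.log T / (2 * Real.pi)|)
    (hT1 : 1 ≤ T) : ∑ z ∈ (ZZf hT1).toFinset, (mu z : ℝ) * (if |w z.im| ≤ s then 1 else 0) ≤
      cK (s + 2) * Mp T t := by
  have hpi := Real.pi_pos
  have hL1 := log_one_le hT
  have hL0 : 0 < Real.log T := by linarith
  rw [Mp_eq hT1, Finset.mul_sum]
  refine Finset.sum_le_sum fun z hz => ?_
  have hm : (0 : ℝ) ≤ mu z := Nat.cast_nonneg _
  have hzZ := (Set.Finite.mem_toFinset _).1 hz
  have hσ1 : T < z.im := hzZ.2.2.1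
  have hσ2 : z.im ≤ 2 * T := hzZ.2.2.2.1
  have hcK : 0 < cK (s + 2) := cK_pos (by linarith)
  have hdp := dp_pos (Real.log T * (z.im - t))
  split_ifs with hw1
  · have w2 := hw z.im hσ1 hσ2
    set u := (z.im - γ) * Real.log T / (2 * Real.pi) with hu
    have hKL0 : 0 ≤ K / Real.log T := by positivity
    have hKL' : K / Real.log T * (2 * s + 2) ≤ 1 := by
      rw [div_mul_eq_mul_div, div_le_one hL0]; exact hKL
    have hus : |u| ≤ s + 1 := by
      by_contra hcon
      push Not at hcon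
      have a1 : |u| - |w z.im| ≤ K / Real.log T * |u| := by
        have := abs_sub_abs_le_abs_sub u (w z.im)
        rw [abs_sub_comm u (w z.im)] at this
        linarith
      have a2 : |u| * (1 - K / Real.log T) ≤ s := by linarith
      have a3 : K / Real.log T ≤ 1 / 2 := by
        have : K / Real.log T * 2 ≤ K / Real.log T * (2 * s + 2) :=
          mul_le_mul_of_nonneg_left (by linarith) hKL0
        linarith
      have a4 : (s + 1) * (1 - K / Real.log T) ≤ |u| * (1 - K / Real.log T) := by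
        apply mul_le_mul_of_nonneg_right hcon.le (by linarith)
      linarith
    have hd : |z.im - γ| ≤ 2 * Real.pi * (s + 1) / Real.log T := by
      rw [hu, abs_div, abs_mul, abs_of_pos hL0, abs_of_pos (by positivity : 0 < 2 * Real.pi),
        div_le_iff₀ (by positivity)] at hus
      rw [le_div_iff₀ hL0]
      linarith
    have hone := near_one hT (by linarith : 0 ≤ s + 2) hsL (t := t) (γ := z.im) (by
      calc |z.im - t| = |(z.im - γ) + (γ - t)| := by congr 1; ring
        _ ≤ |z.im - γ| + |γ - t| := abs_add_le _ _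
        _ ≤ 2 * Real.pi * (s + 1) / Real.log T + 2 * Real.pi / Real.log T := by
            rw [abs_of_pos (by linarith : 0 < γ - t)]
            linarith
        _ = _ := by ring)
    calc (mu z : ℝ) * 1 ≤ (mu z : ℝ) * (cK (s + 2) * (Real.exp (-(z.im - t) ^ 2 / 2) *
        dp (Real.log T * (z.im - t)))) := by gcongr
      _ = _ := by ring
  · rw [mul_zero]
    positivity

/-- **the deterministic implication** -/
theorem det_idx (RH : RiemannHypothesis) {J M : ℕ} (hJ : 0 < J) (hM : 0 < M) {Y : ℝ} (hY : 1 ≤ Y)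
    {X s : ℝ} (hX : 4 ≤ X) (hs : 0 ≤ s) (hsX : s ≤ X) (hsY : Real.pi * s ≤ Y) {e B η ε K : ℝ}
    (hK : 0 ≤ K) (hη : 0 < η)
    (hε : 2 * e + (4 * Real.pi / M * cK (X + 2) + 64 * Real.exp 2 * sc Y J ^ 2 / Real.sqrt (X - 2)) * B +
        η + (Real.pi * s / Y) ^ 2 * (cK (s + 2) * B) ≤ ε) :
    ∀ᶠ T : ℝ in atTop, ∀ t, Ty J M Y e B T t → ∀ n, t < ord n →
      ord n ≤ t + 2 * Real.pi / Real.log T → ∀ w : ℝ → ℝ,
      (∀ σ, T < σ → σ ≤ 2 * T → |w σ - (σ - ord n) * Real.log T / (2 * Real.pi)| ≤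
        K / Real.log T * |(σ - ord n) * Real.log T / (2 * Real.pi)|) →
      (∀ m : ℕ, 1 ≤ m → |w (ord m)| ≤ X → m ∈ Ib T) → Rg (fun m => w (ord m)) J Y X s ε := by
  classical
  have hpi := Real.pi_pos
  filter_upwards [det_sum hJ hM hY hX hK hη (e := e) (B := B), eventually_ge_atTop 10,
    Real.tendsto_log_atTop.eventually_gt_atTop (2 * Real.pi * (X + 2)),
    Real.tendsto_log_atTop.eventually_gt_atTop (K * (2 * X + 2))] with T hdet hT10 hLX hLK
  intro t hTy n ht1 ht2 w hw hloc A hA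
  have hT1 : 1 ≤ T := by linarith
  obtain ⟨hVa, hMp, -⟩ := id hTy
  have hD := hdet t (ord n) hTy ht1 ht2 w hw hT1
  have hY0 : 0 < Y := by linarith
  have hcK : 0 < cK (s + 2) := cK_pos (by linarith)
  -- sums over indices
  have b1 := block_sum RH hT1 (fun z => if |w z.im| ≤ X then kern J Y (w z.im) else 0)
  have b2 := block_sum RH hT1 (fun z => if |w z.im| ≤ s then 1 else 0)
  simp only [zo_im] at b1 b2
  rw [b1] at hD
  have hcnt := near_cnt hT10 hs hK (by
      have : 2 * Real.pi * (s + 2) ≤ 2 * Real.pi * (X + 2) := by gcongr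
      linarith) (by
      have : K * (2 * s + 2) ≤ K * (2 * X + 2) := by gcongr
      linarith) ht1 ht2 hw hT1
  rw [b2] at hcnt
  have hcnt2 : ∑ m ∈ Ib T, (if |w (ord m)| ≤ s then (1 : ℝ) else 0) ≤ cK (s + 2) * B :=
    hcnt.trans (by gcongr)
  set v : ℕ → ℝ := fun m => w (ord m) with hv
  -- the sets
  have e1 : {m : ℕ | 1 ≤ m ∧ v m ∈ A} =
      (((Ib T).filter (fun m => v m ∈ A) : Finset ℕ) : Set ℕ) := by
    ext m
    rw [Finset.coe_filter]
    simp only [Set.mem_ofPred_eq]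
    constructor
    · rintro ⟨a, b⟩
      exact ⟨hloc m a ((abs_le.2 (hA b)).trans hsX), b⟩
    · rintro ⟨a, b⟩
      exact ⟨(mem_Ib.1 a).1, b⟩
  have e2 : {m : ℕ | 1 ≤ m ∧ |v m| ≤ X ∧ v m ∉ A} =
      (((Ib T).filter (fun m => |v m| ≤ X ∧ v m ∉ A) : Finset ℕ) : Set ℕ) := by
    ext m
    rw [Finset.coe_filter]
    simp only [Set.mem_ofPred_eq]
    constructor
    · rintro ⟨a, b, c⟩
      exact ⟨hloc m a b, b, c⟩
    · rintro ⟨a, b⟩
      exact ⟨(mem_Ib.1 a).1, b⟩
  rw [e1, e2, Set.ncard_coe_finset, finsum_mem_coe_finset, Finset.card_filter, Finset.sum_filter]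
  push_cast
  have e3 : ∑ m ∈ Ib T, (if |w (ord m)| ≤ X then kern J Y (w (ord m)) else 0) =
      ∑ m ∈ Ib T, (if |v m| ≤ X ∧ v m ∉ A then kern J Y (v m) else 0) +
      ∑ m ∈ Ib T, (if v m ∈ A then kern J Y (v m) else 0) := by
    rw [← Finset.sum_add_distrib]
    refine Finset.sum_congr rfl fun m _ => ?_
    change (if |v m| ≤ X then kern J Y (v m) else 0) = _
    by_cases h1 : v m ∈ A
    · have h2 : |v m| ≤ X := (abs_le.2 (hA h1)).trans hsX
      rw [if_pos h2, if_neg (by tauto), if_pos h1, zero_add]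
    · rw [if_neg h1, add_zero]
      by_cases h2 : |v m| ≤ X
      · rw [if_pos h2, if_pos ⟨h2, h1⟩]
      · rw [if_neg h2, if_neg (by tauto)]
  rw [e3] at hD
  have k1 : ∑ m ∈ Ib T, (if v m ∈ A then (1 : ℝ) else 0) -
      ∑ m ∈ Ib T, (if v m ∈ A then kern J Y (v m) else 0) ≤
      (Real.pi * s / Y) ^ 2 * (cK (s + 2) * B) := by
    refine le_trans ?_ (mul_le_mul_of_nonneg_left hcnt2 (by positivity))
    rw [← Finset.sum_sub_distrib, Finset.mul_sum]
    refine Finset.sum_le_sum fun m _ => ?_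
    change _ ≤ (Real.pi * s / Y) ^ 2 * (if |v m| ≤ s then 1 else 0)
    by_cases h1 : v m ∈ A
    · have h2 : |v m| ≤ s := abs_le.2 (hA h1)
      rw [if_pos h1, if_pos h1, if_pos h2, mul_one]
      have := kern_near hJ hY0 h2 hsY
      linarith
    · rw [if_neg h1, if_neg h1, sub_self]
      split_ifs <;> positivity
  have k2 : 0 ≤ ∑ m ∈ Ib T, (if v m ∈ A then (1 : ℝ) else 0) -
      ∑ m ∈ Ib T, (if v m ∈ A then kern J Y (v m) else 0) := by
    rw [← Finset.sum_sub_distrib]
    refine Finset.sum_nonneg fun m _ => ?_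
    split_ifs
    · have := kern_le_one hJ Y (v m)
      linarith
    · linarith
  have k3 := abs_le.1 hD
  have k4 : 0 ≤ (Real.pi * s / Y) ^ 2 * (cK (s + 2) * B) := k2.trans k1
  rw [abs_le]
  constructor <;> linarith [k3.1, k3.2]

/-- **number rigidity** -/
theorem rigid (RH : RiemannHypothesis) {K : ℝ} (hK : 0 ≤ K) {v : ℕ → ℝ → ℝ} (hv : ∀ X, Nrm K X v)
    {s ε : ℝ} (hs : 0 < s) (hε : 0 < ε) :
    ∀ᶠ Y : ℝ in atTop, ∀ᶠ J : ℕ in atTop, ∀ᶠ X : ℝ in atTop, ∀ᶠ N : ℕ in atTop,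
    (({n : ℕ | 1 ≤ n ∧ n ≤ N ∧ ¬ Rg (fun m => v n (ord m)) J Y X s ε}.ncard : ℕ) : ℝ) ≤ ε * N := by
  have hpi := Real.pi_pos
  obtain ⟨Cb, hCb, hbad⟩ := bad_count RH
  obtain ⟨C, hC, htyp⟩ := typ (rhs_of RH)
  set q' := ε / (64 * Cb) with hq'
  have hq'0 : 0 < q' := by positivity
  set q := q' ^ 2 / 3 with hq
  have hq0 : 0 < q := by positivity
  set B := C / q + 1 with hB
  have hB1 : 1 ≤ B := by have : 0 ≤ C / q := by positivity
                         linarith
  have hCB : C / B ^ 2 ≤ q := by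
    rw [div_le_iff₀ (by positivity)]
    have h1 : C ≤ q * B := by
      rw [hB, mul_add, mul_div_cancel₀ _ hq0.ne']
      linarith
    have h2 : B ≤ B ^ 2 := by nlinarith
    calc C ≤ q * B := h1
      _ ≤ q * B ^ 2 := by gcongr
  set e := ε / 16 with he
  have he0 : 0 < e := by positivity
  have hcK : 0 < cK (s + 2) := cK_pos (by linarith)
  -- the choice of Y
  have hY : ∀ᶠ Y : ℝ in atTop, 3 ≤ Y ∧ Real.pi * s ≤ Y ∧ 17 * Real.pi ^ 2 / (Y ^ 2 * e ^ 2) ≤ q ∧
      (Real.pi * s / Y) ^ 2 * (cK (s + 2) * B) ≤ ε / 4 := by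
    have t1 : Tendsto (fun Y : ℝ => 17 * Real.pi ^ 2 / (Y ^ 2 * e ^ 2)) atTop (𝓝 0) := by
      apply Tendsto.const_div_atTop
      exact (tendsto_pow_atTop (by norm_num)).atTop_mul_const (by positivity)
    have t2 : Tendsto (fun Y : ℝ => (Real.pi * s / Y) ^ 2 * (cK (s + 2) * B)) atTop (𝓝 0) := by
      have h1 : Tendsto (fun Y : ℝ => Real.pi * s / Y) atTop (𝓝 0) := tendsto_id.const_div_atTop _
      have h2 := (h1.pow 2).mul_const (cK (s + 2) * B)
      simpa using h2
    filter_upwards [eventually_ge_atTop 3, eventually_ge_atTop (Real.pi * s),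
      t1.eventually (ge_mem_nhds hq0), t2.eventually (ge_mem_nhds (by positivity : 0 < ε / 4))]
      with Y h1 h2 h3 h4 using ⟨h1, h2, h3, h4⟩
  filter_upwards [hY] with Y hYa0
  obtain ⟨hY3, hYs, hYq, hYε⟩ := hYa0
  -- the choice of J
  have hJ : ∀ᶠ J : ℕ in atTop, 0 < J ∧ 10 / (J * e ^ 2) ≤ q := by
    have t1 : Tendsto (fun J : ℕ => 10 / ((J : ℝ) * e ^ 2)) atTop (𝓝 0) := by
      apply Tendsto.const_div_atTop
      exact tendsto_natCast_atTop_atTop.atTop_mul_const (by positivity)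
    filter_upwards [eventually_gt_atTop 0, t1.eventually (ge_mem_nhds hq0)] with J h1 h2
      using ⟨h1, h2⟩
  filter_upwards [hJ] with J hJa0
  obtain ⟨hJ0, hJq⟩ := hJa0
  -- the choice of X
  have hX : ∀ᶠ X : ℝ in atTop, 4 ≤ X ∧ s ≤ X ∧
      64 * Real.exp 2 * sc Y J ^ 2 / Real.sqrt (X - 2) * B ≤ ε / 8 := by
    have t1 : Tendsto (fun X : ℝ => 64 * Real.exp 2 * sc Y J ^ 2 / Real.sqrt (X - 2) * B) atTop (𝓝 0) := by
      have h1 : Tendsto (fun X : ℝ => Real.sqrt (X - 2)) atTop atTop :=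
        Real.tendsto_sqrt_atTop.comp (tendsto_atTop_add_const_right _ (-2) tendsto_id)
      have h2 := (h1.const_div_atTop (64 * Real.exp 2 * sc Y J ^ 2)).mul_const B
      simpa using h2
    filter_upwards [eventually_ge_atTop 4, eventually_ge_atTop s,
      t1.eventually (ge_mem_nhds (by positivity : 0 < ε / 8))] with X h1 h2 h3 using ⟨h1, h2, h3⟩
  filter_upwards [hX] with X hXa0
  obtain ⟨hX4, hXs, hXε⟩ := hXa0
  -- the choice of M
  have hM : ∀ᶠ M : ℕ in atTop, 0 < M ∧ 4 * Real.pi / M * cK (X + 2) * B ≤ ε / 8 := by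
    have t1 : Tendsto (fun M : ℕ => 4 * Real.pi / (M : ℝ) * cK (X + 2) * B) atTop (𝓝 0) := by
      have h1 : Tendsto (fun M : ℕ => 4 * Real.pi / (M : ℝ)) atTop (𝓝 0) :=
        tendsto_natCast_atTop_atTop.const_div_atTop _
      have h2 := (h1.mul_const (cK (X + 2))).mul_const B
      simpa using h2
    filter_upwards [eventually_gt_atTop 0, t1.eventually (ge_mem_nhds (by positivity : 0 < ε / 8))]
      with M h1 h2 using ⟨h1, h2⟩
  obtain ⟨M, hM0, hMε⟩ := hM.exists
  apply all_bad hε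
  have h1 := htyp J M Y e B q hJ0 hM0 hY3 he0 (by linarith) hq0 hJq hYq hCB
  have h2 : Sm (Ty J M Y e B) (q' ^ 2) := by
    have : 3 * q = q' ^ 2 := by rw [hq]; ring
    rwa [this] at h1
  have h3 := det_idx RH hJ0 hM0 (by linarith : 1 ≤ Y) hX4 hs.le hXs hYs (e := e) (B := B)
    (η := ε / 8) (ε := ε) hK (by positivity) (by
      rw [add_mul]
      linarith)
  have h4 := hbad q' hq'0 _ h2 (fun n => Rg (fun m => v n (ord m)) J Y X s ε) (by
    filter_upwards [h3, hv X] with T g1 g2 t hTy n hn hn2 ht1 ht2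
    have hVa := hTy.1
    unfold Va at hVa
    obtain ⟨g3, g4⟩ := g2 n hn (by linarith) hn2
    exact g1 t hTy n ht1 ht2 _ g3 g4)
  filter_upwards [h4] with T h5
  have e1 : Cb * q' = ε / 64 := by rw [hq']; field_simp
  rwa [e1] at h5

/-! ### normalisations -/

/-- the normalised ordinates -/
lemma nrm_wd (X : ℝ) : Nrm 2 X (fun n σ => wd σ (ord n)) := by
  filter_upwards [eventually_ge_atTop 10,
    Real.tendsto_log_atTop.eventually_gt_atTop (2 * Real.pi * X)] with T hT hLX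
  intro n hn h1 h2
  obtain ⟨q1, q2, q3⟩ := mem_Ib.1 hn
  exact ⟨fun σ h3 h4 => (wd_bounds hT h3.le h4 q2.le q3).2, fun m hm hv => vv_loc hT hLX h1 h2 hm hv⟩

/-- the normalisation by the own mean spacing -/
lemma nrm_own (X : ℝ) :
    Nrm 2 X (fun n σ => (σ - ord n) * Real.log (ord n / (2 * Real.pi)) / (2 * Real.pi)) := by
  have hpi := Real.pi_pos
  filter_upwards [eventually_ge_atTop 10,
    Real.tendsto_log_atTop.eventually_gt_atTop (4 * Real.pi * |X| + 3)] with T hT hLX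
  intro n hn h1 h2
  obtain ⟨q1, q2, q3⟩ := mem_Ib.1 hn
  have hL1 := log_one_le hT
  have hX0 := abs_nonneg X
  have hL0 : 0 < Real.log T := by linarith
  have hpos : 0 < ord n := by linarith
  have hlog2 : Real.log 2 ≤ 1 := by have := Real.log_two_lt_d9; linarith
  have e1 : Real.log (ord n / (2 * Real.pi)) = Real.log (ord n) - Real.log (2 * Real.pi) :=
    Real.log_div hpos.ne' (by positivity)
  have l1 : Real.log T ≤ Real.log (ord n) := Real.log_le_log (by linarith) q2.le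
  have l2 : Real.log (ord n) ≤ Real.log T + 1 := by
    have : Real.log (ord n) ≤ Real.log (2 * T) := Real.log_le_log hpos q3
    rw [Real.log_mul (by norm_num) (by linarith)] at this
    linarith
  have l3 : Real.log (2 * Real.pi) ≤ 2 := by
    rw [Real.log_le_iff_le_exp (by positivity)]
    have h3 := Real.exp_one_gt_d9
    have h4 : Real.exp 2 = Real.exp 1 * Real.exp 1 := by rw [← Real.exp_add]; norm_num
    have h5 := Real.pi_lt_d2
    rw [h4]
    nlinarith
  have l4 : 1 ≤ Real.log (2 * Real.pi) := by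
    rw [Real.le_log_iff_exp_le (by positivity)]
    have h3 := Real.exp_one_lt_d9
    have h5 := Real.pi_gt_three
    linarith
  refine ⟨fun σ h3 h4 => ?_, fun m hm hv => ?_⟩
  · have e2 : (σ - ord n) * Real.log (ord n / (2 * Real.pi)) / (2 * Real.pi) -
        (σ - ord n) * Real.log T / (2 * Real.pi) =
        ((Real.log (ord n / (2 * Real.pi)) - Real.log T) / Real.log T) *
          ((σ - ord n) * Real.log T / (2 * Real.pi)) := by
      field_simp
    rw [e2, abs_mul]
    apply mul_le_mul_of_nonneg_right _ (abs_nonneg _)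
    rw [abs_div, abs_of_pos hL0]
    apply div_le_div_of_nonneg_right _ hL0.le
    rw [e1, abs_le]
    constructor <;> linarith
  · have h5 : 4 * Real.pi * |X| + 1 ≤ Real.log (ord n / (2 * Real.pi)) := by rw [e1]; linarith
    have h6 : |ord m - ord n| ≤ 1 / 2 := by
      have h7 : |ord m - ord n| * Real.log (ord n / (2 * Real.pi)) ≤ 2 * Real.pi * |X| := by
        have h8 := hv.trans (le_abs_self X)
        rw [abs_div, abs_mul, abs_of_pos (by positivity : 0 < 2 * Real.pi),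
          abs_of_pos (by nlinarith : 0 < Real.log (ord n / (2 * Real.pi))),
          div_le_iff₀ (by positivity)] at h8
        linarith
      by_contra hcon
      push Not at hcon
      have h9 : 1 / 2 * (4 * Real.pi * |X| + 1) ≤ |ord m - ord n| * Real.log (ord n / (2 * Real.pi)) :=
        mul_le_mul hcon.le h5 (by positivity) (abs_nonneg _)
      linarith
    obtain ⟨h7, h8⟩ := abs_le.1 h6
    exact mem_Ib.2 ⟨hm, by linarith, by linarith⟩

end Pool.Agent.H478.RG
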