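import Pool.Agent.H478.RG4

/-! Perfect screening: averages over the zeros of unbounded functions. -/

open Finset Complex MeasureTheory Filter Topology ProbabilityTheory

namespace Pool.Agent.H478.RG

open Pool.Agent.H478.CW
open Pool.Agent.H478.EX
open Pool.Agent.R321.FA
open SP (ZZ mu Mk RHs)
open SG (ord NZ zmult ZS)
open Pool.Agent.TH800.LD (ZZf)

/-- the dominating function of the statistics in a short window -/
noncomputable def Gq (J M : ℕ) (Y T t : ℝ) : ℝ := |stt (rl J Y 0) (1 / Y) T t| +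
  ∑ j ∈ Finset.range M, |stt (dl J Y ((j + 1 : ℕ) / M) (j / M)) (1 / Y) T t|

lemma Gq_nonneg (J M : ℕ) (Y T t : ℝ) : 0 ≤ Gq J M Y T t :=
  add_nonneg (abs_nonneg _) (Finset.sum_nonneg fun _ _ => abs_nonneg _)

lemma Gq_cont (J M : ℕ) {Y : ℝ} (hY : 1 ≤ Y) {T : ℝ} (hT : 1 ≤ T) : Continuous (Gq J M Y T) := by
  have h1 := stt_cont (rl_good J hY 0) hT
  have h2 : ∀ j ∈ Finset.range M, Continuous fun t =>
      |stt (dl J Y ((j + 1 : ℕ) / M) (j / M)) (1 / Y) T t| :=
    fun j _ => (stt_cont (dl_good J hY _ _) hT).abs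
  have h3 := continuous_finsetSum _ h2
  unfold Gq
  exact h1.abs.add h3

lemma Gq_ge (J : ℕ) {M : ℕ} (Y T t : ℝ) {i : ℕ} (hi : i ≤ M) :
    |stt (rl J Y (i / M)) (1 / Y) T t| ≤ Gq J M Y T t := by
  have htel : stt (rl J Y (i / M)) (1 / Y) T t = stt (rl J Y 0) (1 / Y) T t +
      ∑ j ∈ Finset.range i, stt (dl J Y ((j + 1 : ℕ) / M) (j / M)) (1 / Y) T t := by
    simp only [dl_stt]
    rw [Finset.sum_range_sub (fun j : ℕ => stt (rl J Y ((j : ℕ) / M)) (1 / Y) T t)]
    simp
  rw [htel]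
  refine (abs_add_le _ _).trans ?_
  unfold Gq
  gcongr
  refine (Finset.abs_sum_le_sum_abs _ _).trans ?_
  apply Finset.sum_le_sum_of_subset_of_nonneg
  · exact Finset.range_subset_range.2 hi
  · intro j _ _
    exact abs_nonneg _

lemma Gq_sq (J M : ℕ) (Y T t : ℝ) : Gq J M Y T t ^ 2 ≤ 2 * stt (rl J Y 0) (1 / Y) T t ^ 2 +
    2 * (M * ∑ j ∈ Finset.range M, stt (dl J Y ((j + 1 : ℕ) / M) (j / M)) (1 / Y) T t ^ 2) := by
  have h5 := Finset.sum_mul_sq_le_sq_mul_sq (Finset.range M) (fun _ => (1 : ℝ))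
    (fun j => |stt (dl J Y ((j + 1 : ℕ) / M) (j / M)) (1 / Y) T t|)
  simp only [one_mul, one_pow, Finset.sum_const, Finset.card_range, nsmul_eq_mul, mul_one,
    sq_abs] at h5
  unfold Gq
  set A := |stt (rl J Y 0) (1 / Y) T t| with hA
  set B := ∑ j ∈ Finset.range M, |stt (dl J Y ((j + 1 : ℕ) / M) (j / M)) (1 / Y) T t|
  have hA2 : A ^ 2 = stt (rl J Y 0) (1 / Y) T t ^ 2 := by rw [hA, sq_abs]
  rw [← hA2]
  nlinarith [sq_nonneg (A - B)]

/-- the second moment of the dominating function -/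
lemma Gq_mom (hRH : RHs) {J M : ℕ} (hJ : 0 < J) (hM : 0 < M) {Y : ℝ} (hY : 3 ≤ Y) {q : ℝ}
    (hq : 18 / J + 32 * Real.pi ^ 2 / Y ^ 2 < q) : ∀ᶠ T : ℝ in atTop,
    ∫ t in Va T..Vb T, Gq J M Y T t ^ 2 ≤ q * T := by
  have hpi := Real.pi_pos
  have hY0 : 0 < Y := by linarith
  have hY1 : 1 ≤ Y := by linarith
  have hM0 : (0 : ℝ) < M := by exact_mod_cast hM
  have hμ : 0 < 1 / Y := by positivity
  have hμ2 : ((2 : ℕ) : ℝ) * (1 / Y) < 1 := by
    push_cast
    rw [← mul_div_assoc, mul_one, div_lt_one hY0]; linarith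
  have l1 := mom_lim hRH (rl_good J hY1 0) hμ 2 hμ2
  have l2 : Tendsto (fun T : ℝ => ∑ j ∈ Finset.range M, 1 / T * ∫ t in Va T..Vb T,
      stt (dl J Y ((j + 1 : ℕ) / M) (j / M)) (1 / Y) T t ^ 2)
      atTop (𝓝 (∑ j ∈ Finset.range M, kv (dl J Y ((j + 1 : ℕ) / M) (j / M)))) := by
    apply tendsto_finsetSum
    intro j _
    have h2 := mom_lim hRH (dl_good J hY1 ((j + 1 : ℕ) / M) (j / M)) hμ 2 hμ2
    rwa [gm_two] at h2
  rw [gm_two] at l1
  have l3 := (l1.const_mul 2).add (l2.const_mul (2 * (M : ℝ)))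
  have hlim : 2 * kv (rl J Y 0) + 2 * (M : ℝ) * ∑ j ∈ Finset.range M,
      kv (dl J Y ((j + 1 : ℕ) / M) (j / M)) < q := by
    refine lt_of_le_of_lt ?_ hq
    have a1 := rl_kv hJ hY1 0
    have a2 : ∑ j ∈ Finset.range M, kv (dl J Y ((j + 1 : ℕ) / M) (j / M)) ≤
        16 * Real.pi ^ 2 / Y ^ 2 / M := by
      calc ∑ j ∈ Finset.range M, kv (dl J Y ((j + 1 : ℕ) / M) (j / M)) ≤
          ∑ _j ∈ Finset.range M, 16 * Real.pi ^ 2 * (1 / (M : ℝ)) ^ 2 / Y ^ 2 := by
            refine Finset.sum_le_sum fun j _ => ?_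
            refine (dl_kv hJ hY1 _ _).trans (le_of_eq ?_)
            congr 3
            push_cast
            field_simp
            ring
        _ = 16 * Real.pi ^ 2 / Y ^ 2 / M := by
            rw [Finset.sum_const, Finset.card_range, nsmul_eq_mul]
            field_simp
    calc 2 * kv (rl J Y 0) + 2 * (M : ℝ) * ∑ j ∈ Finset.range M,
        kv (dl J Y ((j + 1 : ℕ) / M) (j / M)) ≤ 2 * (9 / J) + 2 * (M : ℝ) *
          (16 * Real.pi ^ 2 / Y ^ 2 / M) := by gcongr
      _ = 18 / J + 32 * Real.pi ^ 2 / Y ^ 2 := by field_simp; ring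
  filter_upwards [l3.eventually (gt_mem_nhds hlim), V_ord, eventually_ge_atTop 1] with T h3 h4 h5
  obtain ⟨h10, hV, -⟩ := h4
  have hT0 : 0 < T := by linarith
  have c1 : Continuous fun t => stt (rl J Y 0) (1 / Y) T t ^ 2 := (stt_cont (rl_good J hY1 0) h5).pow _
  have c2 : ∀ j ∈ Finset.range M, Continuous fun t =>
      stt (dl J Y ((j + 1 : ℕ) / M) (j / M)) (1 / Y) T t ^ 2 := fun j _ =>
    (stt_cont (dl_good J hY1 _ _) h5).pow _
  have c3 := continuous_finsetSum _ c2
  calc ∫ t in Va T..Vb T, Gq J M Y T t ^ 2 ≤ ∫ t in Va T..Vb T,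
      (2 * stt (rl J Y 0) (1 / Y) T t ^ 2 +
      2 * (M * ∑ j ∈ Finset.range M, stt (dl J Y ((j + 1 : ℕ) / M) (j / M)) (1 / Y) T t ^ 2)) := by
        apply intervalIntegral.integral_mono_on hV
        · exact ((Gq_cont J M hY1 h5).pow 2).intervalIntegrable _ _
        · exact ((c1.const_mul 2).add ((c3.const_mul (M : ℝ)).const_mul 2)).intervalIntegrable _ _
        · intro t _
          exact Gq_sq J M Y T t
    _ = 2 * (∫ t in Va T..Vb T, stt (rl J Y 0) (1 / Y) T t ^ 2) + 2 * (M * ∑ j ∈ Finset.range M,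
        ∫ t in Va T..Vb T, stt (dl J Y ((j + 1 : ℕ) / M) (j / M)) (1 / Y) T t ^ 2) := by
        rw [intervalIntegral.integral_add ((c1.const_mul 2).intervalIntegrable _ _)
          (((c3.const_mul (M : ℝ)).const_mul 2).intervalIntegrable _ _),
          intervalIntegral.integral_const_mul, intervalIntegral.integral_const_mul,
          intervalIntegral.integral_const_mul,
          intervalIntegral.integral_finsetSum fun j hj => (c2 j hj).intervalIntegrable _ _]
    _ = T * (2 * (1 / T * ∫ t in Va T..Vb T, stt (rl J Y 0) (1 / Y) T t ^ 2) +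
        2 * M * ∑ j ∈ Finset.range M, 1 / T * ∫ t in Va T..Vb T,
          stt (dl J Y ((j + 1 : ℕ) / M) (j / M)) (1 / Y) T t ^ 2) := by
        rw [← Finset.mul_sum]
        field_simp
    _ ≤ T * q := by gcongr
    _ = q * T := mul_comm _ _

/-- the middle of the block -/
noncomputable def Md (T : ℝ) : Finset ℕ := (Ib T).filter fun n =>
  T + 8 * Real.log T + 1 < ord n ∧ ord n ≤ 2 * T - 8 * Real.log T - 1

lemma mem_Md {T : ℝ} {n : ℕ} : n ∈ Md T ↔ n ∈ Ib T ∧ T + 8 * Real.log T + 1 < ord n ∧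
    ord n ≤ 2 * T - 8 * Real.log T - 1 := by
  unfold Md; rw [Finset.mem_filter]

/-- **averages over the zeros** -/
theorem mid_L1 (RH : RiemannHypothesis) {T : ℝ} (hT : 10 ≤ T) (hL2 : 2 * Real.pi ≤ Real.log T)
    (hVV : Va T ≤ Vb T) {f : ℕ → ℝ} {e0 E : ℝ → ℝ} (hE : Continuous E)
    (he0 : ∀ t, 0 ≤ e0 t)
    (hb : ∀ t, Va T ≤ t → t ≤ Vb T → ∀ n, t < ord n →
      ord n ≤ t + 2 * Real.pi / Real.log T → n ∈ Md T → f n ≤ e0 t)
    (hE0 : ∀ t, e0 t * Mp T t ≤ E t) :
    ∑ n ∈ Md T, f n ≤ Real.log T / (2 * Real.pi) * (cK 1 * ∫ t in Va T..Vb T, E t) := by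
  classical
  have hpi := Real.pi_pos
  have hT1 : 1 ≤ T := by linarith
  have hL1 := log_one_le hT
  set L := Real.log T with hLdef
  have hL0 : 0 < L := by linarith
  set w := 2 * Real.pi / L with hw
  have hw0 : 0 < w := by positivity
  have hw1 : w ≤ 1 := by rw [hw, div_le_one hL0]; exact hL2
  have hcK : 0 < cK 1 := cK_pos zero_le_one
  have hJint : ∀ n ∈ Md T, ∫ t in Va T..Vb T, JI t w (ord n) = w := by
    intro n hn
    obtain ⟨hnI, h1, h2⟩ := mem_Md.1 hn
    rw [← hLdef] at h1 h2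
    apply JI_int_eq hw0.le
    · unfold Va; rw [← hLdef]; linarith
    · unfold Vb; rw [← hLdef]; linarith
  have hJg : ∀ n, IntervalIntegrable (fun t => JI t w (ord n) * f n) volume (Va T) (Vb T) := by
    intro n
    exact (JI_intble' _ _ _ _).mul_const _
  have hcount : ∀ t, ∑ n ∈ Md T, JI t w (ord n) ≤ cK 1 * Mp T t := by
    intro t
    have h1 := nc_le hT zero_le_one (by rw [mul_one]; exact hL2) t
    refine le_trans ?_ h1
    have h2 := AW_idx RH hT1 1 (fun _ => 1) t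
    have h3 : AW T 1 (fun _ => 1) t = nc T t 1 := by
      rw [AW_eq hT1, nc_JI hT1]
      refine Finset.sum_congr rfl fun s _ => ?_
      rw [mul_one]
    rw [h3] at h2
    rw [h2]
    simp only [mul_one]
    exact Finset.sum_le_sum_of_subset_of_nonneg (Finset.filter_subset _ _)
      (fun n _ _ => JI_nonneg _ _ _)
  have hmain : w * ∑ n ∈ Md T, f n ≤ cK 1 * ∫ t in Va T..Vb T, E t := by
    calc w * ∑ n ∈ Md T, f n = ∑ n ∈ Md T, ∫ t in Va T..Vb T, JI t w (ord n) * f n := by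
          rw [Finset.mul_sum]
          refine Finset.sum_congr rfl fun n hn => ?_
          rw [intervalIntegral.integral_mul_const, hJint n hn]
      _ = ∫ t in Va T..Vb T, ∑ n ∈ Md T, JI t w (ord n) * f n := by
          rw [intervalIntegral.integral_finsetSum fun n _ => hJg n]
      _ ≤ ∫ t in Va T..Vb T, cK 1 * E t := by
          apply intervalIntegral.integral_mono_on hVV
          · exact (IntervalIntegrable.sum (Md T) fun n _ => hJg n).congr (by
              intro t _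
              simp)
          · exact (hE.const_mul _).intervalIntegrable _ _
          · intro t ht
            have h1 : ∑ n ∈ Md T, JI t w (ord n) * f n ≤ ∑ n ∈ Md T, JI t w (ord n) * e0 t := by
              refine Finset.sum_le_sum fun n hn => ?_
              by_cases hJ : t < ord n ∧ ord n ≤ t + w
              · exact mul_le_mul_of_nonneg_left (hb t ht.1 ht.2 n hJ.1 hJ.2 hn) (JI_nonneg _ _ _)
              · unfold JI
                rw [if_neg hJ]
                simp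
            refine h1.trans ?_
            rw [← Finset.sum_mul]
            calc (∑ n ∈ Md T, JI t w (ord n)) * e0 t ≤ cK 1 * Mp T t * e0 t :=
                  mul_le_mul_of_nonneg_right (hcount t) (he0 t)
              _ = cK 1 * (e0 t * Mp T t) := by ring
              _ ≤ cK 1 * E t := mul_le_mul_of_nonneg_left (hE0 t) hcK.le
      _ = _ := by rw [intervalIntegral.integral_const_mul]
  have e1 : ∑ n ∈ Md T, f n = L / (2 * Real.pi) * (w * ∑ n ∈ Md T, f n) := by
    rw [hw]; field_simp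
  rw [e1]
  gcongr

end Pool.Agent.H478.RG
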