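import Pool.Agent.H478.RG5

/-! Perfect screening: the blocks. -/

open Finset Complex MeasureTheory Filter Topology ProbabilityTheory

namespace Pool.Agent.H478.RG

open Pool.Agent.H478.CW
open Pool.Agent.H478.EX
open Pool.Agent.R321.FA
open SP (ZZ mu Mk RHs)
open SG (ord NZ zmult ZS)
open Pool.Agent.TH800.LD (ZZf)

/-- the distance to the `n`-th ordinate in units of the mean spacing at height `T'` -/
noncomputable def ud (T' : ℝ) (n : ℕ) (σ : ℝ) : ℝ := (σ - ord n) * Real.log T' / (2 * Real.pi)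

/-- the number of ordinates at distance at most `R` -/
noncomputable def Cn (T' R : ℝ) (n : ℕ) : ℝ :=
  (({m : ℕ | 1 ≤ m ∧ |ud T' n (ord m)| ≤ R}.ncard : ℕ) : ℝ)

/-- the sum of the kernel -/
noncomputable def Sn (J : ℕ) (Y X T' : ℝ) (n : ℕ) : ℝ :=
  ∑ᶠ m ∈ {m : ℕ | 1 ≤ m ∧ |ud T' n (ord m)| ≤ X}, kern J Y (ud T' n (ord m))

lemma Cn_nonneg (T' R : ℝ) (n : ℕ) : 0 ≤ Cn T' R n := Nat.cast_nonneg _

open Classical in
lemma sum_loc {T : ℝ} {p : ℕ → Prop} (h : ∀ m, 1 ≤ m → p m → m ∈ Ib T) (g : ℕ → ℝ) :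
    ∑ᶠ m ∈ {m : ℕ | 1 ≤ m ∧ p m}, g m = ∑ m ∈ Ib T, if p m then g m else 0 := by
  have e : {m : ℕ | 1 ≤ m ∧ p m} = (((Ib T).filter p : Finset ℕ) : Set ℕ) := by
    ext m
    rw [Finset.coe_filter]
    simp only [Set.mem_ofPred_eq]
    constructor
    · rintro ⟨a, b⟩; exact ⟨h m a b, b⟩
    · rintro ⟨a, b⟩; exact ⟨(mem_Ib.1 a).1, b⟩
  rw [e, finsum_mem_coe_finset, Finset.sum_filter]

open Classical in
lemma card_loc {T : ℝ} {p : ℕ → Prop} (h : ∀ m, 1 ≤ m → p m → m ∈ Ib T) :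
    (({m : ℕ | 1 ≤ m ∧ p m}.ncard : ℕ) : ℝ) = ∑ m ∈ Ib T, if p m then (1 : ℝ) else 0 := by
  have e : {m : ℕ | 1 ≤ m ∧ p m} = (((Ib T).filter p : Finset ℕ) : Set ℕ) := by
    ext m
    rw [Finset.coe_filter]
    simp only [Set.mem_ofPred_eq]
    constructor
    · rintro ⟨a, b⟩; exact ⟨h m a b, b⟩
    · rintro ⟨a, b⟩; exact ⟨(mem_Ib.1 a).1, b⟩
  rw [e, Set.ncard_coe_finset, Finset.card_filter]
  push_cast
  rfl

lemma ud_loc {T T' X : ℝ} (hX : 2 * Real.pi * X < Real.log T') (hX0 : 0 ≤ X) {n : ℕ}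
    (h1 : T + 1 < ord n) (h2 : ord n ≤ 2 * T - 1) {m : ℕ} (hm : 1 ≤ m)
    (hv : |ud T' n (ord m)| ≤ X) : m ∈ Ib T := by
  have hpi := Real.pi_pos
  have hL0 : 0 < Real.log T' := lt_of_le_of_lt (by positivity) hX
  unfold ud at hv
  rw [abs_div, abs_mul, abs_of_pos (by positivity : 0 < 2 * Real.pi), abs_of_pos hL0,
    div_le_iff₀ (by positivity)] at hv
  have h6 : |ord m - ord n| < 1 := by
    by_contra hcon
    push Not at hcon
    have : 1 * Real.log T' ≤ |ord m - ord n| * Real.log T' :=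
      mul_le_mul_of_nonneg_right hcon hL0.le
    linarith
  obtain ⟨h7, h8⟩ := abs_lt.1 h6
  exact mem_Ib.2 ⟨hm, by linarith, by linarith⟩

lemma ud_near {T T' K : ℝ} (hT : 10 ≤ T) (h : |Real.log T' - Real.log T| ≤ K) (n : ℕ) (σ : ℝ) :
    |ud T' n σ - (σ - ord n) * Real.log T / (2 * Real.pi)| ≤
      K / Real.log T * |(σ - ord n) * Real.log T / (2 * Real.pi)| := by
  have hL1 := log_one_le hT
  have hL0 : 0 < Real.log T := by linarith
  have hpi := Real.pi_pos
  have e2 : ud T' n σ - (σ - ord n) * Real.log T / (2 * Real.pi) =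
      ((Real.log T' - Real.log T) / Real.log T) * ((σ - ord n) * Real.log T / (2 * Real.pi)) := by
    unfold ud; field_simp
  rw [e2, abs_mul]
  apply mul_le_mul_of_nonneg_right _ (abs_nonneg _)
  rw [abs_div, abs_of_pos hL0]
  exact div_le_div_of_nonneg_right h hL0.le

/-- the number of near zeros is dominated by the majorant -/
lemma Cn_le (RH : RiemannHypothesis) {T T' K R : ℝ} (hT : 10 ≤ T) (hR : 0 ≤ R) (hK : 0 ≤ K)
    (hRL : 2 * Real.pi * (R + 2) ≤ Real.log T) (hKL : K * (2 * R + 2) ≤ Real.log T)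
    (hRL' : 2 * Real.pi * R < Real.log T') (h : |Real.log T' - Real.log T| ≤ K) {n : ℕ}
    (hn : n ∈ Md T) {t : ℝ} (h1 : t < ord n) (h2 : ord n ≤ t + 2 * Real.pi / Real.log T) :
    Cn T' R n ≤ cK (R + 2) * Mp T t := by
  classical
  have hT1 : 1 ≤ T := by linarith
  have hL1 := log_one_le hT
  obtain ⟨hnI, hn1, hn2⟩ := mem_Md.1 hn
  unfold Cn
  rw [card_loc (T := T) (fun m hm hv => ud_loc hRL' hR (by linarith) (by linarith) hm hv)]
  have h3 := near_cnt hT hR hK hRL hKL h1 h2 (w := ud T' n)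
    (fun σ _ _ => ud_near hT h n σ) hT1
  have b2 := block_sum RH hT1 (fun z => if |ud T' n z.im| ≤ R then 1 else 0)
  simp only [zo_im] at b2
  rw [b2] at h3
  exact h3

/-- the pointwise bound for the sum of the kernel -/
lemma Sn_le (RH : RiemannHypothesis) {J M : ℕ} (hJ : 0 < J) (hM : 0 < M) {Y : ℝ} (hY : 1 ≤ Y)
    {X : ℝ} (hX : 4 ≤ X) {η K : ℝ} (hK : 0 ≤ K) (hη : 0 < η) : ∀ᶠ T : ℝ in atTop, ∀ T' : ℝ,
    |Real.log T' - Real.log T| ≤ K → ∀ n ∈ Md T, ∀ t, Va T ≤ t → t < ord n →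
    ord n ≤ t + 2 * Real.pi / Real.log T → |Sn J Y X T' n - cJ J Y| ≤ Gq J M Y T t +
      (4 * Real.pi / M * cK (X + 2) + 64 * Real.exp 2 * sc Y J ^ 2 / Real.sqrt (X - 2) + η) *
        Mp T t + η := by
  classical
  filter_upwards [det_gen hJ hM hY hX hK hη, eventually_ge_atTop 10,
    Real.tendsto_log_atTop.eventually_gt_atTop (2 * Real.pi * X + K)] with T hdet hT10 hLX
  intro T' hT' n hn t hVa h1 h2
  have hT1 : 1 ≤ T := by linarith
  have hL1 := log_one_le hT10
  obtain ⟨hnI, hn1, hn2⟩ := mem_Md.1 hn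
  have hlogT' : 2 * Real.pi * X < Real.log T' := by
    have := (abs_le.1 hT').1
    linarith
  have h3 := hdet t (ord n) (Gq J M Y T t) hVa (fun i hi => Gq_ge J Y T t hi) h1 h2 (ud T' n)
    (fun σ _ _ => ud_near hT10 hT' n σ) hT1
  have b1 := block_sum RH hT1 (fun z => if |ud T' n z.im| ≤ X then kern J Y (ud T' n z.im) else 0)
  simp only [zo_im] at b1
  rw [b1] at h3
  unfold Sn
  rw [sum_loc (T := T) (p := fun m => |ud T' n (ord m)| ≤ X)
    (fun m hm hv => ud_loc hlogT' (by linarith) (by linarith) (by linarith) hm hv)]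
  exact h3

lemma pow_maj {x : ℝ} (hx : 0 ≤ x) {i j : ℕ} (h : i ≤ j) : x ^ i ≤ (1 + x) ^ j :=
  (pow_le_pow_left₀ hx (by linarith) i).trans (pow_le_pow_right₀ (by linarith) h)

/-- the weighted deviation at the index `n` -/
noncomputable def fW (k J : ℕ) (Y X R δ T' : ℝ) (n : ℕ) : ℝ :=
  Cn T' R n ^ k * (|Sn J Y X T' n - cJ J Y| + δ)

lemma fW_nonneg (k J : ℕ) (Y X R : ℝ) {δ : ℝ} (hδ : 0 ≤ δ) (T' : ℝ) (n : ℕ) :
    0 ≤ fW k J Y X R δ T' n := by
  unfold fW
  have := Cn_nonneg T' R n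
  positivity

/-- **the fine estimate in the middle of the blocks** -/
theorem mid_fine (RH : RiemannHypothesis) (k : ℕ) {R : ℝ} (hR : 0 ≤ R) {ε : ℝ} (hε : 0 < ε) :
    ∀ᶠ Y : ℝ in atTop, ∀ᶠ J : ℕ in atTop, ∀ᶠ X : ℝ in atTop,
    (0 < J ∧ 1 ≤ Y ∧ Real.pi * R ≤ Y ∧ R ≤ X ∧ 4 ≤ X) ∧
    ∀ K : ℝ, 0 ≤ K → ∀ᶠ T : ℝ in atTop, ∀ T' : ℝ, |Real.log T' - Real.log T| ≤ K →
    ∑ n ∈ Md T, fW k J Y X R ((k + 1) * (Real.pi * R / Y) ^ 2) T' n ≤ ε * (T * Real.log T) := by
  have hpi := Real.pi_pos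
  have hRHs := rhs_of RH
  obtain ⟨C, T0, hC, hT0, hmom⟩ := Mp_mom hRHs (2 * k + 2)
  have hcR : 0 < cK (R + 2) := cK_pos (by linarith)
  have hc1 : 0 < cK 1 := cK_pos zero_le_one
  set H := cK 1 * cK (R + 2) ^ k with hH
  have hH0 : 0 < H := by positivity
  set θ := ε / (8 * (H * C)) with hθ
  have hθ0 : 0 < θ := by positivity
  set q := θ * ε / (2 * H) with hq
  have hq0 : 0 < q := by positivity
  set a0 := ε / (16 * (H * C)) with ha0
  have ha00 : 0 < a0 := by positivity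
  -- the choice of Y
  have hY : ∀ᶠ Y : ℝ in atTop, 3 ≤ Y ∧ Real.pi * R ≤ Y ∧ 32 * Real.pi ^ 2 / Y ^ 2 ≤ q / 3 ∧
      (k + 1) * (Real.pi * R / Y) ^ 2 ≤ a0 := by
    have t1 : Tendsto (fun Y : ℝ => 32 * Real.pi ^ 2 / Y ^ 2) atTop (𝓝 0) :=
      (tendsto_pow_atTop (by norm_num)).const_div_atTop _
    have t2 : Tendsto (fun Y : ℝ => ((k : ℝ) + 1) * (Real.pi * R / Y) ^ 2) atTop (𝓝 0) := by
      have h1 : Tendsto (fun Y : ℝ => Real.pi * R / Y) atTop (𝓝 0) := tendsto_id.const_div_atTop _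
      have h2 := (h1.pow 2).const_mul ((k : ℝ) + 1)
      simpa using h2
    filter_upwards [eventually_ge_atTop 3, eventually_ge_atTop (Real.pi * R),
      t1.eventually (ge_mem_nhds (by positivity : 0 < q / 3)), t2.eventually (ge_mem_nhds ha00)]
      with Y h1 h2 h3 h4 using ⟨h1, h2, h3, h4⟩
  filter_upwards [hY] with Y hYa0
  obtain ⟨hY3, hYR, hYq, hYa⟩ := hYa0
  have hJ : ∀ᶠ J : ℕ in atTop, 0 < J ∧ 18 / (J : ℝ) ≤ q / 3 := by
    have t1 : Tendsto (fun J : ℕ => 18 / (J : ℝ)) atTop (𝓝 0) :=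
      tendsto_natCast_atTop_atTop.const_div_atTop _
    filter_upwards [eventually_gt_atTop 0, t1.eventually (ge_mem_nhds (by positivity : 0 < q / 3))]
      with J h1 h2 using ⟨h1, h2⟩
  filter_upwards [hJ] with J hJa0
  obtain ⟨hJ0, hJq⟩ := hJa0
  have hX : ∀ᶠ X : ℝ in atTop, 4 ≤ X ∧ R ≤ X ∧
      64 * Real.exp 2 * sc Y J ^ 2 / Real.sqrt (X - 2) ≤ a0 := by
    have t1 : Tendsto (fun X : ℝ => 64 * Real.exp 2 * sc Y J ^ 2 / Real.sqrt (X - 2)) atTop (𝓝 0) := by
      have h1 : Tendsto (fun X : ℝ => Real.sqrt (X - 2)) atTop atTop :=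
        Real.tendsto_sqrt_atTop.comp (tendsto_atTop_add_const_right _ (-2) tendsto_id)
      exact h1.const_div_atTop _
    filter_upwards [eventually_ge_atTop 4, eventually_ge_atTop R,
      t1.eventually (ge_mem_nhds ha00)] with X h1 h2 h3 using ⟨h1, h2, h3⟩
  filter_upwards [hX] with X hXa0
  obtain ⟨hX4, hXR, hXa⟩ := hXa0
  have hM : ∀ᶠ M : ℕ in atTop, 0 < M ∧ 4 * Real.pi / (M : ℝ) * cK (X + 2) ≤ a0 := by
    have t1 : Tendsto (fun M : ℕ => 4 * Real.pi / (M : ℝ) * cK (X + 2)) atTop (𝓝 0) := by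
      have h1 : Tendsto (fun M : ℕ => 4 * Real.pi / (M : ℝ)) atTop (𝓝 0) :=
        tendsto_natCast_atTop_atTop.const_div_atTop _
      have h2 := h1.mul_const (cK (X + 2))
      simpa using h2
    filter_upwards [eventually_gt_atTop 0, t1.eventually (ge_mem_nhds ha00)]
      with M h1 h2 using ⟨h1, h2⟩
  obtain ⟨M, hM0, hMa⟩ := hM.exists
  refine ⟨⟨hJ0, by linarith, hYR, hXR, hX4⟩, fun K hK => ?_⟩
  have hqlt : 18 / (J : ℝ) + 32 * Real.pi ^ 2 / Y ^ 2 < q := by linarith
  filter_upwards [Sn_le RH hJ0 hM0 (by linarith : 1 ≤ Y) hX4 hK ha00, Gq_mom hRHs hJ0 hM0 hY3 hqlt,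
    V_ord, eventually_ge_atTop T0, Real.tendsto_log_atTop.eventually_ge_atTop (2 * Real.pi),
    Real.tendsto_log_atTop.eventually_ge_atTop (2 * Real.pi * (R + 2)),
    Real.tendsto_log_atTop.eventually_ge_atTop (K * (2 * R + 2)),
    Real.tendsto_log_atTop.eventually_gt_atTop (2 * Real.pi * R + K)] with
    T g1 g2 g3 g4 g5 g6 g7 g8
  intro T' hT'
  obtain ⟨hT10, hV, -⟩ := g3
  have hT1 : 1 ≤ T := by linarith
  have hTp : 0 < T := by linarith
  have hL1 := log_one_le hT10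
  have hRL' : 2 * Real.pi * R < Real.log T' := by
    have := (abs_le.1 hT').1
    linarith
  set δ := ((k : ℝ) + 1) * (Real.pi * R / Y) ^ 2 with hδ
  have hδ0 : 0 ≤ δ := by positivity
  set A := 4 * Real.pi / M * cK (X + 2) + 64 * Real.exp 2 * sc Y J ^ 2 / Real.sqrt (X - 2) + a0
    with hA
  have hA0 : 0 ≤ A := by
    have : 0 < cK (X + 2) := cK_pos (by linarith)
    positivity
  have hA3 : A ≤ 3 * a0 := by rw [hA]; linarith
  set c := cK (R + 2) with hc
  have hMp0 : ∀ t, 0 ≤ Mp T t := fun t => Mp_nonneg hT1 t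
  have hG0 : ∀ t, 0 ≤ Gq J M Y T t := fun t => Gq_nonneg J M Y T t
  have hGc := Gq_cont J M (by linarith : 1 ≤ Y) hT1
  have hMc := Mp_cont hT1
  have key := mid_L1 RH hT10 g5 hV (f := fun n => fW k J Y X R δ T' n)
    (e0 := fun t => (c * Mp T t) ^ k * (Gq J M Y T t + A * Mp T t + a0 + δ))
    (E := fun t => c ^ k * ((θ + A + a0 + δ) * (1 + Mp T t) ^ (2 * k + 2) +
      1 / (4 * θ) * Gq J M Y T t ^ 2)) (by fun_prop) (fun t => by
        have := hMp0 t
        have := hG0 t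
        positivity) (fun t ht1 ht2 n hn1 hn2 hnM => by
        have b1 := Cn_le RH hT10 hR hK g6 g7 hRL' hT' hnM hn1 hn2
        have b2 := g1 T' hT' n hnM t ht1 hn1 hn2
        show fW k J Y X R δ T' n ≤ _
        unfold fW
        apply mul_le_mul
        · exact pow_le_pow_left₀ (Cn_nonneg _ _ _) b1 k
        · linarith
        · positivity
        · have := hMp0 t
          positivity) (fun t => by
        have m0 := hMp0 t
        have m1 := hG0 t
        set x := Mp T t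
        set G := Gq J M Y T t
        have p1 : x ^ (k + 1) ≤ (1 + x) ^ (2 * k + 2) := pow_maj m0 (by omega)
        have p2 : x ^ (k + 2) ≤ (1 + x) ^ (2 * k + 2) := pow_maj m0 (by omega)
        have p3 : x ^ (2 * k + 2) ≤ (1 + x) ^ (2 * k + 2) := pow_maj m0 le_rfl
        have p4 : x ^ (k + 1) * G ≤ θ * x ^ (2 * k + 2) + 1 / (4 * θ) * G ^ 2 := by
          have e1 : x ^ (2 * k + 2) = (x ^ (k + 1)) ^ 2 := by rw [← pow_mul]; ring_nf
          rw [e1]
          have h1 : 0 ≤ (2 * θ * x ^ (k + 1) - G) ^ 2 / (4 * θ) := by positivity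
          have h2 : (2 * θ * x ^ (k + 1) - G) ^ 2 / (4 * θ) =
              θ * (x ^ (k + 1)) ^ 2 + 1 / (4 * θ) * G ^ 2 - x ^ (k + 1) * G := by
            field_simp
            ring
          linarith
        calc (c * x) ^ k * (G + A * x + a0 + δ) * x =
            c ^ k * (x ^ (k + 1) * G + A * x ^ (k + 2) + (a0 + δ) * x ^ (k + 1)) := by
              rw [mul_pow]; ring
          _ ≤ c ^ k * ((θ * (1 + x) ^ (2 * k + 2) + 1 / (4 * θ) * G ^ 2) +
              A * (1 + x) ^ (2 * k + 2) + (a0 + δ) * (1 + x) ^ (2 * k + 2)) := by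
              have p5 : θ * x ^ (2 * k + 2) ≤ θ * (1 + x) ^ (2 * k + 2) := by gcongr
              gcongr
              linarith
          _ = _ := by ring)
  refine key.trans ?_
  have hPc : Continuous fun t => (1 + Mp T t) ^ (2 * k + 2) := by fun_prop
  have i1 : ∫ t in Va T..Vb T, (1 + Mp T t) ^ (2 * k + 2) ≤ C * T := by
    apply hmom T g4 _ _ hV
    · unfold Va; linarith
    · unfold Vb; linarith
  have i2 : ∫ t in Va T..Vb T, c ^ k * ((θ + A + a0 + δ) * (1 + Mp T t) ^ (2 * k + 2) +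
      1 / (4 * θ) * Gq J M Y T t ^ 2) ≤ c ^ k * ((θ + A + a0 + δ) * (C * T) +
      1 / (4 * θ) * (q * T)) := by
    have j1 : IntervalIntegrable (fun t => (θ + A + a0 + δ) * (1 + Mp T t) ^ (2 * k + 2)) volume
        (Va T) (Vb T) := (hPc.const_mul _).intervalIntegrable _ _
    have j2 : IntervalIntegrable (fun t => 1 / (4 * θ) * Gq J M Y T t ^ 2) volume
        (Va T) (Vb T) := ((hGc.pow 2).const_mul _).intervalIntegrable _ _
    rw [intervalIntegral.integral_const_mul, intervalIntegral.integral_add j1 j2,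
      intervalIntegral.integral_const_mul, intervalIntegral.integral_const_mul]
    gcongr
  calc Real.log T / (2 * Real.pi) * (cK 1 * ∫ t in Va T..Vb T,
      c ^ k * ((θ + A + a0 + δ) * (1 + Mp T t) ^ (2 * k + 2) +
      1 / (4 * θ) * Gq J M Y T t ^ 2)) ≤ Real.log T / (2 * Real.pi) * (cK 1 *
        (c ^ k * ((θ + A + a0 + δ) * (C * T) + 1 / (4 * θ) * (q * T)))) := by gcongr
    _ = (H * ((θ + A + a0 + δ) * C + q / (4 * θ))) * (T * Real.log T) / (2 * Real.pi) := by
        rw [hH]; field_simp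
    _ ≤ ε * (T * Real.log T) / (2 * Real.pi) := by
        gcongr
        calc H * ((θ + A + a0 + δ) * C + q / (4 * θ)) ≤ H * ((θ + 3 * a0 + a0 + a0) * C + q / (4 * θ)) := by
              gcongr
          _ = ε / 8 + 5 * ε / 16 + ε / 8 := by
              rw [hq, hθ, ha0]
              field_simp
              ring
          _ ≤ ε := by linarith
    _ ≤ ε * (T * Real.log T) := by
        apply div_le_self (by positivity)
        linarith [Real.pi_gt_three]

/-- **the crude estimate in the middle of the blocks** -/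
theorem mid_crude (RH : RiemannHypothesis) (k : ℕ) {J : ℕ} (hJ : 0 < J) {Y X R δ : ℝ} (hY : 1 ≤ Y)
    (hR : 0 ≤ R) (hRX : R ≤ X) (hδ : 0 ≤ δ) : ∃ C : ℝ, 0 < C ∧ ∀ᶠ T : ℝ in atTop, ∀ T' : ℝ,
    Real.log T ≤ Real.log T' + 1 → ∑ n ∈ Md T, fW k J Y X R δ T' n ≤ C * (T * Real.log T) := by
  classical
  have hpi := Real.pi_pos
  obtain ⟨C, T0, hC, hT0, hmom⟩ := Mp_mom (rhs_of RH) (2 * k + 2)
  have hX0 : 0 ≤ X := hR.trans hRX
  have hc1 : 0 < cK 1 := cK_pos zero_le_one
  set c := cK (2 * X + 2) with hc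
  have hc0 : 1 ≤ c := cK_one (by linarith)
  have hcJ : 0 ≤ cJ J Y := by
    unfold cJ
    have : ∀ i ∈ Finset.range J, 0 ≤ sc Y i := fun i _ => (sc_pos (by linarith) i).le
    have := Finset.sum_nonneg this
    positivity
  refine ⟨cK 1 * (c ^ (k + 1) * (1 + cJ J Y + δ)) * C, by positivity, ?_⟩
  filter_upwards [V_ord, eventually_ge_atTop T0,
    Real.tendsto_log_atTop.eventually_ge_atTop (2 * Real.pi),
    Real.tendsto_log_atTop.eventually_ge_atTop (2 * Real.pi * (2 * X + 2)),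
    Real.tendsto_log_atTop.eventually_gt_atTop (2 * Real.pi * X + 3)] with
    T g3 g4 g5 g6 g8
  intro T' hT'
  obtain ⟨hT10, hV, -⟩ := g3
  have hT1 : 1 ≤ T := by linarith
  have hTp : 0 < T := by linarith
  have hL1 := log_one_le hT10
  have hRL' : 2 * Real.pi * X < Real.log T' := by linarith
  have hLT'2 : 2 ≤ Real.log T' := by
    have : 0 ≤ 2 * Real.pi * X := by positivity
    linarith
  have hMp0 : ∀ t, 0 ≤ Mp T t := fun t => Mp_nonneg hT1 t
  have hMc := Mp_cont hT1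
  -- the counts
  have hcnt : ∀ n ∈ Md T, ∀ t, t < ord n → ord n ≤ t + 2 * Real.pi / Real.log T →
      Cn T' X n ≤ c * Mp T t := by
    intro n hn t h1 h2
    obtain ⟨hnI, hn1, hn2⟩ := mem_Md.1 hn
    unfold Cn
    rw [card_loc (T := T) (fun m hm hv => ud_loc hRL' hX0 (by linarith) (by linarith) hm hv)]
    have h3 := near_cnt hT10 (by linarith : 0 ≤ 2 * X) le_rfl g6 (by rw [zero_mul]; linarith) h1 h2
      (w := ud T n) (fun σ _ _ => by
        have := ud_near (T' := T) hT10 (by rw [sub_self, abs_zero]) n σ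
        exact this) hT1
    have b2 := block_sum RH hT1 (fun z => if |ud T n z.im| ≤ 2 * X then 1 else 0)
    simp only [zo_im] at b2
    rw [b2] at h3
    refine le_trans (Finset.sum_le_sum fun m _ => ?_) h3
    by_cases hv : |ud T' n (ord m)| ≤ X
    · have hv2 : |ud T n (ord m)| ≤ 2 * X := by
        have e1 : ud T n (ord m) = ud T' n (ord m) * (Real.log T / Real.log T') := by
          unfold ud
          have : Real.log T' ≠ 0 := by linarith
          field_simp
        rw [e1, abs_mul, abs_of_nonneg (by positivity : 0 ≤ Real.log T / Real.log T')]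
        have e2 : Real.log T / Real.log T' ≤ 2 := by
          rw [div_le_iff₀ (by linarith)]; linarith
        calc |ud T' n (ord m)| * (Real.log T / Real.log T') ≤ X * 2 := by gcongr
          _ = 2 * X := by ring
      rw [if_pos hv, if_pos hv2]
    · rw [if_neg hv]
      split_ifs <;> norm_num
  have key := mid_L1 RH hT10 g5 hV (f := fun n => fW k J Y X R δ T' n)
    (e0 := fun t => (c * Mp T t) ^ k * (c * Mp T t + cJ J Y + δ))
    (E := fun t => c ^ (k + 1) * (1 + cJ J Y + δ) * (1 + Mp T t) ^ (2 * k + 2))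
    (by fun_prop) (fun t => by
        have := hMp0 t
        positivity) (fun t ht1 ht2 n hn1 hn2 hnM => by
        obtain ⟨hnI, hm1, hm2⟩ := mem_Md.1 hnM
        have b1 := hcnt n hnM t hn1 hn2
        have b0 : Cn T' R n ≤ Cn T' X n := by
          unfold Cn
          rw [card_loc (T := T) (fun m hm hv => ud_loc hRL' hX0 (by linarith) (by linarith) hm hv),
            card_loc (T := T) (fun m hm hv => ud_loc hRL' hX0 (by linarith) (by linarith) hm
              (hv.trans hRX))]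
          refine Finset.sum_le_sum fun m _ => ?_
          by_cases hv : |ud T' n (ord m)| ≤ R
          · rw [if_pos hv, if_pos (hv.trans hRX)]
          · rw [if_neg hv]
            split_ifs <;> norm_num
        have b2 : |Sn J Y X T' n| ≤ Cn T' X n := by
          unfold Sn Cn
          rw [card_loc (T := T) (fun m hm hv => ud_loc hRL' hX0 (by linarith) (by linarith) hm hv),
            sum_loc (T := T) (p := fun m => |ud T' n (ord m)| ≤ X)
              (fun m hm hv => ud_loc hRL' hX0 (by linarith) (by linarith) hm hv)]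
          refine (Finset.abs_sum_le_sum_abs _ _).trans (Finset.sum_le_sum fun m _ => ?_)
          split_ifs
          · rw [abs_of_nonneg (kern_nonneg _ _ _)]
            exact kern_le_one hJ _ _
          · simp
        show fW k J Y X R δ T' n ≤ _
        unfold fW
        apply mul_le_mul
        · exact pow_le_pow_left₀ (Cn_nonneg _ _ _) (b0.trans b1) k
        · have : |Sn J Y X T' n - cJ J Y| ≤ |Sn J Y X T' n| + |cJ J Y| := abs_sub _ _
          rw [abs_of_nonneg hcJ] at this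
          linarith
        · positivity
        · have := hMp0 t
          positivity) (fun t => by
        have m0 := hMp0 t
        set x := Mp T t
        have p1 : x ^ (k + 1) ≤ (1 + x) ^ (2 * k + 2) := pow_maj m0 (by omega)
        have p2 : x ^ (k + 2) ≤ (1 + x) ^ (2 * k + 2) := pow_maj m0 (by omega)
        have p3 : c ^ k ≤ c ^ (k + 1) := pow_le_pow_right₀ hc0 (by omega)
        calc (c * x) ^ k * (c * x + cJ J Y + δ) * x =
            c ^ (k + 1) * x ^ (k + 2) + c ^ k * (cJ J Y + δ) * x ^ (k + 1) := by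
              rw [mul_pow]; ring
          _ ≤ c ^ (k + 1) * (1 + x) ^ (2 * k + 2) +
              c ^ (k + 1) * (cJ J Y + δ) * (1 + x) ^ (2 * k + 2) := by gcongr
          _ = _ := by ring)
  refine key.trans ?_
  have i1 : ∫ t in Va T..Vb T, (1 + Mp T t) ^ (2 * k + 2) ≤ C * T := by
    apply hmom T g4 _ _ hV
    · unfold Va; linarith
    · unfold Vb; linarith
  rw [intervalIntegral.integral_const_mul]
  calc Real.log T / (2 * Real.pi) * (cK 1 * (c ^ (k + 1) * (1 + cJ J Y + δ) *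
      ∫ t in Va T..Vb T, (1 + Mp T t) ^ (2 * k + 2))) ≤ Real.log T / (2 * Real.pi) * (cK 1 *
        (c ^ (k + 1) * (1 + cJ J Y + δ) * (C * T))) := by gcongr
    _ = cK 1 * (c ^ (k + 1) * (1 + cJ J Y + δ)) * C * (T * Real.log T) / (2 * Real.pi) := by ring
    _ ≤ _ := by
        apply div_le_self (by positivity)
        linarith [Real.pi_gt_three]

end Pool.Agent.H478.RG
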