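import Pool.Agent.H478.RG6

/-! Perfect screening: all zeros up to a height. -/

open Finset Complex MeasureTheory Filter Topology ProbabilityTheory

namespace Pool.Agent.H478.RG

open Pool.Agent.H478.CW
open Pool.Agent.H478.EX
open Pool.Agent.R321.FA
open SP (ZZ mu Mk RHs)
open SG (ord NZ zmult ZS)
open Pool.Agent.TH800.LD (ZZf)

lemma log_lin {C : ℝ} (hC : 0 < C) : ∀ᶠ T : ℝ in atTop, C * Real.log T ≤ T := by
  have h := Real.isLittleO_log_id_atTop.def (by positivity : (0 : ℝ) < 1 / C)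
  filter_upwards [h, eventually_ge_atTop 1] with T h1 h2
  rw [Real.norm_eq_abs, Real.norm_eq_abs, id, abs_of_nonneg (by linarith : (0 : ℝ) ≤ T),
    abs_of_nonneg (Real.log_nonneg h2)] at h1
  calc C * Real.log T ≤ C * (1 / C * T) := by gcongr
    _ = T := by field_simp

/-- the block is covered by three middles -/
lemma Ib_cover : ∀ᶠ T : ℝ in atTop, ∀ n ∈ Ib T, n ∈ Md T ∨ n ∈ Md (3 / 4 * T) ∨ n ∈ Md (3 / 2 * T) := by
  filter_upwards [log_lin (by norm_num : (0 : ℝ) < 200), eventually_ge_atTop 100] with T h1 h2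
  intro n hn
  obtain ⟨a1, a2, a3⟩ := mem_Ib.1 hn
  have hl1 : Real.log (3 / 4 * T) ≤ Real.log T := Real.log_le_log (by linarith) (by linarith)
  have hl2 : Real.log (3 / 2 * T) ≤ Real.log T + 1 := by
    rw [Real.log_mul (by norm_num) (by linarith)]
    have : Real.log (3 / 2) ≤ 3 / 2 - 1 := Real.log_le_sub_one_of_pos (by norm_num)
    linarith
  have hL1 := log_one_le (by linarith : (10 : ℝ) ≤ T)
  by_cases c1 : ord n ≤ T + 8 * Real.log T + 1
  · right; left
    refine mem_Md.2 ⟨mem_Ib.2 ⟨a1, by linarith, by linarith⟩, by linarith, by linarith⟩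
  · push Not at c1
    by_cases c2 : ord n ≤ 2 * T - 8 * Real.log T - 1
    · left
      exact mem_Md.2 ⟨hn, c1, c2⟩
    · push Not at c2
      right; right
      refine mem_Md.2 ⟨mem_Ib.2 ⟨a1, by linarith, by linarith⟩, by linarith, by linarith⟩

lemma sum_cover {T : ℝ} (h : ∀ n ∈ Ib T, n ∈ Md T ∨ n ∈ Md (3 / 4 * T) ∨ n ∈ Md (3 / 2 * T))
    {f : ℕ → ℝ} (hf : ∀ n, 0 ≤ f n) :
    ∑ n ∈ Ib T, f n ≤ ∑ n ∈ Md T, f n + ∑ n ∈ Md (3 / 4 * T), f n + ∑ n ∈ Md (3 / 2 * T), f n := by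
  classical
  calc ∑ n ∈ Ib T, f n ≤ ∑ n ∈ (Md T ∪ Md (3 / 4 * T)) ∪ Md (3 / 2 * T), f n := by
        apply Finset.sum_le_sum_of_subset_of_nonneg
        · intro n hn
          rw [Finset.mem_union, Finset.mem_union]
          rcases h n hn with a | a | a
          · exact Or.inl (Or.inl a)
          · exact Or.inl (Or.inr a)
          · exact Or.inr a
        · intro n _ _
          exact hf n
    _ ≤ ∑ n ∈ Md T ∪ Md (3 / 4 * T), f n + ∑ n ∈ Md (3 / 2 * T), f n := by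
        have := Finset.sum_union_inter (s₁ := Md T ∪ Md (3 / 4 * T)) (s₂ := Md (3 / 2 * T)) (f := f)
        have h2 : 0 ≤ ∑ n ∈ (Md T ∪ Md (3 / 4 * T)) ∩ Md (3 / 2 * T), f n :=
          Finset.sum_nonneg fun n _ => hf n
        linarith
    _ ≤ _ := by
        have := Finset.sum_union_inter (s₁ := Md T) (s₂ := Md (3 / 4 * T)) (f := f)
        have h2 : 0 ≤ ∑ n ∈ Md T ∩ Md (3 / 4 * T), f n :=
          Finset.sum_nonneg fun n _ => hf n
        linarith

lemma three_logs {T : ℝ} (hT : 20 ≤ T) {c : ℝ} (hc : 0 ≤ c) : c * (T * Real.log T) +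
    c * (3 / 4 * T * Real.log (3 / 4 * T)) + c * (3 / 2 * T * Real.log (3 / 2 * T)) ≤
    5 * c * (T * Real.log T) := by
  have hL1 := log_one_le (by linarith : (10 : ℝ) ≤ T)
  have hl0 : 0 ≤ Real.log (3 / 4 * T) := Real.log_nonneg (by linarith)
  have hl1 : Real.log (3 / 4 * T) ≤ Real.log T := Real.log_le_log (by linarith) (by linarith)
  have hl2 : Real.log (3 / 2 * T) ≤ 2 * Real.log T := by
    rw [Real.log_mul (by norm_num) (by linarith)]
    have : Real.log (3 / 2) ≤ 3 / 2 - 1 := Real.log_le_sub_one_of_pos (by norm_num)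
    linarith
  have h1 : 3 / 4 * T * Real.log (3 / 4 * T) ≤ 1 * T * Real.log T := by gcongr; norm_num
  have h2 : 3 / 2 * T * Real.log (3 / 2 * T) ≤ 3 / 2 * T * (2 * Real.log T) := by gcongr
  have h3 : T * Real.log T + 3 / 4 * T * Real.log (3 / 4 * T) + 3 / 2 * T * Real.log (3 / 2 * T) ≤
      5 * (T * Real.log T) := by linarith
  calc c * (T * Real.log T) + c * (3 / 4 * T * Real.log (3 / 4 * T)) +
      c * (3 / 2 * T * Real.log (3 / 2 * T)) = c * (T * Real.log T +
        3 / 4 * T * Real.log (3 / 4 * T) + 3 / 2 * T * Real.log (3 / 2 * T)) := by ring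
    _ ≤ c * (5 * (T * Real.log T)) := by gcongr
    _ = _ := by ring

/-- the fine estimate for blocks -/
lemma block_fine (k J : ℕ) (Y X R δ : ℝ) (hδ : 0 ≤ δ) {c : ℝ} (hc : 0 ≤ c)
    (h : ∀ K : ℝ, 0 ≤ K → ∀ᶠ T : ℝ in atTop, ∀ T' : ℝ, |Real.log T' - Real.log T| ≤ K →
      ∑ n ∈ Md T, fW k J Y X R δ T' n ≤ c * (T * Real.log T)) {K : ℝ} (hK : 0 ≤ K) :
    ∀ᶠ T : ℝ in atTop, ∀ T' : ℝ, |Real.log T' - Real.log T| ≤ K →
      ∑ n ∈ Ib T, fW k J Y X R δ T' n ≤ 5 * c * (T * Real.log T) := by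
  have h1 := h (K + 1) (by linarith)
  have t1 : Tendsto (fun T : ℝ => 3 / 4 * T) atTop atTop := tendsto_id.const_mul_atTop (by norm_num)
  have t2 : Tendsto (fun T : ℝ => 3 / 2 * T) atTop atTop := tendsto_id.const_mul_atTop (by norm_num)
  filter_upwards [h1, t1.eventually h1, t2.eventually h1, Ib_cover, eventually_ge_atTop 20] with
    T a1 a2 a3 a4 hT
  intro T' hT'
  obtain ⟨b1, b2⟩ := abs_le.1 hT'
  have e1 : Real.log (3 / 4 * T) = Real.log (3 / 4) + Real.log T :=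
    Real.log_mul (by norm_num) (by linarith)
  have e2 : Real.log (3 / 2 * T) = Real.log (3 / 2) + Real.log T :=
    Real.log_mul (by norm_num) (by linarith)
  have l1 : Real.log (3 / 4) ≤ 0 := Real.log_nonpos (by norm_num) (by norm_num)
  have l2 : -1 ≤ Real.log (3 / 4) := by
    have := Real.one_sub_inv_le_log_of_pos (by norm_num : (0 : ℝ) < 3 / 4)
    norm_num at this
    linarith
  have l3 : 0 ≤ Real.log (3 / 2) := Real.log_nonneg (by norm_num)
  have l4 : Real.log (3 / 2) ≤ 3 / 2 - 1 := Real.log_le_sub_one_of_pos (by norm_num)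
  have c1 := a1 T' (abs_le.2 ⟨by linarith, by linarith⟩)
  have c2 := a2 T' (by rw [e1]; exact abs_le.2 ⟨by linarith, by linarith⟩)
  have c3 := a3 T' (by rw [e2]; exact abs_le.2 ⟨by linarith, by linarith⟩)
  have c4 := sum_cover a4 (fun n => fW_nonneg k J Y X R hδ T' n)
  have c5 := three_logs hT hc
  linarith

/-- the crude estimate for blocks -/
lemma block_crude (k J : ℕ) (Y X R δ : ℝ) (hδ : 0 ≤ δ) {c : ℝ} (hc : 0 ≤ c)
    (h : ∀ᶠ T : ℝ in atTop, ∀ T' : ℝ, Real.log T ≤ Real.log T' + 1 →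
      ∑ n ∈ Md T, fW k J Y X R δ T' n ≤ c * (T * Real.log T)) :
    ∀ᶠ T : ℝ in atTop, ∀ T' : ℝ, T ≤ T' →
      ∑ n ∈ Ib T, fW k J Y X R δ T' n ≤ 5 * c * (T * Real.log T) := by
  have t1 : Tendsto (fun T : ℝ => 3 / 4 * T) atTop atTop := tendsto_id.const_mul_atTop (by norm_num)
  have t2 : Tendsto (fun T : ℝ => 3 / 2 * T) atTop atTop := tendsto_id.const_mul_atTop (by norm_num)
  filter_upwards [h, t1.eventually h, t2.eventually h, Ib_cover, eventually_ge_atTop 20] with
    T a1 a2 a3 a4 hT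
  intro T' hT'
  have hlog : Real.log T ≤ Real.log T' := Real.log_le_log (by linarith) hT'
  have e1 : Real.log (3 / 4 * T) = Real.log (3 / 4) + Real.log T :=
    Real.log_mul (by norm_num) (by linarith)
  have e2 : Real.log (3 / 2 * T) = Real.log (3 / 2) + Real.log T :=
    Real.log_mul (by norm_num) (by linarith)
  have l1 : Real.log (3 / 4) ≤ 0 := Real.log_nonpos (by norm_num) (by norm_num)
  have l4 : Real.log (3 / 2) ≤ 3 / 2 - 1 := Real.log_le_sub_one_of_pos (by norm_num)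
  have c1 := a1 T' (by linarith)
  have c2 := a2 T' (by rw [e1]; linarith)
  have c3 := a3 T' (by rw [e2]; linarith)
  have c4 := sum_cover a4 (fun n => fW_nonneg k J Y X R hδ T' n)
  have c5 := three_logs hT hc
  linarith

lemma sum_NZ_split {x y : ℝ} (h : NZ x ≤ NZ y) (f : ℕ → ℝ) :
    ∑ n ∈ Finset.Ioc 0 (NZ y), f n = ∑ n ∈ Finset.Ioc 0 (NZ x), f n +
      ∑ n ∈ Finset.Ioc (NZ x) (NZ y), f n :=
  (Finset.sum_Ioc_consecutive _ (Nat.zero_le _) h).symm

/-- the low zeros -/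
lemma low_fW (k : ℕ) {J : ℕ} (hJ : 0 < J) {Y X R δ : ℝ} (hcJ : 0 ≤ cJ J Y) (hR : 0 ≤ R) (hRX : R ≤ X)
    (hδ : 0 ≤ δ) {T' z : ℝ} (hX : 2 * Real.pi * X < Real.log T') {n : ℕ} (hn : 1 ≤ n)
    (hz : ord n ≤ z) :
    fW k J Y X R δ T' n ≤ (NZ (z + 1) : ℝ) ^ k * (NZ (z + 1) + cJ J Y + δ) := by
  have hpi := Real.pi_pos
  have hX0 : 0 ≤ X := hR.trans hRX
  have hL0 : 0 < Real.log T' := lt_of_le_of_lt (by positivity) hX
  have hsub : {m : ℕ | 1 ≤ m ∧ |ud T' n (ord m)| ≤ X} ⊆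
      ((Finset.Ioc 0 (NZ (z + 1)) : Finset ℕ) : Set ℕ) := by
    rintro m ⟨hm, hv⟩
    unfold ud at hv
    rw [abs_div, abs_mul, abs_of_pos (by positivity : 0 < 2 * Real.pi), abs_of_pos hL0,
      div_le_iff₀ (by positivity)] at hv
    have h6 : |ord m - ord n| < 1 := by
      by_contra hcon
      push Not at hcon
      have : 1 * Real.log T' ≤ |ord m - ord n| * Real.log T' :=
        mul_le_mul_of_nonneg_right hcon hL0.le
      linarith
    obtain ⟨h7, h8⟩ := abs_lt.1 h6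
    rw [Finset.mem_coe, Finset.mem_Ioc]
    exact ⟨hm, (SG.ord_le_iff hm _).1 (by linarith)⟩
  have hCX : Cn T' X n ≤ NZ (z + 1) := by
    unfold Cn
    have h1 := Set.ncard_le_ncard hsub (Finset.finite_toSet _)
    rw [Set.ncard_coe_finset, Nat.card_Ioc, Nat.sub_zero] at h1
    exact_mod_cast h1
  have hCR : Cn T' R n ≤ NZ (z + 1) := by
    refine le_trans ?_ hCX
    unfold Cn
    have h1 : {m : ℕ | 1 ≤ m ∧ |ud T' n (ord m)| ≤ R} ⊆ {m : ℕ | 1 ≤ m ∧ |ud T' n (ord m)| ≤ X} :=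
      fun m hm => ⟨hm.1, hm.2.trans hRX⟩
    have h2 := Set.ncard_le_ncard h1 ((Finset.finite_toSet _).subset hsub)
    exact_mod_cast h2
  have hfin : {m : ℕ | 1 ≤ m ∧ |ud T' n (ord m)| ≤ X}.Finite := (Finset.finite_toSet _).subset hsub
  have hS : |Sn J Y X T' n| ≤ Cn T' X n := by
    unfold Sn Cn
    rw [finsum_mem_eq_finite_toFinset_sum _ hfin, Set.ncard_eq_toFinset_card _ hfin]
    refine (Finset.abs_sum_le_sum_abs _ _).trans ?_
    refine (Finset.sum_le_sum (g := fun _ => (1 : ℝ)) fun m _ => ?_).trans ?_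
    · rw [abs_of_nonneg (kern_nonneg _ _ _)]
      exact kern_le_one hJ _ _
    · rw [Finset.sum_const, nsmul_eq_mul, mul_one]
  unfold fW
  apply mul_le_mul
  · exact pow_le_pow_left₀ (Cn_nonneg _ _ _) hCR k
  · have : |Sn J Y X T' n - cJ J Y| ≤ |Sn J Y X T' n| + |cJ J Y| := abs_sub _ _
    rw [abs_of_nonneg hcJ] at this
    linarith
  · positivity
  · positivity

/-- **the weighted deviations of all zeros up to a height** -/
theorem total (RH : RiemannHypothesis) (k : ℕ) {R : ℝ} (hR : 0 ≤ R) {ε : ℝ} (hε : 0 < ε) :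
    ∀ᶠ Y : ℝ in atTop, ∀ᶠ J : ℕ in atTop, ∀ᶠ X : ℝ in atTop,
    (0 < J ∧ 1 ≤ Y ∧ Real.pi * R ≤ Y ∧ R ≤ X) ∧
    ∀ᶠ T' : ℝ in atTop, ∑ n ∈ Finset.Ioc 0 (NZ T'),
      fW k J Y X R ((k + 1) * (Real.pi * R / Y) ^ 2) T' n ≤ ε * (T' * Real.log T') := by
  classical
  have hpi := Real.pi_pos
  filter_upwards [mid_fine RH k hR (by positivity : 0 < ε / 20)] with Y hYJ
  filter_upwards [hYJ] with J hJX
  filter_upwards [hJX] with X hX0
  obtain ⟨⟨hJ, hY, hYR, hRX, hX4⟩, hfine⟩ := hX0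
  refine ⟨⟨hJ, hY, hYR, hRX⟩, ?_⟩
  set δ := ((k : ℝ) + 1) * (Real.pi * R / Y) ^ 2 with hδ
  have hδ0 : 0 ≤ δ := by positivity
  have hcJ : 0 ≤ cJ J Y := by
    unfold cJ
    have : ∀ i ∈ Finset.range J, 0 ≤ sc Y i := fun i _ => (sc_pos (by linarith) i).le
    have := Finset.sum_nonneg this
    positivity
  obtain ⟨C, hC, hcr⟩ := mid_crude RH k hJ hY hR hRX hδ0
  have hcr2 := block_crude k J Y X R δ hδ0 hC.le hcr
  set a := 5 * C with ha
  obtain ⟨T1, hT1⟩ := eventually_atTop.1 hcr2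
  set T0 := max T1 10 with hT0
  have hT010 : 10 ≤ T0 := le_max_right _ _
  -- the number of fine blocks
  obtain ⟨I, hI⟩ := exists_nat_gt (4 * a / ε)
  have hI2 : a / 2 ^ I ≤ ε / 4 := by
    have h1 : (I : ℝ) ≤ 2 ^ I := by exact_mod_cast Nat.lt_two_pow_self.le
    rw [div_lt_iff₀ hε] at hI
    rw [div_le_iff₀ (by positivity)]
    nlinarith
  -- the fine blocks
  have hstepA : ∀ i : ℕ, ∀ᶠ T' : ℝ in atTop, ∑ n ∈ Finset.Ioc 0 (NZ T'), fW k J Y X R δ T' n ≤
      ∑ n ∈ Finset.Ioc 0 (NZ (T' / 2 ^ i)), fW k J Y X R δ T' n +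
      (1 - 1 / 2 ^ i) * (ε / 4 * (T' * Real.log T')) := by
    intro i
    induction i with
    | zero =>
      refine Eventually.of_forall fun T' => ?_
      norm_num
    | succ i ih =>
      have h1 := block_fine k J Y X R δ hδ0 (by positivity : 0 ≤ ε / 20) hfine
        (K := (i : ℝ) + 1) (by positivity)
      have t1 : Tendsto (fun T' : ℝ => T' / 2 ^ (i + 1)) atTop atTop :=
        tendsto_id.atTop_div_const (by positivity)
      filter_upwards [ih, t1.eventually h1, t1.eventually_ge_atTop 10, eventually_ge_atTop 10] with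
        T' b1 b2 b3 b4
      set T := T' / 2 ^ (i + 1) with hT
      have hT2 : T' / 2 ^ i = 2 * T := by rw [hT, pow_succ]; field_simp
      have hlogT : Real.log T = Real.log T' - (i + 1) * Real.log 2 := by
        rw [hT, Real.log_div (by linarith) (by positivity), Real.log_pow]
        push_cast
        ring
      have hlog2 : Real.log 2 ≤ 1 := by have := Real.log_two_lt_d9; linarith
      have hlog20 : 0 ≤ Real.log 2 := Real.log_nonneg (by norm_num)
      have hi0 : (0 : ℝ) ≤ i := Nat.cast_nonneg _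
      have b5 := b2 T' (by
        rw [hlogT]
        have : Real.log T' - (Real.log T' - (i + 1) * Real.log 2) = (i + 1) * Real.log 2 := by ring
        rw [this, abs_of_nonneg (by positivity)]
        nlinarith)
      have b6 : ∑ n ∈ Finset.Ioc 0 (NZ (T' / 2 ^ i)), fW k J Y X R δ T' n =
          ∑ n ∈ Finset.Ioc 0 (NZ T), fW k J Y X R δ T' n + ∑ n ∈ Ib T, fW k J Y X R δ T' n := by
        rw [hT2]
        exact sum_NZ_split (SG.NZ_mono (by linarith)) _
      have b7 : 5 * (ε / 20) * (T * Real.log T) ≤ 1 / 2 ^ (i + 1) * (ε / 4 * (T' * Real.log T')) := by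
        have h2 : Real.log T ≤ Real.log T' := by
          rw [hlogT]
          have : 0 ≤ ((i : ℝ) + 1) * Real.log 2 := by positivity
          linarith
        have h3 : 0 < Real.log T := by have := log_one_le b3; linarith
        calc 5 * (ε / 20) * (T * Real.log T) ≤ 5 * (ε / 20) * (T * Real.log T') := by gcongr
          _ = _ := by rw [hT]; field_simp; ring
      have b8 : (1 - 1 / 2 ^ (i + 1)) * (ε / 4 * (T' * Real.log T')) =
          (1 - 1 / 2 ^ i) * (ε / 4 * (T' * Real.log T')) +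
            1 / 2 ^ (i + 1) * (ε / 4 * (T' * Real.log T')) := by
        rw [pow_succ]; field_simp; ring
      rw [b8]
      linarith
  -- the low zeros
  set M := (NZ (2 * T0) : ℝ) * ((NZ (2 * T0 + 1) : ℝ) ^ k * (NZ (2 * T0 + 1) + cJ J Y + δ)) with hM
  have hM0 : 0 ≤ M := by positivity
  have t2 : Tendsto (fun T' : ℝ => T' / 2 ^ I) atTop atTop := tendsto_id.atTop_div_const (by positivity)
  have t3 : Tendsto (fun T' : ℝ => T' * Real.log T') atTop atTop :=
    tendsto_id.atTop_mul_atTop₀ Real.tendsto_log_atTop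
  filter_upwards [hstepA I, t2.eventually_ge_atTop T0, eventually_ge_atTop T0,
    Real.tendsto_log_atTop.eventually_gt_atTop (2 * Real.pi * X),
    t3.eventually_ge_atTop (4 * M / ε)] with T' c1 c2 c3 c4 c5
  have hT'10 : 10 ≤ T' := hT010.trans c3
  have hL' := log_one_le hT'10
  set g : ℕ → ℝ := fun n => if ord n ≤ T' then fW k J Y X R δ T' n else 0 with hg
  have hg0 : ∀ n, 0 ≤ g n := by
    intro n
    simp only [hg]
    split_ifs
    · exact fW_nonneg k J Y X R hδ0 T' n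
    · exact le_rfl
  have hgf : ∀ n, g n ≤ fW k J Y X R δ T' n := by
    intro n
    simp only [hg]
    split_ifs
    · exact le_rfl
    · exact fW_nonneg k J Y X R hδ0 T' n
  have hdy := dyadic (f := fun x => ∑ n ∈ Finset.Ioc 0 (NZ x), g n) (T0 := T0) (a := a) (M := M)
    (by linarith) (by positivity) (fun T hT => by
      have hTp : 10 ≤ T := hT010.trans hT
      have hL1 := log_one_le hTp
      have e1 := sum_NZ_split (SG.NZ_mono (by linarith : T ≤ 2 * T)) g
      simp only [e1, add_sub_cancel_left]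
      rw [abs_of_nonneg (Finset.sum_nonneg fun n _ => hg0 n)]
      rcases le_or_gt T T' with h | h
      · exact (Finset.sum_le_sum fun n _ => hgf n).trans (hT1 T ((le_max_left _ _).trans hT) T' h)
      · have : ∑ n ∈ Finset.Ioc (NZ T) (NZ (2 * T)), g n = 0 := by
          refine Finset.sum_eq_zero fun n hn => ?_
          have hnI : n ∈ Ib T := hn
          obtain ⟨q1, q2, q3⟩ := mem_Ib.1 hnI
          simp only [hg]
          rw [if_neg (by linarith)]
        rw [this]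
        positivity) (fun x hx1 hx2 => by
      show |∑ n ∈ Finset.Ioc 0 (NZ x), g n| ≤ M
      rw [abs_of_nonneg (Finset.sum_nonneg fun n _ => hg0 n)]
      have hNx : NZ x ≤ NZ (2 * T0) := SG.NZ_mono hx2
      calc ∑ n ∈ Finset.Ioc 0 (NZ x), g n ≤ ∑ _n ∈ Finset.Ioc 0 (NZ x),
          ((NZ (2 * T0 + 1) : ℝ) ^ k * (NZ (2 * T0 + 1) + cJ J Y + δ)) := by
            refine Finset.sum_le_sum fun n hn => ?_
            obtain ⟨q1, q2⟩ := Finset.mem_Ioc.1 hn
            refine (hgf n).trans ?_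
            apply low_fW k hJ hcJ hR hRX hδ0 c4 (by omega)
            exact (SG.ord_le_iff (by omega) _).2 (q2.trans hNx)
        _ = (NZ x : ℝ) * ((NZ (2 * T0 + 1) : ℝ) ^ k * (NZ (2 * T0 + 1) + cJ J Y + δ)) := by
            rw [Finset.sum_const, Nat.card_Ioc, nsmul_eq_mul, Nat.sub_zero]
        _ ≤ M := by
            rw [hM]
            have : (NZ x : ℝ) ≤ NZ (2 * T0) := by exact_mod_cast hNx
            gcongr)
  have d1 := hdy (T' / 2 ^ I) c2
  have hle : T' / 2 ^ I ≤ T' := div_le_self (by linarith) (one_le_pow₀ (by norm_num))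
  have d2 : ∑ n ∈ Finset.Ioc 0 (NZ (T' / 2 ^ I)), fW k J Y X R δ T' n =
      ∑ n ∈ Finset.Ioc 0 (NZ (T' / 2 ^ I)), g n := by
    refine Finset.sum_congr rfl fun n hn => ?_
    obtain ⟨q1, q2⟩ := Finset.mem_Ioc.1 hn
    have : ord n ≤ T' := ((SG.ord_le_iff (by omega) _).2 q2).trans hle
    simp only [hg]
    rw [if_pos this]
  have d3 : ∑ n ∈ Finset.Ioc 0 (NZ (T' / 2 ^ I)), g n ≤ M + a * (T' / 2 ^ I * Real.log (T' / 2 ^ I)) :=
    (le_abs_self _).trans d1
  have d4 : a * (T' / 2 ^ I * Real.log (T' / 2 ^ I)) ≤ ε / 4 * (T' * Real.log T') := by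
    have h10 : 10 ≤ T' / 2 ^ I := hT010.trans c2
    have h1 : Real.log (T' / 2 ^ I) ≤ Real.log T' := Real.log_le_log (by linarith) hle
    have h2 := log_one_le h10
    calc a * (T' / 2 ^ I * Real.log (T' / 2 ^ I)) = a / 2 ^ I * (T' * Real.log (T' / 2 ^ I)) := by
          ring
      _ ≤ ε / 4 * (T' * Real.log T') := by gcongr
  have d5 : M ≤ ε / 4 * (T' * Real.log T') := by
    rw [div_le_iff₀ hε] at c5
    linarith
  have d6 : (1 - 1 / 2 ^ I) * (ε / 4 * (T' * Real.log T')) ≤ 1 * (ε / 4 * (T' * Real.log T')) := by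
    apply mul_le_mul_of_nonneg_right _ (by positivity)
    have : (0 : ℝ) < 1 / 2 ^ I := by positivity
    linarith
  rw [d2] at c1
  have d7 : 0 ≤ ε * (T' * Real.log T') := by positivity
  linarith

end Pool.Agent.H478.RG
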