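import Pool.Agent.H478.RG7

/-! Perfect screening: sums over tuples of zeros. -/

open Finset Complex MeasureTheory Filter Topology ProbabilityTheory

namespace Pool.Agent.H478.RG

open Pool.Agent.H478.CW
open Pool.Agent.H478.EX
open Pool.Agent.R321.FA
open SP (ZZ mu Mk RHs)
open SG (ord NZ zmult ZS)
open Pool.Agent.TH800.LD (ZZf)

/-- the tuples of distinct zeros up to `T` with differences in the box -/
def Tup (k : ℕ) (T : ℝ) (a b : Fin k → ℝ) : Set (Fin (k + 1) → ℕ) :=
  {j | Function.Injective j ∧ (∀ i, 1 ≤ j i ∧ ord (j i) ≤ T) ∧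
    ∀ i : Fin k, a i ≤ ud T (j (Fin.last k)) (ord (j i.castSucc)) ∧
      ud T (j (Fin.last k)) (ord (j i.castSucc)) ≤ b i}

/-- the deviation of the sum over the other zeros -/
noncomputable def dv (k J : ℕ) (Y X T : ℝ) (j : Fin (k + 1) → ℕ) : ℝ :=
  |(∑ᶠ m ∈ {m : ℕ | 1 ≤ m ∧ (∀ i, m ≠ j i) ∧ |ud T (j (Fin.last k)) (ord m)| ≤ X},
    kern J Y (ud T (j (Fin.last k)) (ord m))) - (cJ J Y - (k + 1))|

lemma near_fin {T : ℝ} (hT : 1 < T) (X : ℝ) (n : ℕ) :
    {m : ℕ | 1 ≤ m ∧ |ud T n (ord m)| ≤ X}.Finite := by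
  have hpi := Real.pi_pos
  have hL : 0 < Real.log T := Real.log_pos hT
  refine (Finset.finite_toSet (Finset.Ioc 0 (NZ (ord n + 2 * Real.pi * X / Real.log T)))).subset ?_
  rintro m ⟨hm, hv⟩
  rw [Finset.mem_coe, Finset.mem_Ioc]
  refine ⟨hm, (SG.ord_le_iff hm _).1 ?_⟩
  unfold ud at hv
  have h1 := (abs_le.1 hv).2
  rw [div_le_iff₀ (by positivity)] at h1
  have h2 : ord m - ord n ≤ 2 * Real.pi * X / Real.log T := by
    rw [le_div_iff₀ hL]; linarith
  linarith

/-- the deviation at a tuple -/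
lemma dv_le {k J : ℕ} (hJ : 0 < J) {Y X R T : ℝ} (hT : 1 < T) (hY : 1 ≤ Y) (hR : 0 ≤ R)
    (hRX : R ≤ X) (hRY : Real.pi * R ≤ Y) {j : Fin (k + 1) → ℕ} (hj : Function.Injective j)
    (hj1 : ∀ i, 1 ≤ j i) (hjR : ∀ i, |ud T (j (Fin.last k)) (ord (j i))| ≤ R) :
    dv k J Y X T j ≤ |Sn J Y X T (j (Fin.last k)) - cJ J Y| + (k + 1) * (Real.pi * R / Y) ^ 2 := by
  classical
  set n := j (Fin.last k) with hn
  have hfin := near_fin hT X n
  set F := hfin.toFinset with hF
  have hFm : ∀ m, m ∈ F ↔ 1 ≤ m ∧ |ud T n (ord m)| ≤ X := fun m => by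
    rw [hF, Set.Finite.mem_toFinset]; rfl
  have e1 : {m : ℕ | 1 ≤ m ∧ (∀ i, m ≠ j i) ∧ |ud T n (ord m)| ≤ X} =
      ((F.filter (fun m => ∀ i, m ≠ j i) : Finset ℕ) : Set ℕ) := by
    ext m
    rw [Finset.coe_filter]
    simp only [Set.mem_ofPred_eq, hFm]
    tauto
  have e2 : Sn J Y X T n = ∑ m ∈ F, kern J Y (ud T n (ord m)) := by
    unfold Sn
    rw [finsum_mem_eq_finite_toFinset_sum _ hfin]
  have e3 : F.filter (fun m => ¬ ∀ i, m ≠ j i) = Finset.univ.image j := by
    ext m
    rw [Finset.mem_filter, hFm, Finset.mem_image]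
    constructor
    · rintro ⟨-, h⟩
      push Not at h
      obtain ⟨i, hi⟩ := h
      exact ⟨i, Finset.mem_univ _, hi.symm⟩
    · rintro ⟨i, -, hi⟩
      rw [← hi]
      refine ⟨⟨hj1 i, (hjR i).trans hRX⟩, ?_⟩
      push Not
      exact ⟨i, rfl⟩
  have e4 : ∑ m ∈ F, kern J Y (ud T n (ord m)) =
      ∑ m ∈ F.filter (fun m => ∀ i, m ≠ j i), kern J Y (ud T n (ord m)) +
        ∑ i, kern J Y (ud T n (ord (j i))) := by
    rw [← Finset.sum_filter_add_sum_filter_not F (fun m => ∀ i, m ≠ j i), e3,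
      Finset.sum_image (fun x _ y _ h => hj h)]
  have e5 : |∑ i, kern J Y (ud T n (ord (j i))) - ((k : ℝ) + 1)| ≤
      (k + 1) * (Real.pi * R / Y) ^ 2 := by
    have e6 : ∑ i, kern J Y (ud T n (ord (j i))) - ((k : ℝ) + 1) =
        ∑ i : Fin (k + 1), (kern J Y (ud T n (ord (j i))) - 1) := by
      rw [Finset.sum_sub_distrib, Finset.sum_const, Finset.card_univ, Fintype.card_fin,
        nsmul_eq_mul, mul_one]
      push_cast
      rfl
    rw [e6]
    refine (Finset.abs_sum_le_sum_abs _ _).trans ?_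
    calc ∑ i : Fin (k + 1), |kern J Y (ud T n (ord (j i))) - 1| ≤
        ∑ _i : Fin (k + 1), (Real.pi * R / Y) ^ 2 := by
          refine Finset.sum_le_sum fun i _ => ?_
          have h1 := kern_near hJ (by linarith : 0 < Y) (hjR i) hRY
          have h2 := kern_le_one hJ Y (ud T n (ord (j i)))
          rw [abs_le]
          constructor
          · linarith
          · have := sq_nonneg (Real.pi * R / Y)
            linarith
      _ = _ := by
          rw [Finset.sum_const, Finset.card_univ, Fintype.card_fin, nsmul_eq_mul]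
          push_cast
          ring
  unfold dv
  rw [← hn, e1, finsum_mem_coe_finset, e2, e4]
  set S' := ∑ m ∈ F.filter (fun m => ∀ i, m ≠ j i), kern J Y (ud T n (ord m))
  set K' := ∑ i, kern J Y (ud T n (ord (j i)))
  have e7 : S' - (cJ J Y - (k + 1)) = (S' + K' - cJ J Y) - (K' - (k + 1)) := by ring
  rw [e7]
  refine (abs_sub _ _).trans ?_
  linarith

/-- **sums over tuples** -/
lemma tup_sum {k J : ℕ} (hJ : 0 < J) {Y X R T : ℝ} (hT : 1 < T) (hY : 1 ≤ Y) (hR : 0 ≤ R)
    (hRX : R ≤ X) (hRY : Real.pi * R ≤ Y) {a b : Fin k → ℝ} (hab : ∀ i, |a i| ≤ R ∧ |b i| ≤ R) :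
    ∑ᶠ j ∈ Tup k T a b, dv k J Y X T j ≤ ∑ n ∈ Finset.Ioc 0 (NZ T),
      fW k J Y X R ((k + 1) * (Real.pi * R / Y) ^ 2) T n := by
  classical
  set N := Finset.Ioc 0 (NZ T) with hN
  have hmem : ∀ j ∈ Tup k T a b, ∀ i, j i ∈ N := by
    rintro j ⟨-, h2, -⟩ i
    rw [hN, Finset.mem_Ioc]
    exact ⟨(h2 i).1, (SG.ord_le_iff (h2 i).1 _).1 (h2 i).2⟩
  have hfin : (Tup k T a b).Finite := by
    refine (Finset.finite_toSet (Fintype.piFinset fun _ : Fin (k + 1) => N)).subset ?_
    intro j hj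
    rw [Finset.mem_coe, Fintype.mem_piFinset]
    exact hmem j hj
  set TF := hfin.toFinset with hTF
  have hTFm : ∀ j, j ∈ TF ↔ j ∈ Tup k T a b := fun j => by
    rw [hTF, Set.Finite.mem_toFinset]
  have hRt : ∀ j ∈ Tup k T a b, ∀ i, |ud T (j (Fin.last k)) (ord (j i))| ≤ R := by
    rintro j ⟨-, -, h3⟩ i
    induction i using Fin.lastCases with
    | last =>
      unfold ud
      rw [sub_self, zero_mul, zero_div, abs_zero]
      exact hR
    | cast i =>
      obtain ⟨c1, c2⟩ := h3 i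
      obtain ⟨d1, d2⟩ := hab i
      rw [abs_le]
      exact ⟨by linarith [(abs_le.1 d1).1], by linarith [(abs_le.1 d2).2]⟩
  set δ := ((k : ℝ) + 1) * (Real.pi * R / Y) ^ 2 with hδ
  set h : ℕ → ℝ := fun n => |Sn J Y X T n - cJ J Y| + δ with hh
  have hh0 : ∀ n, 0 ≤ h n := fun n => by
    have : 0 ≤ δ := by positivity
    simp only [hh]
    positivity
  rw [finsum_mem_eq_finite_toFinset_sum _ hfin]
  calc ∑ j ∈ TF, dv k J Y X T j ≤ ∑ j ∈ TF, h (j (Fin.last k)) := by
        refine Finset.sum_le_sum fun j hj => ?_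
        have hj' := (hTFm j).1 hj
        exact dv_le hJ hT hY hR hRX hRY hj'.1 (fun i => (hj'.2.1 i).1) (hRt j hj')
    _ = ∑ n ∈ N, ∑ j ∈ TF with j (Fin.last k) = n, h (j (Fin.last k)) := by
        rw [Finset.sum_fiberwise_of_maps_to]
        intro j hj
        exact hmem j ((hTFm j).1 hj) _
    _ ≤ ∑ n ∈ N, fW k J Y X R δ T n := by
        refine Finset.sum_le_sum fun n hn => ?_
        have h1 : ∑ j ∈ TF with j (Fin.last k) = n, h (j (Fin.last k)) =
            ((TF.filter (fun j => j (Fin.last k) = n)).card : ℝ) * h n := by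
          rw [← nsmul_eq_mul, ← Finset.sum_const]
          refine Finset.sum_congr rfl fun j hj => ?_
          rw [(Finset.mem_filter.1 hj).2]
        rw [h1]
        unfold fW
        apply mul_le_mul_of_nonneg_right _ (hh0 n)
        have hnf := near_fin hT R n
        have h2 : Cn T R n = (hnf.toFinset.card : ℝ) := by
          unfold Cn
          rw [Set.ncard_eq_toFinset_card _ hnf]
        rw [h2]
        have h3 : (TF.filter (fun j => j (Fin.last k) = n)).card ≤
            (Fintype.piFinset fun _ : Fin k => hnf.toFinset).card := by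
          apply Finset.card_le_card_of_injOn (fun j => fun i : Fin k => j i.castSucc)
          · intro j hj
            have hj1 := Finset.mem_filter.1 (Finset.mem_coe.1 hj)
            have hj2 := (hTFm j).1 hj1.1
            show (fun i : Fin k => j i.castSucc) ∈
              ((Fintype.piFinset fun _ : Fin k => hnf.toFinset : Finset (Fin k → ℕ)) : Set (Fin k → ℕ))
            rw [Finset.mem_coe, Fintype.mem_piFinset]
            intro i
            rw [Set.Finite.mem_toFinset]
            have h4 := hRt j hj2 i.castSucc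
            rw [hj1.2] at h4
            exact ⟨(hj2.2.1 _).1, h4⟩
          · intro j hj j' hj' heq
            have hj1 := Finset.mem_filter.1 (Finset.mem_coe.1 hj)
            have hj1' := Finset.mem_filter.1 (Finset.mem_coe.1 hj')
            funext i
            induction i using Fin.lastCases with
            | last => rw [hj1.2, hj1'.2]
            | cast i => exact congrFun heq i
        have h5 : (Fintype.piFinset fun _ : Fin k => hnf.toFinset).card = hnf.toFinset.card ^ k := by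
          rw [Fintype.card_piFinset]
          simp
        rw [h5] at h3
        exact_mod_cast h3

/-- **perfect screening** -/
theorem screening (RH : RiemannHypothesis) (k : ℕ) (a b : Fin k → ℝ) {ε : ℝ} (hε : 0 < ε) :
    ∀ᶠ Y : ℝ in atTop, ∀ᶠ J : ℕ in atTop, ∀ᶠ X : ℝ in atTop, ∀ᶠ T : ℝ in atTop,
    ∑ᶠ j ∈ Tup k T a b, dv k J Y X T j ≤ ε * (T / (2 * Real.pi) * Real.log T) := by
  have hpi := Real.pi_pos
  set R := ∑ i, (|a i| + |b i|) with hR
  have hR0 : 0 ≤ R := Finset.sum_nonneg fun i _ => by positivity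
  have hab : ∀ i, |a i| ≤ R ∧ |b i| ≤ R := by
    intro i
    have h1 : |a i| + |b i| ≤ R :=
      Finset.single_le_sum (f := fun i => |a i| + |b i|) (fun i _ => by positivity) (Finset.mem_univ i)
    exact ⟨by linarith [abs_nonneg (b i)], by linarith [abs_nonneg (a i)]⟩
  filter_upwards [total RH k hR0 (by positivity : 0 < ε / (2 * Real.pi))] with Y hYJ
  filter_upwards [hYJ] with J hJX
  filter_upwards [hJX] with X hX0
  obtain ⟨⟨hJ, hY, hYR, hRX⟩, hX⟩ := hX0
  filter_upwards [hX, eventually_gt_atTop 1] with T hT hT1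
  refine (tup_sum hJ hT1 hY hR0 hRX hYR hab).trans (hT.trans (le_of_eq ?_))
  field_simp

end Pool.Agent.H478.RG
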